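import Pool.Agent.MP_be5fd0_gt.Defs

attribute [-instance] LeftPreLieAlgebra.toModule RightPreLieAlgebra.toModule Valued.toUniformSpace
  TotallySeparatedSpace.t2Space IsScalarTower.complexToReal
  NonarchimedeanAddGroup.toIsTopologicalAddGroup Action.FintypeCat.instMulActionObjFiniteOf
  Distrib.toAdd NonUnitalNonAssocRing.toAddCommGroup NonUnitalNonAssocSemiring.toAddCommMonoid
  Semiring.toAddCommMonoid MulSemiringAction.toDistribMulAction DivisionRing.toRing instSMulZeroClass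
  NonUnitalNormedRing.toNonUnitalSeminormedRing NonUnitalNonAssocSemiring.toMulZeroClass
  RKHS.instFunLike NonAssocSemiring.toAddCommMonoidWithOne ProperSMul.toContinuousSMul
  Ring.toAddCommGroup MonTypeEquivalenceMon.monMonoid Bialgebra.toAlgebra
  LieRinehartAlgebra.toIsScalarTower IsTopologicalTorsor.toContinuousSMul
  IsTopologicalSemiring.toContinuousAdd AddCommGroupWithOne.toAddGroupWithOne
  IsValuativeTopology.instIsTopologicalAddGroup NonUnitalNormedCommRing.toNonUnitalSeminormedCommRing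
  SMulCommClass.complexToReal DenselyNormedField.toNormedField IsModuleTopology.toContinuousSMul
  NormedCommRing.toCommRing LieAdmissibleRing.instLieRing IsIsometricSMul.to_continuousConstSMul
  CoalgHomClass.toSemilinearMapClass AddCommMonoidWithOne.toAddCommMonoid EuclideanDomain.toCommRing
  littleWedderburn SeminormedRing.toNonUnitalSeminormedRing SeminormedCommRing.toCommRing
  RightPreLieAlgebra.toSMulCommClass LieAdmissibleAlgebra.toSMulCommClass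
  NonAssocSemiring.toNonUnitalNonAssocSemiring AddCommGroupWithOne.toAddCommGroup
  CStarAlgebra.toNormedAlgebra LieAdmissibleAlgebra.toIsScalarTower
  NonAssocRing.toNonUnitalNonAssocRing LeftPreLieAlgebra.toSMulCommClass
  RingHomClass.toLinearMapClassNNRat LinearOrderedAddCommMonoidWithTop.toAddCommMonoid

/-! Definitions and block statements for the non-isotopy of two cohomologous symplectic forms on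
the four-torus. -/

namespace Pool.Agent.MP_be5fd0_gt.T

open Complex Filter Topology Set Metric MeasureTheory
open scoped ContDiff BoundedContinuousFunction

noncomputable section

abbrev E := EuclideanSpace ℂ (Fin 2)
abbrev Op := E →L[ℝ] E

def mk (a b : ℂ) : E := !₂[a, b]
def det2 (x y : E) : ℂ := x 0 * y 1 - x 1 * y 0
def sw (q : E) : E := mk (q 1) (q 0)

section Calc
variable {V : Type} [NormedAddCommGroup V] [NormedSpace ℝ V] [NormedSpace ℂ V]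

def del (u : ℂ → V) (z : ℂ) : V := (1 / 2 : ℂ) • (fderiv ℝ u z 1 - I • fderiv ℝ u z I)
def dbar (u : ℂ → V) (z : ℂ) : V := (1 / 2 : ℂ) • (fderiv ℝ u z 1 + I • fderiv ℝ u z I)
/-- Cauchy transform -/
def cT (g : ℂ → V) (z : ℂ) : V := ∫ w : ℂ, ((Real.pi : ℂ) * w)⁻¹ • g (z - w)
/-- supported in the disc of radius `ρ`, bounded by `m`, one-half Hoelder with constant `m` -/
structure Hc (ρ m : ℝ) (g : ℂ → V) : Prop where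
  supp : ∀ z, ρ ≤ ‖z‖ → g z = 0
  bd : ∀ z, ‖g z‖ ≤ m
  hol : ∀ z w, ‖g z - g w‖ ≤ m * √‖z - w‖

theorem ofReal_smul' [IsScalarTower ℝ ℂ V] (r : ℝ) (x : V) : (r : ℂ) • x = r • x :=
  algebraMap_smul ℂ r x

theorem fderiv_eq_del [IsScalarTower ℝ ℂ V] (u : ℂ → V) (z ζ : ℂ) :
    fderiv ℝ u z ζ = ζ • del u z + (starRingEnd ℂ ζ) • dbar u z := by
  have h : ζ = ζ.re • (1 : ℂ) + ζ.im • I := by simp
  have e : fderiv ℝ u z ζ = (ζ.re : ℂ) • fderiv ℝ u z 1 + (ζ.im : ℂ) • fderiv ℝ u z I := by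
    conv_lhs => rw [h]
    rw [map_add, map_smul, map_smul, ofReal_smul', ofReal_smul']
  have h1 : ζ = (ζ.re : ℂ) + (ζ.im : ℂ) * I := (re_add_im ζ).symm
  have h2 : starRingEnd ℂ ζ = (ζ.re : ℂ) - (ζ.im : ℂ) * I := by
    apply Complex.ext <;> simp
  rw [e, h2, del, dbar]
  generalize (ζ.re : ℂ) = a at h1 ⊢
  generalize (ζ.im : ℂ) = b at h1 ⊢
  subst h1
  match_scalars
  · ring
  · linear_combination b * I_sq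

theorem norm_half_le (L : ℂ →L[ℝ] V) :
    ‖(1 / 2 : ℂ) • (L 1 - I • L I)‖ ≤ ‖L‖ ∧ ‖(1 / 2 : ℂ) • (L 1 + I • L I)‖ ≤ ‖L‖ := by
  have h1 : ‖L 1‖ ≤ ‖L‖ := by simpa only [norm_one, mul_one] using L.le_opNorm 1
  have h2 : ‖I • L I‖ ≤ ‖L‖ := by rw [norm_smul]; simpa only [norm_I, one_mul, mul_one] using L.le_opNorm I
  have h3 := norm_sub_le (L 1) (I • L I)
  have h4 := norm_add_le (L 1) (I • L I)
  constructor <;> rw [norm_smul] <;> simp only [one_div, norm_inv, norm_ofNat] <;> linarith only [h1, h2, h3, h4]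

theorem norm_del_le (u : ℂ → V) (z : ℂ) : ‖del u z‖ ≤ ‖fderiv ℝ u z‖ := (norm_half_le _).1
theorem norm_dbar_le (u : ℂ → V) (z : ℂ) : ‖dbar u z‖ ≤ ‖fderiv ℝ u z‖ := (norm_half_le _).2

theorem norm_del_sub_le (u v : ℂ → V) (z w : ℂ) :
    ‖del u z - del v w‖ ≤ ‖fderiv ℝ u z - fderiv ℝ v w‖ := by
  convert (norm_half_le (fderiv ℝ u z - fderiv ℝ v w)).1 using 2
  simp only [del, sub_apply]; module

theorem norm_dbar_sub_le (u v : ℂ → V) (z w : ℂ) :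
    ‖dbar u z - dbar v w‖ ≤ ‖fderiv ℝ u z - fderiv ℝ v w‖ := by
  convert (norm_half_le (fderiv ℝ u z - fderiv ℝ v w)).2 using 2
  simp only [dbar, sub_apply]; module

theorem norm_fderiv_le_del [IsScalarTower ℝ ℂ V] (u : ℂ → V) (z : ℂ) :
    ‖fderiv ℝ u z‖ ≤ ‖del u z‖ + ‖dbar u z‖ := by
  refine ContinuousLinearMap.opNorm_le_bound _ (by positivity) fun ζ => ?_
  rw [fderiv_eq_del]
  refine (norm_add_le _ _).trans (le_of_eq ?_)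
  rw [norm_smul, norm_smul, Complex.norm_conj]; ring

theorem contDiff_del {u : ℂ → V} {m n : WithTop ℕ∞} [IsScalarTower ℝ ℂ V] (hu : ContDiff ℝ n u)
    (h : m + 1 ≤ n) : ContDiff ℝ m (del u) ∧ ContDiff ℝ m (dbar u) := by
  have h1 := hu.fderiv_right h
  have h2 : ContDiff ℝ m fun z => fderiv ℝ u z 1 := h1.clm_apply contDiff_const
  have h3 : ContDiff ℝ m fun z => fderiv ℝ u z I := h1.clm_apply contDiff_const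
  exact ⟨(h2.sub (h3.const_smul I)).const_smul _, (h2.add (h3.const_smul I)).const_smul _⟩

theorem continuous_del {u : ℂ → V} [IsScalarTower ℝ ℂ V] (hu : ContDiff ℝ 1 u) :
    Continuous (del u) ∧ Continuous (dbar u) :=
  ⟨(contDiff_del (m := 0) hu (by simp)).1.continuous,
    (contDiff_del (m := 0) hu (by simp)).2.continuous⟩

theorem del_add {u v : ℂ → V} {z : ℂ} (hu : DifferentiableAt ℝ u z) (hv : DifferentiableAt ℝ v z) :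
    del (fun w => u w + v w) z = del u z + del v z ∧
      dbar (fun w => u w + v w) z = dbar u z + dbar v z := by
  simp only [del, dbar, fderiv_fun_add hu hv, add_apply]
  constructor <;> module

theorem del_sub {u v : ℂ → V} {z : ℂ} (hu : DifferentiableAt ℝ u z) (hv : DifferentiableAt ℝ v z) :
    del (fun w => u w - v w) z = del u z - del v z ∧
      dbar (fun w => u w - v w) z = dbar u z - dbar v z := by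
  simp only [del, dbar, fderiv_fun_sub hu hv, sub_apply]
  constructor <;> module

theorem del_const (c : V) (z : ℂ) : del (fun _ => c) z = 0 ∧ dbar (fun _ => c) z = 0 := by
  simp [del, dbar]

theorem del_id (z : ℂ) : del (fun w : ℂ => w) z = 1 ∧ dbar (fun w : ℂ => w) z = 0 := by
  simp only [del, one_div, fderiv_fun_id, ContinuousLinearMap.id_apply, smul_eq_mul, I_mul_I, sub_neg_eq_add, dbar, add_neg_cancel, mul_zero, and_true]; norm_num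

theorem del_congr {u v : ℂ → V} {z : ℂ} (h : u =ᶠ[𝓝 z] v) :
    del u z = del v z ∧ dbar u z = dbar v z := by
  simp only [del, dbar, h.fderiv_eq, and_self]

theorem del_smul [IsScalarTower ℝ ℂ V] {f : ℂ → ℂ} {u : ℂ → V} {z : ℂ}
    (hf : DifferentiableAt ℝ f z) (hu : DifferentiableAt ℝ u z) :
    del (fun w => f w • u w) z = f z • del u z + del f z • u z ∧
      dbar (fun w => f w • u w) z = f z • dbar u z + dbar f z • u z := by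
  simp only [del, dbar, fderiv_fun_smul hf hu, add_apply,
    smul_apply, ContinuousLinearMap.smulRight_apply, smul_eq_mul]
  constructor <;> module

theorem del_clm {W : Type} [NormedAddCommGroup W] [NormedSpace ℝ W] [NormedSpace ℂ W]
    [IsScalarTower ℝ ℂ V] [IsScalarTower ℝ ℂ W] (L : V →L[ℂ] W) {u : ℂ → V} {z : ℂ}
    (hu : DifferentiableAt ℝ u z) :
    del (fun w => L (u w)) z = L (del u z) ∧ dbar (fun w => L (u w)) z = L (dbar u z) := by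
  have h : fderiv ℝ (fun w => L (u w)) z = (L.restrictScalars ℝ).comp (fderiv ℝ u z) :=
    ((L.restrictScalars ℝ).hasFDerivAt.comp z hu.hasFDerivAt).fderiv
  simp only [del, one_div, h, ContinuousLinearMap.comp_apply, ContinuousLinearMap.coe_restrictScalars', map_smul, map_sub, dbar, smul_add, map_add, and_self]

theorem differentiableAt_of_dbar [IsScalarTower ℝ ℂ V] {u : ℂ → V} {z : ℂ}
    (hu : DifferentiableAt ℝ u z) (h : dbar u z = 0) : HasDerivAt u (del u z) z := by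
  rw [hasDerivAt_iff_hasFDerivAt]
  refine hasFDerivAt_of_restrictScalars ℝ hu.hasFDerivAt ?_
  refine ContinuousLinearMap.ext fun ζ => ?_
  simp [fderiv_eq_del, h]

theorem dbar_of_hasDerivAt [IsScalarTower ℝ ℂ V] {u : ℂ → V} {z : ℂ} {d : V}
    (hu : HasDerivAt u d z) : del u z = d ∧ dbar u z = 0 := by
  have h := (hu.hasFDerivAt.restrictScalars ℝ).fderiv
  simp only [del, dbar, h, ContinuousLinearMap.coe_restrictScalars',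
    ContinuousLinearMap.toSpanSingleton_apply, one_smul, smul_smul, I_mul_I]
  constructor <;> module

theorem cT_add {g h : ℂ → V} {z : ℂ}
    (hg : Integrable fun w : ℂ => ((Real.pi : ℂ) * w)⁻¹ • g (z - w))
    (hh : Integrable fun w : ℂ => ((Real.pi : ℂ) * w)⁻¹ • h (z - w)) :
    cT (fun w => g w + h w) z = cT g z + cT h z ∧ cT (fun w => g w - h w) z = cT g z - cT h z := by
  simp only [cT, smul_add, smul_sub, integral_add hg hh, integral_sub hg hh, and_self]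

theorem cT_smul [IsScalarTower ℝ ℂ V] (c : ℝ) (g : ℂ → V) (z : ℂ) :
    cT (fun w => c • g w) z = c • cT g z := by
  simp only [cT, ← integral_smul, smul_comm c]

theorem cT_zero (z : ℂ) : cT (fun _ => (0 : V)) z = 0 := by simp [cT]
end Calc

/-! ### Cauchy transform -/

def StT1 : Prop :=
  (∀ ρ : ℝ, 0 < ρ → ∃ c : ℝ, 0 < c ∧ ∀ (V : Type) [NormedAddCommGroup V] [NormedSpace ℝ V]
    [NormedSpace ℂ V] [IsScalarTower ℝ ℂ V] [CompleteSpace V] (g : ℂ → V) (m : ℝ), Continuous g →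
    (∀ z, ρ ≤ ‖z‖ → g z = 0) → (∀ z, ‖g z‖ ≤ m) →
    (∀ z, Integrable (fun w : ℂ => ((Real.pi : ℂ) * w)⁻¹ • g (z - w))) ∧ Continuous (cT g) ∧
    (∀ z, ‖cT g z‖ ≤ c * m) ∧ (∀ z, ‖z‖ * ‖cT g z‖ ≤ c * m) ∧
    ∀ z w, ‖cT g z - cT g w‖ ≤ c * m * √‖z - w‖) ∧
  (∀ (V : Type) [NormedAddCommGroup V] [NormedSpace ℝ V]
    [NormedSpace ℂ V] [IsScalarTower ℝ ℂ V] [CompleteSpace V] (g : ℂ → V) (m ρ : ℝ),
    Continuous g → (∀ z, ρ ≤ ‖z‖ → g z = 0) → (∀ z, ‖g z‖ ≤ m) →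
    (∀ (K : Set ℂ) (v : ℝ), 0 ≤ v → MeasurableSet K → volume K ≤ ENNReal.ofReal v →
      (∀ z, z ∉ K → g z = 0) → ∀ z, ‖cT g z‖ ≤ m * (2 + v)) ∧
    (∀ z r, 0 < r → (∀ w, r ≤ ‖w - z‖ → g w = 0) → ‖cT g z‖ ≤ 2 * r * m) ∧
    (∀ z r, 0 < r → (∀ w, ‖w - z‖ < r → g w = 0) → ‖cT g z‖ ≤ r⁻¹ * ∫ w, ‖g w‖))

def StT2 : Prop :=
  ∀ ρ : ℝ, 0 < ρ → ∃ c : ℝ, 0 < c ∧ ∀ (V : Type) [NormedAddCommGroup V] [NormedSpace ℝ V]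
    [NormedSpace ℂ V] [IsScalarTower ℝ ℂ V] [CompleteSpace V] (g : ℂ → V) (m : ℝ), Hc ρ m g →
    ContDiff ℝ 1 (cT g) ∧ (∀ z, dbar (cT g) z = g z) ∧ (∀ z, ‖fderiv ℝ (cT g) z‖ ≤ c * m) ∧
    ∀ z w, ‖fderiv ℝ (cT g) z - fderiv ℝ (cT g) w‖ ≤ c * m * √‖z - w‖

def StT3 : Prop :=
  ∀ (V : Type) [NormedAddCommGroup V] [NormedSpace ℝ V]
    [NormedSpace ℂ V] [IsScalarTower ℝ ℂ V] [CompleteSpace V] (F : ℂ → V) (v : V) (ρ : ℝ),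
    ContDiff ℝ 1 F → Tendsto F (cocompact ℂ) (𝓝 v) → (∀ z, ρ ≤ ‖z‖ → dbar F z = 0) →
    ∀ z, F z = v + cT (dbar F) z

def StSim : Prop :=
  ∀ ρ M : ℝ, 0 < ρ → 0 ≤ M → ∃ C : ℝ, 0 < C ∧ ∀ (f : ℂ → ℂ) (v : ℂ) (ε : ℝ), 0 ≤ ε →
    ContDiff ℝ 1 f → Tendsto f (cocompact ℂ) (𝓝 v) → (∀ z, ρ ≤ ‖z‖ → dbar f z = 0) →
    (∀ z, ‖dbar f z‖ ≤ M * ‖f z‖ + ε) →
    ∀ z, ‖f z‖ ≤ C * (‖v‖ + ε) ∧ ‖v‖ ≤ C * (‖f z‖ + ε)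

/-! ### null Lagrangians and plane maps -/

def jac (g : ℂ → ℂ) (z : ℂ) : ℝ := (fderiv ℝ g z).det
def QC (K : ℝ) (g : ℂ → ℂ) (z : ℂ) : Prop := ‖fderiv ℝ g z‖ ^ 2 ≤ K * jac g z

def StN0 : Prop :=
  ∀ f g : ℂ → ℝ, ContDiff ℝ 1 f → ContDiff ℝ 1 g → HasCompactSupport f →
    ∫ z, (fderiv ℝ f z 1 * fderiv ℝ g z I - fderiv ℝ f z I * fderiv ℝ g z 1) = 0

def StN1 : Prop :=
  ∀ (g₀ g₁ : ℂ → ℂ) (φ : ℂ → ℝ) (ρ : ℝ), ContDiff ℝ 1 g₀ → ContDiff ℝ 1 g₁ → ContDiff ℝ 1 φ →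
    HasCompactSupport φ →
    (∀ z, ρ ≤ ‖z‖ → ∀ t ∈ Icc (0 : ℝ) 1, φ ((1 - t) • g₀ z + t • g₁ z) = 0) →
    ∫ z, φ (g₀ z) * jac g₀ z = ∫ z, φ (g₁ z) * jac g₁ z

def StN2 : Prop :=
  (∀ (g : ℂ → ℂ) (z : ℂ), jac g z = ‖del g z‖ ^ 2 - ‖dbar g z‖ ^ 2 ∧
    ‖fderiv ℝ g z‖ = ‖del g z‖ + ‖dbar g z‖) ∧
  ∀ (w : ℂ → ℂ) (ρ : ℝ), ContDiff ℝ 1 w → Tendsto w (cocompact ℂ) (𝓝 0) →
    (∀ z, ρ ≤ ‖z‖ → dbar w z = 0) →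
    Integrable (fun z => ‖del w z‖ ^ 2) ∧ Integrable (fun z => ‖dbar w z‖ ^ 2) ∧
    ∫ z, ‖del w z‖ ^ 2 = ∫ z, ‖dbar w z‖ ^ 2

def StQ1 : Prop :=
  (∀ (g : ℂ → ℂ) (C : ℝ), ContDiff ℝ 1 g → (∀ z, ‖g z - z‖ ≤ C) → (∀ z, 0 < jac g z) →
    Function.Bijective g) ∧
  (∀ (g : ℂ → ℂ) (C : ℝ), ContDiff ℝ 1 g → (∀ z, ‖g z - z‖ ≤ C) →
    (∀ z, ‖g z‖ < 1 → DifferentiableAt ℂ g z) → ∀ z₁ z₂, g z₁ = 0 → g z₂ = 0 → z₁ = z₂) ∧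
  (∀ (g : ℂ → ℂ) (y : ℂ) (K : ℝ), ContDiff ℝ 1 g → Tendsto g (cocompact ℂ) (𝓝 y) → 0 ≤ K →
    (∀ z, 0 ≤ jac g z) → (∀ z, QC K g z) → ∀ z, g z = y)

def StQ2 : Prop :=
  ∀ K C r : ℝ, 0 < K → 0 < r → ∃ m : ℝ, 0 < m ∧ ∀ g : ℂ → ℂ, ContDiff ℝ 1 g →
    Function.Bijective g → (∀ z, ‖g z - z‖ ≤ C) → (∀ z, QC K g z) →
    ∀ z z', r ≤ ‖z - z'‖ → m ≤ ‖g z - g z'‖

def StQ3 : Prop :=
  ∀ (g : ℂ → ℂ) (z₀ : ℂ) (K r t m M : ℝ), ContDiff ℝ 1 g → Function.Injective g → 0 < K →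
    0 < t → t < r → 0 < m → 0 < M → (∀ z, ‖z - z₀‖ ≤ r → QC K g z) →
    (∀ z, ‖z - z₀‖ = r → m ≤ ‖g z - g z₀‖) → (∀ z, ‖z - z₀‖ = t → ‖g z - g z₀‖ ≤ M) →
    Real.log (m / M) ≤ K * Real.log (r / t)

def StQ4 : Prop :=
  ∀ ρ ε μ : ℝ, 0 < ρ → 0 < ε → 0 < μ → ∃ δ : ℝ, 0 < δ ∧ ∀ τ : ℂ → ℂ, ContDiff ℝ 1 τ →
    Tendsto (fun z => τ z - z) (cocompact ℂ) (𝓝 0) → (∀ z, ρ ≤ ‖z‖ → dbar τ z = 0) →
    (∀ z, ‖dbar τ z‖ ≤ δ * ‖del τ z‖) → (∀ z z', ‖z - z'‖ ≤ μ → ‖τ z - τ z'‖ ≤ ε) →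
    ∀ z, ‖τ z - z‖ ≤ 3 * ε

/-! ### coefficient fields and normalised planes -/

structure Fld (A : E → Op) (a M R : ℝ) : Prop where
  smooth : ContDiff ℝ ∞ A
  anti : ∀ q w, A q (I • w) = -(I • A q w)
  a0 : 0 ≤ a
  a1 : a < 1
  R0 : 0 < R
  le : ∀ q, ‖A q‖ ≤ a
  bd : ∀ k ≤ 3, ∀ q, ‖iteratedFDeriv ℝ k A q‖ ≤ M
  supp : ∀ q, R ≤ ‖q 0‖ → A q = 0

structure Sol (A : E → Op) (y : ℂ) (u : ℂ → E) : Prop where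
  c1 : ContDiff ℝ 1 u
  eq : ∀ z, dbar u z = A (u z) (del u z)
  asy : Tendsto (fun z => u z - mk z y) (cocompact ℂ) (𝓝 0)

/-- the coordinate swap as a real operator -/
def swL : Op :=
  (LinearMap.toContinuousLinearMap
    { toFun := sw
      map_add' := fun x y => by ext i; fin_cases i <;> simp [sw, mk]
      map_smul' := fun c x => by ext i; fin_cases i <;> simp [sw, mk] } : E →L[ℝ] E)

def swF (A : E → Op) (q : E) : Op := swL * A (sw q) * swL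
def Fld2 (A : E → Op) (a M R : ℝ) : Prop := Fld A a M R ∧ Fld (swF A) a M R

def Ph (A : E → Op) (q : E) : Op := Ring.inverse (1 + A q)

/-- zero order term of the linearised equation in the frame `1 + A` -/
def Rr (A : E → Op) (q η : E) : Op :=
  Ring.inverse (1 - A q * A q) *
    ((fderiv ℝ A q).flip η * (1 + A q) -
      (1 / 2 : ℂ) • (fderiv ℝ A q ((1 + A q) η) + I • fderiv ℝ A q ((1 + A q) (I • η))) +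
      A q * ((1 / 2 : ℂ) • (fderiv ℝ A q ((1 + A q) η) - I • fderiv ℝ A q ((1 + A q) (I • η)))))

structure Lin (A : E → Op) (u : ℂ → E) (v : ℂ) (ξ : ℂ → E) : Prop where
  c1 : ContDiff ℝ 1 ξ
  eq : ∀ z, dbar ξ z = Rr A (u z) (del u z) (ξ z)
  asy : Tendsto ξ (cocompact ℂ) (𝓝 (mk 0 v))

def StSw : Prop :=
  (∀ q, swL q = sw q) ∧ (∀ q, sw (sw q) = q) ∧ (∀ q, ‖sw q‖ = ‖q‖) ∧
  (∀ (c : ℂ) q, sw (c • q) = c • sw q) ∧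
  (∀ x y, det2 (sw x) (sw y) = -det2 x y) ∧ (∀ A, swF (swF A) = A) ∧
  (∀ (s : ℝ) A, swF (s • A) = s • swF A) ∧
  (∀ A a M R, ∀ s ∈ Icc (0 : ℝ) 1, Fld A a M R → Fld (s • A) a M R) ∧
  (∀ A a M R, Fld2 A a M R → ∀ q, R ≤ ‖q 1‖ → A q = 0) ∧
  (∀ (w : ℂ → E) z, del (fun t => sw (w t)) z = sw (del w z) ∧
    dbar (fun t => sw (w t)) z = sw (dbar w z)) ∧
  (∀ A x w, Sol (swF A) x w → ∀ z,
    dbar (fun t => sw (w t)) z = A (sw (w z)) (del (fun t => sw (w t)) z)) ∧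
  (∀ a b : ℂ, ‖mk a b‖ ≤ ‖a‖ + ‖b‖) ∧ (∀ (q : E) i, ‖q i‖ ≤ ‖q‖) ∧
  (∀ x y, ‖det2 x y‖ ≤ ‖x‖ * ‖y‖) ∧
  (∀ y, ContDiff ℝ ∞ (fun z => mk z y) ∧ (∀ z, del (fun z => mk z y) z = mk 1 0) ∧
    ∀ z, dbar (fun z => mk z y) z = 0)

def StRr : Prop :=
  ∀ a M R : ℝ, ∃ C : ℝ, 0 < C ∧ ∀ A, Fld A a M R →
    (∀ q, (1 + A q) * Ph A q = 1 ∧ Ph A q * (1 + A q) = 1 ∧ ‖Ph A q‖ ≤ C ∧
      ‖fderiv ℝ (Ph A) q‖ ≤ C ∧ IsUnit (1 - A q * A q) ∧ ‖Ring.inverse (1 - A q * A q)‖ ≤ C ∧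
      ∀ w, Ring.inverse (1 - A q * A q) (I • w) = I • Ring.inverse (1 - A q * A q) w) ∧
    ContDiff ℝ ∞ (Ph A) ∧ ContDiff ℝ ∞ (fun q => Ring.inverse (1 - A q * A q)) ∧
    ContDiff ℝ ∞ (fun p : E × E => Rr A p.1 p.2) ∧
    (∀ q q', ‖Ring.inverse (1 - A q * A q) - Ring.inverse (1 - A q' * A q')‖ ≤ C * ‖q - q'‖) ∧
    (∀ q η, ‖Rr A q η‖ ≤ C * ‖η‖) ∧
    (∀ q q' η η', ‖Rr A q η - Rr A q' η'‖ ≤ C * (‖η‖ * ‖q - q'‖ + ‖η - η'‖)) ∧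
    (∀ q η, Rr A q η (I • η) = I • Rr A q η η) ∧
    (∀ q, R ≤ ‖q 0‖ → fderiv ℝ A q = 0 ∧ ∀ η, Rr A q η = 0) ∧
    (∀ (u : ℂ → E) z, dbar u z = A (u z) (del u z) →
      ∀ ζ : ℂ, fderiv ℝ u z ζ = (1 + A (u z)) (ζ • del u z)) ∧
    (∀ (u ξ : ℂ → E) z, DifferentiableAt ℝ u z → DifferentiableAt ℝ ξ z →
      dbar u z = A (u z) (del u z) →
      dbar (fun w => (1 + A (u w)) (ξ w)) z - A (u z) (del (fun w => (1 + A (u w)) (ξ w)) z) -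
        fderiv ℝ A (u z) ((1 + A (u z)) (ξ z)) (del u z) =
      (1 - A (u z) * A (u z)) (dbar ξ z - Rr A (u z) (del u z) (ξ z)))

def StReg : Prop :=
  ∀ A a M R y u, Fld A a M R → Sol A y u → ContDiff ℝ 1 (del u) ∧ ContDiff ℝ 2 u ∧
    (∀ z, dbar (del u) z = Rr A (u z) (del u z) (del u z)) ∧
    Tendsto (del u) (cocompact ℂ) (𝓝 (mk 1 0))

def StEn : Prop :=
  ∀ a M R : ℝ, ∃ C : ℝ, 0 < C ∧ ∀ A y u, Fld A a M R → Sol A y u →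
    volume {z | ‖u z 0‖ ≤ R} ≤ ENNReal.ofReal C ∧ ∀ z₀, ∫ z in ball z₀ 1, ‖del u z‖ ^ 2 ≤ C

def StSm : Prop :=
  ∀ a C ε : ℝ, 0 ≤ a → a < 1 → 0 < ε → ∃ r : ℝ, 0 < r ∧ r ≤ 1 ∧ ∀ u : ℂ → E, ContDiff ℝ 2 u →
    (∀ z, ‖dbar u z‖ ≤ a * ‖del u z‖) → ∀ z₀, ∫ z in ball z₀ 1, ‖del u z‖ ^ 2 ≤ C →
    ∫ z in ball z₀ r, ‖del u z‖ ^ 2 ≤ ε

structure Bd (R C : ℝ) (y : ℂ) (u : ℂ → E) : Prop where
  b0 : ∀ z, ‖u z - mk z y‖ ≤ C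
  dec : ∀ z, ‖z‖ * ‖u z - mk z y‖ ≤ C
  b1 : ∀ z, ‖fderiv ℝ u z‖ ≤ C
  lip : ∀ z w, ‖fderiv ℝ u z - fderiv ℝ u w‖ ≤ C * ‖z - w‖
  bη : ∀ z, ‖del u z‖ ≤ C
  lipη : ∀ z w, ‖del u z - del u w‖ ≤ C * ‖z - w‖
  decη : ∀ z, ‖z‖ * ‖del u z - mk 1 0‖ ≤ C
  out : ∀ z, C ≤ ‖z‖ → R + 1 ≤ ‖u z 0‖

def StAp : Prop :=
  ∀ a M R : ℝ, ∃ C : ℝ, 0 < C ∧ ∀ A y u, Fld A a M R → Sol A y u → Bd R C y u

def StInt : Prop :=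
  ∀ C ε : ℝ, 0 < ε → ∃ δ : ℝ, 0 < δ ∧ ∀ u u' : ℂ → E, ContDiff ℝ 1 u → ContDiff ℝ 1 u' →
    (∀ z w, ‖fderiv ℝ u z - fderiv ℝ u w‖ ≤ C * ‖z - w‖) →
    (∀ z w, ‖fderiv ℝ u' z - fderiv ℝ u' w‖ ≤ C * ‖z - w‖) → (∀ z, ‖u z - u' z‖ ≤ δ) →
    ∀ z, ‖fderiv ℝ u z - fderiv ℝ u' z‖ ≤ ε ∧ ‖del u z - del u' z‖ ≤ ε

def StCpt : Prop :=
  ∀ (a M R : ℝ) (A : ℕ → E → Op) (B : E → Op) (y : ℕ → ℂ) (y₀ : ℂ) (u : ℕ → ℂ → E),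
    (∀ n, Fld (A n) a M R) → Fld B a M R → (∀ q, Tendsto (fun n => A n q) atTop (𝓝 (B q))) →
    Tendsto y atTop (𝓝 y₀) → (∀ n, Sol (A n) (y n) (u n)) →
    ∃ (w : ℂ → E) (φ : ℕ → ℕ), StrictMono φ ∧ Sol B y₀ w ∧
      TendstoUniformly (fun n => u (φ n)) w atTop ∧
      TendstoUniformly (fun n => del (u (φ n))) (del w) atTop

def StConv : Prop :=
  ∀ (a M R : ℝ) (A : ℕ → E → Op) (B : E → Op) (y : ℕ → ℂ) (y₀ : ℂ) (u : ℕ → ℂ → E) (w : ℂ → E),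
    (∀ n, Fld (A n) a M R) → Fld B a M R → (∀ q, Tendsto (fun n => A n q) atTop (𝓝 (B q))) →
    Tendsto y atTop (𝓝 y₀) → (∀ n, Sol (A n) (y n) (u n)) → (∀ w', Sol B y₀ w' → w' = w) →
    TendstoUniformly u w atTop ∧ TendstoUniformly (fun n => del (u n)) (del w) atTop

def StTriv : Prop :=
  (∀ A y u, Sol A y u → (∀ z, A (u z) = 0) → u = fun z => mk z y) ∧
  (∀ (A : E → Op) y, (∀ z, A (mk z y) = 0) → Sol A y (fun z => mk z y)) ∧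
  ∀ a M R : ℝ, ∃ C : ℝ, 0 < C ∧ ∀ A y u, Fld2 A a M R → Sol A y u →
    (C ≤ ‖y‖ ∨ ∃ z, C ≤ ‖u z 1‖) → u = fun z => mk z y

def StF : Prop :=
  ∀ a M R : ℝ, ∃ C : ℝ, 0 < C ∧ ∀ A y u v ξ, Fld A a M R → Sol A y u → Lin A u v ξ →
    Tendsto (fun z => det2 (del u z) (ξ z)) (cocompact ℂ) (𝓝 v) ∧
    (∀ z, ‖det2 (del u z) (ξ z)‖ ≤ C * ‖v‖ ∧ ‖v‖ ≤ C * ‖det2 (del u z) (ξ z)‖) ∧
    (∀ z w, ‖det2 (del u z) (ξ z) - det2 (del u w) (ξ w)‖ ≤ C * ‖v‖ * √‖z - w‖) ∧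
    ∀ y' u' ξ' (ε : ℝ), Sol A y' u' → Lin A u' v ξ' →
      (∀ z, ‖u z - u' z‖ ≤ ε ∧ ‖del u z - del u' z‖ ≤ ε) →
      ∀ z, ‖det2 (del u z) (ξ z) - det2 (del u' z) (ξ' z)‖ ≤ C * ε * ‖v‖

def StLin : Prop :=
  ∀ A a M R y u, Fld A a M R → Sol A y u → (∀ z, del u z ≠ 0) →
    (∀ ξ, Lin A u 0 ξ → ∀ z, ξ z = 0) ∧
    ∀ ρ : ℝ, 0 < ρ → (∀ z, ρ ≤ ‖z‖ → R ≤ ‖u z 0‖) → ∀ (h : ℂ → E) (m : ℝ), Hc ρ m h →
      ∃ (g : ℂ → E) (m' : ℝ), Hc ρ m' g ∧ ∀ z, g z - Rr A (u z) (del u z) (cT g z) = h z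

/-! ### Hoelder spaces and the implicit function theorem -/

def OffD : Type := {p : ℂ × ℂ // p.1 ≠ p.2}
instance : TopologicalSpace OffD := inferInstanceAs (TopologicalSpace {p : ℂ × ℂ // p.1 ≠ p.2})

/-- bounded one-half Hoelder functions, as pairs (function, difference quotient) -/
def Hol (V : Type) [NormedAddCommGroup V] [NormedSpace ℝ V] :
    Submodule ℝ ((ℂ →ᵇ V) × (OffD →ᵇ V)) where
  carrier := {p | ∀ d : OffD, p.2 d = (√‖d.1.1 - d.1.2‖)⁻¹ • (p.1 d.1.1 - p.1 d.1.2)}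
  add_mem' := fun {p q} hp hq d => by
    have h1 := hp d; have h2 := hq d
    simp only [Prod.snd_add, Prod.fst_add, BoundedContinuousFunction.add_apply, h1, h2]
    module
  zero_mem' := fun d => by simp only [Prod.snd_zero, BoundedContinuousFunction.coe_zero, Pi.zero_apply, ne_eq, Prod.fst_zero, sub_self, smul_zero]
  smul_mem' := fun c p hp d => by
    have h1 := hp d
    simp only [Prod.smul_snd, Prod.smul_fst, BoundedContinuousFunction.smul_apply, h1]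
    module

instance (V : Type) [NormedAddCommGroup V] [NormedSpace ℝ V] [CompleteSpace V] :
    CompleteSpace (Hol V) := by
  refine IsClosed.completeSpace_coe (hs := ?_)
  change IsClosed {p : (ℂ →ᵇ V) × (OffD →ᵇ V) |
    ∀ d : OffD, p.2 d = (√‖d.1.1 - d.1.2‖)⁻¹ • (p.1 d.1.1 - p.1 d.1.2)}
  rw [ofPred_forall]
  exact isClosed_iInter fun d => isClosed_eq (by fun_prop) (by fun_prop)

/-- the underlying function -/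
def fn {V : Type} [NormedAddCommGroup V] [NormedSpace ℝ V] (g : Hol V) : ℂ → V := g.1.1

/-- Hoelder functions vanishing outside the disc of radius `ρ` -/
def Ys (ρ : ℝ) : Submodule ℝ (Hol E) where
  carrier := {g | ∀ z, ρ ≤ ‖z‖ → fn g z = 0}
  add_mem' := fun {p q} hp hq z hz => by
    have h1 := hp z hz; have h2 := hq z hz
    simp only [fn] at h1 h2 ⊢
    simp [h1, h2]
  zero_mem' := fun z _ => by simp only [fn, ZeroMemClass.coe_zero, Prod.fst_zero, BoundedContinuousFunction.coe_zero, Pi.zero_apply]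
  smul_mem' := fun c p hp z hz => by
    have h1 := hp z hz
    simp only [fn] at h1 ⊢
    simp only [SetLike.val_smul, Prod.smul_fst, BoundedContinuousFunction.coe_smul, h1, smul_zero]

instance (ρ : ℝ) : CompleteSpace (Ys ρ) := by
  refine IsClosed.completeSpace_coe (hs := ?_)
  change IsClosed {g : Hol E | ∀ z, ρ ≤ ‖z‖ → fn g z = 0}
  simp only [ofPred_forall, fn]
  exact isClosed_iInter fun z => isClosed_iInter fun _ => isClosed_eq (by fun_prop) (by fun_prop)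

def StH1 : Prop :=
  (∀ (V : Type) [NormedAddCommGroup V] [NormedSpace ℝ V],
    (∀ g h : Hol V, fn g = fn h → g = h) ∧
    (∀ (g : Hol V), (∀ z, ‖fn g z‖ ≤ ‖g‖) ∧ ∀ z w, ‖fn g z - fn g w‖ ≤ ‖g‖ * √‖z - w‖) ∧
    ∀ (f : ℂ → V) (m : ℝ), (∀ z, ‖f z‖ ≤ m) → (∀ z w, ‖f z - f w‖ ≤ m * √‖z - w‖) →
      ∃ g : Hol V, fn g = f ∧ ‖g‖ ≤ m) ∧
  (∀ (V W : Type) [NormedAddCommGroup V] [NormedSpace ℝ V] [NormedAddCommGroup W]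
    [NormedSpace ℝ W] (L : V →L[ℝ] W),
    ∃ N : Hol V →L[ℝ] Hol W, ∀ g z, fn (N g) z = L (fn g z)) ∧
  ∀ (V W X : Type) [NormedAddCommGroup V] [NormedSpace ℝ V] [NormedAddCommGroup W]
    [NormedSpace ℝ W] [NormedAddCommGroup X] [NormedSpace ℝ X] (B : V →L[ℝ] W →L[ℝ] X),
    ∃ N : Hol V →L[ℝ] Hol W →L[ℝ] Hol X, ∀ g h z, fn (N g h) z = B (fn g z) (fn h z)

def StH2 : Prop :=
  ∀ (V W : Type) [NormedAddCommGroup V] [NormedSpace ℝ V] [NormedAddCommGroup W]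
    [NormedSpace ℝ W] (F : V → W) (M : ℝ), ContDiff ℝ 3 F →
    (∀ k ≤ 3, ∀ q, ‖iteratedFDeriv ℝ k F q‖ ≤ M) →
    ∃ N : Hol V → Hol W, ContDiff ℝ 1 N ∧ (∀ g z, fn (N g) z = F (fn g z)) ∧
      ∀ g h z, fn (fderiv ℝ N g h) z = fderiv ℝ F (fn g z) (fn h z)

def StIFa : Prop :=
  ∀ A a M R (ρ : ℝ), Fld A a M R → 0 < ρ →
    ∃ (χ : ℂ → ℝ) (F : ℝ × ℂ × Ys (ρ + 1) → Ys (ρ + 1)), (∀ z, ‖z‖ ≤ ρ → χ z = 1) ∧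
      ContDiff ℝ 1 F ∧
      (∀ s y g z, fn (F (s, y, g)).1 z = fn g.1 z -
        (s * χ z) • A (mk z y + cT (fn g.1) z) (mk 1 0 + del (cT (fn g.1)) z)) ∧
      ∀ s y g s' v h z, fn (fderiv ℝ F (s, y, g) (s', v, h)).1 z = fn h.1 z -
        (s' * χ z) • A (mk z y + cT (fn g.1) z) (mk 1 0 + del (cT (fn g.1)) z) -
        (s * χ z) • (fderiv ℝ A (mk z y + cT (fn g.1) z) (mk 0 v + cT (fn h.1) z)
          (mk 1 0 + del (cT (fn g.1)) z) + A (mk z y + cT (fn g.1) z) (del (cT (fn h.1)) z))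

def StIFT : Prop :=
  ∀ A a M R (s₀ : ℝ) y₀ u₀, Fld A a M R → s₀ ∈ Icc (0 : ℝ) 1 → Sol (s₀ • A) y₀ u₀ →
    (∀ z, del u₀ z ≠ 0) →
    ∃ δ : ℝ, 0 < δ ∧ ∃ b : ℝ → ℂ → ℂ → E, b s₀ y₀ = u₀ ∧
      (∀ s y, |s - s₀| < δ → ‖y - y₀‖ < δ → Sol (s • A) y (b s y)) ∧
      (∀ s y, |s - s₀| < δ → ‖y - y₀‖ < δ → ∀ ε : ℝ, 0 < ε → ∃ δ' : ℝ, 0 < δ' ∧
        ∀ s' y', |s' - s| < δ' → ‖y' - y‖ < δ' → ∀ z, ‖b s' y' z - b s y z‖ ≤ ε) ∧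
      (∀ s ∈ Icc (0 : ℝ) 1, ∀ y u, |s - s₀| < δ → ‖y - y₀‖ < δ → Sol (s • A) y u →
        (∀ z, ‖u z - u₀ z‖ ≤ δ) → u = b s y) ∧
      ∃ ξ : ℂ → ℂ → E, (∀ v, Lin (s₀ • A) u₀ v (ξ v)) ∧ ∀ z₀, ∃ D : ℂ × ℂ →L[ℝ] E,
        HasStrictFDerivAt (fun p : ℂ × ℂ => b s₀ p.2 p.1) D (z₀, y₀) ∧
        ∀ ζ v, D (ζ, v) = fderiv ℝ u₀ z₀ ζ + (1 + (s₀ • A) (u₀ z₀)) (ξ v z₀)

/-! ### foliations -/

structure Str0 (A : E → Op) (U : ℂ → ℂ → E) (lb : E → ℂ) (L : ℂ → ℂ → ℂ →L[ℝ] ℂ) : Prop where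
  sol : ∀ y, Sol A y (U y)
  imm : ∀ y z, del (U y) z ≠ 0
  inj : ∀ y z y' z', U y z = U y' z' → y = y' ∧ z = z'
  surj : ∀ q, ∃ y z, U y z = q
  lab : ∀ y z, lb (U y z) = y
  c1 : ContDiff ℝ 1 lb
  par : ∃ Z : E → ℂ, ContDiff ℝ 1 Z ∧ ∀ y z, Z (U y z) = z
  lin : ∀ y v, ∃ ξ, Lin A (U y) v ξ ∧ ∀ z, L y z v = det2 (del (U y) z) (ξ z)
  der : ∀ y z n, L y z (fderiv ℝ lb (U y z) ((1 + A (U y z)) n)) = det2 (del (U y) z) n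

structure Str (A : E → Op) (U : ℂ → ℂ → E) (lb : E → ℂ) (L : ℂ → ℂ → ℂ →L[ℝ] ℂ) : Prop
    extends Str0 A U lb L where
  uniq : ∀ y u, Sol A y u → u = U y

def StStr1 : Prop :=
  ∀ A a M R (U : ℂ → ℂ → E), Fld2 A a M R → (∀ y, Sol A y (U y)) → (∀ y z, del (U y) z ≠ 0) →
    (∀ y (ε : ℝ), 0 < ε → ∃ δ : ℝ, 0 < δ ∧ ∀ y', ‖y' - y‖ < δ → ∀ z, ‖U y' z - U y z‖ ≤ ε) →
    ∃ lb L, Str0 A U lb L

def StL : Prop :=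
  ∀ a M R : ℝ, ∃ C : ℝ, 0 < C ∧ ∀ A U lb L, Fld A a M R → Str0 A U lb L →
    (∀ y z v, ‖L y z v‖ ≤ C * ‖v‖ ∧ ‖v‖ ≤ C * ‖L y z v‖) ∧ (∀ y z, C⁻¹ ≤ (L y z).det) ∧
    (∀ y z w, ‖L y z - L y w‖ ≤ C * √‖z - w‖) ∧
    (∀ y y' (ε : ℝ), (∀ z, ‖U y z - U y' z‖ ≤ ε ∧ ‖del (U y) z - del (U y') z‖ ≤ ε) →
      ∀ z, ‖L y z - L y' z‖ ≤ C * ε) ∧
    (∀ q q', ‖lb q - lb q'‖ ≤ C * ‖q - q'‖) ∧ (∀ q, ‖lb q - q 1‖ ≤ C) ∧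
    ∀ (w : ℂ → E) z, DifferentiableAt ℝ w z → dbar w z = A (w z) (del w z) →
      ∀ y z', U y z' = w z →
        (∀ ζ, L y z' (fderiv ℝ (fun t => lb (w t)) z ζ) = det2 (del (U y) z') (del w z) * ζ) ∧
        0 ≤ jac (fun t => lb (w t)) z ∧ QC C (fun t => lb (w t)) z ∧
        (det2 (del (U y) z') (del w z) ≠ 0 → 0 < jac (fun t => lb (w t)) z)

def StStr2 : Prop := ∀ A a M R U lb L, Fld A a M R → Str0 A U lb L → Str A U lb L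

structure Two (A : E → Op) (U : ℂ → ℂ → E) (lb : E → ℂ) (L : ℂ → ℂ → ℂ →L[ℝ] ℂ)
    (W : ℂ → ℂ → E) (lb' : E → ℂ) (L' : ℂ → ℂ → ℂ →L[ℝ] ℂ) : Prop where
  fst : Str A U lb L
  snd : Str (swF A) W lb' L'
  trans : ∀ y z x z', U y z = sw (W x z') → det2 (del (U y) z) (sw (del (W x) z')) ≠ 0

def Good (A : E → Op) : Prop := ∃ U lb L W lb' L', Two A U lb L W lb' L'

def StM1 : Prop :=
  (∀ A U lb L W lb' L', Two A U lb L W lb' L' → Two (swF A) W lb' L' U lb L) ∧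
  ∀ a M R : ℝ, ∃ C : ℝ, 0 < C ∧
    (∀ A U lb L W lb' L', Fld2 A a M R → Two A U lb L W lb' L' → ∀ y,
      ContDiff ℝ 1 (fun z => lb' (sw (U y z))) ∧ Function.Bijective (fun z => lb' (sw (U y z))) ∧
      (∀ z, ‖lb' (sw (U y z)) - z‖ ≤ C) ∧ (∀ z, 0 < jac (fun z => lb' (sw (U y z))) z) ∧
      (∀ z, QC C (fun z => lb' (sw (U y z))) z) ∧
      (∀ z z', ‖lb' (sw (U y z)) - lb' (sw (U y z'))‖ ≤ C * ‖z - z'‖) ∧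
      ∀ z, C ≤ ‖z‖ → lb' (sw (U y z)) = U y z 0) ∧
    ∀ r : ℝ, 0 < r → ∃ m : ℝ, 0 < m ∧
      ∀ A U lb L W lb' L', Fld2 A a M R → Two A U lb L W lb' L' → ∀ y z z', r ≤ ‖z - z'‖ →
        m ≤ ‖lb' (sw (U y z)) - lb' (sw (U y z'))‖

def StM2 : Prop :=
  ∀ a M R ε : ℝ, 0 < ε → ∃ δ : ℝ, 0 < δ ∧ ∀ A U lb L W lb' L', Fld2 A a M R →
    Two A U lb L W lb' L' → ∀ y y', ‖y - y'‖ ≤ δ → ∀ z, ‖U y z - U y' z‖ ≤ ε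

def StM3 : Prop :=
  ∀ a M R ε : ℝ, 0 < ε → ∃ δ : ℝ, 0 < δ ∧ ∀ A U lb L W lb' L', Fld2 A a M R →
    Two A U lb L W lb' L' → ∀ y z y' z', ‖U y z - U y' z'‖ ≤ δ → ‖L y z - L y' z'‖ ≤ ε

def StM4 : Prop :=
  ∀ a M R : ℝ, ∃ c : ℝ, 0 < c ∧ ∀ A U lb L W lb' L', Fld2 A a M R →
    Two A U lb L W lb' L' → ∀ y z x z', U y z = sw (W x z') →
      c ≤ ‖det2 (del (U y) z) (sw (del (W x) z'))‖

def StOp1 : Prop :=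
  ∀ A a M R, Fld2 A a M R → ∀ s₀ ∈ Icc (0 : ℝ) 1, ∀ U lb L, Str (s₀ • A) U lb L →
    ∃ δ : ℝ, 0 < δ ∧ ∀ s ∈ Icc (0 : ℝ) 1, |s - s₀| < δ → ∃ U' lb' L', Str (s • A) U' lb' L'

def StCl1 : Prop :=
  ∀ A a M R, Fld2 A a M R → ∀ (s : ℕ → ℝ) (s₀ c : ℝ) (U : ℕ → ℂ → ℂ → E), 0 < c →
    (∀ n, s n ∈ Icc (0 : ℝ) 1) → Tendsto s atTop (𝓝 s₀) →
    (∀ n, ∃ lb L, Str (s n • A) (U n) lb L) → (∀ n y z, c ≤ ‖del (U n y) z‖) →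
    ∃ U' lb' L', Str (s₀ • A) U' lb' L'

def StOpen : Prop :=
  ∀ A a M R, Fld2 A a M R → ∀ s₀ ∈ Icc (0 : ℝ) 1, Good (s₀ • A) →
    ∃ δ : ℝ, 0 < δ ∧ ∀ s ∈ Icc (0 : ℝ) 1, |s - s₀| < δ → Good (s • A)

def StClosed : Prop :=
  ∀ A a M R, Fld2 A a M R → ∀ (s : ℕ → ℝ) (s₀ : ℝ), (∀ n, s n ∈ Icc (0 : ℝ) 1) →
    Tendsto s atTop (𝓝 s₀) → (∀ n, Good (s n • A)) → Good (s₀ • A)

def StFol : Prop := ∀ A a M R, Fld2 A a M R → Good A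

/-- existence, uniqueness, disjointness and covering of the normalised planes -/
def StFolW : Prop :=
  ∀ A a M R, Fld A a M R → ∃ U : ℂ → ℂ → E, (∀ y, Sol A y (U y)) ∧
    (∀ y u, Sol A y u → u = U y) ∧ (∀ y z y' z', U y z = U y' z' → y = y' ∧ z = z') ∧
    ∀ q, ∃ y z, U y z = q

/-! ### back to the torus -/

def IsG (n : ℂ) : Prop := ∃ j k : ℤ, n = j + k * I
def Lat (n : E) : Prop := IsG (n 0) ∧ IsG (n 1)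
def Eqv (f : E → E) : Prop := ∀ x n, Lat n → f (x + n) = f x + n

structure Dif (f : E → E) : Prop where
  smooth : ContDiff ℝ ∞ f
  eqv : Eqv f
  inj : Function.Injective f
  dinj : ∀ x, Function.Injective (fderiv ℝ f x)

def IsoId (f : E → E) : Prop :=
  ∃ g : ℝ × E → E, Continuous g ∧ (∀ x, g (0, x) = x) ∧ (∀ x, g (1, x) = f x) ∧
    ∀ t ∈ Icc (0 : ℝ) 1, Eqv (fun x => g (t, x)) ∧ Function.Injective (fun x => g (t, x))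

def om0 (x y : E) : ℝ :=
  (x 0).re * (y 0).im - (x 0).im * (y 0).re + (x 1).re * (y 1).im - (x 1).im * (y 1).re

def Tame (f : E → E) : Prop := ∀ x v, v ≠ 0 → 0 < om0 (fderiv ℝ f x v) (fderiv ℝ f x (I • v))

def StJ : Prop :=
  ∀ ψ, Dif ψ → Tame ψ → ∃ (ψ' : E → E) (B : E → Op) (a C : ℝ), ContDiff ℝ ∞ ψ' ∧
    (∀ x, ψ' (ψ x) = x) ∧ (∀ q, ψ (ψ' q) = q) ∧ Eqv ψ' ∧ (∀ x, ‖ψ x - x‖ ≤ C) ∧
    ContDiff ℝ ∞ B ∧ (∀ q w, B q (I • w) = -(I • B q w)) ∧ 0 ≤ a ∧ a < 1 ∧ (∀ q, ‖B q‖ ≤ a) ∧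
    (∀ q n, Lat n → B (q + n) = B q) ∧
    ∀ (u : ℂ → E) z, DifferentiableAt ℝ u z → dbar u z = B (u z) (del u z) →
      DifferentiableAt ℂ (fun w => ψ' (u w)) z

def StPer : Prop :=
  ∀ (B : E → Op) (a R : ℝ), ContDiff ℝ ∞ B → (∀ q w, B q (I • w) = -(I • B q w)) → 0 ≤ a →
    a < 1 → (∀ q, ‖B q‖ ≤ a) → (∀ q n, Lat n → B (q + n) = B q) →
    ∃ (C : ℝ) (U : ℂ → ℝ → ℂ → ℂ → E),
      Continuous (fun t : ℂ × ℝ × ℂ × ℂ => U t.1 t.2.1 t.2.2.1 t.2.2.2) ∧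
      (∀ p s y z, ‖U p s y z - mk z y‖ ≤ C) ∧
      (∀ p s y z y' z', U p s y z = U p s y' z' → y = y' ∧ z = z') ∧
      (∀ p s q, ∃ y z, U p s y z = q) ∧
      (∀ p n, IsG n → U (p + n) = U p) ∧
      (∀ p s y z n, IsG n → U p s (y + n) z = U p s y z + mk 0 n) ∧
      (∀ p y z, U p 0 y z = mk z y) ∧
      ∀ p y, ContDiff ℝ 1 (U p 1 y) ∧ ∀ z, ‖U p 1 y z 0‖ ≤ R →
        dbar (U p 1 y) z = B (U p 1 y z + mk p 0) (del (U p 1 y) z)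

def va : E := mk 0 1
def vb : E := mk 0 (1 + I)
def vc : E := mk 0 I

structure Adm (D : E × ℝ → E) : Prop where
  per : ∀ x s n, Lat n → D (x + n, s) = D (x, s)
  zero : ∀ x, D (x, 0) = 0
  one : ∀ x, D (x, 1) = vc
  ne : ∀ x, ∀ s ∈ Icc (0 : ℝ) 1, D (x, s) ≠ va ∧ D (x, s) ≠ vb

def Htp (D D' : E × ℝ → E) : Prop :=
  ∃ G : ℝ × E × ℝ → E, Continuous G ∧ (∀ p, G (0, p) = D p) ∧ (∀ p, G (1, p) = D' p) ∧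
    ∀ t ∈ Icc (0 : ℝ) 1, Adm (fun p => G (t, p))

def Dseg (f : E → E) (p : E × ℝ) : E := f (p.1 + p.2 • vc) - f p.1
def D0 (p : E × ℝ) : E := mk ((p.2 * (1 - p.2) : ℝ) * I) (p.2 * I)

def StHtp : Prop :=
  (∀ D D', Htp D D' → Htp D' D) ∧ (∀ D D' D'', Htp D D' → Htp D' D'' → Htp D D'') ∧
  (∀ φ μ, Dif φ → IsoId μ → Htp (Dseg φ) (Dseg (fun x => φ (μ x)))) ∧
  (∀ f g, Dif f → Dif g → Dif (fun x => f (g x))) ∧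
  (∀ f g, IsoId f → IsoId g → IsoId (fun x => f (g x))) ∧ Dif id ∧ IsoId id ∧
  (∀ (X : Type) [NormedAddCommGroup X] (f : E → X), Continuous f →
    (∀ x n, Lat n → f (x + n) = f x) → ∃ C : ℝ, ∀ x, ‖f x‖ ≤ C) ∧
  ∀ x : E, ∃ n, Lat n ∧ ‖x - n‖ ≤ 1

def StGH : Prop := ∀ ψ, Dif ψ → Tame ψ → Htp (Dseg ψ) D0

/-! ### approximate Moser argument -/

abbrev Bil := E →L[ℝ] E →L[ℝ] ℝ

structure Sy (σ : E → Bil) : Prop where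
  smooth : ContDiff ℝ ∞ σ
  per : ∀ x n, Lat n → σ (x + n) = σ x
  anti : ∀ x v w, σ x v w = -σ x w v
  closed : ∀ x u v w, fderiv ℝ σ x u v w + fderiv ℝ σ x v w u + fderiv ℝ σ x w u v = 0
  nd : ∀ x v, v ≠ 0 → ∃ w, σ x v w ≠ 0

/-- `σ' = σ + d l` for a smooth periodic one-form `l` -/
def Coh (σ σ' : E → Bil) : Prop :=
  ∃ l : E → E →L[ℝ] ℝ, ContDiff ℝ ∞ l ∧ (∀ x n, Lat n → l (x + n) = l x) ∧
    ∀ x v w, σ' x v w = σ x v w + (fderiv ℝ l x v w - fderiv ℝ l x w v)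

def Near (σ σ' : E → Bil) (ε : ℝ) (m : E → E) : Prop :=
  Dif m ∧ IsoId m ∧
    ∀ x v w, |σ' (m x) (fderiv ℝ m x v) (fderiv ℝ m x w) - σ x v w| ≤ ε * ‖v‖ * ‖w‖

def StMo1 : Prop :=
  ∀ σ σ' : E → Bil, Coh σ σ' → (∀ t ∈ Icc (0 : ℝ) 1, Sy (fun x => (1 - t) • σ x + t • σ' x)) →
    ∀ ε : ℝ, 0 < ε → ∃ m, Near σ σ' ε m

def StMo2 : Prop :=
  ∀ P : ℝ → E → Bil, ContinuousOn (fun p : ℝ × E => P p.1 p.2) (Icc 0 1 ×ˢ univ) →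
    (∀ t ∈ Icc (0 : ℝ) 1, Sy (P t) ∧ Coh (P 0) (P t)) →
    ∀ ε : ℝ, 0 < ε → ∃ m, Near (P 0) (P 1) ε m

/-! ### the degree argument -/

def Qb (R : ℝ) : Set E := {e | (e 0).re ∈ Icc (0 : ℝ) 1 ∧ (e 0).im ∈ Icc (-1 : ℝ) 1 ∧
  (e 1).re ∈ Icc 0 R ∧ (e 1).im ∈ Icc 0 R}
def Qi (R : ℝ) : Set E := {e | (e 0).re ∈ Ioo (0 : ℝ) 1 ∧ (e 0).im ∈ Ioo (-1 : ℝ) 1 ∧
  (e 1).re ∈ Ioo 0 R ∧ (e 1).im ∈ Ioo 0 R}

/-- homotopy on `Ω` all of whose zeros lie in `U` -/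
def HR {X Y : Type} [TopologicalSpace X] [TopologicalSpace Y] [Zero Y] (Ω U : Set X)
    (F F' : X → Y) : Prop :=
  ∃ H : ℝ × X → Y, ContinuousOn H (Icc 0 1 ×ˢ Ω) ∧ (∀ p ∈ Ω, H (0, p) = F p) ∧
    (∀ p ∈ Ω, H (1, p) = F' p) ∧ ∀ t ∈ Icc (0 : ℝ) 1, ∀ p ∈ Ω, H (t, p) = 0 → p ∈ U

def StHR : Prop :=
  ∀ (X Y : Type) [TopologicalSpace X] [NormedAddCommGroup Y] [NormedSpace ℝ Y] (Ω U : Set X),
    (∀ F F' F'' : X → Y, HR Ω U F F' → HR Ω U F' F'' → HR Ω U F F'') ∧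
    ∀ F F' : X → Y, ContinuousOn F Ω → ContinuousOn F' Ω →
      (∀ t ∈ Icc (0 : ℝ) 1, ∀ p ∈ Ω, (1 - t) • F p + t • F' p = 0 → p ∈ U) → HR Ω U F F'

def StGlue : Prop :=
  ∀ (X : Type) [NormedAddCommGroup X] [NormedSpace ℝ X] [FiniteDimensional ℝ X] [Nontrivial X]
    (Q Q' Ω U : Set X) (F F' : X → X) (c p₀ : X) (D : X ≃L[ℝ] X), IsCompact Q → IsOpen Q' →
    Q' ⊆ Q → IsCompact Ω → IsOpen U → U ⊆ Ω → Ω ⊆ Q → U ⊆ Q' → c ≠ 0 →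
    HR Q Q' F (fun _ => c) → (∀ p ∈ Q, F p = 0 → p ∈ U) → HR Ω U F F' → p₀ ∈ U → F' p₀ = 0 →
    (∀ p ∈ Ω, F' p = 0 → p = p₀) → HasFDerivAt F' (D : X →L[ℝ] X) p₀ → False

def StDeg : Prop :=
  ∀ (F : ℝ × E × E → E × E) (R : ℝ) (c p₀ : E × E) (Ω U : Set (E × E)) (x₀ : E)
    (D : (E × E) ≃L[ℝ] (E × E)), Continuous F →
    (∀ t x e n, Lat n → F (t, x + n, e) = F (t, x, e)) →
    (∀ t ∈ Icc (0 : ℝ) 1, ∀ x, ∀ e ∈ Qb R, F (t, x, e) = 0 → e ∈ Qi R) → c ≠ 0 →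
    (∀ x, ∀ e ∈ Qb R, F (1, x, e) = c) → IsCompact Ω → IsOpen U → U ⊆ Ω →
    (∀ p ∈ Ω, p.2 ∈ Qb R ∧ ‖p.1 - x₀‖ < 1 / 2) → (∀ p ∈ U, p.2 ∈ Qi R) →
    (∀ x, ∀ e ∈ Qb R, F (0, x, e) = 0 → ∃ n, Lat n ∧ (x - n, e) ∈ U) → p₀ ∈ U →
    HR Ω U (fun p => F (0, p)) (fun p => D (p - p₀)) → False

/-! ### the diffeomorphism -/

def om (u : ℝ) : ℝ := 2 * Real.pi * Real.smoothTransition (50 * u + 1 / 2)
def ps (r : ℝ) : ℝ := Real.pi / 2 * Real.smoothTransition ((81 - 100 * r) / 17)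
def qw (o ψ : ℝ) : ℝ := 1 - Real.sin ψ ^ 2 * (1 - Real.cos o)
def qx (o ψ : ℝ) : ℝ := Real.sin ψ * Real.sin o
def qy (o ψ : ℝ) : ℝ := Real.sin ψ * Real.cos ψ * (1 - Real.cos o)
/-- conjugation by the quaternion `w + x i + y j` -/
def rot (w x y : ℝ) (z : ℝ × ℂ) : ℝ × ℂ :=
  ((1 - 2 * y ^ 2) * z.1 + 2 * x * y * z.2.re + 2 * y * w * z.2.im,
   ⟨2 * x * y * z.1 + (1 - 2 * x ^ 2) * z.2.re - 2 * x * w * z.2.im,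
    -(2 * y * w * z.1) + 2 * x * w * z.2.re + (1 - 2 * x ^ 2 - 2 * y ^ 2) * z.2.im⟩)
def nq (z : ℝ × ℂ) : ℝ := z.1 ^ 2 + normSq z.2
def mv (u : ℝ) (z : ℝ × ℂ) : ℝ × ℂ :=
  rot (qw (om u) (ps (nq z))) (qx (om u) (ps (nq z))) (qy (om u) (ps (nq z))) z
def mvi (u : ℝ) (z : ℝ × ℂ) : ℝ × ℂ :=
  rot (qw (om u) (ps (nq z))) (-qx (om u) (ps (nq z))) (-qy (om u) (ps (nq z))) z
def th (u : ℝ) : ℂ := (⟨Real.cos (om u), Real.sin (om u)⟩ : ℂ) ^ 2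
def Kf (t : ℝ) : ℝ := 2 * t - t ^ 2
def rho (t : ℝ) : ℝ := (1 + 256 * (t - 3 / 4) ^ 4) / 400

def tau0 (x : E) : E :=
  mk (rho ((mv ((x 1).im - Kf (x 1).re) ((x 1).re - 3 / 4, x 0 / rho (x 1).re)).1 + 3 / 4) *
      (mv ((x 1).im - Kf (x 1).re) ((x 1).re - 3 / 4, x 0 / rho (x 1).re)).2)
    ⟨(mv ((x 1).im - Kf (x 1).re) ((x 1).re - 3 / 4, x 0 / rho (x 1).re)).1 + 3 / 4,
      (x 1).im - Kf (x 1).re +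
      Kf ((mv ((x 1).im - Kf (x 1).re) ((x 1).re - 3 / 4, x 0 / rho (x 1).re)).1 + 3 / 4)⟩
def cell (x : E) : E :=
  mk ⟨round (x 0).re, round (x 0).im⟩ ⟨0, round ((x 1).im - Kf (x 1).re)⟩
def tauh (i : ℤ) (x : E) : E :=
  tau0 (x - mk 0 i - cell (x - mk 0 i)) + cell (x - mk 0 i) + mk 0 i
def phi (x : E) : E :=
  tauh (⌊(x 1).re⌋ + 2) (tauh (⌊(x 1).re⌋ + 1) (tauh ⌊(x 1).re⌋ (tauh (⌊(x 1).re⌋ - 1) x)))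

def StP0 : Prop :=
  ContDiff ℝ ∞ (fun p : ℝ × ℝ × ℂ => mv p.1 p.2) ∧ ContDiff ℝ ∞ (fun p : ℝ × ℝ × ℂ => mvi p.1 p.2) ∧
  (∀ u z, nq (mv u z) = nq z ∧ nq (mvi u z) = nq z ∧ mvi u (mv u z) = z ∧ mv u (mvi u z) = z) ∧
  (∀ u z, (1 / 100 ≤ |u| ∨ 81 / 100 ≤ nq z) → mv u z = z ∧ mvi u z = z) ∧
  (∀ u z, nq z ≤ 64 / 100 → mv u z = (z.1, th u * z.2) ∧ (mvi u z).1 = z.1) ∧
  (∀ u, ‖th u‖ = 1) ∧ Continuous th ∧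
  (∀ o ψ, qw o ψ ^ 2 + qx o ψ ^ 2 + qy o ψ ^ 2 = 1) ∧
  (∀ w x y z, w ^ 2 + x ^ 2 + y ^ 2 = 1 → nq (rot w x y z) = nq z ∧
    rot w (-x) (-y) (rot w x y z) = z) ∧
  (Continuous om ∧ om 0 = Real.pi ∧ (∀ u, 0 ≤ om u ∧ om u ≤ 2 * Real.pi) ∧
    (∀ u, u ≤ 0 → om u ≤ Real.pi) ∧ (∀ u, 0 ≤ u → Real.pi ≤ om u) ∧
    (∀ u, u ≤ -(1 / 100) → om u = 0) ∧ ∀ u, 1 / 100 ≤ u → om u = 2 * Real.pi) ∧
  (Continuous ps ∧ (∀ r, 0 ≤ ps r ∧ ps r ≤ Real.pi / 2) ∧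
    (∀ r, r ≤ 64 / 100 → ps r = Real.pi / 2) ∧ ∀ r, 81 / 100 ≤ r → ps r = 0) ∧
  (∀ t, 1 / 400 ≤ rho t) ∧ ContDiff ℝ ∞ rho

def StP1 : Prop :=
  ∀ i : ℤ, ContDiff ℝ ∞ (tauh i) ∧
    (∃ g : E → E, ContDiff ℝ ∞ g ∧ (∀ x, g (tauh i x) = x) ∧ ∀ x, tauh i (g x) = x) ∧
    (∀ x n, Lat n → (n 1).re = 0 → tauh i (x + n) = tauh i x + n) ∧
    (∀ (k : ℤ) x, tauh (i + k) (x + mk 0 k) = tauh i x + mk 0 k) ∧
    ∀ x, ((x 1).re ≤ (i : ℝ) - 3 / 20 ∨ (i : ℝ) + 33 / 20 ≤ (x 1).re) → tauh i x = x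

/-- `y` lies in the shell of the lift `(i, j)` in the cell `n` and `y'` is on the same level -/
def Lab (y y' : E) (i j : ℤ) (n : ℂ) : Prop :=
  ∃ t u T : ℝ, (y 1).re = i + t ∧ (y 1).im = j + u + Kf t ∧ |u| < 1 / 100 ∧
    (y' 1).re = i + T ∧ (y' 1).im = j + u + Kf T ∧
    64 / 100 < (t - 3 / 4) ^ 2 + normSq (y 0 - n) / rho t ^ 2 ∧
    (t - 3 / 4) ^ 2 + normSq (y 0 - n) / rho t ^ 2 < 81 / 100 ∧
    (T - 3 / 4) ^ 2 + normSq (y' 0 - n) / rho T ^ 2 =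
      (t - 3 / 4) ^ 2 + normSq (y 0 - n) / rho t ^ 2

/-- one lift either rotates about a lattice point or moves inside its shell -/
def StP2 : Prop :=
  ∀ (i : ℤ) (y : E),
    (tauh i y 1 = y 1 ∧ (tauh i y 0 = y 0 ∨ ∃ n, IsG n ∧ ‖tauh i y 0 - n‖ = ‖y 0 - n‖ ∧
      ‖y 0 - n‖ ≤ 9 / 20) ∨ ∃ j n, IsG n ∧ Lab y (tauh i y) i j n) ∧
    ∀ y' j n, IsG n → Lab y' y i j n →
      tauh (i + 1) y 1 = y 1 ∧ ‖tauh (i + 1) y 0 - n‖ = ‖y 0 - n‖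

def StP3 : Prop :=
  Dif phi ∧ (∀ y, ‖phi y 0 - y 0‖ ≤ 9 / 10) ∧
    (∀ y, phi y 1 = y 1 ∨ ∃ i j n, IsG n ∧ Lab y (phi y) i j n) ∧
    ∀ (y : E) (i j : ℤ) (n : ℂ) (y' : E), Lab y y' i j n → ‖y 0 - n‖ ≤ 9 / 20 ∧ ‖y' 0 - n‖ ≤ 9 / 20

def StP4 : Prop :=
  ∀ (y : E) (t u : ℝ), (y 1).re = t → (y 1).im = u + Kf (t + 1) → |t - 1 / 2| ≤ 1 / 100 →
    |u| ≤ 1 / 100 →
    (∀ m, m = mv u (t + 1 / 4, y 0 / rho (t + 1)) → 1 / 80 ≤ ‖y 0‖ → ‖y 0‖ ≤ 1 / 4 →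
      (phi y 1).re = m.1 - 1 / 4 ∧ (phi y 1).im = u + Kf (m.1 + 3 / 4) ∧
      ‖phi y 0‖ = rho (m.1 + 3 / 4) * ‖m.2‖ ∧ (m.1 = -(3 / 4) → phi y 0 = rho 0 * m.2)) ∧
    ∀ m, m = mv (u + 1 - 2 * t) (t - 3 / 4, th u * y 0 / rho t) → ‖y 0‖ ≤ 1 / 50 →
      (phi y 1).re = m.1 + 3 / 4 ∧ (phi y 1).im = u + 1 - 2 * t + Kf (m.1 + 3 / 4) ∧
      (m.1 = -(3 / 4) → phi y 0 = rho 0 * m.2)

def gam (s : ℝ) : E := mk ⟨0, 2 * min 1 (min (3 * s) (3 - 3 * s))⟩ ⟨0, max 0 (min 1 (3 * s - 1))⟩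

def Fneg (p : E × E) : E × E :=
  (phi (p.1 + gam (p.2 0).re + mk ⟨0, -2 * (p.2 0).im⟩ 0) - phi p.1 - va + mk ⟨0, (p.2 1).re⟩ 0,
   phi (p.1 + gam (p.2 0).re) - phi p.1 - vb + mk ⟨0, (p.2 1).im⟩ 0)

def tt (p : E × E) : ℝ := (p.1 1).re
def vv (p : E × E) : ℝ := (p.1 1).im
def uu (p : E × E) : ℝ := (p.1 1).im - Kf ((p.1 1).re + 1)
def oo (p : E × E) : ℝ := (p.1 0).re
def l0 (p : E × E) : ℝ := (p.1 0).im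
def l2 (p : E × E) : ℝ := (p.1 0).im + 6 * (p.2 0).re
def l1 (p : E × E) : ℝ := (p.1 0).im + 6 * (p.2 0).re - 2 * (p.2 0).im
def rr (p : E × E) : ℝ := (p.2 1).re
def rp (p : E × E) : ℝ := (p.2 1).im

def Om (R : ℝ) : Set (E × E) := {p | |tt p - 1 / 2| ≤ 1 / 100 ∧ |uu p| ≤ 1 / 100 ∧
  |oo p| ≤ 1 / 80 ∧ -(1 / 8) ≤ l0 p ∧ l0 p ≤ l2 p ∧ l2 p ≤ -(1 / 80) ∧ |l1 p| ≤ 1 / 80 ∧
  0 ≤ rr p ∧ rr p ≤ R ∧ 0 ≤ rp p ∧ rp p ≤ R}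
def Uo (R : ℝ) : Set (E × E) := {p | |tt p - 1 / 2| < 1 / 100 ∧ |uu p| < 1 / 100 ∧
  |oo p| < 1 / 80 ∧ -(1 / 8) < l0 p ∧ l0 p < l2 p ∧ l2 p < -(1 / 80) ∧ |l1 p| < 1 / 80 ∧
  0 < rr p ∧ rr p < R ∧ 0 < rp p ∧ rp p < R}

def m0 (p : E × E) : ℝ × ℂ := mv (uu p) (3 / 4, (⟨0, l0 p⟩ : ℂ) / rho 0)
def m2 (p : E × E) : ℝ × ℂ := mv (uu p) (3 / 4, (⟨0, l2 p⟩ : ℂ) / rho 0)
def m1 (p : E × E) : ℝ × ℂ := mv (uu p) (-(1 / 4), th (uu p) * ⟨oo p, l1 p⟩ / rho (1 / 2))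

def Sys1 (p : E × E) : E × E :=
  (mk (rho 0 * ((m1 p).2 - (m0 p).2) + ⟨0, rr p⟩) ⟨(m1 p).1 - (m0 p).1, 1 - 2 * tt p⟩,
   mk (-(rho 0 * (m0 p).2) + ⟨0, rp p⟩) ⟨(m2 p).1 - (m0 p).1 - 1, -2 * ((m0 p).1 + 3 / 4)⟩)
def Sys2 (p : E × E) : E × E :=
  (mk ⟨oo p, l1 p⟩ ⟨rr p - 1 / 2, 1 - 2 * tt p⟩,
   mk (-(rho 0 * (m0 p).2) + ⟨0, rp p⟩) ⟨l2 p + 1 / 40, -2 * ((m0 p).1 + 3 / 4)⟩)
def Sys3 (p : E × E) : E × E :=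
  (mk ⟨oo p, l1 p⟩ ⟨rr p - 1 / 2, 1 - 2 * tt p⟩,
   mk ⟨vv p - 3 / 4, rp p - 1 / 2⟩ ⟨l2 p + 1 / 40, -(l0 p + 1 / 16)⟩)

def StB2 : Prop :=
  ∀ R : ℝ, 1 ≤ R → ∀ x, ∀ e ∈ Qb R, (e 0).im ≤ 0 → Fneg (x, e) = 0 →
    ∃ n, Lat n ∧ (x - n, e) ∈ Uo R
def StB3a : Prop := ∀ R : ℝ, 1 ≤ R → HR (Om R) (Uo R) Fneg Sys1
def StB3b : Prop := ∀ R : ℝ, 1 ≤ R → HR (Om R) (Uo R) Sys1 Sys2
def StB3c : Prop := ∀ R : ℝ, 1 ≤ R → HR (Om R) (Uo R) Sys2 Sys3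
def StB4 : Prop :=
  ∀ R : ℝ, 1 ≤ R → IsCompact (Om R) ∧ IsOpen (Uo R) ∧ Uo R ⊆ Om R ∧
    (∀ p ∈ Om R, p.2 ∈ Qb R ∧ (p.2 0).im ≤ 0 ∧ ‖p.1 - mk 0 ⟨1 / 2, 3 / 4⟩‖ < 1 / 2) ∧
    (∀ p ∈ Uo R, p.2 ∈ Qi R) ∧
    ∃ (D : (E × E) ≃L[ℝ] (E × E)) (p₀ : E × E), p₀ ∈ Uo R ∧ ∀ p, Sys3 p = D (p - p₀)

def StNoH : Prop := ∃ φ, Dif φ ∧ ¬ Htp (Dseg φ) D0

def Final : Prop :=
  ∃ σ₀ σ₁ : (Fin 4 → ℝ) → (Fin 4 → ℝ) [⋀^Fin 2]→L[ℝ] ℝ,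
    (∀ x u v, σ₀ x ![u, v] = u 0 * v 1 - u 1 * v 0 + u 2 * v 3 - u 3 * v 2) ∧
    IsSymp σ₀ ∧ IsSymp σ₁ ∧ Cohom σ₀ σ₁ ∧
    ¬ ∃ Ω : ℝ → (Fin 4 → ℝ) → (Fin 4 → ℝ) [⋀^Fin 2]→L[ℝ] ℝ,
      ContinuousOn (fun p : ℝ × (Fin 4 → ℝ) => Ω p.1 p.2) (Icc 0 1 ×ˢ univ) ∧
      Ω 0 = σ₀ ∧ Ω 1 = σ₁ ∧ ∀ t ∈ Icc (0 : ℝ) 1, IsSymp (Ω t) ∧ Cohom σ₀ (Ω t)

end

end Pool.Agent.MP_be5fd0_gt.T
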