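import Pool.Agent.MP_be5fd0_gt.H27.Defs

attribute [-instance]
  TopologicalSpace.instSecondCountableTopologyOfLindelofSpaceOfPseudoMetrizableSpace
  IdemSemiring.toCanonicallyOrderedAdd RightPreLieAlgebra.toModule LeftPreLieAlgebra.toModule
  AddQuantale.instAddLeftMono GrpTypeEquivalenceGrp.grpGroup PolishSpace.toSecondCountableTopology
  NonUnitalNonAssocRing.toAddCommGroup MulSemiringAction.toDistribMulAction
  NonarchimedeanAddGroup.toIsTopologicalAddGroup ProperSMul.toContinuousSMul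
  IdemSemiring.toMulLeftMono NonUnitalNonAssocSemiring.toAddCommMonoid Valued.toUniformSpace
  NonarchimedeanRing.toIsTopologicalRing MonTypeEquivalenceMon.monMonoid
  TotallySeparatedSpace.t2Space RKHS.instFunLike IsOrderedMonoid.toMulLeftMono
  IsTopologicalTorsor.toContinuousSMul NumberField.to_charZero AddQuantale.instAddRightMono
  instSMulZeroClass continuousSub_of_discreteTopology Quantale.instMulLeftMono
  Action.FintypeCat.instMulActionObjFiniteOf AlexandrovDiscrete.toLocallyCompactSpace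
  Valued.isTopologicalDivisionRing littleWedderburn
  LinearOrderedCommMonoidWithZero.toPosMulStrictMono EMetric.secondCountable_of_sigmaCompact
  Bialgebra.toAlgebra Unique.instSubsingleton Quantale.instMulRightMono
  CoalgHomClass.toSemilinearMapClass
  MeasureTheory.instInnerRegularOfIsCompletelyPseudoMetrizableSpace
  LieRinehartAlgebra.toIsScalarTower Group.IsPerfect.subsingleton_of_isMulCommutative
  IsScalarTower.complexToReal covariant_swap_mul_of_covariant_mul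
  NonUnitalCStarAlgebra.toNonUnitalNormedRing NonUnitalNonAssocSemiring.toMulZeroClass
  IdemSemiring.toSemiring NonUnitalNormedCommRing.toNonUnitalSeminormedCommRing
  AddCommGroupWithOne.toAddGroupWithOne NormedDivisionRing.toNormedRing
  Topology.IsScott.instClosedIicTopologyOfUnivSet LieAdmissibleRing.instLieRing
  CanonicallyOrderedAdd.toMulLeftMono EuclideanDomain.toCommRing CStarAlgebra.instOrderClosedTopology
  SeminormedCommRing.toCommRing SeminormedRing.toNonUnitalSeminormedRing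
  RingHomClass.toLinearMapClassRat NonUnitalAlgSemiHomClass.toDistribMulActionSemiHomClass
  NormedAlgebra.complexToReal MulZeroOneClass.toMulZeroClass
  SemilinearIsometryClass.toSemilinearMapClass instIndiscreteTopology
  IsValuativeTopology.instIsTopologicalAddGroup Finite.instDiscreteTopology instIsModuleTopology
  AddCommMonoidWithOne.toAddCommMonoid LieAdmissibleRing.toNonUnitalNonAssocRing
  IsPurelyInseparable.isIntegral BooleanRing.toRing NonAssocCommSemiring.toNonAssocSemiring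
  AlgHomClass.toRingHomClass CompactSpace.sigmaCompact
  instDiscreteTopologyOfAlexandrovDiscreteOfT1Space DiscreteUniformity.instDiscreteTopology
  AddCommGroupWithOne.toAddCommGroup BooleanRing.toCommRing SMulCommClass.complexToReal
  LinearOrderedCommMonoidWithZero.toIsBotZeroClass
  instSecondCountableTopologyContinuousLinearMapIdOfFiniteDimensional CStarAlgebra.toNormedAlgebra

/-! Cauchy transform, null Lagrangians, plane maps. -/

/-! Elementary bounds for the Cauchy transform. -/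

namespace Pool.Agent.MP_be5fd0_gt.T

open Complex Filter Topology Set Metric MeasureTheory
open scoped ContDiff BoundedContinuousFunction

noncomputable section

namespace T1'

def k1 (r : ℝ) (w : ℂ) : ℝ := (ball (0 : ℂ) r).indicator (fun w => (Real.pi * ‖w‖)⁻¹) w
def k2 (w : ℂ) : ℝ := (ball (0 : ℂ) 1).indicator (fun w => (‖w‖ * √‖w‖)⁻¹) w

theorem vol_ball (z : ℂ) (r : ℝ) (hr : 0 ≤ r) : volume.real (ball z r) = Real.pi * r ^ 2 := by
  simp [Measure.real, Complex.volume_ball, hr, mul_comm]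

theorem k1_int (r : ℝ) : Integrable (k1 r) := by
  refine IntegrableOn.integrable_indicator ?_ measurableSet_ball
  refine integrableOn_ball_of_norm_le_rpow (C := Real.pi⁻¹) (α := 1) (by simp) (by simp)
    (ae_of_all _ fun w => ?_) (Measurable.aestronglyMeasurable (by fun_prop))
  rw [Real.rpow_neg_one, Real.norm_of_nonneg (by positivity), mul_inv]

theorem k2_int : Integrable k2 := by
  refine IntegrableOn.integrable_indicator ?_ measurableSet_ball
  refine integrableOn_ball_of_norm_le_rpow (C := 1) (α := 3 / 2) (by simp) (by simp; norm_num)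
    (ae_of_all _ fun w => ?_) (Measurable.aestronglyMeasurable (by fun_prop))
  rw [Real.norm_of_nonneg (by positivity), one_mul, Real.rpow_neg (norm_nonneg _),
    show (3 / 2 : ℝ) = 1 + 1 / 2 by norm_num,
    Real.rpow_add' (norm_nonneg _) (by norm_num), Real.rpow_one, Real.sqrt_eq_rpow]

theorem k1_val (r : ℝ) (hr : 0 < r) : ∫ w, k1 r w = 2 * r := by
  have h := integral_fun_norm_addHaar (volume : Measure ℂ)
    ((Iio r).indicator fun y : ℝ => (Real.pi * y)⁻¹)
  have e : (fun w : ℂ => (Iio r).indicator (fun y : ℝ => (Real.pi * y)⁻¹) ‖w‖) = k1 r := by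
    funext w
    simp [k1, indicator]
  have e2 : ∫ y in Ioi (0 : ℝ), y ^ (Module.finrank ℝ ℂ - 1) •
      (Iio r).indicator (fun y : ℝ => (Real.pi * y)⁻¹) y = r * Real.pi⁻¹ := by
    rw [setIntegral_congr_fun (g := (Iio r).indicator fun _ => Real.pi⁻¹) measurableSet_Ioi]
    · rw [setIntegral_indicator measurableSet_Iio, Ioi_inter_Iio]
      simp only [integral_const, MeasurableSet.univ, measureReal_restrict_apply, univ_inter, Real.volume_real_Ioo, sub_zero, hr.le, sup_of_le_left, smul_eq_mul]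
    · intro y hy
      have : y ≠ 0 := ne_of_gt hy
      by_cases h : y < r
      · simp only [finrank_real_complex, Nat.add_one_sub_one, pow_one, indicator, mem_Iio, h, ↓ reduceIte, mul_inv_rev, smul_eq_mul]; field_simp
      · simp [indicator, h]
  rw [e, e2, vol_ball _ _ zero_le_one] at h
  rw [h]
  have := Real.pi_ne_zero
  simp only [finrank_real_complex, one_pow, mul_one, smul_eq_mul, nsmul_eq_mul, Nat.cast_ofNat, mul_eq_mul_left_iff, OfNat.ofNat_ne_zero, or_false]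
  field_simp

theorem k1_nonneg (r : ℝ) (w : ℂ) : 0 ≤ k1 r w :=
  indicator_nonneg (fun _ _ => by positivity) w

theorem k2_nonneg (w : ℂ) : 0 ≤ k2 w :=
  indicator_nonneg (fun _ _ => by positivity) w

theorem norm_ker (w : ℂ) : ‖((Real.pi : ℂ) * w)⁻¹‖ = (Real.pi * ‖w‖)⁻¹ := by
  rw [norm_inv, norm_mul, Complex.norm_real, Real.norm_of_nonneg Real.pi_pos.le]

theorem ker_diff (a b : ℂ) (ha : a ≠ 0) (hb : b ≠ 0) :
    ‖((Real.pi : ℂ) * a)⁻¹ - ((Real.pi : ℂ) * b)⁻¹‖ ≤
      √‖a - b‖ * ((‖a‖ * √‖a‖)⁻¹ + (‖b‖ * √‖b‖)⁻¹) := by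
  wlog h : ‖a‖ ≤ ‖b‖ generalizing a b
  · rw [norm_sub_rev, norm_sub_rev a, add_comm]
    exact this b a hb ha (le_of_not_ge h)
  have hp : (Real.pi : ℂ) ≠ 0 := by exact_mod_cast Real.pi_ne_zero
  have e : ((Real.pi : ℂ) * a)⁻¹ - ((Real.pi : ℂ) * b)⁻¹ = (Real.pi * a)⁻¹ * (b - a) * b⁻¹ := by
    field_simp
  have ha' : 0 < ‖a‖ := norm_pos_iff.2 ha
  have hb' : 0 < ‖b‖ := norm_pos_iff.2 hb
  rw [e, norm_mul, norm_mul, norm_ker, norm_inv, norm_sub_rev b]
  have hd : ‖a - b‖ ≤ 2 * ‖b‖ := by linarith only [norm_sub_le a b, h]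
  set d := ‖a - b‖
  have hd0 : 0 ≤ d := norm_nonneg _
  have s1 : √d * √‖a‖ ≤ Real.pi * ‖b‖ := by
    rw [← Real.sqrt_mul hd0]
    refine Real.sqrt_le_iff.2 ⟨by positivity, ?_⟩
    have h3 := Real.pi_gt_three
    have h4 : d * ‖a‖ ≤ (2 * ‖b‖) * ‖b‖ := by gcongr
    have h5 : (3 * ‖b‖) ^ 2 ≤ (Real.pi * ‖b‖) ^ 2 := by gcongr
    nlinarith only [h4, h5]
  have hs : 0 < √‖a‖ := Real.sqrt_pos.2 ha'
  have hpi := Real.pi_pos
  have s2 : (Real.pi * ‖a‖)⁻¹ * d * ‖b‖⁻¹ ≤ √d * (‖a‖ * √‖a‖)⁻¹ := by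
    calc (Real.pi * ‖a‖)⁻¹ * d * ‖b‖⁻¹
        = (√d * (‖a‖ * √‖a‖)⁻¹) * ((√d * √‖a‖) / (Real.pi * ‖b‖)) := by
          conv_lhs => rw [← Real.mul_self_sqrt hd0]
          field_simp
      _ ≤ (√d * (‖a‖ * √‖a‖)⁻¹) * 1 := by
          gcongr
          exact (div_le_one (by positivity)).2 s1
      _ = _ := mul_one _
  refine s2.trans ?_
  gcongr
  exact le_add_of_nonneg_right (by positivity)

section
variable {V : Type} [NormedAddCommGroup V] [NormedSpace ℝ V] [NormedSpace ℂ V] {g : ℂ → V}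
  {m ρ : ℝ}

omit [NormedSpace ℝ V] in
theorem le_k1 (hm : ∀ z, ‖g z‖ ≤ m) {z : ℂ} {r : ℝ} (h : ∀ w, r ≤ ‖w - z‖ → g w = 0) (w : ℂ) :
    ‖((Real.pi : ℂ) * w)⁻¹ • g (z - w)‖ ≤ k1 r w * m := by
  by_cases hw : ‖w‖ < r
  · rw [norm_smul, norm_ker, k1, indicator_of_mem (by simpa using hw)]
    gcongr
    exact hm _
  · rw [h (z - w) (by simpa using hw), smul_zero, norm_zero]
    exact mul_nonneg (k1_nonneg _ _) ((norm_nonneg _).trans (hm 0))

omit [NormedSpace ℝ V] in
theorem integ (hg : Continuous g) (hs : ∀ z, ρ ≤ ‖z‖ → g z = 0) (hm : ∀ z, ‖g z‖ ≤ m) (z : ℂ) :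
    Integrable fun w : ℂ => ((Real.pi : ℂ) * w)⁻¹ • g (z - w) := by
  refine Integrable.mono' ((k1_int (ρ + ‖z‖)).mul_const m) ?_
    (ae_of_all _ (le_k1 hm fun w hw => hs w ?_))
  · exact (Measurable.aestronglyMeasurable (by fun_prop)).smul
      (hg.comp (continuous_const.sub continuous_id)).aestronglyMeasurable
  · linarith [norm_sub_le w z]

theorem bdB (hm : ∀ z, ‖g z‖ ≤ m) (z : ℂ) (r : ℝ) (hr : 0 < r)
    (h : ∀ w, r ≤ ‖w - z‖ → g w = 0) : ‖cT g z‖ ≤ 2 * r * m := by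
  rw [← k1_val r hr, ← integral_mul_const]
  exact norm_integral_le_of_norm_le ((k1_int r).mul_const m) (ae_of_all _ (le_k1 hm h))

omit [NormedSpace ℝ V] [NormedSpace ℂ V] in
theorem g_int (hg : Continuous g) (hs : ∀ z, ρ ≤ ‖z‖ → g z = 0) : Integrable g :=
  hg.integrable_of_hasCompactSupport
    (HasCompactSupport.intro (isCompact_closedBall (0 : ℂ) ρ) fun z hz =>
      hs z (le_of_lt (by simpa using hz)))

theorem bdC (hg : Continuous g) (hs : ∀ z, ρ ≤ ‖z‖ → g z = 0) (z : ℂ) (r : ℝ) (hr : 0 < r)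
    (h : ∀ w, ‖w - z‖ < r → g w = 0) : ‖cT g z‖ ≤ r⁻¹ * ∫ w, ‖g w‖ := by
  rw [← integral_sub_left_eq_self (fun w => ‖g w‖) volume z, ← integral_const_mul]
  refine norm_integral_le_of_norm_le (((g_int hg hs).norm.comp_sub_left z).const_mul _)
    (ae_of_all _ fun w => ?_)
  by_cases hw : ‖w‖ < r
  · simp [h (z - w) (by simpa using hw)]
  · rw [norm_smul, norm_ker]
    have h3 := Real.pi_gt_three
    have : r ≤ Real.pi * ‖w‖ := by nlinarith only [hr, hw, h3]
    gcongr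

theorem ind_int {K : Set ℂ} {v : ℝ} (hK : MeasurableSet K) (hv : volume K ≤ ENNReal.ofReal v) :
    Integrable (K.indicator fun _ => (1 : ℝ)) :=
  (integrableOn_const (ne_top_of_le_ne_top ENNReal.ofReal_ne_top hv)).integrable_indicator hK

theorem bdA (hm : ∀ z, ‖g z‖ ≤ m) (K : Set ℂ) (v : ℝ) (hv0 : 0 ≤ v) (hK : MeasurableSet K)
    (hv : volume K ≤ ENNReal.ofReal v) (h : ∀ z, z ∉ K → g z = 0) (z : ℂ) :
    ‖cT g z‖ ≤ m * (2 + v) := by
  have hm0 : 0 ≤ m := (norm_nonneg _).trans (hm 0)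
  have hi := (ind_int hK hv).comp_sub_left z
  have h1 : ‖cT g z‖ ≤ ∫ w, m * (k1 1 w + K.indicator (fun _ => (1 : ℝ)) (z - w)) := by
    refine norm_integral_le_of_norm_le (((k1_int 1).add hi).const_mul m)
      (ae_of_all _ fun w => ?_)
    have hk := k1_nonneg 1 w
    by_cases hz : z - w ∈ K
    · rw [norm_smul, norm_ker, indicator_of_mem hz, mul_comm m]
      refine mul_le_mul ?_ (hm _) (norm_nonneg _) (by positivity)
      by_cases hw : ‖w‖ < 1
      · rw [k1, indicator_of_mem (by simpa only [mem_ball, dist_zero_right] using hw)]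
        linarith
      · have h3 := Real.pi_gt_three
        have : 1 ≤ Real.pi * ‖w‖ := by nlinarith only [hw, h3]
        linarith [inv_le_one_of_one_le₀ this]
    · rw [h _ hz, smul_zero, norm_zero, indicator_of_notMem hz]
      positivity
  rw [integral_const_mul, integral_add (k1_int 1) hi, k1_val 1 one_pos,
    integral_sub_left_eq_self (K.indicator fun _ => (1 : ℝ)) volume z,
    integral_indicator_const _ hK] at h1
  refine h1.trans ?_
  have : volume.real K ≤ v := ENNReal.toReal_le_of_le_ofReal hv0 hv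
  gcongr
  · norm_num
  · simpa using this

theorem vol_le (hρ : 0 < ρ) : volume (ball (0 : ℂ) ρ) ≤ ENNReal.ofReal (Real.pi * ρ ^ 2) := by
  rw [← vol_ball 0 ρ hρ.le, ofReal_measureReal measure_ball_lt_top.ne]

theorem le_k2 (a : ℂ) : (‖a‖ * √‖a‖)⁻¹ ≤ k2 a + 1 := by
  by_cases hw : ‖a‖ < 1
  · rw [k2, indicator_of_mem (by simpa only [mem_ball, dist_zero_right] using hw)]
    linarith
  · have h1 := not_lt.1 hw
    have : 1 ≤ ‖a‖ * √‖a‖ := one_le_mul_of_one_le_of_one_le h1 (Real.one_le_sqrt.2 h1)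
    linarith [inv_le_one_of_one_le₀ this, k2_nonneg a]

theorem hold (hρ : 0 < ρ) (hg : Continuous g) (hs : ∀ z, ρ ≤ ‖z‖ → g z = 0) (hm : ∀ z, ‖g z‖ ≤ m)
    (z w : ℂ) :
    ‖cT g z - cT g w‖ ≤ 2 * ((∫ s, k2 s) + Real.pi * ρ ^ 2) * m * √‖z - w‖ := by
  have hm0 : 0 ≤ m := (norm_nonneg _).trans (hm 0)
  have e : ∀ z, cT g z = ∫ s, ((Real.pi : ℂ) * (z - s))⁻¹ • g s := fun z => by
    rw [cT, ← integral_sub_left_eq_self _ volume z]
    simp only [sub_sub_cancel]
  have i : ∀ z, Integrable fun s => ((Real.pi : ℂ) * (z - s))⁻¹ • g s := fun z => by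
    simpa only [sub_sub_cancel] using (integ hg hs hm z).comp_sub_left z
  have hb := ind_int (measurableSet_ball (x := (0 : ℂ)) (ε := ρ)) (vol_le hρ)
  have hz := k2_int.comp_sub_left z
  have hw := k2_int.comp_sub_left w
  have h1 : ‖cT g z - cT g w‖ ≤ ∫ s, m * √‖z - w‖ * (k2 (z - s) + k2 (w - s) +
      2 * (ball (0 : ℂ) ρ).indicator (fun _ => (1 : ℝ)) s) := by
    rw [e z, e w, ← integral_sub (i z) (i w)]
    refine norm_integral_le_of_norm_le (((hz.add hw).add (hb.const_mul 2)).const_mul _) ?_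
    filter_upwards [Measure.ae_ne volume z, Measure.ae_ne volume w] with s h1 h2
    have k1 := k2_nonneg (z - s)
    have k2 := k2_nonneg (w - s)
    by_cases hs' : ‖s‖ < ρ
    · rw [← sub_smul, norm_smul, indicator_of_mem (by simpa using hs'), mul_comm, mul_assoc]
      refine mul_le_mul (hm _) ?_ (norm_nonneg _) hm0
      refine (ker_diff _ _ (sub_ne_zero.2 h1.symm) (sub_ne_zero.2 h2.symm)).trans ?_
      rw [sub_sub_sub_cancel_right]
      exact mul_le_mul_of_nonneg_left (by linarith [le_k2 (z - s), le_k2 (w - s)])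
        (Real.sqrt_nonneg _)
    · rw [hs s (not_lt.1 hs'), smul_zero, smul_zero, sub_zero, norm_zero,
        indicator_of_notMem (by simpa using hs')]
      positivity
  have hzw : Integrable fun s => k2 (z - s) + k2 (w - s) := hz.add hw
  rw [integral_const_mul, integral_add hzw (hb.const_mul 2), integral_add hz hw,
    integral_sub_left_eq_self k2 volume z, integral_sub_left_eq_self k2 volume w,
    integral_const_mul, integral_indicator_const _ measurableSet_ball,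
    vol_ball 0 ρ hρ.le] at h1
  refine h1.trans (le_of_eq ?_)
  simp only [smul_eq_mul]
  ring

theorem decay (hρ : 0 < ρ) (hg : Continuous g) (hs : ∀ z, ρ ≤ ‖z‖ → g z = 0)
    (hm : ∀ z, ‖g z‖ ≤ m) (z : ℂ) (hz : 2 * ρ ≤ ‖z‖) :
    ‖z‖ * ‖cT g z‖ ≤ 2 * (Real.pi * ρ ^ 2) * m := by
  have hz0 : 0 < ‖z‖ := by linarith
  have h1 := bdC hg hs z (‖z‖ / 2) (by positivity) fun w hw => hs w (by
    have := norm_sub_norm_le z w
    rw [norm_sub_rev] at this
    linarith)
  have hb := ind_int (measurableSet_ball (x := (0 : ℂ)) (ε := ρ)) (vol_le hρ)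
  have h2 : ∫ w, ‖g w‖ ≤ ∫ w, m * (ball (0 : ℂ) ρ).indicator (fun _ => (1 : ℝ)) w := by
    refine integral_mono (g_int hg hs).norm (hb.const_mul m) fun w => ?_
    by_cases hw : ‖w‖ < ρ
    · simpa [indicator, hw] using hm w
    · simp [indicator, hw, hs w (not_lt.1 hw)]
  rw [integral_const_mul, integral_indicator_const _ measurableSet_ball, vol_ball 0 ρ hρ.le,
    smul_eq_mul, mul_one] at h2
  calc ‖z‖ * ‖cT g z‖ ≤ ‖z‖ * ((‖z‖ / 2)⁻¹ * (m * (Real.pi * ρ ^ 2))) := by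
        gcongr
        exact h1.trans (by gcongr)
    _ = _ := by field_simp
end

end T1'

open T1' in
theorem thT1 : StT1 := by
  refine ⟨fun ρ hρ => ?_, fun V _ _ _ _ _ g m ρ hg hs hm =>
    ⟨fun K v h0 hK hv h z => bdA hm K v h0 hK hv h z, fun z r hr h => bdB hm z r hr h,
      fun z r hr h => bdC hg hs z r hr h⟩⟩
  have hk : 0 ≤ ∫ s, k2 s := integral_nonneg k2_nonneg
  have hpi := Real.pi_pos
  have hP : 0 < Real.pi * ρ ^ 2 := by positivity
  set P := Real.pi * ρ ^ 2 with hPd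
  set J := ∫ s, k2 s
  have hρP : 0 < ρ * (2 + P) := by positivity
  refine ⟨2 * (J + P) + 2 + 2 * ρ * (2 + P), by positivity, fun V _ _ _ _ _ g m hg hs hm => ?_⟩
  have hm0 : 0 ≤ m := (norm_nonneg _).trans (hm 0)
  have hA : ∀ z, ‖cT g z‖ ≤ m * (2 + P) :=
    bdA hm (ball 0 ρ) P hP.le measurableSet_ball (vol_le hρ) fun z hz => hs z (by simpa using hz)
  have hH := hold hρ hg hs hm
  refine ⟨integ hg hs hm, ?_, fun z => ?_, fun z => ?_, fun z w => ?_⟩
  · refine continuous_iff_continuousAt.2 fun w => ?_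
    refine tendsto_iff_norm_sub_tendsto_zero.2 (squeeze_zero (fun _ => norm_nonneg _)
      (fun z => hH z w) ?_)
    have : Continuous fun z : ℂ => 2 * (J + P) * m * √‖z - w‖ := by fun_prop
    simpa using this.tendsto w
  · refine (hA z).trans ?_
    rw [mul_comm]
    exact mul_le_mul_of_nonneg_right (by linarith) hm0
  · rcases le_total (2 * ρ) ‖z‖ with h | h
    · exact (decay hρ hg hs hm z h).trans (mul_le_mul_of_nonneg_right (by linarith) hm0)
    · calc ‖z‖ * ‖cT g z‖ ≤ (2 * ρ) * (m * (2 + P)) := by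
            gcongr
            exact hA z
        _ = (2 * ρ * (2 + P)) * m := by ring
        _ ≤ _ := mul_le_mul_of_nonneg_right (by linarith) hm0
  · exact (hH z w).trans (mul_le_mul_of_nonneg_right
      (mul_le_mul_of_nonneg_right (by linarith) hm0) (Real.sqrt_nonneg _))

end

end Pool.Agent.MP_be5fd0_gt.T

/-! The Cauchy transform of a compactly supported one-half Hoelder function is `C^1` with
one-half Hoelder derivative. Smooth kernels `conj w / (π (|w|^2 + t^2))`. -/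

namespace Pool.Agent.MP_be5fd0_gt.T

open Complex Filter Topology Set Metric MeasureTheory
open scoped ContDiff BoundedContinuousFunction

noncomputable section

set_option linter.unusedSectionVars false

namespace T2'

local instance : Fact (Module.finrank ℝ ℂ = 2) := Complex.finrank_real_complex_fact

/-- radial integrals in the plane from an antiderivative -/
theorem radial {f G : ℝ → ℝ} {l : ℝ} (hc : ContinuousWithinAt G (Ici 0) 0)
    (hd : ∀ r ∈ Ioi (0 : ℝ), HasDerivAt G (r * f r) r) (hp : ∀ r ∈ Ioi (0 : ℝ), 0 ≤ r * f r)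
    (hl : Tendsto G atTop (𝓝 l)) :
    Integrable (fun w : ℂ => f ‖w‖) ∧ ∫ w : ℂ, f ‖w‖ = 2 * Real.pi * (l - G 0) := by
  constructor
  · rw [integrable_fun_norm_addHaar volume]
    simpa [Complex.finrank_real_complex] using integrableOn_Ioi_deriv_of_nonneg hc hd hp hl
  · rw [integral_fun_norm_addHaar volume, ← integral_Ioi_of_hasDerivAt_of_nonneg hc hd hp hl]
    simp [Complex.finrank_real_complex, Measure.real, Complex.volume_ball, mul_assoc]

def Mj (t r : ℝ) : ℝ := t / (r ^ 2 * (r + t)) * √r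

theorem maj {t : ℝ} (ht : 0 < t) :
    Integrable (fun w : ℂ => Mj t ‖w‖) ∧ ∫ w : ℂ, Mj t ‖w‖ = 2 * Real.pi ^ 2 * √t := by
  have hs : 0 < √t := Real.sqrt_pos.2 ht
  have h := radial (f := Mj t) (G := fun r => 2 * √t * Real.arctan (√r / √t))
    (l := 2 * √t * (Real.pi / 2)) (Continuous.continuousWithinAt (by fun_prop)) ?_ ?_ ?_
  · refine ⟨h.1, h.2.trans ?_⟩
    simp; ring
  · intro r hr
    have hr : 0 < r := hr
    have hq : 0 < √r := Real.sqrt_pos.2 hr
    have h1 := (((Real.hasDerivAt_sqrt hr.ne').div_const √t).arctan).const_mul (2 * √t)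
    refine HasDerivAt.congr_deriv h1 ?_
    have e1 : √r ^ 2 = r := Real.sq_sqrt hr.le
    have e2 : √t ^ 2 = t := Real.sq_sqrt ht.le
    rw [Mj, div_pow, e1, e2]
    generalize √r = a at hq e1
    generalize √t = b at hs e2
    subst e1 e2
    field_simp
    ring
  · intro r hr
    have hr : 0 < r := hr
    unfold Mj; positivity
  · refine Tendsto.const_mul _ ?_
    exact (Real.tendsto_arctan_atTop.mono_right nhdsWithin_le_nhds).comp
      (Real.tendsto_sqrt_atTop.atTop_div_const hs)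

theorem poi {t : ℝ} (ht : 0 < t) :
    Integrable (fun w : ℂ => t ^ 2 / (Real.pi * (‖w‖ ^ 2 + t ^ 2) ^ 2)) ∧
      ∫ w : ℂ, t ^ 2 / (Real.pi * (‖w‖ ^ 2 + t ^ 2) ^ 2) = 1 := by
  have hp := Real.pi_pos
  have h := radial (f := fun r => t ^ 2 / (Real.pi * (r ^ 2 + t ^ 2) ^ 2))
    (G := fun r => -(t ^ 2 / (2 * Real.pi)) * (r ^ 2 + t ^ 2)⁻¹) (l := 0) ?_ ?_ ?_ ?_
  · refine ⟨h.1, h.2.trans ?_⟩
    field_simp; ring
  · refine Continuous.continuousWithinAt (continuous_const.mul (Continuous.inv₀ (by fun_prop) ?_))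
    intro r; positivity
  · intro r _
    have h1 := (((hasDerivAt_pow 2 r).add_const (t ^ 2)).inv (by positivity)).const_mul
      (-(t ^ 2 / (2 * Real.pi)))
    refine HasDerivAt.congr_deriv h1 ?_
    have : r ^ 2 + t ^ 2 ≠ 0 := by positivity
    field_simp
    ring
  · intro r hr
    have hr : 0 < r := hr
    positivity
  · have h1 : Tendsto (fun r : ℝ => (r ^ 2 + t ^ 2)⁻¹) atTop (𝓝 0) :=
      tendsto_inv_atTop_zero.comp (tendsto_atTop_add_const_right _ _ (tendsto_pow_atTop two_ne_zero))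
    simpa only [neg_mul, mul_zero] using h1.const_mul (-(t ^ 2 / (2 * Real.pi)))

/-- the basic quotient -/
def kk (t : ℝ) (w : ℂ) : ℂ := starRingEnd ℂ w / ((‖w‖ ^ 2 + t ^ 2 : ℝ) : ℂ)
def KK (t : ℝ) (w : ℂ) : ℂ := (Real.pi : ℂ)⁻¹ * kk t w
def SS (t : ℝ) (w : ℂ) : ℂ := -(Real.pi : ℂ)⁻¹ * kk t w ^ 2
def PP (t : ℝ) (w : ℂ) : ℂ := ((t ^ 2 / (Real.pi * (‖w‖ ^ 2 + t ^ 2) ^ 2) : ℝ) : ℂ)

theorem nn (t : ℝ) (w : ℂ) :
    ((‖w‖ ^ 2 + t ^ 2 : ℝ) : ℂ) = w * starRingEnd ℂ w + (t : ℂ) ^ 2 := by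
  rw [mul_conj, normSq_eq_norm_sq]; push_cast; ring

theorem norm_kk (t : ℝ) (w : ℂ) : ‖kk t w‖ = ‖w‖ / (‖w‖ ^ 2 + t ^ 2) := by
  rw [kk, norm_div, Complex.norm_conj, Complex.norm_real, Real.norm_of_nonneg (by positivity)]

theorem norm_pi : ‖(Real.pi : ℂ)⁻¹‖ ≤ 1 := by
  rw [norm_inv, Complex.norm_real, Real.norm_of_nonneg Real.pi_pos.le]
  exact inv_le_one_of_one_le₀ (by linarith [Real.pi_gt_three])

theorem cont_kk {t : ℝ} (ht : 0 < t) : Continuous (kk t) := by
  unfold kk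
  refine Continuous.div (by fun_prop) (by fun_prop) fun w => ?_
  exact ofReal_ne_zero.2 (by positivity)

theorem cont_KK {t : ℝ} (ht : 0 < t) : Continuous (KK t) := continuous_const.mul (cont_kk ht)
theorem cont_SS {t : ℝ} (ht : 0 < t) : Continuous (SS t) :=
  continuous_const.mul ((cont_kk ht).pow 2)
theorem cont_PP {t : ℝ} (ht : 0 < t) : Continuous (PP t) := by
  unfold PP
  have := Real.pi_pos
  exact continuous_ofReal.comp (Continuous.div (by fun_prop) (by fun_prop) fun w => by positivity)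

theorem meas_SS (t : ℝ) : Measurable (SS t) := by
  unfold SS kk
  have : Measurable fun w : ℂ => starRingEnd ℂ w := continuous_conj.measurable
  fun_prop

theorem SS_sub (t s : ℝ) (a b : ℂ) :
    ‖SS t a - SS s b‖ ≤ ‖kk t a - kk s b‖ * (‖kk t a‖ + ‖kk s b‖) := by
  have e : SS t a - SS s b = -(Real.pi : ℂ)⁻¹ * ((kk t a - kk s b) * (kk t a + kk s b)) := by
    unfold SS; ring
  rw [e, norm_mul, norm_neg, norm_mul]
  exact (mul_le_of_le_one_left (by positivity) norm_pi).trans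
    (mul_le_mul_of_nonneg_left (norm_add_le _ _) (norm_nonneg _))

theorem bd_S0 {t : ℝ} (ht : 0 < t) {w : ℂ} (hw : w ≠ 0) :
    ‖SS 0 w - SS t w‖ ≤ 4 * (t / (‖w‖ ^ 2 * (‖w‖ + t))) := by
  have hr : 0 < ‖w‖ := norm_pos_iff.2 hw
  have e : kk 0 w - kk t w = starRingEnd ℂ w *
      ((t ^ 2 / (‖w‖ ^ 2 * (‖w‖ ^ 2 + t ^ 2)) : ℝ) : ℂ) := by
    have h1 : ((‖w‖ ^ 2 + t ^ 2 : ℝ) : ℂ) ≠ 0 := ofReal_ne_zero.2 (by positivity)
    have h2 : ((‖w‖ : ℝ) : ℂ) ≠ 0 := ofReal_ne_zero.2 hr.ne'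
    unfold kk
    push_cast at h1 ⊢
    field_simp
    ring
  refine (SS_sub _ _ _ _).trans ?_
  rw [e, norm_mul, Complex.norm_conj, Complex.norm_real, Real.norm_of_nonneg (by positivity),
    norm_kk, norm_kk]
  generalize ‖w‖ = r at hr
  have h1 : r / (r ^ 2 + t ^ 2) ≤ r / (r ^ 2 + 0 ^ 2) := by gcongr
  have h2 : t ^ 2 / (r ^ 2 + t ^ 2) ≤ 2 * (t / (r + t)) := by
    rw [← mul_div_assoc, div_le_div_iff₀ (by positivity) (by positivity)]
    linarith only [mul_nonneg ht.le (sq_nonneg (r - t)), mul_pos ht (mul_pos hr hr), mul_pos ht (mul_pos ht ht)]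
  calc r * (t ^ 2 / (r ^ 2 * (r ^ 2 + t ^ 2))) * (r / (r ^ 2 + 0 ^ 2) + r / (r ^ 2 + t ^ 2))
      ≤ r * (t ^ 2 / (r ^ 2 * (r ^ 2 + t ^ 2))) * (2 * (r / (r ^ 2 + 0 ^ 2))) := by
        gcongr; linarith only [h1]
    _ = 2 / r ^ 2 * (t ^ 2 / (r ^ 2 + t ^ 2)) := by field_simp; ring
    _ ≤ 2 / r ^ 2 * (2 * (t / (r + t))) := by gcongr
    _ = _ := by field_simp; ring

theorem bd_P {t : ℝ} (ht : 0 < t) {w : ℂ} (hw : w ≠ 0) :
    ‖PP t w‖ ≤ 2 * (t / (‖w‖ ^ 2 * (‖w‖ + t))) := by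
  have hr : 0 < ‖w‖ := norm_pos_iff.2 hw
  have hp := Real.pi_gt_three
  rw [PP, Complex.norm_real, Real.norm_of_nonneg (by positivity)]
  generalize ‖w‖ = r at hr
  have h2 : t ^ 2 / (r ^ 2 + t ^ 2) ≤ 2 * (t / (r + t)) := by
    rw [← mul_div_assoc, div_le_div_iff₀ (by positivity) (by positivity)]
    linarith only [mul_nonneg ht.le (sq_nonneg (r - t)), mul_pos ht (mul_pos hr hr), mul_pos ht (mul_pos ht ht)]
  calc t ^ 2 / (Real.pi * (r ^ 2 + t ^ 2) ^ 2) ≤ t ^ 2 / (1 * (r ^ 2 * (r ^ 2 + t ^ 2))) := by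
        rw [sq (r ^ 2 + t ^ 2)]
        gcongr
        · linarith only [hp]
        · nlinarith only []
    _ = 1 / r ^ 2 * (t ^ 2 / (r ^ 2 + t ^ 2)) := by field_simp
    _ ≤ 1 / r ^ 2 * (2 * (t / (r + t))) := by gcongr
    _ = _ := by field_simp

theorem kk_sub {t q : ℝ} (ht : 0 < t) (hq : 0 < q) {a b : ℂ} (ha : q ≤ ‖a‖ ^ 2 + t ^ 2)
    (hb : q ≤ ‖b‖ ^ 2 + t ^ 2) : ‖kk t a - kk t b‖ ≤ ‖a - b‖ / q := by
  have h1 : 0 < ‖a‖ ^ 2 + t ^ 2 := by positivity
  have h2 : 0 < ‖b‖ ^ 2 + t ^ 2 := by positivity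
  have e : kk t a - kk t b = ((t : ℂ) ^ 2 * starRingEnd ℂ (a - b) -
      starRingEnd ℂ a * starRingEnd ℂ b * (a - b)) /
      (((‖a‖ ^ 2 + t ^ 2 : ℝ) : ℂ) * ((‖b‖ ^ 2 + t ^ 2 : ℝ) : ℂ)) := by
    unfold kk
    rw [div_sub_div _ _ (ofReal_ne_zero.2 h1.ne') (ofReal_ne_zero.2 h2.ne')]
    congr 1
    rw [nn, nn, map_sub]; ring
  rw [e, norm_div, norm_mul, Complex.norm_real, Complex.norm_real, Real.norm_of_nonneg h1.le,
    Real.norm_of_nonneg h2.le, div_le_div_iff₀ (by positivity) hq]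
  have h3 : ‖(t : ℂ) ^ 2 * starRingEnd ℂ (a - b) - starRingEnd ℂ a * starRingEnd ℂ b * (a - b)‖ ≤
      ‖a - b‖ * (t ^ 2 + ‖a‖ * ‖b‖) := by
    refine (norm_sub_le _ _).trans (le_of_eq ?_)
    simp only [norm_mul, norm_pow, Complex.norm_conj, Complex.norm_real, Real.norm_of_nonneg ht.le]
    ring
  have h4 : (t ^ 2 + ‖a‖ * ‖b‖) * q ≤ (‖a‖ ^ 2 + t ^ 2) * (‖b‖ ^ 2 + t ^ 2) := by
    have h5 : t ^ 2 + ‖a‖ * ‖b‖ ≤ ((‖a‖ ^ 2 + t ^ 2) + (‖b‖ ^ 2 + t ^ 2)) / 2 := by
      linarith only [sq_nonneg (‖a‖ - ‖b‖)]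
    linarith only [mul_le_mul_of_nonneg_left ha h2.le, mul_le_mul_of_nonneg_left hb h1.le, mul_le_mul_of_nonneg_right h5 hq.le]
  calc _ ≤ ‖a - b‖ * (t ^ 2 + ‖a‖ * ‖b‖) * q := by gcongr
    _ = ‖a - b‖ * ((t ^ 2 + ‖a‖ * ‖b‖) * q) := by ring
    _ ≤ _ := by gcongr

theorem bd_D {t : ℝ} (ht : 0 < t) {k : ℂ} (hk : ‖k‖ = t / 2) {w : ℂ} (hw : w ≠ 0) :
    ‖SS t (w - k) - SS t (w + k)‖ ≤ 64 * (t / (‖w‖ ^ 2 * (‖w‖ + t))) := by
  have hr : 0 < ‖w‖ := norm_pos_iff.2 hw
  have key : ∀ a : ℂ, ‖w‖ ≤ ‖a‖ + t / 2 →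
      (‖w‖ + t) ^ 2 / 8 ≤ ‖a‖ ^ 2 + t ^ 2 ∧ ‖kk t a‖ ≤ 4 / (‖w‖ + t) := by
    intro a ha
    have h0 := norm_nonneg a
    have h1 : ‖w‖ + t ≤ 2 * (‖a‖ + t) := by linarith only [hr, ha]
    constructor
    · linarith only [mul_le_mul h1 h1 (by positivity) (by positivity), sq_nonneg (‖a‖ - t)]
    · rw [norm_kk, div_le_div_iff₀ (by positivity) (by positivity)]
      nlinarith only [mul_le_mul_of_nonneg_left h1 h0]
  have ha := key (w - k) (by simpa only [sub_add_cancel, hk] using norm_add_le (w - k) k)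
  have hb := key (w + k) (by simpa only [add_sub_cancel_right, hk] using norm_sub_le (w + k) k)
  have h1 := kk_sub ht (by positivity) ha.1 hb.1
  have h2 : ‖w - k - (w + k)‖ = t := by
    rw [show w - k - (w + k) = -(2 * k) by ring, norm_neg, norm_mul, hk]; simp; ring
  rw [h2] at h1
  refine (SS_sub _ _ _ _).trans ?_
  calc _ ≤ t / ((‖w‖ + t) ^ 2 / 8) * (4 / (‖w‖ + t) + 4 / (‖w‖ + t)) := by
        gcongr
        exacts [ha.2, hb.2]
    _ = 64 * (t / ((‖w‖ + t) ^ 2 * (‖w‖ + t))) := by field_simp; ring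
    _ ≤ _ := by gcongr; linarith only [ht]

theorem bd_glob {t : ℝ} (ht : 0 < t) (w : ℂ) : ‖SS t w‖ ≤ 1 / t ^ 2 ∧ ‖PP t w‖ ≤ 1 / t ^ 2 := by
  have h0 := norm_nonneg w
  have hp := Real.pi_gt_three
  constructor
  · rw [SS, norm_mul, norm_neg, norm_pow, norm_kk]
    refine (mul_le_of_le_one_left (by positivity) norm_pi).trans ?_
    rw [div_pow, div_le_div_iff₀ (by positivity) (by positivity)]
    nlinarith only []
  · rw [PP, Complex.norm_real, Real.norm_of_nonneg (by positivity),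
      div_le_div_iff₀ (by positivity) (by positivity)]
    have h1 : t ^ 2 * t ^ 2 ≤ (‖w‖ ^ 2 + t ^ 2) ^ 2 := by
      nlinarith only []
    nlinarith only [hp]

section Vec
variable {V : Type} [NormedAddCommGroup V] [NormedSpace ℝ V] [NormedSpace ℂ V]
  [IsScalarTower ℝ ℂ V]

/-- the real linear map `ζ ↦ ζ a + conj ζ b` -/
def LL (a b : V) : ℂ →L[ℝ] V :=
  (ContinuousLinearMap.id ℝ ℂ).smulRight a + (conjCLE : ℂ →L[ℝ] ℂ).smulRight b

theorem LL_apply (a b : V) (ζ : ℂ) : LL a b ζ = ζ • a + starRingEnd ℂ ζ • b := by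
  simp [LL]

theorem norm_LL (a b : V) : ‖LL a b‖ ≤ ‖a‖ + ‖b‖ := by
  refine ContinuousLinearMap.opNorm_le_bound _ (by positivity) fun ζ => ?_
  rw [LL_apply]
  refine (norm_add_le _ _).trans (le_of_eq ?_)
  rw [norm_smul, norm_smul, Complex.norm_conj]; ring

theorem norm_LL_sub (a b a' b' : V) : ‖LL a b - LL a' b'‖ ≤ ‖a - a'‖ + ‖b - b'‖ := by
  have e : LL a b - LL a' b' = LL (a - a') (b - b') := by
    refine ContinuousLinearMap.ext fun ζ => ?_
    simp only [sub_apply, LL_apply]; module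
  rw [e]; exact norm_LL _ _

theorem cont_LL {a b : ℂ → V} (ha : Continuous a) (hb : Continuous b) :
    Continuous fun s => LL (a s) (b s) := by
  refine continuous_iff_continuousAt.2 fun s => tendsto_iff_norm_sub_tendsto_zero.2 ?_
  refine squeeze_zero (fun _ => norm_nonneg _) (fun x => norm_LL_sub _ _ _ _) ?_
  simpa using (tendsto_iff_norm_sub_tendsto_zero.1 (ha.tendsto s)).add
    (tendsto_iff_norm_sub_tendsto_zero.1 (hb.tendsto s))

theorem cont_of_hol {W : Type} [NormedAddCommGroup W] {f : ℂ → W} {C : ℝ}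
    (h : ∀ z w, ‖f z - f w‖ ≤ C * √‖z - w‖) : Continuous f := by
  refine continuous_iff_continuousAt.2 fun s => tendsto_iff_norm_sub_tendsto_zero.2 ?_
  refine squeeze_zero (fun _ => norm_nonneg _) (fun x => h x s) ?_
  have h1 : Continuous fun x : ℂ => C * √‖x - s‖ := by fun_prop
  simpa using h1.tendsto s

theorem der_KK {t : ℝ} (ht : 0 < t) (w : ℂ) : HasFDerivAt (KK t) (LL (SS t w) (PP t w)) w := by
  have h0 : w * starRingEnd ℂ w + (t : ℂ) ^ 2 ≠ 0 := by
    rw [← nn]; exact ofReal_ne_zero.2 (by positivity)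
  have hc : HasFDerivAt (fun w : ℂ => starRingEnd ℂ w) (conjCLE : ℂ →L[ℝ] ℂ) w :=
    conjCLE.hasFDerivAt
  have h1 := ((hasFDerivAt_id (𝕜 := ℝ) w).mul hc).add_const ((t : ℂ) ^ 2)
  have h2 := ((hasDerivAt_inv h0).hasFDerivAt.restrictScalars ℝ).comp w h1
  have h3 := (hc.mul h2).const_mul (Real.pi : ℂ)⁻¹
  have e : KK t = fun w => (Real.pi : ℂ)⁻¹ *
      (starRingEnd ℂ w * (w * starRingEnd ℂ w + (t : ℂ) ^ 2)⁻¹) := by
    funext w; rw [KK, kk, nn, div_eq_mul_inv]
  rw [e]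
  refine HasFDerivAt.congr_fderiv h3 (ContinuousLinearMap.ext fun ζ => ?_)
  have hp : (Real.pi : ℂ) ≠ 0 := ofReal_ne_zero.2 Real.pi_ne_zero
  rw [LL_apply, SS, PP, kk, ofReal_div, ofReal_mul, ofReal_pow, ofReal_pow, nn]
  simp only [id_eq, ContinuousLinearMap.comp_add, smul_add, Pi.mul_apply, Function.comp_apply, add_apply, smul_apply, ContinuousLinearMap.comp_apply, ContinuousLinearEquiv.coe_coe, ContinuousAlgEquiv.coeCLE_apply, conjCAE_apply, smul_eq_mul, ContinuousLinearMap.coe_restrictScalars', ContinuousLinearMap.toSpanSingleton_apply, mul_neg, ContinuousLinearMap.id_apply, neg_mul]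
  field_simp
  ring

theorem core {φ : ℂ → ℂ} {δ : ℂ → V} {C m t : ℝ} (ht : 0 < t) (hC : 0 ≤ C) (hφ : Measurable φ)
    (hδ : Continuous δ) (h1 : ∀ w, w ≠ 0 → ‖φ w‖ ≤ C * (t / (‖w‖ ^ 2 * (‖w‖ + t))))
    (h2 : ∀ w, ‖δ w‖ ≤ m * √‖w‖) :
    Integrable (fun w => φ w • δ w) ∧ ‖∫ w, φ w • δ w‖ ≤ 32 * C * m * √t := by
  have hm : 0 ≤ m := by simpa only [norm_one, Real.sqrt_one, mul_one] using (norm_nonneg _).trans (h2 1)
  have hb : ∀ w, ‖φ w • δ w‖ ≤ C * m * Mj t ‖w‖ := by
    intro w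
    rcases eq_or_ne w 0 with rfl | hw
    · have : δ 0 = 0 := by simpa using h2 0
      simp [this, Mj]
    · rw [norm_smul, Mj]
      calc _ ≤ C * (t / (‖w‖ ^ 2 * (‖w‖ + t))) * (m * √‖w‖) :=
            mul_le_mul (h1 w hw) (h2 w) (norm_nonneg _) (by positivity)
        _ = _ := by ring
  have hi := (maj ht).1.const_mul (C * m)
  refine ⟨hi.mono' (hφ.aestronglyMeasurable.smul hδ.aestronglyMeasurable) (.of_forall hb), ?_⟩
  refine (norm_integral_le_of_norm_le hi (.of_forall hb)).trans ?_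
  rw [integral_const_mul, (maj ht).2]
  have h4 : Real.pi ^ 2 ≤ 16 := by nlinarith only [Real.pi_lt_four, Real.pi_pos]
  calc C * m * (2 * Real.pi ^ 2 * √t) ≤ C * m * (2 * 16 * √t) := by gcongr
    _ = _ := by ring

variable {ρ m : ℝ} {g : ℂ → V}

theorem cg (h : Hc ρ m g) : Continuous g := cont_of_hol h.hol

theorem cs (h : Hc ρ m g) : HasCompactSupport g :=
  HasCompactSupport.intro (isCompact_closedBall 0 ρ) fun z hz =>
    h.supp z (by simpa using le_of_lt (by simpa using hz))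

theorem int1 (h : Hc ρ m g) {φ : ℂ → ℂ} (hφ : Continuous φ) (z : ℂ) (R : ℂ ≃ₗᵢ[ℝ] ℂ) :
    Integrable fun w => φ w • g (z - R w) := by
  have h1 := cg h
  refine Continuous.integrable_of_hasCompactSupport (by fun_prop) ?_
  refine HasCompactSupport.intro (isCompact_closedBall 0 (‖z‖ + ρ)) fun w hw => ?_
  have h2 : ‖z‖ + ρ < ‖w‖ := by simpa only [mem_closedBall, dist_zero_right, not_le] using hw
  have h3 := norm_sub_le z (z - R w)
  rw [sub_sub_cancel, R.norm_map] at h3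
  rw [h.supp _ (by linarith), smul_zero]

theorem int0 (h : Hc ρ m g) {φ : ℂ → ℂ} (hφ : Continuous φ) (z : ℂ) :
    Integrable fun w => φ w • g (z - w) := int1 h hφ z (.refl ℝ ℂ)

theorem odd (h : Hc ρ m g) {φ : ℂ → ℂ} (hφ : Continuous φ) (z : ℂ) (R : ℂ ≃ₗᵢ[ℝ] ℂ)
    (hR : ∀ w, φ (R w) = -φ w) :
    ∫ w, φ w • g (z - w) = (1 / 2 : ℝ) • ∫ w, φ w • (g (z - w) - g (z - R w)) := by
  have h1 : ∫ w, φ (R w) • g (z - R w) = ∫ w, φ w • g (z - w) :=
    R.measurePreserving.integral_comp R.toHomeomorph.measurableEmbedding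
      (fun w => φ w • g (z - w))
  simp only [hR, neg_smul, integral_neg] at h1
  simp only [smul_sub]
  rw [integral_sub (int0 h hφ z) (int1 h hφ z R), neg_eq_iff_eq_neg.1 h1]
  module

theorem dlt (h : Hc ρ m g) (z : ℂ) (R : ℂ ≃ₗᵢ[ℝ] ℂ) :
    Continuous (fun w => g (z - w) - g (z - R w)) ∧
      ∀ w, ‖g (z - w) - g (z - R w)‖ ≤ 2 * m * √‖w‖ := by
  have h1 := cg h
  refine ⟨by fun_prop, fun w => ?_⟩
  have h2 := h.hol (z - w) z
  have h3 := h.hol z (z - R w)
  rw [sub_sub_cancel_left, norm_neg] at h2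
  rw [sub_sub_cancel, R.norm_map] at h3
  linarith [norm_sub_le_norm_sub_add_norm_sub (g (z - w)) (g z) (g (z - R w))]

def rot : ℂ ≃ₗᵢ[ℝ] ℂ := Complex.orientation.rightAngleRotation

theorem SS_rot (t : ℝ) (w : ℂ) : SS t (rot w) = -SS t w := by
  have e : rot w = I * w := Complex.rightAngleRotation w
  have h : ‖I * w‖ = ‖w‖ := by simp
  simp only [SS, kk, e, h, map_mul, conj_I, div_pow, mul_pow, neg_sq, I_sq]
  ring

theorem SS_neg (t : ℝ) (w : ℂ) : SS t (-w) = SS t w := by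
  simp only [SS, kk, norm_neg, map_neg, div_pow, neg_sq]

def AA (g : ℂ → V) (t : ℝ) (z : ℂ) : V := ∫ w, SS t w • g (z - w)
def BB (g : ℂ → V) (t : ℝ) (z : ℂ) : V := ∫ w, PP t w • g (z - w)
def UU (g : ℂ → V) (t : ℝ) (z : ℂ) : V := ∫ w, KK t w • g (z - w)
def A0 (g : ℂ → V) (z : ℂ) : V := (1 / 2 : ℝ) • ∫ w, SS 0 w • (g (z - w) - g (z - rot w))

theorem A0_sub (h : Hc ρ m g) {t : ℝ} (ht : 0 < t) (z : ℂ) :
    ‖A0 g z - AA g t z‖ ≤ 128 * m * √t := by
  obtain ⟨h1, h2⟩ := core (φ := fun w => SS 0 w - SS t w) ht (by norm_num)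
    ((meas_SS 0).sub (meas_SS t)) (dlt h z rot).1
    (fun w hw => bd_S0 ht hw) (dlt h z rot).2
  have h3 : Integrable fun w => SS t w • (g (z - w) - g (z - rot w)) := by
    simp only [smul_sub]
    exact (int0 h (cont_SS ht) z).sub (int1 h (cont_SS ht) z rot)
  have h4 : ∫ w, SS 0 w • (g (z - w) - g (z - rot w)) =
      (∫ w, (SS 0 w - SS t w) • (g (z - w) - g (z - rot w))) +
        ∫ w, SS t w • (g (z - w) - g (z - rot w)) := by
    rw [← integral_add h1 h3]
    simp only [sub_smul, sub_add_cancel]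
  rw [A0, AA, odd h (cont_SS ht) z rot (SS_rot t), h4, smul_add, add_sub_cancel_right, norm_smul]
  norm_num only [norm_div, norm_one, Real.norm_ofNat, one_div, ge_iff_le]
  linarith only [h2]

theorem AA_sub (h : Hc ρ m g) {z z' : ℂ} (ht : 0 < ‖z - z'‖) :
    ‖AA g ‖z - z'‖ z - AA g ‖z - z'‖ z'‖ ≤ 2048 * m * √‖z - z'‖ := by
  obtain ⟨k, hk⟩ : ∃ k, k = (z' - z) / 2 := ⟨_, rfl⟩
  have hk2 : ‖k‖ = ‖z - z'‖ / 2 := by rw [hk, norm_div, norm_sub_rev]; simp
  generalize ‖z - z'‖ = t at ht hk2 ⊢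
  have hc := cont_SS ht
  have c1 : Continuous fun w => SS t (w - k) := by fun_prop
  have c2 : Continuous fun w => SS t (w + k) := by fun_prop
  have e1 : AA g t z = ∫ w, SS t (w - k) • g (z + k - w) := by
    rw [AA, ← integral_sub_right_eq_self _ k]
    simp only [show ∀ w, z - (w - k) = z + k - w from fun w => by ring]
  have e2 : AA g t z' = ∫ w, SS t (w + k) • g (z + k - w) := by
    rw [AA, ← integral_add_right_eq_self _ k]
    simp only [show ∀ w, z' - (w + k) = z + k - w from fun w => by rw [hk]; ring]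
  have e3 := odd (φ := fun w => SS t (w - k) - SS t (w + k)) h (c1.sub c2) (z + k) (.neg ℝ)
    fun w => by
      have a1 : -w - k = -(w + k) := by ring
      have a2 : -w + k = -(w - k) := by ring
      simp only [LinearIsometryEquiv.coe_neg]
      rw [a1, a2, SS_neg, SS_neg, neg_sub]
  have h2 := (core (φ := fun w => SS t (w - k) - SS t (w + k)) ht (by norm_num)
    (c1.sub c2).measurable (dlt h (z + k) (.neg ℝ)).1
    (fun w hw => bd_D ht hk2 hw) (dlt h (z + k) (.neg ℝ)).2).2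
  rw [e1, e2, ← integral_sub (int0 h c1 _) (int0 h c2 _)]
  simp only [← sub_smul]
  refine (congrArg norm e3).trans_le ?_
  rw [norm_smul]
  norm_num only [LinearIsometryEquiv.coe_neg, sub_neg_eq_add, norm_div, norm_one, Real.norm_ofNat, one_div] at h2 ⊢
  linarith only [h2]

theorem BB_sub [CompleteSpace V] (h : Hc ρ m g) {t : ℝ} (ht : 0 < t) (z : ℂ) :
    ‖g z - BB g t z‖ ≤ 64 * m * √t := by
  have hg := cg h
  have h2 := (core (δ := fun w => g z - g (z - w)) (m := m) ht (by norm_num)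
    (cont_PP ht).measurable (by fun_prop) (fun w hw => bd_P ht hw)
    fun w => by simpa only [sub_sub_cancel] using h.hol z (z - w)).2
  have h3 : Integrable (PP t) := (poi ht).1.ofReal
  have h4 : ∫ w, PP t w = 1 := by
    unfold PP
    rw [integral_complex_ofReal, (poi ht).2, ofReal_one]
  simp only [smul_sub] at h2
  rw [integral_sub (h3.smul_const _) (int0 h (cont_PP ht) z), integral_smul_const, h4,
    one_smul] at h2
  exact h2.trans (le_of_eq (by ring))

theorem AA_one (h : Hc ρ m g) (hρ : 0 < ρ) (z : ℂ) : ‖AA g 1 z‖ ≤ 4 * ρ ^ 2 * m := by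
  have hm : 0 ≤ m := (norm_nonneg _).trans (h.bd 0)
  have hi : Integrable ((ball z ρ).indicator fun _ => m) :=
    (integrable_indicator_iff measurableSet_ball).2 (integrableOn_const measure_ball_lt_top.ne)
  refine (norm_integral_le_of_norm_le hi (.of_forall fun w => ?_)).trans ?_
  · by_cases hw : w ∈ ball z ρ
    · rw [indicator_of_mem hw, norm_smul]
      have h1 := (bd_glob one_pos w).1
      exact (mul_le_of_le_one_left (norm_nonneg _) (by simpa only [one_pow, ne_eq, one_ne_zero, not_false_eq_true, div_self] using h1)).trans (h.bd _)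
    · rw [indicator_of_notMem hw, h.supp _ (by simpa [dist_eq_norm, norm_sub_rev] using hw)]
      simp
  · rw [integral_indicator_const _ measurableSet_ball]
    have e : volume.real (ball z ρ) = ρ ^ 2 * Real.pi := by
      simp [Measure.real, Complex.volume_ball, hρ.le]
    rw [e, smul_eq_mul]
    have := Real.pi_lt_four
    exact mul_le_mul_of_nonneg_right (by nlinarith only [this]) hm

theorem der_UU [CompleteSpace V] (h : Hc ρ m g) {t : ℝ} (ht : 0 < t) (z : ℂ) :
    HasFDerivAt (UU g t) (LL (AA g t z) (BB g t z)) z := by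
  have hg := cg h
  have e : ∀ (φ : ℂ → ℂ) (z : ℂ), ∫ w, φ w • g (z - w) = ∫ s, φ (z - s) • g s := fun φ z => by
    rw [← integral_sub_left_eq_self _ volume z]
    simp only [sub_sub_cancel]
  have hi : ∀ φ : ℂ → ℂ, Continuous φ → Integrable fun s => φ (z - s) • g s := fun φ hφ =>
    Continuous.integrable_of_hasCompactSupport (by fun_prop) (cs h).smul_left
  have hK := cont_KK ht
  have hS := cont_SS ht
  have hP := cont_PP ht
  have hL : Continuous fun s => LL (SS t (z - s) • g s) (PP t (z - s) • g s) :=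
    cont_LL (by fun_prop) (by fun_prop)
  have hb : ∀ x s, ‖LL (SS t (x - s) • g s) (PP t (x - s) • g s)‖ ≤ 2 / t ^ 2 * ‖g s‖ := by
    intro x s
    refine (norm_LL _ _).trans ?_
    rw [norm_smul, norm_smul]
    calc _ ≤ 1 / t ^ 2 * ‖g s‖ + 1 / t ^ 2 * ‖g s‖ := by
          gcongr
          exacts [(bd_glob ht _).1, (bd_glob ht _).2]
      _ = _ := by ring
  have hn := (hg.integrable_of_hasCompactSupport (μ := volume) (cs h)).norm.const_mul (2 / t ^ 2)
  have h1 := hasFDerivAt_integral_of_dominated_of_fderiv_le (μ := volume) (𝕜 := ℝ)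
    (F := fun x s => KK t (x - s) • g s)
    (F' := fun x s => LL (SS t (x - s) • g s) (PP t (x - s) • g s)) (x₀ := z) univ_mem
    (.of_forall fun x => Continuous.aestronglyMeasurable (by fun_prop)) (hi _ hK)
    hL.aestronglyMeasurable (.of_forall fun s x _ => hb x s) hn (.of_forall fun s x _ => by
      have h2 := ((der_KK ht (x - s)).comp x ((hasFDerivAt_id x).sub_const s)).smul_const (g s)
      refine HasFDerivAt.congr_fderiv h2 (ContinuousLinearMap.ext fun ζ => ?_)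
      simp [LL_apply, add_smul, mul_smul])
  have e1 : UU g t = fun x => ∫ s, KK t (x - s) • g s := funext fun x => e _ x
  rw [e1]
  refine h1.congr_fderiv (ContinuousLinearMap.ext fun ζ => ?_)
  rw [ContinuousLinearMap.integral_apply (hn.mono' hL.aestronglyMeasurable (.of_forall (hb z)))]
  simp only [LL_apply]
  refine (integral_add ((hi _ hS).smul ζ) ((hi _ hP).smul (starRingEnd ℂ ζ))).trans ?_
  simp only [Pi.smul_apply]
  rw [integral_smul, integral_smul, AA, BB, e, e]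

theorem lim_UU (h : Hc ρ m g) (z : ℂ)
    (hi : Integrable fun w : ℂ => ((Real.pi : ℂ) * w)⁻¹ • g (z - w)) {t : ℕ → ℝ}
    (ht : ∀ n, 0 < t n) (h0 : Tendsto t atTop (𝓝 0)) :
    Tendsto (fun n => UU g (t n) z) atTop (𝓝 (cT g z)) := by
  have e0 : ∀ w : ℂ, KK 0 w = ((Real.pi : ℂ) * w)⁻¹ := by
    intro w
    rw [KK, kk, nn, mul_inv]
    rcases eq_or_ne w 0 with rfl | hw
    · simp
    · have : starRingEnd ℂ w ≠ 0 := by simpa using hw
      simp only [ofReal_zero, ne_eq, OfNat.ofNat_ne_zero, not_false_eq_true, zero_pow, add_zero, mul_eq_mul_left_iff, inv_eq_zero, ofReal_eq_zero, Real.pi_ne_zero, or_false]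
      field_simp
  refine tendsto_integral_of_dominated_convergence _
    (fun n => (int0 h (cont_KK (ht n)) z).aestronglyMeasurable) hi.norm
    (fun n => .of_forall fun w => ?_) (.of_forall fun w => ?_)
  · rw [← e0, norm_smul, norm_smul, KK, KK, norm_mul, norm_mul, norm_kk, norm_kk]
    rcases eq_or_ne w 0 with rfl | hw
    · simp
    · have hr : 0 < ‖w‖ := norm_pos_iff.2 hw
      have := (ht n).le
      gcongr
  · rw [← e0]
    refine Tendsto.smul_const (Tendsto.const_mul _ ?_) _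
    rcases eq_or_ne w 0 with rfl | hw
    · simp [kk]
    · have hr : 0 < ‖w‖ := norm_pos_iff.2 hw
      refine tendsto_const_nhds.div ((continuous_ofReal.tendsto _).comp
        (tendsto_const_nhds.add (h0.pow 2))) (ofReal_ne_zero.2 (by positivity))

theorem der_cT [CompleteSpace V] (h : Hc ρ m g)
    (hi : ∀ z, Integrable fun w : ℂ => ((Real.pi : ℂ) * w)⁻¹ • g (z - w)) (z : ℂ) :
    HasFDerivAt (cT g) (LL (A0 g z) (g z)) z := by
  have ht : ∀ n : ℕ, (0 : ℝ) < 1 / ((n : ℝ) + 1) := fun n => by positivity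
  have h0 := tendsto_one_div_add_atTop_nhds_zero_nat (𝕜 := ℝ)
  refine hasFDerivAt_of_tendstoUniformly (l := atTop) (g' := fun z => LL (A0 g z) (g z)) ?_
    (fun n x => der_UU h (ht n) x) (fun x => lim_UU h x (hi x) ht h0) z
  refine Metric.tendstoUniformly_iff.2 fun ε hε => ?_
  have h1 : Tendsto (fun n : ℕ => 192 * m * √(1 / ((n : ℝ) + 1))) atTop (𝓝 0) := by
    simpa only [one_div, Real.sqrt_inv, Real.sqrt_zero, mul_zero] using h0.sqrt.const_mul (192 * m)
  filter_upwards [h1.eventually_lt_const hε] with n hn x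
  rw [dist_eq_norm]
  linarith [norm_LL_sub (A0 g x) (g x) (AA g (1 / ((n : ℝ) + 1)) x) (BB g (1 / ((n : ℝ) + 1)) x),
    A0_sub h (ht n) x, BB_sub h (ht n) x]

end Vec
end T2'

open T2' in
theorem thT2 (h1 : StT1) : StT2 := by
  intro ρ hρ
  obtain ⟨c, -, hc⟩ := h1.1 ρ hρ
  refine ⟨4 * ρ ^ 2 + 2305, by positivity, fun V _ _ _ _ _ g m h => ?_⟩
  have hm : 0 ≤ m := (norm_nonneg _).trans (h.bd 0)
  have hd := der_cT h (hc V g m (cg h) h.supp h.bd).1
  have hq : 0 ≤ ρ ^ 2 * m := by positivity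
  have hH : ∀ z w, ‖fderiv ℝ (cT g) z - fderiv ℝ (cT g) w‖ ≤ (4 * ρ ^ 2 + 2305) * m * √‖z - w‖ := by
    intro z w
    rcases eq_or_ne z w with rfl | hne
    · simp
    have ht : 0 < ‖z - w‖ := norm_pos_iff.2 (sub_ne_zero.2 hne)
    rw [(hd z).fderiv, (hd w).fderiv]
    have a1 := A0_sub h ht z
    have a2 := A0_sub h ht w
    rw [norm_sub_rev] at a2
    have a3 := norm_sub_le_norm_sub_add_norm_sub (A0 g z) (AA g ‖z - w‖ z) (A0 g w)
    have a4 := norm_sub_le_norm_sub_add_norm_sub (AA g ‖z - w‖ z) (AA g ‖z - w‖ w) (A0 g w)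
    have a5 := mul_nonneg hq (Real.sqrt_nonneg ‖z - w‖)
    linarith [norm_LL_sub (A0 g z) (g z) (A0 g w) (g w), AA_sub h ht, h.hol z w]
  refine ⟨contDiff_one_iff_fderiv.2 ⟨fun z => (hd z).differentiableAt, cont_of_hol hH⟩,
    fun z => ?_, fun z => ?_, hH⟩
  · rw [dbar, (hd z).fderiv, LL_apply, LL_apply]
    simp only [map_one, conj_I, smul_add, smul_smul, I_mul_I, mul_neg]
    module
  · rw [(hd z).fderiv]
    have a1 := A0_sub h one_pos z
    have a2 := norm_le_norm_add_norm_sub' (A0 g z) (AA g 1 z)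
    rw [Real.sqrt_one] at a1
    linarith [norm_LL (A0 g z) (g z), AA_one h hρ z, h.bd z]

end
end Pool.Agent.MP_be5fd0_gt.T

/-! The Pompeiu formula for vector valued functions with a limit at infinity. -/

namespace Pool.Agent.MP_be5fd0_gt.T

open Complex Filter Topology Set Metric MeasureTheory
open scoped ContDiff BoundedContinuousFunction

noncomputable section

namespace T3'

theorem greenA_intOn {G : ℝ × ℝ → ℂ} (hG : Continuous G) {R : ℝ} (h0 : ∀ p : ℝ × ℝ, R < p.1 → G p = 0) :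
    IntegrableOn G (Ioi 0 ×ˢ Ioo (-Real.pi) Real.pi) (volume.prod volume) := by
  have h1 : IntegrableOn G (Icc 0 R ×ˢ Icc (-Real.pi) Real.pi) (volume.prod volume) :=
    hG.continuousOn.integrableOn_compact (isCompact_Icc.prod isCompact_Icc)
  refine h1.of_forall_sdiff_eq_zero (measurableSet_Ioi.prod measurableSet_Ioo) ?_
  rintro p ⟨⟨h2, h3⟩, h4⟩
  apply h0
  by_contra h5
  exact h4 ⟨⟨le_of_lt h2, not_lt.mp h5⟩, Ioo_subset_Icc_self h3⟩

theorem greenA_lin (L : ℂ →L[ℝ] ℂ) (θ : ℝ) :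
    (L 1 + I * L I) / exp (θ * I) = L (exp (θ * I)) + I * L (exp (θ * I) * I) := by
  have h1 : exp (θ * I) = Real.cos θ • (1 : ℂ) + Real.sin θ • I := by
    rw [exp_mul_I]; simp
  have h2 : exp (θ * I) * I = (-Real.sin θ) • (1 : ℂ) + Real.cos θ • I := by
    rw [exp_mul_I]; simp; linear_combination (Complex.sin θ) * I_mul_I
  have l1 : L (exp (θ * I)) = (Real.cos θ : ℂ) * L 1 + (Real.sin θ : ℂ) * L I := by
    rw [h1, map_add, map_smul, map_smul, real_smul, real_smul]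
  have l2 : L (exp (θ * I) * I) = -(Real.sin θ : ℂ) * L 1 + (Real.cos θ : ℂ) * L I := by
    rw [h2, map_add, map_smul, map_smul, real_smul, real_smul, ofReal_neg]
  have h4 : exp (θ * I) = (Real.cos θ : ℂ) + (Real.sin θ : ℂ) * I := by
    rw [exp_mul_I]; simp
  rw [div_eq_iff (exp_ne_zero _), l1, l2, h4]
  have h3 : (Real.cos θ : ℂ) ^ 2 + (Real.sin θ : ℂ) ^ 2 = 1 := by
    exact_mod_cast Real.cos_sq_add_sin_sq θ
  linear_combination (-(L 1) - I * L I) * h3 +
    ((Real.sin θ : ℂ) ^ 2 * L 1 - (Real.sin θ : ℂ) * (Real.cos θ : ℂ) * L I) * I_mul_I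

/-- scalar Cauchy-Pompeiu formula for compact support -/
theorem cauchy_pompeiu {φ : ℂ → ℂ} (hφ : ContDiff ℝ 1 φ) (hs : HasCompactSupport φ) (ζ : ℂ) :
    ∫ z, (fderiv ℝ φ z 1 + I * fderiv ℝ φ z I) / (z - ζ) = - (2 * Real.pi) * φ ζ := by
  obtain ⟨R0, hR0⟩ := hs.isCompact.isBounded.subset_closedBall ζ
  have hφd : Differentiable ℝ φ := hφ.differentiable one_ne_zero
  have hD : Continuous (fderiv ℝ φ) := hφ.continuous_fderiv one_ne_zero
  have hn : ∀ (r θ : ℝ), R0 < |r| → ζ + r * exp (θ * I) ∉ tsupport φ := by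
    intro r θ hr h
    have := hR0 h
    rw [Metric.mem_closedBall, dist_eq_norm, add_sub_cancel_left, norm_mul, norm_exp_ofReal_mul_I,
      mul_one, norm_real, Real.norm_eq_abs] at this
    linarith
  have hD0 : ∀ (r θ : ℝ), R0 < r → fderiv ℝ φ (ζ + r * exp (θ * I)) = 0 := by
    intro r θ hr
    exact image_eq_zero_of_notMem_tsupport fun h =>
      hn r θ (lt_of_lt_of_le hr (le_abs_self r)) (tsupport_fderiv_subset ℝ h)
  let A : ℝ × ℝ → ℂ := fun p => fderiv ℝ φ (ζ + p.1 * exp (p.2 * I)) (exp (p.2 * I))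
  let B : ℝ × ℝ → ℂ := fun p => fderiv ℝ φ (ζ + p.1 * exp (p.2 * I)) (exp (p.2 * I) * I)
  have hA : IntegrableOn A (Ioi 0 ×ˢ Ioo (-Real.pi) Real.pi) (volume.prod volume) :=
    greenA_intOn (R := R0) ((hD.comp (by fun_prop)).clm_apply (by fun_prop))
      (fun p hp => by simp only [A, hD0 _ _ hp, zero_apply])
  have hB : IntegrableOn B (Ioi 0 ×ˢ Ioo (-Real.pi) Real.pi) (volume.prod volume) :=
    greenA_intOn (R := R0) ((hD.comp (by fun_prop)).clm_apply (by fun_prop))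
      (fun p hp => by simp only [B, hD0 _ _ hp, zero_apply])
  have iA : ∀ θ : ℝ, ∫ r in Ioi (0 : ℝ), A (r, θ) = -φ ζ := by
    intro θ
    have c1 : ContDiff ℝ 1 (fun r : ℝ => φ (ζ + r * exp (θ * I))) :=
      hφ.comp (contDiff_const.add (ofRealCLM.contDiff.mul contDiff_const))
    have c2 : HasCompactSupport (fun r : ℝ => φ (ζ + r * exp (θ * I))) := by
      refine HasCompactSupport.intro (isCompact_Icc (a := -R0) (b := R0)) fun r hr => ?_
      refine image_eq_zero_of_notMem_tsupport (hn r θ ?_)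
      by_contra h
      exact hr (abs_le.mp (not_lt.mp h))
    have c3 := c2.integral_Ioi_deriv_eq c1 0
    simp only [ofReal_zero, zero_mul, add_zero] at c3
    rw [← c3]
    congr 1
    funext r
    have d1 : HasDerivAt (fun r : ℝ => ζ + r * exp (θ * I)) (exp (θ * I)) r := by
      simpa using ((ofRealCLM.hasDerivAt (x := r)).mul_const (exp (θ * I))).const_add ζ
    exact ((hφd _).hasFDerivAt.comp_hasDerivAt r d1).deriv.symm
  have iB : ∀ r : ℝ, 0 < r → ∫ θ in Ioo (-Real.pi) Real.pi, B (r, θ) = 0 := by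
    intro r hr
    have d1 : ∀ θ : ℝ, HasDerivAt (fun θ : ℝ => φ (ζ + r * exp (θ * I))) (r • B (r, θ)) θ := by
      intro θ
      have d2 : HasDerivAt (fun θ : ℝ => ζ + r * exp (θ * I)) (r • (exp (θ * I) * I)) θ := by
        simpa using ((((ofRealCLM.hasDerivAt (x := θ)).mul_const I).cexp).const_mul (r : ℂ)).const_add ζ
      have := (hφd _).hasFDerivAt.comp_hasDerivAt θ d2
      rw [map_smul] at this
      exact this
    have hc : Continuous fun θ : ℝ => r • B (r, θ) :=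
      ((hD.comp (by fun_prop)).clm_apply (by fun_prop)).const_smul r
    have d3 := intervalIntegral.integral_eq_sub_of_hasDerivAt (a := -Real.pi) (b := Real.pi)
      (fun θ _ => d1 θ) (hc.intervalIntegrable _ _)
    rw [intervalIntegral.integral_of_le (by linarith [Real.pi_pos]), integral_Ioc_eq_integral_Ioo,
      integral_smul, ofReal_neg, neg_mul, exp_neg, exp_pi_mul_I] at d3
    simp only [inv_neg, inv_one, sub_self, smul_eq_zero] at d3
    exact d3.resolve_left hr.ne'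
  rw [← integral_add_left_eq_self _ ζ, ← Complex.integral_comp_polarCoord_symm, polarCoord_target]
  have e1 : ∫ p in Ioi (0 : ℝ) ×ˢ Ioo (-Real.pi) Real.pi,
      p.1 • ((fderiv ℝ φ (ζ + Complex.polarCoord.symm p) 1 +
        I * fderiv ℝ φ (ζ + Complex.polarCoord.symm p) I) / (ζ + Complex.polarCoord.symm p - ζ))
      = ∫ p in Ioi (0 : ℝ) ×ˢ Ioo (-Real.pi) Real.pi, (A p + I * B p) := by
    refine setIntegral_congr_fun (measurableSet_Ioi.prod measurableSet_Ioo) fun p hp => ?_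
    have e2 : Complex.polarCoord.symm p = p.1 * exp (p.2 * I) := by
      rw [Complex.polarCoord_symm_apply, exp_mul_I]; simp
    have e3 : (p.1 : ℂ) ≠ 0 := ofReal_ne_zero.mpr (ne_of_gt hp.1)
    simp only [A, B, e2, add_sub_cancel_left, real_smul]
    rw [← greenA_lin]
    field_simp
  rw [e1, Measure.volume_eq_prod, integral_add hA (hB.const_mul I), integral_const_mul,
    setIntegral_prod _ hB, setIntegral_congr_fun measurableSet_Ioi (fun r hr => iB r hr),
    ← Measure.prod_restrict, integral_prod_symm _ (by rw [Measure.prod_restrict]; exact hA)]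
  simp only [iA, integral_zero, mul_zero, add_zero, integral_const, MeasurableSet.univ,
    measureReal_restrict_apply, univ_inter, Real.volume_real_Ioo, real_smul]
  rw [max_eq_left (by linarith only [Real.pi_pos])]
  push_cast
  ring

theorem scalar {φ : ℂ → ℂ} (hφ : ContDiff ℝ 1 φ) (hs : HasCompactSupport φ) (ζ : ℂ) :
    φ ζ = cT (dbar φ) ζ := by
  have h := cauchy_pompeiu hφ hs ζ
  have e : cT (dbar φ) ζ = ∫ z, (-(2 * (Real.pi : ℂ))⁻¹) *
      ((fderiv ℝ φ z 1 + I * fderiv ℝ φ z I) / (z - ζ)) := by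
    rw [← integral_sub_left_eq_self _ volume ζ, cT]
    congr 1
    funext w
    simp only [dbar, smul_eq_mul, sub_sub_cancel_left, mul_inv, div_eq_mul_inv]
    ring
  have hp : (Real.pi : ℂ) ≠ 0 := ofReal_ne_zero.mpr Real.pi_ne_zero
  rw [e, integral_const_mul, h]
  field_simp

variable {V : Type} [NormedAddCommGroup V] [NormedSpace ℝ V] [NormedSpace ℂ V]
  [IsScalarTower ℝ ℂ V] [CompleteSpace V]

omit [NormedSpace ℝ V] [NormedSpace ℂ V] [IsScalarTower ℝ ℂ V] [CompleteSpace V] in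
theorem cpt {g : ℂ → V} {ρ : ℝ} (h : ∀ z, ρ ≤ ‖z‖ → g z = 0) : HasCompactSupport g :=
  HasCompactSupport.intro (isCompact_closedBall (0 : ℂ) ρ) fun z hz =>
    h z (le_of_lt (by simpa using hz))

theorem integ (h1 : StT1) {g : ℂ → V} {ρ : ℝ} (hρ : 0 < ρ) (hg : Continuous g)
    (h : ∀ z, ρ ≤ ‖z‖ → g z = 0) (z : ℂ) :
    Integrable fun w : ℂ => ((Real.pi : ℂ) * w)⁻¹ • g (z - w) := by
  obtain ⟨c, -, hc⟩ := h1.1 ρ hρ
  obtain ⟨m, hm⟩ := hg.bounded_above_of_compact_support (cpt h)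
  exact (hc V g m hg h hm).1 z

theorem vector (h1 : StT1) {G : ℂ → V} {ρ : ℝ} (hρ : 0 < ρ) (hG : ContDiff ℝ 1 G)
    (h : ∀ z, ρ ≤ ‖z‖ → G z = 0) (ζ : ℂ) : G ζ = cT (dbar G) ζ := by
  have hd : ∀ z, ρ + 1 ≤ ‖z‖ → dbar G z = 0 := by
    intro z hz
    have : G =ᶠ[𝓝 z] fun _ => 0 := by
      filter_upwards [(isOpen_lt continuous_const continuous_norm).mem_nhds
        (show ρ < ‖z‖ by linarith)] with w hw using h w (le_of_lt hw)
    rw [(del_congr this).2, (del_const _ _).2]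
  have hi := integ h1 (by linarith) (continuous_del hG).2 hd ζ
  refine (SeparatingDual.eq_iff_forall_dual_eq (R := ℂ)).2 fun L => ?_
  have hL : ContDiff ℝ 1 fun w => L (G w) := (L.restrictScalars ℝ).contDiff.comp hG
  have hs : HasCompactSupport fun w => L (G w) := cpt fun z hz => by rw [h z hz, map_zero]
  rw [scalar hL hs ζ, cT, cT]
  refine Eq.trans ?_ ((L.restrictScalars ℝ).integral_comp_comm hi)
  congr 1
  funext w
  rw [(del_clm L (hG.differentiable one_ne_zero _)).2]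
  simp only [mul_inv_rev, smul_eq_mul, ContinuousLinearMap.coe_restrictScalars', map_smul]

theorem bump : ∃ (χ : ℂ → ℂ) (C : ℝ), 0 < C ∧ ContDiff ℝ 1 χ ∧ (∀ z, ‖z‖ ≤ 1 → χ z = 1) ∧
    (∀ z, 2 ≤ ‖z‖ → χ z = 0) ∧ ∀ z, ‖fderiv ℝ χ z‖ ≤ C := by
  let b : ContDiffBump (0 : ℂ) := ⟨1, 2, one_pos, one_lt_two⟩
  have hb : ContDiff ℝ 1 fun z => ((b z : ℝ) : ℂ) := ofRealCLM.contDiff.comp b.contDiff
  have h2 : ∀ z : ℂ, 2 ≤ ‖z‖ → ((b z : ℝ) : ℂ) = 0 := fun z hz => by
    rw [b.zero_of_le_dist (by simpa using hz), ofReal_zero]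
  obtain ⟨C, hC⟩ := (hb.continuous_fderiv one_ne_zero).bounded_above_of_compact_support
    ((cpt h2).fderiv ℝ)
  refine ⟨_, C + 1, by linarith [(norm_nonneg _).trans (hC 0)], hb, fun z hz => ?_, h2,
    fun z => (hC z).trans (by linarith)⟩
  rw [b.one_of_mem_closedBall (by simpa only [mem_closedBall, dist_zero_right] using hz), ofReal_one]

end T3'

open T3' in
theorem thT3 (h1 : StT1) : StT3 := by
  intro V _ _ _ _ _ F v ρ hF hv hρ ζ
  obtain ⟨χ, C, hC, hχ, h01, h02, hb⟩ := bump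
  rw [← sub_eq_iff_eq_add', ← sub_eq_zero, ← norm_le_zero_iff]
  refine le_of_forall_pos_le_add fun ε hε => ?_
  have hδ : 0 < ε / (8 * C) := by positivity
  obtain ⟨n, hn0, hnρ, hnζ, hn⟩ : ∃ n : ℝ, 0 < n ∧ ρ ≤ n ∧ ‖ζ‖ ≤ n ∧
      ∀ z : ℂ, n ≤ ‖z‖ → ‖F z - v‖ ≤ ε / (8 * C) := by
    obtain ⟨K, hK, hKs⟩ := mem_cocompact.1 (hv (closedBall_mem_nhds v hδ))
    obtain ⟨r, hr0, hr⟩ := hK.isBounded.subset_ball_lt (max ρ ‖ζ‖) 0
    refine ⟨r, lt_of_le_of_lt ((norm_nonneg ζ).trans (le_max_right _ _)) hr0,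
      (le_max_left _ _).trans hr0.le, (le_max_right _ _).trans hr0.le, fun z hz => ?_⟩
    have : z ∈ Kᶜ := fun h => absurd (mem_ball_zero_iff.1 (hr h)) (not_lt.2 hz)
    simpa only [ge_iff_le, mem_preimage, mem_closedBall, dist_eq_norm] using hKs this
  have hnn : ∀ z : ℂ, ‖n⁻¹ • z‖ = ‖z‖ / n := fun z => by
    rw [norm_smul, norm_inv, Real.norm_of_nonneg hn0.le, div_eq_inv_mul]
  obtain ⟨f, hf⟩ : ∃ f : ℂ → ℂ, f = fun z => χ (n⁻¹ • z) := ⟨_, rfl⟩
  have fc : ContDiff ℝ 1 f := hf ▸ hχ.comp (contDiff_id.const_smul n⁻¹)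
  have f1 : ∀ z, ‖z‖ ≤ n → f z = 1 := fun z hz => by
    rw [hf]; exact h01 _ (by rw [hnn, div_le_one hn0]; exact hz)
  have f0 : ∀ z, 2 * n ≤ ‖z‖ → f z = 0 := fun z hz => by
    rw [hf]; exact h02 _ (by rw [hnn, le_div_iff₀ hn0]; exact hz)
  have fd : ∀ z, ‖dbar f z‖ ≤ n⁻¹ * C := fun z => by
    refine (norm_dbar_le f z).trans ?_
    rw [hf, fderiv_comp_smul, norm_smul, norm_inv, Real.norm_of_nonneg hn0.le]
    exact mul_le_mul_of_nonneg_left (hb _) (by positivity)
  have d1 : ∀ z, ‖z‖ < n → dbar f z = 0 := fun z hz => by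
    have : f =ᶠ[𝓝 z] fun _ => 1 := by
      filter_upwards [(isOpen_lt continuous_norm continuous_const).mem_nhds hz] with w hw
        using f1 w (le_of_lt hw)
    rw [(del_congr this).2, (del_const _ _).2]
  have d0 : ∀ z, 3 * n ≤ ‖z‖ → dbar f z = 0 := fun z hz => by
    have : f =ᶠ[𝓝 z] fun _ => 0 := by
      filter_upwards [(isOpen_lt continuous_const continuous_norm).mem_nhds
        (show 2 * n < ‖z‖ by linarith)] with w hw using f0 w (le_of_lt hw)
    rw [(del_congr this).2, (del_const _ _).2]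
  have hFv : ContDiff ℝ 1 fun z => F z - v := hF.sub contDiff_const
  have key := vector h1 (G := fun z => f z • (F z - v)) (ρ := 2 * n) (by linarith only [hn0]) (fc.smul hFv)
    (fun z hz => by rw [f0 z hz, zero_smul]) ζ
  have split : dbar (fun z => f z • (F z - v)) = fun z => dbar F z + dbar f z • (F z - v) := by
    funext z
    rw [(del_smul (fc.differentiable one_ne_zero z) (hFv.differentiable one_ne_zero z)).2,
      (del_sub (hF.differentiable one_ne_zero z) (differentiableAt_const v)).2, (del_const _ _).2,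
      sub_zero]
    rcases le_total ‖z‖ n with h | h
    · rw [f1 z h, one_smul]
    · rw [hρ z (hnρ.trans h), smul_zero]
  have hc : Continuous fun z => dbar f z • (F z - v) := (continuous_del fc).2.smul hFv.continuous
  have hz : ∀ z, 3 * n ≤ ‖z‖ → dbar f z • (F z - v) = 0 := fun z h => by rw [d0 z h, zero_smul]
  have hm : ∀ z, ‖dbar f z • (F z - v)‖ ≤ n⁻¹ * C * (ε / (8 * C)) := fun z => by
    rcases lt_or_ge ‖z‖ n with h | h
    · rw [d1 z h, zero_smul, norm_zero]; positivity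
    · rw [norm_smul]; exact mul_le_mul (fd z) (hn z h) (norm_nonneg _) (by positivity)
  have est := (h1.2 V _ _ _ hc hz hm).2.1 ζ (4 * n) (by linarith only [hn0]) fun w hw =>
    hz w (by linarith [norm_sub_le w ζ])
  rw [split, (cT_add (integ h1 hn0 (continuous_del hF).2 (fun z h => hρ z (hnρ.trans h)) ζ)
    (integ h1 (by linarith only [hn0]) hc hz ζ)).1, f1 ζ hnζ, one_smul] at key
  rw [key, add_sub_cancel_left, zero_add]
  refine est.trans (le_of_eq ?_)
  field_simp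
  norm_num

end

end Pool.Agent.MP_be5fd0_gt.T

/-! The similarity principle bound. -/

namespace Pool.Agent.MP_be5fd0_gt.T

open Complex Filter Topology Set Metric MeasureTheory
open scoped ContDiff BoundedContinuousFunction

namespace Sim'

theorem hc_of {g : ℂ → ℂ} {ρ B : ℝ} (hg : ContDiff ℝ 1 g) (hs : ∀ z, ρ ≤ ‖z‖ → g z = 0)
    (hB : ∀ z, ‖g z‖ ≤ B) : ∃ m, Hc ρ m g := by
  have hc : HasCompactSupport g := HasCompactSupport.intro (isCompact_closedBall 0 ρ)
    fun z hz => hs z (by simpa using (not_le.mp (by simpa using hz)).le)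
  obtain ⟨L, hL⟩ := hg.lipschitzWith_of_hasCompactSupport hc one_ne_zero
  have hB0 : 0 ≤ B := (norm_nonneg _).trans (hB 0)
  have hL0 : (0 : ℝ) ≤ L := L.2
  refine ⟨L + 2 * B, hs, fun z => (hB z).trans (by linarith), fun z w => ?_⟩
  have h1 : ‖g z - g w‖ ≤ L * ‖z - w‖ := by
    simpa only [dist_eq_norm] using hL.dist_le_mul z w
  have h2 : ‖g z - g w‖ ≤ 2 * B := (norm_sub_le _ _).trans (by linarith [hB z, hB w])
  have hs0 := Real.sqrt_nonneg ‖z - w‖
  have hsq := Real.mul_self_sqrt (norm_nonneg (z - w))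
  generalize √‖z - w‖ = s at *
  rcases le_total s 1 with h | h
  · have h3 : ‖z - w‖ ≤ s := by nlinarith only [hs0, hsq, h]
    have h4 := mul_le_mul_of_nonneg_left h3 hL0
    linarith only [mul_nonneg hB0 hs0, h1, h4]
  · nlinarith only [hB0, h2, h]

theorem exists_b {f : ℂ → ℂ} {ρ M ε : ℝ} (hM : 0 ≤ M) (hε : 0 < ε) (hf : ContDiff ℝ 1 f)
    (hs : ∀ z, ρ ≤ ‖z‖ → dbar f z = 0) (hb : ∀ z, ‖dbar f z‖ ≤ M * ‖f z‖ + ε) :
    ∃ b : ℂ → ℂ, ContDiff ℝ 1 b ∧ (∀ z, ρ ≤ ‖z‖ → b z = 0) ∧ (∀ z, ‖b z‖ ≤ M + 2) ∧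
      ∀ z, ‖dbar f z - b z * f z‖ ≤ (M + 2) * ε := by
  have hd := (continuous_del hf).2
  have hfc := hf.continuous
  have hpos : ∀ z, 0 < ‖f z‖ ^ 2 + ε ^ 2 := fun z => by positivity
  let b0 : ℂ → ℂ := fun z =>
    dbar f z * (starRingEnd ℂ (f z)) * (((‖f z‖ ^ 2 + ε ^ 2)⁻¹ : ℝ) : ℂ)
  have hb0 : Continuous b0 :=
    (hd.mul (continuous_conj.comp hfc)).mul (continuous_ofReal.comp
      (((hfc.norm.pow 2).add continuous_const).inv₀ fun z => (hpos z).ne'))
  obtain ⟨b, h1, h2, h3⟩ := hb0.exists_contDiff_approx 1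
    (ε := fun z => min 1 (ε * (‖f z‖ + 1)⁻¹))
    (continuous_const.min (continuous_const.mul
      ((hfc.norm.add continuous_const).inv₀ fun z =>
        (add_pos_of_nonneg_of_pos (norm_nonneg (f z)) one_pos).ne')))
    (fun z => lt_min one_pos (by positivity))
  have n0 : ∀ z, ‖b0 z‖ ≤ M + 1 := fun z => by
    have e : ‖b0 z‖ = ‖dbar f z‖ * ‖f z‖ / (‖f z‖ ^ 2 + ε ^ 2) := by
      simp only [b0, norm_mul, Complex.norm_conj, Complex.norm_real, norm_inv,
        Real.norm_of_nonneg (hpos z).le, div_eq_mul_inv]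
    rw [e, div_le_iff₀ (hpos z)]
    have h4 := mul_le_mul_of_nonneg_right (hb z) (norm_nonneg (f z))
    linarith only [sq_nonneg (‖f z‖ - ε), mul_nonneg hM (sq_nonneg ε), sq_nonneg ε, sq_nonneg ‖f z‖, h4]
  have n1 : ∀ z, ‖dbar f z - b0 z * f z‖ ≤ (M + 1) * ε := fun z => by
    have hne : ((‖f z‖ ^ 2 + ε ^ 2 : ℝ) : ℂ) ≠ 0 := by exact_mod_cast (hpos z).ne'
    have e : dbar f z - b0 z * f z =
        dbar f z * ((ε ^ 2 * (‖f z‖ ^ 2 + ε ^ 2)⁻¹ : ℝ) : ℂ) := by
      have h5 : starRingEnd ℂ (f z) * f z = ((‖f z‖ ^ 2 : ℝ) : ℂ) := by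
        rw [Complex.conj_mul']; push_cast; rfl
      have h6 : b0 z * f z = dbar f z * (((‖f z‖ ^ 2 : ℝ) : ℂ) *
          (((‖f z‖ ^ 2 + ε ^ 2)⁻¹ : ℝ) : ℂ)) := by
        rw [← h5]; simp only [b0]; ring
      have h7 : ε ^ 2 * (‖f z‖ ^ 2 + ε ^ 2)⁻¹ = 1 - ‖f z‖ ^ 2 * (‖f z‖ ^ 2 + ε ^ 2)⁻¹ := by
        field_simp [(hpos z).ne']; ring
      rw [h6, h7, ofReal_sub, ofReal_mul, ofReal_one]; ring
    rw [e, norm_mul, Complex.norm_real, Real.norm_of_nonneg (by have := hpos z; positivity),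
      ← mul_assoc, ← div_eq_mul_inv, div_le_iff₀ (hpos z)]
    have h4 := mul_le_mul_of_nonneg_right (hb z) (sq_nonneg ε)
    have h8 : ‖f z‖ * ε ≤ ‖f z‖ ^ 2 + ε ^ 2 := by nlinarith only []
    have h9 := mul_le_mul_of_nonneg_left h8 (mul_nonneg hM hε.le)
    linarith only [mul_nonneg hε.le (sq_nonneg ‖f z‖), h4, h9]
  refine ⟨b, h1, fun z hz => ?_, fun z => ?_, fun z => ?_⟩
  · by_contra hne
    exact h3 hne (by simp only [b0, hs z hz, zero_mul])
  · have h4 := (h2 z).le.trans (min_le_left _ _)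
    rw [dist_eq_norm] at h4
    linarith [n0 z, norm_sub_norm_le (b z) (b0 z)]
  · have h4 := (h2 z).le.trans (min_le_right _ _)
    rw [dist_eq_norm, ← div_eq_mul_inv, le_div_iff₀ (by positivity)] at h4
    have e : dbar f z - b z * f z = (dbar f z - b0 z * f z) - (b z - b0 z) * f z := by ring
    have h5 := norm_sub_le (dbar f z - b0 z * f z) ((b z - b0 z) * f z)
    rw [← e, norm_mul] at h5
    linarith only [n1 z, norm_nonneg (b z - b0 z), h4, h5]

theorem dbar_exp {G : ℂ → ℂ} {z : ℂ} (hG : DifferentiableAt ℝ G z) :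
    dbar (fun w => cexp (-G w)) z = -(cexp (-G z) * dbar G z) := by
  have h := (hG.hasFDerivAt.neg.cexp).fderiv
  have h' : fderiv ℝ (fun w => cexp (-G w)) z = cexp (-G z) • -fderiv ℝ G z := h
  simp only [dbar, h', smul_apply, neg_apply, smul_eq_mul]
  ring

end Sim'

theorem thSim (h1 : StT1) (h2 : StT2) (h3 : StT3) : StSim := by
  intro ρ M hρ hM
  obtain ⟨c, hc, hT⟩ := h1.1 ρ hρ
  obtain ⟨c', -, hT2⟩ := h2 ρ hρ
  set K := Real.exp (c * (M + 2)) with hK
  have hK1 : 1 ≤ K := Real.one_le_exp (by positivity)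
  set D := c * (K * (M + 2)) with hD
  have hD0 : 0 ≤ D := by positivity
  have main : ∀ (f : ℂ → ℂ) (v : ℂ) (ε : ℝ), 0 < ε →
      ContDiff ℝ 1 f → Tendsto f (cocompact ℂ) (𝓝 v) → (∀ z, ρ ≤ ‖z‖ → dbar f z = 0) →
      (∀ z, ‖dbar f z‖ ≤ M * ‖f z‖ + ε) →
      ∀ z, ‖f z‖ ≤ K * (1 + D) * (‖v‖ + ε) ∧ ‖v‖ ≤ K * (1 + D) * (‖f z‖ + ε) := by
    intro f v ε hε hf hv hs hb z
    obtain ⟨b, b1, b2, b3, b4⟩ := Sim'.exists_b hM hε hf hs hb
    obtain ⟨m, hm⟩ := Sim'.hc_of b1 b2 b3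
    obtain ⟨G1, G2, -⟩ := hT2 ℂ b m hm
    obtain ⟨-, -, G3, G4, -⟩ := hT ℂ b (M + 2) b1.continuous b2 b3
    generalize cT b = G at G1 G2 G3 G4
    have hE : ContDiff ℝ 1 fun w => cexp (-G w) := G1.neg.cexp
    have hF : ContDiff ℝ 1 fun w => cexp (-G w) • f w := hE.smul hf
    have hdF : ∀ w, dbar (fun w => cexp (-G w) • f w) w =
        cexp (-G w) * (dbar f w - b w * f w) := fun w => by
      rw [(del_smul (hE.differentiable one_ne_zero w) (hf.differentiable one_ne_zero w)).2,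
        Sim'.dbar_exp (G1.differentiable one_ne_zero w), G2]
      simp only [smul_eq_mul]; ring
    have hn : ∀ w, ‖cexp (-G w)‖ ≤ K ∧ ‖cexp (G w)‖ ≤ K := fun w =>
      ⟨(Complex.norm_exp_le_exp_norm _).trans (Real.exp_le_exp.2 (by rw [norm_neg]; exact G3 w)),
        (Complex.norm_exp_le_exp_norm _).trans (Real.exp_le_exp.2 (G3 w))⟩
    have hG0 : Tendsto G (cocompact ℂ) (𝓝 0) := by
      have t1 : Tendsto (fun w : ℂ => c * (M + 2) / ‖w‖) (cocompact ℂ) (𝓝 0) :=
        (tendsto_norm_cocompact_atTop (E := ℂ)).const_div_atTop _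
      refine squeeze_zero_norm' ?_ t1
      filter_upwards [(tendsto_norm_cocompact_atTop (E := ℂ)).eventually_gt_atTop 0] with w hw
      rw [le_div_iff₀ hw, mul_comm]; exact G4 w
    have hFv : Tendsto (fun w => cexp (-G w) • f w) (cocompact ℂ) (𝓝 v) := by
      simpa only [smul_eq_mul, neg_zero, exp_zero, one_mul] using (hG0.neg.cexp).smul hv
    have hs' : ∀ w, ρ ≤ ‖w‖ → dbar (fun w => cexp (-G w) • f w) w = 0 := fun w hw => by
      rw [hdF, hs w hw, b2 w hw]; simp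
    have e := h3 ℂ _ v ρ hF hFv hs' z
    obtain ⟨-, -, R3, -⟩ := hT ℂ _ (K * ((M + 2) * ε)) (continuous_del hF).2 hs' fun w => by
      rw [hdF, norm_mul]
      exact mul_le_mul (hn w).1 (b4 w) (norm_nonneg _) (by linarith)
    have R4 := R3 z
    generalize cT (dbar fun w => cexp (-G w) • f w) z = r at e R4
    have R5 : ‖r‖ ≤ D * ε := R4.trans (le_of_eq (by rw [hD]; ring))
    have hv0 := norm_nonneg v
    have hf0 := norm_nonneg (f z)
    constructor
    · have e2 : f z = cexp (G z) * (v + r) := by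
        rw [← e, smul_eq_mul, ← mul_assoc, ← Complex.exp_add]; simp
      have e3 : ‖v + r‖ ≤ (1 + D) * (‖v‖ + ε) := by
        linarith only [norm_add_le v r, mul_nonneg hD0 hv0, hε, R4]
      rw [e2, norm_mul, mul_assoc]
      exact mul_le_mul (hn z).2 e3 (norm_nonneg _) (by linarith)
    · have e2 : v = cexp (-G z) * f z - r := by rw [← smul_eq_mul, e]; ring
      have e3 : ‖cexp (-G z) * f z‖ ≤ K * ‖f z‖ := by
        rw [norm_mul]; exact mul_le_mul_of_nonneg_right (hn z).1 hf0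
      have e4 := norm_sub_le (cexp (-G z) * f z) r
      rw [← e2] at e4
      have e5 : D * ε ≤ K * (D * ε) := le_mul_of_one_le_left (by positivity) hK1
      have e6 : 0 ≤ K * ε := by positivity
      have e7 : 0 ≤ K * (D * ‖f z‖) := by positivity
      linarith only [R4, e3, e4, e5, e6, e7]
  have hC : 0 < K * (1 + D) := by positivity
  refine ⟨K * (1 + D), hC, fun f v ε hε hf hv hs hb z => ?_⟩
  generalize K * (1 + D) = C at main hC
  have key : ∀ η, 0 < η → ‖f z‖ ≤ C * (‖v‖ + ε) + η ∧ ‖v‖ ≤ C * (‖f z‖ + ε) + η := fun η hη => by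
    have hp : 0 < η / C := by positivity
    have := main f v (ε + η / C) (by linarith) hf hv hs (fun w => (hb w).trans (by linarith)) z
    have e : C * (η / C) = η := by field_simp
    constructor <;> linarith only [this.1, this.2, e]
  exact ⟨le_of_forall_pos_le_add fun η hη => (key η hη).1,
    le_of_forall_pos_le_add fun η hη => (key η hη).2⟩

end Pool.Agent.MP_be5fd0_gt.T

namespace Pool.Agent.MP_be5fd0_gt.T

open Complex Filter Topology Set Metric MeasureTheory
open scoped ContDiff BoundedContinuousFunction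

namespace N01'

theorem param {F F' : ℝ → ℂ → ℝ} {K : Set ℂ} (hK : IsCompact K)
    (hF : Continuous fun p : ℝ × ℂ => F p.1 p.2) (hF' : Continuous fun p : ℝ × ℂ => F' p.1 p.2)
    (hd : ∀ t z, HasDerivAt (fun s => F s z) (F' t z) t) (t : ℝ) :
    HasDerivAt (fun s => ∫ z in K, F s z) (∫ z in K, F' t z) t := by
  obtain ⟨C, hC⟩ :=
    ((isCompact_closedBall t 1).prod hK).exists_bound_of_continuousOn hF'.continuousOn
  have hfin : IsFiniteMeasure (volume.restrict K) := ⟨by simpa only [MeasurableSet.univ, Measure.restrict_apply, univ_inter] using hK.measure_lt_top⟩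
  have c1 : ∀ s, Continuous (F s) := fun s => hF.comp (Continuous.prodMk_right s)
  have c2 : ∀ s, Continuous (F' s) := fun s => hF'.comp (Continuous.prodMk_right s)
  refine (hasDerivAt_integral_of_dominated_loc_of_deriv_le (μ := volume.restrict K)
    (bound := fun _ => C) (s := closedBall t 1) (closedBall_mem_nhds t one_pos)
    (Eventually.of_forall fun s => (c1 s).aestronglyMeasurable)
    ((c1 t).continuousOn.integrableOn_compact hK) (c2 t).aestronglyMeasurable ?_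
    (integrable_const C) (Eventually.of_forall fun z s _ => hd s z)).2
  filter_upwards [ae_restrict_mem hK.measurableSet] with z hz s hs
  exact hC (s, z) ⟨hs, hz⟩

theorem cfd {V : Type} [NormedAddCommGroup V] [NormedSpace ℝ V] {f : ℂ → V} (hf : ContDiff ℝ 1 f)
    (v : ℂ) : Continuous fun z => fderiv ℝ f z v :=
  (hf.continuous_fderiv one_ne_zero).clm_apply continuous_const

theorem shift {g : ℂ → ℝ} (hg : ContDiff ℝ 1 g) (v z : ℂ) (t : ℝ) :
    HasDerivAt (fun s : ℝ => g (z + s • v)) (fderiv ℝ g (z + t • v) v) t := by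
  have h1 : HasDerivAt (fun s : ℝ => z + s • v) v t := by
    simpa using ((hasDerivAt_id t).smul_const v).const_add z
  exact (hg.differentiable one_ne_zero _).hasFDerivAt.comp_hasDerivAt t h1

theorem fderiv_zero_of {f : ℂ → ℝ} {R : ℝ} (h : ∀ z, R ≤ ‖z‖ → f z = 0) {z : ℂ} (hz : R < ‖z‖) :
    fderiv ℝ f z = 0 := by
  have : f =ᶠ[𝓝 z] fun _ => 0 := by
    filter_upwards [(isOpen_lt continuous_const continuous_norm).mem_nhds hz] with w hw
    exact h w (le_of_lt hw)
  rw [this.fderiv_eq]; simp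

theorem jac_eq (g : ℂ → ℂ) (z : ℂ) : jac g z =
    (fderiv ℝ g z 1).re * (fderiv ℝ g z I).im - (fderiv ℝ g z I).re * (fderiv ℝ g z 1).im := by
  unfold jac
  rw [ContinuousLinearMap.det, ← LinearMap.det_toMatrix basisOneI, Matrix.det_fin_two]
  simp only [Fin.isValue, LinearMap.toMatrix_apply, coe_basisOneI, Nat.succ_eq_add_one, Nat.reduceAdd, Matrix.cons_val_zero, ContinuousLinearMap.coe_coe, coe_basisOneI_repr, Matrix.cons_val_one, Matrix.cons_val_fin_one]

theorem clm_split (L : ℂ →L[ℝ] ℝ) (w : ℂ) : L w = w.re * L 1 + w.im * L I := by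
  have h : w = w.re • (1 : ℂ) + w.im • I := by simp
  conv_lhs => rw [h]
  rw [map_add, map_smul, map_smul, smul_eq_mul, smul_eq_mul]

end N01'

open N01' in
theorem thN0 : StN0 := by
  intro f g hf hg hs
  obtain ⟨R, hR⟩ : ∃ R : ℝ, ∀ z, R ≤ ‖z‖ → f z = 0 := by
    obtain ⟨R, hR⟩ := hs.isCompact.isBounded.subset_ball (0 : ℂ)
    refine ⟨R, fun z hz => ?_⟩
    by_contra h
    have := hR (subset_tsupport f h)
    rw [mem_ball_zero_iff] at this
    linarith
  have hK : IsCompact (closedBall (0 : ℂ) (R + 1)) := isCompact_closedBall _ _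
  have hfc := hf.continuous
  have hgc := hg.continuous
  have out : ∀ z : ℂ, z ∉ closedBall (0 : ℂ) (R + 1) → R + 1 < ‖z‖ := fun z hz => by
    simpa only [mem_closedBall, dist_zero_right, not_le] using hz
  have ha := param (F := fun s z => fderiv ℝ f z 1 * g (z + s • I))
    (F' := fun s z => fderiv ℝ f z 1 * fderiv ℝ g (z + s • I) I) hK
    (((cfd hf 1).comp continuous_snd).mul (hgc.comp (by fun_prop)))
    (((cfd hf 1).comp continuous_snd).mul ((cfd hg I).comp (by fun_prop)))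
    (fun t z => (shift hg I z t).const_mul _) 0
  have hb := param (F := fun s z => -(f (z + s • (-I)) * fderiv ℝ g z 1))
    (F' := fun s z => -(fderiv ℝ f (z + s • (-I)) (-I) * fderiv ℝ g z 1)) hK
    ((hfc.comp (by fun_prop)).mul ((cfd hg 1).comp continuous_snd)).neg
    (((cfd hf (-I)).comp (by fun_prop)).mul ((cfd hg 1).comp continuous_snd)).neg
    (fun t z => ((shift hf (-I) z t).mul_const _).neg) 0
  have hab : (fun s : ℝ => ∫ z in closedBall (0 : ℂ) (R + 1), fderiv ℝ f z 1 * g (z + s • I))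
      =ᶠ[𝓝 0] fun s : ℝ =>
        ∫ z in closedBall (0 : ℂ) (R + 1), -(f (z + s • (-I)) * fderiv ℝ g z 1) := by
    filter_upwards [closedBall_mem_nhds (0 : ℝ) one_pos] with s hs1
    have hs2 : ‖s • (-I)‖ ≤ 1 := by
      rw [norm_smul]; simpa only [Real.norm_eq_abs, norm_neg, norm_I, mul_one, mem_closedBall, dist_zero_right] using hs1
    rw [setIntegral_eq_integral_of_forall_compl_eq_zero, setIntegral_eq_integral_of_forall_compl_eq_zero]
    · have hg' : ContDiff ℝ 1 fun z => g (z + s • I) := hg.comp (contDiff_id.add contDiff_const)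
      have hfs : HasCompactSupport fun z => fderiv ℝ f z 1 := hs.fderiv_apply ℝ 1
      have key := integral_mul_fderiv_eq_neg_fderiv_mul_of_integrable (μ := volume) (f := f)
        (g := fun z => g (z + s • I)) (v := (1 : ℂ))
        (((cfd hf 1).mul hg'.continuous).integrable_of_hasCompactSupport hfs.mul_right)
        ((hfc.mul (cfd hg' 1)).integrable_of_hasCompactSupport hs.mul_right)
        ((hfc.mul hg'.continuous).integrable_of_hasCompactSupport hs.mul_right)
        (fun x _ => hf.differentiable one_ne_zero x) (fun x _ => hg'.differentiable one_ne_zero x)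
      have e1 : ∀ z, fderiv ℝ (fun z => g (z + s • I)) z = fderiv ℝ g (z + s • I) := fun z =>
        fderiv_comp_add_right _
      simp only [e1] at key
      have e2 := integral_add_right_eq_self (μ := volume)
        (fun z => f (z + s • (-I)) * fderiv ℝ g z 1) (s • I)
      have e3 : ∀ z : ℂ, z + s • I + s • (-I) = z := fun z => by simp
      simp only [e3] at e2
      rw [integral_neg, ← e2, key, neg_neg]
    · intro z hz
      have h1 := out z hz
      have h2 : ‖z‖ ≤ ‖z + s • (-I)‖ + ‖s • (-I)‖ := by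
        simpa only [smul_neg, real_smul, norm_neg, Complex.norm_mul, norm_real, Real.norm_eq_abs, norm_I, mul_one, sub_neg_eq_add, neg_add_cancel_right] using norm_sub_le (z + s • (-I)) (s • (-I))
      rw [hR _ (by linarith)]; simp only [zero_mul, neg_zero]
    · intro z hz
      rw [fderiv_zero_of hR (by linarith [out z hz])]; simp
  have e := ha.unique (hb.congr_of_eventuallyEq hab)
  simp only [zero_smul, add_zero, map_neg, neg_mul, neg_neg] at e
  have i1 : IntegrableOn (fun z => fderiv ℝ f z 1 * fderiv ℝ g z I) (closedBall (0 : ℂ) (R + 1)) :=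
    ((cfd hf 1).mul (cfd hg I)).continuousOn.integrableOn_compact hK
  have i2 : IntegrableOn (fun z => fderiv ℝ f z I * fderiv ℝ g z 1) (closedBall (0 : ℂ) (R + 1)) :=
    ((cfd hf I).mul (cfd hg 1)).continuousOn.integrableOn_compact hK
  rw [← setIntegral_eq_integral_of_forall_compl_eq_zero (s := closedBall (0 : ℂ) (R + 1)),
    integral_sub i1 i2, e, sub_self]
  intro z hz
  rw [fderiv_zero_of hR (by linarith [out z hz])]; simp only [zero_apply, zero_mul, sub_self]

namespace N01'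

theorem fd1 {G : ℂ → ℂ} (hG : ContDiff ℝ 1 G) (L : ℂ →L[ℝ] ℝ) (z v : ℂ) :
    fderiv ℝ (fun z => L (G z)) z v = L (fderiv ℝ G z v) := by
  have h : HasFDerivAt (fun z => L (G z)) (L.comp (fderiv ℝ G z)) z :=
    L.hasFDerivAt.comp z (hG.differentiable one_ne_zero z).hasFDerivAt
  rw [h.fderiv]; rfl

theorem fd2 {G d : ℂ → ℂ} {φ : ℂ → ℝ} (hG : ContDiff ℝ 1 G) (hd : ContDiff ℝ 1 d)
    (hφ : ContDiff ℝ 1 φ) (L : ℂ →L[ℝ] ℝ) (z v : ℂ) :
    fderiv ℝ (fun z => φ (G z) * L (d z)) z v =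
      φ (G z) * L (fderiv ℝ d z v) + L (d z) * fderiv ℝ φ (G z) (fderiv ℝ G z v) := by
  have h1 : HasFDerivAt (fun z => L (d z)) (L.comp (fderiv ℝ d z)) z :=
    L.hasFDerivAt.comp z (hd.differentiable one_ne_zero z).hasFDerivAt
  have h2 : HasFDerivAt (fun z => φ (G z)) ((fderiv ℝ φ (G z)).comp (fderiv ℝ G z)) z :=
    (hφ.differentiable one_ne_zero _).hasFDerivAt.comp z
      (hG.differentiable one_ne_zero z).hasFDerivAt
  rw [(h2.fun_mul h1).fderiv]; rfl

theorem wedge (h : StN0) {f g : ℂ → ℝ} {ρ : ℝ} (hf : ContDiff ℝ 1 f) (hg : ContDiff ℝ 1 g)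
    (h0 : ∀ z, ρ ≤ ‖z‖ → f z = 0) :
    IntegrableOn (fun z => fderiv ℝ f z 1 * fderiv ℝ g z I - fderiv ℝ f z I * fderiv ℝ g z 1)
      (closedBall (0 : ℂ) ρ) ∧
    ∫ z in closedBall (0 : ℂ) ρ,
      (fderiv ℝ f z 1 * fderiv ℝ g z I - fderiv ℝ f z I * fderiv ℝ g z 1) = 0 := by
  have hK : IsCompact (closedBall (0 : ℂ) ρ) := isCompact_closedBall _ _
  refine ⟨(((cfd hf 1).mul (cfd hg I)).sub
    ((cfd hf I).mul (cfd hg 1))).continuousOn.integrableOn_compact hK, ?_⟩
  rw [setIntegral_eq_integral_of_forall_compl_eq_zero]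
  · refine h f g hf hg (HasCompactSupport.intro hK fun z hz => h0 z ?_)
    have : ρ < ‖z‖ := by simpa using hz
    exact this.le
  · intro z hz
    rw [fderiv_zero_of h0 (by simpa using hz)]; simp only [zero_apply, zero_mul, sub_self]

theorem zero (h : StN0) {G d : ℂ → ℂ} {φ : ℂ → ℝ} {ρ : ℝ} (hG : ContDiff ℝ 1 G)
    (hd : ContDiff ℝ 1 d) (hφ : ContDiff ℝ 1 φ) (h0 : ∀ z, ρ ≤ ‖z‖ → φ (G z) = 0) :
    ∫ z in closedBall (0 : ℂ) ρ,
      (fderiv ℝ φ (G z) (d z) * ((fderiv ℝ G z 1).re * (fderiv ℝ G z I).im -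
          (fderiv ℝ G z I).re * (fderiv ℝ G z 1).im) +
        φ (G z) * ((fderiv ℝ d z 1).re * (fderiv ℝ G z I).im +
          (fderiv ℝ G z 1).re * (fderiv ℝ d z I).im -
          ((fderiv ℝ d z I).re * (fderiv ℝ G z 1).im +
            (fderiv ℝ G z I).re * (fderiv ℝ d z 1).im))) = 0 := by
  have w1 := wedge h (f := fun z => φ (G z) * reCLM (d z)) (g := fun z => imCLM (G z)) (ρ := ρ)
    ((hφ.comp hG).mul (reCLM.contDiff.comp hd)) (imCLM.contDiff.comp hG)
    (fun z hz => by rw [h0 z hz, zero_mul])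
  have w2 := wedge h (f := fun z => φ (G z) * imCLM (d z)) (g := fun z => reCLM (G z)) (ρ := ρ)
    ((hφ.comp hG).mul (imCLM.contDiff.comp hd)) (reCLM.contDiff.comp hG)
    (fun z hz => by rw [h0 z hz, zero_mul])
  have e := integral_sub w1.1 w2.1
  rw [w1.2, w2.2, sub_self] at e
  rw [← e]
  refine integral_congr_ae (Eventually.of_forall fun z => ?_)
  simp only [fd1 hG, fd2 hG hd hφ]
  simp only [reCLM_apply, imCLM_apply]
  rw [clm_split (fderiv ℝ φ (G z)) (d z), clm_split (fderiv ℝ φ (G z)) (fderiv ℝ G z 1),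
    clm_split (fderiv ℝ φ (G z)) (fderiv ℝ G z I)]
  ring

theorem lin (a b t : ℝ) : HasDerivAt (fun s : ℝ => (1 - s) * a + s * b) (b - a) t := by
  have h := (((hasDerivAt_id' t).const_sub 1).mul_const a).fun_add
    ((hasDerivAt_id' t).mul_const b)
  exact h.congr_deriv (by ring)

end N01'

open N01' in
theorem thN1 (h : StN0) : StN1 := by
  intro g₀ g₁ φ ρ h₀ h₁ hφ _ hz
  have hK : IsCompact (closedBall (0 : ℂ) ρ) := isCompact_closedBall _ _
  have c0 := h₀.continuous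
  have c1 := h₁.continuous
  have cφ := hφ.continuous
  have cφ' := hφ.continuous_fderiv one_ne_zero
  have a1 := cfd h₀ 1
  have a2 := cfd h₀ I
  have b1 := cfd h₁ 1
  have b2 := cfd h₁ I
  have hG : ∀ t : ℝ, ContDiff ℝ 1 fun z => (1 - t) • g₀ z + t • g₁ z := fun t =>
    (h₀.const_smul _).add (h₁.const_smul _)
  have hd : ContDiff ℝ 1 fun z => g₁ z - g₀ z := h₁.sub h₀
  have eG : ∀ (t : ℝ) z v, fderiv ℝ (fun z => (1 - t) • g₀ z + t • g₁ z) z v =
      (1 - t) • fderiv ℝ g₀ z v + t • fderiv ℝ g₁ z v := fun t z v => by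
    have := ((h₀.differentiable one_ne_zero z).hasFDerivAt.fun_const_smul (1 - t)).fun_add
      ((h₁.differentiable one_ne_zero z).hasFDerivAt.fun_const_smul t)
    rw [this.fderiv]; rfl
  have ed : ∀ z v, fderiv ℝ (fun z => g₁ z - g₀ z) z v = fderiv ℝ g₁ z v - fderiv ℝ g₀ z v :=
    fun z v => by
      rw [fderiv_fun_sub (h₁.differentiable one_ne_zero z) (h₀.differentiable one_ne_zero z)]; rfl
  have cG : Continuous fun p : ℝ × ℂ => (1 - p.1) • g₀ p.2 + p.1 • g₁ p.2 := by fun_prop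
  have P := param (K := closedBall (0 : ℂ) ρ)
    (F := fun t z => φ ((1 - t) • g₀ z + t • g₁ z) *
      (((1 - t) * (fderiv ℝ g₀ z 1).re + t * (fderiv ℝ g₁ z 1).re) *
        ((1 - t) * (fderiv ℝ g₀ z I).im + t * (fderiv ℝ g₁ z I).im) -
      ((1 - t) * (fderiv ℝ g₀ z I).re + t * (fderiv ℝ g₁ z I).re) *
        ((1 - t) * (fderiv ℝ g₀ z 1).im + t * (fderiv ℝ g₁ z 1).im)))
    (F' := fun t z => fderiv ℝ φ ((1 - t) • g₀ z + t • g₁ z) (g₁ z - g₀ z) *
      (((1 - t) * (fderiv ℝ g₀ z 1).re + t * (fderiv ℝ g₁ z 1).re) *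
        ((1 - t) * (fderiv ℝ g₀ z I).im + t * (fderiv ℝ g₁ z I).im) -
      ((1 - t) * (fderiv ℝ g₀ z I).re + t * (fderiv ℝ g₁ z I).re) *
        ((1 - t) * (fderiv ℝ g₀ z 1).im + t * (fderiv ℝ g₁ z 1).im)) +
      φ ((1 - t) • g₀ z + t • g₁ z) *
      (((fderiv ℝ g₁ z 1).re - (fderiv ℝ g₀ z 1).re) *
        ((1 - t) * (fderiv ℝ g₀ z I).im + t * (fderiv ℝ g₁ z I).im) +
      ((1 - t) * (fderiv ℝ g₀ z 1).re + t * (fderiv ℝ g₁ z 1).re) *
        ((fderiv ℝ g₁ z I).im - (fderiv ℝ g₀ z I).im) -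
      (((fderiv ℝ g₁ z I).re - (fderiv ℝ g₀ z I).re) *
        ((1 - t) * (fderiv ℝ g₀ z 1).im + t * (fderiv ℝ g₁ z 1).im) +
      ((1 - t) * (fderiv ℝ g₀ z I).re + t * (fderiv ℝ g₁ z I).re) *
        ((fderiv ℝ g₁ z 1).im - (fderiv ℝ g₀ z 1).im)))) hK
    ((cφ.comp cG).mul (by fun_prop))
    ((((cφ'.comp cG).clm_apply (by fun_prop)).mul (by fun_prop)).add
      ((cφ.comp cG).mul (by fun_prop)))
    (fun t z => by
      have k1 : HasDerivAt (fun s : ℝ => (1 - s) • g₀ z + s • g₁ z) (g₁ z - g₀ z) t := by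
        have := (((hasDerivAt_id' t).const_sub 1).smul_const (g₀ z)).fun_add
          ((hasDerivAt_id' t).smul_const (g₁ z))
        exact this.congr_deriv (by module)
      have k2 : HasDerivAt (fun s : ℝ => φ ((1 - s) • g₀ z + s • g₁ z))
          (fderiv ℝ φ ((1 - t) • g₀ z + t • g₁ z) (g₁ z - g₀ z)) t :=
        (hφ.differentiable one_ne_zero _).hasFDerivAt.comp_hasDerivAt t k1
      exact k2.fun_mul (((lin _ _ t).fun_mul (lin _ _ t)).fun_sub
        ((lin _ _ t).fun_mul (lin _ _ t))))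
  obtain ⟨t, ht, e⟩ := exists_hasDerivAt_eq_slope _ _ (zero_lt_one' ℝ)
    (fun t _ => (P t).continuousAt.continuousWithinAt) (fun t _ => P t)
  have Z := zero h (hG t) hd hφ (fun z hz' => hz z hz' t (Ioo_subset_Icc_self ht))
  simp only [eG, ed, add_re, add_im, sub_re, sub_im, smul_re, smul_im, smul_eq_mul] at Z
  rw [Z] at e
  simp only [sub_self, sub_zero, zero_smul, one_smul, zero_add, add_zero, zero_mul, one_mul,
    div_one] at e
  have out : ∀ z : ℂ, z ∉ closedBall (0 : ℂ) ρ → ρ ≤ ‖z‖ := fun z hz => by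
    have : ρ < ‖z‖ := by simpa using hz
    exact this.le
  rw [setIntegral_eq_integral_of_forall_compl_eq_zero,
    setIntegral_eq_integral_of_forall_compl_eq_zero] at e
  · simp only [jac_eq]
    linarith
  · intro z hz'
    have := hz z (out z hz') 0 ⟨le_rfl, zero_le_one⟩
    simp only [sub_zero, one_smul, zero_smul, add_zero] at this
    rw [this, zero_mul]
  · intro z hz'
    have := hz z (out z hz') 1 ⟨zero_le_one, le_rfl⟩
    simp only [sub_self, one_smul, zero_smul, zero_add] at this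
    rw [this, zero_mul]

end Pool.Agent.MP_be5fd0_gt.T

namespace Pool.Agent.MP_be5fd0_gt.T

open Complex Filter Topology Set Metric MeasureTheory
open scoped ContDiff BoundedContinuousFunction

namespace N2'

theorem jac_eq (g : ℂ → ℂ) (z : ℂ) : jac g z =
    (fderiv ℝ g z 1).re * (fderiv ℝ g z I).im - (fderiv ℝ g z I).re * (fderiv ℝ g z 1).im := by
  unfold jac ContinuousLinearMap.det
  rw [← LinearMap.det_toMatrix Complex.basisOneI, Matrix.det_fin_two]
  simp only [Fin.isValue, LinearMap.toMatrix_apply, coe_basisOneI, Nat.succ_eq_add_one, Nat.reduceAdd, Matrix.cons_val_zero, ContinuousLinearMap.coe_coe, coe_basisOneI_repr, Matrix.cons_val_one, Matrix.cons_val_fin_one]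

theorem jac_del (g : ℂ → ℂ) (z : ℂ) : jac g z = ‖del g z‖ ^ 2 - ‖dbar g z‖ ^ 2 := by
  rw [jac_eq, Complex.sq_norm, Complex.sq_norm, del, dbar]
  generalize fderiv ℝ g z 1 = a
  generalize fderiv ℝ g z I = b
  simp only [one_div, smul_eq_mul, normSq_apply, mul_re, inv_re, re_ofNat, normSq_ofNat, div_self_mul_self', sub_re, I_re, zero_mul, I_im, one_mul, zero_sub, sub_neg_eq_add, inv_im, im_ofNat, neg_zero, zero_div, sub_im, mul_im, zero_add, sub_zero, add_zero, add_re, add_im]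
  ring

theorem norm_eq (g : ℂ → ℂ) (z : ℂ) : ‖fderiv ℝ g z‖ = ‖del g z‖ + ‖dbar g z‖ := by
  refine le_antisymm (norm_fderiv_le_del g z) ?_
  by_cases ha : del g z = 0
  · rw [ha, norm_zero, zero_add]; exact norm_dbar_le g z
  by_cases hb : dbar g z = 0
  · rw [hb, norm_zero, add_zero]; exact norm_del_le g z
  have ha' : ‖del g z‖ ≠ 0 := norm_ne_zero_iff.2 ha
  have hb' : ‖dbar g z‖ ≠ 0 := norm_ne_zero_iff.2 hb
  obtain ⟨ζ, hζ⟩ := IsAlgClosed.exists_pow_nat_eq
    (dbar g z * ‖del g z‖ / (del g z * ‖dbar g z‖)) (n := 2) two_pos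
  have h1 : ‖ζ‖ = 1 := by
    have : ‖ζ‖ ^ 2 = 1 := by
      rw [← norm_pow, hζ, norm_div, norm_mul, norm_mul, Complex.norm_real, Complex.norm_real,
        norm_norm, norm_norm, mul_comm, div_self (mul_ne_zero ha' hb')]
    exact (pow_eq_one_iff_of_nonneg (norm_nonneg _) two_ne_zero).1 this
  have h2 : ζ * starRingEnd ℂ ζ = 1 := by
    rw [Complex.mul_conj, Complex.normSq_eq_norm_sq, h1]; simp
  have h3 : ζ * fderiv ℝ g z ζ = ((‖del g z‖ / ‖dbar g z‖ + 1 : ℝ) : ℂ) * dbar g z := by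
    have hb2 : ((‖dbar g z‖ : ℝ) : ℂ) ≠ 0 := by exact_mod_cast hb'
    rw [fderiv_eq_del, smul_eq_mul, smul_eq_mul, mul_add, ← mul_assoc, ← mul_assoc, h2, ← sq, hζ]
    push_cast
    field_simp
  have h4 := congrArg norm h3
  rw [norm_mul, h1, one_mul, norm_mul, Complex.norm_real, Real.norm_of_nonneg (by positivity),
    add_mul, div_mul_cancel₀ _ hb', one_mul] at h4
  have h5 := (fderiv ℝ g z).le_opNorm ζ
  rw [h1, mul_one, h4] at h5
  exact h5

theorem decay (h1 : StT1) (h3 : StT3) {w : ℂ → ℂ} {ρ : ℝ} (hw : ContDiff ℝ 1 w)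
    (h0 : Tendsto w (cocompact ℂ) (𝓝 0)) (hρ : ∀ z, ρ ≤ ‖z‖ → dbar w z = 0) :
    ∃ K, 0 ≤ K ∧ ∀ z, (1 + ‖z‖) * ‖w z‖ ≤ K ∧ (1 + ‖z‖) ^ 2 * ‖fderiv ℝ w z‖ ≤ K := by
  have hr : 0 < max ρ 1 := lt_max_of_lt_right one_pos
  have hs : ∀ z, max ρ 1 ≤ ‖z‖ → dbar w z = 0 := fun z hz => hρ z ((le_max_left _ _).trans hz)
  have hc := (continuous_del hw).2
  obtain ⟨m, hm⟩ := (isCompact_closedBall (0 : ℂ) (max ρ 1)).exists_bound_of_continuousOn
    hc.continuousOn
  have hm0 : 0 ≤ m := (norm_nonneg _).trans (hm 0 (mem_closedBall_self hr.le))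
  have hm' : ∀ z, ‖dbar w z‖ ≤ m := by
    intro z
    rcases le_total (max ρ 1) ‖z‖ with h | h
    · rw [hs z h, norm_zero]; exact hm0
    · exact hm z (mem_closedBall_zero_iff.2 h)
  obtain ⟨c, hc0, hT⟩ := h1.1 _ hr
  obtain ⟨-, -, hb1, hb2, -⟩ := hT ℂ (dbar w) m hc hs hm'
  have e : ∀ z, cT (dbar w) z = w z := fun z => by
    rw [h3 ℂ w 0 _ hw h0 hs z, zero_add]
  simp only [e] at hb1 hb2
  have hC : 0 ≤ c * m := by positivity
  have hfc : Continuous fun z => (1 + ‖z‖) ^ 2 * ‖fderiv ℝ w z‖ :=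
    ((continuous_const.add continuous_norm).pow 2).mul (hw.continuous_fderiv one_ne_zero).norm
  obtain ⟨M, hM⟩ := (isCompact_closedBall (0 : ℂ) (2 * max ρ 1)).exists_bound_of_continuousOn
    hfc.continuousOn
  refine ⟨16 * (c * m) + |M|, by positivity, fun z => ⟨?_, ?_⟩⟩
  · have := hb1 z
    have := hb2 z
    have := abs_nonneg M
    linarith
  · rcases le_total ‖z‖ (2 * max ρ 1) with h | h
    · have := (le_abs_self _).trans ((hM z (mem_closedBall_zero_iff.2 h)).trans (le_abs_self M))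
      linarith
    · have h1z : 2 ≤ ‖z‖ := by have := le_max_right ρ 1; linarith
      have hz : 0 < ‖z‖ / 2 := by linarith
      have far : ∀ u ∈ closedBall z (‖z‖ / 2), ‖z‖ / 2 ≤ ‖u‖ := by
        intro u hu
        have a1 := mem_closedBall_iff_norm.1 hu
        have a2 := norm_sub_norm_le z u
        rw [norm_sub_rev] at a1
        linarith
      have hd : ∀ u ∈ closedBall z (‖z‖ / 2), HasDerivAt w (del w u) u := fun u hu =>
        differentiableAt_of_dbar (hw.differentiable one_ne_zero u)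
          (hs u (by have := far u hu; linarith))
      have hdc : DiffContOnCl ℂ w (ball z (‖z‖ / 2)) :=
        ⟨fun u hu => (hd u (ball_subset_closedBall hu)).differentiableAt.differentiableWithinAt,
          hw.continuous.continuousOn⟩
      have hb := Complex.norm_deriv_le_of_forall_mem_sphere_norm_le (C := c * m / (‖z‖ / 2)) hz hdc
        fun u hu => by
          rw [le_div_iff₀ hz]
          have a1 := mul_le_mul_of_nonneg_right (far u (sphere_subset_closedBall hu))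
            (norm_nonneg (w u))
          have := hb2 u
          linarith
      rw [(hd z (mem_closedBall_self hz.le)).deriv, div_div, le_div_iff₀ (by positivity)] at hb
      have a2 := norm_fderiv_le_del w z
      rw [hs z (by linarith only [hr, h]), norm_zero, add_zero] at a2
      have a3 : (1 + ‖z‖) ^ 2 ≤ 16 * (‖z‖ / 2 * (‖z‖ / 2)) := by nlinarith only [h1z]
      have a4 := mul_le_mul a3 a2 (norm_nonneg _) (by positivity)
      have := abs_nonneg M
      linarith only [hb, a4, this]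

theorem int3 (K : ℝ) : Integrable fun z : ℂ => K * (1 + ‖z‖) ^ (-(3 : ℝ)) :=
  (integrable_one_add_norm (by simp; norm_num)).const_mul K

theorem le3 {x a K : ℝ} (hx : 0 ≤ x) (h : (1 + x) ^ 3 * a ≤ K) : a ≤ K * (1 + x) ^ (-(3 : ℝ)) := by
  have h1 : 0 < 1 + x := by linarith
  rw [Real.rpow_neg h1.le, ← div_eq_mul_inv, le_div_iff₀ (by positivity),
    show (3 : ℝ) = ((3 : ℕ) : ℝ) by norm_num, Real.rpow_natCast, mul_comm]
  exact h

theorem int_jac (hN : StN0) {w : ℂ → ℂ} {K : ℝ} (hw : ContDiff ℝ 1 w) (hK0 : 0 ≤ K)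
    (hK : ∀ z, (1 + ‖z‖) * ‖w z‖ ≤ K ∧ (1 + ‖z‖) ^ 2 * ‖fderiv ℝ w z‖ ≤ K) :
    ∫ z, jac w z = 0 := by
  let χ : ContDiffBump (0 : ℂ) := ⟨1, 2, one_pos, one_lt_two⟩
  have hχ : ContDiff ℝ 1 χ := χ.contDiff
  obtain ⟨B, hB⟩ := hχ.lipschitzWith_of_hasCompactSupport χ.hasCompactSupport one_ne_zero
  obtain ⟨q, hq⟩ : ∃ q : ℕ → ℂ → ℝ, ∀ n, q n = fun z => χ ((n + 1 : ℝ)⁻¹ • z) := ⟨_, fun _ => rfl⟩
  have qc : ∀ n, ContDiff ℝ 1 (q n) := fun n => by
    rw [hq]; exact hχ.comp (contDiff_id.const_smul _)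
  have qs : ∀ n, HasCompactSupport (q n) := fun n => by
    rw [hq]
    exact χ.hasCompactSupport.comp_homeomorph
      (Homeomorph.smulOfNeZero (n + 1 : ℝ)⁻¹ (inv_ne_zero (by positivity)))
  have q1 : ∀ n z, |q n z| ≤ 1 := fun n z => by
    rw [hq, abs_of_nonneg χ.nonneg]; exact χ.le_one
  have qB : ∀ n z, ‖fderiv ℝ (q n) z‖ ≤ B := fun n z => by
    refine norm_fderiv_le_of_lipschitz ℝ (LipschitzWith.of_dist_le_mul fun x y => ?_)
    rw [hq]
    refine (hB.dist_le_mul _ _).trans (mul_le_mul_of_nonneg_left ?_ B.2)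
    rw [dist_smul₀, Real.norm_of_nonneg (by positivity)]
    exact mul_le_of_le_one_left dist_nonneg (inv_le_one_of_one_le₀ (by simp))
  have qe : ∀ z, ∀ᶠ n in atTop, q n =ᶠ[𝓝 z] fun _ => 1 := by
    intro z
    obtain ⟨N, hN⟩ := exists_nat_gt ‖z‖
    filter_upwards [eventually_ge_atTop N] with n hn
    have hn' : (N : ℝ) ≤ n := by exact_mod_cast hn
    filter_upwards [isOpen_ball.mem_nhds (mem_ball_zero_iff.2 hN)] with u hu
    rw [hq]
    refine χ.one_of_mem_closedBall (mem_closedBall_zero_iff.2 ?_)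
    have := mem_ball_zero_iff.1 hu
    rw [norm_smul, Real.norm_of_nonneg (by positivity), inv_mul_le_iff₀ (by positivity)]
    show ‖u‖ ≤ (n + 1) * 1
    linarith only [hn', this]
  have wd := hw.differentiable one_ne_zero
  have cre : ContDiff ℝ 1 fun z => (w z).re := reCLM.contDiff.comp hw
  have cim : ContDiff ℝ 1 fun z => (w z).im := imCLM.contDiff.comp hw
  have dre : ∀ z v, fderiv ℝ (fun z => (w z).re) z v = (fderiv ℝ w z v).re := fun z v => by
    rw [show fderiv ℝ (fun z => (w z).re) z = _ from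
      (reCLM.hasFDerivAt.comp z (wd z).hasFDerivAt).fderiv]; rfl
  have dim : ∀ z v, fderiv ℝ (fun z => (w z).im) z v = (fderiv ℝ w z v).im := fun z v => by
    rw [show fderiv ℝ (fun z => (w z).im) z = _ from
      (imCLM.hasFDerivAt.comp z (wd z).hasFDerivAt).fderiv]; rfl
  obtain ⟨F, hF⟩ : ∃ F : ℕ → ℂ → ℝ, ∀ n, F n = fun z =>
      fderiv ℝ (fun z => q n z * (w z).re) z 1 * fderiv ℝ (fun z => (w z).im) z I -
        fderiv ℝ (fun z => q n z * (w z).re) z I * fderiv ℝ (fun z => (w z).im) z 1 :=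
    ⟨_, fun _ => rfl⟩
  have F0 : ∀ n, ∫ z, F n z = 0 := fun n => by
    rw [hF]; exact hN _ _ ((qc n).mul cre) cim (qs n).mul_right
  have Fe : ∀ n z, F n z = q n z * jac w z + (w z).re *
      (fderiv ℝ (q n) z 1 * (fderiv ℝ w z I).im - fderiv ℝ (q n) z I * (fderiv ℝ w z 1).im) := by
    intro n z
    rw [hF, jac_eq]
    simp only [fderiv_fun_mul ((qc n).differentiable one_ne_zero z)
      (cre.differentiable one_ne_zero z), dre, dim, add_apply,
      smul_apply, smul_eq_mul]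
    ring
  have Fc : ∀ n, Continuous (F n) := fun n => by
    have a1 := ((qc n).mul cre).continuous_fderiv one_ne_zero
    have a2 := cim.continuous_fderiv one_ne_zero
    rw [hF]
    exact ((a1.clm_apply continuous_const).mul (a2.clm_apply continuous_const)).sub
      ((a1.clm_apply continuous_const).mul (a2.clm_apply continuous_const))
  have lim := tendsto_integral_of_dominated_convergence (F := F) (f := jac w)
    (fun z => (K * K + K * (2 * B * K)) * (1 + ‖z‖) ^ (-(3 : ℝ)))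
    (fun n => (Fc n).aestronglyMeasurable) (int3 _) (fun n => Eventually.of_forall fun z => ?_)
    (Eventually.of_forall fun z => ?_)
  · simp only [F0] at lim
    exact (tendsto_nhds_unique tendsto_const_nhds lim).symm
  · refine le3 (norm_nonneg z) ?_
    obtain ⟨k1, k2⟩ := hK z
    have hx : 1 ≤ 1 + ‖z‖ := by simp
    have hd0 := norm_nonneg (fderiv ℝ w z)
    have j1 : |jac w z| ≤ ‖fderiv ℝ w z‖ ^ 2 := by
      rw [jac_del, norm_eq, abs_le]
      have := mul_nonneg (norm_nonneg (del w z)) (norm_nonneg (dbar w z))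
      constructor <;> linarith only [sq_nonneg ‖del w z‖, sq_nonneg ‖dbar w z‖, this]
    have j2 : ∀ u v : ℂ, ‖u‖ = 1 → ‖v‖ = 1 →
        |fderiv ℝ (q n) z u * (fderiv ℝ w z v).im| ≤ B * ‖fderiv ℝ w z‖ := by
      intro u v hu hv
      rw [abs_mul]
      refine mul_le_mul ?_ ?_ (abs_nonneg _) B.2
      · have := (fderiv ℝ (q n) z).le_opNorm u
        rw [hu, mul_one] at this
        exact this.trans (qB n z)
      · have := (fderiv ℝ w z).le_opNorm v
        rw [hv, mul_one] at this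
        exact (abs_im_le_norm _).trans this
    have j3 : |fderiv ℝ (q n) z 1 * (fderiv ℝ w z I).im - fderiv ℝ (q n) z I * (fderiv ℝ w z 1).im|
        ≤ 2 * B * ‖fderiv ℝ w z‖ := by
      have := j2 1 I norm_one norm_I
      have := j2 I 1 norm_I norm_one
      refine (abs_sub _ _).trans ?_
      linarith
    have j4 : ‖F n z‖ ≤ ‖fderiv ℝ w z‖ ^ 2 + ‖w z‖ * (2 * B * ‖fderiv ℝ w z‖) := by
      rw [Fe, Real.norm_eq_abs]
      refine (abs_add_le _ _).trans (add_le_add ?_ ?_)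
      · rw [abs_mul]
        exact (mul_le_of_le_one_left (abs_nonneg _) (q1 n z)).trans j1
      · rw [abs_mul]
        exact mul_le_mul (abs_re_le_norm _) j3 (abs_nonneg _) (norm_nonneg _)
    have k3 : (1 + ‖z‖) * ‖fderiv ℝ w z‖ ≤ K := by
      refine le_trans (mul_le_mul_of_nonneg_right ?_ hd0) k2
      nlinarith only [hx]
    have k4 := mul_le_mul k3 k2 (by positivity) hK0
    have k5 := mul_le_mul k1 (mul_le_mul_of_nonneg_left k2 (by positivity : (0 : ℝ) ≤ 2 * B))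
      (by positivity) hK0
    have k6 := mul_le_mul_of_nonneg_left j4 (by positivity : 0 ≤ (1 + ‖z‖) ^ 3)
    refine k6.trans (le_trans (le_of_eq ?_) (add_le_add k4 k5))
    ring
  · refine tendsto_const_nhds.congr' ?_
    filter_upwards [qe z] with n hn
    rw [Fe, hn.fderiv_eq, hn.eq_of_nhds]
    simp only [one_mul, fderiv_fun_const, Pi.zero_apply, zero_apply, zero_mul, sub_self, mul_zero, add_zero]

end N2'

theorem thN2 (h1 : StT1) (h3 : StT3) (hN : StN0) : StN2 := by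
  refine ⟨fun g z => ⟨N2'.jac_del g z, N2'.norm_eq g z⟩, fun w ρ hw h0 hρ => ?_⟩
  obtain ⟨K, hK0, hK⟩ := N2'.decay h1 h3 hw h0 hρ
  have key : ∀ f : ℂ → ℂ, Continuous f → (∀ z, ‖f z‖ ≤ ‖fderiv ℝ w z‖) →
      Integrable fun z => ‖f z‖ ^ 2 := by
    intro f hf hb
    refine (N2'.int3 (K * K)).mono' (hf.norm.pow 2).aestronglyMeasurable
      (Eventually.of_forall fun z => N2'.le3 (norm_nonneg z) ?_)
    have k2 := (mul_le_mul_of_nonneg_left (hb z) (by positivity)).trans (hK z).2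
    have hx : 1 ≤ 1 + ‖z‖ := by simp
    have k3 : (1 + ‖z‖) * ‖f z‖ ≤ K := by
      refine le_trans (mul_le_mul_of_nonneg_right ?_ (norm_nonneg _)) k2
      nlinarith only [hx]
    refine le_trans (le_of_eq ?_) (mul_le_mul k3 k2 (by positivity) hK0)
    rw [Real.norm_of_nonneg (by positivity)]
    ring
  have i1 := key _ (continuous_del hw).1 (norm_del_le w)
  have i2 := key _ (continuous_del hw).2 (norm_dbar_le w)
  refine ⟨i1, i2, sub_eq_zero.1 ?_⟩
  rw [← integral_sub i1 i2, ← N2'.int_jac hN hw hK0 hK]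
  simp only [N2'.jac_del]

end Pool.Agent.MP_be5fd0_gt.T
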