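import Pool.Agent.MP_be5fd0_gt.H27.Defs

attribute [-instance] NonarchimedeanAddGroup.toIsTopologicalAddGroup
  Action.FintypeCat.instMulActionObjFiniteOf ProperSMul.toContinuousSMul
  LieAdmissibleAlgebra.toModule RightPreLieAlgebra.toModule LeftPreLieAlgebra.toModule
  Finite.instDiscreteTopology TotallySeparatedSpace.t2Space IdemSemiring.toCanonicallyOrderedAdd
  IsTopologicalTorsor.toContinuousSMul AddQuantale.instAddLeftMono
  ContinuousLinearMap.toSeminormedRing
  IsValuativeTopology.instValuedValueGroupWithZeroOfIsUniformAddGroup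
  IsValuativeTopology.instIsTopologicalAddGroup RKHS.instFunLike
  IsTopologicalSemiring.toContinuousAdd NonarchimedeanRing.toIsTopologicalRing
  ESeminormedAddCommMonoid.toAddCommMonoid Group.IsPerfect.subsingleton_of_isMulCommutative
  AddQuantale.instAddRightMono littleWedderburn NonUnitalRing.toNonUnitalNonAssocRing instCoeTCOfCoe
  NumberField.to_charZero CoalgHomClass.toSemilinearMapClass SMulWithZero.toSMulZeroClass
  NonUnitalNonAssocSemiring.toMulZeroClass MulSemiringAction.toDistribMulAction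
  LinearOrderedCommMonoidWithZero.toPosMulStrictMono SemilinearIsometryClass.toSemilinearMapClass
  CompactSpace.sigmaCompact DiscreteUniformity.instDiscreteTopology
  Topology.IsLowerSet.toAlexandrovDiscrete Quantale.instMulRightMono
  NonUnitalNonAssocSemiring.toAddCommMonoid MonTypeEquivalenceMon.monMonoid
  CStarAlgebra.instOrderClosedTopology IdemSemiring.toMulLeftMono Valued.isTopologicalDivisionRing
  AddCommGroupWithOne.toAddGroupWithOne NonUnitalAlgSemiHomClass.toDistribMulActionSemiHomClass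
  RingHomClass.toLinearMapClassNNRat MulZeroOneClass.toMulZeroClass
  NonUnitalNonAssocRing.toAddCommGroup RingHomClass.toLinearMapClassRat IdemSemiring.toSemiring
  IsIsometricSMul.to_continuousConstSMul EuclideanDomain.toCommRing Quantale.instMulLeftMono
  GrpTypeEquivalenceGrp.grpGroup SeminormedCommRing.toCommRing
  LieAdmissibleRing.toNonUnitalNonAssocRing LinearOrderedCommMonoidWithZero.toIsBotZeroClass
  NonAssocSemiring.toNonUnitalNonAssocSemiring Unique.instSubsingleton instIndiscreteTopology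
  instIsModuleTopology CategoryTheory.CountableCategory.countableObj
  LieAdmissibleAlgebra.toSMulCommClass Topology.IsScott.instClosedIicTopologyOfUnivSet
  Action.instMulAction BooleanRing.toCommRing instSMulZeroClass RightPreLieAlgebra.toSMulCommClass
  NonUnitalNormedCommRing.toNonUnitalCommRing BooleanRing.toRing Valued.toUniformSpace
  IsOrderedCancelMonoid.toIsOrderedMonoid Bialgebra.toAlgebra
  MeasureTheory.instInnerRegularOfIsCompletelyPseudoMetrizableSpace instCoeTOfCoeDep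
  LeftPreLieAlgebra.toSMulCommClass NonUnitalSemiring.toNonUnitalNonAssocSemiring
  AddCommMonoidWithOne.toAddCommMonoid NormedDivisionRing.toDivisionRing

/-! Plane maps and coefficient fields. -/

/-! Plane maps: bijectivity, uniqueness of a zero, degree zero. -/

namespace Pool.Agent.MP_be5fd0_gt.T

open Complex Filter Topology Set Metric MeasureTheory
open scoped ContDiff BoundedContinuousFunction

namespace Q1'

theorem cont_jac {g : ℂ → ℂ} (hg : ContDiff ℝ 1 g) : Continuous (jac g) :=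
  ContinuousLinearMap.continuous_det.comp (hg.continuous_fderiv one_ne_zero)

theorem jac_id (z : ℂ) : jac (fun w => w) z = 1 := by
  simp [jac, ContinuousLinearMap.det]

theorem integrable_of {g : ℂ → ℂ} (hg : ContDiff ℝ 1 g) {φ : ℂ → ℝ} (hφ : Continuous φ) {ρ : ℝ}
    (h : ∀ z, ρ ≤ ‖z‖ → φ (g z) = 0) : Integrable fun z => φ (g z) * jac g z := by
  refine Continuous.integrable_of_hasCompactSupport
    ((hφ.comp hg.continuous).mul (cont_jac hg)) ?_
  refine HasCompactSupport.intro (isCompact_closedBall (0 : ℂ) ρ) fun z hz => ?_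
  rw [mem_closedBall_zero_iff, not_le] at hz
  rw [h z hz.le, zero_mul]

/-- two points at which `g` is open cannot have the same image -/
theorem two (hN : StN1) {g : ℂ → ℂ} {C r : ℝ} (hg : ContDiff ℝ 1 g) (hC : ∀ z, ‖g z - z‖ ≤ C)
    {y z₁ z₂ : ℂ} (hr : 0 < r) (hj : ∀ z, ‖g z - y‖ < r → 0 ≤ jac g z)
    (h₁ : 𝓝 y ≤ map g (𝓝 z₁)) (h₂ : 𝓝 y ≤ map g (𝓝 z₂)) : z₁ = z₂ := by
  by_contra hne
  have hδ : 0 < dist z₁ z₂ / 2 := half_pos (dist_pos.2 hne)
  have m₁ : g '' ball z₁ (dist z₁ z₂ / 2) ∈ 𝓝 y := h₁ (image_mem_map (ball_mem_nhds _ hδ))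
  have m₂ : g '' ball z₂ (dist z₁ z₂ / 2) ∈ 𝓝 y := h₂ (image_mem_map (ball_mem_nhds _ hδ))
  obtain ⟨d, hd, hsub⟩ := Metric.mem_nhds_iff.1 (inter_mem (inter_mem m₁ m₂) (ball_mem_nhds y hr))
  let φ : ContDiffBump y := ⟨d / 2, 3 * d / 5, by positivity, by linarith only [hd]⟩
  have hφ0 : ∀ w, d ≤ ‖w - y‖ → φ w = 0 := fun w hw =>
    φ.zero_of_le_dist (by rw [dist_eq_norm]; change 3 * d / 5 ≤ _; linarith only [hd, hw])
  have hfar : ∀ z, ‖y‖ + d + C ≤ ‖z‖ → ∀ t ∈ Icc (0 : ℝ) 1,
      φ ((1 - t) • g z + t • z) = 0 := by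
    intro z hz t ht
    refine hφ0 _ ?_
    have e : z = ((1 - t) • g z + t • z - y) + y - (1 - t) • (g z - z) := by module
    have h1 : ‖(1 - t) • (g z - z)‖ ≤ C := by
      rw [norm_smul, Real.norm_of_nonneg (by linarith only [ht.2])]
      have := hC z
      nlinarith only [norm_nonneg (g z - z), ht.1, this]
    have h2 := norm_sub_le (((1 - t) • g z + t • z - y) + y) ((1 - t) • (g z - z))
    have h3 := norm_add_le ((1 - t) • g z + t • z - y) y
    rw [← e] at h2
    linarith only [hz, h1, h2, h3]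
  have key := hN g (fun z => z) φ (‖y‖ + d + C) hg contDiff_id φ.contDiff φ.hasCompactSupport hfar
  simp only [jac_id, mul_one] at key
  have hint : Integrable fun z => φ (g z) * jac g z :=
    integrable_of hg φ.continuous fun z hz => by simpa using hfar z hz 0 ⟨le_rfl, zero_le_one⟩
  have hnn : ∀ z, 0 ≤ φ (g z) * jac g z := by
    intro z
    by_cases h : ‖g z - y‖ < d
    · refine mul_nonneg φ.nonneg (hj z ?_)
      have := (hsub (mem_ball_iff_norm.2 h)).2
      rwa [mem_ball_iff_norm] at this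
    · rw [hφ0 _ (not_lt.1 h), zero_mul]
  have hup : ∫⁻ z, ENNReal.ofReal (φ (g z) * jac g z) ≤ volume (closedBall y (3 * d / 5)) := by
    rw [← ofReal_integral_eq_lintegral_ofReal hint (Eventually.of_forall hnn), key]
    exact ENNReal.ofReal_le_of_le_toReal (φ.integral_le_measure_closedBall volume)
  have hlow : ∀ z₀ : ℂ, ball y d ⊆ g '' ball z₀ (dist z₁ z₂ / 2) →
      volume (ball y (d / 2)) ≤ ∫⁻ z in ball z₀ (dist z₁ z₂ / 2),
        ENNReal.ofReal (φ (g z) * jac g z) := by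
    intro z₀ h0
    have hS : MeasurableSet (ball z₀ (dist z₁ z₂ / 2) ∩ g ⁻¹' ball y (d / 2)) :=
      (isOpen_ball.inter (isOpen_ball.preimage hg.continuous)).measurableSet
    calc volume (ball y (d / 2))
        ≤ volume (g '' (ball z₀ (dist z₁ z₂ / 2) ∩ g ⁻¹' ball y (d / 2))) := by
          refine measure_mono fun w hw => ?_
          obtain ⟨z, hz, rfl⟩ := h0 (ball_subset_ball (by linarith only [hd]) hw)
          exact ⟨z, ⟨hz, hw⟩, rfl⟩
      _ ≤ ∫⁻ z in ball z₀ (dist z₁ z₂ / 2) ∩ g ⁻¹' ball y (d / 2),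
          ENNReal.ofReal |(fderiv ℝ g z).det| :=
          addHaar_image_le_lintegral_abs_det_fderiv volume hS fun z _ =>
            (hg.differentiable one_ne_zero z).hasFDerivAt.hasFDerivWithinAt
      _ = ∫⁻ z in ball z₀ (dist z₁ z₂ / 2) ∩ g ⁻¹' ball y (d / 2),
          ENNReal.ofReal (φ (g z) * jac g z) := by
          refine setLIntegral_congr_fun hS fun z hz => ?_
          have h1 : φ (g z) = 1 := φ.one_of_mem_closedBall (ball_subset_closedBall hz.2)
          have h2 := hnn z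
          rw [h1, one_mul] at h2
          simp only [h1, one_mul]
          exact congrArg _ (abs_of_nonneg h2)
      _ ≤ _ := lintegral_mono_set inter_subset_left
  have hdisj : Disjoint (ball z₁ (dist z₁ z₂ / 2)) (ball z₂ (dist z₁ z₂ / 2)) :=
    ball_disjoint_ball (by linarith only [])
  have hsum := add_le_add (hlow z₁ fun w hw => (hsub hw).1.1) (hlow z₂ fun w hw => (hsub hw).1.2)
  rw [← lintegral_union measurableSet_ball hdisj] at hsum
  have fin := (hsum.trans (setLIntegral_le_lintegral _ _)).trans hup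
  rw [Complex.volume_ball, Complex.volume_closedBall, ← ENNReal.ofReal_coe_nnreal,
    ← ENNReal.ofReal_pow (by positivity), ← ENNReal.ofReal_pow (by positivity),
    ← ENNReal.ofReal_mul (by positivity), ← ENNReal.ofReal_mul (by positivity),
    ← ENNReal.ofReal_add (by positivity) (by positivity),
    ENNReal.ofReal_le_ofReal_iff (by positivity), NNReal.coe_real_pi] at fin
  have : 0 < d ^ 2 * Real.pi := by positivity
  linarith only [fin, this]

theorem tendsto_of_bdd {g : ℂ → ℂ} {C : ℝ} (hC : ∀ z, ‖g z - z‖ ≤ C) :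
    Tendsto g (cocompact ℂ) (cocompact ℂ) := by
  rw [← Metric.cobounded_eq_cocompact, ← tendsto_norm_atTop_iff_cobounded]
  refine tendsto_atTop_mono (fun z => ?_)
    (tendsto_atTop_add_const_right _ (-C) tendsto_norm_cobounded_atTop)
  have h := norm_sub_le (g z) (g z - z)
  rw [sub_sub_cancel] at h
  linarith [hC z]

theorem bij (hN : StN1) (g : ℂ → ℂ) (C : ℝ) (hg : ContDiff ℝ 1 g) (hC : ∀ z, ‖g z - z‖ ≤ C)
    (hj : ∀ z, 0 < jac g z) : Function.Bijective g := by
  have hm : ∀ z, 𝓝 (g z) ≤ map g (𝓝 z) := fun z => by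
    have h : HasStrictFDerivAt g
        ((fderiv ℝ g z).toContinuousLinearEquivOfDetNeZero (hj z).ne' : ℂ →L[ℝ] ℂ) z :=
      hg.contDiffAt.hasStrictFDerivAt one_ne_zero
    exact h.map_nhds_eq_of_equiv.ge
  refine ⟨fun z₁ z₂ h => two hN hg hC one_pos (fun z _ => (hj z).le) (hm z₁) (h ▸ hm z₂), ?_⟩
  have ho : IsOpen (range g) := (isOpenMap_iff_nhds_le.2 hm).isOpen_range
  have hc : IsClosed (range g) :=
    (isProperMap_iff_tendsto_cocompact.2 ⟨hg.continuous, tendsto_of_bdd hC⟩).isClosedMap.isClosed_range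
  exact range_eq_univ.1 (IsClopen.eq_univ ⟨hc, ho⟩ (range_nonempty g))

theorem jac_nonneg {g : ℂ → ℂ} {z : ℂ} (h : DifferentiableAt ℂ g z) : 0 ≤ jac g z := by
  have h1 : fderiv ℝ g z = (ContinuousLinearMap.toSpanSingleton ℂ (deriv g z)).restrictScalars ℝ :=
    (h.hasDerivAt.hasFDerivAt.restrictScalars ℝ).fderiv
  rw [jac, h1, ContinuousLinearMap.det, ← LinearMap.det_toMatrix Complex.basisOneI,
    Matrix.det_fin_two]
  simp only [ContinuousLinearMap.coe_restrictScalars, ContinuousLinearMap.toLinearMap_toSpanSingleton, Fin.isValue, LinearMap.toMatrix_apply, coe_basisOneI, Nat.succ_eq_add_one, Nat.reduceAdd, Matrix.cons_val_zero, LinearMap.coe_restrictScalars, LinearMap.toSpanSingleton_apply, smul_eq_mul, one_mul, coe_basisOneI_repr, Matrix.cons_val_one, Matrix.cons_val_fin_one, mul_re, I_re, zero_mul, I_im, zero_sub, mul_im, zero_add, neg_mul, sub_neg_eq_add, ge_iff_le]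
  linarith only [mul_self_nonneg (deriv g z).re, mul_self_nonneg (deriv g z).im]

theorem open_at {g : ℂ → ℂ} {C : ℝ} (hg : Continuous g) (hC : ∀ z, ‖g z - z‖ ≤ C)
    (hd : ∀ z, ‖g z‖ < 1 → DifferentiableAt ℂ g z) {z₀ : ℂ} (h0 : g z₀ = 0) :
    𝓝 0 ≤ map g (𝓝 z₀) := by
  have hU : IsOpen {z | ‖g z‖ < 1} := isOpen_lt hg.norm continuous_const
  have han : ∀ z, g z = 0 → AnalyticAt ℂ g z := fun z hz =>
    DifferentiableOn.analyticAt (s := {z | ‖g z‖ < 1})
      (fun w hw => (hd w hw).differentiableWithinAt) (hU.mem_nhds (by simp [hz]))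
  rcases (han z₀ h0).eventually_constant_or_nhds_le_map_nhds with h | h
  · exfalso
    rw [h0] at h
    have ho : IsOpen {z | ∀ᶠ w in 𝓝 z, g w = 0} := isOpen_setOfPred_eventually_nhds
    have hc : IsClosed {z | ∀ᶠ w in 𝓝 z, g w = 0} := by
      refine isClosed_of_closure_subset fun z hz => ?_
      have hz0 : g z = 0 :=
        closure_minimal (fun w (hw : ∀ᶠ v in 𝓝 w, g v = 0) => hw.self_of_nhds)
          (isClosed_eq hg continuous_const) hz
      rcases (han z hz0).eventually_eq_zero_or_eventually_ne_zero with h1 | h1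
      · exact h1
      · rw [eventually_nhdsWithin_iff] at h1
        obtain ⟨w, hw1, hw2⟩ := (mem_closure_iff_frequently.1 hz).and_eventually
          h1.eventually_nhds |>.exists
        have h3 : ∀ᶠ v in 𝓝 w, v = z := by
          filter_upwards [hw1, hw2] with v p q
          by_contra hv
          exact q hv p
        have h4 : w = z := h3.self_of_nhds
        exact h4 ▸ hw1
    have hall := IsClopen.eq_univ ⟨hc, ho⟩ ⟨z₀, h⟩
    have h1 : ∀ z, g z = 0 := fun z =>
      (show ∀ᶠ w in 𝓝 z, g w = 0 from (eq_univ_iff_forall.1 hall z)).self_of_nhds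
    have h2 := hC ((|C| + 1 : ℝ) : ℂ)
    rw [h1, zero_sub, norm_neg, Complex.norm_real, Real.norm_of_nonneg (by positivity)] at h2
    linarith [le_abs_self C]
  · rwa [h0] at h

theorem const (hN : StN1) (g : ℂ → ℂ) (y : ℂ) (K : ℝ) (hg : ContDiff ℝ 1 g)
    (hy : Tendsto g (cocompact ℂ) (𝓝 y)) (hj : ∀ z, 0 ≤ jac g z) (hq : ∀ z, QC K g z) (z : ℂ) :
    g z = y := by
  have hz : ∀ z₀, g z₀ ≠ y → fderiv ℝ g z₀ = 0 := by
    intro z₀ h0
    have hd : 0 < dist (g z₀) y := dist_pos.2 h0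
    let φ : ContDiffBump (g z₀) :=
      ⟨dist (g z₀) y / 4, dist (g z₀) y / 2, by positivity, by linarith⟩
    have hφ0 : ∀ w, w ∈ ball y (dist (g z₀) y / 2) → φ w = 0 := fun w hw => by
      refine φ.zero_of_le_dist ?_
      change dist (g z₀) y / 2 ≤ _
      have := dist_triangle_left (g z₀) y w
      rw [mem_ball] at hw
      linarith only [hw, this]
    have hev := hy.eventually (ball_mem_nhds y (half_pos hd))
    rw [← Metric.cobounded_eq_cocompact, ← comap_norm_atTop, eventually_comap,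
      eventually_atTop] at hev
    obtain ⟨ρ, hρ⟩ := hev
    have hfar : ∀ z, ρ ≤ ‖z‖ → ∀ t ∈ Icc (0 : ℝ) 1, φ ((1 - t) • g z + t • y) = 0 :=
      fun z hz t ht => hφ0 _ (convex_ball y _ (hρ _ hz z rfl) (mem_ball_self (half_pos hd))
        (by linarith [ht.2]) ht.1 (by ring))
    have key := hN g (fun _ => y) φ ρ hg contDiff_const φ.contDiff φ.hasCompactSupport hfar
    simp only [hφ0 y (mem_ball_self (half_pos hd)), zero_mul, integral_zero] at key
    have hint : Integrable fun z => φ (g z) * jac g z :=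
      integrable_of hg φ.continuous fun z hz => by simpa using hfar z hz 0 ⟨le_rfl, zero_le_one⟩
    have hae := (integral_eq_zero_iff_of_nonneg (fun z => mul_nonneg φ.nonneg (hj z)) hint).1 key
    have hall := (Continuous.ae_eq_iff_eq volume
      ((φ.continuous.comp hg.continuous).mul (cont_jac hg)) continuous_const).1 hae
    have h1 : φ (g z₀) * jac g z₀ = 0 := congrFun hall z₀
    rw [φ.one_of_mem_closedBall (mem_closedBall_self φ.rIn_pos.le), one_mul] at h1
    have h2 := hq z₀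
    rw [QC, h1, mul_zero] at h2
    exact norm_eq_zero.1 (pow_eq_zero_iff two_ne_zero |>.1 (le_antisymm h2 (by positivity)))
  have hk : ∀ w, HasFDerivAt (fun w => (g w - y) * (g w - y)) (0 : ℂ →L[ℝ] ℂ) w := by
    intro w
    have h1 := (hg.differentiable one_ne_zero w).hasFDerivAt.sub_const y
    refine (h1.mul h1).congr_fderiv ?_
    by_cases h : g w = y
    · simp [h]
    · simp [hz w h]
  have hc := is_const_of_fderiv_eq_zero (fun w => (hk w).differentiableAt) fun w => (hk w).fderiv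
  have hl : Tendsto (fun w => (g w - y) * (g w - y)) (cocompact ℂ) (𝓝 ((y - y) * (y - y))) :=
    (hy.sub_const y).mul (hy.sub_const y)
  have h0 := tendsto_nhds_unique (hl.congr fun w => hc w z) tendsto_const_nhds
  rw [sub_self, mul_zero] at h0
  exact sub_eq_zero.1 (mul_self_eq_zero.1 h0.symm)

end Q1'

theorem thQ1 (hN : StN1) : StQ1 :=
  ⟨Q1'.bij hN, fun _ _ hg hC hd _ _ h₁ h₂ => Q1'.two hN hg hC one_pos
      (fun z hz => Q1'.jac_nonneg (hd z (by simpa using hz)))
      (Q1'.open_at hg.continuous hC hd h₁) (Q1'.open_at hg.continuous hC hd h₂),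
    fun g y K hg hy _ hj hq => Q1'.const hN g y K hg hy hj hq⟩

end Pool.Agent.MP_be5fd0_gt.T

namespace Pool.Agent.MP_be5fd0_gt.T

open Complex Filter Topology Set Metric MeasureTheory
open scoped ContDiff BoundedContinuousFunction

namespace Q2'

theorem polar {m R : ℝ} (hm : 0 < m) (hR : 0 ≤ R) (w₀ : ℂ) :
    ∫ w in closedBall w₀ R, (‖w - w₀‖ ^ 2 + m ^ 2)⁻¹ =
      volume.real (ball (0 : ℂ) 1) * (Real.log (R ^ 2 + m ^ 2) - Real.log (m ^ 2)) := by
  have h1 : ∫ w in closedBall w₀ R, (‖w - w₀‖ ^ 2 + m ^ 2)⁻¹ =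
      ∫ w : ℂ, (Iic R).indicator (fun y : ℝ => (y ^ 2 + m ^ 2)⁻¹) ‖w - w₀‖ := by
    rw [← integral_indicator measurableSet_closedBall]
    congr 1
    funext w
    by_cases h : w ∈ closedBall w₀ R
    · rw [indicator_of_mem h, indicator_of_mem (by simpa only [mem_Iic, mem_closedBall, dist_eq_norm] using h)]
    · rw [indicator_of_notMem h, indicator_of_notMem (by simpa only [mem_Iic, not_le, mem_closedBall, dist_eq_norm] using h)]
  have h2 := integral_sub_right_eq_self (μ := (volume : Measure ℂ))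
    (fun w : ℂ => (Iic R).indicator (fun y : ℝ => (y ^ 2 + m ^ 2)⁻¹) ‖w‖) w₀
  have h3 := integral_fun_norm_addHaar (volume : Measure ℂ)
    ((Iic R).indicator (fun y : ℝ => (y ^ 2 + m ^ 2)⁻¹))
  have h4 : ∫ y in Ioi (0 : ℝ), y ^ (2 - 1) • (Iic R).indicator (fun y : ℝ => (y ^ 2 + m ^ 2)⁻¹) y
      = ∫ y in (0 : ℝ)..R, y * (y ^ 2 + m ^ 2)⁻¹ := by
    rw [intervalIntegral.integral_of_le hR, ← Ioi_inter_Iic,
      ← setIntegral_indicator measurableSet_Iic]
    congr 1
    funext y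
    by_cases h : y ∈ Iic R
    · simp only [Nat.add_one_sub_one, pow_one, indicator_of_mem h, smul_eq_mul]
    · simp only [Nat.add_one_sub_one, pow_one, indicator_of_notMem h, smul_eq_mul, mul_zero]
  have h5 : ∫ y in (0 : ℝ)..R, y * (y ^ 2 + m ^ 2)⁻¹ =
      Real.log (R ^ 2 + m ^ 2) / 2 - Real.log (0 ^ 2 + m ^ 2) / 2 := by
    refine intervalIntegral.integral_eq_sub_of_hasDerivAt
      (f := fun y => Real.log (y ^ 2 + m ^ 2) / 2) (fun y _ => ?_) ?_
    · have h0 : y ^ 2 + m ^ 2 ≠ 0 := by positivity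
      have := (((hasDerivAt_pow 2 y).add_const (m ^ 2)).log h0).div_const 2
      refine this.congr_deriv ?_
      field_simp
      simp [mul_comm]
    · refine Continuous.intervalIntegrable ?_ _ _
      exact continuous_id.mul (Continuous.inv₀ (by fun_prop) fun y => by positivity)
  rw [h1, h2, h3, finrank_real_complex, h4, h5]
  simp only [ne_eq, OfNat.ofNat_ne_zero, not_false_eq_true, zero_pow, zero_add, Real.log_pow, Nat.cast_ofNat, mul_div_cancel_left₀, smul_eq_mul, nsmul_eq_mul]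
  ring

theorem line {c c' : ℝ → ℂ} {f : ℝ → ℝ} {m T t₀ L : ℝ} (hm : 0 < m) (hT : 0 < T) (hL : 0 < L)
    (hc : ∀ t, HasDerivAt c (c' t) t) (hf : Continuous f)
    (hle : ∀ t, (‖c t‖ ^ 2 + m ^ 2)⁻¹ * ‖c' t‖ ^ 2 ≤ f t) (ht₀ : t₀ ∈ Icc (-T) T)
    (h0 : ‖c t₀‖ ≤ m) (h1 : 1 ≤ ‖c T‖) (hLm : L ≤ -Real.log (2 * m ^ 2)) :
    L ^ 2 ≤ 8 * T * ∫ t in Icc (-T) T, f t := by
  have hpos : ∀ t, 0 < ‖c t‖ ^ 2 + m ^ 2 := fun t => by positivity
  have hf0 : ∀ t, 0 ≤ f t := fun t => le_trans (by have := hpos t; positivity) (hle t)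
  have hd : ∀ t, HasDerivAt (fun t => Real.log (‖c t‖ ^ 2 + m ^ 2))
      (2 * inner ℝ (c t) (c' t) / (‖c t‖ ^ 2 + m ^ 2)) t :=
    fun t => ((hc t).norm_sq.add_const (m ^ 2)).log (hpos t).ne'
  have ha : 0 < L / (4 * T) := by positivity
  generalize hA : L / (4 * T) = a at ha
  have hLa : L = 4 * T * a := by rw [← hA]; field_simp
  have hφ : Continuous fun t => a + a⁻¹ * f t := by fun_prop
  have key := intervalIntegral.sub_le_integral_of_hasDeriv_right_of_le
    (g := fun t => Real.log (‖c t‖ ^ 2 + m ^ 2)) (φ := fun t => a + a⁻¹ * f t) ht₀.2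
    (fun t _ => (hd t).continuousAt.continuousWithinAt)
    (fun t _ => (hd t).hasDerivWithinAt) hφ.integrableOn_Icc (fun t _ => by
      have e1 : inner ℝ (c t) (c' t) ≤ ‖c t‖ * ‖c' t‖ := real_inner_le_norm _ _
      have e2 := hle t
      have e3 := hpos t
      rw [div_le_iff₀ e3]
      rw [inv_mul_le_iff₀ e3] at e2
      have e4 : 2 * (‖c t‖ * ‖c' t‖) ≤ a * ‖c t‖ ^ 2 + a⁻¹ * ‖c' t‖ ^ 2 := by
        have e5 : 0 ≤ a⁻¹ * (a * ‖c t‖ - ‖c' t‖) ^ 2 := by positivity
        have e6 : a⁻¹ * (a * ‖c t‖ - ‖c' t‖) ^ 2 =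
          a * ‖c t‖ ^ 2 + a⁻¹ * ‖c' t‖ ^ 2 - 2 * (‖c t‖ * ‖c' t‖) := by field_simp; ring
        linarith
      have e7 := mul_le_mul_of_nonneg_left e2 (inv_pos.2 ha).le
      have e8 : 0 ≤ a * m ^ 2 := by positivity
      linarith)
  have k1 : ∫ t in t₀..T, (a + a⁻¹ * f t) ≤ ∫ t in Icc (-T) T, (a + a⁻¹ * f t) := by
    rw [intervalIntegral.integral_of_le ht₀.2]
    refine setIntegral_mono_set hφ.integrableOn_Icc
      (Eventually.of_forall fun t => ?_) (LE.le.eventuallyLE ?_)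
    · have := hf0 t
      positivity
    · exact Ioc_subset_Icc_self.trans (Icc_subset_Icc_left ht₀.1)
  have k2 : ∫ t in Icc (-T) T, (a + a⁻¹ * f t) = 2 * T * a + a⁻¹ * ∫ t in Icc (-T) T, f t := by
    have hf' : Continuous fun t => a⁻¹ * f t := by fun_prop
    rw [integral_add continuous_const.integrableOn_Icc
      hf'.integrableOn_Icc, integral_const_mul, setIntegral_const,
      Real.volume_real_Icc_of_le (by linarith only [hT])]
    simp only [smul_eq_mul]
    ring
  have k3 : 0 ≤ Real.log (‖c T‖ ^ 2 + m ^ 2) := Real.log_nonneg (by nlinarith only [h1])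
  have k4 : Real.log (‖c t₀‖ ^ 2 + m ^ 2) ≤ Real.log (2 * m ^ 2) :=
    Real.log_le_log (hpos _) (by nlinarith only [norm_nonneg (c t₀), h0])
  have k5 : 2 * T * a ≤ a⁻¹ * ∫ t in Icc (-T) T, f t := by linarith
  rw [le_inv_mul_iff₀ ha] at k5
  have k6 := mul_le_mul_of_nonneg_left k5 (by positivity : 0 ≤ 8 * T)
  rw [hLa]
  linarith only [k6]

theorem meet {g : ℂ → ℂ} {C : ℝ} (hg : Continuous g) (hb : Function.Bijective g)
    (hC : ∀ z, ‖g z - z‖ ≤ C) (z z' : ℂ) {q : ℂ → ℝ} (hq : Continuous q) {s : ℝ}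
    (hs : s ∈ Icc (q z) (q z')) : ∃ p, q p = s ∧ ‖g p - g z‖ ≤ ‖g z - g z'‖ := by
  have hp : IsProperMap g := by
    refine isProperMap_iff_tendsto_cocompact.2 ⟨hg, ?_⟩
    rw [← Metric.cobounded_eq_cocompact, ← tendsto_norm_atTop_iff_cobounded]
    refine tendsto_atTop_mono (fun z => ?_)
      (tendsto_atTop_add_const_right _ (-C) tendsto_norm_cobounded_atTop)
    have h1 := hC z
    have h2 := norm_sub_norm_le z (g z)
    rw [norm_sub_rev] at h2
    linarith
  let k := (Equiv.ofBijective g hb).toHomeomorphOfContinuousClosed hg hp.isClosedMap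
  have hk : ∀ w, g (k.symm w) = w := fun w => k.apply_symm_apply w
  have hk' : ∀ w, k.symm (g w) = w := fun w => k.symm_apply_apply w
  have hc : Continuous fun l : ℝ => q (k.symm (g z + l • (g z' - g z))) := by fun_prop
  have := intermediate_value_Icc (zero_le_one' ℝ) hc.continuousOn
  simp only [zero_smul, add_zero, one_smul, add_sub_cancel, hk'] at this
  obtain ⟨l, hl, e⟩ := this hs
  refine ⟨_, e, ?_⟩
  rw [hk, add_sub_cancel_left, norm_smul, norm_sub_rev, Real.norm_of_nonneg hl.1]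
  exact mul_le_of_le_one_left (norm_nonneg _) hl.2

theorem rect (z : ℂ) (e : Circle) {F : ℂ → ℝ} (hF : Continuous F) (a b c d : ℝ) :
    ∫ s in Icc a b, ∫ t in Icc c d, F (z + e * (s + t * I)) =
      ∫ w in (fun p : ℝ × ℝ => z + e * (p.1 + p.2 * I)) '' (Icc a b ×ˢ Icc c d), F w := by
  have h0 : (fun p : ℝ × ℝ => z + e * (p.1 + p.2 * I)) =
      (fun w => z + w) ∘ rotation e ∘ measurableEquivRealProd.symm := by
    funext p
    simp only [Function.comp, rotation_apply, measurableEquivRealProd_symm_apply, mk_eq_add_mul_I]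
  have h1 : MeasurePreserving (fun p : ℝ × ℝ => z + e * (p.1 + p.2 * I)) := by
    rw [h0]
    exact (measurePreserving_add_left _ z).comp
      ((rotation e).measurePreserving.comp volume_preserving_equiv_real_prod.symm)
  have h2 : MeasurableEmbedding (fun p : ℝ × ℝ => z + e * (p.1 + p.2 * I)) := by
    rw [h0]
    exact (measurableEmbedding_addLeft z).comp
      ((rotation e).toHomeomorph.measurableEmbedding.comp
        measurableEquivRealProd.symm.measurableEmbedding)
  rw [h1.setIntegral_image_emb h2, Measure.volume_eq_prod, setIntegral_prod]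
  refine ContinuousOn.integrableOn_compact (isCompact_Icc.prod isCompact_Icc)
    (Continuous.continuousOn ?_)
  fun_prop

theorem area {g : ℂ → ℂ} {K m R : ℝ} (hK : 0 < K) (hm : 0 < m) (hg : ContDiff ℝ 1 g)
    (hi : Function.Injective g) (hq : ∀ z, QC K g z) {S : Set ℂ} (hS : IsCompact S) (w₀ : ℂ)
    (hR : g '' S ⊆ closedBall w₀ R) :
    ∫ w in S, (‖g w - w₀‖ ^ 2 + m ^ 2)⁻¹ * ‖fderiv ℝ g w‖ ^ 2 ≤
      K * ∫ w in closedBall w₀ R, (‖w - w₀‖ ^ 2 + m ^ 2)⁻¹ := by
  have hG : Continuous fun w : ℂ => (‖w - w₀‖ ^ 2 + m ^ 2)⁻¹ :=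
    Continuous.inv₀ (by fun_prop) fun w => by positivity
  have hGg : Continuous fun w : ℂ => (‖g w - w₀‖ ^ 2 + m ^ 2)⁻¹ := hG.comp hg.continuous
  have hD : Continuous (fderiv ℝ g) := hg.continuous_fderiv one_ne_zero
  have hdet : Continuous fun w => |(fderiv ℝ g w).det| :=
    (ContinuousLinearMap.continuous_det.comp hD).abs
  have h1 := integral_image_eq_integral_abs_det_fderiv_smul volume hS.measurableSet
    (fun w _ => (hg.differentiable one_ne_zero w).hasFDerivAt.hasFDerivWithinAt) hi.injOn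
    (fun w : ℂ => (‖w - w₀‖ ^ 2 + m ^ 2)⁻¹)
  have h2 : ∫ w in g '' S, (‖w - w₀‖ ^ 2 + m ^ 2)⁻¹ ≤
      ∫ w in closedBall w₀ R, (‖w - w₀‖ ^ 2 + m ^ 2)⁻¹ :=
    setIntegral_mono_set (hG.continuousOn.integrableOn_compact (isCompact_closedBall _ _))
      (Eventually.of_forall fun w => by positivity) hR.eventuallyLE
  refine le_trans ?_ (mul_le_mul_of_nonneg_left h2 hK.le)
  rw [h1, ← integral_const_mul]
  refine setIntegral_mono_on
    ((hGg.mul (hD.norm.pow 2)).continuousOn.integrableOn_compact hS)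
    ((continuous_const.mul (hdet.smul hGg)).continuousOn.integrableOn_compact hS)
    hS.measurableSet fun w _ => ?_
  have h3 : ‖fderiv ℝ g w‖ ^ 2 ≤ K * |(fderiv ℝ g w).det| :=
    (hq w).trans (mul_le_mul_of_nonneg_left (le_abs_self _) hK.le)
  have h4 := mul_le_mul_of_nonneg_left h3
    (by positivity : 0 ≤ (‖g w - w₀‖ ^ 2 + m ^ 2)⁻¹)
  rw [smul_eq_mul]
  linarith only [h4]

theorem core {g : ℂ → ℂ} {K C r m T L : ℝ} (hK : 0 < K) (hr : 0 < r) (hg : ContDiff ℝ 1 g)
    (hb : Function.Bijective g) (hC : ∀ z, ‖g z - z‖ ≤ C) (hq : ∀ z, QC K g z) {z z' : ℂ}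
    (hz : r ≤ ‖z - z'‖) (hT : T = 2 * C + 1) (hm : m = ‖g z - g z'‖) (hm0 : 0 < m) (hm1 : m ≤ 1)
    (hL : 0 < L) (hLm : L ≤ -Real.log (2 * m ^ 2)) :
    r * L ^ 2 ≤ 8 * T * (K * (volume.real (ball (0 : ℂ) 1) *
      (Real.log ((3 * T) ^ 2 + m ^ 2) - Real.log (m ^ 2)))) := by
  have hC0 : 0 ≤ C := (norm_nonneg _).trans (hC 0)
  have hT0 : 0 < T := by linarith
  have hcmp : ∀ p, ‖g p - g z‖ ≤ ‖p - z‖ + 2 * C ∧ ‖p - z‖ ≤ ‖g p - g z‖ + 2 * C := by
    intro p
    have h1 : ‖(g p - g z) - (p - z)‖ ≤ 2 * C := by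
      have h2 : (g p - g z) - (p - z) = (g p - p) - (g z - z) := by ring
      rw [h2]
      linarith only [norm_sub_le (g p - p) (g z - z), hC p, hC z]
    have h3 := abs_le.1 ((abs_norm_sub_norm_le _ _).trans h1)
    constructor <;> linarith only [h3.1, h3.2]
  have hrT : r ≤ T := by
    have := (hcmp z').2
    rw [norm_sub_rev, norm_sub_rev (g z')] at this
    linarith
  have hn : 0 < ‖z' - z‖ := by rw [norm_sub_rev]; linarith
  obtain ⟨e, he⟩ : ∃ e : Circle, z' - z = e * ‖z' - z‖ := by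
    refine ⟨⟨(z' - z) / ‖z' - z‖, ?_⟩, ?_⟩
    · simp only [Submonoid.unitSphere, Submonoid.mem_mk, Subsemigroup.mem_mk, mem_sphere_iff_norm, sub_zero, Complex.norm_div, norm_real, norm_norm, div_self hn.ne']
    · have : (‖z' - z‖ : ℂ) ≠ 0 := by exact_mod_cast hn.ne'
      exact (div_mul_cancel₀ _ this).symm
  have he0 : (e : ℂ) ≠ 0 := e.coe_ne_zero
  have hD : Continuous (fderiv ℝ g) := hg.continuous_fderiv one_ne_zero
  have hgc := hg.continuous
  have hF : Continuous fun w => (‖g w - g z‖ ^ 2 + m ^ 2)⁻¹ * ‖fderiv ℝ g w‖ ^ 2 :=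
    (Continuous.inv₀ (by fun_prop) fun w => by positivity).mul (hD.norm.pow 2)
  have hnorm : ∀ w : ℂ, ‖z + e * w - z‖ = ‖w‖ := fun w => by
    rw [add_sub_cancel_left, norm_mul, Circle.norm_coe, one_mul]
  have h1 := rect z e hF 0 r (-T) T
  have h2 := area (m := m) (R := 3 * T) hK hm0 hg hb.1 hq
    (((isCompact_Icc (a := 0) (b := r)).prod (isCompact_Icc (a := -T) (b := T))).image
      (f := fun p : ℝ × ℝ => z + e * (p.1 + p.2 * I)) (by fun_prop)) (g z) (by
      rintro _ ⟨_, ⟨p, hp, rfl⟩, rfl⟩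
      rw [mem_closedBall_iff_norm]
      have h3 := (hcmp (z + e * (p.1 + p.2 * I))).1
      rw [hnorm] at h3
      have h4 := norm_add_le (p.1 : ℂ) (p.2 * I)
      rw [norm_mul, norm_I, mul_one, norm_real, norm_real, Real.norm_of_nonneg hp.1.1,
        Real.norm_eq_abs] at h4
      have h5 := abs_le.2 hp.2
      linarith only [hp.1.2, hT, hrT, h3, h4, h5])
  rw [polar hm0 (by linarith only [hT, hC0]), ← h1] at h2
  refine le_trans ?_ (mul_le_mul_of_nonneg_left h2 (by linarith only [hT, hC0]))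
  have h3 : ∀ s ∈ Icc 0 r, L ^ 2 ≤ 8 * T * ∫ t in Icc (-T) T,
      (‖g (z + e * (s + t * I)) - g z‖ ^ 2 + m ^ 2)⁻¹ *
        ‖fderiv ℝ g (z + e * (s + t * I))‖ ^ 2 := by
    intro s hs
    obtain ⟨p, hp, hp'⟩ := meet hgc hb hC z z' (q := fun p => ((p - z) / e).re) (by fun_prop)
      (s := s) (by
        rw [he, mul_div_cancel_left₀ _ he0]
        simp only [sub_self, zero_div, zero_re, ofReal_re]
        rw [norm_sub_rev]
        exact ⟨hs.1, hs.2.trans hz⟩)
    have e1 : z + e * (s + ((p - z) / e).im * I) = p := by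
      rw [← hp, re_add_im, mul_div_cancel₀ _ he0, add_sub_cancel]
    have e2 : |((p - z) / e).im| ≤ T := by
      refine (abs_im_le_norm _).trans ?_
      rw [norm_div, Circle.norm_coe, div_one]
      linarith only [(hcmp p).2, hT, hm, hm1, hp']
    have e3 : ∀ t : ℝ, HasDerivAt (fun t : ℝ => z + e * (s + t * I)) (e * I) t := fun t => by
      have := ((((hasDerivAt_id t).ofReal_comp.mul_const I).const_add (s : ℂ)).const_mul
        (e : ℂ)).const_add z
      simpa using this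
    refine line (c := fun t : ℝ => g (z + e * (s + t * I)) - g z)
      (c' := fun t : ℝ => fderiv ℝ g (z + e * (s + t * I)) (e * I)) hm0 hT0 hL
      (fun t => ((hg.differentiable one_ne_zero _).hasFDerivAt.comp_hasDerivAt t
        (e3 t)).sub_const _)
      (hF.comp (f := fun t : ℝ => z + e * (s + t * I)) (by fun_prop)) (fun t => ?_)
      (abs_le.1 e2) ?_ ?_ hLm
    · refine mul_le_mul_of_nonneg_left (pow_le_pow_left₀ (norm_nonneg _) ?_ 2) (by positivity)
      simpa only [Complex.norm_mul, norm_eq_of_mem_sphere, norm_I, mul_one] using (fderiv ℝ g (z + e * (s + t * I))).le_opNorm (e * I)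
    · rw [e1, hm]; exact hp'
    · have e4 := (hcmp (z + e * (s + T * I))).2
      rw [hnorm] at e4
      have e5 := im_le_norm (s + T * I)
      simp only [add_im, ofReal_im, mul_im, ofReal_re, I_im, I_re, mul_one, mul_zero, add_zero,
        zero_add] at e5
      linarith only [hT, e4, e5]
  rw [← integral_const_mul]
  have h4 : r * L ^ 2 = ∫ _ in Icc 0 r, L ^ 2 := by
    rw [setIntegral_const, Real.volume_real_Icc_of_le hr.le, sub_zero, smul_eq_mul]
  rw [h4]
  refine setIntegral_mono_on continuous_const.integrableOn_Icc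
    (Continuous.integrableOn_Icc (continuous_const.mul ?_)) measurableSet_Icc h3
  exact continuous_parametric_integral_of_continuous
    (f := fun s t : ℝ => (‖g (z + e * (s + t * I)) - g z‖ ^ 2 + m ^ 2)⁻¹ *
        ‖fderiv ℝ g (z + e * (s + t * I))‖ ^ 2)
    (hF.comp (f := fun p : ℝ × ℝ => z + e * (p.1 + p.2 * I)) (by fun_prop)) isCompact_Icc

end Q2'

theorem thQ2 : StQ2 := by
  intro K C r hK hr
  obtain ⟨T, hT⟩ : ∃ T, T = 2 * C + 1 := ⟨_, rfl⟩
  obtain ⟨V, hV⟩ : ∃ V, V = volume.real (ball (0 : ℂ) 1) := ⟨_, rfl⟩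
  have hV0 : 0 ≤ V := hV ▸ measureReal_nonneg
  obtain ⟨D, hD⟩ : ∃ D, D = Real.log ((3 * T) ^ 2 + 1) + 1 := ⟨_, rfl⟩
  have hD0 : 0 ≤ D := by
    have := Real.log_nonneg (by linarith only [sq_nonneg (3 * T)] : 1 ≤ (3 * T) ^ 2 + 1)
    linarith
  obtain ⟨B, hB⟩ : ∃ B, B = 8 * |T| * K * V := ⟨_, rfl⟩
  have hB0 : 0 ≤ B := by rw [hB]; positivity
  have hBr : 0 ≤ 2 * B / r := by positivity
  refine ⟨Real.exp (-(D + 2 * B / r + 1)), Real.exp_pos _, fun g hg hb hC hq z z' hz => ?_⟩
  by_contra hn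
  rw [not_le] at hn
  have hC0 : 0 ≤ C := (norm_nonneg _).trans (hC 0)
  have hT0 : 0 < T := by linarith only [hT, hC0]
  rw [abs_of_pos hT0] at hB
  obtain ⟨m, hm⟩ : ∃ m, m = ‖g z - g z'‖ := ⟨_, rfl⟩
  have hm0 : 0 < m := by
    rw [hm, norm_pos_iff, sub_ne_zero]
    intro h
    rw [hb.1 h, sub_self, norm_zero] at hz
    linarith only [hr, hz]
  rw [← hm, ← Real.log_lt_iff_lt_exp hm0] at hn
  have hm1 : m ≤ 1 := (Real.log_nonpos_iff hm0.le).1 (by linarith)
  have h2 : Real.log 2 ≤ 1 := by linarith only [Real.log_le_sub_one_of_pos two_pos]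
  have h3 : Real.log (m ^ 2) = 2 * Real.log m := by rw [Real.log_pow]; norm_num
  have h4 : Real.log (2 * m ^ 2) = Real.log 2 + 2 * Real.log m := by
    rw [Real.log_mul two_ne_zero (by positivity), h3]
  obtain ⟨L, hL⟩ : ∃ L, L = -2 * Real.log m - 1 := ⟨_, rfl⟩
  have hL0 : 0 < L := by linarith only [hD0, hBr, hn, hL]
  have h5 := Q2'.core hK hr hg hb hC hq hz hT hm hm0 hm1 hL0 (by linarith only [h2, h4, hL])
  rw [← hV, h3] at h5
  have h6 : Real.log ((3 * T) ^ 2 + m ^ 2) ≤ Real.log ((3 * T) ^ 2 + 1) :=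
    Real.log_le_log (by positivity) (by nlinarith only [hm0, hm1])
  have h7 : Real.log ((3 * T) ^ 2 + m ^ 2) - 2 * Real.log m ≤ 2 * L := by linarith only [hD, hD0, hBr, hn, hL, h6]
  have h8 := mul_le_mul_of_nonneg_left h7 hB0
  have h9 : r * L * L ≤ 2 * B * L := by rw [hB] at h8 ⊢; linarith only [h5, h8]
  have h10 := le_of_mul_le_mul_right h9 hL0
  have h11 : 2 * B / r < L := by linarith only [hD0, hBr, hn, hL]
  rw [div_lt_iff₀ hr] at h11
  linarith only [h10, h11]

end Pool.Agent.MP_be5fd0_gt.T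

/-! The length-area inequality on rays. -/

namespace Pool.Agent.MP_be5fd0_gt.T

open Complex Filter Topology Set Metric MeasureTheory
open scoped ContDiff BoundedContinuousFunction

namespace Q3'

/-- square of the extremal metric of the round annulus -/
noncomputable def G (M m : ℝ) : ℂ → ENNReal :=
  indicator {w | M < ‖w‖ ∧ ‖w‖ < m} fun w => ENNReal.ofReal (‖w‖ ^ 2)⁻¹

theorem meas_G (M m : ℝ) : Measurable (G M m) :=
  Measurable.indicator (by fun_prop)
    ((isOpen_lt continuous_const continuous_norm).inter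
      (isOpen_lt continuous_norm continuous_const)).measurableSet

theorem int_G {M m : ℝ} (hM : 0 < M) (h : M < m) :
    ∫⁻ w, G M m w = ENNReal.ofReal (Real.log (m / M)) * ENNReal.ofReal (2 * Real.pi) := by
  have h1 : ∀ p ∈ polarCoord.target, ENNReal.ofReal p.1 • G M m (Complex.polarCoord.symm p) =
      indicator (Ioo M m) (fun s => ENNReal.ofReal s⁻¹) p.1 * (fun _ => 1) p.2 := by
    intro p hp
    have hp1 : 0 < p.1 := hp.1
    simp only [G, indicator, mem_ofPred_eq, Complex.norm_polarCoord_symm, abs_of_pos hp1, mem_Ioo,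
      mul_one, smul_eq_mul]
    split_ifs
    · rw [← ENNReal.ofReal_mul hp1.le]
      congr 1
      field_simp
    · simp
  have hi : IntervalIntegrable (fun s : ℝ => s⁻¹) volume M m :=
    intervalIntegral.intervalIntegrable_inv (f := fun s => s)
      (fun s hs => by rw [uIcc_of_le h.le] at hs; exact (hM.trans_le hs.1).ne') continuousOn_id
  rw [← Complex.lintegral_comp_polarCoord_symm,
    setLIntegral_congr_fun polarCoord.open_target.measurableSet h1, polarCoord_target,
    Measure.volume_eq_prod, ← Measure.prod_restrict,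
    lintegral_prod_mul (Measurable.indicator (by fun_prop) measurableSet_Ioo).aemeasurable
      aemeasurable_const, setLIntegral_one, Real.volume_Ioo, lintegral_indicator measurableSet_Ioo,
    Measure.restrict_restrict measurableSet_Ioo,
    inter_eq_left.2 (show Ioo M m ⊆ Ioi 0 from fun s hs => hM.trans hs.1),
    ← integral_inv_of_pos hM (hM.trans h), intervalIntegral.integral_of_le h.le,
    integral_Ioc_eq_integral_Ioo, ofReal_integral_eq_lintegral_ofReal
      ((intervalIntegrable_iff_integrableOn_Ioo_of_le h.le).1 hi)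
      ((ae_restrict_iff' measurableSet_Ioo).2 (Eventually.of_forall fun s hs =>
        (inv_pos.2 (hM.trans hs.1)).le))]
  congr 2
  ring

/-- energy density of the pulled back metric -/
noncomputable def H (g : ℂ → ℂ) (r M m : ℝ) : ℂ → ENNReal :=
  indicator (closedBall 0 r) fun z => ENNReal.ofReal (‖fderiv ℝ g z‖ ^ 2) * G M m (g z)

theorem meas_H {g : ℂ → ℂ} (hg : ContDiff ℝ 1 g) (r M m : ℝ) : Measurable (H g r M m) :=
  Measurable.indicator (((hg.continuous_fderiv one_ne_zero).norm.pow 2).measurable.ennreal_ofReal.mul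
    ((meas_G M m).comp hg.continuous.measurable)) measurableSet_closedBall

theorem int_H {g : ℂ → ℂ} (hg : ContDiff ℝ 1 g) (hi : Function.Injective g) {K r : ℝ} (hK : 0 < K)
    (hq : ∀ z, ‖z‖ ≤ r → QC K g z) (M m : ℝ) :
    ∫⁻ z, H g r M m z ≤ ENNReal.ofReal K * ∫⁻ w, G M m w := by
  rw [H, lintegral_indicator measurableSet_closedBall]
  refine le_trans ?_ (mul_le_mul_right (setLIntegral_le_lintegral (g '' closedBall 0 r) _) _)
  rw [lintegral_image_eq_lintegral_abs_det_fderiv_mul volume measurableSet_closedBall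
    (fun z _ => (hg.differentiable one_ne_zero z).hasFDerivAt.hasFDerivWithinAt) hi.injOn,
    ← lintegral_const_mul' _ _ ENNReal.ofReal_ne_top]
  refine setLIntegral_mono' measurableSet_closedBall fun z hz => ?_
  rw [← mul_assoc, ← ENNReal.ofReal_mul hK.le]
  refine mul_le_mul_left (ENNReal.ofReal_le_ofReal ?_) _
  exact (hq z (mem_closedBall_zero_iff.1 hz)).trans
    (mul_le_mul_of_nonneg_left (le_abs_self _) hK.le)

theorem cross {n : ℝ → ℝ} (hn : Continuous n) {t r M m : ℝ} (htr : t ≤ r) (h : M < m)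
    (h1 : n t ≤ M) (h2 : m ≤ n r) : ∃ a b, t ≤ a ∧ a < b ∧ b ≤ r ∧ n a ≤ M ∧ m ≤ n b ∧
      (∀ s ∈ Ioo a b, M < n s ∧ n s < m) ∧ ∀ s ∈ Icc a b, M ≤ n s := by
  obtain ⟨b, ⟨hb, hb'⟩, hbl⟩ := (isCompact_Icc.inter_right
    (isClosed_le continuous_const hn : IsClosed {s | m ≤ n s})).exists_isLeast
    ⟨r, ⟨htr, le_rfl⟩, h2⟩
  obtain ⟨a, ⟨ha, ha'⟩, hal⟩ := (isCompact_Icc.inter_right
    (isClosed_le hn continuous_const : IsClosed {s | n s ≤ M})).exists_isGreatest
    ⟨t, (⟨le_rfl, hb.1⟩ : t ∈ Icc t b), h1⟩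
  have hab : a < b := lt_of_le_of_ne ha.2 fun e => by
    rw [e] at ha'
    exact absurd (le_trans hb' ha') (not_le.2 h)
  have key : ∀ s ∈ Ioo a b, M < n s ∧ n s < m := fun s hs =>
    ⟨not_le.1 fun h3 => not_le.2 hs.1 (hal ⟨⟨ha.1.trans hs.1.le, hs.2.le⟩, h3⟩),
      not_le.1 fun h3 => not_le.2 hs.2 (hbl ⟨⟨ha.1.trans hs.1.le, hs.2.le.trans hb.2⟩, h3⟩)⟩
  refine ⟨a, b, ha.1, hab, hb.2, ha', hb', key, ?_⟩
  rw [← closure_Ioo hab.ne]
  exact closure_minimal (fun s hs => (key s hs).1.le)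
    (isClosed_le continuous_const hn : IsClosed {s | M ≤ n s})

theorem ray {g : ℂ → ℂ} (hg : ContDiff ℝ 1 g) {K r t m M : ℝ} (hK : 0 < K) (ht : 0 < t)
    (htr : t < r) (hM : 0 < M) (h : M < m) (h1 : ∀ z, ‖z‖ = r → m ≤ ‖g z‖)
    (h2 : ∀ z, ‖z‖ = t → ‖g z‖ ≤ M) {e : ℂ} (he : ‖e‖ = 1) :
    ENNReal.ofReal (K * (2 * Real.log (m / M) - K * Real.log (r / t))) ≤
      ∫⁻ s in Ioi (0 : ℝ), ENNReal.ofReal s • H g r M m (s * e) := by
  have hne : ∀ s : ℝ, 0 < s → ‖(s : ℂ) * e‖ = s := fun s hs => by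
    rw [norm_mul, he, mul_one, Complex.norm_real, Real.norm_of_nonneg hs.le]
  have hc : Continuous fun s : ℝ => (s : ℂ) * e := by fun_prop
  have hn : Continuous fun s : ℝ => ‖g (s * e)‖ := (hg.continuous.comp hc).norm
  obtain ⟨a, b, ha, hab, hb, ha', hb', hoo, hcc⟩ :=
    cross hn htr.le h (h2 _ (hne t ht)) (h1 _ (hne r (ht.trans htr)))
  have ha0 : 0 < a := ht.trans_le ha
  have hd : ∀ s : ℝ, HasDerivAt (fun s : ℝ => g (s * e)) (fderiv ℝ g (s * e) e) s := fun s => by
    have h3 : HasDerivAt (fun s : ℝ => (s : ℂ) * e) e s := by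
      simpa using (Complex.ofRealCLM.hasDerivAt (x := s)).mul_const e
    exact (hg.differentiable one_ne_zero _).hasFDerivAt.comp_hasDerivAt s h3
  have hp : ∀ s ∈ Icc a b, ‖g (s * e)‖ ^ 2 ≠ 0 := fun s hs => (pow_pos (hM.trans_le (hcc s hs)) 2).ne'
  have hψ : ContinuousOn
      (fun s : ℝ => s * (‖fderiv ℝ g (s * e)‖ ^ 2 * (‖g (s * e)‖ ^ 2)⁻¹)) (Icc a b) :=
    continuousOn_id.mul ((((hg.continuous_fderiv one_ne_zero).comp hc).norm.pow 2).continuousOn.mul
      ((hn.pow 2).continuousOn.inv₀ hp))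
  have hinv : ContinuousOn (fun s : ℝ => s⁻¹) (Icc a b) :=
    continuousOn_id.inv₀ fun s hs => (ha0.trans_le hs.1).ne'
  have main := intervalIntegral.sub_le_integral_of_hasDeriv_right_of_le
    (g := fun s : ℝ => K * Real.log (‖g (s * e)‖ ^ 2))
    (φ := fun s : ℝ => s * (‖fderiv ℝ g (s * e)‖ ^ 2 * (‖g (s * e)‖ ^ 2)⁻¹) + K ^ 2 * s⁻¹) hab.le
    (continuousOn_const.mul ((hn.pow 2).continuousOn.log hp))
    (fun s hs => (((hd s).norm_sq.log (hp s (Ioo_subset_Icc_self hs))).const_mul K).hasDerivWithinAt)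
    ((hψ.add (continuousOn_const.mul hinv)).integrableOn_compact isCompact_Icc) (fun s hs => by
      have hs0 : 0 < s := ha0.trans hs.1
      have hx : 0 < ‖g (s * e)‖ := hM.trans (hoo s hs).1
      have h3 := real_inner_le_norm (g (s * e)) (fderiv ℝ g (s * e) e)
      have h4 := (fderiv ℝ g (s * e)).le_opNorm e
      rw [he, mul_one] at h4
      have h5 := h3.trans (mul_le_mul_of_nonneg_left h4 hx.le)
      generalize ‖g (s * e)‖ = x at hx h5 ⊢
      generalize ‖fderiv ℝ g (s * e)‖ = d at h5 ⊢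
      generalize inner ℝ (g (s * e)) (fderiv ℝ g (s * e) e) = p at h5 ⊢
      have e1 : s * (d ^ 2 * (x ^ 2)⁻¹) + K ^ 2 * s⁻¹ - K * (2 * p / x ^ 2) =
          ((s * d - K * x) ^ 2 + 2 * K * s * (x * d - p)) / (s * x ^ 2) := by
        field_simp
        ring
      have e2 : 0 ≤ x * d - p := sub_nonneg.2 h5
      rw [← sub_nonneg, e1]
      positivity)
  have i1 := hψ.intervalIntegrable_of_Icc (μ := volume) hab.le
  have i2 := hinv.intervalIntegrable_of_Icc (μ := volume) hab.le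
  rw [intervalIntegral.integral_add i1 (i2.const_mul _), intervalIntegral.integral_const_mul,
    integral_inv_of_pos ha0 (ha0.trans hab), Real.log_pow, Real.log_pow] at main
  have l1 : Real.log m ≤ Real.log ‖g (b * e)‖ := Real.log_le_log (hM.trans h) hb'
  have l2 : Real.log ‖g (a * e)‖ ≤ Real.log M :=
    Real.log_le_log (hM.trans_le (hcc a ⟨le_rfl, hab.le⟩)) ha'
  have l3 : Real.log (b / a) ≤ Real.log (r / t) :=
    Real.log_le_log (div_pos (ha0.trans hab) ha0) (div_le_div₀ (ht.trans htr).le hb ht ha)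
  have l4 : K * (2 * Real.log (m / M) - K * Real.log (r / t)) ≤
      ∫ s in a..b, s * (‖fderiv ℝ g (s * e)‖ ^ 2 * (‖g (s * e)‖ ^ 2)⁻¹) := by
    rw [Real.log_div (hM.trans h).ne' hM.ne']
    have p1 := mul_le_mul_of_nonneg_left l1 hK.le
    have p2 := mul_le_mul_of_nonneg_left l2 hK.le
    have p3 := mul_le_mul_of_nonneg_left l3 (sq_nonneg K)
    push_cast at main
    linarith only [main, p1, p2, p3]
  refine (ENNReal.ofReal_le_ofReal l4).trans ?_
  rw [intervalIntegral.integral_of_le hab.le, integral_Ioc_eq_integral_Ioo,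
    ofReal_integral_eq_lintegral_ofReal ((intervalIntegrable_iff_integrableOn_Ioo_of_le hab.le).1 i1)
      ((ae_restrict_iff' measurableSet_Ioo).2 (Eventually.of_forall fun s hs => by
        have := ha0.trans hs.1
        positivity))]
  refine le_trans (le_of_eq (setLIntegral_congr_fun measurableSet_Ioo fun s hs => ?_))
    (lintegral_mono_set (show Ioo a b ⊆ Ioi 0 from fun s hs => ha0.trans hs.1))
  have hs0 : 0 < s := ha0.trans hs.1
  have m1 : (s : ℂ) * e ∈ closedBall (0 : ℂ) r := by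
    rw [mem_closedBall_zero_iff, hne s hs0]
    exact hs.2.le.trans hb
  have m2 : g (s * e) ∈ {w : ℂ | M < ‖w‖ ∧ ‖w‖ < m} := hoo s hs
  simp only [H, G, indicator_of_mem m1, indicator_of_mem m2, smul_eq_mul]
  rw [ENNReal.ofReal_mul hs0.le, ENNReal.ofReal_mul (sq_nonneg _)]

theorem core {g : ℂ → ℂ} (hg : ContDiff ℝ 1 g) (hi : Function.Injective g) {K r t m M : ℝ}
    (hK : 0 < K) (ht : 0 < t) (htr : t < r) (hm : 0 < m) (hM : 0 < M)
    (hq : ∀ z, ‖z‖ ≤ r → QC K g z) (h1 : ∀ z, ‖z‖ = r → m ≤ ‖g z‖)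
    (h2 : ∀ z, ‖z‖ = t → ‖g z‖ ≤ M) : Real.log (m / M) ≤ K * Real.log (r / t) := by
  rcases le_or_gt m M with h | h
  · exact (Real.log_nonpos (div_pos hm hM).le ((div_le_one hM).2 h)).trans
      (mul_nonneg hK.le (Real.log_nonneg ((one_le_div ht).2 htr.le)))
  have hL : 0 < Real.log (m / M) := Real.log_pos ((one_lt_div hM).2 h)
  have hmeas : Measurable fun p : ℝ × ℝ =>
      ENNReal.ofReal p.1 • H g r M m (Complex.polarCoord.symm p) := by
    refine measurable_fst.ennreal_ofReal.mul ((meas_H hg r M m).comp ?_)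
    rw [show (Complex.polarCoord.symm : ℝ × ℝ → ℂ) = _ from funext Complex.polarCoord_symm_apply]
    fun_prop
  have key := int_H hg hi hK hq M m
  rw [int_G hM h, ← Complex.lintegral_comp_polarCoord_symm, polarCoord_target,
    Measure.volume_eq_prod, ← Measure.prod_restrict, lintegral_prod_symm _ hmeas.aemeasurable] at key
  have low := (lintegral_mono (μ := volume.restrict (Ioo (-Real.pi) Real.pi)) fun θ : ℝ =>
    ray hg hK ht htr hM h h1 h2 (e := Real.cos θ + Real.sin θ * I)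
      (by simp)).trans
    (by simpa only [Complex.polarCoord_symm_apply] using key)
  have hπ := Real.pi_pos
  rw [setLIntegral_const, Real.volume_Ioo, mul_comm, ← ENNReal.ofReal_mul (by linarith only [hπ]),
    ← ENNReal.ofReal_mul hL.le, ← ENNReal.ofReal_mul hK.le,
    ENNReal.ofReal_le_ofReal_iff (by positivity)] at low
  have h3 : 0 < 2 * Real.pi * K := by positivity
  exact le_of_mul_le_mul_left (by linarith) h3

end Q3'

theorem thQ3 : StQ3 := by
  intro g z₀ K r t m M hg hi hK ht htr hm hM hq h1 h2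
  have hf : ∀ z, fderiv ℝ (fun z => g (z + z₀) - g z₀) z = fderiv ℝ g (z + z₀) := fun z => by
    rw [fderiv_sub_const, fderiv_comp_add_right]
  refine Q3'.core (g := fun z => g (z + z₀) - g z₀)
    ((hg.comp (contDiff_id.add contDiff_const)).sub contDiff_const)
    (fun z w h => add_right_cancel (hi (sub_left_inj.1 h))) hK ht htr hm hM (fun z hz => ?_)
    (fun z hz => h1 _ (by rwa [add_sub_cancel_right])) fun z hz => h2 _ (by rwa [add_sub_cancel_right])
  have := hq (z + z₀) (by rwa [add_sub_cancel_right])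
  rwa [QC, jac, ← hf] at this

end Pool.Agent.MP_be5fd0_gt.T

/-! An almost conformal map of the plane with a given modulus of continuity is close to the
identity. -/

namespace Pool.Agent.MP_be5fd0_gt.T

open Complex Filter Topology Set Metric MeasureTheory
open scoped ContDiff BoundedContinuousFunction

noncomputable section

namespace Q4'

theorem hphi (x : ℝ) : HasDerivAt (fun t : ℝ => (max 0 t) ^ 2) (2 * max 0 x) x := by
  rcases lt_trichotomy x 0 with h | h | h
  · have e : (fun t : ℝ => (max 0 t) ^ 2) =ᶠ[𝓝 x] fun _ => 0 := by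
      filter_upwards [gt_mem_nhds h] with t ht
      simp only [max_eq_left ht.le, ne_eq, OfNat.ofNat_ne_zero, not_false_eq_true, zero_pow]
    rw [max_eq_left h.le, mul_zero]
    exact (hasDerivAt_const x (0 : ℝ)).congr_of_eventuallyEq e
  · subst h
    rw [hasDerivAt_iff_isLittleO]
    refine Asymptotics.IsBigO.trans_isLittleO (g := fun t : ℝ => t ^ 2)
      (Asymptotics.IsBigO.of_norm_le fun t => ?_) ?_
    · rcases le_total t 0 with h | h
      · simp only [max_eq_left h, ne_eq, OfNat.ofNat_ne_zero, not_false_eq_true, zero_pow, max_self, sub_self, sub_zero, mul_zero, smul_eq_mul, norm_zero, sq_nonneg]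
      · simp only [max_eq_right h, max_self, ne_eq, OfNat.ofNat_ne_zero, not_false_eq_true, zero_pow, sub_zero, mul_zero, smul_eq_mul, norm_pow, Real.norm_eq_abs, sq_abs, Std.le_refl]
    · simpa using Asymptotics.isLittleO_pow_id (𝕜 := ℝ) (n := 2) (by norm_num)
  · have e : (fun t : ℝ => (max 0 t) ^ 2) =ᶠ[𝓝 x] fun t => t ^ 2 := by
      filter_upwards [lt_mem_nhds h] with t ht
      simp only [max_eq_right ht.le]
    rw [max_eq_right h.le]
    simpa only [Nat.cast_ofNat, Nat.add_one_sub_one, pow_one] using (hasDerivAt_pow 2 x).congr_of_eventuallyEq e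

theorem cphi : ContDiff ℝ 1 (fun t : ℝ => (max 0 t) ^ 2) := by
  rw [contDiff_one_iff_deriv]
  refine ⟨fun x => (hphi x).differentiableAt, ?_⟩
  have e : deriv (fun t : ℝ => (max 0 t) ^ 2) = fun x => 2 * max 0 x :=
    funext fun x => (hphi x).deriv
  rw [e]; fun_prop

def q (z : ℂ) (r : ℝ) (s : ℂ) : ℝ := 1 - ((s - z).re ^ 2 + (s - z).im ^ 2) / r ^ 2
def chi (z : ℂ) (r : ℝ) (s : ℂ) : ℂ := (((max 0 (q z r s)) ^ 2 : ℝ) : ℂ)

theorem q_eq (z : ℂ) (r : ℝ) (s : ℂ) : q z r s = 1 - (‖s - z‖ / r) ^ 2 := by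
  rw [q, div_pow, Complex.sq_norm, normSq_apply]; ring

theorem cq (z : ℂ) (r : ℝ) : ContDiff ℝ 1 (q z r) := by
  have h0 : ContDiff ℝ 1 fun s : ℂ => s - z := contDiff_id.sub contDiff_const
  have h1 : ContDiff ℝ 1 fun s : ℂ => (s - z).re := reCLM.contDiff.comp h0
  have h2 : ContDiff ℝ 1 fun s : ℂ => (s - z).im := imCLM.contDiff.comp h0
  exact contDiff_const.sub (((h1.pow 2).add (h2.pow 2)).div_const _)

theorem cchi (z : ℂ) (r : ℝ) : ContDiff ℝ 1 (chi z r) :=
  ofRealCLM.contDiff.comp (cphi.comp (cq z r))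

theorem dchi (z : ℂ) (r : ℝ) (s : ℂ) :
    dbar (chi z r) s = -((2 * max 0 (q z r s) / r ^ 2 : ℝ) : ℂ) * (s - z) := by
  have h0 : HasFDerivAt (fun s : ℂ => s - z) (ContinuousLinearMap.id ℝ ℂ) s :=
    (hasFDerivAt_id s).sub_const z
  have h1 : HasFDerivAt (fun s : ℂ => (s - z).re) _ s := reCLM.hasFDerivAt.comp s h0
  have h2 : HasFDerivAt (fun s : ℂ => (s - z).im) _ s := imCLM.hasFDerivAt.comp s h0
  have h3 : HasFDerivAt (q z r) _ s :=
    (((h1.pow 2).add (h2.pow 2)).mul_const (r ^ 2)⁻¹).const_sub 1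
  have h4 : HasFDerivAt (chi z r) _ s :=
    ofRealCLM.hasFDerivAt.comp s ((hphi (q z r s)).comp_hasFDerivAt s h3)
  rw [dbar, h4.fderiv]
  apply Complex.ext <;> simp [-ofReal_pow] <;> ring

theorem energy (hN : StN2) {τ : ℂ → ℂ} {ρ δ : ℝ} (hτ : ContDiff ℝ 1 τ)
    (hl : Tendsto (fun z => τ z - z) (cocompact ℂ) (𝓝 0)) (hs : ∀ z, ρ ≤ ‖z‖ → dbar τ z = 0)
    (hd : ∀ z, ‖dbar τ z‖ ≤ δ * ‖del τ z‖) (h0 : 0 < δ) (h1 : δ ≤ 1 / 2) :
    Integrable (fun z => ‖dbar τ z‖) ∧
      ∫ z, ‖dbar τ z‖ ≤ 2 * δ * volume.real (ball (0 : ℂ) ρ) := by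
  have hw : ∀ z, del (fun z => τ z - z) z = del τ z - 1 ∧ dbar (fun z => τ z - z) z = dbar τ z :=
    fun z => by
      have h := del_sub (v := fun w : ℂ => w) (hτ.differentiable one_ne_zero z) differentiableAt_id
      rwa [(del_id z).1, (del_id z).2, sub_zero] at h
  obtain ⟨i1, i2, e⟩ := hN.2 (fun z => τ z - z) ρ (hτ.sub contDiff_id) hl
    (fun z hz => by rw [(hw z).2, hs z hz])
  simp only [(hw _).1, (hw _).2] at i1 i2 e
  have iB : ∀ c : ℝ, Integrable ((ball (0 : ℂ) ρ).indicator fun _ => c) := fun c =>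
    (integrableOn_const measure_ball_lt_top.ne).integrable_indicator measurableSet_ball
  have eB : ∀ c : ℝ, ∫ z, (ball (0 : ℂ) ρ).indicator (fun _ => c) z =
      volume.real (ball (0 : ℂ) ρ) * c := fun c => integral_indicator_const c measurableSet_ball
  have p1 : ∀ z, ‖dbar τ z‖ ^ 2 ≤ 1 / 2 * ‖del τ z - 1‖ ^ 2 +
      (ball (0 : ℂ) ρ).indicator (fun _ => 2 * δ ^ 2) z := fun z => by
    by_cases hz : z ∈ ball (0 : ℂ) ρ
    · rw [indicator_of_mem hz]
      have a1 : ‖del τ z‖ ≤ ‖del τ z - 1‖ + 1 := by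
        simpa only [sub_add_cancel, norm_one] using norm_add_le (del τ z - 1) 1
      have a2 : ‖dbar τ z‖ ≤ δ * (‖del τ z - 1‖ + 1) :=
        (hd z).trans (mul_le_mul_of_nonneg_left a1 h0.le)
      have a3 := pow_le_pow_left₀ (norm_nonneg _) a2 2
      have a4 : δ ^ 2 ≤ 1 / 4 := by nlinarith only [h0, h1]
      generalize ‖del τ z - 1‖ = a at a3 ⊢
      linarith only [mul_nonneg (sq_nonneg δ) (sq_nonneg (a - 1)), mul_nonneg (sub_nonneg.2 a4) (sq_nonneg a), a3]
    · rw [indicator_of_notMem hz, hs z (by simpa using hz)]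
      simp only [norm_zero, add_zero, ne_eq, OfNat.ofNat_ne_zero, not_false_eq_true, zero_pow]
      positivity
  have p2 : ∀ z, ‖dbar τ z‖ ≤ (4 * δ)⁻¹ * ‖dbar τ z‖ ^ 2 +
      (ball (0 : ℂ) ρ).indicator (fun _ => δ) z := fun z => by
    by_cases hz : z ∈ ball (0 : ℂ) ρ
    · rw [indicator_of_mem hz, ← sub_le_iff_le_add, le_inv_mul_iff₀ (by positivity)]
      linarith only [sq_nonneg (‖dbar τ z‖ - 2 * δ)]
    · rw [indicator_of_notMem hz, hs z (by simpa using hz)]
      simp
  have j1 := integral_mono i2 ((i1.const_mul (1 / 2)).add (iB (2 * δ ^ 2))) p1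
  have k2 := (i2.const_mul (4 * δ)⁻¹).add (iB δ)
  have i3 : Integrable (fun z => ‖dbar τ z‖) :=
    k2.mono' (continuous_del hτ).2.norm.aestronglyMeasurable
      (Eventually.of_forall fun z => by simpa only [norm_norm, mul_inv_rev, Pi.add_apply] using p2 z)
  have j2 := integral_mono i3 k2 p2
  rw [integral_add' (i1.const_mul _) (iB _), integral_const_mul, eB, e] at j1
  rw [integral_add' (i2.const_mul _) (iB _), integral_const_mul, eB] at j2
  refine ⟨i3, j2.trans ?_⟩
  have j3 : (4 * δ)⁻¹ * ∫ z, ‖dbar τ z‖ ^ 2 ≤ δ * volume.real (ball (0 : ℂ) ρ) := by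
    rw [inv_mul_le_iff₀ (by positivity)]; linarith only [j1]
  linarith only [j3]

theorem ker {r ε a b c : ℝ} (hr : 0 < r) (ha : 0 < a) (hb : 0 ≤ b)
    (hc : a < r → c ≤ ε) (hc0 : 0 ≤ c) :
    (Real.pi * a)⁻¹ * (|1 - (max 0 (1 - (a / r) ^ 2)) ^ 2| * b +
      2 * max 0 (1 - (a / r) ^ 2) / r ^ 2 * a * c) ≤
      r⁻¹ * b + if a < r then 2 * ε / (Real.pi * r ^ 2) else 0 := by
  have hp := Real.pi_gt_three
  have ht : 0 < a / r := by positivity
  have ea : a = a / r * r := by field_simp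
  have k1 : |1 - (max 0 (1 - (a / r) ^ 2)) ^ 2| ≤ 2 * (a / r) := by
    generalize a / r = t at ht
    rcases le_total (1 - t ^ 2) 0 with h | h
    · rw [max_eq_left h]
      have : 1 ≤ t := by nlinarith only [ht, h]
      simp; linarith only [ht, this]
    · rw [max_eq_right h]
      have : t ≤ 1 := by nlinarith only [h]
      rw [abs_le]; constructor <;> nlinarith only [ht, h]
  have k2 : (Real.pi * a)⁻¹ * (|1 - (max 0 (1 - (a / r) ^ 2)) ^ 2| * b) ≤ r⁻¹ * b := by
    rw [← mul_assoc]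
    refine mul_le_mul_of_nonneg_right ?_ hb
    rw [inv_mul_le_iff₀ (by positivity)]
    refine k1.trans ?_
    rw [mul_assoc, ← div_eq_mul_inv]; nlinarith only [hp, ht]
  rw [mul_add]
  refine add_le_add k2 ?_
  split_ifs with h
  · have k3 : max 0 (1 - (a / r) ^ 2) ≤ 1 := max_le zero_le_one (by nlinarith only [])
    have k4 : max 0 (1 - (a / r) ^ 2) * c ≤ ε :=
      (mul_le_of_le_one_left hc0 k3).trans (hc h)
    calc _ = 2 * (max 0 (1 - (a / r) ^ 2) * c) / (Real.pi * r ^ 2) := by field_simp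
      _ ≤ _ := by gcongr
  · have k3 : 1 ≤ a / r := by rw [le_div_iff₀ hr]; linarith only [h]
    rw [max_eq_left (by nlinarith only [k3])]; simp

end Q4'

open Q4' in
theorem thQ4 (h3 : StT3) (hN : StN2) : StQ4 := by
  intro ρ ε μ hρ hε hμ
  set V := volume.real (ball (0 : ℂ) ρ)
  have hV : 0 ≤ V := measureReal_nonneg
  refine ⟨min (1 / 2) (ε * μ / (2 * (V + 1))), by positivity, fun τ hτ hl hs hd hm z => ?_⟩
  obtain ⟨i1, e1⟩ := energy hN hτ hl hs hd (by positivity) (min_le_left _ _)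
  have e2 : μ⁻¹ * ∫ z, ‖dbar τ z‖ ≤ ε := by
    rw [inv_mul_le_iff₀ hμ]
    refine e1.trans ?_
    calc _ ≤ 2 * (ε * μ / (2 * (V + 1))) * (V + 1) := by
          gcongr
          · exact min_le_right _ _
          · linarith only []
      _ = _ := by field_simp
  have dτ := hτ.differentiable one_ne_zero
  have dχ := (cchi z μ).differentiable one_ne_zero
  have hG : ∀ s, dbar (fun s => (τ s - s) - chi z μ s • (τ s - τ z)) s =
      (1 - chi z μ s) * dbar τ s - dbar (chi z μ) s * (τ s - τ z) := fun s => by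
    have a1 := (del_sub (v := fun w : ℂ => w) (dτ s) differentiableAt_id).2
    have a2 := (del_sub (v := fun _ : ℂ => τ z) (dτ s) (differentiableAt_const _)).2
    have a3 := (del_smul (dχ s) ((dτ s).sub_const (τ z))).2
    rw [(del_sub (u := fun s => τ s - s) (v := fun s => chi z μ s • (τ s - τ z))
      ((dτ s).sub differentiableAt_id) ((dχ s).smul ((dτ s).sub_const (τ z)))).2, a1, a3, a2,
      (del_id s).2, (del_const _ s).2]
    simp only [smul_eq_mul]; ring
  have hout : ∀ s, ‖z‖ + μ ≤ ‖s‖ → max 0 (q z μ s) = 0 := fun s h => by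
    have a1 : 1 ≤ ‖s - z‖ / μ := by
      rw [le_div_iff₀ hμ]; linarith only [norm_sub_norm_le s z, h]
    rw [q_eq, max_eq_left (by nlinarith only [a1])]
  have key := h3 ℂ (fun s => (τ s - s) - chi z μ s • (τ s - τ z)) 0 (max ρ (‖z‖ + μ))
    ((hτ.sub contDiff_id).sub ((cchi z μ).smul (hτ.sub contDiff_const))) ?_ ?_ z
  · simp only [sub_self, smul_zero, sub_zero, zero_add] at key
    have iB : Integrable ((ball (0 : ℂ) μ).indicator fun _ => 2 * ε / (Real.pi * μ ^ 2)) :=
      (integrableOn_const measure_ball_lt_top.ne).integrable_indicator measurableSet_ball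
    have i2 := (i1.comp_sub_left z).const_mul μ⁻¹
    rw [key, cT]
    refine (norm_integral_le_of_norm_le (i2.add iB) (Eventually.of_forall fun w => ?_)).trans ?_
    · rcases eq_or_ne w 0 with rfl | hw
      · simp only [mul_zero, inv_zero, zero_smul, norm_zero, Pi.add_apply]
        exact add_nonneg (by positivity) (indicator_nonneg (fun _ _ => by positivity) _)
      have a1 := ker (b := ‖dbar τ (z - w)‖) (c := ‖τ (z - w) - τ z‖) hμ (norm_pos_iff.2 hw)
        (norm_nonneg _) (fun h => hm _ _ (by simpa using h.le)) (norm_nonneg _)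
      have a2 : q z μ (z - w) = 1 - (‖w‖ / μ) ^ 2 := by rw [q_eq]; simp
      have a3 : 0 ≤ 2 * max 0 (1 - (‖w‖ / μ) ^ 2) / μ ^ 2 := by positivity
      rw [hG, dchi, chi, a2, norm_smul, norm_inv, norm_mul, Complex.norm_real,
        Real.norm_of_nonneg Real.pi_pos.le]
      refine le_trans (mul_le_mul_of_nonneg_left ((norm_sub_le _ _).trans (le_of_eq ?_))
        (by positivity)) (a1.trans (le_of_eq ?_))
      · rw [norm_mul, norm_mul, norm_mul, norm_neg, Complex.norm_real, Real.norm_of_nonneg a3,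
          ← ofReal_one, ← ofReal_sub, Complex.norm_real, Real.norm_eq_abs]
        simp only [sub_sub_cancel_left, norm_neg]
      · by_cases hb : ‖w‖ < μ
        · simp [hb]
        · simp only [hb, ↓ reduceIte, add_zero, Pi.add_apply, mem_ball, dist_zero_right, not_false_eq_true, indicator_of_notMem]
    · rw [integral_add' i2 iB, integral_const_mul, integral_sub_left_eq_self (fun s => ‖dbar τ s‖),
        integral_indicator_const _ measurableSet_ball, measureReal_def, Complex.volume_ball]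
      have a1 : (ENNReal.ofReal μ ^ 2 * NNReal.pi).toReal • (2 * ε / (Real.pi * μ ^ 2)) = 2 * ε := by
        have := Real.pi_pos
        simp only [ENNReal.toReal_mul, ENNReal.toReal_pow, hμ.le, ENNReal.toReal_ofReal, ENNReal.coe_toReal, NNReal.coe_real_pi, smul_eq_mul]; field_simp
      rw [a1]; linarith only [e2]
  · refine hl.congr' ?_
    filter_upwards [(isCompact_closedBall (0 : ℂ) (‖z‖ + μ)).compl_mem_cocompact] with s hs'
    have a1 : ‖z‖ + μ ≤ ‖s‖ := by simpa only [] using (le_of_lt (by simpa only [mem_compl_iff, mem_closedBall, dist_zero_right, not_le] using hs'))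
    simp only [chi, hout s a1, ne_eq, OfNat.ofNat_ne_zero, not_false_eq_true, zero_pow, ofReal_zero, smul_eq_mul, zero_mul, sub_zero]
  · intro s hs'
    rw [hG, dchi, hs s ((le_max_left _ _).trans hs'), hout s ((le_max_right _ _).trans hs')]
    simp

end

end Pool.Agent.MP_be5fd0_gt.T

namespace Pool.Agent.MP_be5fd0_gt.T

open Complex Filter Topology Set Metric MeasureTheory
open scoped ContDiff BoundedContinuousFunction

noncomputable section

namespace Sw'

theorem ext2 {x y : E} (h0 : x 0 = y 0) (h1 : x 1 = y 1) : x = y := by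
  ext i; fin_cases i; exacts [h0, h1]

theorem nsq (q : E) : ‖q‖ ^ 2 = ‖q 0‖ ^ 2 + ‖q 1‖ ^ 2 := by
  rw [EuclideanSpace.norm_sq_eq]; simp

theorem swsw (q : E) : sw (sw q) = q := ext2 rfl rfl
theorem swL_mul : swL * swL = 1 := by ext1 q; exact swsw q
theorem norm_sw (q : E) : ‖sw q‖ = ‖q‖ := by
  have h := nsq (sw q); have h' := nsq q
  have e0 : sw q 0 = q 1 := rfl
  have e1 : sw q 1 = q 0 := rfl
  rw [e0, e1] at h
  exact (sq_eq_sq₀ (norm_nonneg _) (norm_nonneg _)).1 (by linarith)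
theorem sw_smul (c : ℂ) (q : E) : sw (c • q) = c • sw q := ext2 rfl rfl

def swE : E ≃L[ℝ] E := ContinuousLinearEquiv.equivOfInverse swL swL swsw swsw

theorem del_sw (w : ℂ → E) (z : ℂ) : del (fun t => sw (w t)) z = sw (del w z) ∧
    dbar (fun t => sw (w t)) z = sw (dbar w z) := by
  have h : fderiv ℝ (fun t => sw (w t)) z = (swE : E →L[ℝ] E).comp (fderiv ℝ w z) :=
    swE.comp_fderiv (f := w)
  simp only [del, dbar, h]
  exact ⟨ext2 rfl rfl, ext2 rfl rfl⟩

theorem mk_eq (z y : ℂ) : mk z y = z • mk 1 0 + mk 0 y := ext2 (by simp [mk]) (by simp [mk])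

end Sw'

open Sw' in
theorem thSw : StSw := by
  refine ⟨fun _ => rfl, swsw, norm_sw, sw_smul, fun x y => ?_, fun A => ?_, fun s A => ?_, ?_, ?_,
    del_sw, ?_, fun a b => ?_, fun q i => PiLp.norm_apply_le q i, fun x y => ?_, fun y => ?_⟩
  · simp [det2, sw, mk]
  · funext q
    simp only [swF, swsw]
    rw [← mul_assoc, ← mul_assoc, swL_mul, one_mul, mul_assoc, swL_mul, mul_one]
  · funext q
    ext1 w
    exact swL.map_smul s _
  · intro A a M R s hs h
    refine ⟨h.smooth.const_smul s, fun q w => ?_, h.a0, h.a1, h.R0, fun q => ?_, fun k hk q => ?_,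
      fun q hq => by rw [Pi.smul_apply, h.supp q hq]; ext1 w; simp⟩
    · simp only [Pi.smul_apply, smul_apply, h.anti, smul_neg, smul_comm s I]
    · rw [Pi.smul_apply, norm_smul, Real.norm_of_nonneg hs.1]
      exact (mul_le_of_le_one_left (norm_nonneg _) hs.2).trans (h.le q)
    · rw [iteratedFDeriv_const_smul_apply (h.smooth.contDiffAt.of_le (mod_cast le_top)), norm_smul,
        Real.norm_of_nonneg hs.1]
      exact (mul_le_of_le_one_left (norm_nonneg _) hs.2).trans (h.bd k hk q)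
  · intro A a M R h q hq
    have h1 : swL * A (sw (sw q)) * swL = 0 := h.2.supp (sw q) hq
    rw [swsw] at h1
    calc A q = swL * (swL * A q * swL) * swL := by
          rw [← mul_assoc, ← mul_assoc, swL_mul, one_mul, mul_assoc, swL_mul, mul_one]
      _ = 0 := by rw [h1, mul_zero, zero_mul]
  · intro A x w h z
    rw [(del_sw w z).1, (del_sw w z).2, h.eq z]
    exact swsw _
  · refine le_of_sq_le_sq ?_ (by positivity)
    have := nsq (mk a b)
    have e0 : mk a b 0 = a := rfl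
    have e1 : mk a b 1 = b := rfl
    rw [this, e0, e1]; linarith only [mul_nonneg (norm_nonneg a) (norm_nonneg b)]
  · refine le_of_sq_le_sq ?_ (by positivity)
    have h1 : ‖det2 x y‖ ≤ ‖x 0‖ * ‖y 1‖ + ‖x 1‖ * ‖y 0‖ := by
      rw [← norm_mul, ← norm_mul]; exact norm_sub_le _ _
    have h2 := pow_le_pow_left₀ (norm_nonneg _) h1 2
    rw [mul_pow, nsq x, nsq y]
    linarith only [sq_nonneg (‖x 0‖ * ‖y 0‖ - ‖x 1‖ * ‖y 1‖), h2]
  · have e : (fun z => mk z y) = fun z : ℂ => z • mk 1 0 + mk 0 y := funext fun z => mk_eq z y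
    have h : ∀ z, HasDerivAt (fun z => mk z y) (mk 1 0) z := fun z => by
      rw [e]
      simpa using ((hasDerivAt_id z).smul_const (mk 1 0)).add_const (mk 0 y)
    refine ⟨?_, fun z => (dbar_of_hasDerivAt (h z)).1, fun z => (dbar_of_hasDerivAt (h z)).2⟩
    rw [e]
    exact (contDiff_id.smul contDiff_const).add contDiff_const

end

end Pool.Agent.MP_be5fd0_gt.T

namespace Pool.Agent.MP_be5fd0_gt.T

open Complex Filter Topology Set Metric MeasureTheory
open scoped ContDiff BoundedContinuousFunction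

noncomputable section

namespace Rr'

/-- uniformly bounded and Lipschitz families -/
def BL (a M R : ℝ) {X : Type} [NormedAddCommGroup X] (G : (E → Op) → E → X) : Prop :=
  ∃ K : ℝ, 0 ≤ K ∧ ∀ A, Fld A a M R →
    (∀ q, ‖G A q‖ ≤ K) ∧ ∀ q q', ‖G A q - G A q'‖ ≤ K * ‖q - q'‖

def UL (a M R : ℝ) {X : Type} [NormedAddCommGroup X] (F : (E → Op) → E → E → X) : Prop :=
  ∃ K : ℝ, 0 ≤ K ∧ ∀ A, Fld A a M R → (∀ q η, ‖F A q η‖ ≤ K * ‖η‖) ∧
    ∀ q q' η η', ‖F A q η - F A q' η'‖ ≤ K * (‖η‖ * ‖q - q'‖ + ‖η - η'‖)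

variable {a M R : ℝ} {X Y Z : Type} [NormedAddCommGroup X] [NormedAddCommGroup Y]
  [NormedAddCommGroup Z]

theorem UL.bil {G : (E → Op) → E → X} {F : (E → Op) → E → E → Y} (hG : BL a M R G)
    (hF : UL a M R F) (b : X → Y → Z) (h1 : ∀ x x' y, b (x - x') y = b x y - b x' y)
    (h2 : ∀ x y y', b x (y - y') = b x y - b x y') (h3 : ∀ x y, ‖b x y‖ ≤ ‖x‖ * ‖y‖) :
    UL a M R (fun A q η => b (G A q) (F A q η)) := by
  obtain ⟨K, hK, hG⟩ := hG
  obtain ⟨L, hL, hF⟩ := hF
  refine ⟨2 * (K * L), by positivity, fun A hA => ⟨fun q η => ?_, fun q q' η η' => ?_⟩⟩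
  · have h4 := mul_le_mul ((hG A hA).1 q) ((hF A hA).1 q η) (norm_nonneg _) hK
    have h5 : 0 ≤ K * (L * ‖η‖) := by positivity
    linarith [h3 (G A q) (F A q η)]
  · have e : b (G A q) (F A q η) - b (G A q') (F A q' η') =
        b (G A q - G A q') (F A q η) + b (G A q') (F A q η - F A q' η') := by
      rw [h1, h2]; abel
    have h4 := mul_le_mul ((hG A hA).2 q q') ((hF A hA).1 q η) (norm_nonneg _) (by positivity)
    have h5 := mul_le_mul ((hG A hA).1 q') ((hF A hA).2 q q' η η') (norm_nonneg _) hK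
    have h6 : 0 ≤ K * L * ‖η - η'‖ := by positivity
    rw [e]
    refine (norm_add_le _ _).trans ?_
    linarith [h3 (G A q - G A q') (F A q η), h3 (G A q') (F A q η - F A q' η')]

theorem UL.lin {F : (E → Op) → E → E → Y} (hF : UL a M R F) (b : Y → Z)
    (h2 : ∀ y y', b (y - y') = b y - b y') (h3 : ∀ y, ‖b y‖ ≤ ‖y‖) :
    UL a M R (fun A q η => b (F A q η)) := by
  obtain ⟨L, hL, hF⟩ := hF
  refine ⟨L, hL, fun A hA => ⟨fun q η => (h3 _).trans ((hF A hA).1 q η), fun q q' η η' => ?_⟩⟩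
  rw [← h2]
  exact (h3 _).trans ((hF A hA).2 q q' η η')

theorem UL.add {F F' : (E → Op) → E → E → Y} (hF : UL a M R F) (hF' : UL a M R F') :
    UL a M R (fun A q η => F A q η + F' A q η) := by
  obtain ⟨K, hK, hG⟩ := hF
  obtain ⟨L, hL, hF⟩ := hF'
  refine ⟨K + L, by positivity, fun A hA => ⟨fun q η => ?_, fun q q' η η' => ?_⟩⟩
  · refine (norm_add_le _ _).trans ?_
    linarith [(hG A hA).1 q η, (hF A hA).1 q η]
  · rw [add_sub_add_comm]
    refine (norm_add_le _ _).trans ?_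
    linarith [(hG A hA).2 q q' η η', (hF A hA).2 q q' η η']

theorem UL.sub {F F' : (E → Op) → E → E → Y} (hF : UL a M R F) (hF' : UL a M R F') :
    UL a M R (fun A q η => F A q η - F' A q η) := by
  simpa only [sub_eq_add_neg] using
    hF.add (hF'.lin (fun y => -y) (fun y y' => by abel) fun y => (norm_neg y).le)

theorem UL.id : UL a M R (fun _ _ η => η) :=
  ⟨1, zero_le_one, fun _ _ => ⟨fun _ _ => by simp, fun q q' η η' => by
    have : 0 ≤ ‖η‖ * ‖q - q'‖ := by positivity
    linarith⟩⟩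

theorem UL.smul [NormedSpace ℂ Y] {F : (E → Op) → E → E → Y} (hF : UL a M R F) (c : ℂ)
    (hc : ‖c‖ ≤ 1) : UL a M R (fun A q η => c • F A q η) :=
  hF.lin (fun y => c • y) (fun y y' => smul_sub c y y') fun y => by
    rw [norm_smul]; exact mul_le_of_le_one_left (norm_nonneg _) hc

theorem lip_of [NormedSpace ℝ X] {f : E → X} {K : ℝ} (hf : Differentiable ℝ f)
    (h : ∀ q, ‖fderiv ℝ f q‖ ≤ K) (q q' : E) : ‖f q - f q'‖ ≤ K * ‖q - q'‖ :=
  convex_univ.norm_image_sub_le_of_norm_fderiv_le (fun x _ => hf x) (fun x _ => h x)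
    (mem_univ _) (mem_univ _)

theorem dA_smooth {A : E → Op} (h : Fld A a M R) : ContDiff ℝ ∞ (fderiv ℝ A) :=
  h.smooth.fderiv_right (by simp)

theorem bl_A : BL a M R (fun A q => A q) := by
  refine ⟨|M|, abs_nonneg _, fun A hA => ⟨fun q => ?_, lip_of (hA.smooth.differentiable (by simp))
    fun q => ?_⟩⟩
  · have := hA.bd 0 (by norm_num) q
    rw [norm_iteratedFDeriv_zero] at this
    exact this.trans (le_abs_self _)
  · have := hA.bd 1 (by norm_num) q
    rw [norm_iteratedFDeriv_one] at this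
    exact this.trans (le_abs_self _)

theorem bl_D : BL a M R (fun A q => fderiv ℝ A q) := by
  refine ⟨|M|, abs_nonneg _, fun A hA => ⟨fun q => ?_,
    lip_of ((dA_smooth hA).differentiable (by simp)) fun q => ?_⟩⟩
  · have := hA.bd 1 (by norm_num) q
    rw [norm_iteratedFDeriv_one] at this
    exact this.trans (le_abs_self _)
  · have := hA.bd (1 + 1) (by norm_num) q
    rw [← norm_iteratedFDeriv_fderiv, norm_iteratedFDeriv_one] at this
    exact this.trans (le_abs_self _)

theorem bl_P : BL a M R (fun A q => 1 + A q) := by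
  obtain ⟨K, hK, h⟩ := bl_A (a := a) (M := M) (R := R)
  refine ⟨1 + K, by positivity, fun A hA => ⟨fun q => ?_, fun q q' => ?_⟩⟩
  · refine (norm_add_le _ _).trans ?_
    have h1 : ‖(1 : Op)‖ ≤ 1 := ContinuousLinearMap.norm_id_le
    linarith [(h A hA).1 q]
  · rw [add_sub_add_left_eq_sub]
    linarith [(h A hA).2 q q', norm_nonneg (q - q')]

theorem inv_le {x : Op} {c : ℝ} (hx : ‖x‖ ≤ c) (hc : c < 1) :
    IsUnit (1 - x) ∧ ‖Ring.inverse (1 - x)‖ ≤ (1 - c)⁻¹ := by
  have hu : IsUnit (1 - x) := isUnit_one_sub_of_norm_lt_one (hx.trans_lt hc)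
  refine ⟨hu, ?_⟩
  have h1 := Ring.mul_inverse_cancel _ hu
  generalize Ring.inverse (1 - x) = y at h1
  have h2 : y = 1 + x * y := by rw [← h1, sub_mul, one_mul, sub_add_cancel]
  have h3 : ‖(1 : Op)‖ ≤ 1 := ContinuousLinearMap.norm_id_le
  have h4 : ‖y‖ ≤ 1 + c * ‖y‖ := by
    calc ‖y‖ = ‖1 + x * y‖ := congrArg _ h2
      _ ≤ ‖(1 : Op)‖ + ‖x‖ * ‖y‖ := (norm_add_le _ _).trans (by gcongr; exact norm_mul_le _ _)
      _ ≤ 1 + c * ‖y‖ := by gcongr
  rw [inv_eq_one_div, le_div_iff₀ (by linarith only [hc])]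
  linarith only [h4]

theorem bl_inv {G : (E → Op) → E → Op} (hG : BL a M R G)
    (h : ∀ A, Fld A a M R → ∀ q, ‖G A q‖ ≤ a) :
    BL a M R (fun A q => Ring.inverse (1 - G A q)) := by
  obtain ⟨K, hK, hG⟩ := hG
  refine ⟨|(1 - a)⁻¹| + |(1 - a)⁻¹| * K * |(1 - a)⁻¹|, by positivity,
    fun A hA => ⟨fun q => ?_, fun q q' => ?_⟩⟩
  · have h0 : 0 ≤ |(1 - a)⁻¹| * K * |(1 - a)⁻¹| := by positivity
    linarith [(inv_le (h A hA q) hA.a1).2, le_abs_self (1 - a)⁻¹]
  · obtain ⟨u1, b1⟩ := inv_le (h A hA q) hA.a1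
    obtain ⟨u2, b2⟩ := inv_le (h A hA q') hA.a1
    have e1 := Ring.inverse_mul_cancel _ u1
    have e2 := Ring.mul_inverse_cancel _ u2
    have h5 := (hG A hA).2 q q'
    replace b1 := b1.trans (le_abs_self _)
    replace b2 := b2.trans (le_abs_self _)
    change ‖Ring.inverse (1 - G A q) - Ring.inverse (1 - G A q')‖ ≤ _
    generalize Ring.inverse (1 - G A q) = y at e1 b1
    generalize Ring.inverse (1 - G A q') = y' at e2 b2
    have e : y - y' = y * (G A q - G A q') * y' := by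
      have : G A q - G A q' = (1 - G A q') - (1 - G A q) := by abel
      rw [this, mul_sub y, e1, sub_mul, mul_assoc, e2, mul_one, one_mul]
    have h6 : ‖y * (G A q - G A q') * y'‖ ≤ |(1 - a)⁻¹| * (K * ‖q - q'‖) * |(1 - a)⁻¹| :=
      (norm_mul_le _ _).trans (mul_le_mul ((norm_mul_le _ _).trans
        (mul_le_mul b1 h5 (norm_nonneg _) (abs_nonneg _))) b2 (norm_nonneg _) (by positivity))
    have h0 : 0 ≤ |(1 - a)⁻¹| * ‖q - q'‖ := by positivity
    rw [e]
    linarith only [h6, h0]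

theorem sq_le {A : E → Op} (hA : Fld A a M R) (q : E) : ‖A q * A q‖ ≤ a :=
  (norm_mul_le _ _).trans ((mul_le_mul (hA.le q) ((hA.le q).trans hA.a1.le) (norm_nonneg _)
    hA.a0).trans (mul_one a).le)

theorem bl_sq : BL a M R (fun A q => A q * A q) := by
  obtain ⟨K, hK, h⟩ := bl_A (a := a) (M := M) (R := R)
  refine ⟨K * K + K * K, by positivity, fun A hA => ⟨fun q => ?_, fun q q' => ?_⟩⟩
  · have h0 : 0 ≤ K * K := by positivity
    linarith [(norm_mul_le (A q) (A q)).trans
      (mul_le_mul ((h A hA).1 q) ((h A hA).1 q) (norm_nonneg _) hK)]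
  · have e : A q * A q - A q' * A q' = A q * (A q - A q') + (A q - A q') * A q' := by
      rw [mul_sub, sub_mul]; abel
    have h1 := (norm_mul_le (A q) (A q - A q')).trans
      (mul_le_mul ((h A hA).1 q) ((h A hA).2 q q') (norm_nonneg _) hK)
    have h2 := (norm_mul_le (A q - A q') (A q')).trans
      (mul_le_mul ((h A hA).2 q q') ((h A hA).1 q') (norm_nonneg _) (by positivity))
    change ‖A q * A q - A q' * A q'‖ ≤ _
    rw [e]
    refine (norm_add_le _ _).trans ?_
    linarith only [h1, h2]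

theorem bl_N : BL a M R (fun A q => Ring.inverse (1 - A q * A q)) :=
  bl_inv bl_sq fun _ hA q => sq_le hA q

theorem bl_Ph : BL a M R (fun A q => Ph A q) := by
  obtain ⟨K, hK, h⟩ := bl_A (a := a) (M := M) (R := R)
  have h1 : BL a M R (fun A q => -A q) := ⟨K, hK, fun A hA =>
    ⟨fun q => by rw [norm_neg]; exact (h A hA).1 q, fun q q' => by
      rw [neg_sub_neg, norm_sub_rev]; exact (h A hA).2 q q'⟩⟩
  simpa only [sub_neg_eq_add, Ph] using
    bl_inv h1 fun A hA q => by rw [norm_neg]; exact hA.le q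

theorem ul_mul {G : (E → Op) → E → Op} {F : (E → Op) → E → E → Op} (hG : BL a M R G)
    (hF : UL a M R F) : UL a M R (fun A q η => G A q * F A q η) :=
  hF.bil hG (fun x y => x * y) (fun x x' y => sub_mul x x' y) (fun x y y' => mul_sub x y y')
    fun x y => norm_mul_le x y

theorem ul_app [NormedSpace ℝ Y] {G : (E → Op) → E → E →L[ℝ] Y} {F : (E → Op) → E → E → E}
    (hG : BL a M R G) (hF : UL a M R F) : UL a M R (fun A q η => G A q (F A q η)) :=
  hF.bil hG (fun x y => x y) (fun _ _ _ => rfl) (fun x y y' => map_sub x y y')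
    fun x y => x.le_opNorm y

theorem ul_Rr : UL a M R (fun A q η => Rr A q η) := by
  have s1 : UL a M R (fun A q η => fderiv ℝ A q ((1 + A q) η)) :=
    ul_app bl_D (ul_app bl_P UL.id)
  have s2 : UL a M R (fun A q η => I • fderiv ℝ A q ((1 + A q) (I • η))) :=
    (ul_app bl_D (ul_app bl_P (UL.id.smul I (by simp)))).smul I (by simp)
  have s3 : UL a M R (fun A q η => (fderiv ℝ A q).flip η) :=
    UL.id.bil bl_D (fun (x : E →L[ℝ] Op) (y : E) => x.flip y) (fun _ _ _ => rfl)
      (fun x y y' => map_sub x.flip y y')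
      fun x y => by simpa only [ContinuousLinearMap.opNorm_flip] using x.flip.le_opNorm y
  have s4 : UL a M R (fun A q η => (fderiv ℝ A q).flip η * (1 + A q)) :=
    s3.bil bl_P (fun (x : Op) (y : Op) => y * x) (fun x x' y => mul_sub y x x')
      (fun x y y' => sub_mul y y' x) fun x y => by rw [mul_comm ‖x‖]; exact norm_mul_le y x
  have hh : ‖(1 / 2 : ℂ)‖ ≤ 1 := by simp; norm_num
  exact ul_mul bl_N ((s4.sub ((s1.add s2).smul _ hh)).add (ul_mul bl_A ((s1.sub s2).smul _ hh)))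

theorem anti_smul {x : Op} (h : ∀ w, x (I • w) = -(I • x w)) (c : ℂ) (w : E) :
    x (c • w) = (starRingEnd ℂ c) • x w := by
  have h1 : c • w = c.re • w + c.im • (I • w) := by
    conv_lhs => rw [← re_add_im c]
    rw [add_smul, mul_smul, ofReal_smul', ofReal_smul']
  have h2 : starRingEnd ℂ c = (c.re : ℂ) - (c.im : ℂ) * I := by
    apply Complex.ext <;> simp
  rw [h1, map_add, map_smul, map_smul, h, h2, sub_smul, mul_smul, ofReal_smul', ofReal_smul',
    smul_neg, sub_eq_add_neg]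

theorem dA_anti {A : E → Op} (hA : Fld A a M R) (q v w : E) :
    fderiv ℝ A q v (I • w) = -(I • fderiv ℝ A q v w) := by
  have hd := (hA.smooth.differentiable (by simp) q).hasFDerivAt
  have h1 := (ContinuousLinearMap.apply ℝ E (I • w)).hasFDerivAt.comp q hd
  have h2 := (((ContinuousLinearMap.apply ℝ E w).hasFDerivAt.comp q hd).const_smul I).neg
  have e : (⇑(ContinuousLinearMap.apply ℝ E (I • w)) ∘ A) =
      -(I • (⇑(ContinuousLinearMap.apply ℝ E w) ∘ A)) := funext fun p => hA.anti p w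
  rw [e] at h1
  exact DFunLike.congr_fun (h1.unique h2) v

theorem N_lin {x : Op} (h : ∀ w, x (I • w) = -(I • x w)) (hu : IsUnit (1 - x * x)) (w : E) :
    Ring.inverse (1 - x * x) (I • w) = I • Ring.inverse (1 - x * x) w := by
  have e1 := Ring.inverse_mul_cancel _ hu
  have e2 := Ring.mul_inverse_cancel _ hu
  generalize Ring.inverse (1 - x * x) = y at e1 e2
  have h1 : (1 - x * x) (I • y w) = I • ((1 - x * x) * y) w := by
    change I • y w - x (x (I • y w)) = I • (y w - x (x (y w)))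
    rw [h, map_neg, h, neg_neg, smul_sub]
  rw [e2] at h1
  change _ = I • w at h1
  rw [← h1]
  change (y * (1 - x * x)) (I • y w) = _
  rw [e1]; rfl

theorem inv_smooth {G : E → Op} (hG : ContDiff ℝ ∞ G) (h : ∀ q, IsUnit (G q)) :
    ContDiff ℝ ∞ (fun q => Ring.inverse (G q)) := by
  refine contDiff_iff_contDiffAt.2 fun q => ?_
  obtain ⟨u, hu⟩ := h q
  have h1 := contDiffAt_ringInverse ℝ (n := ∞) u
  rw [hu] at h1
  exact h1.comp q hG.contDiffAt

theorem Rr_apply (A : E → Op) (q η ξ : E) : Rr A q η ξ = Ring.inverse (1 - A q * A q)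
    (fderiv ℝ A q ((1 + A q) ξ) η -
      (1 / 2 : ℂ) • (fderiv ℝ A q ((1 + A q) η) ξ + I • fderiv ℝ A q ((1 + A q) (I • η)) ξ) +
      A q ((1 / 2 : ℂ) • (fderiv ℝ A q ((1 + A q) η) ξ -
        I • fderiv ℝ A q ((1 + A q) (I • η)) ξ))) := rfl

theorem half_conj : starRingEnd ℂ (1 / 2 : ℂ) = 1 / 2 := by
  rw [map_div₀, map_one, map_ofNat]

theorem fd_eq {A : E → Op} (hA : Fld A a M R) (u : ℂ → E) (z : ℂ)
    (h : dbar u z = A (u z) (del u z)) (ζ : ℂ) :
    fderiv ℝ u z ζ = (1 + A (u z)) (ζ • del u z) := by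
  rw [fderiv_eq_del, h, ← anti_smul (hA.anti _)]; rfl

theorem Rr_smooth {A : E → Op} (hA : Fld A a M R) :
    ContDiff ℝ ∞ (fun p : E × E => Rr A p.1 p.2) := by
  have hN : ContDiff ℝ ∞ (fun q => Ring.inverse (1 - A q * A q)) :=
    inv_smooth (contDiff_const.sub (hA.smooth.mul hA.smooth))
      fun q => (inv_le (sq_le hA q) hA.a1).1
  have h0 : ContDiff ℝ ∞ (fun p : E × E => A p.1) := hA.smooth.comp contDiff_fst
  have hP : ContDiff ℝ ∞ (fun p : E × E => 1 + A p.1) := contDiff_const.add h0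
  have hD : ContDiff ℝ ∞ (fun p : E × E => fderiv ℝ A p.1) := (dA_smooth hA).comp contDiff_fst
  have s1 : ContDiff ℝ ∞ (fun p : E × E => fderiv ℝ A p.1 ((1 + A p.1) p.2)) :=
    hD.clm_apply (hP.clm_apply contDiff_snd)
  have s2 : ContDiff ℝ ∞ (fun p : E × E => I • fderiv ℝ A p.1 ((1 + A p.1) (I • p.2))) :=
    (hD.clm_apply (hP.clm_apply (contDiff_snd.const_smul I))).const_smul I
  have s0 : ContDiff ℝ ∞ (fun x : E →L[ℝ] E →L[ℝ] E => x.flip) :=
    IsBoundedLinearMap.contDiff ⟨⟨fun x y => ContinuousLinearMap.flip_add x y,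
      fun c x => ContinuousLinearMap.flip_smul c x⟩, 1, one_pos, fun x => by
        rw [ContinuousLinearMap.opNorm_flip, one_mul]⟩
  have s3 : ContDiff ℝ ∞ (fun p : E × E => (fderiv ℝ A p.1).flip p.2) :=
    (s0.comp hD).clm_apply contDiff_snd
  exact (hN.comp contDiff_fst).mul (((s3.mul hP).sub ((s1.add s2).const_smul _)).add
    (h0.mul ((s1.sub s2).const_smul _)))

theorem dA_zero {A : E → Op} (hA : Fld A a M R) (q : E) (hq : R ≤ ‖q 0‖) : fderiv ℝ A q = 0 := by
  have hc : Continuous fun p : E => ‖p 0‖ := by fun_prop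
  have h1 : ∀ p : E, R < ‖p 0‖ → fderiv ℝ A p = 0 := fun p hp => by
    have : A =ᶠ[𝓝 p] fun _ => 0 := by
      filter_upwards [(isOpen_lt continuous_const hc).mem_nhds hp] with x hx using hA.supp x hx.le
    rw [this.fderiv_eq, fderiv_const_apply]
  have h2 : Continuous fun t : ℝ => fderiv ℝ A (t • q) :=
    (dA_smooth hA).continuous.comp (continuous_id.smul continuous_const)
  have h3 : Tendsto (fun t : ℝ => fderiv ℝ A (t • q)) (𝓝[>] 1) (𝓝 (fderiv ℝ A q)) := by
    have := h2.tendsto 1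
    rw [one_smul] at this
    exact this.mono_left nhdsWithin_le_nhds
  refine tendsto_nhds_unique h3 (tendsto_const_nhds.congr' ?_)
  filter_upwards [self_mem_nhdsWithin] with t ht
  refine (h1 _ ?_).symm
  have ht' : (1 : ℝ) < t := ht
  have : ‖(t • q) 0‖ = t * ‖q 0‖ := by
    rw [PiLp.smul_apply, norm_smul, Real.norm_of_nonneg (by linarith)]
  rw [this]
  nlinarith only [hA.R0, hq, ht']

end Rr'

open Rr' in
theorem thRr : StRr := by
  intro a M R
  obtain ⟨K1, k1, h1⟩ := bl_Ph (a := a) (M := M) (R := R)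
  obtain ⟨K2, k2, h2⟩ := bl_N (a := a) (M := M) (R := R)
  obtain ⟨K3, k3, h3⟩ := ul_Rr (a := a) (M := M) (R := R)
  refine ⟨K1 + K2 + K3 + 1, by positivity, fun A hA => ?_⟩
  have c1 : K1 ≤ K1 + K2 + K3 + 1 := by linarith
  have c2 : K2 ≤ K1 + K2 + K3 + 1 := by linarith
  have c3 : K3 ≤ K1 + K2 + K3 + 1 := by linarith
  have uP : ∀ q, IsUnit (1 + A q) := fun q => by
    simpa only [sub_neg_eq_add] using
      (inv_le (x := -A q) (by rw [norm_neg]; exact hA.le q) hA.a1).1
  have uN : ∀ q, IsUnit (1 - A q * A q) := fun q => (inv_le (sq_le hA q) hA.a1).1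
  refine ⟨fun q => ⟨Ring.mul_inverse_cancel _ (uP q), Ring.inverse_mul_cancel _ (uP q),
      ((h1 A hA).1 q).trans c1, ?_, uN q, ((h2 A hA).1 q).trans c2, N_lin (hA.anti q) (uN q)⟩,
    inv_smooth (contDiff_const.add hA.smooth) uP,
    inv_smooth (contDiff_const.sub (hA.smooth.mul hA.smooth)) uN, Rr_smooth hA,
    fun q q' => ((h2 A hA).2 q q').trans (by gcongr),
    fun q η => ((h3 A hA).1 q η).trans (by gcongr),
    fun q q' η η' => ((h3 A hA).2 q q' η η').trans (by gcongr), fun q η => ?_,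
    fun q hq => ⟨dA_zero hA q hq, fun η => ?_⟩, fun u z h => fd_eq hA u z h,
    fun u ξ z hu hξ h => ?_⟩
  · exact (norm_fderiv_le_of_lip' ℝ k1 (Eventually.of_forall fun x => (h1 A hA).2 x q)).trans c1
  · rw [Rr_apply, Rr_apply, ← N_lin (hA.anti q) (uN q)]
    congr 1
    have ha := anti_smul (hA.anti q)
    simp only [dA_anti hA]
    generalize fderiv ℝ A q ((1 + A q) η) η = x
    generalize fderiv ℝ A q ((1 + A q) (I • η)) η = y
    simp only [ha, map_sub, map_neg, half_conj, conj_I]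
    generalize A q x = x'
    generalize A q y = y'
    match_scalars <;> ring_nf <;> simp only [I_sq] <;> norm_num
  · refine ContinuousLinearMap.ext fun ξ => ?_
    rw [Rr_apply, dA_zero hA q hq]
    simp only [add_apply, one_apply_eq_self, zero_apply, one_div, smul_zero, add_zero, sub_self, map_zero]
  · have hd := (hA.smooth.differentiable (by simp) (u z)).hasFDerivAt.comp z hu.hasFDerivAt
    have hx := ((hd.const_add 1).clm_apply hξ.hasFDerivAt).fderiv
    have hx' : ∀ ζ, fderiv ℝ (fun w => (1 + A (u w)) (ξ w)) z ζ =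
        fderiv ℝ ξ z ζ + A (u z) (fderiv ℝ ξ z ζ) +
          fderiv ℝ A (u z) ((1 + A (u z)) (ζ • del u z)) (ξ z) := fun ζ => by
      rw [← fd_eq hA u z h]
      exact DFunLike.congr_fun hx ζ
    have e : ∀ w, (1 - A (u z) * A (u z)) (Ring.inverse (1 - A (u z) * A (u z)) w) = w :=
      fun w => DFunLike.congr_fun (Ring.mul_inverse_cancel _ (uN (u z))) w
    have ha := anti_smul (hA.anti (u z))
    have e' : ∀ w, (1 - A (u z) * A (u z)) w = w - A (u z) (A (u z) w) := fun w => rfl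
    rw [map_sub (1 - A (u z) * A (u z)), Rr_apply, e, e']
    generalize del u z = η at hx' ⊢
    simp only [del, dbar, hx', one_smul]
    generalize fderiv ℝ A (u z) ((1 + A (u z)) η) (ξ z) = x
    generalize fderiv ℝ A (u z) ((1 + A (u z)) (I • η)) (ξ z) = y
    simp only [ha, map_sub, map_add, map_neg, half_conj, conj_I, neg_smul]
    module

end

end Pool.Agent.MP_be5fd0_gt.T

/-! Interpolation inequality and the trivial planes. -/

namespace Pool.Agent.MP_be5fd0_gt.T

open Complex Filter Topology Set Metric MeasureTheory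
open scoped ContDiff BoundedContinuousFunction

namespace Int'

theorem taylor {u : ℂ → E} {C : ℝ} (hC : 0 ≤ C) (hu : Differentiable ℝ u)
    (h : ∀ z w, ‖fderiv ℝ u z - fderiv ℝ u w‖ ≤ C * ‖z - w‖) (z ζ : ℂ) :
    ‖u (z + ζ) - u z - fderiv ℝ u z ζ‖ ≤ C * ‖ζ‖ * ‖ζ‖ := by
  have key := (convex_closedBall z ‖ζ‖).norm_image_sub_le_of_norm_fderiv_le' (𝕜 := ℝ)
    (f := u) (φ := fderiv ℝ u z) (C := C * ‖ζ‖) (x := z) (y := z + ζ) (fun x _ => hu x)
    (fun x hx => (h x z).trans (mul_le_mul_of_nonneg_left (mem_closedBall_iff_norm.1 hx) hC))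
    (mem_closedBall_self (norm_nonneg _)) (by simp)
  rwa [add_sub_cancel_left] at key

end Int'

theorem thInt : StInt := by
  intro C ε hε
  have hK : 0 < |C| + 1 := by positivity
  obtain ⟨t, ht, ht'⟩ : ∃ t : ℝ, 0 < t ∧ 4 * (|C| + 1) * t = ε :=
    ⟨ε / (4 * (|C| + 1)), by positivity, by field_simp⟩
  refine ⟨ε * t / 4, by positivity, fun u u' hu hu' h h' hd z => ?_⟩
  have w : ∀ {v : ℂ → E}, (∀ z w, ‖fderiv ℝ v z - fderiv ℝ v w‖ ≤ C * ‖z - w‖) →
      ∀ z w, ‖fderiv ℝ v z - fderiv ℝ v w‖ ≤ (|C| + 1) * ‖z - w‖ := fun hv z w =>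
    (hv z w).trans (mul_le_mul_of_nonneg_right (by linarith [le_abs_self C]) (norm_nonneg _))
  have key : ‖fderiv ℝ u z - fderiv ℝ u' z‖ ≤ ε := by
    refine ContinuousLinearMap.opNorm_le_of_unit_norm hε.le fun ζ hζ => ?_
    have n : ‖t • ζ‖ = t := by rw [norm_smul, hζ, mul_one, Real.norm_of_nonneg ht.le]
    have a1 := Int'.taylor hK.le (hu.differentiable one_ne_zero) (w h) z (t • ζ)
    have a2 := Int'.taylor hK.le (hu'.differentiable one_ne_zero) (w h') z (t • ζ)
    rw [n] at a1 a2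
    have e : t • (fderiv ℝ u z - fderiv ℝ u' z) ζ =
        (u (z + t • ζ) - u' (z + t • ζ)) - (u z - u' z) -
          (u (z + t • ζ) - u z - fderiv ℝ u z (t • ζ)) +
          (u' (z + t • ζ) - u' z - fderiv ℝ u' z (t • ζ)) := by
      rw [map_smul, map_smul, sub_apply, smul_sub]; abel
    have b : ‖t • (fderiv ℝ u z - fderiv ℝ u' z) ζ‖ ≤ _ :=
      e ▸ (norm_add_le _ _).trans (add_le_add ((norm_sub_le _ _).trans
        (add_le_add ((norm_sub_le _ _).trans (add_le_add (hd _) (hd _))) a1)) a2)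
    rw [norm_smul, Real.norm_of_nonneg ht.le] at b
    refine le_of_mul_le_mul_left (b.trans (le_of_eq ?_)) ht
    rw [← ht']
    ring
  exact ⟨key, (norm_del_sub_le u u' z z).trans key⟩

theorem thTriv (h3 : StT3) (hSw : StSw) (hAp : StAp) : StTriv := by
  obtain ⟨-, -, -, -, -, -, -, -, hs, -, -, -, hco, -, hmk⟩ := hSw
  have t1 : ∀ A y u, Sol A y u → (∀ z, A (u z) = 0) → u = fun z => mk z y := fun A y u hu h0 => by
    have c1 : ContDiff ℝ 1 fun z => mk z y := (hmk y).1.of_le (by simp)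
    have e : dbar (fun z => u z - mk z y) = fun _ => 0 := funext fun z => by
      rw [(del_sub (hu.c1.differentiable one_ne_zero z) (c1.differentiable one_ne_zero z)).2,
        hu.eq, h0, (hmk y).2.2, sub_zero]
      rfl
    funext z
    have := h3 E (fun z => u z - mk z y) 0 0 (hu.c1.sub c1) hu.asy (fun z _ => congrFun e z) z
    rw [e, cT_zero, add_zero] at this
    exact sub_eq_zero.1 this
  refine ⟨t1, fun A y h0 => ⟨(hmk y).1.of_le (by simp), fun z => ?_, ?_⟩, fun a M R => ?_⟩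
  · rw [(hmk y).2.2, h0]
    rfl
  · simp only [sub_self]
    exact tendsto_const_nhds
  · obtain ⟨C, hC, hA⟩ := hAp a M R
    refine ⟨|R| + 2 * C, by positivity, fun A y u hF hu h => t1 A y u hu fun z => ?_⟩
    have b : ∀ z, ‖u z 1 - y‖ ≤ C := fun z => by
      have b1 := (hco _ 1).trans ((hA A y u hF.1 hu).b0 z)
      have e : (u z - mk z y) 1 = u z 1 - y := by simp [mk]
      rwa [e] at b1
    have b1 := norm_sub_norm_le y (u z 1)
    rw [norm_sub_rev] at b1
    have b2 := le_abs_self R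
    refine hs A a M R hF _ ?_
    rcases h with h | ⟨w, h⟩
    · linarith [b z]
    · linarith [b z, b w, norm_sub_norm_le (u w 1) y]

end Pool.Agent.MP_be5fd0_gt.T

namespace Pool.Agent.MP_be5fd0_gt.T

open Complex Filter Topology Set Metric MeasureTheory
open scoped ContDiff BoundedContinuousFunction

namespace Cpt'

/-- uniformly Cauchy sequences of functions on the plane -/
def UC {V : Type} [NormedAddCommGroup V] (f : ℕ → ℂ → V) : Prop :=
  ∀ ε : ℝ, 0 < ε → ∃ N : ℕ, ∀ m, N ≤ m → ∀ n, N ≤ n → ∀ z, ‖f m z - f n z‖ ≤ ε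

theorem UC.lim {V : Type} [NormedAddCommGroup V] [CompleteSpace V] {f : ℕ → ℂ → V} (h : UC f) :
    ∃ g : ℂ → V, TendstoUniformly f g atTop := by
  have hc : ∀ z, ∃ b, Tendsto (fun n => f n z) atTop (𝓝 b) := by
    intro z
    apply cauchySeq_tendsto_of_complete
    rw [Metric.cauchySeq_iff]
    intro ε hε
    obtain ⟨N, hN⟩ := h (ε / 2) (half_pos hε)
    refine ⟨N, fun m hm n hn => ?_⟩
    rw [dist_eq_norm]
    exact (hN m hm n hn z).trans_lt (half_lt_self hε)
  choose g hg using hc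
  refine ⟨g, Metric.tendstoUniformly_iff.2 fun ε hε => ?_⟩
  obtain ⟨N, hN⟩ := h (ε / 2) (half_pos hε)
  filter_upwards [eventually_ge_atTop N] with n hn z
  have h1 : Tendsto (fun m => ‖f m z - f n z‖) atTop (𝓝 ‖g z - f n z‖) :=
    ((hg z).sub_const _).norm
  have h2 : ‖g z - f n z‖ ≤ ε / 2 :=
    le_of_tendsto h1 ((eventually_ge_atTop N).mono fun m hm => hN m hm n hn z)
  rw [dist_eq_norm]
  exact h2.trans_lt (half_lt_self hε)

/-- Arzela-Ascoli for equi-Lipschitz functions with uniform decay -/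
theorem aa (v : ℕ → ℂ → E) (C L : ℝ) (hC : 0 < C) (hL : 0 < L) (hb : ∀ n z, ‖v n z‖ ≤ C)
    (hd : ∀ n z, ‖z‖ * ‖v n z‖ ≤ C) (hl : ∀ n z w, ‖v n z - v n w‖ ≤ L * ‖z - w‖) :
    ∃ φ : ℕ → ℕ, StrictMono φ ∧ UC (fun n => v (φ n)) := by
  let D : ℕ → ℂ := TopologicalSpace.denseSeq ℂ
  have hD : DenseRange D := TopologicalSpace.denseRange_denseSeq ℂ
  have hK : IsCompact (Set.pi univ fun _ : ℕ => closedBall (0 : E) C) :=
    isCompact_univ_pi fun _ => isCompact_closedBall _ _
  obtain ⟨g, -, φ, hφ, hg⟩ := hK.tendsto_subseq (x := fun n k => v n (D k))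
    (fun n k _ => by simpa using hb n (D k))
  have hg' : ∀ k, Tendsto (fun n => v (φ n) (D k)) atTop (𝓝 (g k)) := fun k =>
    tendsto_pi_nhds.1 hg k
  refine ⟨φ, hφ, fun ε hε => ?_⟩
  set ρ : ℝ := 2 * C / ε with hρ
  set r : ℝ := ε / (4 * L) with hr
  have hr0 : 0 < r := by positivity
  obtain ⟨t, ht⟩ := (isCompact_closedBall (0 : ℂ) ρ).elim_finite_subcover
    (fun k => ball (D k) r) (fun _ => isOpen_ball) (fun z _ => by
      obtain ⟨k, hk⟩ := hD.exists_dist_lt z hr0
      exact mem_iUnion.2 ⟨k, hk⟩)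
  have hev : ∀ᶠ n in atTop, ∀ k ∈ t, ‖v (φ n) (D k) - g k‖ ≤ ε / 4 := by
    rw [eventually_all_finset]
    intro k _
    have := (Metric.tendsto_nhds.1 (hg' k)) (ε / 4) (by positivity)
    exact this.mono fun n hn => by rw [← dist_eq_norm]; exact hn.le
  obtain ⟨N, hN⟩ := eventually_atTop.1 hev
  refine ⟨N, fun m hm n hn z => ?_⟩
  by_cases hz : ‖z‖ ≤ ρ
  · have hz' : z ∈ closedBall (0 : ℂ) ρ := by simpa using hz
    obtain ⟨k, hk, hzk⟩ := mem_iUnion₂.1 (ht hz')
    have h0 : L * ‖z - D k‖ ≤ ε / 4 := by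
      have h1 : ‖z - D k‖ ≤ r := by rw [← dist_eq_norm]; exact (mem_ball.1 hzk).le
      calc L * ‖z - D k‖ ≤ L * r := by gcongr
        _ = ε / 4 := by rw [hr]; field_simp
    have h1 := (hl (φ m) z (D k)).trans h0
    have h2 := (hl (φ n) z (D k)).trans h0
    have h3 := hN m hm k hk
    have h4 := hN n hn k hk
    have e : v (φ m) z - v (φ n) z = ((v (φ m) z - v (φ m) (D k)) - (v (φ n) z - v (φ n) (D k))) +
        ((v (φ m) (D k) - g k) - (v (φ n) (D k) - g k)) := by abel
    change ‖v (φ m) z - v (φ n) z‖ ≤ ε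
    rw [e]
    refine (norm_add_le _ _).trans ?_
    have h5 := norm_sub_le (v (φ m) z - v (φ m) (D k)) (v (φ n) z - v (φ n) (D k))
    have h6 := norm_sub_le (v (φ m) (D k) - g k) (v (φ n) (D k) - g k)
    linarith only [h1, h2, h3, h4, h5, h6]
  · have hρ0 : 0 < ρ := by positivity
    have key : ∀ j, ‖v j z‖ ≤ ε / 2 := by
      intro j
      have h1 : ρ * ‖v j z‖ ≤ C :=
        (mul_le_mul_of_nonneg_right (not_le.1 hz).le (norm_nonneg _)).trans (hd j z)
      have h2 : ρ * (ε / 2) = C := by rw [hρ]; field_simp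
      exact le_of_mul_le_mul_left (h1.trans h2.ge) hρ0
    have h5 := norm_sub_le (v (φ m) z) (v (φ n) z)
    have h6 := key (φ m)
    have h7 := key (φ n)
    change ‖v (φ m) z - v (φ n) z‖ ≤ ε
    linarith only [h5, h6, h7]

theorem mk_sub (a b c d : ℂ) : mk a b - mk c d = mk (a - c) (b - d) := by
  ext i; fin_cases i <;> simp [mk]

theorem fld_lip {A : E → Op} {a M R : ℝ} (h : Fld A a M R) (q q' : E) :
    ‖A q - A q'‖ ≤ M * ‖q - q'‖ := by
  have hd : Differentiable ℝ A := h.smooth.differentiable (by simp)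
  refine convex_univ.norm_image_sub_le_of_norm_fderiv_le (fun x _ => hd x) (fun x _ => ?_)
    (mem_univ q') (mem_univ q)
  rw [← norm_iteratedFDeriv_one]
  exact h.bd 1 (by norm_num) x

theorem tu_of_le {V W : Type} [NormedAddCommGroup V] [NormedAddCommGroup W] {f : ℕ → ℂ → V}
    {g : ℂ → V} {f' : ℕ → ℂ → W} {g' : ℂ → W} (h : TendstoUniformly f g atTop)
    (hle : ∀ n z, ‖g' z - f' n z‖ ≤ ‖g z - f n z‖) : TendstoUniformly f' g' atTop := by
  rw [Metric.tendstoUniformly_iff] at h ⊢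
  intro ε hε
  filter_upwards [h ε hε] with n hn z
  have h1 := hn z
  rw [dist_eq_norm] at h1 ⊢
  exact (hle n z).trans_lt h1

end Cpt'

open Cpt' in
theorem thCpt (hSw : StSw) (hAp : StAp) (hInt : StInt) : StCpt := by
  intro a M R A B y y₀ u hA hB hAB hy hu
  have hmk : ∀ a b : ℂ, ‖mk a b‖ ≤ ‖a‖ + ‖b‖ := hSw.2.2.2.2.2.2.2.2.2.2.2.1
  obtain ⟨C, hC, hbd⟩ := hAp a M R
  have hB' : ∀ n, Bd R C (y n) (u n) := fun n => hbd _ _ _ (hA n) (hu n)
  have hdiff : ∀ n, Differentiable ℝ (u n) := fun n => (hu n).c1.differentiable (by simp)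
  have hlip : ∀ n z w, ‖u n z - u n w‖ ≤ C * ‖z - w‖ := fun n z w =>
    convex_univ.norm_image_sub_le_of_norm_fderiv_le (fun x _ => hdiff n x)
      (fun x _ => (hB' n).b1 x) (mem_univ w) (mem_univ z)
  obtain ⟨φ, hφ, hv⟩ := aa (fun n z => u n z - mk z (y n)) C (C + 1) hC (by positivity)
    (fun n z => (hB' n).b0 z) (fun n z => (hB' n).dec z) (fun n z w => by
      have e : u n z - mk z (y n) - (u n w - mk w (y n)) =
          (u n z - u n w) - (mk z (y n) - mk w (y n)) := by abel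
      have h1 := hmk (z - w) (y n - y n)
      rw [← mk_sub, sub_self, norm_zero] at h1
      have h2 := hlip n z w
      have h3 := norm_sub_le (u n z - u n w) (mk z (y n) - mk w (y n))
      rw [e]; linarith)
  have hyφ : Tendsto (fun n => y (φ n)) atTop (𝓝 y₀) := hy.comp hφ.tendsto_atTop
  have hU : UC (fun n => u (φ n)) := by
    intro ε hε
    obtain ⟨N, hN⟩ := hv (ε / 2) (half_pos hε)
    obtain ⟨N', hN'⟩ := Metric.cauchySeq_iff.1 hyφ.cauchySeq (ε / 2) (half_pos hε)
    refine ⟨max N N', fun m hm n hn z => ?_⟩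
    have h1 := hN m (le_of_max_le_left hm) n (le_of_max_le_left hn) z
    have h2 := hN' m (le_of_max_le_right hm) n (le_of_max_le_right hn)
    rw [dist_eq_norm] at h2
    have h3 := hmk (z - z) (y (φ m) - y (φ n))
    rw [← mk_sub, sub_self, norm_zero] at h3
    have e : u (φ m) z - u (φ n) z = (u (φ m) z - mk z (y (φ m)) - (u (φ n) z - mk z (y (φ n)))) +
        (mk z (y (φ m)) - mk z (y (φ n))) := by abel
    change ‖u (φ m) z - u (φ n) z‖ ≤ ε
    rw [e]
    refine (norm_add_le _ _).trans ?_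
    change ‖u (φ m) z - mk z (y (φ m)) - (u (φ n) z - mk z (y (φ n)))‖ ≤ ε / 2 at h1
    linarith only [h2, h3, h1]
  have hD : UC (fun n => fderiv ℝ (u (φ n))) := by
    intro ε hε
    obtain ⟨δ, hδ, hI⟩ := hInt C ε hε
    obtain ⟨N, hN⟩ := hU δ hδ
    exact ⟨N, fun m hm n hn z => (hI _ _ (hu (φ m)).c1 (hu (φ n)).c1 (hB' _).lip (hB' _).lip
      (hN m hm n hn) z).1⟩
  obtain ⟨w, hw⟩ := hU.lim
  obtain ⟨D, hDl⟩ := hD.lim
  have hwz : ∀ z, Tendsto (fun n => u (φ n) z) atTop (𝓝 (w z)) := fun z => hw.tendsto_at z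
  have hF : ∀ z, HasFDerivAt w (D z) z :=
    hasFDerivAt_of_tendstoUniformly hDl (fun n z => (hdiff (φ n) z).hasFDerivAt) hwz
  have hDe : fderiv ℝ w = D := funext fun z => (hF z).fderiv
  have hDc : Continuous D :=
    hDl.continuous (Frequently.of_forall fun n => (hu (φ n)).c1.continuous_fderiv (by simp))
  rw [← hDe] at hDl hDc
  have hdel : TendstoUniformly (fun n => del (u (φ n))) (del w) atTop :=
    tu_of_le hDl fun n z => norm_del_sub_le w (u (φ n)) z z
  have hdbar : TendstoUniformly (fun n => dbar (u (φ n))) (dbar w) atTop :=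
    tu_of_le hDl fun n z => norm_dbar_sub_le w (u (φ n)) z z
  refine ⟨w, φ, hφ, ⟨?_, fun z => ?_, ?_⟩, hw, hdel⟩
  · exact contDiff_one_iff_fderiv.2 ⟨fun z => (hF z).differentiableAt, hDc⟩
  · have h1 : Tendsto (fun n => A (φ n) (u (φ n) z) - A (φ n) (w z)) atTop (𝓝 0) := by
      refine squeeze_zero_norm (fun n => fld_lip (hA (φ n)) _ _) ?_
      have := (((hwz z).sub_const (w z)).norm).const_mul M
      simpa using this
    have h2 : Tendsto (fun n => A (φ n) (u (φ n) z)) atTop (𝓝 (B (w z))) := by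
      have := h1.add ((hAB (w z)).comp hφ.tendsto_atTop)
      simpa only [Function.comp_apply, sub_add_cancel, zero_add] using this
    have h3 : Tendsto (fun n => A (φ n) (u (φ n) z) (del (u (φ n)) z)) atTop
        (𝓝 (B (w z) (del w z))) :=
      ((continuous_fst.clm_apply continuous_snd :
        Continuous fun p : Op × E => p.1 p.2).tendsto (B (w z), del w z)).comp
        (h2.prodMk_nhds (hdel.tendsto_at z))
    refine tendsto_nhds_unique (hdbar.tendsto_at z) ?_
    exact h3.congr fun n => ((hu (φ n)).eq z).symm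
  · have h1 : ∀ z, ‖z‖ * ‖w z - mk z y₀‖ ≤ C := by
      intro z
      have h2 : Tendsto (fun n => mk z (y (φ n)) - mk z y₀) atTop (𝓝 0) := by
        refine squeeze_zero_norm (a := fun n => ‖y (φ n) - y₀‖) (fun n => ?_) ?_
        · have h3 := hmk (z - z) (y (φ n) - y₀)
          rw [← mk_sub, sub_self, norm_zero, zero_add] at h3
          exact h3
        · simpa only [sub_self, norm_zero] using (hyφ.sub_const y₀).norm
      have h3 : Tendsto (fun n => mk z (y (φ n))) atTop (𝓝 (mk z y₀)) :=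
        tendsto_sub_nhds_zero_iff.1 h2
      exact le_of_tendsto' ((((hwz z).sub h3).norm).const_mul ‖z‖) fun n => (hB' (φ n)).dec z
    have h2 : Tendsto (fun z : ℂ => C / ‖z‖) (cocompact ℂ) (𝓝 0) :=
      tendsto_const_nhds.div_atTop tendsto_norm_cocompact_atTop
    refine squeeze_zero_norm' ?_ h2
    filter_upwards [(tendsto_norm_cocompact_atTop (E := ℂ)).eventually_gt_atTop 0] with z hz
    rw [le_div_iff₀ hz, mul_comm]
    exact h1 z

theorem thConv (h : StCpt) : StConv := by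
  intro a M R A B y y₀ u w hA hB hAB hy hu huniq
  have key : ∀ ε : ℝ, 0 < ε → ∀ᶠ n in atTop,
      (∀ z, dist (w z) (u n z) < ε) ∧ ∀ z, dist (del w z) (del (u n) z) < ε := by
    intro ε hε
    by_contra hcon
    obtain ⟨ψ, hψ, hbad⟩ := extraction_of_frequently_atTop (not_eventually.1 hcon)
    obtain ⟨w', φ, -, hs, h1, h2⟩ := h a M R (fun n => A (ψ n)) B (fun n => y (ψ n)) y₀
      (fun n => u (ψ n)) (fun n => hA _) hB (fun q => (hAB q).comp hψ.tendsto_atTop)
      (hy.comp hψ.tendsto_atTop) (fun n => hu _)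
    rw [huniq w' hs] at h1 h2
    obtain ⟨n, hn1, hn2⟩ := ((Metric.tendstoUniformly_iff.1 h1 ε hε).and
      (Metric.tendstoUniformly_iff.1 h2 ε hε)).exists
    exact hbad (φ n) ⟨hn1, hn2⟩
  exact ⟨Metric.tendstoUniformly_iff.2 fun ε hε => (key ε hε).mono fun n hn => hn.1,
    Metric.tendstoUniformly_iff.2 fun ε hε => (key ε hε).mono fun n hn => hn.2⟩

end Pool.Agent.MP_be5fd0_gt.T
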