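import Pool.Agent.MP_be5fd0_gt.H27.Defs

attribute [-instance] Action.FintypeCat.instMulActionObjFiniteOf
  NonarchimedeanAddGroup.toIsTopologicalAddGroup RightPreLieAlgebra.toModule
  LeftPreLieAlgebra.toModule RKHS.instFunLike AddQuantale.instAddLeftMono
  TotallySeparatedSpace.t2Space NonUnitalNonAssocSemiring.toAddCommMonoid
  NonUnitalNonAssocSemiring.toMulZeroClass CoalgHomClass.toSemilinearMapClass littleWedderburn
  Valued.toUniformSpace IdemSemiring.toCanonicallyOrderedAdd ProperSMul.toContinuousSMul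
  NumberField.to_charZero SemilinearIsometryClass.toSemilinearMapClass
  MulSemiringAction.toDistribMulAction AddQuantale.instAddRightMono NormedCommRing.toCommRing
  IsValuativeTopology.instIsTopologicalAddGroup
  NonUnitalAlgSemiHomClass.toDistribMulActionSemiHomClass NonarchimedeanRing.toIsTopologicalRing
  NonAssocSemiring.toAddCommMonoidWithOne GrpTypeEquivalenceGrp.grpGroup
  continuousSub_of_discreteTopology NonUnitalRing.toNonUnitalNonAssocRing
  RingHomClass.toLinearMapClassRat NonUnitalNormedRing.toNonUnitalSeminormedRing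
  AddCommGroupWithOne.toAddGroupWithOne SeminormedCommRing.toCommRing
  CStarAlgebra.instOrderClosedTopology MonTypeEquivalenceMon.monMonoid IdemSemiring.toSemiring
  SeminormedRing.toNonUnitalSeminormedRing Quantale.instMulRightMono
  IsTopologicalSemiring.toContinuousAdd EuclideanDomain.toCommRing
  IsTopologicalTorsor.toContinuousSMul Bialgebra.toAlgebra
  NonUnitalNormedCommRing.toNonUnitalCommRing Valued.isTopologicalDivisionRing
  AddCommMonoidWithOne.toAddCommMonoid NonAssocRing.toNonUnitalNonAssocRing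
  Group.IsPerfect.subsingleton_of_isMulCommutative LieAdmissibleRing.toNonUnitalNonAssocRing
  IsIsometricSMul.to_continuousConstSMul GroupWithZero.toMonoidWithZero
  LinearOrderedCommMonoidWithZero.toPosMulStrictMono LinearOrderedCommMonoidWithZero.toIsBotZeroClass
  BooleanRing.toCommRing BooleanRing.toRing NonUnitalSemiring.toNonUnitalNonAssocSemiring
  LieRinehartAlgebra.toIsScalarTower continuousSub_of_indiscreteTopology
  CommMonoidWithZero.toMonoidWithZero CStarAlgebra.toNormedAlgebra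
  NonUnitalNonAssocCommSemiring.toNonUnitalNonAssocSemiring NormedDivisionRing.toDivisionRing
  instDiscreteTopologyOfAlexandrovDiscreteOfT1Space instSMulZeroClass

/-! Regularity and a priori bounds for normalised planes. -/

/-! Regularity of normalised planes by difference quotients. -/

namespace Pool.Agent.MP_be5fd0_gt.T

open Complex Filter Topology Set Metric MeasureTheory
open scoped ContDiff BoundedContinuousFunction

noncomputable section

namespace Reg'

section DQ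
variable {W : Type} [NormedAddCommGroup W] [NormedSpace ℝ W]

/-- difference quotient in the real direction -/
def dq (f : ℂ → W) (h : ℝ) (z : ℂ) : W := h⁻¹ • (f (z + h) - f z)

theorem dq_lim {f : ℂ → W} {z : ℂ} (hf : DifferentiableAt ℝ f z) :
    Tendsto (fun h => dq f h z) (𝓝[>] 0) (𝓝 (fderiv ℝ f z 1)) := by
  have h1 : HasDerivAt (fun t : ℝ => z + (t : ℂ)) 1 0 :=
    (Complex.ofRealCLM.hasDerivAt (x := 0)).const_add z
  have h2 : HasDerivAt (fun t : ℝ => f (z + (t : ℂ))) (fderiv ℝ f z 1) 0 :=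
    HasFDerivAt.comp_hasDerivAt_of_eq (0 : ℝ) hf.hasFDerivAt h1 (by simp)
  simpa only [dq, zero_add, ofReal_zero, add_zero] using h2.tendsto_slope_zero_right

theorem dq_lim_comp {U : Type} [NormedAddCommGroup U] [NormedSpace ℝ U] {F : U → W} {u : ℂ → U}
    {z : ℂ} (hF : DifferentiableAt ℝ F (u z)) (hu : DifferentiableAt ℝ u z) :
    Tendsto (fun h => dq (fun t => F (u t)) h z) (𝓝[>] 0)
      (𝓝 (fderiv ℝ F (u z) (fderiv ℝ u z 1))) := by
  have t := dq_lim (hF.comp z hu)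
  rwa [fderiv_comp z hF hu] at t

theorem dq_bd {f : ℂ → W} (hf : ContDiff ℝ 1 f) (ρ : ℝ) :
    ∃ L : ℝ, 0 ≤ L ∧ ∀ h ∈ Ioc (0 : ℝ) 1, ∀ z, ‖z‖ ≤ ρ → ‖dq f h z‖ ≤ L := by
  obtain ⟨L, hL⟩ := (isCompact_closedBall (0 : ℂ) (ρ + 1)).exists_bound_of_continuousOn
    (hf.continuous_fderiv one_ne_zero).continuousOn
  refine ⟨max L 0, le_max_right _ _, fun h hh z hz => ?_⟩
  have hn : ‖(h : ℂ)‖ = h := by rw [Complex.norm_real, Real.norm_of_nonneg hh.1.le]
  have h1 : z ∈ closedBall (0 : ℂ) (ρ + 1) := by rw [mem_closedBall_zero_iff]; linarith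
  have h2 : z + h ∈ closedBall (0 : ℂ) (ρ + 1) := by
    rw [mem_closedBall_zero_iff]; have := norm_add_le z (h : ℂ); linarith [hh.2]
  have h3 := (convex_closedBall (0 : ℂ) (ρ + 1)).norm_image_sub_le_of_norm_fderiv_le
    (fun x _ => hf.differentiable one_ne_zero x) hL h1 h2
  rw [add_sub_cancel_left, hn] at h3
  rw [dq, norm_smul, norm_inv, Real.norm_of_nonneg hh.1.le, inv_mul_le_iff₀ hh.1]
  have := mul_le_mul_of_nonneg_right (le_max_left L 0) hh.1.le
  linarith

theorem dq_c1 {f : ℂ → W} (hf : ContDiff ℝ 1 f) (h : ℝ) : ContDiff ℝ 1 (dq f h) :=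
  ((hf.comp (contDiff_id.add contDiff_const)).sub hf).const_smul _
end DQ

theorem del_dq {u : ℂ → E} (hu : ContDiff ℝ 1 u) (h : ℝ) (z : ℂ) :
    del (dq u h) z = dq (del u) h z ∧ dbar (dq u h) z = dq (dbar u) h z := by
  have hd := hu.differentiable one_ne_zero
  have h1 : HasFDerivAt (fun w => u (w + h)) (fderiv ℝ u (z + h)) z :=
    (hasFDerivAt_comp_add_right _).2 (hd (z + h)).hasFDerivAt
  have h2 : fderiv ℝ (dq u h) z = h⁻¹ • (fderiv ℝ u (z + h) - fderiv ℝ u z) :=
    ((h1.sub (hd z).hasFDerivAt).const_smul h⁻¹).fderiv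
  simp only [del, dbar, dq, h2, smul_apply, sub_apply, ← ofReal_smul']
  constructor <;> module

theorem cT_lim (h1 : StT1) {l : Filter ℝ} [l.IsCountablyGenerated] {g : ℝ → ℂ → E} {G : ℂ → E}
    {ρ m : ℝ} (hρ : 0 < ρ) (hm : 0 ≤ m)
    (hc : ∀ᶠ h in l, Continuous (g h) ∧ (∀ z, ρ ≤ ‖z‖ → g h z = 0) ∧ ∀ z, ‖g h z‖ ≤ m)
    (hl : ∀ z, Tendsto (fun h => g h z) l (𝓝 (G z))) (z : ℂ) :
    Tendsto (fun h => cT (g h) z) l (𝓝 (cT G z)) := by
  obtain ⟨c, -, hT⟩ := h1.1 ρ hρ
  obtain ⟨c', -, hT'⟩ := h1.1 (ρ + 1) (by linarith)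
  set b : ℂ → ℝ := fun w => m * max 0 (ρ + 1 - ‖w‖) with hb
  have hb0 : ∀ w, 0 ≤ b w := fun w => mul_nonneg hm (le_max_left _ _)
  have hbi := (hT' ℂ (fun w => (b w : ℂ)) (m * (ρ + 1)) (by fun_prop)
    (fun w hw => by simp only [hb, max_eq_left (sub_nonpos.2 hw), mul_zero, ofReal_zero])
    (fun w => by
      rw [Complex.norm_real, Real.norm_of_nonneg (hb0 w)]
      exact mul_le_mul_of_nonneg_left (max_le (by linarith) (by linarith [norm_nonneg w])) hm)).1 z
  refine tendsto_integral_filter_of_dominated_convergence _ ?_ ?_ hbi.norm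
    (Eventually.of_forall fun w => (hl (z - w)).const_smul _)
  · filter_upwards [hc] with h hh
    exact ((hT E (g h) m hh.1 hh.2.1 hh.2.2).1 z).aestronglyMeasurable
  · filter_upwards [hc] with h hh
    refine Eventually.of_forall fun w => ?_
    rw [norm_smul, norm_smul, Complex.norm_real, Real.norm_of_nonneg (hb0 _)]
    refine mul_le_mul_of_nonneg_left ?_ (norm_nonneg _)
    by_cases hw : ρ ≤ ‖z - w‖
    · rw [hh.2.1 _ hw, norm_zero]; exact hb0 _
    · refine (hh.2.2 _).trans (le_mul_of_one_le_right hm (le_max_of_le_right ?_))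
      linarith [not_le.1 hw]

theorem far (hSw : StSw) {A : E → Op} {y : ℂ} {u : ℂ → E} (R : ℝ) (hu : Sol A y u) :
    ∃ ρ : ℝ, 0 < ρ ∧ ∀ z, ρ ≤ ‖z‖ → R ≤ ‖u z 0‖ := by
  have h1 : ∀ᶠ z in cocompact ℂ, ‖u z - mk z y‖ < 1 := by
    simpa only [dist_zero_right] using hu.asy.eventually (Metric.ball_mem_nhds (0 : E) one_pos)
  obtain ⟨K, hK, hK'⟩ := mem_cocompact.1 h1
  obtain ⟨r, hr⟩ := hK.isBounded.subset_ball (0 : ℂ)
  refine ⟨max (max r (R + 1)) 1, lt_max_of_lt_right one_pos, fun z hz => ?_⟩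
  have hz1 : r ≤ ‖z‖ := (le_max_left _ _).trans ((le_max_left _ _).trans hz)
  have hz2 : R + 1 ≤ ‖z‖ := (le_max_right _ _).trans ((le_max_left _ _).trans hz)
  have h2 : ‖u z - mk z y‖ < 1 := hK' fun h => by
    have := hr h; rw [mem_ball_zero_iff] at this; linarith
  have h3 := hSw.2.2.2.2.2.2.2.2.2.2.2.2.1 (u z - mk z y) 0
  have h4 : (u z - mk z y) 0 = u z 0 - z := by simp [mk]
  rw [h4] at h3
  have h5 := norm_sub_norm_le z (u z 0)
  rw [norm_sub_rev] at h5
  linarith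

theorem cancel {P Q : Op} (h : P * Q = 1) (x : E) : P (Q x) = x :=
  congrArg (fun L : Op => L x) h

/-- the integral equation for `del u` -/
theorem eta_eq (h1 : StT1) (h3 : StT3) (hRr : StRr) {A : E → Op} {a M R ρ : ℝ} {y : ℂ}
    {u : ℂ → E} (hA : Fld A a M R) (hu : Sol A y u) (hρ : 0 < ρ)
    (hfar : ∀ z, ρ ≤ ‖z‖ → R ≤ ‖u z 0‖) (z : ℂ) :
    del u z = mk 1 0 + cT (fun w => Rr A (u w) (del u w) (del u w)) z := by
  obtain ⟨C, hC, hR⟩ := hRr a M R
  obtain ⟨r1, r2, -, -, -, r6, -, -, r9, r10, r11⟩ := hR A hA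
  have hd := hu.c1.differentiable one_ne_zero
  have hη := (continuous_del hu.c1).1
  have hAu : ContDiff ℝ 1 fun w => A (u w) := (hA.smooth.of_le (by simp)).comp hu.c1
  have hPu : ContDiff ℝ 1 fun w => Ph A (u w) := (r2.of_le (by simp)).comp hu.c1
  set ξ : ℝ → ℂ → E := fun h w => Ph A (u w) (dq u h w) with hξ
  have hξ1 : ∀ h, ContDiff ℝ 1 (ξ h) := fun h => hPu.clm_apply (dq_c1 hu.c1 h)
  have hx : ∀ h w, (1 + A (u w)) (ξ h w) = dq u h w := fun h w => cancel (r1 (u w)).1 _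
  have hf : ∀ h w, dbar (ξ h) w = Rr A (u w) (del u w) (ξ h w) +
      Ring.inverse (1 - A (u w) * A (u w)) (dq (fun t => A (u t)) h w (del u (w + h)) -
        fderiv ℝ A (u w) (dq u h w) (del u w)) := fun h w => by
    have e := r11 u (ξ h) w (hd w) ((hξ1 h).differentiable one_ne_zero w) (hu.eq w)
    have e1 : (fun t => (1 + A (u t)) (ξ h t)) = dq u h := funext (hx h)
    rw [e1, hx, (del_dq hu.c1 h w).1, (del_dq hu.c1 h w).2] at e
    have e2 : dq (dbar u) h w - A (u w) (dq (del u) h w) =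
        dq (fun t => A (u t)) h w (del u (w + h)) := by
      simp only [dq, hu.eq, map_smul, map_sub, smul_apply, sub_apply]
      module
    rw [e2] at e
    rw [e, cancel (Ring.inverse_mul_cancel _ (r1 (u w)).2.2.2.2.1)]
    abel
  have hz0 : ∀ h ∈ Ioc (0 : ℝ) 1, ∀ w, ρ + 1 ≤ ‖w‖ → dbar (ξ h) w = 0 := fun h hh w hw => by
    have hn : ‖(h : ℂ)‖ = h := by rw [Complex.norm_real, Real.norm_of_nonneg hh.1.le]
    have a1 := hfar w (by linarith)
    have a2 := hfar (w + h) (by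
      have := norm_sub_le (w + h) (h : ℂ)
      rw [add_sub_cancel_right, hn] at this
      linarith only [hh.2, hw, this])
    have a3 : dq (fun t => A (u t)) h w (del u (w + h)) = 0 := by
      show h⁻¹ • (A (u (w + h)) (del u (w + h)) - A (u w) (del u (w + h))) = 0
      rw [hA.supp _ a2, hA.supp _ a1, sub_self, smul_zero]
    rw [hf, (r9 _ a1).1, (r9 _ a1).2, a3]
    show (0 : E) + Ring.inverse (1 - A (u w) * A (u w)) (0 - 0) = 0
    rw [sub_self, map_zero, add_zero]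
  have hlim : ∀ h ∈ Ioc (0 : ℝ) 1, Tendsto (ξ h) (cocompact ℂ) (𝓝 (mk 1 0)) := fun h hh => by
    have t1 : Tendsto (fun w : ℂ => w + h) (cocompact ℂ) (cocompact ℂ) :=
      (Homeomorph.addRight (h : ℂ)).toCocompactMap.cocompact_tendsto'
    have t2 := (((hu.asy.comp t1).sub hu.asy).add_const (mk h 0)).const_smul h⁻¹
    have t3 : h⁻¹ • ((0 : E) - 0 + mk h 0) = mk 1 0 := by
      ext i; fin_cases i <;> simp [mk, hh.1.ne']
    rw [t3] at t2
    refine t2.congr' ?_
    filter_upwards [(isCompact_closedBall (0 : ℂ) ρ).compl_mem_cocompact] with w hw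
    have hw' : ρ ≤ ‖w‖ := le_of_lt (by simpa using hw)
    have := hx h w
    rw [hA.supp _ (hfar w hw'), add_zero, one_apply_eq_self] at this
    rw [this, dq]
    congr 1
    ext i; fin_cases i
    · simp only [mk, Function.comp_apply, Fin.zero_eta, Fin.isValue, PiLp.add_apply, PiLp.sub_apply, Matrix.cons_val_zero]; ring
    · simp [mk]
  have hξl : ∀ w, Tendsto (fun h => ξ h w) (𝓝[>] 0) (𝓝 (del u w)) := fun w => by
    have t := ((Ph A (u w)).continuous.tendsto _).comp (dq_lim (hd w))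
    rwa [r10 u w (hu.eq w), one_smul, cancel (r1 (u w)).2.1] at t
  have hgl : ∀ w, Tendsto (fun h => dbar (ξ h) w) (𝓝[>] 0)
      (𝓝 (Rr A (u w) (del u w) (del u w))) := fun w => by
    have t1 := dq_lim_comp (hA.smooth.differentiable (by simp) (u w)) (hd w)
    have t2 : Tendsto (fun h : ℝ => del u (w + h)) (𝓝[>] 0) (𝓝 (del u w)) := by
      have : Continuous fun h : ℝ => del u (w + h) := hη.comp (by fun_prop)
      simpa using (this.tendsto 0).mono_left nhdsWithin_le_nhds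
    have t3 := (isBoundedBilinearMap_apply.continuous.tendsto _).comp (t1.prodMk_nhds t2)
    have t4 := (((fderiv ℝ A (u w)).flip (del u w)).continuous.tendsto _).comp (dq_lim (hd w))
    have t5 := ((Ring.inverse (1 - A (u w) * A (u w))).continuous.tendsto _).comp (t3.sub t4)
    have t6 := (((Rr A (u w) (del u w)).continuous.tendsto _).comp (hξl w)).add t5
    simp only [ContinuousLinearMap.flip_apply, sub_self, map_zero, add_zero] at t6
    exact t6.congr fun h => (hf h w).symm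
  obtain ⟨L1, hL1, b1⟩ := dq_bd hu.c1 (ρ + 1)
  obtain ⟨L2, hL2, b2⟩ := dq_bd hAu (ρ + 1)
  obtain ⟨B, hB⟩ := (isCompact_closedBall (0 : ℂ) (ρ + 2)).exists_bound_of_continuousOn
    hη.continuousOn
  have hB0 : 0 ≤ B := (norm_nonneg _).trans (hB 0 (mem_closedBall_self (by linarith only [hρ])))
  have hM : ∀ q, ‖fderiv ℝ A q‖ ≤ M := fun q => by
    rw [← norm_iteratedFDeriv_one]; exact hA.bd 1 (by norm_num) q
  have hM0 : 0 ≤ M := (norm_nonneg _).trans (hA.bd 0 (by norm_num) 0)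
  have hI : ∀ᶠ h in 𝓝[>] (0 : ℝ), h ∈ Ioc (0 : ℝ) 1 := Ioc_mem_nhdsGT one_pos
  have hm0 : 0 ≤ C * B * (C * L1) + C * (L2 * B + M * L1 * B) :=
    add_nonneg (mul_nonneg (mul_nonneg hC.le hB0) (mul_nonneg hC.le hL1)) (mul_nonneg hC.le
      (add_nonneg (mul_nonneg hL2 hB0) (mul_nonneg (mul_nonneg hM0 hL1) hB0)))
  have hT := cT_lim h1 (g := fun h => dbar (ξ h)) (ρ := ρ + 1) (by linarith) hm0 (by
      filter_upwards [hI] with h hh
      refine ⟨(continuous_del (hξ1 h)).2, hz0 h hh, fun w => ?_⟩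
      by_cases hw : ρ + 1 ≤ ‖w‖
      · rw [hz0 h hh w hw, norm_zero]; exact hm0
      have hw' := (not_le.1 hw).le
      have hn : ‖(h : ℂ)‖ = h := by rw [Complex.norm_real, Real.norm_of_nonneg hh.1.le]
      have c1 := hB w (by rw [mem_closedBall_zero_iff]; linarith only [hw])
      have c2 := hB (w + h) (by
        rw [mem_closedBall_zero_iff]; have := norm_add_le w (h : ℂ); linarith [hh.2])
      have c3 := b1 h hh w hw'
      have c4 := b2 h hh w hw'
      have c5 : ‖ξ h w‖ ≤ C * L1 := (Ph A (u w)).le_of_opNorm_le_of_le (r1 _).2.2.1 c3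
      rw [hf]
      refine norm_add_le_of_le (ContinuousLinearMap.le_of_opNorm_le_of_le _
        ((r6 _ _).trans (mul_le_mul_of_nonneg_left c1 hC.le)) c5)
        (ContinuousLinearMap.le_of_opNorm_le_of_le _ (r1 _).2.2.2.2.2.1 (norm_sub_le_of_le
          (ContinuousLinearMap.le_of_opNorm_le_of_le _ c4 c2)
          (ContinuousLinearMap.le_of_opNorm_le_of_le _
            (ContinuousLinearMap.le_of_opNorm_le_of_le _ (hM _) c3) c1)))) hgl z
  refine tendsto_nhds_unique (hξl z) ((hT.const_add (mk 1 0)).congr' ?_)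
  filter_upwards [hI] with h hh
  exact (h3 E (ξ h) (mk 1 0) (ρ + 1) (hξ1 h) (hlim h hh) (hz0 h hh) z).symm

end Reg'

open Reg' in
theorem thReg (h1 : StT1) (h2 : StT2) (h3 : StT3) (hSw : StSw) (hRr : StRr) : StReg := by
  intro A a M R y u hA hu
  obtain ⟨ρ, hρ, hfar⟩ := far hSw R hu
  have hE := eta_eq h1 h3 hRr hA hu hρ hfar
  obtain ⟨C, hC, hR⟩ := hRr a M R
  obtain ⟨-, -, -, r4, -, r6, r7, -, r9, -, -⟩ := hR A hA
  have hd := hu.c1.differentiable one_ne_zero
  have hη := (continuous_del hu.c1).1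
  set G : ℂ → E := fun w => Rr A (u w) (del u w) (del u w) with hG
  have hGc : Continuous G := by
    have t := (r4.continuous.comp (hu.c1.continuous.prodMk hη)).clm_apply hη
    simp only [Function.comp_apply] at t
    exact t
  have hG0 : ∀ z, ρ ≤ ‖z‖ → G z = 0 := fun z hz => by
    simp only [hG, (r9 _ (hfar z hz)).2, zero_apply]
  obtain ⟨m, hm⟩ := hGc.bounded_above_of_compact_support
    (HasCompactSupport.intro (isCompact_closedBall (0 : ℂ) ρ) fun z hz =>
      hG0 z (le_of_lt (by simpa using hz)))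
  have hm0 : 0 ≤ m := (norm_nonneg _).trans (hm 0)
  obtain ⟨c, hc, hT⟩ := h1.1 ρ hρ
  obtain ⟨-, -, t3, t4, t5⟩ := hT E G m hGc hG0 hm
  set B := ‖mk 1 0‖ + c * m with hB
  have hcm : 0 ≤ c * m := mul_nonneg hc.le hm0
  have hB0 : 0 ≤ B := add_nonneg (norm_nonneg _) hcm
  have hBB : 0 ≤ B + B := add_nonneg hB0 hB0
  have hK : 0 ≤ C * (B * (B + B) + c * m) * B + C * B * (c * m) :=
    add_nonneg (mul_nonneg (mul_nonneg hC.le (add_nonneg (mul_nonneg hB0 hBB) hcm)) hB0)
      (mul_nonneg (mul_nonneg hC.le hB0) hcm)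
  have hb : ∀ z, ‖del u z‖ ≤ B := fun z => by rw [hE z]; exact norm_add_le_of_le le_rfl (t3 z)
  have hh : ∀ z w, ‖del u z - del u w‖ ≤ c * m * √‖z - w‖ := fun z w => by
    rw [hE z, hE w, add_sub_add_left_eq_sub]; exact t5 z w
  have hL : ∀ z w, ‖u z - u w‖ ≤ (B + B) * ‖z - w‖ := fun z w =>
    convex_univ.norm_image_sub_le_of_norm_fderiv_le (fun x _ => hd x) (fun x _ =>
      (norm_fderiv_le_del u x).trans (add_le_add (hb x) (by
        rw [hu.eq x]
        exact ((A (u x)).le_of_opNorm_le_of_le ((hA.le _).trans hA.a1.le) (hb x)).trans_eq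
          (one_mul B)))) (mem_univ w) (mem_univ z)
  have hH : Hc ρ (m + m + (C * (B * (B + B) + c * m) * B + C * B * (c * m))) G := by
    refine ⟨hG0, fun z => (hm z).trans (le_add_of_le_of_nonneg (le_add_of_nonneg_right hm0) hK),
      fun z w => ?_⟩
    have hs := Real.sqrt_nonneg ‖z - w‖
    rcases le_total 1 ‖z - w‖ with h | h
    · have s1 : 1 ≤ √‖z - w‖ := Real.one_le_sqrt.2 h
      refine (norm_sub_le_of_le (hm z) (hm w)).trans ((le_add_of_nonneg_right
        hK).trans (le_mul_of_one_le_right (add_nonneg (add_nonneg hm0 hm0) hK) s1))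
    · have s1 : ‖z - w‖ ≤ √‖z - w‖ := by
        rw [Real.le_sqrt (norm_nonneg _) (norm_nonneg _), sq]
        exact mul_le_of_le_one_left (norm_nonneg _) h
      have e : G z - G w = (Rr A (u z) (del u z) - Rr A (u w) (del u w)) (del u z) +
          Rr A (u w) (del u w) (del u z - del u w) := by
        simp only [hG, sub_apply, map_sub]; abel
      have c1 : ‖Rr A (u z) (del u z) - Rr A (u w) (del u w)‖ ≤
          C * (B * ((B + B) * √‖z - w‖) + c * m * √‖z - w‖) :=
        (r7 _ _ _ _).trans (mul_le_mul_of_nonneg_left (add_le_add (mul_le_mul (hb z)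
          ((hL z w).trans (mul_le_mul_of_nonneg_left s1 hBB)) (norm_nonneg _) hB0)
          (hh z w)) hC.le)
      rw [e]
      refine (norm_add_le_of_le (ContinuousLinearMap.le_of_opNorm_le_of_le _ c1 (hb z))
        (ContinuousLinearMap.le_of_opNorm_le_of_le _
          ((r6 _ _).trans (mul_le_mul_of_nonneg_left (hb w) hC.le)) (hh z w))).trans ?_
      have := mul_nonneg hm0 hs
      linarith only [this]
  obtain ⟨c', -, hT2⟩ := h2 ρ hρ
  obtain ⟨s1, s2, -, -⟩ := hT2 E G _ hH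
  have hE' : del u = fun z => mk 1 0 + cT G z := funext hE
  have hη1 : ContDiff ℝ 1 (del u) := by rw [hE']; exact contDiff_const.add s1
  refine ⟨hη1, ?_, fun z => ?_, ?_⟩
  · rw [show (2 : WithTop ℕ∞) = 1 + 1 from rfl, contDiff_succ_iff_fderiv_apply]
    refine ⟨hd, fun h => by simp at h, fun ζ => ?_⟩
    simp only [fderiv_eq_del, hu.eq]
    exact (hη1.const_smul ζ).add
      ((((hA.smooth.of_le (by simp)).comp hu.c1).clm_apply hη1).const_smul _)
  · have := (del_add (differentiableAt_const (mk 1 0)) (s1.differentiable one_ne_zero z)).2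
    rw [(del_const _ _).2, zero_add, s2, ← hE'] at this
    exact this
  · have t : Tendsto (cT G) (cocompact ℂ) (𝓝 0) := by
      have t1 : Tendsto (fun z : ℂ => c * m * ‖z‖⁻¹) (cocompact ℂ) (𝓝 0) := by
        simpa only [Function.comp_apply, mul_zero] using (tendsto_inv_atTop_zero.comp (tendsto_norm_cocompact_atTop (E := ℂ))).const_mul (c * m)
      refine squeeze_zero_norm' ?_ t1
      filter_upwards [(isCompact_singleton (x := (0 : ℂ))).compl_mem_cocompact] with z hz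
      rw [← div_eq_mul_inv, le_div_iff₀' (norm_pos_iff.2 hz)]
      exact t4 z
    rw [hE']
    simpa only [add_zero] using t.const_add (mk 1 0)

end

end Pool.Agent.MP_be5fd0_gt.T

namespace Pool.Agent.MP_be5fd0_gt.T

open Complex Filter Topology Set Metric MeasureTheory
open scoped ContDiff BoundedContinuousFunction

noncomputable section

namespace En'

theorem nsq (x : E) : ‖x‖ ^ 2 = ‖x 0‖ ^ 2 + ‖x 1‖ ^ 2 := by
  rw [EuclideanSpace.norm_sq_eq, Fin.sum_univ_two]

theorem comp_le (x : E) (i : Fin 2) : ‖x i‖ ≤ ‖x‖ := PiLp.norm_apply_le x i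

theorem del_comp {u : ℂ → E} (hu : ContDiff ℝ 1 u) (i : Fin 2) (z : ℂ) :
    del (fun w => u w i) z = del u z i ∧ dbar (fun w => u w i) z = dbar u z i :=
  del_clm (EuclideanSpace.proj (𝕜 := ℂ) i) (hu.differentiable one_ne_zero z)

theorem cd_comp {u : ℂ → E} (hu : ContDiff ℝ 1 u) (i : Fin 2) : ContDiff ℝ 1 fun w => u w i :=
  ((EuclideanSpace.proj (𝕜 := ℂ) i : E →L[ℂ] ℂ).restrictScalars ℝ).contDiff.comp hu

theorem tend_comp {v : ℂ → E} (h : Tendsto v (cocompact ℂ) (𝓝 0)) (i : Fin 2) :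
    Tendsto (fun z => v z i) (cocompact ℂ) (𝓝 0) :=
  squeeze_zero_norm (fun z => comp_le (v z) i) (tendsto_zero_iff_norm_tendsto_zero.1 h)

theorem far {v : ℂ → ℂ} (h : Tendsto v (cocompact ℂ) (𝓝 0)) :
    ∃ ρ : ℝ, ∀ z, ρ ≤ ‖z‖ → ‖v z‖ ≤ 1 := by
  have h1 : ∀ᶠ z in cocompact ℂ, ‖v z‖ ≤ 1 :=
    (tendsto_zero_iff_norm_tendsto_zero.1 h).eventually_le_const one_pos
  obtain ⟨K, hK, hs⟩ := mem_cocompact.1 h1
  obtain ⟨r, hr⟩ := hK.isBounded.subset_ball (0 : ℂ)
  refine ⟨r, fun z hz => hs fun hz' => ?_⟩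
  have := hr hz'
  rw [mem_ball_zero_iff] at this
  linarith

theorem sq2 (x : ℂ) : ‖x‖ ^ 2 ≤ 2 + 2 * ‖x - 1‖ ^ 2 ∧ 1 ≤ 2 * ‖x‖ ^ 2 + 2 * ‖x - 1‖ ^ 2 := by
  have h1 : ‖x‖ ≤ ‖x - 1‖ + 1 := by simpa only [sub_add_cancel, norm_one] using norm_add_le (x - 1) 1
  have h2 : 1 ≤ ‖x‖ + ‖x - 1‖ := by simpa only [sub_sub_cancel, norm_one] using norm_sub_le x (x - 1)
  have h3 := norm_nonneg x
  have h4 := norm_nonneg (x - 1)
  constructor
  · nlinarith only [sq_nonneg (‖x - 1‖ - 1), h1, h2]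
  · nlinarith only [sq_nonneg (‖x‖ - ‖x - 1‖), h2]

end En'

open En' in
theorem thEn (hN1 : StN1) (hN2 : StN2) : StEn := by
  intro a M R
  by_cases hR : 0 < R
  swap
  · exact ⟨1, one_pos, fun A y u hA _ => absurd hA.R0 hR⟩
  let φ : ContDiffBump (0 : ℂ) := ⟨R, R + 1, hR, by linarith⟩
  set c : ℝ := ∫ z, φ z with hc
  set v : ℝ := (volume : Measure ℂ).real (ball 0 1) with hv
  have hv0 : 0 ≤ v := measureReal_nonneg
  refine ⟨4 * |c / (1 - a ^ 2)| + 2 * v + 1, by positivity, fun A y u hA hu => ?_⟩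
  have ha : 0 < 1 - a ^ 2 := by nlinarith only [hA.a0, hA.a1]
  have hc1 := hu.c1
  have hu0 := cd_comp hc1 0
  have hu1 := cd_comp hc1 1
  have t0 : Tendsto (fun z => u z 0 - z) (cocompact ℂ) (𝓝 0) := by
    simpa only [Fin.isValue, mk, PiLp.sub_apply, Matrix.cons_val_zero] using tend_comp hu.asy 0
  have t1 : Tendsto (fun z => u z 1 - y) (cocompact ℂ) (𝓝 0) := by
    simpa only [Fin.isValue, mk, PiLp.sub_apply, Matrix.cons_val_one, Matrix.cons_val_fin_one] using tend_comp hu.asy 1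
  obtain ⟨ρ₀, hρ₀⟩ := far t0
  set ρ : ℝ := max ρ₀ (R + 2) with hρ
  have hfar : ∀ z, ρ ≤ ‖z‖ → ∀ t ∈ Icc (0 : ℝ) 1, R + 1 ≤ ‖(1 - t) • u z 0 + t • z‖ := by
    intro z hz t ht
    have h1 := hρ₀ z ((le_max_left _ _).trans hz)
    have h2 : R + 2 ≤ ‖z‖ := (le_max_right _ _).trans hz
    have h3 : z = ((1 - t) • u z 0 + t • z) - (1 - t) • (u z 0 - z) := by module
    have h4 := norm_sub_le ((1 - t) • u z 0 + t • z) ((1 - t) • (u z 0 - z))
    rw [← h3, norm_smul, Real.norm_of_nonneg (by linarith [ht.2])] at h4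
    nlinarith only [ht.1, ht.2, h1, h2, h4]
  have hfar0 : ∀ z, ρ ≤ ‖z‖ → R + 1 ≤ ‖u z 0‖ := fun z hz => by
    simpa only [Fin.isValue, sub_zero, one_smul, zero_smul, add_zero] using hfar z hz 0 ⟨le_rfl, zero_le_one⟩
  have hφ0 : ∀ q : ℂ, R + 1 ≤ ‖q‖ → φ q = 0 := fun q hq =>
    φ.zero_of_le_dist (by simpa using hq)
  have hφ1 : ∀ q : ℂ, ‖q‖ ≤ R → φ q = 1 := fun q hq =>
    φ.one_of_mem_closedBall (by simpa using hq)
  have hdb : ∀ z, R ≤ ‖u z 0‖ → dbar u z = 0 := fun z hz => by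
    rw [hu.eq, hA.supp _ hz]; rfl
  have hdbρ : ∀ z, ρ ≤ ‖z‖ → dbar u z = 0 := fun z hz => hdb z (by linarith [hfar0 z hz])
  -- N2 for the two components
  have d0 : ∀ z, del (fun w => u w 0 - w) z = del u z 0 - 1 ∧
      dbar (fun w => u w 0 - w) z = dbar u z 0 := fun z => by
    have h := del_sub (u := fun w => u w 0) (v := fun w : ℂ => w) (z := z)
      (hu0.differentiable one_ne_zero z) differentiableAt_id
    rw [h.1, h.2, (del_comp hc1 0 z).1, (del_comp hc1 0 z).2, (del_id z).1, (del_id z).2]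
    simp
  have d1 : ∀ z, del (fun w => u w 1 - y) z = del u z 1 ∧
      dbar (fun w => u w 1 - y) z = dbar u z 1 := fun z => by
    have h := del_sub (u := fun w => u w 1) (v := fun _ : ℂ => y) (z := z)
      (hu1.differentiable one_ne_zero z) (differentiableAt_const y)
    rw [h.1, h.2, (del_comp hc1 1 z).1, (del_comp hc1 1 z).2, (del_const y z).1, (del_const y z).2]
    simp
  obtain ⟨i0, j0, e0⟩ := hN2.2 (fun w => u w 0 - w) ρ (hu0.sub contDiff_id) t0
    (fun z hz => by rw [(d0 z).2, hdbρ z hz]; rfl)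
  obtain ⟨i1, j1, e1⟩ := hN2.2 (fun w => u w 1 - y) ρ (hu1.sub contDiff_const) t1
    (fun z hz => by rw [(d1 z).2, hdbρ z hz]; rfl)
  simp only [(d0 _).1, (d0 _).2, (d1 _).1, (d1 _).2] at i0 j0 e0 i1 j1 e1
  -- N1
  have n1 := hN1 (fun z => u z 0) (fun z => z) φ ρ hu0 contDiff_id φ.contDiff φ.hasCompactSupport
    (fun z hz t ht => hφ0 _ (hfar z hz t ht))
  simp only [(hN2.1 _ _).1, (del_comp hc1 0 _).1, (del_comp hc1 0 _).2, (del_id _).1,
    (del_id _).2, norm_one, norm_zero, one_pow, ne_eq, OfNat.ofNat_ne_zero, not_false_eq_true,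
    zero_pow, sub_zero, mul_one] at n1
  rw [← hc] at n1
  have cψ : Continuous fun z => φ (u z 0) := φ.continuous.comp hu0.continuous
  have sψ : HasCompactSupport fun z => φ (u z 0) :=
    HasCompactSupport.intro (isCompact_closedBall (0 : ℂ) ρ) fun z hz =>
      hφ0 _ (hfar0 z (by simpa using (not_le.1 (mt mem_closedBall_zero_iff.2 hz)).le))
  have cη : ∀ i, Continuous fun z => ‖del u z i‖ ^ 2 := fun i => by
    have := (continuous_del (cd_comp hc1 i)).1
    have h : del (fun w => u w i) = fun z => del u z i := funext fun z => (del_comp hc1 i z).1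
    rw [h] at this
    exact this.norm.pow 2
  have iψ : ∀ i, Integrable fun z => φ (u z 0) * ‖del u z i‖ ^ 2 := fun i =>
    (cψ.mul (cη i)).integrable_of_hasCompactSupport sψ.mul_right
  have hψd : ∀ z i, φ (u z 0) * ‖dbar u z i‖ ^ 2 = ‖dbar u z i‖ ^ 2 := fun z i => by
    by_cases h : ‖u z 0‖ ≤ R
    · rw [hφ1 _ h, one_mul]
    · rw [hdb z (not_le.1 h).le]; simp
  have m1 : (∫ z, φ (u z 0) * ‖del u z 0‖ ^ 2) - ∫ z, ‖dbar u z 0‖ ^ 2 = c := by
    rw [← integral_sub (iψ 0) j0, ← n1]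
    exact integral_congr_ae (ae_of_all _ fun z => by simp only [mul_sub, hψd])
  have m2 : (∫ z, φ (u z 0) * ‖del u z 1‖ ^ 2) ≤ ∫ z, ‖dbar u z 1‖ ^ 2 := by
    rw [← e1]
    exact integral_mono (iψ 1) i1 fun z => mul_le_of_le_one_left (by positivity) φ.le_one
  have m3 : (∫ z, ‖dbar u z 0‖ ^ 2) + ∫ z, ‖dbar u z 1‖ ^ 2 ≤
      a ^ 2 * ((∫ z, φ (u z 0) * ‖del u z 0‖ ^ 2) + ∫ z, φ (u z 0) * ‖del u z 1‖ ^ 2) := by
    rw [← integral_add j0 j1, ← integral_add (iψ 0) (iψ 1), ← integral_const_mul]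
    refine integral_mono (j0.add j1) (((iψ 0).add (iψ 1)).const_mul _) fun z => ?_
    have h1 : ‖dbar u z‖ ≤ a * ‖del u z‖ := by
      rw [hu.eq]
      exact ((A (u z)).le_opNorm _).trans (mul_le_mul_of_nonneg_right (hA.le _) (norm_nonneg _))
    have h2 : ‖dbar u z‖ ^ 2 ≤ (a * ‖del u z‖) ^ 2 := pow_le_pow_left₀ (norm_nonneg _) h1 2
    rw [mul_pow, nsq, nsq] at h2
    have h3 := mul_le_mul_of_nonneg_left h2 (φ.nonneg (x := u z 0))
    rw [mul_add, hψd, hψd] at h3
    simp only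
    linarith only [h3]
  set X0 := ∫ z, φ (u z 0) * ‖del u z 0‖ ^ 2 with hX0
  set X1 := ∫ z, φ (u z 0) * ‖del u z 1‖ ^ 2 with hX1
  set D0 := ∫ z, ‖dbar u z 0‖ ^ 2 with hD0
  set D1 := ∫ z, ‖dbar u z 1‖ ^ 2 with hD1
  have p0 : 0 ≤ X0 := integral_nonneg fun z => mul_nonneg φ.nonneg (by positivity)
  have p1 : 0 ≤ X1 := integral_nonneg fun z => mul_nonneg φ.nonneg (by positivity)
  have q0 : 0 ≤ D0 := integral_nonneg fun z => by positivity
  have q1 : 0 ≤ D1 := integral_nonneg fun z => by positivity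
  have hX : X0 + X1 ≤ |c / (1 - a ^ 2)| :=
    le_trans ((le_div_iff₀ ha).2 (by linarith only [m1, m2, m3])) (le_abs_self _)
  have hD : D0 + D1 ≤ |c / (1 - a ^ 2)| := by nlinarith only [ha, m3, p0, p1, hX]
  have habs := abs_nonneg (c / (1 - a ^ 2))
  constructor
  · have hcl : IsClosed {z | ‖u z 0‖ ≤ R} := isClosed_le hu0.continuous.norm continuous_const
    have hfin : volume {z | ‖u z 0‖ ≤ R} ≠ ⊤ := by
      refine ((measure_mono (t := ball (0 : ℂ) ρ) fun z hz => ?_).trans_lt measure_ball_lt_top).ne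
      rw [mem_ball_zero_iff]
      by_contra h
      have := hfar0 z (not_lt.1 h)
      have h2 : ‖u z 0‖ ≤ R := hz
      linarith only [this, h2]
    rw [← ENNReal.ofReal_toReal hfin]
    refine ENNReal.ofReal_le_ofReal ?_
    have h1 : (volume {z | ‖u z 0‖ ≤ R}).toReal ≤
        ∫ z, (2 * (φ (u z 0) * ‖del u z 0‖ ^ 2) + 2 * ‖del u z 0 - 1‖ ^ 2) := by
      rw [← measureReal_def, ← integral_indicator_one hcl.measurableSet]
      refine integral_mono ((integrable_indicator_iff hcl.measurableSet).2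
        (integrableOn_const hfin)) (((iψ 0).const_mul _).add (i0.const_mul _)) fun z => ?_
      by_cases h : ‖u z 0‖ ≤ R
      · rw [indicator_of_mem (show z ∈ {z | ‖u z 0‖ ≤ R} from h)]
        simp only [hφ1 _ h, one_mul, Pi.one_apply]
        exact (sq2 _).2
      · rw [indicator_of_notMem (show z ∉ {z | ‖u z 0‖ ≤ R} from h)]
        have := φ.nonneg (x := u z 0)
        simp only
        positivity
    rw [integral_add ((iψ 0).const_mul _) (i0.const_mul _), integral_const_mul,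
      integral_const_mul, e0] at h1
    linarith only [hv0, m2, p1, hX, hD, h1]
  · intro z₀
    have hb : (volume : Measure ℂ) (ball z₀ 1) ≠ ⊤ := measure_ball_lt_top.ne
    have hvz : (volume : Measure ℂ).real (ball z₀ 1) = v := by
      rw [hv, measureReal_def, measureReal_def, Measure.addHaar_ball_center]
    have ic : IntegrableOn (fun _ : ℂ => (2 : ℝ)) (ball z₀ 1) := integrableOn_const hb
    have ig : Integrable fun z => 2 * ‖del u z 0 - 1‖ ^ 2 + ‖del u z 1‖ ^ 2 :=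
      (i0.const_mul _).add i1
    have h1 : ∫ z in ball z₀ 1, ‖del u z‖ ^ 2 ≤
        ∫ z in ball z₀ 1, (2 + (2 * ‖del u z 0 - 1‖ ^ 2 + ‖del u z 1‖ ^ 2)) := by
      refine integral_mono_of_nonneg (ae_of_all _ fun z => by positivity)
        (ic.add ig.integrableOn) (ae_of_all _ fun z => ?_)
      simp only
      rw [nsq]
      linarith only [(sq2 (del u z 0)).1]
    rw [integral_add ic ig.integrableOn, setIntegral_const, hvz] at h1
    have h2 := setIntegral_le_integral (s := ball z₀ 1) ig (ae_of_all _ fun z => by positivity)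
    rw [integral_add (i0.const_mul _) i1, integral_const_mul, e0, e1] at h2
    rw [smul_eq_mul] at h1
    linarith only [m2, p0, p1, hX, hD, h1, h2]

end

end Pool.Agent.MP_be5fd0_gt.T

/-! Small energy on small discs (Courant-Lebesgue argument in polar coordinates). -/

namespace Pool.Agent.MP_be5fd0_gt.T

open Complex Filter Topology Set Metric MeasureTheory
open scoped ContDiff BoundedContinuousFunction

noncomputable section

namespace Sm'

/-- unit vector of angle `θ` -/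
def ec (θ : ℝ) : ℂ := Real.cos θ + Real.sin θ * I

theorem norm_ec (θ : ℝ) : ‖ec θ‖ = 1 := by
  simp [ec]

theorem contDiff_ec : ContDiff ℝ 2 ec := by
  have h1 : ContDiff ℝ 2 fun θ : ℝ => ((Real.cos θ : ℝ) : ℂ) :=
    Complex.ofRealCLM.contDiff.comp Real.contDiff_cos
  have h2 : ContDiff ℝ 2 fun θ : ℝ => ((Real.sin θ : ℝ) : ℂ) :=
    Complex.ofRealCLM.contDiff.comp Real.contDiff_sin
  exact h1.add (h2.mul contDiff_const)

theorem hasDerivAt_ec (θ : ℝ) : HasDerivAt ec (I * ec θ) θ := by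
  have h1 := (Real.hasDerivAt_cos θ).ofReal_comp
  have h2 := ((Real.hasDerivAt_sin θ).ofReal_comp).mul_const I
  have h3 : I * ec θ = ((-Real.sin θ : ℝ) : ℂ) + (Real.cos θ : ℝ) * I := by
    simp only [ec]
    push_cast
    linear_combination (Complex.sin θ) * I_mul_I
  rw [h3]
  exact h1.add h2

theorem ec_pi : ec Real.pi = ec (-Real.pi) := by simp [ec]

theorem polar {f : ℂ → ℝ} (hf : Continuous f) (z₀ : ℂ) {r : ℝ} (hr : 0 ≤ r) :
    ∫ z in ball z₀ r, f z =
      ∫ s in (0 : ℝ)..r, s * ∫ θ in (-Real.pi)..Real.pi, f (z₀ + s * ec θ) := by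
  have hpi := Real.pi_pos
  have hc : Continuous fun p : ℝ × ℝ => p.1 * f (z₀ + p.1 * ec p.2) := by
    have := contDiff_ec.continuous
    fun_prop
  have h1 : ∫ z in ball z₀ r, f z = ∫ z, (ball (0 : ℂ) r).indicator (fun w => f (z₀ + w)) z := by
    rw [← integral_indicator measurableSet_ball, ← integral_add_left_eq_self _ z₀]
    congr 1
    ext z
    simp [indicator, mem_ball, dist_eq_norm]
  have hsub : Ioo 0 r ×ˢ Ioo (-Real.pi) Real.pi ⊆ polarCoord.target := fun p hp =>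
    ⟨hp.1.1, hp.2⟩
  rw [h1, ← Complex.integral_comp_polarCoord_symm,
    setIntegral_eq_of_subset_of_forall_sdiff_eq_zero polarCoord.open_target.measurableSet hsub]
  · have h2 : ∀ p ∈ Ioo 0 r ×ˢ Ioo (-Real.pi) Real.pi,
        p.1 • (ball (0 : ℂ) r).indicator (fun w => f (z₀ + w)) (Complex.polarCoord.symm p) =
          p.1 * f (z₀ + p.1 * ec p.2) := by
      intro p hp
      rw [indicator_of_mem, Complex.polarCoord_symm_apply, smul_eq_mul, ec]
      rw [mem_ball_zero_iff, Complex.norm_polarCoord_symm, abs_of_pos hp.1.1]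
      exact hp.1.2
    rw [setIntegral_congr_fun (measurableSet_Ioo.prod measurableSet_Ioo) h2,
      Measure.volume_eq_prod, setIntegral_prod, intervalIntegral.integral_of_le hr,
      integral_Ioc_eq_integral_Ioo]
    · congr 1
      ext s
      rw [intervalIntegral.integral_of_le (by linarith), integral_Ioc_eq_integral_Ioo,
        ← integral_const_mul]
    · exact (hc.continuousOn.integrableOn_compact (isCompact_Icc.prod isCompact_Icc)).mono_set
        (prod_mono Ioo_subset_Icc_self Ioo_subset_Icc_self)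
  · intro p hp
    rw [indicator_of_notMem, smul_zero]
    rw [mem_ball_zero_iff, Complex.norm_polarCoord_symm, abs_of_pos hp.1.1]
    exact fun h => hp.2 ⟨⟨hp.1.1, h⟩, hp.1.2⟩

theorem im_swap (x y : E) : (inner ℂ x y).im = -(inner ℂ y x).im := by
  rw [← inner_conj_symm, Complex.conj_im]

theorem green {G : ℝ × ℝ → E} (hG : ContDiff ℝ 2 G) (a b r : ℝ)
    (hp : ∀ s, G (s, b) = G (s, a) ∧ fderiv ℝ G (s, b) (1, 0) = fderiv ℝ G (s, a) (1, 0))
    (h0 : ∀ θ, fderiv ℝ G (0, θ) (0, 1) = 0) :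
    ∫ s in (0 : ℝ)..r, ∫ θ in a..b,
      2 * (inner ℂ (fderiv ℝ G (s, θ) (1, 0)) (fderiv ℝ G (s, θ) (0, 1))).im =
      ∫ θ in a..b, (inner ℂ (G (r, θ)) (fderiv ℝ G (r, θ) (0, 1))).im := by
  have hD : ContDiff ℝ 1 (fderiv ℝ G) := hG.fderiv_right (by norm_num)
  have hG1 : ContDiff ℝ 1 G := hG.of_le (by norm_num)
  have hv : ∀ v, ContDiff ℝ 1 fun p => fderiv ℝ G p v := fun v => hD.clm_apply contDiff_const
  have hf : ∀ v, ContDiff ℝ 1 fun p => (inner ℂ (G p) (fderiv ℝ G p v)).im := fun v =>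
    Complex.imCLM.contDiff.comp (hG1.inner ℂ (hv v))
  have hd : ∀ p v w, fderiv ℝ (fun p => (inner ℂ (G p) (fderiv ℝ G p v)).im) p w =
      (inner ℂ (G p) (fderiv ℝ (fderiv ℝ G) p w v)).im +
        (inner ℂ (fderiv ℝ G p w) (fderiv ℝ G p v)).im := by
    intro p v w
    have g1 := hG1.differentiable (by norm_num) p
    have g2 := (hv v).differentiable (by norm_num) p
    have h3 := (Complex.imCLM.hasFDerivAt.comp p (g1.inner ℂ g2).hasFDerivAt).fderiv
    have h4 : fderiv ℝ (fun p => fderiv ℝ G p v) p w = fderiv ℝ (fderiv ℝ G) p w v := by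
      rw [fderiv_clm_apply (hD.differentiable (by norm_num) p) (differentiableAt_const _)]
      simp
    have h5 := congrArg (fun L => L w) h3
    simp only [ContinuousLinearMap.comp_apply, Complex.imCLM_apply] at h5
    rw [fderiv_inner_apply ℂ g1 g2, h4, Complex.add_im] at h5
    exact h5
  have hsum : ∀ p, fderiv ℝ (fun p => (inner ℂ (G p) (fderiv ℝ G p (0, 1))).im) p (1, 0) +
      (-fderiv ℝ (fun p => (inner ℂ (G p) (fderiv ℝ G p (1, 0))).im) p) (0, 1) =
      2 * (inner ℂ (fderiv ℝ G p (1, 0)) (fderiv ℝ G p (0, 1))).im := by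
    intro p
    have hs := (hG.contDiffAt (x := p)).isSymmSndFDerivAt (by simp) (1, 0) (0, 1)
    rw [neg_apply, hd, hd, hs, im_swap (fderiv ℝ G p (0, 1))]
    ring
  have key := integral2_divergence_prod_of_hasFDerivAt
    (fun p => (inner ℂ (G p) (fderiv ℝ G p (0, 1))).im)
    (fun p => -(inner ℂ (G p) (fderiv ℝ G p (1, 0))).im) _ _ 0 a r b
    (hf _).continuous.continuousOn (hf _).continuous.neg.continuousOn
    (fun x _ => ((hf (0, 1)).differentiable (by norm_num) x).hasFDerivAt)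
    (fun x _ => ((hf (1, 0)).differentiable (by norm_num) x).hasFDerivAt.neg)
    (by
      simp only [hsum]
      have h1 := (hv (1, 0)).continuous
      have h2 := (hv (0, 1)).continuous
      refine ContinuousOn.integrableOn_compact (isCompact_uIcc.prod isCompact_uIcc) ?_
      exact (continuous_const.mul (Complex.continuous_im.comp (h1.inner h2))).continuousOn)
  simp only [hsum, h0, (hp _).1, (hp _).2] at key
  simpa only [intervalIntegral.integral_const_mul, intervalIntegral.integral_neg, sub_self, zero_add, inner_zero_right, zero_im, intervalIntegral.integral_zero, sub_zero] using key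

theorem im_inner (p q : E) (ζ : ℂ) (s : ℝ) (hζ : ‖ζ‖ = 1) :
    (inner ℂ (ζ • p + (starRingEnd ℂ ζ) • q)
      ((s * (I * ζ)) • p + (starRingEnd ℂ (s * (I * ζ))) • q)).im = s * (‖p‖ ^ 2 - ‖q‖ ^ 2) := by
  have h1 : (s * (I * ζ)) • p + (starRingEnd ℂ (s * (I * ζ))) • q =
      ((s : ℂ) * I) • (ζ • p - (starRingEnd ℂ ζ) • q) := by
    simp only [map_mul, conj_ofReal, conj_I]
    module
  have h2 : ‖ζ • p‖ = ‖p‖ := by rw [norm_smul, hζ, one_mul]
  have h3 : ‖(starRingEnd ℂ ζ) • q‖ = ‖q‖ := by rw [norm_smul, Complex.norm_conj, hζ, one_mul]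
  rw [h1, ← h2, ← h3]
  generalize ζ • p = P
  generalize (starRingEnd ℂ ζ) • q = Q
  have h4 : (inner ℂ Q P).re = (inner ℂ P Q).re := by rw [← inner_conj_symm, Complex.conj_re]
  rw [inner_smul_right, inner_add_left, inner_sub_right, inner_sub_right,
    inner_self_eq_norm_sq_to_K, inner_self_eq_norm_sq_to_K]
  simp [← ofReal_pow, h4]

/-- energy on the circle of radius `s` -/
def hh (u : ℂ → E) (z₀ : ℂ) (s : ℝ) : ℝ :=
  s * ∫ θ in (-Real.pi)..Real.pi, ‖del u (z₀ + s * ec θ)‖ ^ 2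

theorem cont_hh {u : ℂ → E} (hu : ContDiff ℝ 2 u) (z₀ : ℂ) : Continuous (hh u z₀) := by
  have h1 := (continuous_del (hu.of_le (by norm_num))).1
  have h2 := contDiff_ec.continuous
  refine continuous_id.mul
    (intervalIntegral.continuous_parametric_intervalIntegral_of_continuous' ?_ _ _)
  unfold Function.uncurry
  fun_prop

theorem diff_ineq {u : ℂ → E} (hu : ContDiff ℝ 2 u) {a : ℝ} (ha : a < 1)
    (hq : ∀ z, ‖dbar u z‖ ≤ a * ‖del u z‖) (z₀ : ℂ) {r : ℝ} (hr : 0 ≤ r) :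
    (1 - a ^ 2) * ∫ s in (0 : ℝ)..r, hh u z₀ s ≤ 4 * Real.pi * r * hh u z₀ r := by
  have hpi := Real.pi_pos
  have hab : -Real.pi ≤ Real.pi := by linarith
  obtain ⟨cp, cq⟩ := continuous_del (hu.of_le (by norm_num : (1 : WithTop ℕ∞) ≤ 2))
  have ce := contDiff_ec.continuous
  set G : ℝ × ℝ → E := fun p => u (z₀ + p.1 * ec p.2) - u (z₀ + r * ec (-Real.pi)) with hGd
  have hφ : ContDiff ℝ 2 fun p : ℝ × ℝ => z₀ + p.1 * ec p.2 :=
    contDiff_const.add ((Complex.ofRealCLM.contDiff.comp contDiff_fst).mul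
      (contDiff_ec.comp contDiff_snd))
  have hG : ContDiff ℝ 2 G := (hu.comp hφ).sub contDiff_const
  have hGd1 : ∀ p, HasFDerivAt G (fderiv ℝ G p) p := fun p =>
    (hG.differentiable (by norm_num) p).hasFDerivAt
  have hud : ∀ z, HasFDerivAt u (fderiv ℝ u z) z := fun z =>
    (hu.differentiable (by norm_num) z).hasFDerivAt
  have ht : ∀ s θ : ℝ, HasDerivAt (fun θ => G (s, θ))
      (fderiv ℝ u (z₀ + s * ec θ) (s * (I * ec θ))) θ := fun s θ =>
    ((hud _).comp_hasDerivAt θ (((hasDerivAt_ec θ).const_mul (s : ℂ)).const_add z₀)).sub_const _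
  have hGt : ∀ s θ : ℝ, fderiv ℝ G (s, θ) (0, 1) =
      fderiv ℝ u (z₀ + s * ec θ) (s * (I * ec θ)) := fun s θ =>
    ((hGd1 (s, θ)).comp_hasDerivAt θ
      ((hasDerivAt_const θ s).prodMk (hasDerivAt_id θ))).unique (ht s θ)
  have hGs : ∀ s θ : ℝ, fderiv ℝ G (s, θ) (1, 0) = fderiv ℝ u (z₀ + s * ec θ) (ec θ) := by
    intro s θ
    have h1 : HasDerivAt (fun s : ℝ => z₀ + s * ec θ) (ec θ) s := by
      simpa using (((hasDerivAt_id s).ofReal_comp).mul_const (ec θ)).const_add z₀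
    exact ((hGd1 (s, θ)).comp_hasDerivAt s
      ((hasDerivAt_id s).prodMk (hasDerivAt_const s θ))).unique
      (((hud _).comp_hasDerivAt s h1).sub_const _)
  have key := green hG (-Real.pi) Real.pi r
    (fun s => ⟨by simp only [hGd, ec_pi], by rw [hGs, hGs, ec_pi]⟩)
    (fun θ => by rw [hGt]; simp)
  have him : ∀ s θ : ℝ, (inner ℂ (fderiv ℝ G (s, θ) (1, 0)) (fderiv ℝ G (s, θ) (0, 1))).im =
      s * (‖del u (z₀ + s * ec θ)‖ ^ 2 - ‖dbar u (z₀ + s * ec θ)‖ ^ 2) := by
    intro s θ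
    rw [hGs, hGt, fderiv_eq_del, fderiv_eq_del, im_inner _ _ _ _ (norm_ec θ)]
  simp only [him] at key
  -- lower bound of the left side
  have hlow : 2 * ((1 - a ^ 2) * ∫ s in (0 : ℝ)..r, hh u z₀ s) ≤ ∫ s in (0 : ℝ)..r,
      ∫ θ in (-Real.pi)..Real.pi,
        2 * (s * (‖del u (z₀ + s * ec θ)‖ ^ 2 - ‖dbar u (z₀ + s * ec θ)‖ ^ 2)) := by
    rw [← mul_assoc, ← intervalIntegral.integral_const_mul]
    refine intervalIntegral.integral_mono_on hr
      ((continuous_const.mul (cont_hh hu z₀)).intervalIntegrable _ _)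
      (Continuous.intervalIntegrable ?_ _ _) fun s hs => ?_
    · refine intervalIntegral.continuous_parametric_intervalIntegral_of_continuous' ?_ _ _
      unfold Function.uncurry
      fun_prop
    · rw [hh, ← mul_assoc, ← intervalIntegral.integral_const_mul]
      refine intervalIntegral.integral_mono_on hab (Continuous.intervalIntegrable ?_ _ _)
        (Continuous.intervalIntegrable ?_ _ _) fun θ _ => ?_
      · fun_prop
      · fun_prop
      · have h1 := pow_le_pow_left₀ (norm_nonneg _) (hq (z₀ + s * ec θ)) 2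
        have h2 := mul_le_mul_of_nonneg_left h1 hs.1
        linarith only [h2]
  -- upper bound of the boundary term
  set g : ℝ → E := fun θ => fderiv ℝ G (r, θ) (0, 1) with hg
  have cg : Continuous g :=
    ((hG.continuous_fderiv (by norm_num)).comp (by fun_prop)).clm_apply continuous_const
  set L := ∫ θ in (-Real.pi)..Real.pi, ‖g θ‖ with hL
  have hGL : ∀ θ ∈ Icc (-Real.pi) Real.pi, ‖G (r, θ)‖ ≤ L := by
    intro θ hθ
    have h1 : ∫ t in (-Real.pi)..θ, g t = G (r, θ) - G (r, -Real.pi) :=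
      intervalIntegral.integral_eq_sub_of_hasDerivAt
        (fun t _ => by simpa only [hg, hGt] using ht r t) (cg.intervalIntegrable _ _)
    have h2 : G (r, -Real.pi) = 0 := by simp [hGd]
    rw [h2, sub_zero] at h1
    rw [← h1]
    refine (intervalIntegral.norm_integral_le_integral_norm hθ.1).trans ?_
    exact intervalIntegral.integral_mono_interval le_rfl hθ.1 hθ.2
      (Eventually.of_forall fun _ => norm_nonneg _) (cg.norm.intervalIntegrable _ _)
  have cG : Continuous fun θ => G (r, θ) := hG.continuous.comp (by fun_prop)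
  have hb1 : ∫ θ in (-Real.pi)..Real.pi, (inner ℂ (G (r, θ)) (g θ)).im ≤ L * L := by
    conv_rhs => rw [hL, ← intervalIntegral.integral_const_mul]
    refine intervalIntegral.integral_mono_on hab
      ((Complex.continuous_im.comp (cG.inner cg)).intervalIntegrable _ _)
      ((continuous_const.mul cg.norm).intervalIntegrable _ _) fun θ hθ => ?_
    exact ((le_abs_self _).trans (Complex.abs_im_le_norm _)).trans
      ((norm_inner_le_norm _ _).trans (mul_le_mul_of_nonneg_right (hGL θ hθ) (norm_nonneg _)))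
  have hgb : ∀ θ, ‖g θ‖ ≤ 2 * r * ‖del u (z₀ + r * ec θ)‖ := by
    intro θ
    have h1 := (fderiv ℝ u (z₀ + r * ec θ)).le_opNorm (r * (I * ec θ))
    have h2 := norm_fderiv_le_del u (z₀ + r * ec θ)
    have h3 := hq (z₀ + r * ec θ)
    have h4 : ‖(r : ℂ) * (I * ec θ)‖ = r := by simp [norm_ec, abs_of_nonneg hr]
    have h5 := norm_nonneg (del u (z₀ + r * ec θ))
    simp only [hg, hGt]
    rw [h4] at h1
    have h6 : ‖fderiv ℝ u (z₀ + r * ec θ)‖ ≤ 2 * ‖del u (z₀ + r * ec θ)‖ := by nlinarith only [ha, h2, h3, h5]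
    nlinarith only [hr, h1, h6]
  have hb2 : L * L ≤ L * L / 2 + 4 * Real.pi * r * hh u z₀ r := by
    have h1 : L * L ≤ ∫ θ in (-Real.pi)..Real.pi,
        (L * L / (4 * Real.pi) + (4 * Real.pi * r * r) * ‖del u (z₀ + r * ec θ)‖ ^ 2) := by
      conv_lhs => rw [hL, ← intervalIntegral.integral_const_mul]
      refine intervalIntegral.integral_mono_on hab
        ((continuous_const.mul cg.norm).intervalIntegrable _ _)
        (Continuous.intervalIntegrable (by fun_prop) _ _) fun θ _ => ?_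
      have h2 := pow_le_pow_left₀ (norm_nonneg _) (hgb θ) 2
      have h3 : L * ‖g θ‖ ≤ L * L / (4 * Real.pi) + Real.pi * ‖g θ‖ ^ 2 := by
        have h4 : L * L / (4 * Real.pi) + Real.pi * ‖g θ‖ ^ 2 - L * ‖g θ‖ =
            (L - 2 * Real.pi * ‖g θ‖) ^ 2 / (4 * Real.pi) := by
          field_simp
          ring
        have h5 : 0 ≤ (L - 2 * Real.pi * ‖g θ‖) ^ 2 / (4 * Real.pi) := by positivity
        linarith
      have h6 := mul_le_mul_of_nonneg_left h2 hpi.le
      rw [← hL]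
      linarith only [h3, h6]
    rw [intervalIntegral.integral_add (Continuous.intervalIntegrable (by fun_prop) _ _)
      (Continuous.intervalIntegrable (by fun_prop) _ _), intervalIntegral.integral_const,
      intervalIntegral.integral_const_mul] at h1
    refine h1.trans (le_of_eq ?_)
    rw [hh, smul_eq_mul]
    field_simp
    ring
  rw [key] at hlow
  linarith

end Sm'

open Sm' in
theorem thSm : StSm := by
  intro a C ε ha0 ha hε
  have hpi := Real.pi_pos
  have h1a : 0 < 1 - a ^ 2 := by nlinarith only [ha0, ha]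
  set κ := (1 - a ^ 2) * ε / (4 * Real.pi) with hκ
  have hκ0 : 0 < κ := by positivity
  have hT : 0 ≤ |C| / κ + 1 := by positivity
  refine ⟨Real.exp (-(|C| / κ + 1)), Real.exp_pos _, Real.exp_le_one_iff.2 (by linarith only [hT]), ?_⟩
  intro u hu hq z₀ hC
  set r := Real.exp (-(|C| / κ + 1)) with hr
  have hr0 : 0 < r := Real.exp_pos _
  have hr1 : r ≤ 1 := Real.exp_le_one_iff.2 (by linarith only [hT])
  have cp := (continuous_del (hu.of_le (by norm_num : (1 : WithTop ℕ∞) ≤ 2))).1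
  have cf : Continuous fun z => ‖del u z‖ ^ 2 := by fun_prop
  have ch := cont_hh hu z₀
  rw [polar cf z₀ zero_le_one] at hC
  rw [polar cf z₀ hr0.le]
  change ∫ s in (0 : ℝ)..1, hh u z₀ s ≤ C at hC
  change ∫ s in (0 : ℝ)..r, hh u z₀ s ≤ ε
  by_contra hcon
  push Not at hcon
  have hn : ∀ s, 0 ≤ s → 0 ≤ hh u z₀ s := fun s hs => mul_nonneg hs
    (intervalIntegral.integral_nonneg (by linarith only [hpi]) fun _ _ => sq_nonneg _)
  have hlow : ∀ s ∈ Icc r 1, κ * s⁻¹ ≤ hh u z₀ s := by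
    intro s hs
    have hs0 : 0 < s := hr0.trans_le hs.1
    have h1 := diff_ineq hu ha hq z₀ hs0.le
    have h2 : ∫ t in (0 : ℝ)..r, hh u z₀ t ≤ ∫ t in (0 : ℝ)..s, hh u z₀ t :=
      intervalIntegral.integral_mono_interval le_rfl hr0.le hs.1
        ((ae_restrict_mem measurableSet_Ioc).mono fun t ht => hn t ht.1.le)
        (ch.intervalIntegrable _ _)
    have h3 := mul_le_mul_of_nonneg_left (hcon.le.trans h2) h1a.le
    rw [hκ, ← div_eq_mul_inv, div_div, div_le_iff₀ (by positivity)]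
    linarith only [h1, h3]
  have hint : ∫ s in r..1, κ * s⁻¹ ≤ ∫ s in r..1, hh u z₀ s := by
    refine intervalIntegral.integral_mono_on hr1 ?_ (ch.intervalIntegrable _ _) hlow
    refine (intervalIntegral.intervalIntegrable_inv (f := fun s => s) ?_ continuousOn_id).const_mul κ
    intro s hs
    rw [uIcc_of_le hr1] at hs
    exact (hr0.trans_le hs.1).ne'
  rw [intervalIntegral.integral_const_mul, integral_inv_of_pos hr0 one_pos, one_div, Real.log_inv,
    hr, Real.log_exp, neg_neg, ← hr] at hint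
  have hadd := intervalIntegral.integral_add_adjacent_intervals
    (ch.intervalIntegrable (μ := volume) 0 r) (ch.intervalIntegrable r 1)
  have h4 : κ * (|C| / κ + 1) = |C| + κ := by field_simp
  have h5 := le_abs_self C
  linarith only [hε, hκ0, hC, hcon, hint, hadd, h4, h5]

end

end Pool.Agent.MP_be5fd0_gt.T

/-! A priori bounds for the normalised planes. -/

namespace Pool.Agent.MP_be5fd0_gt.T

open Complex Filter Topology Set Metric MeasureTheory
open scoped ContDiff BoundedContinuousFunction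

noncomputable section

namespace Ap'

/-- cut-off functions at every scale -/
theorem cutoff : ∃ c : ℝ, 0 < c ∧ ∀ (z₀ : ℂ) (r : ℝ), 0 < r → ∃ χ : ℂ → ℂ, ContDiff ℝ 1 χ ∧
    (∀ w, ‖χ w‖ ≤ 1) ∧ χ z₀ = 1 ∧ (∀ w, ‖w - z₀‖ < r / 2 → dbar χ w = 0) ∧
    (∀ w, r ≤ ‖w - z₀‖ → χ w = 0 ∧ dbar χ w = 0) ∧ ∀ w, ‖dbar χ w‖ ≤ c / r := by
  let φ : ContDiffBump (0 : ℂ) := ⟨1 / 2, 3 / 4, by norm_num, by norm_num⟩
  let Φ : ℂ → ℂ := fun w => (φ w : ℂ)
  have hΦ : ContDiff ℝ 1 Φ := ofRealCLM.contDiff.comp φ.contDiff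
  have hs : HasCompactSupport Φ := φ.hasCompactSupport.comp_left (g := fun x : ℝ => (x : ℂ)) rfl
  obtain ⟨c, hc⟩ := (hΦ.continuous_fderiv (by simp)).bounded_above_of_compact_support
    (hs.fderiv (𝕜 := ℝ))
  have hc0 : 0 ≤ c := (norm_nonneg _).trans (hc 0)
  refine ⟨c + 1, by linarith, fun z₀ r hr => ?_⟩
  let ℓ : ℂ → ℂ := fun w => r⁻¹ • (w - z₀)
  have hℓ : ∀ w, HasFDerivAt ℓ (r⁻¹ • ContinuousLinearMap.id ℝ ℂ) w := fun w =>
    ((hasFDerivAt_id w).sub_const z₀).const_smul r⁻¹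
  have hℓc : ContDiff ℝ 1 ℓ := (contDiff_id.sub contDiff_const).const_smul r⁻¹
  have hn : ∀ w, ‖ℓ w‖ = ‖w - z₀‖ / r := fun w => by
    simp only [ℓ, norm_smul, norm_inv, Real.norm_of_nonneg hr.le]
    ring
  have hz : ∀ w, 3 / 4 * r < ‖w - z₀‖ → Φ (ℓ w) = 0 := fun w hw => by
    have : φ (ℓ w) = 0 := φ.zero_of_le_dist (by
      rw [dist_zero_right, hn, le_div_iff₀ hr]; exact hw.le)
    simp only [Φ, this, ofReal_zero]
  have ho : ∀ w, ‖w - z₀‖ < r / 2 → Φ (ℓ w) = 1 := fun w hw => by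
    have : φ (ℓ w) = 1 := φ.one_of_mem_closedBall (by
      rw [mem_closedBall_zero_iff, hn, div_le_iff₀ hr]
      change _ ≤ 1 / 2 * r
      linarith)
    simp only [Φ, this, ofReal_one]
  have hcn : Continuous fun w : ℂ => ‖w - z₀‖ := (continuous_id.sub continuous_const).norm
  refine ⟨fun w => Φ (ℓ w), hΦ.comp hℓc, fun w => ?_, ho _ (by simpa using hr), fun w hw => ?_,
    fun w hw => ⟨hz w (by linarith only [hr, hw]), ?_⟩, fun w => ?_⟩
  · simp only [Φ, norm_real, Real.norm_of_nonneg φ.nonneg]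
    exact φ.le_one
  · have : (fun w => Φ (ℓ w)) =ᶠ[𝓝 w] fun _ => 1 :=
      ((isOpen_lt hcn continuous_const).eventually_mem hw).mono fun v hv => ho v hv
    rw [(del_congr this).2, (del_const _ _).2]
  · have hw' : 3 / 4 * r < ‖w - z₀‖ := by linarith only [hr, hw]
    have : (fun w => Φ (ℓ w)) =ᶠ[𝓝 w] fun _ => 0 :=
      ((isOpen_lt continuous_const hcn).eventually_mem hw').mono fun v hv => hz v hv
    rw [(del_congr this).2, (del_const _ _).2]
  · refine (norm_dbar_le _ _).trans ?_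
    have h1 := ((hΦ.differentiable (by simp)) (ℓ w)).hasFDerivAt.comp w (hℓ w)
    have h2 : fderiv ℝ (fun w => Φ (ℓ w)) w = _ := h1.fderiv
    rw [h2]
    refine (ContinuousLinearMap.opNorm_comp_le _ _).trans ?_
    have h3 : ‖r⁻¹ • ContinuousLinearMap.id ℝ ℂ‖ ≤ r⁻¹ := by
      rw [norm_smul, norm_inv, Real.norm_of_nonneg hr.le]
      exact mul_le_of_le_one_right (by positivity) ContinuousLinearMap.norm_id_le
    rw [div_eq_mul_inv]
    exact mul_le_mul ((hc _).trans (by linarith only [])) h3 (norm_nonneg _) (by linarith)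

/-- local Pompeiu estimate -/
theorem local_est (hT1 : StT1) (hT3 : StT3) : ∃ c : ℝ, 0 < c ∧ ∀ (η : ℂ → E) (z₀ : ℂ)
    (r m κ : ℝ), 0 < r → 0 < κ → ContDiff ℝ 1 η → (∀ w, ‖dbar η w‖ ≤ m) →
    ∫ z in ball z₀ r, ‖η z‖ ^ 2 ≤ κ ^ 2 → ‖η z₀‖ ≤ 2 * r * m + c * κ / r := by
  obtain ⟨c, hc, H⟩ := cutoff
  refine ⟨5 * c, by positivity, fun η z₀ r m κ hr hκ hη hm he => ?_⟩
  obtain ⟨χ, h1, h2, h3, h4, h5, h6⟩ := H z₀ r hr
  have hρ : 0 < ‖z₀‖ + r := by positivity
  have hfar : ∀ w, ‖z₀‖ + r ≤ ‖w‖ → r ≤ ‖w - z₀‖ := fun w hw => by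
    linarith [norm_sub_norm_le w z₀]
  let g₁ : ℂ → E := fun w => χ w • dbar η w
  let g₂ : ℂ → E := fun w => dbar χ w • η w
  have c₁ : Continuous g₁ := h1.continuous.smul (continuous_del hη).2
  have c₂ : Continuous g₂ := (continuous_del h1).2.smul hη.continuous
  have s₁ : ∀ w, r ≤ ‖w - z₀‖ → g₁ w = 0 := fun w hw => by simp only [g₁, (h5 w hw).1, zero_smul]
  have s₂ : ∀ w, r ≤ ‖w - z₀‖ → g₂ w = 0 := fun w hw => by simp only [g₂, (h5 w hw).2, zero_smul]
  have b₁ : ∀ w, ‖g₁ w‖ ≤ m := fun w => by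
    simp only [g₁, norm_smul]
    exact (mul_le_of_le_one_left (norm_nonneg _) (h2 w)).trans (hm w)
  have k₂ : HasCompactSupport g₂ :=
    HasCompactSupport.intro (isCompact_closedBall z₀ r) fun w hw =>
      s₂ w (by rw [mem_closedBall_iff_norm, not_le] at hw; exact hw.le)
  obtain ⟨m₂, b₂⟩ := c₂.bounded_above_of_compact_support k₂
  have hd : dbar (fun w => χ w • η w) = fun w => g₁ w + g₂ w := funext fun w =>
    (del_smul (h1.differentiable (by simp) w) (hη.differentiable (by simp) w)).2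
  have kF : HasCompactSupport fun w => χ w • η w :=
    HasCompactSupport.intro (isCompact_closedBall z₀ r) fun w hw => by
      rw [mem_closedBall_iff_norm, not_le] at hw
      simp only [(h5 w hw.le).1, zero_smul]
  have hP := hT3 E (fun w => χ w • η w) 0 (‖z₀‖ + r) (h1.smul hη) kF.is_zero_at_infty
    (fun w hw => by rw [hd]; simp only [s₁ w (hfar w hw), s₂ w (hfar w hw), add_zero]) z₀
  obtain ⟨c', _, hI⟩ := hT1.1 _ hρ
  have i₁ := (hI E g₁ m c₁ (fun w hw => s₁ w (hfar w hw)) b₁).1 z₀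
  have i₂ := (hI E g₂ m₂ c₂ (fun w hw => s₂ w (hfar w hw)) b₂).1 z₀
  rw [hd, (cT_add i₁ i₂).1, h3, one_smul, zero_add] at hP
  have e₁ := (hT1.2 E g₁ m _ c₁ (fun w hw => s₁ w (hfar w hw)) b₁).2.1 z₀ r hr s₁
  have e₂ := (hT1.2 E g₂ m₂ _ c₂ (fun w hw => s₂ w (hfar w hw)) b₂).2.2 z₀ (r / 2) (by positivity)
    (fun w hw => by simp only [g₂, h4 w hw, zero_smul])
  have hη2 : IntegrableOn (fun z => ‖η z‖ ^ 2) (ball z₀ r) :=
    ((hη.continuous.norm.pow 2).continuousOn.integrableOn_compact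
      (isCompact_closedBall z₀ r)).mono_set ball_subset_closedBall
  have hcst : IntegrableOn (fun _ : ℂ => κ / (2 * r)) (ball z₀ r) :=
    integrableOn_const measure_ball_lt_top.ne
  have e₃ : ∫ w, ‖g₂ w‖ ≤ c / r * (5 / 2 * κ * r) := by
    rw [← setIntegral_eq_integral_of_forall_compl_eq_zero (s := ball z₀ r) fun w hw => by
      rw [mem_ball_iff_norm, not_lt] at hw
      rw [s₂ w hw, norm_zero]]
    calc ∫ w in ball z₀ r, ‖g₂ w‖
        ≤ ∫ w in ball z₀ r, c / r * (κ / (2 * r) + r / (2 * κ) * ‖η w‖ ^ 2) := by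
          refine setIntegral_mono_on ((c₂.norm.continuousOn.integrableOn_compact
            (isCompact_closedBall z₀ r)).mono_set ball_subset_closedBall)
            ((hcst.add (hη2.const_mul _)).const_mul _) measurableSet_ball fun w _ => ?_
          simp only [g₂, norm_smul]
          refine mul_le_mul (h6 w) ?_ (norm_nonneg _) (by positivity)
          have : κ / (2 * r) + r / (2 * κ) * ‖η w‖ ^ 2 - ‖η w‖ =
              (κ - r * ‖η w‖) ^ 2 / (2 * r * κ) := by
            field_simp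
            ring
          have h7 : 0 ≤ (κ - r * ‖η w‖) ^ 2 / (2 * r * κ) := by positivity
          linarith
      _ = c / r * (κ / (2 * r) * (Real.pi * r ^ 2) +
            r / (2 * κ) * ∫ w in ball z₀ r, ‖η w‖ ^ 2) := by
          rw [integral_const_mul, integral_add hcst (hη2.const_mul _), integral_const_mul,
            setIntegral_const, smul_eq_mul, mul_comm (volume.real _)]
          congr 3
          rw [Measure.real, Complex.volume_ball, ENNReal.toReal_mul, ENNReal.toReal_pow,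
            ENNReal.toReal_ofReal hr.le, ENNReal.coe_toReal, NNReal.coe_real_pi, mul_comm]
      _ ≤ c / r * (5 / 2 * κ * r) := by
          refine mul_le_mul_of_nonneg_left ?_ (by positivity)
          have h7 : r / (2 * κ) * ∫ w in ball z₀ r, ‖η w‖ ^ 2 ≤ r / (2 * κ) * κ ^ 2 :=
            mul_le_mul_of_nonneg_left he (by positivity)
          have h8 : κ / (2 * r) * (Real.pi * r ^ 2) ≤ κ / (2 * r) * (4 * r ^ 2) :=
            mul_le_mul_of_nonneg_left
              (mul_le_mul_of_nonneg_right Real.pi_le_four (by positivity)) (by positivity)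
          have h9 : κ / (2 * r) * (4 * r ^ 2) + r / (2 * κ) * κ ^ 2 = 5 / 2 * κ * r := by
            field_simp
            ring
          linarith
  have e₄ : (r / 2)⁻¹ * ∫ w, ‖g₂ w‖ ≤ (r / 2)⁻¹ * (c / r * (5 / 2 * κ * r)) :=
    mul_le_mul_of_nonneg_left e₃ (by positivity)
  have e₅ : (r / 2)⁻¹ * (c / r * (5 / 2 * κ * r)) = 5 * c * κ / r := by
    field_simp
  rw [hP]
  refine (norm_add_le _ _).trans ?_
  linarith only [e₁, e₂, e₄, e₅]

theorem norm_e0 (hSw : StSw) : ‖mk 1 0‖ ≤ 1 := by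
  simpa only [norm_one, norm_zero, add_zero] using hSw.2.2.2.2.2.2.2.2.2.2.2.1 1 0

theorem dbar_le {A : E → Op} {a M R : ℝ} {y : ℂ} {u : ℂ → E} (hA : Fld A a M R) (hu : Sol A y u)
    (z : ℂ) : ‖dbar u z‖ ≤ a * ‖del u z‖ := by
  rw [hu.eq]
  exact ((A (u z)).le_opNorm _).trans (mul_le_mul_of_nonneg_right (hA.le _) (norm_nonneg _))

/-- the gradient bound -/
theorem grad (hT1 : StT1) (hT3 : StT3) (hSw : StSw) (hRr : StRr) (hReg : StReg) (hEn : StEn)
    (hSm : StSm) (a M R : ℝ) : ∃ G : ℝ, 0 < G ∧ ∀ A y u, Fld A a M R → Sol A y u →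
      ∀ z, ‖del u z‖ ≤ G := by
  by_cases ha : 0 ≤ a ∧ a < 1
  swap
  · exact ⟨1, one_pos, fun A y u hA _ => absurd ⟨hA.a0, hA.a1⟩ ha⟩
  obtain ⟨c, hc, hL⟩ := local_est hT1 hT3
  obtain ⟨C, hC, hR⟩ := hRr a M R
  obtain ⟨C', _, hE⟩ := hEn a M R
  have hκ : 0 < 1 / (16 * c * C) := by positivity
  obtain ⟨r₀, hr₀, _, hS⟩ := hSm a C' ((1 / (16 * c * C)) ^ 2) ha.1 ha.2 (by positivity)
  refine ⟨2 + 1 / (4 * C * r₀), by positivity, fun A y u hA hu z₁ => ?_⟩
  by_contra hz₁
  rw [not_le] at hz₁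
  obtain ⟨hη, hu2, hq, hlim⟩ := hReg A a M R y u hA hu
  have hpos : 0 < 1 / (4 * C * r₀) := by positivity
  have hev : ∀ᶠ z in cocompact ℂ, ‖del u z‖ ≤ ‖del u z₁‖ :=
    (hlim.norm.eventually_lt_const (u := 2) (by linarith only [norm_e0 hSw])).mono fun z hz => by
      linarith only [hz₁, hpos, hz]
  obtain ⟨z₀, hz₀⟩ := hη.continuous.norm.exists_forall_ge' z₁ hev
  set G := ‖del u z₀‖ with hG
  have hG1 : 2 + 1 / (4 * C * r₀) < G := hz₁.trans_le (hz₀ z₁)
  have hG0 : 0 < G := by linarith only [hpos, hG1]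
  have hr : 0 < 1 / (4 * C * G) := by positivity
  have hrr : 1 / (4 * C * G) ≤ r₀ := by
    have h1 : 1 / (4 * C * r₀) ≤ G := by linarith only [hG1]
    rw [div_le_iff₀ (by positivity)] at h1 ⊢
    linarith only [h1]
  have hm : ∀ w, ‖dbar (del u) w‖ ≤ C * G * G := fun w => by
    rw [hq]
    refine (ContinuousLinearMap.le_opNorm _ _).trans ?_
    exact mul_le_mul (((hR A hA).2.2.2.2.2.1 _ _).trans
      (mul_le_mul_of_nonneg_left (hz₀ w) hC.le)) (hz₀ w) (norm_nonneg _) (by positivity)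
  have he : ∫ z in ball z₀ (1 / (4 * C * G)), ‖del u z‖ ^ 2 ≤ (1 / (16 * c * C)) ^ 2 := by
    refine le_trans ?_ (hS u hu2 (dbar_le hA hu) z₀ ((hE A y u hA hu).2 z₀))
    exact setIntegral_mono_set (((hη.continuous.norm.pow 2).continuousOn.integrableOn_compact
      (isCompact_closedBall z₀ r₀)).mono_set ball_subset_closedBall)
      (Eventually.of_forall fun z => by positivity) (ball_subset_ball hrr).eventuallyLE
  have h := hL (del u) z₀ _ _ _ hr hκ hη hm he
  have e : 2 * (1 / (4 * C * G)) * (C * G * G) + c * (1 / (16 * c * C)) / (1 / (4 * C * G)) =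
      3 / 4 * G := by
    field_simp
    ring
  rw [e, ← hG] at h
  linarith only [hpos, hG1, h]

theorem lip_of {X Y : Type} [NormedAddCommGroup X] [NormedSpace ℝ X] [NormedAddCommGroup Y]
    [NormedSpace ℝ Y] {f : X → Y} {K : ℝ} (hf : Differentiable ℝ f)
    (h : ∀ x, ‖fderiv ℝ f x‖ ≤ K) (z w : X) : ‖f z - f w‖ ≤ K * ‖z - w‖ :=
  convex_univ.norm_image_sub_le_of_norm_fderiv_le (fun x _ => hf x) (fun x _ => h x)
    (mem_univ w) (mem_univ z)

theorem fderiv_sub_le (u : ℂ → E) (z w : ℂ) :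
    ‖fderiv ℝ u z - fderiv ℝ u w‖ ≤ ‖del u z - del u w‖ + ‖dbar u z - dbar u w‖ := by
  refine ContinuousLinearMap.opNorm_le_bound _ (by positivity) fun ζ => ?_
  have e : (fderiv ℝ u z - fderiv ℝ u w) ζ =
      ζ • (del u z - del u w) + (starRingEnd ℂ ζ) • (dbar u z - dbar u w) := by
    rw [sub_apply, fderiv_eq_del, fderiv_eq_del]
    module
  rw [e]
  refine (norm_add_le _ _).trans (le_of_eq ?_)
  rw [norm_smul, norm_smul, Complex.norm_conj]
  ring

theorem apply_sub_le (P Q : Op) (x y : E) : ‖P x - Q y‖ ≤ ‖P - Q‖ * ‖x‖ + ‖Q‖ * ‖x - y‖ := by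
  have e : P x - Q y = (P - Q) x + Q (x - y) := by
    rw [sub_apply, map_sub]
    abel
  rw [e]
  exact (norm_add_le _ _).trans (add_le_add ((P - Q).le_opNorm _) (Q.le_opNorm _))

theorem coord (hSw : StSw) (u : ℂ → E) (y z : ℂ) : ‖z‖ - ‖u z - mk z y‖ ≤ ‖u z 0‖ := by
  have h1 := hSw.2.2.2.2.2.2.2.2.2.2.2.2.1 (u z - mk z y) 0
  have h2 : (u z - mk z y) 0 = u z 0 - z := by simp [mk]
  rw [h2, norm_sub_rev] at h1
  linarith [norm_sub_norm_le z (u z 0)]

/-- representation of the solution -/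
theorem repr (hT3 : StT3) (hSw : StSw) {A : E → Op} {y : ℂ} {u : ℂ → E} (hu : Sol A y u) {ρ : ℝ}
    (h : ∀ z, ρ ≤ ‖z‖ → dbar u z = 0) (z : ℂ) : u z - mk z y = cT (dbar u) z := by
  obtain ⟨h1, _, h3⟩ := hSw.2.2.2.2.2.2.2.2.2.2.2.2.2.2 y
  have hd : dbar (fun z => u z - mk z y) = dbar u := funext fun w => by
    rw [(del_sub (hu.c1.differentiable (by simp) w) (h1.differentiable (by simp) w)).2, h3,
      sub_zero]
  have := hT3 E (fun z => u z - mk z y) 0 ρ (hu.c1.sub (h1.of_le (by simp))) hu.asy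
    (by rw [hd]; exact h) z
  rwa [hd, zero_add] at this

end Ap'

open Ap' in
theorem thAp (hT1 : StT1) (hT2 : StT2) (hT3 : StT3) (hSw : StSw) (hRr : StRr) (hReg : StReg)
    (hEn : StEn) (hSm : StSm) : StAp := by
  intro a M R
  obtain ⟨G, hG, hη⟩ := grad hT1 hT3 hSw hRr hReg hEn hSm a M R
  obtain ⟨C, hC, hR⟩ := hRr a M R
  obtain ⟨C', hC', hE⟩ := hEn a M R
  obtain ⟨C₀, hC₀⟩ : ∃ C₀, C₀ = G * (2 + C') := ⟨_, rfl⟩
  have pC₀ : 0 < C₀ := by rw [hC₀]; positivity
  obtain ⟨ρ, hρ⟩ : ∃ ρ, ρ = |R| + 1 + C₀ := ⟨_, rfl⟩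
  have pρ : 0 < ρ := by rw [hρ]; positivity
  obtain ⟨c₁, hc₁, h1⟩ := hT1.1 ρ pρ
  obtain ⟨c₂, hc₂, h2⟩ := hT2 ρ pρ
  obtain ⟨m₁, hm₁⟩ : ∃ m₁, m₁ = C * G * G := ⟨_, rfl⟩
  have pm₁ : 0 < m₁ := by rw [hm₁]; positivity
  obtain ⟨m₂, hm₂⟩ : ∃ m₂, m₂ = 2 * m₁ + C * G * (G * (2 * G) + 2 * (c₁ * m₁)) := ⟨_, rfl⟩
  have pm₂ : 0 < m₂ := by rw [hm₂]; positivity
  obtain ⟨L, hL⟩ : ∃ L, L = 2 * (c₂ * m₂) + |M| * (2 * G) * G := ⟨_, rfl⟩
  have pL : 0 < L := by rw [hL]; positivity
  have p1 : 0 < c₁ * G := by positivity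
  have p2 : 0 < c₁ * m₁ := by positivity
  have p3 : 0 < c₂ * m₂ := by positivity
  have p4 : 0 ≤ |M| * (2 * G) * G := by positivity
  refine ⟨ρ + c₁ * G + 2 * G + L + c₁ * m₁, by positivity, fun A y u hA hu => ?_⟩
  have bη := hη A y u hA hu
  obtain ⟨hη1, _, hq, hlim⟩ := hReg A a M R y u hA hu
  have bd : ∀ z, ‖dbar u z‖ ≤ G := fun z => (dbar_le hA hu z).trans
    ((mul_le_of_le_one_left (norm_nonneg _) hA.a1.le).trans (bη z))
  have cd := (continuous_del hu.c1).2
  have zd : ∀ z, R ≤ ‖u z 0‖ → dbar u z = 0 := fun z hz => by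
    rw [hu.eq, hA.supp _ hz, zero_apply]
  -- the `C⁰` bound
  have b0 : ∀ z, ‖u z - mk z y‖ ≤ C₀ := by
    have h3 : ∀ᶠ z in cocompact ℂ, ‖u z - mk z y‖ < 1 :=
      hu.asy.norm.eventually_lt_const (by simp)
    obtain ⟨K, hK, hK'⟩ := (hasBasis_cocompact.eventually_iff).1 h3
    obtain ⟨s, hs⟩ := hK.isBounded.exists_norm_le
    have h4 : ∀ z, max (s + 1) (R + 1) ≤ ‖z‖ → dbar u z = 0 := fun z hz => zd z (by
      have h5 : z ∈ Kᶜ := fun h => by linarith only [hs z h, le_max_left (s + 1) (R + 1), hz]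
      linarith only [hK' h5, coord hSw u y z, le_max_right (s + 1) (R + 1), hz])
    intro z
    rw [repr hT3 hSw hu h4, hC₀]
    have hc0 : Continuous fun z => ‖u z 0‖ :=
      ((EuclideanSpace.proj (0 : Fin 2) : E →L[ℂ] ℂ).continuous.comp hu.c1.continuous).norm
    exact (hT1.2 E (dbar u) G _ cd h4 bd).1 {z | ‖u z 0‖ ≤ R} C' hC'.le
      (isClosed_le hc0 continuous_const).measurableSet (hE A y u hA hu).1
      (fun w hw => zd w (not_le.1 hw).le) z
  have out : ∀ z, ρ ≤ ‖z‖ → R + 1 ≤ ‖u z 0‖ := fun z hz => by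
    linarith only [coord hSw u y z, b0 z, le_abs_self R, hρ, hz]
  have sd : ∀ z, ρ ≤ ‖z‖ → dbar u z = 0 := fun z hz => zd z (by linarith only [out z hz])
  have dec : ∀ z, ‖z‖ * ‖u z - mk z y‖ ≤ c₁ * G := fun z => by
    rw [repr hT3 hSw hu sd]
    exact (h1 E (dbar u) G cd sd bd).2.2.2.1 z
  have b1 : ∀ z, ‖fderiv ℝ u z‖ ≤ 2 * G := fun z => by
    linarith only [norm_fderiv_le_del u z, bη z, bd z]
  have lu := lip_of (hu.c1.differentiable (by simp)) b1
  -- the equation for `η`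
  obtain ⟨_, _, _, _, _, r1, r2, _, r3, _⟩ := hR A hA
  have r4 : ∀ z, ‖Rr A (u z) (del u z)‖ ≤ C * G := fun z =>
    (r1 _ _).trans (mul_le_mul_of_nonneg_left (bη z) hC.le)
  have cg := (continuous_del hη1).2
  have sg : ∀ z, ρ ≤ ‖z‖ → dbar (del u) z = 0 := fun z hz => by
    rw [hq, (r3 _ (by linarith only [out z hz])).2, zero_apply]
  have bg : ∀ z, ‖dbar (del u) z‖ ≤ m₁ := fun z => by
    rw [hq, hm₁]
    exact (ContinuousLinearMap.le_opNorm _ _).trans
      (mul_le_mul (r4 z) (bη z) (norm_nonneg _) (by positivity))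
  have eη := hT3 E (del u) (mk 1 0) ρ hη1 hlim sg
  have eη' : ∀ z w, del u z - del u w = cT (dbar (del u)) z - cT (dbar (del u)) w := fun z w => by
    conv_lhs => rw [eη z, eη w]
    abel
  obtain ⟨_, _, _, d1, d2⟩ := h1 E (dbar (del u)) m₁ cg sg bg
  have hH : Hc ρ m₂ (dbar (del u)) := by
    have q0 : 0 ≤ C * G * (G * (2 * G) + 2 * (c₁ * m₁)) := by positivity
    refine ⟨sg, fun z => (bg z).trans (by linarith only [pm₁, hm₂, q0]), fun z w => ?_⟩
    have s0 := Real.sqrt_nonneg ‖z - w‖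
    rcases le_total ‖z - w‖ 1 with h | h
    · have s1 : ‖z - w‖ ≤ √‖z - w‖ := Real.le_sqrt_of_sq_le (by nlinarith only [norm_nonneg (z - w), h])
      have s2 : ‖del u z - del u w‖ ≤ c₁ * m₁ * √‖z - w‖ := by rw [eη']; exact d2 z w
      have s3 : ‖u z - u w‖ ≤ 2 * G * √‖z - w‖ :=
        (lu z w).trans (mul_le_mul_of_nonneg_left s1 (by positivity))
      have s4 : ‖Rr A (u z) (del u z) - Rr A (u w) (del u w)‖ ≤
          C * (G * (2 * G * √‖z - w‖) + c₁ * m₁ * √‖z - w‖) :=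
        (r2 _ _ _ _).trans (mul_le_mul_of_nonneg_left
          (add_le_add (mul_le_mul (bη z) s3 (norm_nonneg _) hG.le) s2) hC.le)
      rw [hq, hq]
      refine (apply_sub_le _ _ _ _).trans ?_
      have s5 := mul_le_mul s4 (bη z) (norm_nonneg _) (by positivity)
      have s6 := mul_le_mul (r4 w) s2 (norm_nonneg _) (by positivity)
      have s7 : 0 ≤ 2 * m₁ * √‖z - w‖ := by positivity
      have s8 : m₂ * √‖z - w‖ = 2 * m₁ * √‖z - w‖ +
          (C * (G * (2 * G * √‖z - w‖) + c₁ * m₁ * √‖z - w‖) * G +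
            C * G * (c₁ * m₁ * √‖z - w‖)) := by
        rw [hm₂]; ring
      linarith only [s5, s6, s7, s8]
    · have s1 : 1 ≤ √‖z - w‖ := Real.one_le_sqrt.2 h
      have s2 := le_mul_of_one_le_right pm₂.le s1
      linarith only [norm_sub_le (dbar (del u) z) (dbar (del u) w), bg z, bg w, hm₂, q0, s2]
  obtain ⟨t1, _, t2, _⟩ := h2 E (dbar (del u)) m₂ hH
  have lη : ∀ z w, ‖del u z - del u w‖ ≤ c₂ * m₂ * ‖z - w‖ := fun z w => by
    rw [eη']
    exact lip_of (t1.differentiable (by simp)) t2 z w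
  have lA := lip_of (K := |M|) (hA.smooth.differentiable (by simp)) fun q => by
    have := hA.bd 1 (by norm_num) q
    rw [← norm_iteratedFDeriv_fderiv, norm_iteratedFDeriv_zero] at this
    exact this.trans (le_abs_self M)
  have lip : ∀ z w, ‖fderiv ℝ u z - fderiv ℝ u w‖ ≤ L * ‖z - w‖ := fun z w => by
    refine (fderiv_sub_le u z w).trans ?_
    rw [hu.eq, hu.eq]
    have s1 := apply_sub_le (A (u z)) (A (u w)) (del u z) (del u w)
    have s2 : ‖A (u z) - A (u w)‖ ≤ |M| * (2 * G * ‖z - w‖) :=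
      (lA _ _).trans (mul_le_mul_of_nonneg_left (lu z w) (abs_nonneg M))
    have s3 := mul_le_mul s2 (bη z) (norm_nonneg _) (by positivity)
    have s4 : ‖A (u w)‖ * ‖del u z - del u w‖ ≤ ‖del u z - del u w‖ :=
      mul_le_of_le_one_left (norm_nonneg _) ((hA.le _).trans hA.a1.le)
    have s5 : L * ‖z - w‖ = 2 * (c₂ * m₂ * ‖z - w‖) + |M| * (2 * G * ‖z - w‖) * G := by
      rw [hL]; ring
    linarith only [lη z w, s1, s3, s4, s5]
  have pR := abs_nonneg R
  refine ⟨fun z => (b0 z).trans (by linarith), fun z => (dec z).trans (by linarith),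
    fun z => (b1 z).trans (by linarith),
    fun z w => (lip z w).trans (mul_le_mul_of_nonneg_right (by linarith only [hG, pC₀, hρ, p1, p2, pR]) (norm_nonneg _)),
    fun z => (bη z).trans (by linarith),
    fun z w => (lη z w).trans (mul_le_mul_of_nonneg_right (by linarith) (norm_nonneg _)),
    fun z => ?_, fun z hz => out z (by linarith)⟩
  have e : del u z - mk 1 0 = cT (dbar (del u)) z := by
    conv_lhs => rw [eη z]
    abel
  rw [e]
  exact (d1 z).trans (by linarith only [hG, pC₀, hρ, hL, p1, p3, p4, pR])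

end

end Pool.Agent.MP_be5fd0_gt.T

/-! Block F: similarity bounds for the determinant `det (del u, ξ)`. -/

namespace Pool.Agent.MP_be5fd0_gt.T

open Complex Filter Topology Set Metric MeasureTheory
open scoped ContDiff BoundedContinuousFunction

noncomputable section

namespace F'

def Lc (P : Op) (w : E) : E := (1 / 2 : ℂ) • (P w - I • P (I • w))
def Nc (P : Op) (w : E) : E := (1 / 2 : ℂ) • (P w + I • P (I • w))
def perp (n : E) : E := mk (-(starRingEnd ℂ (n 1))) (starRingEnd ℂ (n 0))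
def un (η : E) : E := ‖η‖⁻¹ • η
def tr (P : Op) : ℂ := Lc P (mk 1 0) 0 + Lc P (mk 0 1) 1
def mu (P : Op) (η : E) : ℂ := det2 (un η) (Nc P (perp (un η)))

theorem P_smul (P : Op) (c : ℂ) (w : E) :
    P (c • w) = (c.re : ℂ) • P w + (c.im : ℂ) • P (I • w) := by
  have h : c • w = c.re • w + c.im • (I • w) := by
    rw [← ofReal_smul', ← ofReal_smul', smul_smul, ← add_smul, re_add_im]
  rw [h, map_add, map_smul, map_smul, ofReal_smul', ofReal_smul']

theorem P_smul' (P : Op) (c : ℂ) (w : E) :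
    P (I • c • w) = (c.re : ℂ) • P (I • w) - (c.im : ℂ) • P w := by
  rw [smul_comm, P_smul, smul_smul I I, I_mul_I, neg_smul, one_smul, map_neg, smul_neg,
    sub_eq_add_neg]

theorem Lc_smul (P : Op) (c : ℂ) (w : E) : Lc P (c • w) = c • Lc P w := by
  have h1 : c = (c.re : ℂ) + (c.im : ℂ) * I := (re_add_im c).symm
  rw [Lc, Lc, P_smul', P_smul]
  generalize (c.re : ℂ) = a at h1 ⊢
  generalize (c.im : ℂ) = b at h1 ⊢
  subst h1
  match_scalars
  · ring
  · linear_combination (b / 2) * I_sq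

theorem Nc_smul (P : Op) (c : ℂ) (w : E) : Nc P (c • w) = starRingEnd ℂ c • Nc P w := by
  have h2 : starRingEnd ℂ c = (c.re : ℂ) - (c.im : ℂ) * I := by
    apply Complex.ext <;> simp
  rw [Nc, Nc, P_smul', P_smul, h2]
  match_scalars
  · ring
  · linear_combination (c.im / 2 : ℂ) * I_sq

theorem Lc_add (P : Op) (x y : E) : Lc P (x + y) = Lc P x + Lc P y := by
  simp only [Lc, smul_add, map_add]; module

theorem Nc_add (P : Op) (x y : E) : Nc P (x + y) = Nc P x + Nc P y := by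
  simp only [Nc, smul_add, map_add]; module

theorem Nc_sub (P : Op) (x y : E) : Nc P (x - y) = Nc P x - Nc P y := by
  simp only [Nc, smul_sub, map_sub]; module

theorem Lc_sub' (P Q : Op) (x : E) : Lc (P - Q) x = Lc P x - Lc Q x := by
  simp only [Lc, sub_apply]; module

theorem Nc_sub' (P Q : Op) (x : E) : Nc (P - Q) x = Nc P x - Nc Q x := by
  simp only [Nc, sub_apply]; module

theorem LN (P : Op) (x : E) : P x = Lc P x + Nc P x := by
  simp only [Lc, Nc]; module

theorem norm_LN (P : Op) (x : E) : ‖Lc P x‖ ≤ ‖P‖ * ‖x‖ ∧ ‖Nc P x‖ ≤ ‖P‖ * ‖x‖ := by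
  have h1 := P.le_opNorm x
  have h2 : ‖I • P (I • x)‖ ≤ ‖P‖ * ‖x‖ := by
    have := P.le_opNorm (I • x)
    rw [norm_smul, norm_I, one_mul] at this ⊢
    exact this
  have h3 := norm_sub_le (P x) (I • P (I • x))
  have h4 := norm_add_le (P x) (I • P (I • x))
  have h5 : ‖(1 / 2 : ℂ)‖ = 1 / 2 := by simp
  constructor
  · rw [Lc, norm_smul, h5]; linarith only [h1, h2, h3]
  · rw [Nc, norm_smul, h5]; linarith only [h1, h2, h4]

theorem basis (x : E) : x = x 0 • mk 1 0 + x 1 • mk 0 1 := by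
  ext i; fin_cases i <;> simp [mk]

theorem Lc_apply (P : Op) (x : E) (i : Fin 2) :
    Lc P x i = x 0 * Lc P (mk 1 0) i + x 1 * Lc P (mk 0 1) i := by
  conv_lhs => rw [basis x, Lc_add, Lc_smul, Lc_smul]
  simp

theorem norm_perp (n : E) : ‖perp n‖ = ‖n‖ := by
  simp [perp, mk, EuclideanSpace.norm_eq, Fin.sum_univ_two, add_comm]

theorem perp_sub (n m : E) : perp (n - m) = perp n - perp m := by
  ext i; fin_cases i <;> simp only [perp, mk, Fin.isValue, PiLp.sub_apply, map_sub, neg_sub, Fin.zero_eta, Matrix.cons_val_zero, sub_neg_eq_add, Fin.mk_one, Matrix.cons_val_one, Matrix.cons_val_fin_one]; ring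

theorem norm_un (η : E) : ‖un η‖ ≤ 1 := by
  rw [un, norm_smul, norm_inv, norm_norm]
  exact inv_mul_le_one_of_le₀ le_rfl (norm_nonneg _)

theorem un_sub (η η' : E) : ‖η'‖ * ‖un η - un η'‖ ≤ 2 * ‖η - η'‖ := by
  have h0 : ∀ x : E, ‖x‖ • un x = x := fun x => by
    by_cases h : x = 0
    · simp [h]
    · rw [un, smul_smul, mul_inv_cancel₀ (norm_ne_zero_iff.2 h), one_smul]
  have h1 : ‖η'‖ • (un η - un η') = (η - η') + (‖η'‖ - ‖η‖) • un η := by
    rw [smul_sub, sub_smul, h0, h0]; abel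
  have h2 : ‖(‖η'‖ - ‖η‖) • un η‖ ≤ ‖η - η'‖ := by
    rw [norm_smul, Real.norm_eq_abs, norm_sub_rev]
    exact (mul_le_of_le_one_right (abs_nonneg _) (norm_un η)).trans (abs_norm_sub_norm_le _ _)
  have h3 := norm_add_le (η - η') ((‖η'‖ - ‖η‖) • un η)
  rw [← h1, norm_smul, norm_norm] at h3
  linarith

theorem decomp {n : E} (hn : ‖n‖ = 1) (ξ : E) :
    ξ = (starRingEnd ℂ (n 0) * ξ 0 + starRingEnd ℂ (n 1) * ξ 1) • n + det2 n ξ • perp n := by
  have h : n 0 * starRingEnd ℂ (n 0) + n 1 * starRingEnd ℂ (n 1) = 1 := by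
    have h1 := EuclideanSpace.norm_sq_eq n
    rw [hn, Fin.sum_univ_two] at h1
    rw [mul_conj', mul_conj']
    have h2 : ((‖n 0‖ ^ 2 + ‖n 1‖ ^ 2 : ℝ) : ℂ) = (1 : ℝ) := by congr 1; linarith
    simpa only [Fin.isValue, ofReal_add, ofReal_pow, ofReal_one] using h2
  ext i; fin_cases i
  · simp [perp, mk, det2]; linear_combination (-ξ 0) * h
  · simp [perp, mk, det2]; linear_combination (-ξ 1) * h

theorem alg (P : Op) (η ξ : E) (h : P (I • η) = I • P η) :
    det2 (P η) ξ + det2 η (P ξ) = tr P * det2 η ξ + mu P η * starRingEnd ℂ (det2 η ξ) := by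
  have hN : Nc P η = 0 := by
    rw [Nc, h, smul_smul I I, I_mul_I, neg_smul, one_smul, add_neg_cancel, smul_zero]
  have h1 : det2 η (Nc P ξ) = mu P η * starRingEnd ℂ (det2 η ξ) := by
    by_cases h0 : η = 0
    · simp [h0, det2]
    have hs : ‖η‖ ≠ 0 := norm_ne_zero_iff.2 h0
    have hn : ‖un η‖ = 1 := by rw [un, norm_smul, norm_inv, norm_norm, inv_mul_cancel₀ hs]
    have e : η = (‖η‖ : ℂ) • un η := by
      rw [ofReal_smul', un, smul_smul, mul_inv_cancel₀ hs, one_smul]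
    have hN' : Nc P (un η) = 0 := by rw [un, ← ofReal_smul', Nc_smul, hN, smul_zero]
    have e2 : Nc P ξ = starRingEnd ℂ (det2 (un η) ξ) • Nc P (perp (un η)) := by
      conv_lhs => rw [decomp hn ξ, Nc_add, Nc_smul, Nc_smul, hN', smul_zero, zero_add]
    have e3 : ∀ x, det2 η x = (‖η‖ : ℂ) * det2 (un η) x := fun x => by
      conv_lhs => rw [e]
      simp only [det2, PiLp.smul_apply, smul_eq_mul]; ring
    rw [e2, e3, e3, mu, map_mul, conj_ofReal]
    simp only [det2, PiLp.smul_apply, smul_eq_mul]; ring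
  rw [← h1, LN P η, LN P ξ, hN, add_zero, tr]
  simp only [det2, PiLp.add_apply, Lc_apply P η, Lc_apply P ξ]
  ring

theorem tr_le (hS : StSw) (P : Op) : ‖tr P‖ ≤ 2 * ‖P‖ := by
  obtain ⟨-, -, -, -, -, -, -, -, -, -, -, h1, h2, -, -⟩ := hS
  have a1 := (h2 _ 0).trans (norm_LN P (mk 1 0)).1
  have a2 := (h2 _ 1).trans (norm_LN P (mk 0 1)).1
  have b1 : ‖mk 1 0‖ ≤ 1 := by simpa only [norm_one, norm_zero, add_zero] using h1 1 0
  have b2 : ‖mk 0 1‖ ≤ 1 := by simpa only [norm_zero, norm_one, zero_add] using h1 0 1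
  have := norm_nonneg P
  refine (norm_add_le _ _).trans ?_
  nlinarith only [a1, a2, b1, b2, this]

theorem tr_sub (P Q : Op) : tr P - tr Q = tr (P - Q) := by
  simp only [tr, Lc_sub', PiLp.sub_apply]; ring

theorem mu_le (hS : StSw) (P : Op) (η : E) : ‖mu P η‖ ≤ ‖P‖ := by
  obtain ⟨-, -, -, -, -, -, -, -, -, -, -, -, -, h3, -⟩ := hS
  have a1 := (norm_LN P (perp (un η))).2
  rw [norm_perp] at a1
  have a2 := norm_un η
  have a3 := norm_nonneg P
  exact (h3 _ _).trans ((mul_le_of_le_one_left (norm_nonneg _) a2).trans (by nlinarith only [a1, a2, a3]))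

theorem mu_sub (hS : StSw) (P Q : Op) (η η' : E) {C : ℝ} (hC : 0 ≤ C) (hQ : ‖Q‖ ≤ C * ‖η'‖) :
    ‖mu P η - mu Q η'‖ ≤ ‖P - Q‖ + 4 * C * ‖η - η'‖ := by
  have a0 := mu_le hS (P - Q) η
  obtain ⟨-, -, -, -, -, -, -, -, -, -, -, -, -, h3, -⟩ := hS
  have e : mu P η - mu Q η' = mu (P - Q) η + (det2 (un η - un η') (Nc Q (perp (un η))) +
      det2 (un η') (Nc Q (perp (un η - un η')))) := by
    simp only [mu, Nc_sub', perp_sub, Nc_sub, det2, PiLp.sub_apply]; ring
  have a1 := (norm_LN Q (perp (un η))).2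
  have a2 := (norm_LN Q (perp (un η - un η'))).2
  rw [norm_perp] at a1 a2
  have a3 := norm_nonneg Q
  have a4 := norm_nonneg (un η - un η')
  have b1 : ‖det2 (un η - un η') (Nc Q (perp (un η)))‖ ≤ ‖Q‖ * ‖un η - un η'‖ := by
    refine (h3 _ _).trans ?_
    rw [mul_comm]
    exact mul_le_mul_of_nonneg_right (a1.trans (mul_le_of_le_one_right a3 (norm_un η))) a4
  have b2 : ‖det2 (un η') (Nc Q (perp (un η - un η')))‖ ≤ ‖Q‖ * ‖un η - un η'‖ :=
    (h3 _ _).trans ((mul_le_of_le_one_left (norm_nonneg _) (norm_un η')).trans a2)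
  have b3 : ‖Q‖ * ‖un η - un η'‖ ≤ C * (2 * ‖η - η'‖) :=
    (mul_le_mul_of_nonneg_right hQ a4).trans
      (by rw [mul_assoc]; exact mul_le_mul_of_nonneg_left (un_sub η η') hC)
  rw [e]
  refine (norm_add_le _ _).trans ((add_le_add a0 (norm_add_le _ _)).trans ?_)
  linarith only [b1, b2, b3]

theorem dbar_det {η ξ : ℂ → E} (hη : ContDiff ℝ 1 η) (hξ : ContDiff ℝ 1 ξ) :
    ContDiff ℝ 1 (fun z => det2 (η z) (ξ z)) ∧
      ∀ z, dbar (fun z => det2 (η z) (ξ z)) z = det2 (dbar η z) (ξ z) + det2 (η z) (dbar ξ z) := by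
  have c : ∀ {x : ℂ → E}, ContDiff ℝ 1 x → ∀ i, ContDiff ℝ 1 fun z => x z i := fun hx i =>
    ((EuclideanSpace.proj i : E →L[ℂ] ℂ).restrictScalars ℝ).contDiff.comp hx
  have d : ∀ {x : ℂ → E}, ContDiff ℝ 1 x → ∀ i z, dbar (fun z => x z i) z = dbar x z i :=
    fun hx i z => (del_clm (EuclideanSpace.proj i : E →L[ℂ] ℂ)
      (hx.differentiable one_ne_zero z)).2
  have m : ∀ i j z, dbar (fun z => η z i * ξ z j) z =
      η z i * dbar ξ z j + dbar η z i * ξ z j := fun i j z => by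
    rw [← d hξ, ← d hη]
    exact (del_smul ((c hη i).differentiable one_ne_zero z)
      ((c hξ j).differentiable one_ne_zero z)).2
  refine ⟨((c hη 0).mul (c hξ 1)).sub ((c hη 1).mul (c hξ 0)), fun z => ?_⟩
  have := (del_sub (((c hη 0).mul (c hξ 1)).differentiable one_ne_zero z)
    (((c hη 1).mul (c hξ 0)).differentiable one_ne_zero z)).2
  rw [m, m] at this
  refine this.trans ?_
  simp only [det2]; ring

theorem tends {η ξ : ℂ → E} {v : ℂ} (h1 : Tendsto η (cocompact ℂ) (𝓝 (mk 1 0)))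
    (h2 : Tendsto ξ (cocompact ℂ) (𝓝 (mk 0 v))) :
    Tendsto (fun z => det2 (η z) (ξ z)) (cocompact ℂ) (𝓝 v) := by
  have c : Continuous fun p : E × E => det2 p.1 p.2 := by unfold det2; fun_prop
  have := (c.tendsto _).comp (h1.prodMk_nhds h2)
  simpa only [det2, Fin.isValue, Function.comp_def, mk, Matrix.cons_val_zero, Matrix.cons_val_one, Matrix.cons_val_fin_one, one_mul, mul_zero, sub_zero] using this

end F'

open F' in
theorem thF (hT1 : StT1) (hT3 : StT3) (hSim : StSim) (hS : StSw) (hR : StRr) (hReg : StReg)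
    (hAp : StAp) : StF := by
  intro a M R
  obtain ⟨Cr, hCr, hR⟩ := hR a M R
  obtain ⟨Ca, hCa, hAp⟩ := hAp a M R
  obtain ⟨Cs, hCs, hSim⟩ := hSim Ca (3 * (Cr * Ca)) hCa (by positivity)
  obtain ⟨c, hc, hT⟩ := hT1.1 Ca hCa
  set K1 := c * (3 * (Cr * Ca) * Cs) with hK1
  set K2 := Cs * ((3 * (Cr * (Ca + 1)) + 4 * Cr) * Cs) with hK2
  have hK1' : 0 < K1 := by positivity
  have hK2' : 0 < K2 := by positivity
  refine ⟨Cs + K1 + K2, by positivity, fun A y u v ξ hA hu hξ => ?_⟩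
  obtain ⟨-, -, -, -, -, r1, r2, r3, r4, -, -⟩ := hR A hA
  have key : ∀ y u ξ, Sol A y u → Lin A u v ξ →
      ContDiff ℝ 1 (fun z => det2 (del u z) (ξ z)) ∧
      Tendsto (fun z => det2 (del u z) (ξ z)) (cocompact ℂ) (𝓝 v) ∧
      (∀ z, dbar (fun z => det2 (del u z) (ξ z)) z =
        tr (Rr A (u z) (del u z)) * det2 (del u z) (ξ z) +
          mu (Rr A (u z) (del u z)) (del u z) * starRingEnd ℂ (det2 (del u z) (ξ z))) ∧
      (∀ z, Ca ≤ ‖z‖ → dbar (fun z => det2 (del u z) (ξ z)) z = 0) ∧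
      (∀ z (w : ℂ), ‖tr (Rr A (u z) (del u z)) * w +
        mu (Rr A (u z) (del u z)) (del u z) * starRingEnd ℂ w‖ ≤ 3 * (Cr * Ca) * ‖w‖) ∧
      ∀ z, ‖det2 (del u z) (ξ z)‖ ≤ Cs * ‖v‖ ∧ ‖v‖ ≤ Cs * ‖det2 (del u z) (ξ z)‖ := by
    intro y u ξ hu hξ
    obtain ⟨g1, -, g3, g4⟩ := hReg A a M R y u hA hu
    have hB := hAp A y u hA hu
    obtain ⟨d1, d2⟩ := dbar_det g1 hξ.c1
    have t := tends g4 hξ.asy
    have e : ∀ z, dbar (fun z => det2 (del u z) (ξ z)) z =
        tr (Rr A (u z) (del u z)) * det2 (del u z) (ξ z) +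
          mu (Rr A (u z) (del u z)) (del u z) * starRingEnd ℂ (det2 (del u z) (ξ z)) := fun z => by
      rw [d2, g3, hξ.eq, alg _ _ _ (r3 _ _)]
    have s : ∀ z, Ca ≤ ‖z‖ → dbar (fun z => det2 (del u z) (ξ z)) z = 0 := fun z hz => by
      rw [d2, g3, hξ.eq, (r4 _ (by linarith [hB.out z hz])).2]
      simp [det2]
    have b : ∀ z (w : ℂ), ‖tr (Rr A (u z) (del u z)) * w +
        mu (Rr A (u z) (del u z)) (del u z) * starRingEnd ℂ w‖ ≤ 3 * (Cr * Ca) * ‖w‖ := by
      intro z w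
      have b1 := (r1 (u z) (del u z)).trans (mul_le_mul_of_nonneg_left (hB.bη z) hCr.le)
      have b2 := tr_le hS (Rr A (u z) (del u z))
      have b3 := mu_le hS (Rr A (u z) (del u z)) (del u z)
      refine (norm_add_le _ _).trans ?_
      rw [norm_mul, norm_mul, Complex.norm_conj, ← add_mul]
      exact mul_le_mul_of_nonneg_right (by linarith only [b1, b2, b3]) (norm_nonneg _)
    refine ⟨d1, t, e, s, b, fun z => ?_⟩
    simpa only [add_zero] using hSim _ v 0 le_rfl d1 t s (fun z => by rw [e, add_zero]; exact b _ _) z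
  obtain ⟨d1, t, e, s, b, k⟩ := key y u ξ hu hξ
  have hv := norm_nonneg v
  refine ⟨t, fun z => ⟨(k z).1.trans ?_, (k z).2.trans ?_⟩, fun z w => ?_, ?_⟩
  · exact mul_le_mul_of_nonneg_right (by linarith) hv
  · exact mul_le_mul_of_nonneg_right (by linarith) (norm_nonneg _)
  · have h3 := hT3 ℂ _ v Ca d1 t s
    have h4 := (hT ℂ _ (3 * (Cr * Ca) * (Cs * ‖v‖)) (continuous_del d1).2 s (fun z => by
      rw [e]
      exact (b _ _).trans (mul_le_mul_of_nonneg_left (k z).1 (by positivity)))).2.2.2.2 z w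
    have h5 := h3 z
    have h6 := h3 w
    rw [h5, h6, add_sub_add_left_eq_sub]
    refine h4.trans (mul_le_mul_of_nonneg_right ?_ (Real.sqrt_nonneg _))
    calc _ = K1 * ‖v‖ := by rw [hK1]; ring
      _ ≤ _ := mul_le_mul_of_nonneg_right (by linarith) hv
  · intro y' u' ξ' ε hu' hξ' hε z
    obtain ⟨d1', t', e', s', -, k'⟩ := key y' u' ξ' hu' hξ'
    have hε0 : 0 ≤ ε := (norm_nonneg _).trans (hε 0).1
    have hB := hAp A y u hA hu
    have ds := fun z => (del_sub (d1.differentiable one_ne_zero z)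
      (d1'.differentiable one_ne_zero z)).2
    have h1 := (hSim _ (v - v) ((3 * (Cr * (Ca + 1)) + 4 * Cr) * ε * (Cs * ‖v‖)) (by positivity)
      (d1.sub d1') (t.sub t') (fun z hz => by rw [ds, s z hz, s' z hz, sub_zero]) (fun z => by
        rw [ds, e, e']
        have b1 := b z (det2 (del u z) (ξ z) - det2 (del u' z) (ξ' z))
        have b2 : ‖Rr A (u z) (del u z) - Rr A (u' z) (del u' z)‖ ≤ Cr * (Ca + 1) * ε := by
          refine (r2 _ _ _ _).trans ?_
          rw [mul_assoc]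
          refine mul_le_mul_of_nonneg_left ?_ hCr.le
          have := mul_le_mul (hB.bη z) (hε z).1 (norm_nonneg _) hCa.le
          linarith only [(hε z).2, this]
        have b3 := tr_le hS (Rr A (u z) (del u z) - Rr A (u' z) (del u' z))
        rw [← tr_sub] at b3
        have b4 := mu_sub hS (Rr A (u z) (del u z)) _ (del u z) _ hCr.le (r1 (u' z) (del u' z))
        have b5 := mul_le_mul_of_nonneg_left (hε z).2 (show 0 ≤ 4 * Cr by positivity)
        generalize tr (Rr A (u z) (del u z)) = p at *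
        generalize tr (Rr A (u' z) (del u' z)) = p' at *
        generalize mu (Rr A (u z) (del u z)) (del u z) = q at *
        generalize mu (Rr A (u' z) (del u' z)) (del u' z) = q' at *
        have b6 := (k' z).1
        generalize det2 (del u z) (ξ z) = f at *
        generalize det2 (del u' z) (ξ' z) = f' at *
        have e1 : p * f + q * starRingEnd ℂ f - (p' * f' + q' * starRingEnd ℂ f') =
            p * (f - f') + q * starRingEnd ℂ (f - f') +
              ((p - p') * f' + (q - q') * starRingEnd ℂ f') := by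
          rw [map_sub]; ring
        rw [e1]
        refine (norm_add_le _ _).trans (add_le_add b1 ((norm_add_le _ _).trans ?_))
        rw [norm_mul, norm_mul, Complex.norm_conj, ← add_mul]
        exact mul_le_mul (by linarith only [b2, b5, b3, b4]) b6 (norm_nonneg _) (by positivity)) z).1
    rw [sub_self, norm_zero, zero_add] at h1
    refine h1.trans ?_
    calc _ = K2 * ε * ‖v‖ := by rw [hK2]; ring
      _ ≤ _ := mul_le_mul_of_nonneg_right (mul_le_mul_of_nonneg_right (by linarith) hε0) hv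

end

end Pool.Agent.MP_be5fd0_gt.T

/-! The linearised equation: kernel and Fredholm alternative. -/

namespace Pool.Agent.MP_be5fd0_gt.T

open Complex Filter Topology Set Metric MeasureTheory
open scoped ContDiff BoundedContinuousFunction

noncomputable section

namespace Lin'

theorem hc_cont {V : Type} [NormedAddCommGroup V] {ρ m : ℝ} {g : ℂ → V} (h : Hc ρ m g) :
    Continuous g := by
  rw [continuous_iff_continuousAt]
  intro w
  rw [ContinuousAt, tendsto_iff_norm_sub_tendsto_zero]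
  refine squeeze_zero (fun _ => norm_nonneg _) (fun z => h.hol z w) ?_
  have : Continuous fun z : ℂ => m * √‖z - w‖ := by fun_prop
  simpa using this.tendsto w

theorem hc_nonneg {V : Type} [NormedAddCommGroup V] {ρ m : ℝ} {g : ℂ → V} (h : Hc ρ m g) :
    0 ≤ m := (norm_nonneg _).trans (h.bd 0)

theorem hc_zero (ρ : ℝ) : Hc ρ 0 (fun _ : ℂ => (0 : E)) :=
  ⟨fun _ _ => rfl, fun _ => by simp, fun _ _ => by simp⟩

/-- radial retraction onto the closed disc -/
def pr (ρ : ℝ) (hρ : 0 < ρ) (z : ℂ) : closedBall (0 : ℂ) ρ :=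
  ⟨(ρ / max ρ ‖z‖) • z, by
    have h1 : 0 < max ρ ‖z‖ := lt_max_of_lt_left hρ
    rw [mem_closedBall_zero_iff, norm_smul, Real.norm_of_nonneg (by positivity), div_mul_eq_mul_div,
      div_le_iff₀ h1]
    exact mul_le_mul_of_nonneg_left (le_max_right _ _) hρ.le⟩

theorem continuous_pr (ρ : ℝ) (hρ : 0 < ρ) : Continuous (pr ρ hρ) := by
  refine Continuous.subtype_mk ?_ _
  have h : Continuous fun z : ℂ => ρ / max ρ ‖z‖ :=
    continuous_const.div (continuous_const.max continuous_norm) fun z =>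
      (lt_max_of_lt_left hρ).ne'
  exact h.smul continuous_id

theorem pr_eq {ρ : ℝ} (hρ : 0 < ρ) {z : ℂ} (hz : ‖z‖ ≤ ρ) : (pr ρ hρ z : ℂ) = z := by
  simp only [pr, max_eq_left hz, ne_eq, hρ.ne', not_false_eq_true, div_self, one_smul]

/-- `h + R (T g)` is Hoelder -/
theorem hc_sum {ρ B m k : ℝ} {R : ℂ → Op} {h x : ℂ → E} (hR : Hc ρ B R) (hh : Hc ρ m h)
    (hx : ∀ z, ‖x z‖ ≤ k) (hx' : ∀ z w, ‖x z - x w‖ ≤ k * √‖z - w‖) :
    Hc ρ (m + 2 * (B * k)) fun z => h z + R z (x z) := by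
  have hB := hc_nonneg hR
  have hk : 0 ≤ k := (norm_nonneg _).trans (hx 0)
  have hBk : 0 ≤ B * k := mul_nonneg hB hk
  refine ⟨fun z hz => by simp [hR.supp z hz, hh.supp z hz], fun z => ?_, fun z w => ?_⟩
  · have h1 := (R z).le_of_opNorm_le_of_le (hR.bd z) (hx z)
    have h2 := hh.bd z
    have h3 := norm_add_le (h z) (R z (x z))
    linarith
  · have e : h z + R z (x z) - (h w + R w (x w)) =
        (h z - h w) + ((R z - R w) (x z) + R w (x z - x w)) := by
      simp only [sub_apply, map_sub]; abel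
    have h1 := (R z - R w).le_of_opNorm_le_of_le (hR.hol z w) (hx z)
    have h2 := (R w).le_of_opNorm_le_of_le (hR.bd w) (hx' z w)
    have h3 := hh.hol z w
    rw [e]
    refine (norm_add_le _ _).trans ((add_le_add h3 ((norm_add_le _ _).trans
      (add_le_add h1 h2))).trans (le_of_eq ?_))
    ring

/-- abstract Fredholm alternative for `1 - R T` -/
theorem fred (h1 : StT1) {ρ B : ℝ} (hρ : 0 < ρ) {R : ℂ → Op} (hR : Hc ρ B R)
    (ker : ∀ (g : ℂ → E) (m : ℝ), Hc ρ m g → (∀ z, g z = R z (cT g z)) → ∀ z, cT g z = 0)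
    {h : ℂ → E} {m : ℝ} (hh : Hc ρ m h) :
    ∃ (g : ℂ → E) (m' : ℝ), Hc ρ m' g ∧ ∀ z, g z - R z (cT g z) = h z := by
  obtain ⟨c, hc, hT⟩ := h1.1 ρ hρ
  have hT := hT E
  have hB := hc_nonneg hR
  set X := closedBall (0 : ℂ) ρ →ᵇ E
  let G : X → ℂ → E := fun ξ z => R z (ξ (pr ρ hρ z))
  have Gc : ∀ ξ, Continuous (G ξ) := fun ξ =>
    (hc_cont hR).clm_apply (ξ.continuous.comp (continuous_pr ρ hρ))
  have Gs : ∀ ξ z, ρ ≤ ‖z‖ → G ξ z = 0 := fun ξ z hz => by simp [G, hR.supp z hz]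
  have Gb : ∀ ξ z, ‖G ξ z‖ ≤ B * ‖ξ‖ := fun ξ z =>
    (R z).le_of_opNorm_le_of_le (hR.bd z) (ξ.norm_coe_le_norm _)
  have TG := fun ξ => hT (G ξ) _ (Gc ξ) (Gs ξ) (Gb ξ)
  let S0 : X → X := fun ξ => BoundedContinuousFunction.mkOfCompact
    ⟨fun k => cT (G ξ) k, (TG ξ).2.1.comp continuous_subtype_val⟩
  have S0a : ∀ ξ k, S0 ξ k = cT (G ξ) k := fun _ _ => rfl
  let S1 : X →ₗ[ℝ] X :=
    { toFun := S0
      map_add' := fun ξ ζ => by
        ext1 k
        rw [BoundedContinuousFunction.add_apply, S0a, S0a, S0a,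
          ← (cT_add ((TG ξ).1 _) ((TG ζ).1 _)).1]
        congr 1
        funext z
        exact map_add (R z) (ξ _) (ζ _)
      map_smul' := fun a ξ => by
        ext1 k
        rw [BoundedContinuousFunction.smul_apply, S0a, S0a, RingHom.id_apply, ← cT_smul]
        congr 1
        funext z
        exact map_smul (R z) a (ξ _) }
  have S1b : ∀ ξ, ‖S1 ξ‖ ≤ c * B * ‖ξ‖ := fun ξ => by
    refine (BoundedContinuousFunction.norm_le (by positivity)).2 fun k => ?_
    rw [mul_assoc]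
    exact (TG ξ).2.2.1 k
  let S : X →L[ℝ] X := S1.mkContinuous (c * B) S1b
  have Sa : ∀ ξ k, S ξ k = cT (G ξ) k := fun _ _ => rfl
  have hS : IsCompactOperator S := by
    refine ⟨closure (S '' closedBall 0 1), ?_, ?_⟩
    · refine BoundedContinuousFunction.arzela_ascoli (closedBall (0 : E) (c * B))
        (isCompact_closedBall _ _) _ ?_ ?_
      · rintro f k ⟨ξ, hξ, rfl⟩
        rw [mem_closedBall_zero_iff] at hξ ⊢
        refine ((TG ξ).2.2.1 k).trans ?_
        exact mul_le_mul_of_nonneg_left (mul_le_of_le_one_right hB hξ) hc.le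
      · refine Metric.equicontinuous_of_continuity_modulus (fun t => c * B * √t) ?_ _ ?_
        · have : Continuous fun t : ℝ => c * B * √t := by fun_prop
          simpa using this.tendsto 0
        · rintro x y ⟨f, ξ, hξ, rfl⟩
          rw [mem_closedBall_zero_iff] at hξ
          rw [dist_eq_norm, Subtype.dist_eq, dist_eq_norm]
          refine ((TG ξ).2.2.2.2 x y).trans (mul_le_mul_of_nonneg_right ?_ (Real.sqrt_nonneg _))
          exact mul_le_mul_of_nonneg_left (mul_le_of_le_one_right hB hξ) hc.le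
    · exact mem_of_superset (closedBall_mem_nhds 0 one_pos) fun ξ hξ =>
        subset_closure (mem_image_of_mem _ hξ)
  -- a solution of the integral equation on the disc gives a solution on the plane
  have key : ∀ (h : ℂ → E) (m : ℝ), Hc ρ m h → ∀ ξ : X, (∀ k, ξ k - S ξ k = cT h k) →
      ∃ (g : ℂ → E) (m' : ℝ), Hc ρ m' g ∧ (∀ z, g z - R z (cT g z) = h z) ∧
        ∀ k, ξ k = cT g k := by
    intro h m hh ξ hξ
    have Th := hT h m (hc_cont hh) hh.supp hh.bd
    have e1 : ∀ z, cT (fun w => h w + G ξ w) z = cT h z + cT (G ξ) z := fun z =>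
      (cT_add (Th.1 z) ((TG ξ).1 z)).1
    have e2 : ∀ k : closedBall (0 : ℂ) ρ, ξ k = cT (fun w => h w + G ξ w) k := fun k => by
      rw [e1, ← hξ k, Sa]; abel
    have e3 : ∀ z, G ξ z = R z (cT (fun w => h w + G ξ w) z) := fun z => by
      rcases le_total ρ ‖z‖ with hz | hz
      · simp [G, hR.supp z hz]
      · simp only [G]
        rw [e2, pr_eq hρ hz]
    have Tg := hT (fun w => h w + G ξ w) (m + B * ‖ξ‖) ((hc_cont hh).add (Gc ξ))
      (fun z hz => by rw [hh.supp z hz, Gs ξ z hz, add_zero])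
      (fun z => (norm_add_le _ _).trans (add_le_add (hh.bd z) (Gb ξ z)))
    refine ⟨fun w => h w + G ξ w, m + 2 * (B * (c * (m + B * ‖ξ‖))), ?_, fun z => ?_, e2⟩
    · have := hc_sum hR hh Tg.2.2.1 Tg.2.2.2.2
      have e4 : (fun w => h w + G ξ w) = fun z => h z + R z (cT (fun w => h w + G ξ w) z) :=
        funext fun z => by rw [← e3]
      rw [← e4] at this
      exact this
    · rw [← e3]; exact add_sub_cancel_right _ _
  rcases hS.hasEigenvalue_or_mem_resolventSet (μ := (1 : ℝ)) one_ne_zero with he | he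
  · exfalso
    obtain ⟨ξ, hξ⟩ := he.exists_hasEigenvector
    have e : S ξ = ξ := by simpa using hξ.apply_eq_smul
    obtain ⟨g, m', hg, e1, e2⟩ := key _ 0 (hc_zero ρ) ξ fun k => by rw [e, cT_zero, sub_self]
    refine hξ.2 ?_
    ext1 k
    rw [e2 k]
    exact ker g m' hg (fun z => sub_eq_zero.1 (e1 z)) k
  · rw [spectrum.mem_resolventSet_iff, map_one, ContinuousLinearMap.isUnit_iff_bijective] at he
    have Th := hT h m (hc_cont hh) hh.supp hh.bd
    obtain ⟨ξ, hξ⟩ := he.2 (BoundedContinuousFunction.mkOfCompact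
      ⟨fun k : closedBall (0 : ℂ) ρ => cT h k, Th.2.1.comp continuous_subtype_val⟩)
    obtain ⟨g, m', hg, e1, -⟩ := key h m hh ξ fun k => by
      have := congrArg (fun f : X => f k) hξ
      exact this
    exact ⟨g, m', hg, e1⟩

theorem eq_smul_of_det {η ξ : E} (hη : η ≠ 0) (h : det2 η ξ = 0) :
    ξ = (inner ℂ η ξ / inner ℂ η η) • η := by
  have hn : (inner ℂ η η : ℂ) ≠ 0 := inner_self_ne_zero.2 hη
  simp only [det2] at h
  simp only [PiLp.inner_apply, Fin.sum_univ_two, RCLike.inner_apply] at hn ⊢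
  ext i
  rw [PiLp.smul_apply, smul_eq_mul, div_mul_eq_mul_div, eq_div_iff hn]
  fin_cases i
  · simp only [Fin.zero_eta]
    linear_combination (-(starRingEnd ℂ) (η 1)) * h
  · simp only [Fin.mk_one]
    linear_combination ((starRingEnd ℂ) (η 0)) * h

theorem map_csmul {L : Op} {η : E} (h : L (I • η) = I • L η) (α : ℂ) : L (α • η) = α • L η := by
  have e : ∀ x : E, α • x = α.re • x + α.im • (I • x) := fun x => by
    rw [← ofReal_smul', ← ofReal_smul', smul_smul, ← add_smul, re_add_im]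
  rw [e η, e (L η), map_add, map_smul, map_smul, h]

theorem mk_zero : mk 0 0 = 0 := by
  ext i; fin_cases i <;> simp [mk]

theorem mk_ne : mk 1 0 ≠ 0 := fun h => by
  have := congrArg (fun q : E => q 0) h
  simp [mk] at this

theorem sqrt_bound {d L K t : ℝ} (ht : 0 ≤ t) (hL : 0 ≤ L) (hK : 0 ≤ K) (h1 : d ≤ L * t)
    (h2 : d ≤ K) : d ≤ (L + K) * √t := by
  have hs := Real.sqrt_nonneg t
  rcases le_total t 1 with h | h
  · have h3 : t ≤ √t := Real.le_sqrt_of_sq_le (by nlinarith only [ht, h])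
    have h4 := mul_le_mul_of_nonneg_left h3 hL
    have h5 := mul_nonneg hK hs
    linarith
  · have h3 : 1 ≤ √t := Real.one_le_sqrt.2 h
    have h4 := mul_le_mul_of_nonneg_left h3 hK
    have h5 := mul_nonneg hL hs
    linarith

theorem kernel (h3 : StT3) (hRr : StRr) (hReg : StReg) (hF : StF)
    {A : E → Op} {a M R : ℝ} {y : ℂ} {u : ℂ → E} (hA : Fld A a M R) (hu : Sol A y u)
    (him : ∀ z, del u z ≠ 0) (ξ : ℂ → E) (hξ : Lin A u 0 ξ) (z : ℂ) : ξ z = 0 := by
  obtain ⟨C, -, hC⟩ := hF a M R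
  obtain ⟨C', -, hC'⟩ := hRr a M R
  obtain ⟨-, -, -, -, -, -, -, hI, -⟩ := hC' A hA
  obtain ⟨r1, -, r2, r3⟩ := hReg A a M R y u hA hu
  have hdet : ∀ z, det2 (del u z) (ξ z) = 0 := fun z => by
    simpa using ((hC A y u 0 ξ hA hu hξ).2.1 z).1
  let α : ℂ → ℂ := fun z => inner ℂ (del u z) (ξ z) / inner ℂ (del u z) (del u z)
  have hα : ∀ z, ξ z = α z • del u z := fun z => eq_smul_of_det (him z) (hdet z)
  have hα1 : ContDiff ℝ 1 α := by
    simp only [α, div_eq_mul_inv]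
    exact (r1.inner ℂ hξ.c1).mul ((r1.inner ℂ r1).inv fun z => inner_self_ne_zero.2 (him z))
  have hd : ∀ z, dbar α z = 0 := fun z => by
    have e1 := (del_smul (hα1.differentiable one_ne_zero z) (r1.differentiable one_ne_zero z)).2
    have e2 : ξ = fun w => α w • del u w := funext hα
    rw [← e2, hξ.eq z, hα z, map_csmul (hI _ _), r2 z] at e1
    have e3 : dbar α z • del u z = 0 := by simpa only [smul_eq_zero, left_eq_add] using e1
    exact (smul_eq_zero.1 e3).resolve_right (him z)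
  have ht : Tendsto α (cocompact ℂ) (𝓝 0) := by
    have t1 := hξ.asy
    rw [mk_zero] at t1
    have := (r3.inner (𝕜 := ℂ) t1).div (r3.inner (𝕜 := ℂ) r3) (inner_self_ne_zero.2 mk_ne)
    rw [inner_zero_right, zero_div] at this
    exact this
  have e := h3 ℂ α 0 0 hα1 ht (fun z _ => hd z) z
  have e' : dbar α = fun _ => 0 := funext hd
  rw [e', cT_zero, add_zero] at e
  rw [hα z, e, zero_smul]

end Lin'

open Lin' in
theorem thLin (h1 : StT1) (h2 : StT2) (h3 : StT3) (hRr : StRr) (hReg : StReg) (hAp : StAp)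
    (hF : StF) : StLin := by
  intro A a M R y u hA hu him
  have k1 := kernel h3 hRr hReg hF hA hu him
  refine ⟨k1, fun ρ hρ hout h m hh => ?_⟩
  obtain ⟨C, hC0, hC⟩ := hRr a M R
  obtain ⟨-, -, -, -, -, r1, r2, -, r3, -⟩ := hC A hA
  obtain ⟨D, hD0, hD⟩ := hAp a M R
  have b := hD A y u hA hu
  have hb : ∀ z, ‖Rr A (u z) (del u z)‖ ≤ C * D := fun z =>
    (r1 _ _).trans (mul_le_mul_of_nonneg_left (b.bη z) hC0.le)
  have hl : ∀ z w, ‖u z - u w‖ ≤ D * ‖z - w‖ := fun z w =>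
    (convex_univ (𝕜 := ℝ)).norm_image_sub_le_of_norm_fderiv_le
      (fun x _ => hu.c1.differentiable one_ne_zero x) (fun x _ => b.b1 x) (mem_univ w) (mem_univ z)
  have hR : Hc ρ (C * (D * D + D) + 2 * (C * D)) fun z => Rr A (u z) (del u z) := by
    have p1 : 0 ≤ C * (D * D + D) := by positivity
    have p2 : 0 ≤ C * D := by positivity
    refine ⟨fun z hz => (r3 _ (hout z hz)).2 _, fun z => (hb z).trans (by linarith),
      fun z w => sqrt_bound (norm_nonneg _) p1 (by linarith) ?_ ?_⟩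
    · refine (r2 _ _ _ _).trans ?_
      rw [mul_assoc]
      refine mul_le_mul_of_nonneg_left ?_ hC0.le
      have q1 := mul_le_mul (b.bη z) (hl z w) (norm_nonneg _) hD0.le
      have q2 := b.lipη z w
      linarith
    · exact (norm_sub_le _ _).trans (by linarith [hb z, hb w])
  refine fred h1 hρ hR (fun g m' hg e => k1 (cT g) ?_) hh
  obtain ⟨c, -, hc⟩ := h2 ρ hρ
  obtain ⟨t1, t2, -⟩ := hc E g m' hg
  obtain ⟨c', -, hc'⟩ := h1.1 ρ hρ
  obtain ⟨-, -, -, t3, -⟩ := hc' E g m' (hc_cont hg) hg.supp hg.bd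
  refine ⟨t1, fun z => (t2 z).trans (e z), ?_⟩
  rw [mk_zero, tendsto_zero_iff_norm_tendsto_zero]
  have t5 : Tendsto (fun z : ℂ => ‖z‖) (cocompact ℂ) atTop := tendsto_norm_cocompact_atTop
  have t4 : Tendsto (fun z : ℂ => c' * m' / ‖z‖) (cocompact ℂ) (𝓝 0) :=
    Tendsto.div_atTop tendsto_const_nhds t5
  refine squeeze_zero' (Eventually.of_forall fun _ => norm_nonneg _) ?_ t4
  filter_upwards [t5.eventually_gt_atTop 0] with z hz
  rw [le_div_iff₀ hz, mul_comm]
  exact t3 z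

end

end Pool.Agent.MP_be5fd0_gt.T
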