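import Pool.Agent.MP_be5fd0_gt.H27.Defs

attribute [-instance] LeftPreLieAlgebra.toModule RightPreLieAlgebra.toModule
  TotallySeparatedSpace.t2Space AddSubgroupClass.normedAddCommGroup
  NonarchimedeanAddGroup.toIsTopologicalAddGroup Finite.instDiscreteTopology
  IdemSemiring.toCanonicallyOrderedAdd Valued.toUniformSpace
  Action.FintypeCat.instMulActionObjFiniteOf NonUnitalNonAssocRing.toAddCommGroup RKHS.instFunLike
  NonUnitalNonAssocSemiring.toAddCommMonoid NormedRing.toRing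
  NonUnitalCStarAlgebra.toNonUnitalNormedRing covariant_swap_mul_of_covariant_mul
  ProperSMul.toContinuousSMul NonUnitalNonAssocSemiring.toDistrib littleWedderburn
  NonUnitalNormedRing.toNonUnitalSeminormedRing SMulWithZero.toSMulZeroClass
  LieRinehartAlgebra.toIsScalarTower CoalgHomClass.toSemilinearMapClass
  GrpTypeEquivalenceGrp.grpGroup AddQuantale.instAddLeftMono NormedCommRing.toCommRing
  SemilinearIsometryClass.toSemilinearMapClass NonUnitalNonAssocSemiring.toMulZeroClass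
  SubringClass.toNormedRing IsTopologicalSemiring.toContinuousAdd
  IsValuativeTopology.instIsTopologicalAddGroup
  NonUnitalAlgSemiHomClass.toDistribMulActionSemiHomClass IsOrderedMonoid.toMulLeftMono
  NonUnitalNormedCommRing.toNonUnitalNormedRing ContinuousLinearMap.toSeminormedRing
  Quantale.instMulLeftMono NonUnitalNormedCommRing.toNonUnitalSeminormedCommRing
  IsTopologicalTorsor.toContinuousSMul AddCommGroupWithOne.toAddGroupWithOne
  RingHomClass.toLinearMapClassNNRat SeminormedCommRing.toCommRing IdemSemiring.toSemiring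
  IdemSemiring.toMulLeftMono EuclideanDomain.toCommRing continuousSub_of_discreteTopology
  SubringClass.toSeminormedRing MonoidWithZeroHomClass.toZeroHomClass
  MulSemiringAction.toDistribMulAction LieAdmissibleRing.instLieRing Bialgebra.toAlgebra
  CStarAlgebra.toNormedAlgebra AddCommMonoidWithOne.toAddCommMonoid RingHomClass.toLinearMapClassRat
  NormedRing.toSeminormedRing FiniteDimensional.rclike_to_real NonUnitalSeminormedRing.toNorm
  NonAssocSemiring.toAddCommMonoidWithOne NonUnitalSubalgebraClass.nonUnitalNormedRing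
  NumberField.to_charZero ESeminormedAddCommMonoid.toAddCommMonoid
  Group.IsPerfect.subsingleton_of_isMulCommutative NonAssocSemiring.toNonUnitalNonAssocSemiring
  BooleanRing.toRing NormedDivisionRing.toDivisionRing Quantale.instMulRightMono
  BooleanRing.toCommRing AddCommGroupWithOne.toAddCommGroup AddQuantale.instAddRightMono
  IsIsometricSMul.to_continuousConstSMul CanonicallyOrderedAdd.toMulLeftMono
  Submodule.innerProductSpace instSMulZeroClass NormedField.toNorm IsPurelyInseparable.isIntegral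
  NonarchimedeanRing.toIsTopologicalRing LinearOrderedCommMonoidWithZero.toPosMulStrictMono
  AddSubgroupClass.seminormedAddCommGroup LinearOrderedAddCommMonoidWithTop.toAddCommMonoid
  continuousSub_of_indiscreteTopology NonUnitalRing.toNonUnitalNonAssocRing instIsModuleTopology
  NonAssocRing.toNonUnitalNonAssocRing GroupWithZero.toMonoidWithZero
  CommMonoidWithZero.toMonoidWithZero Unique.instSubsingleton
  MulSemiringActionSemiHomClass.toDistribMulActionSemiHomClass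
  NonUnitalSeminormedRing.toPseudoMetricSpace SubringClass.toSeminormedCommRing Algebra.Smooth.flat
  ContinuousMonoidHom.instCoeOutOfMonoidHomClassOfContinuousMapClass
  BoundedContinuousFunction.instAdd IdemCommSemiring.toCommSemiring
  SeminormedCommGroup.toSeminormedGroup NormedRing.toNorm
  LinearOrderedAddCommGroupWithTop.toAddCommMonoid Action.instMulAction
  SetLike.GradeZero.instCommRing RightPreLieRing.instLieAdmissibleRing
  NonUnitalStarSubalgebra.nonUnitalCStarAlgebra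
  TopologicalSpace.UpgradedIsCompletelyPseudoMetrizableSpace.toPseudoMetricSpace
  UpgradedStandardBorel.toTopologicalSpace

/-! The implicit function theorem and foliations by planes. -/

namespace Pool.Agent.MP_be5fd0_gt.T

open Complex Filter Topology Set Metric MeasureTheory
open scoped ContDiff BoundedContinuousFunction

noncomputable section

namespace H12'

variable {V W X : Type} [NormedAddCommGroup V] [NormedSpace ℝ V] [NormedAddCommGroup W]
  [NormedSpace ℝ W] [NormedAddCommGroup X] [NormedSpace ℝ X]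

theorem ext (g h : Hol V) (e : fn g = fn h) : g = h := by
  have e1 : g.1.1 = h.1.1 := BoundedContinuousFunction.ext fun z => congrFun e z
  refine Subtype.ext (Prod.ext e1 (BoundedContinuousFunction.ext fun d => ?_))
  have h1 := g.2 d
  have h2 := h.2 d
  rw [h1, h2, e1]

theorem fn_add (g h : Hol V) (z : ℂ) : fn (g + h) z = fn g z + fn h z := rfl
theorem fn_sub (g h : Hol V) (z : ℂ) : fn (g - h) z = fn g z - fn h z := rfl
theorem fn_smul (c : ℝ) (g : Hol V) (z : ℂ) : fn (c • g) z = c • fn g z := rfl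

theorem bd (g : Hol V) (z : ℂ) : ‖fn g z‖ ≤ ‖g‖ :=
  (g.1.1.norm_coe_le_norm z).trans (norm_fst_le g.1)

theorem hol (g : Hol V) (z w : ℂ) : ‖fn g z - fn g w‖ ≤ ‖g‖ * √‖z - w‖ := by
  by_cases hzw : z = w
  · subst hzw; simp only [sub_self, norm_zero, Submodule.coe_norm, Real.sqrt_zero, mul_zero, Std.le_refl]
  · have hp : 0 < √‖z - w‖ := Real.sqrt_pos.2 (norm_pos_iff.2 (sub_ne_zero.2 hzw))
    let d : OffD := ⟨(z, w), hzw⟩
    have h1 : g.1.2 d = (√‖z - w‖)⁻¹ • (fn g z - fn g w) := g.2 d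
    have h2 : ‖g.1.2 d‖ ≤ ‖g‖ := (g.1.2.norm_coe_le_norm d).trans (norm_snd_le g.1)
    rw [h1, norm_smul, norm_inv, Real.norm_of_nonneg hp.le, inv_mul_le_iff₀ hp] at h2
    rw [mul_comm]
    exact h2

omit [NormedSpace ℝ V] in
theorem cont_of_hol {f : ℂ → V} {m : ℝ} (h : ∀ z w, ‖f z - f w‖ ≤ m * √‖z - w‖) :
    Continuous f := by
  refine continuous_iff_continuousAt.2 fun w => ?_
  refine tendsto_iff_norm_sub_tendsto_zero.2 (squeeze_zero (fun _ => norm_nonneg _)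
    (fun z => h z w) ?_)
  have : Continuous fun z : ℂ => m * √‖z - w‖ := by fun_prop
  simpa using this.tendsto w

theorem ex (f : ℂ → V) (m : ℝ) (hb : ∀ z, ‖f z‖ ≤ m)
    (hh : ∀ z w, ‖f z - f w‖ ≤ m * √‖z - w‖) : ∃ g : Hol V, fn g = f ∧ ‖g‖ ≤ m := by
  have hm : 0 ≤ m := (norm_nonneg _).trans (hb 0)
  have hc := cont_of_hol hh
  have hp : ∀ d : OffD, 0 < √‖d.1.1 - d.1.2‖ := fun d =>
    Real.sqrt_pos.2 (norm_pos_iff.2 (sub_ne_zero.2 d.2))
  have hv : Continuous fun d : OffD => d.1 := continuous_subtype_val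
  have hc2 : Continuous fun d : OffD => (√‖d.1.1 - d.1.2‖)⁻¹ • (f d.1.1 - f d.1.2) := by
    refine Continuous.smul (Continuous.inv₀ ?_ fun d => (hp d).ne') ?_
    · exact (hv.fst.sub hv.snd).norm.sqrt
    · exact (hc.comp hv.fst).sub (hc.comp hv.snd)
  have hb2 : ∀ d : OffD, ‖(√‖d.1.1 - d.1.2‖)⁻¹ • (f d.1.1 - f d.1.2)‖ ≤ m := fun d => by
    rw [norm_smul, norm_inv, Real.norm_of_nonneg (hp d).le, inv_mul_le_iff₀ (hp d), mul_comm]
    exact hh _ _
  refine ⟨⟨(BoundedContinuousFunction.ofNormedAddCommGroup f hc m hb,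
    BoundedContinuousFunction.ofNormedAddCommGroup _ hc2 m hb2), fun d => rfl⟩, rfl, ?_⟩
  exact max_le (BoundedContinuousFunction.norm_ofNormedAddCommGroup_le hc hm hb)
    (BoundedContinuousFunction.norm_ofNormedAddCommGroup_le hc2 hm hb2)

theorem norm_le (g : Hol V) (m : ℝ) (hb : ∀ z, ‖fn g z‖ ≤ m)
    (hh : ∀ z w, ‖fn g z - fn g w‖ ≤ m * √‖z - w‖) : ‖g‖ ≤ m := by
  obtain ⟨g', e, h⟩ := ex (fn g) m hb hh
  rwa [ext g' g e] at h

theorem lin (L : V →L[ℝ] W) : ∃ N : Hol V →L[ℝ] Hol W, ∀ g z, fn (N g) z = L (fn g z) := by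
  have h : ∀ g : Hol V, ∃ k : Hol W, fn k = (fun z => L (fn g z)) ∧ ‖k‖ ≤ ‖L‖ * ‖g‖ := fun g => by
    refine ex _ _ (fun z => L.le_of_opNorm_le_of_le le_rfl (bd g z)) fun z w => ?_
    rw [← map_sub, mul_assoc]
    exact L.le_of_opNorm_le_of_le le_rfl (hol g z w)
  choose N hN hb using h
  let N' : Hol V →ₗ[ℝ] Hol W :=
    { toFun := N
      map_add' := fun g h => ext _ _ (funext fun z => by
        rw [fn_add, hN, hN, hN]; simp only [fn_add, map_add])
      map_smul' := fun c g => ext _ _ (funext fun z => by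
        rw [RingHom.id_apply, fn_smul, hN, hN]; simp only [fn_smul, map_smul]) }
  exact ⟨N'.mkContinuous ‖L‖ hb, fun g z => congrFun (hN g) z⟩

theorem bil (B : V →L[ℝ] W →L[ℝ] X) :
    ∃ N : Hol V →L[ℝ] Hol W →L[ℝ] Hol X, ∀ g h z, fn (N g h) z = B (fn g z) (fn h z) := by
  have hB : ∀ (a : V) (b : W) (p q : ℝ), ‖a‖ ≤ p → ‖b‖ ≤ q → ‖B a b‖ ≤ ‖B‖ * p * q :=
    fun a b p q ha hb => (B.le_opNorm₂ a b).trans (by
      have := (norm_nonneg a).trans ha
      gcongr)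
  have h : ∀ (g : Hol V) (h : Hol W), ∃ k : Hol X, fn k = (fun z => B (fn g z) (fn h z)) ∧
      ‖k‖ ≤ 2 * ‖B‖ * ‖g‖ * ‖h‖ := fun g h => by
    have h0 : 0 ≤ ‖B‖ * ‖g‖ * ‖h‖ := by positivity
    refine ex _ _ (fun z => (hB _ _ _ _ (bd g z) (bd h z)).trans (by linarith)) fun z w => ?_
    have e : B (fn g z) (fn h z) - B (fn g w) (fn h w) =
        B (fn g z - fn g w) (fn h z) + B (fn g w) (fn h z - fn h w) := by
      simp only [map_sub, sub_apply]; abel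
    rw [e]
    refine (norm_add_le _ _).trans ((add_le_add (hB _ _ _ _ (hol g z w) (bd h z))
      (hB _ _ _ _ (bd g w) (hol h z w))).trans (le_of_eq ?_))
    ring
  choose N hN hb using h
  let N' : Hol V →ₗ[ℝ] Hol W →ₗ[ℝ] Hol X := LinearMap.mk₂ ℝ N
    (fun g g' h => ext _ _ (funext fun z => by
      rw [fn_add, hN, hN, hN]; simp only [fn_add, map_add, add_apply]))
    (fun c g h => ext _ _ (funext fun z => by
      rw [fn_smul, hN, hN]; simp only [fn_smul, map_smul, smul_apply]))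
    (fun g h h' => ext _ _ (funext fun z => by
      rw [fn_add, hN, hN, hN]; simp only [fn_add, map_add]))
    (fun c g h => ext _ _ (funext fun z => by
      rw [fn_smul, hN, hN]; simp only [fn_smul, map_smul]))
  exact ⟨N'.mkContinuous₂ (2 * ‖B‖) hb, fun g h z => congrFun (hN g h) z⟩

theorem mv {f : V → W} {f' : V → V →L[ℝ] W} (hf : ∀ x, HasFDerivAt f (f' x) x) {r C : ℝ}
    (hb : ∀ x, ‖x‖ ≤ r → ‖f' x‖ ≤ C) {x y : V} (hx : ‖x‖ ≤ r) (hy : ‖y‖ ≤ r) :
    ‖f x - f y‖ ≤ C * ‖x - y‖ :=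
  (convex_closedBall (0 : V) r).norm_image_sub_le_of_norm_hasFDerivWithin_le
    (fun x _ => (hf x).hasFDerivWithinAt) (fun x hx => hb x (mem_closedBall_zero_iff.1 hx))
    (mem_closedBall_zero_iff.2 hy) (mem_closedBall_zero_iff.2 hx)

theorem lip {f : V → W} {f' : V → V →L[ℝ] W} (hf : ∀ x, HasFDerivAt f (f' x) x) {C : ℝ}
    (hb : ∀ x, ‖f' x‖ ≤ C) (x y : V) : ‖f x - f y‖ ≤ C * ‖x - y‖ :=
  mv hf (fun x _ => hb x) (le_max_left ‖x‖ ‖y‖) (le_max_right _ _)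

theorem shift {f : V → W} {f' : V → V →L[ℝ] W} (hf : ∀ x, HasFDerivAt f (f' x) x) (a x : V) :
    HasFDerivAt (fun y => f (a + y)) (f' (a + x)) x :=
  (hasFDerivAt_comp_add_left a).2 (hf (a + x))

theorem dd {f : V → W} {f' : V → V →L[ℝ] W} (hf : ∀ x, HasFDerivAt f (f' x) x) {M : ℝ}
    (hl : ∀ x y, ‖f' x - f' y‖ ≤ M * ‖x - y‖) (a b h : V) :
    ‖f (a + h) - f (b + h) - (f a - f b)‖ ≤ M * ‖h‖ * ‖a - b‖ := by
  have := lip (f := fun x => f (h + x) - f x) (f' := fun x => f' (h + x) - f' x)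
    (fun x => (shift hf h x).sub (hf x)) (C := M * ‖h‖)
    (fun x => by simpa only [add_sub_cancel_right] using hl (h + x) x) a b
  rw [add_comm h a, add_comm h b] at this
  convert this using 2
  abel

theorem nem {f : V → W} {M : ℝ} (hb : ∀ x, ‖f x‖ ≤ M) (hl : ∀ x y, ‖f x - f y‖ ≤ M * ‖x - y‖) :
    ∃ N : Hol V → Hol W, ∀ g z, fn (N g) z = f (fn g z) := by
  have hM : 0 ≤ M := (norm_nonneg _).trans (hb 0)
  have h : ∀ g : Hol V, ∃ k : Hol W, fn k = (fun z => f (fn g z)) ∧ ‖k‖ ≤ M * (1 + ‖g‖) :=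
    fun g => by
      have h0 : 0 ≤ M * ‖g‖ := by positivity
      refine ex _ _ (fun z => (hb _).trans (by linarith)) fun z w => (hl _ _).trans ?_
      rw [mul_assoc]
      refine mul_le_mul_of_nonneg_left ((hol g z w).trans ?_) hM
      gcongr
      linarith
  choose N hN _ using h
  exact ⟨N, fun g z => congrFun (hN g) z⟩

theorem nem_cont {f : V → W} {f' : V → V →L[ℝ] W} (hf : ∀ x, HasFDerivAt f (f' x) x) {M : ℝ}
    (hb : ∀ x, ‖f' x‖ ≤ M) (hl : ∀ x y, ‖f' x - f' y‖ ≤ M * ‖x - y‖) {N : Hol V → Hol W}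
    (hN : ∀ g z, fn (N g) z = f (fn g z)) : Continuous N := by
  have hM : 0 ≤ M := (norm_nonneg _).trans (hb 0)
  have key : ∀ g h : Hol V, ‖N (g + h) - N g‖ ≤ M * (1 + ‖g‖) * ‖h‖ := fun g h => by
    have h0 : 0 ≤ M * ‖g‖ * ‖h‖ := by positivity
    refine norm_le _ _ (fun z => ?_) fun z w => ?_
    · rw [fn_sub, hN, hN, fn_add]
      refine (lip hf hb _ _).trans ?_
      rw [add_sub_cancel_left]
      have := mul_le_mul_of_nonneg_left (bd h z) hM
      linarith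
    · simp only [fn_sub, hN, fn_add]
      have h1 := dd hf hl (fn g z) (fn g w) (fn h z)
      have h2 := lip hf hb (fn g w + fn h z) (fn g w + fn h w)
      rw [add_sub_add_left_eq_sub] at h2
      have h3 : M * ‖fn h z‖ * ‖fn g z - fn g w‖ ≤ M * ‖h‖ * (‖g‖ * √‖z - w‖) := by
        have := bd h z
        have := hol g z w
        gcongr
      have h4 := mul_le_mul_of_nonneg_left (hol h z w) hM
      have e : f (fn g z + fn h z) - f (fn g z) - (f (fn g w + fn h w) - f (fn g w)) =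
          (f (fn g z + fn h z) - f (fn g w + fn h z) - (f (fn g z) - f (fn g w))) +
          (f (fn g w + fn h z) - f (fn g w + fn h w)) := by abel
      rw [e]
      refine (norm_add_le _ _).trans ((add_le_add (h1.trans h3) (h2.trans h4)).trans (le_of_eq ?_))
      ring
  refine continuous_iff_continuousAt.2 fun g => ?_
  refine tendsto_iff_norm_sub_tendsto_zero.2 (squeeze_zero (fun _ => norm_nonneg _)
    (g := fun k => M * (1 + ‖g‖) * ‖k - g‖) (fun k => ?_) ?_)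
  · have := key g (k - g)
    rwa [add_sub_cancel] at this
  · have : Continuous fun k : Hol V => M * (1 + ‖g‖) * ‖k - g‖ := by fun_prop
    simpa only [Submodule.coe_norm, AddSubgroupClass.coe_sub, sub_self, norm_zero, mul_zero] using this.tendsto g

theorem nem_der {f : V → W} {f' : V → V →L[ℝ] W}
    (hf : ∀ x, HasFDerivAt f (f' x) x) {M : ℝ} (hM : 0 ≤ M)
    (hl : ∀ x y, ‖f' x - f' y‖ ≤ M * ‖x - y‖)
    (hdd : ∀ a b h, ‖f' (a + h) - f' (b + h) - (f' a - f' b)‖ ≤ M * ‖h‖ * ‖a - b‖)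
    {N : Hol V → Hol W}
    (hN : ∀ g z, fn (N g) z = f (fn g z)) (g : Hol V) (D : Hol V →L[ℝ] Hol W)
    (hD : ∀ h z, fn (D h) z = f' (fn g z) (fn h z)) : HasFDerivAt N D g := by
  have psi : ∀ (b x y : V) (r : ℝ), ‖x‖ ≤ r → ‖y‖ ≤ r →
      ‖f (b + x) - f' b x - (f (b + y) - f' b y)‖ ≤ M * r * ‖x - y‖ := fun b x y r hx hy =>
    mv (f := fun y => f (b + y) - f' b y) (f' := fun y => f' (b + y) - f' b)
      (fun y => (shift hf b y).sub (f' b).hasFDerivAt) (fun y hy => (hl _ _).trans (by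
        rw [add_sub_cancel_left]; exact mul_le_mul_of_nonneg_left hy hM)) hx hy
  have phi : ∀ (a b x : V), ‖f (a + x) - f (b + x) - (f' a - f' b) x - (f a - f b)‖ ≤
      M * ‖x‖ * ‖a - b‖ * ‖x‖ := fun a b x => by
    have := mv (f := fun y => f (a + y) - f (b + y) - (f' a - f' b) y)
      (f' := fun y => f' (a + y) - f' (b + y) - (f' a - f' b))
      (fun y => ((shift hf a y).sub (shift hf b y)).sub (f' a - f' b).hasFDerivAt)
      (r := ‖x‖) (C := M * ‖x‖ * ‖a - b‖) (fun y hy => (hdd a b y).trans (by gcongr))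
      (x := x) (y := 0) le_rfl (by simp)
    simpa only [add_zero, map_zero, sub_zero] using this
  have key : ∀ h : Hol V, ‖N (g + h) - N g - D h‖ ≤ M * (1 + ‖g‖) * ‖h‖ ^ 2 := fun h => by
    have h0 : 0 ≤ M * ‖g‖ * ‖h‖ ^ 2 := by positivity
    refine norm_le _ _ (fun z => ?_) fun z w => ?_
    · simp only [fn_sub, hN, hD, fn_add]
      have h1 := psi (fn g z) (fn h z) 0 ‖h‖ (bd h z) (by simp only [norm_zero, Submodule.coe_norm, norm_nonneg])
      simp only [add_zero, map_zero, sub_zero] at h1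
      have h2 : M * ‖h‖ * ‖fn h z‖ ≤ M * ‖h‖ * ‖h‖ := by
        have := bd h z
        gcongr
      rw [sub_right_comm]
      refine (h1.trans h2).trans ?_
      linarith
    · simp only [fn_sub, hN, hD, fn_add]
      have h1 := phi (fn g z) (fn g w) (fn h z)
      have h2 := psi (fn g w) (fn h z) (fn h w) ‖h‖ (bd h z) (bd h w)
      have h3 : M * ‖fn h z‖ * ‖fn g z - fn g w‖ * ‖fn h z‖ ≤
          M * ‖h‖ * (‖g‖ * √‖z - w‖) * ‖h‖ := by
        have := bd h z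
        have := hol g z w
        gcongr
      have h4 : M * ‖h‖ * ‖fn h z - fn h w‖ ≤ M * ‖h‖ * (‖h‖ * √‖z - w‖) := by
        have := hol h z w
        gcongr
      have e : f (fn g z + fn h z) - f (fn g z) - f' (fn g z) (fn h z) -
          (f (fn g w + fn h w) - f (fn g w) - f' (fn g w) (fn h w)) =
          (f (fn g z + fn h z) - f (fn g w + fn h z) - (f' (fn g z) - f' (fn g w)) (fn h z) -
            (f (fn g z) - f (fn g w))) +
          (f (fn g w + fn h z) - f' (fn g w) (fn h z) -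
            (f (fn g w + fn h w) - f' (fn g w) (fn h w))) := by
        rw [sub_apply]; abel
      rw [e]
      refine (norm_add_le _ _).trans ((add_le_add (h1.trans h3) (h2.trans h4)).trans (le_of_eq ?_))
      ring
  rw [hasFDerivAt_iff_isLittleO_nhds_zero]
  refine Asymptotics.IsBigO.trans_isLittleO (g := fun h : Hol V => ‖h‖ ^ 2) ?_
    (Asymptotics.isLittleO_norm_pow_id one_lt_two)
  refine Asymptotics.IsBigO.of_bound (M * (1 + ‖g‖)) (Eventually.of_forall fun h => ?_)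
  rw [Real.norm_of_nonneg (by positivity)]
  exact key h

theorem step {F : V → W} {M : ℝ} {n : ℕ} (hF : ContDiff ℝ ((n + 1 : ℕ) : ℕ∞ω) F)
    (hM : ∀ k ≤ n + 1, ∀ q, ‖iteratedFDeriv ℝ k F q‖ ≤ M) :
    (ContDiff ℝ (n : ℕ∞ω) (fderiv ℝ F) ∧ ∀ k ≤ n, ∀ q, ‖iteratedFDeriv ℝ k (fderiv ℝ F) q‖ ≤ M) ∧
    (∀ x, HasFDerivAt F (fderiv ℝ F x) x) ∧ (∀ x, ‖F x‖ ≤ M) ∧ (∀ x, ‖fderiv ℝ F x‖ ≤ M) ∧
    ∀ x y, ‖F x - F y‖ ≤ M * ‖x - y‖ := by
  have d0 : ∀ x, HasFDerivAt F (fderiv ℝ F x) x := fun x =>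
    (hF.differentiable (by exact_mod_cast Nat.succ_ne_zero n) x).hasFDerivAt
  have b1 : ∀ x, ‖fderiv ℝ F x‖ ≤ M := fun x => by
    have := hM (0 + 1) (by omega) x
    rwa [← norm_iteratedFDeriv_fderiv, norm_iteratedFDeriv_zero] at this
  refine ⟨⟨hF.fderiv_right (by push_cast; exact le_rfl), fun k hk q => ?_⟩, d0, fun x => ?_, b1,
    lip d0 b1⟩
  · rw [norm_iteratedFDeriv_fderiv]
    exact hM _ (by omega) q
  · have := hM 0 (by omega) x
    rwa [norm_iteratedFDeriv_zero] at this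

theorem two {F : V → W} {M : ℝ} (hF : ContDiff ℝ ((1 + 1 : ℕ) : ℕ∞ω) F)
    (hM : ∀ k ≤ 1 + 1, ∀ q, ‖iteratedFDeriv ℝ k F q‖ ≤ M) :
    (∀ a b h, ‖F (a + h) - F (b + h) - (F a - F b)‖ ≤ M * ‖h‖ * ‖a - b‖) ∧
    ∀ N : Hol V → Hol W, (∀ g z, fn (N g) z = F (fn g z)) → Continuous N := by
  obtain ⟨⟨c1, m1⟩, d0, -, b1, -⟩ := step hF hM
  obtain ⟨-, -, -, -, l1⟩ := step (n := 0) c1 m1
  exact ⟨dd d0 l1, fun N hN => nem_cont d0 b1 l1 hN⟩

end H12'

theorem thH1 : StH1 :=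
  ⟨fun _ _ _ => ⟨H12'.ext, fun g => ⟨H12'.bd g, H12'.hol g⟩, H12'.ex⟩,
    fun _ _ _ _ _ _ L => H12'.lin L, fun _ _ _ _ _ _ _ _ _ B => H12'.bil B⟩

theorem thH2 : StH2 := by
  intro V W _ _ _ _ F M hF hM
  obtain ⟨⟨c1, m1⟩, d0, b0, b1, l0⟩ := H12'.step (n := 2) hF hM
  obtain ⟨-, -, -, -, l1⟩ := H12'.step (n := 1) c1 m1
  obtain ⟨hdd, hc⟩ := H12'.two c1 m1
  obtain ⟨N, hN⟩ := H12'.nem b0 l0
  obtain ⟨N1, hN1⟩ := H12'.nem b1 l1
  obtain ⟨B, hB⟩ := H12'.bil (ContinuousLinearMap.id ℝ (V →L[ℝ] W))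
  have hD : ∀ g h z, fn (B (N1 g) h) z = fderiv ℝ F (fn g z) (fn h z) := fun g h z => by
    rw [hB, hN1]; rfl
  have hd : ∀ g, HasFDerivAt N (B (N1 g)) g := fun g =>
    H12'.nem_der d0 ((norm_nonneg _).trans (b0 0)) l1 hdd hN g _ (hD g)
  have e : fderiv ℝ N = fun g => B (N1 g) := funext fun g => (hd g).fderiv
  refine ⟨N, contDiff_one_iff_fderiv.2 ⟨fun g => (hd g).differentiableAt, ?_⟩, hN, fun g h z => ?_⟩
  · rw [e]
    exact B.continuous.comp (hc N1 hN1)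
  · rw [e]
    exact hD g h z

end

end Pool.Agent.MP_be5fd0_gt.T

namespace Pool.Agent.MP_be5fd0_gt.T

open Complex Filter Topology Set Metric MeasureTheory
open scoped ContDiff BoundedContinuousFunction

namespace IFa'

section
variable {V : Type} [NormedAddCommGroup V] [NormedSpace ℝ V]

theorem fn_add (g h : Hol V) (z : ℂ) : fn (g + h) z = fn g z + fn h z := rfl
theorem fn_sub (g h : Hol V) (z : ℂ) : fn (g - h) z = fn g z - fn h z := rfl
theorem fn_smul (c : ℝ) (g : Hol V) (z : ℂ) : fn (c • g) z = c • fn g z := rfl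

omit [NormedSpace ℝ V] in
theorem hol_of_lip {f : ℂ → V} {m : ℝ} (hb : ∀ z, ‖f z‖ ≤ m)
    (hl : ∀ z w, ‖f z - f w‖ ≤ m * ‖z - w‖) (z w : ℂ) : ‖f z - f w‖ ≤ 2 * m * √‖z - w‖ := by
  have hm : 0 ≤ m := (norm_nonneg _).trans (hb 0)
  have h0 := Real.sqrt_nonneg ‖z - w‖
  have h1 := Real.mul_self_sqrt (norm_nonneg (z - w))
  rcases le_total (√‖z - w‖) 1 with h | h
  · have := hl z w
    rw [← h1] at this
    nlinarith only [mul_nonneg hm h0, h, this]
  · have := norm_sub_le (f z) (f w)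
    nlinarith only [hb z, hb w, hm, h, this]

theorem ex_hol (h1 : StH1) {f : ℂ → V} {m : ℝ} (hb : ∀ z, ‖f z‖ ≤ m)
    (hl : ∀ z w, ‖f z - f w‖ ≤ m * ‖z - w‖) : ∃ g : Hol V, fn g = f := by
  have hm : 0 ≤ m := (norm_nonneg _).trans (hb 0)
  obtain ⟨g, hg, -⟩ := (h1.1 V).2.2 f (2 * m) (fun z => by linarith [hb z]) (hol_of_lip hb hl)
  exact ⟨g, hg⟩

theorem mkL (h1 : StH1) {X : Type} [NormedAddCommGroup X] [NormedSpace ℝ X] (Φ : X → ℂ → V) (C : ℝ)
    (ha : ∀ x x' z, Φ (x + x') z = Φ x z + Φ x' z) (hs : ∀ (c : ℝ) x z, Φ (c • x) z = c • Φ x z)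
    (hb : ∀ x z, ‖Φ x z‖ ≤ C * ‖x‖) (hh : ∀ x z w, ‖Φ x z - Φ x w‖ ≤ C * ‖x‖ * √‖z - w‖) :
    ∃ N : X →L[ℝ] Hol V, ∀ x, fn (N x) = Φ x := by
  choose N hN hN' using fun x => (h1.1 V).2.2 (Φ x) _ (hb x) (hh x)
  exact ⟨LinearMap.mkContinuous
    { toFun := N
      map_add' := fun x x' => (h1.1 V).1 _ _ (funext fun z => by rw [fn_add, hN, hN, hN, ha])
      map_smul' := fun c x => (h1.1 V).1 _ _ (funext fun z => by
        rw [RingHom.id_apply, fn_smul, hN, hN, hs]) } C hN', hN⟩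

end

theorem ex_T (t1 : StT1) (t2 : StT2) (h1 : StH1) {ρ : ℝ} (hρ : 0 < ρ) {X : Type}
    [NormedAddCommGroup X] [NormedSpace ℝ X] (f : X → ℂ → E) (fc : ∀ g, Continuous (f g))
    (hc : ∀ g, Hc ρ ‖g‖ (f g)) (fa : ∀ g h, f (g + h) = fun z => f g z + f h z)
    (fs : ∀ (c : ℝ) g, f (c • g) = fun z => c • f g z) :
    ∃ T D : X →L[ℝ] Hol E, (∀ g, fn (T g) = cT (f g)) ∧ ∀ g, fn (D g) = del (cT (f g)) := by
  obtain ⟨c, -, hc1⟩ := t1.1 ρ hρ
  obtain ⟨c', -, hc2⟩ := t2 ρ hρ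
  have a := fun g : X => hc1 E (f g) ‖g‖ (fc g) (hc g).supp (hc g).bd
  have b := fun g : X => hc2 E (f g) ‖g‖ (hc g)
  have d : ∀ (g : X) z, DifferentiableAt ℝ (cT (f g)) z := fun g z =>
    ((b g).1.differentiable one_ne_zero) z
  have ha : ∀ (x x' : X) z, cT (f (x + x')) z = cT (f x) z + cT (f x') z :=
    fun x x' z => by rw [fa]; exact (cT_add ((a x).1 z) ((a x').1 z)).1
  have hs : ∀ (r : ℝ) (x : X) z, cT (f (r • x)) z = r • cT (f x) z :=
    fun r x z => by rw [fs]; exact cT_smul r _ z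
  obtain ⟨T, hT⟩ := mkL h1 (fun g : X => cT (f g)) c ha hs (fun g => (a g).2.2.1)
    fun g => (a g).2.2.2.2
  obtain ⟨D, hD⟩ := mkL h1 (fun g : X => del (cT (f g))) c'
    (fun x x' z => by rw [funext (ha x x')]; exact (del_add (d x z) (d x' z)).1)
    (fun r x z => by
      rw [funext (hs r x)]
      simp only [del, fderiv_fun_const_smul (d x z), smul_apply]
      rw [smul_comm r, smul_sub r, smul_comm r I])
    (fun g z => (norm_del_le _ _).trans ((b g).2.2.1 z))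
    fun g z w => (norm_del_sub_le _ _ _ _).trans ((b g).2.2.2 z w)
  exact ⟨T, D, hT, hD⟩

theorem calcF {X H O : Type} [NormedAddCommGroup X] [NormedSpace ℝ X] [NormedAddCommGroup H]
    [NormedSpace ℝ H] [NormedAddCommGroup O] [NormedSpace ℝ O] {NA : H → O}
    (a1 : ContDiff ℝ 1 NA) (NB : O →L[ℝ] H →L[ℝ] H) (Mx : H →L[ℝ] X) (c₀ e₀ : H) (K : ℂ →L[ℝ] H)
    (T D : X →L[ℝ] H) : ∃ F : ℝ × ℂ × X → X, ContDiff ℝ 1 F ∧
      (∀ s y g, F (s, y, g) = g - s • Mx (NB (NA (c₀ + (K y + T g))) (e₀ + D g))) ∧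
      ∀ s y g s' v h, fderiv ℝ F (s, y, g) (s', v, h) = h -
        (s • Mx (NB (NA (c₀ + (K y + T g))) (D h) +
          NB (fderiv ℝ NA (c₀ + (K y + T g)) (K v + T h)) (e₀ + D g)) +
        s' • Mx (NB (NA (c₀ + (K y + T g))) (e₀ + D g))) := by
  let p2 : ℝ × ℂ × X →L[ℝ] ℂ := (ContinuousLinearMap.fst ℝ _ _).comp
    (ContinuousLinearMap.snd ℝ _ _)
  let p3 : ℝ × ℂ × X →L[ℝ] X := (ContinuousLinearMap.snd ℝ _ _).comp
    (ContinuousLinearMap.snd ℝ _ _)
  let P : ℝ × ℂ × X →L[ℝ] H := K.comp p2 + T.comp p3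
  let Q : ℝ × ℂ × X →L[ℝ] H := D.comp p3
  have hG : ContDiff ℝ 1 fun x => Mx (NB (NA (c₀ + P x)) (e₀ + Q x)) :=
    Mx.contDiff.comp ((NB.contDiff.comp (a1.comp (contDiff_const.add P.contDiff))).clm_apply
      (contDiff_const.add Q.contDiff))
  refine ⟨fun x => p3 x - x.1 • Mx (NB (NA (c₀ + P x)) (e₀ + Q x)),
    p3.contDiff.sub (contDiff_fst.smul hG), fun s y g => rfl, fun s y g s' v h => ?_⟩
  have d1 := ((a1.differentiable one_ne_zero) (c₀ + P (s, y, g))).hasFDerivAt.comp (s, y, g)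
    (P.hasFDerivAt.const_add c₀)
  have d2 := (NB.hasFDerivAt.comp (s, y, g) d1).clm_apply (Q.hasFDerivAt.const_add e₀)
  have d3 := p3.hasFDerivAt.sub ((hasFDerivAt_fst (p := (s, y, g))).smul
    (Mx.hasFDerivAt.comp (s, y, g) d2))
  exact congrArg (· (s', v, h)) d3.fderiv

theorem calcV {X V : Type} [NormedAddCommGroup X] [NormedSpace ℝ X] [NormedAddCommGroup V]
    [NormedSpace ℝ V] (h1 : StH1) (h2 : StH2) {A : V → V →L[ℝ] V} {M : ℝ} (hA : ContDiff ℝ 3 A)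
    (hb : ∀ k ≤ 3, ∀ q, ‖iteratedFDeriv ℝ k A q‖ ≤ M) (f : X →ₗ[ℝ] ℂ → V) (χ : ℂ → ℝ)
    (Mx : Hol V →L[ℝ] X) (hM : ∀ g z, f (Mx g) z = χ z • fn g z) (c₀ e₀ : Hol V)
    (K : ℂ →L[ℝ] Hol V) (T D : X →L[ℝ] Hol V) : ∃ F : ℝ × ℂ × X → X, ContDiff ℝ 1 F ∧
      (∀ s y g z, f (F (s, y, g)) z = f g z - s • χ z •
        A (fn c₀ z + (fn (K y) z + fn (T g) z)) (fn e₀ z + fn (D g) z)) ∧
      ∀ s y g s' v h z, f (fderiv ℝ F (s, y, g) (s', v, h)) z = f h z -
        (s • χ z • (A (fn c₀ z + (fn (K y) z + fn (T g) z)) (fn (D h) z) +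
          fderiv ℝ A (fn c₀ z + (fn (K y) z + fn (T g) z)) (fn (K v) z + fn (T h) z)
            (fn e₀ z + fn (D g) z)) +
        s' • χ z • A (fn c₀ z + (fn (K y) z + fn (T g) z)) (fn e₀ z + fn (D g) z)) := by
  obtain ⟨NA, a1, a2, a3⟩ := h2 V (V →L[ℝ] V) A M hA hb
  obtain ⟨NB, hB⟩ := h1.2.2 (V →L[ℝ] V) V V (ContinuousLinearMap.id ℝ _)
  obtain ⟨F, f1, f2, f3⟩ := calcF a1 NB Mx c₀ e₀ K T D
  refine ⟨F, f1, fun s y g z => ?_, fun s y g s' v h z => ?_⟩
  · simp only [f2, map_sub, map_smul, Pi.sub_apply, Pi.smul_apply, hM, hB, a2, fn_add,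
      ContinuousLinearMap.id_apply]
  · simp only [f3, map_sub, f.map_add, map_smul, Pi.sub_apply, Pi.add_apply, Pi.smul_apply, hM,
      fn_add, hB, a2, a3, ContinuousLinearMap.id_apply]

theorem ex_chi (h1 : StH1) (ρ : ℝ) : ∃ g : Hol ℝ, (∀ z, ‖z‖ ≤ ρ → fn g z = 1) ∧
    ∀ z, ρ + 1 ≤ ‖z‖ → fn g z = 0 := by
  obtain ⟨g, hg⟩ := ex_hol h1 (f := fun z => max 0 (min 1 (ρ + 1 - ‖z‖))) (m := 1)
    (fun z => by
      rw [Real.norm_of_nonneg (le_max_left _ _)]
      exact max_le zero_le_one (min_le_left _ _))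
    fun z w => by
      have := abs_norm_sub_norm_le z w
      rw [Real.norm_eq_abs, one_mul, max_comm, max_comm 0]
      refine (abs_max_sub_max_le_abs _ _ _).trans ((abs_min_sub_min_le_max _ _ _ _).trans ?_)
      rw [sub_self, abs_zero, sub_sub_sub_cancel_left, abs_sub_comm]
      exact max_le (norm_nonneg _) this
  refine ⟨g, fun z h => ?_, fun z h => ?_⟩ <;> rw [hg]
  · exact (congrArg _ (min_eq_left (by linarith))).trans (max_eq_right zero_le_one)
  · exact max_eq_left ((min_le_right _ _).trans (by linarith))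

theorem mk_sub (a b c d : ℂ) : mk a b - mk c d = mk (a - c) (b - d) := by
  ext i; fin_cases i <;> simp [mk]

theorem mk_add (a b c d : ℂ) : mk a b + mk c d = mk (a + c) (b + d) := by
  ext i; fin_cases i <;> simp [mk]

theorem ex_id (sw : StSw) (h1 : StH1) {ρ : ℝ} (hρ : 0 < ρ) :
    ∃ g : Hol E, ∀ z, ‖z‖ ≤ ρ → fn g z = mk z 0 := by
  have hmk := sw.2.2.2.2.2.2.2.2.2.2.2.1
  let cl : ℝ → ℝ := fun t => max (-ρ) (min ρ t)
  have c1 : ∀ t, |cl t| ≤ ρ := fun t =>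
    abs_le.2 ⟨le_max_left _ _, max_le (by linarith) (min_le_left _ _)⟩
  have c2 : ∀ t s, |cl t - cl s| ≤ |t - s| := fun t s => by
    simp only [cl]
    rw [max_comm, max_comm (-ρ)]
    refine (abs_max_sub_max_le_abs _ _ _).trans ((abs_min_sub_min_le_max _ _ _ _).trans ?_)
    simp only [sub_self, abs_zero, abs_nonneg, sup_of_le_right, Std.le_refl]
  have c3 : ∀ t, |t| ≤ ρ → cl t = t := fun t h =>
    (congrArg _ (min_eq_right (abs_le.1 h).2)).trans (max_eq_right (abs_le.1 h).1)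
  obtain ⟨g, hg⟩ := ex_hol h1 (f := fun z => mk ⟨cl z.re, cl z.im⟩ 0) (m := 2 * ρ + 2)
    (fun z => by
      have := norm_le_abs_re_add_abs_im ⟨cl z.re, cl z.im⟩
      refine (hmk _ _).trans ?_
      simp only [norm_zero] at this ⊢
      linarith [c1 z.re, c1 z.im])
    fun z w => by
      have := norm_le_abs_re_add_abs_im (⟨cl z.re, cl z.im⟩ - ⟨cl w.re, cl w.im⟩)
      rw [mk_sub]
      refine (hmk _ _).trans ?_
      have a := abs_re_le_norm (z - w)
      have b := abs_im_le_norm (z - w)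
      simp only [sub_self, norm_zero, sub_re, sub_im] at this a b ⊢
      nlinarith only [c2 z.re w.re, c2 z.im w.im, norm_nonneg (z - w), hρ, this, a, b]
  refine ⟨g, fun z h => ?_⟩
  rw [hg]
  simp only [c3 _ ((abs_re_le_norm z).trans h), c3 _ ((abs_im_le_norm z).trans h)]

theorem fin1 {V : Type} [NormedAddCommGroup V] [NormedSpace ℝ V] (A : V → V →L[ℝ] V)
    {x p p' q : V} {s c : ℝ} (h : c = 0 ∨ p = p') : x - s • c • A p q = x - (s * c) • A p' q := by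
  rcases h with rfl | rfl <;> simp [mul_smul]

theorem fin2 {V : Type} [NormedAddCommGroup V] [NormedSpace ℝ V] (A : V → V →L[ℝ] V)
    {x p p' q d w : V} {s s' c : ℝ} (h : c = 0 ∨ p = p') :
    x - (s • c • (A p d + fderiv ℝ A p w q) + s' • c • A p q) =
      x - (s' * c) • A p' q - (s * c) • (fderiv ℝ A p' w q + A p' d) := by
  rcases h with rfl | rfl
  · simp
  · module

end IFa'

open IFa' in
theorem thIFa (t1 : StT1) (t2 : StT2) (sw : StSw) (h1 : StH1) (h2 : StH2) : StIFa := by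
  intro A a M R ρ hA hρ
  have hρ' : 0 < ρ + 1 := by linarith
  obtain ⟨T, D, hT, hD⟩ := ex_T t1 t2 h1 hρ' (fun g : Ys (ρ + 1) => fn g.1)
    (fun g => g.1.1.1.continuous)
    (fun g => ⟨g.2, ((h1.1 E).2.1 g.1).1, ((h1.1 E).2.1 g.1).2⟩) (fun _ _ => rfl) fun _ _ => rfl
  obtain ⟨χ, χ1, χ0⟩ := ex_chi h1 ρ
  obtain ⟨c₀, hc₀⟩ := ex_id sw h1 hρ'
  obtain ⟨e₀, he₀⟩ := ex_hol h1 (f := fun _ => mk 1 0) (m := ‖mk 1 0‖) (fun _ => le_rfl)
    fun z w => by simp only [sub_self, norm_zero]; positivity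
  obtain ⟨K, hK⟩ := mkL h1 (fun (y : ℂ) (_ : ℂ) => mk 0 y) 1
    (fun x x' _ => by rw [mk_add, add_zero])
    (fun c x _ => by ext i; fin_cases i <;> simp [mk])
    (fun x _ => by simpa only [one_mul, norm_zero, zero_add] using sw.2.2.2.2.2.2.2.2.2.2.2.1 0 x) fun x z w => by simp only [sub_self, norm_zero, one_mul]; positivity
  obtain ⟨NS, hS⟩ := h1.2.2 ℝ E E (ContinuousLinearMap.lsmul ℝ ℝ)
  obtain ⟨F, f1, f2, f3⟩ := calcV (X := Ys (ρ + 1)) h1 h2 (hA.smooth.of_le (by norm_cast)) hA.bd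
    ⟨⟨fun g => fn g.1, fun _ _ => rfl⟩, fun _ _ => rfl⟩ (fn χ)
    ((NS χ).codRestrict (Ys (ρ + 1)) fun g z hz => by rw [hS, χ0 z hz]; simp) (fun g z => hS χ g z)
    c₀ e₀ K T D
  have key : ∀ y w z, fn χ z = 0 ∨ fn c₀ z + (mk 0 y + w) = mk z y + w :=
    fun y w z => (le_total (ρ + 1) ‖z‖).imp (χ0 z) fun h => by
      rw [hc₀ z h, ← add_assoc, mk_add, add_zero, zero_add]
  simp only [hK, hT, hD, he₀] at f2 f3
  exact ⟨fn χ, F, χ1, f1, fun s y g z => (f2 s y g z).trans (fin1 A (key y _ z)),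
    fun s y g s' v h z => (f3 s y g s' v h z).trans (fin2 A (key y _ z))⟩

end Pool.Agent.MP_be5fd0_gt.T

namespace Pool.Agent.MP_be5fd0_gt.T

open Complex Filter Topology Set Metric MeasureTheory
open scoped ContDiff BoundedContinuousFunction

noncomputable section

namespace IFT'

theorem absIFT {Y : Type} [NormedAddCommGroup Y] [NormedSpace ℝ Y] [CompleteSpace Y]
    (F : ℝ × ℂ × Y → Y) (hF : ContDiff ℝ 1 F) (s₀ : ℝ) (y₀ : ℂ) (g₀ : Y)
    (h0 : F (s₀, y₀, g₀) = 0)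
    (hi : ∀ h, fderiv ℝ F (s₀, y₀, g₀) (0, 0, h) = 0 → h = 0)
    (hs : ∀ k, ∃ h, fderiv ℝ F (s₀, y₀, g₀) (0, 0, h) = k) (η : ℝ) (hη : 0 < η) :
    ∃ (G : ℝ × ℂ → Y) (G' : ℂ →L[ℝ] Y) (δ : ℝ), 0 < δ ∧ G (s₀, y₀) = g₀ ∧
      (∀ s y, |s - s₀| < δ → ‖y - y₀‖ < δ → F (s, y, G (s, y)) = 0 ∧ ContinuousAt G (s, y) ∧
        ‖G (s, y) - g₀‖ < η ∧ ∀ g, ‖g - g₀‖ < δ → F (s, y, g) = 0 → g = G (s, y)) ∧
      HasStrictFDerivAt (fun y => G (s₀, y)) G' y₀ ∧
      ∀ v, fderiv ℝ F (s₀, y₀, g₀) (0, v, G' v) = 0 := by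
  set D := fderiv ℝ F (s₀, y₀, g₀) with hD
  have hd : HasStrictFDerivAt F D (s₀, y₀, g₀) := hF.contDiffAt.hasStrictFDerivAt (by simp)
  let a : ((ℝ × ℂ) × Y) →L[ℝ] (ℝ × ℂ × Y) := ContinuousLinearEquiv.prodAssoc ℝ ℝ ℂ Y
  have dfu : HasStrictFDerivAt (fun p => F (a p)) (D ∘L a) ((s₀, y₀), g₀) :=
    HasStrictFDerivAt.comp ((s₀, y₀), g₀) hd a.hasStrictFDerivAt
  have inv : ((D ∘L a) ∘L .inr ℝ (ℝ × ℂ) Y).IsInvertible := by
    refine ⟨ContinuousLinearEquiv.ofBijective ((D ∘L a) ∘L .inr ℝ (ℝ × ℂ) Y) ?_ ?_, rfl⟩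
    · exact LinearMap.ker_eq_bot'.2 fun h hh => hi h hh
    · exact LinearMap.range_eq_top.2 fun k => hs k
  have e1 := dfu.eventually_apply_eq_iff_implicitFunctionOfProdDomain inv
  have e2 := dfu.hasStrictFDerivAt_implicitFunctionOfProdDomain inv
  have e3 := dfu.tendsto_implicitFunctionOfProdDomain inv
  have e4 := dfu.eventually_apply_implicitFunctionOfProdDomain inv
  generalize dfu.implicitFunctionOfProdDomain inv = G at e1 e2 e3 e4
  obtain ⟨G₁, e2⟩ : ∃ G₁ : ℝ × ℂ →L[ℝ] Y, HasStrictFDerivAt G G₁ (s₀, y₀) := ⟨_, e2⟩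
  have hG0 : G (s₀, y₀) = g₀ := e1.self_of_nhds.1 rfl
  have e4' : ∀ᶠ x in 𝓝 (s₀, y₀), F (x.1, x.2, G x) = 0 := e4.mono fun x hx => hx.trans h0
  obtain ⟨K, t, ht, hK⟩ := e2.exists_lipschitzOnWith
  have e5 : ∀ᶠ x in 𝓝 (s₀, y₀), ContinuousAt G x :=
    (eventually_mem_nhds_iff.2 ht).mono fun x hx => hK.continuousOn.continuousAt hx
  have e6 : ∀ᶠ x in 𝓝 (s₀, y₀), ‖G x - g₀‖ < η := by
    simpa only [dist_eq_norm] using Metric.tendsto_nhds.1 e3 η hη
  obtain ⟨δ₁, hδ₁, H1⟩ := Metric.eventually_nhds_iff.1 e1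
  obtain ⟨δ₂, hδ₂, H2⟩ := Metric.eventually_nhds_iff.1 (e4'.and (e5.and e6))
  have hG' : HasStrictFDerivAt (fun y => G (s₀, y)) (G₁ ∘L .inr ℝ ℝ ℂ) y₀ :=
    HasStrictFDerivAt.comp (f := fun y : ℂ => (s₀, y)) y₀ e2
      ((hasStrictFDerivAt_const s₀ y₀).prodMk (hasStrictFDerivAt_id y₀))
  refine ⟨G, G₁ ∘L .inr ℝ ℝ ℂ, min δ₁ δ₂, lt_min hδ₁ hδ₂, hG0, fun s y h1 h2 => ?_, hG', ?_⟩
  · have hd : dist (s, y) (s₀, y₀) < min δ₁ δ₂ := by
      rw [Prod.dist_eq, dist_eq_norm, dist_eq_norm]; exact max_lt h1 h2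
    obtain ⟨p1, p2, p3⟩ := H2 (hd.trans_le (min_le_right _ _))
    refine ⟨p1, p2, p3, fun g hg hz => ?_⟩
    have : dist ((s, y), g) ((s₀, y₀), g₀) < δ₁ := by
      rw [Prod.dist_eq, dist_eq_norm g]
      exact (max_lt hd hg).trans_le (min_le_left _ _)
    exact ((H1 this).1 (hz.trans h0.symm)).symm
  · have c1 : HasFDerivAt (fun y : ℂ => (s₀, y, G (s₀, y)))
        ((0 : ℂ →L[ℝ] ℝ).prod ((ContinuousLinearMap.id ℝ ℂ).prod (G₁ ∘L .inr ℝ ℝ ℂ))) y₀ :=
      (hasFDerivAt_const s₀ y₀).prodMk ((hasFDerivAt_id y₀).prodMk hG'.hasFDerivAt)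
    have hd' : HasFDerivAt F D (s₀, y₀, G (s₀, y₀)) := hG0 ▸ hd.hasFDerivAt
    have c2 := HasFDerivAt.comp (f := fun y : ℂ => (s₀, y, G (s₀, y))) y₀ hd' c1
    have c3 : ∀ᶠ y in 𝓝 y₀, F (s₀, y, G (s₀, y)) = 0 :=
      (Continuous.prodMk_right s₀).continuousAt.tendsto.eventually e4'
    have c4 := c2.unique ((hasFDerivAt_const (0 : Y) y₀).congr_of_eventuallyEq c3)
    intro v
    exact congrArg (fun L : ℂ →L[ℝ] Y => L v) c4

theorem strict0 {Y W : Type} [NormedAddCommGroup Y] [NormedSpace ℝ Y] [NormedAddCommGroup W]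
    [NormedSpace ℝ W] (T : ℂ → Y →L[ℝ] W) (c : ℝ) (hc : 0 < c)
    (hT : ∀ z w, ‖T z - T w‖ ≤ c * ‖z - w‖) (p₀ : ℂ × Y) :
    HasStrictFDerivAt (fun p : ℂ × Y => (T p.1 - T p₀.1) (p.2 - p₀.2)) (0 : ℂ × Y →L[ℝ] W) p₀ := by
  rw [hasStrictFDerivAt_iff_isLittleO, Asymptotics.isLittleO_iff]
  intro ε hε
  refine Metric.eventually_nhds_iff.2 ⟨ε / (2 * c), by positivity, fun {q} hq => ?_⟩
  rw [Prod.dist_eq, max_lt_iff, dist_eq_norm, dist_eq_norm] at hq
  have e : (T q.1.1 - T p₀.1) (q.1.2 - p₀.2) - (T q.2.1 - T p₀.1) (q.2.2 - p₀.2) -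
      (0 : ℂ × Y →L[ℝ] W) (q.1 - q.2) =
      (T q.1.1 - T p₀.1) (q.1.2 - q.2.2) + (T q.1.1 - T q.2.1) (q.2.2 - p₀.2) := by
    simp only [sub_apply, map_sub, zero_apply]; abel
  rw [e]
  have a1 : ‖q.1.1 - p₀.1‖ ≤ ε / (2 * c) := (norm_fst_le (q.1 - p₀)).trans hq.1.le
  have a2 : ‖q.2.2 - p₀.2‖ ≤ ε / (2 * c) := (norm_snd_le (q.2 - p₀)).trans hq.2.le
  have a3 : ‖q.1.2 - q.2.2‖ ≤ ‖q.1 - q.2‖ := norm_snd_le (q.1 - q.2)
  have a4 : ‖q.1.1 - q.2.1‖ ≤ ‖q.1 - q.2‖ := norm_fst_le (q.1 - q.2)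
  calc _ ≤ ‖T q.1.1 - T p₀.1‖ * ‖q.1.2 - q.2.2‖ + ‖T q.1.1 - T q.2.1‖ * ‖q.2.2 - p₀.2‖ :=
        norm_add_le_of_le (ContinuousLinearMap.le_opNorm _ _) (ContinuousLinearMap.le_opNorm _ _)
    _ ≤ (c * (ε / (2 * c))) * ‖q.1 - q.2‖ + (c * ‖q.1 - q.2‖) * (ε / (2 * c)) := by
        gcongr
        · exact (hT _ _).trans (by gcongr)
        · exact (hT _ _).trans (by gcongr)
    _ = ε * ‖q.1 - q.2‖ := by field_simp; ring

theorem hol_of_lip {V : Type} [NormedAddCommGroup V] {f : ℂ → V} {ε K η : ℝ}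
    (h1 : ∀ z, ‖f z‖ ≤ ε) (h2 : ∀ z w, ‖f z - f w‖ ≤ K * ‖z - w‖) (hη : 0 ≤ η)
    (h : 2 * ε * K ≤ η ^ 2) (z w : ℂ) : ‖f z - f w‖ ≤ η * √‖z - w‖ := by
  have a1 : ‖f z - f w‖ ≤ 2 * ε := by linarith [norm_sub_le (f z) (f w), h1 z, h1 w]
  rw [← sq_le_sq₀ (norm_nonneg _) (by positivity), mul_pow, Real.sq_sqrt (norm_nonneg _)]
  calc _ = ‖f z - f w‖ * ‖f z - f w‖ := sq _
    _ ≤ (2 * ε) * (K * ‖z - w‖) :=
        mul_le_mul a1 (h2 z w) (norm_nonneg _) ((norm_nonneg _).trans a1)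
    _ = (2 * ε * K) * ‖z - w‖ := by ring
    _ ≤ _ := by gcongr

/-- bounded and one-half Hoelder -/
def BH {V : Type} [NormedAddCommGroup V] (f : ℂ → V) : Prop :=
  ∃ m : ℝ, (∀ z, ‖f z‖ ≤ m) ∧ ∀ z w, ‖f z - f w‖ ≤ m * √‖z - w‖

section
variable {V W : Type} [NormedAddCommGroup V] [NormedSpace ℝ V] [NormedAddCommGroup W]
  [NormedSpace ℝ W]

omit [NormedSpace ℝ V] in
theorem bh_lip {f : ℂ → V} {m K : ℝ} (h1 : ∀ z, ‖f z‖ ≤ m)
    (h2 : ∀ z w, ‖f z - f w‖ ≤ K * ‖z - w‖) : BH f := by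
  have hm : 0 ≤ m := (norm_nonneg _).trans (h1 0)
  have hK : 0 ≤ K := by simpa only [sub_zero, norm_one, mul_one] using (norm_nonneg _).trans (h2 1 0)
  exact ⟨m + K, fun z => by linarith [h1 z], hol_of_lip h1 h2 (by positivity) (by nlinarith only [hm, hK])⟩

omit [NormedSpace ℝ V] in
theorem bh_const (c : V) : BH fun _ => c :=
  ⟨‖c‖, fun _ => le_rfl, fun z w => by rw [sub_self, norm_zero]; positivity⟩

omit [NormedSpace ℝ V] in
theorem BH.add {f g : ℂ → V} (hf : BH f) (hg : BH g) : BH fun z => f z + g z := by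
  obtain ⟨m, a1, a2⟩ := hf
  obtain ⟨n, b1, b2⟩ := hg
  refine ⟨m + n, fun z => norm_add_le_of_le (a1 z) (b1 z), fun z w => ?_⟩
  rw [add_sub_add_comm, add_mul]
  exact norm_add_le_of_le (a2 z w) (b2 z w)

theorem BH.app {f : ℂ → V →L[ℝ] W} {g : ℂ → V} (hf : BH f) (hg : BH g) :
    BH fun z => f z (g z) := by
  obtain ⟨m, a1, a2⟩ := hf
  obtain ⟨n, b1, b2⟩ := hg
  have hm : 0 ≤ m := (norm_nonneg _).trans (a1 0)
  have hn : 0 ≤ n := (norm_nonneg _).trans (b1 0)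
  refine ⟨2 * (m * n), fun z => ?_, fun z w => ?_⟩
  · have := (f z).le_of_opNorm_le_of_le (a1 z) (b1 z)
    have := mul_nonneg hm hn
    linarith
  · have e : f z (g z) - f w (g w) = f z (g z - g w) + (f z - f w) (g w) := by
      simp only [sub_apply, map_sub]; abel
    rw [e]
    refine (norm_add_le_of_le ((f z).le_of_opNorm_le_of_le (a1 z) (b2 z w))
      ((f z - f w).le_of_opNorm_le_of_le (a2 z w) (b1 w))).trans (le_of_eq (by ring))

theorem lip_of_fderiv {f : V → W} {K : ℝ} (hf : Differentiable ℝ f)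
    (h : ∀ q, ‖fderiv ℝ f q‖ ≤ K) (p q : V) : ‖f p - f q‖ ≤ K * ‖p - q‖ :=
  convex_univ.norm_image_sub_le_of_norm_fderiv_le (fun x _ => hf x) (fun x _ => h x)
    (mem_univ q) (mem_univ p)

theorem lip2 {f : V → W} {M : ℝ} (hf : ContDiff ℝ ∞ f)
    (h : ∀ k ≤ 3, ∀ q, ‖iteratedFDeriv ℝ k f q‖ ≤ M) :
    (∀ q, ‖fderiv ℝ f q‖ ≤ M) ∧ (∀ p q, ‖f p - f q‖ ≤ M * ‖p - q‖) ∧
      ∀ p q, ‖fderiv ℝ f p - fderiv ℝ f q‖ ≤ M * ‖p - q‖ := by
  have m1 : ∀ q, ‖fderiv ℝ f q‖ ≤ M := fun q => by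
    rw [← norm_iteratedFDeriv_one]; exact h 1 (by simp) q
  have m2 : ∀ q, ‖fderiv ℝ (fderiv ℝ f) q‖ ≤ M := fun q => by
    rw [← norm_iteratedFDeriv_one, norm_iteratedFDeriv_fderiv]; exact h 2 (by simp) q
  exact ⟨m1, lip_of_fderiv (hf.differentiable (by simp)) m1, lip_of_fderiv
    ((contDiff_infty_iff_fderiv.1 hf).2.differentiable (by simp)) m2⟩

omit [NormedSpace ℝ V] in
theorem tendsto_of_dec {f : ℂ → V} {K : ℝ} (h : ∀ z, ‖z‖ * ‖f z‖ ≤ K) :
    Tendsto f (cocompact ℂ) (𝓝 0) := by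
  have h1 : Tendsto (fun z : ℂ => ‖z‖) (cocompact ℂ) atTop := tendsto_norm_cocompact_atTop
  refine squeeze_zero_norm' ?_ (h1.const_div_atTop K)
  filter_upwards [h1.eventually_gt_atTop 0] with z hz
  rw [le_div_iff₀' hz]; exact h z
end

structure Mod {Y : Type} [NormedAddCommGroup Y] [NormedSpace ℝ Y] (ρ : ℝ) (ι : Y → ℂ → E) :
    Prop where
  add : ∀ g h, ι (g + h) = fun z => ι g z + ι h z
  sub : ∀ g h, ι (g - h) = fun z => ι g z - ι h z
  smul : ∀ (c : ℝ) g, ι (c • g) = fun z => c • ι g z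
  zero : ∀ z, ι 0 z = 0
  ext : ∀ g h, ι g = ι h → g = h
  hc : ∀ g, Hc ρ ‖g‖ (ι g)
  cont : ∀ g, Continuous (ι g)
  ex : ∀ m f, Hc ρ m f → ∃ g, ι g = f ∧ ‖g‖ ≤ m

theorem mod_Ys (hH : StH1) (ρ : ℝ) : Mod ρ fun g : Ys ρ => fn g.1 where
  add _ _ := rfl
  sub _ _ := rfl
  smul _ _ := rfl
  zero _ := rfl
  ext _ _ e := Subtype.ext ((hH.1 E).1 _ _ e)
  hc g := ⟨g.2, ((hH.1 E).2.1 g.1).1, ((hH.1 E).2.1 g.1).2⟩
  cont g := g.1.1.1.continuous
  ex m f h := by
    obtain ⟨g, h1, h2⟩ := (hH.1 E).2.2 f m h.bd h.hol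
    exact ⟨⟨g, fun z hz => (congrFun h1 z).trans (h.supp z hz)⟩, h1, h2⟩

theorem exT {Y : Type} [NormedAddCommGroup Y] [NormedSpace ℝ Y] {ρ : ℝ} {ι : Y → ℂ → E}
    (h1 : StT1) (h2 : StT2) (hm : Mod ρ ι) (hρ : 0 < ρ) :
    ∃ (T : ℂ → Y →L[ℝ] E) (c : ℝ), 0 < c ∧ (∀ z g, T z g = cT (ι g) z) ∧
      (∀ z g, ‖T z g‖ ≤ c * ‖g‖) ∧ (∀ z w, ‖T z - T w‖ ≤ c * ‖z - w‖) ∧
      ∀ g, ContDiff ℝ 1 (cT (ι g)) ∧ (∀ z, dbar (cT (ι g)) z = ι g z) ∧
        Tendsto (cT (ι g)) (cocompact ℂ) (𝓝 0) ∧ BH (cT (ι g)) ∧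
        BH (fderiv ℝ (cT (ι g))) := by
  obtain ⟨c₁, hc₁, t1⟩ := h1.1 ρ hρ
  obtain ⟨c₂, hc₂, t2⟩ := h2 ρ hρ
  have a1 := fun g => t1 E (ι g) ‖g‖ (hm.cont g) (hm.hc g).supp (hm.hc g).bd
  have a2 := fun g => t2 E (ι g) ‖g‖ (hm.hc g)
  let L : ℂ → Y →ₗ[ℝ] E := fun z =>
    { toFun := fun g => cT (ι g) z
      map_add' := fun g h => by rw [hm.add]; exact (cT_add ((a1 g).1 z) ((a1 h).1 z)).1
      map_smul' := fun c g => by rw [hm.smul]; exact cT_smul c (ι g) z }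
  refine ⟨fun z => (L z).mkContinuous c₁ fun g => (a1 g).2.2.1 z, c₁ + c₂, by positivity,
    fun z g => rfl, fun z g => ((a1 g).2.2.1 z).trans (by gcongr; linarith), fun z w => ?_,
    fun g => ⟨(a2 g).1, (a2 g).2.1, tendsto_of_dec (a1 g).2.2.2.1,
      ⟨_, (a1 g).2.2.1, (a1 g).2.2.2.2⟩, ⟨_, (a2 g).2.2.1, (a2 g).2.2.2⟩⟩⟩
  refine ContinuousLinearMap.opNorm_le_bound _ (by positivity) fun g => ?_
  refine (lip_of_fderiv ((a2 g).1.differentiable (by simp)) (a2 g).2.2.1 z w).trans ?_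
  rw [mul_right_comm]; gcongr; linarith

theorem del_rep (hSw : StSw) {f : ℂ → E} (hf : ContDiff ℝ 1 f) (y z : ℂ) :
    del (fun z => mk z y + f z) z = mk 1 0 + del f z ∧
      dbar (fun z => mk z y + f z) z = dbar f z := by
  obtain ⟨a1, a2, a3⟩ := hSw.2.2.2.2.2.2.2.2.2.2.2.2.2.2 y
  have := del_add (a1.differentiable (by simp) z) (hf.differentiable (by simp) z)
  rwa [a2, a3, zero_add] at this

theorem del_rep0 {f : ℂ → E} (hf : ContDiff ℝ 1 f) (c : E) (z : ℂ) :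
    del (fun z => c + f z) z = del f z ∧ dbar (fun z => c + f z) z = dbar f z := by
  have := del_add (differentiableAt_const c (x := z)) (hf.differentiable (by simp) z)
  rwa [(del_const c z).1, (del_const c z).2, zero_add, zero_add] at this

theorem rep (h3 : StT3) (hSw : StSw) {B : E → Op} {a M R C : ℝ} {y : ℂ} {u : ℂ → E}
    (hB : Fld B a M R) (hu : Sol B y u) (hb : Bd R C y u) :
    (∀ z, C + 1 ≤ ‖z‖ → dbar u z = 0) ∧ u = fun z => mk z y + cT (dbar u) z := by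
  obtain ⟨a1, a2, a3⟩ := hSw.2.2.2.2.2.2.2.2.2.2.2.2.2.2 y
  have b1 : ∀ z, C + 1 ≤ ‖z‖ → dbar u z = 0 := fun z hz => by
    rw [hu.eq, hB.supp _ (by linarith [hb.out z (by linarith)]), zero_apply]
  have b2 : dbar (fun z => u z - mk z y) = dbar u := funext fun z => by
    rw [(del_sub (hu.c1.differentiable (by simp) z) (a1.differentiable (by simp) z)).2, a3,
      sub_zero]
  have b3 := h3 E (fun z => u z - mk z y) 0 (C + 1) (hu.c1.sub (a1.of_le (by simp))) hu.asy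
    (by rw [b2]; exact b1)
  refine ⟨b1, funext fun z => ?_⟩
  have := b3 z
  rw [b2, zero_add] at this
  rw [← this]; abel

theorem mk_sub (z y y' : ℂ) : mk z y - mk z y' = mk 0 (y - y') := by
  ext i; fin_cases i <;> simp [mk]

/-- `mk` as a linear map -/
def mkL : ℂ × ℂ →L[ℝ] E :=
  LinearMap.toContinuousLinearMap
    { toFun := fun p => mk p.1 p.2
      map_add' := fun x y => by ext i; fin_cases i <;> simp [mk]
      map_smul' := fun c x => by ext i; fin_cases i <;> simp [mk] }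

theorem bh_dbar {A : E → Op} {a M R C : ℝ} {y : ℂ} {u ξ : ℂ → E} (hA : Fld A a M R)
    (hu : ContDiff ℝ 1 u) (hb : Bd R C y u) (hξ : ContDiff ℝ 1 ξ) (b0 : BH ξ)
    (b1 : BH (fderiv ℝ ξ)) : BH (dbar fun w => (1 + A (u w)) (ξ w)) := by
  have hM : 0 ≤ M := (norm_nonneg _).trans (hA.bd 0 (by simp) 0)
  have dA : Differentiable ℝ A := hA.smooth.differentiable (by simp)
  have du := hu.differentiable (by simp)
  have lu := lip_of_fderiv du hb.b1
  obtain ⟨m1, m2, m3⟩ := lip2 hA.smooth hA.bd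
  have l2 : ∀ z w, M * ‖u z - u w‖ ≤ M * C * ‖z - w‖ := fun z w => by
    rw [mul_assoc]; exact mul_le_mul_of_nonneg_left (lu z w) hM
  have c1 : BH fun z => A (u z) := bh_lip (fun z => hA.le _) fun z w => (m2 _ _).trans (l2 z w)
  have c2 : BH fun z => fderiv ℝ A (u z) :=
    bh_lip (fun z => m1 _) fun z w => (m3 _ _).trans (l2 z w)
  have c3 : BH (fderiv ℝ u) := bh_lip hb.b1 hb.lip
  have c4 : ∀ ζ, BH fun z => fderiv ℝ (fun w => (1 + A (u w)) (ξ w)) z ζ := fun ζ => by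
    have e : (fun z => fderiv ℝ (fun w => (1 + A (u w)) (ξ w)) z ζ) = fun z =>
        (1 + A (u z)) (fderiv ℝ ξ z ζ) + fderiv ℝ A (u z) (fderiv ℝ u z ζ) (ξ z) := by
      funext z
      have d1 : HasFDerivAt (fun w => 1 + A (u w)) ((fderiv ℝ A (u z)).comp (fderiv ℝ u z)) z :=
        ((dA (u z)).hasFDerivAt.comp z (du z).hasFDerivAt).const_add 1
      rw [(d1.clm_apply (hξ.differentiable (by simp) z).hasFDerivAt).fderiv]
      rfl
    rw [e]
    exact (((bh_const 1).add c1).app (b1.app (bh_const ζ))).add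
      ((c2.app (c3.app (bh_const ζ))).app b0)
  exact (bh_const (ContinuousLinearMap.lsmul ℝ ℂ (1 / 2 : ℂ) : E →L[ℝ] E)).app
    ((c4 1).add ((bh_const (ContinuousLinearMap.lsmul ℝ ℂ I : E →L[ℝ] E)).app (c4 I)))

theorem core {Y : Type} [NormedAddCommGroup Y] [NormedSpace ℝ Y] [CompleteSpace Y]
    (h1 : StT1) (h2 : StT2) (h3 : StT3) (hSw : StSw) (hRr : StRr) (hInt : StInt) (hLin : StLin)
    {A : E → Op} {a M R C s₀ : ℝ} {y₀ : ℂ} {u₀ : ℂ → E} (hA : Fld A a M R)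
    (hs₀ : s₀ ∈ Icc (0 : ℝ) 1) (hu₀ : Sol (s₀ • A) y₀ u₀) (hη : ∀ z, del u₀ z ≠ 0) (hC : 0 < C)
    (hAp : ∀ A y u, Fld A a M R → Sol A y u → Bd R C y u) {ι : Y → ℂ → E} (hm : Mod (C + 1) ι)
    {χ : ℂ → ℝ} {F : ℝ × ℂ × Y → Y} (hχ : ∀ z, ‖z‖ ≤ C → χ z = 1) (hF : ContDiff ℝ 1 F)
    (hF0 : ∀ s y g z, ι (F (s, y, g)) z = ι g z -
        (s * χ z) • A (mk z y + cT (ι g) z) (mk 1 0 + del (cT (ι g)) z))
    (hF1 : ∀ s y g s' v h z, ι (fderiv ℝ F (s, y, g) (s', v, h)) z = ι h z -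
        (s' * χ z) • A (mk z y + cT (ι g) z) (mk 1 0 + del (cT (ι g)) z) -
        (s * χ z) • (fderiv ℝ A (mk z y + cT (ι g) z) (mk 0 v + cT (ι h) z)
          (mk 1 0 + del (cT (ι g)) z) + A (mk z y + cT (ι g) z) (del (cT (ι h)) z))) :
    ∃ δ : ℝ, 0 < δ ∧ ∃ b : ℝ → ℂ → ℂ → E, b s₀ y₀ = u₀ ∧
      (∀ s y, |s - s₀| < δ → ‖y - y₀‖ < δ → Sol (s • A) y (b s y)) ∧
      (∀ s y, |s - s₀| < δ → ‖y - y₀‖ < δ → ∀ ε : ℝ, 0 < ε → ∃ δ' : ℝ, 0 < δ' ∧
        ∀ s' y', |s' - s| < δ' → ‖y' - y‖ < δ' → ∀ z, ‖b s' y' z - b s y z‖ ≤ ε) ∧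
      (∀ s ∈ Icc (0 : ℝ) 1, ∀ y u, |s - s₀| < δ → ‖y - y₀‖ < δ → Sol (s • A) y u →
        (∀ z, ‖u z - u₀ z‖ ≤ δ) → u = b s y) ∧
      ∃ ξ : ℂ → ℂ → E, (∀ v, Lin (s₀ • A) u₀ v (ξ v)) ∧ ∀ z₀, ∃ D : ℂ × ℂ →L[ℝ] E,
        HasStrictFDerivAt (fun p : ℂ × ℂ => b s₀ p.2 p.1) D (z₀, y₀) ∧
        ∀ ζ v, D (ζ, v) = fderiv ℝ u₀ z₀ ζ + (1 + (s₀ • A) (u₀ z₀)) (ξ v z₀) := by
  obtain ⟨T, c, hc, hT0, hT1, hT2, hT3⟩ := exT h1 h2 hm (by positivity)
  have hsm := fun s hs => hSw.2.2.2.2.2.2.2.1 A a M R s hs hA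
  have hmk := hSw.2.2.2.2.2.2.2.2.2.2.2.1
  have hmk1 := fun y => (hSw.2.2.2.2.2.2.2.2.2.2.2.2.2.2 y).1.of_le (m := 1) (by simp)
  -- the cut-off is invisible along maps that leave the support of the field
  have cut : ∀ (s : ℝ) (z : ℂ) (q w : E), (C ≤ ‖z‖ → R ≤ ‖q 0‖) →
      (s * χ z) • A q w = (s • A) q w := fun s z q w h => by
    rcases le_total ‖z‖ C with hz | hz
    · rw [hχ z hz, mul_one]; rfl
    · change _ = s • A q w
      rw [hA.supp q (h hz), zero_apply, smul_zero, smul_zero]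
  have hrep : ∀ s ∈ Icc (0 : ℝ) 1, ∀ y u, Sol (s • A) y u → ∃ g, ι g = dbar u ∧
      (u = fun z => mk z y + cT (ι g) z) ∧ F (s, y, g) = 0 := fun s hs y u hu => by
    have hb := hAp _ y u (hsm s hs) hu
    obtain ⟨r1, r2⟩ := rep h3 hSw (hsm s hs) hu hb
    obtain ⟨m, m1, m2⟩ : BH (dbar u) := bh_lip (fun z => (norm_dbar_le u z).trans (hb.b1 z))
      fun z w => (norm_dbar_sub_le u u z w).trans (hb.lip z w)
    obtain ⟨g, hg, -⟩ := hm.ex m _ ⟨r1, m1, m2⟩
    rw [← hg] at r2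
    refine ⟨g, hg, r2, hm.ext _ _ (funext fun z => ?_)⟩
    rw [hF0, hm.zero, ← (del_rep hSw (hT3 g).1 y z).1, ← r2, ← congrFun r2 z,
      cut s z _ _ fun hz => by linarith [hb.out z hz], hg, hu.eq, sub_self]
  obtain ⟨g₀, hg₀, hu, hF00⟩ := hrep s₀ hs₀ y₀ u₀ hu₀
  have hB := hsm s₀ hs₀
  have hb := hAp _ y₀ u₀ hB hu₀
  have out : ∀ z, C ≤ ‖z‖ → R ≤ ‖u₀ z 0‖ := fun z hz => by linarith only [hb.out z hz]
  obtain ⟨C', hC', hR⟩ := hRr a M R
  obtain ⟨r1, r2, -, -, r5, -, -, -, -, -, r11⟩ := hR _ hB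
  have r9 := (hR _ hA).2.2.2.2.2.2.2.2.1
  have hdA : ∀ q, fderiv ℝ (s₀ • A) q = s₀ • fderiv ℝ A q := fun q =>
    fderiv_const_smul (hA.smooth.differentiable (by simp) q) s₀
  generalize hBd : s₀ • A = B at *
  -- the linearised equation
  have lin : ∀ v h (ξ : ℂ → E), ContDiff ℝ 1 ξ →
      (∀ z, (1 + B (u₀ z)) (ξ z) = mk 0 v + cT (ι h) z) → ∀ z,
      ι (fderiv ℝ F (s₀, y₀, g₀) (0, v, h)) z =
        (1 - B (u₀ z) * B (u₀ z)) (dbar ξ z - Rr B (u₀ z) (del u₀ z) (ξ z)) := by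
    intro v h ξ hξ e z
    rw [← r11 u₀ ξ z (hu₀.c1.differentiable (by simp) z) (hξ.differentiable (by simp) z)
      (hu₀.eq z), funext e, e, (del_rep0 (hT3 h).1 _ z).1, (del_rep0 (hT3 h).1 _ z).2,
      (hT3 h).2.1, hF1, ← (del_rep hSw (hT3 g₀).1 y₀ z).1, ← hu, ← congrFun hu z, zero_mul,
      zero_smul, sub_zero, smul_add, cut s₀ z _ _ (out z), hBd, hdA]
    have : (s₀ * χ z) • fderiv ℝ A (u₀ z) (mk 0 v + cT (ι h) z) (del u₀ z) =
        (s₀ • fderiv ℝ A (u₀ z)) (mk 0 v + cT (ι h) z) (del u₀ z) := by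
      rcases le_total ‖z‖ C with hz | hz
      · rw [hχ z hz, mul_one]; rfl
      · simp only [(r9 _ (out z hz)).1, smul_apply, zero_apply, smul_zero]
    rw [this]; abel
  have hP : ∀ q w, (1 + B q) (Ph B q w) = w := fun q w =>
    congrArg (fun L : Op => L w) (r1 q).1
  have far : ∀ᶠ z in cocompact ℂ, B (u₀ z) = 0 :=
    ((tendsto_norm_cocompact_atTop (E := ℂ)).eventually_ge_atTop C).mono fun z hz =>
      hB.supp _ (out z hz)
  have toLin : ∀ v h, fderiv ℝ F (s₀, y₀, g₀) (0, v, h) = 0 →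
      Lin B u₀ v fun z => Ph B (u₀ z) (mk 0 v + cT (ι h) z) := fun v h e => by
    have k1 : ContDiff ℝ 1 fun z => Ph B (u₀ z) (mk 0 v + cT (ι h) z) :=
      ((r2.of_le (by simp)).comp hu₀.c1).clm_apply (contDiff_const.add (hT3 h).1)
    refine ⟨k1, fun z => ?_, ?_⟩
    · have k2 := lin v h _ k1 (fun z => hP _ _) z
      rw [e, hm.zero] at k2
      have k3 := congrArg (fun L : Op => L (dbar (fun z => Ph B (u₀ z) (mk 0 v + cT (ι h) z)) z -
        Rr B (u₀ z) (del u₀ z) (Ph B (u₀ z) (mk 0 v + cT (ι h) z))))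
        (Ring.inverse_mul_cancel _ (r1 (u₀ z)).2.2.2.2.1)
      simp only [mul_apply_eq_comp, ← k2, map_zero] at k3
      exact (sub_eq_zero.1 k3.symm)
    · have k4 := (hT3 h).2.2.1.const_add (mk 0 v)
      rw [add_zero] at k4
      refine k4.congr' (far.mono fun z hz => ?_)
      simp only [Ph, hz, add_zero, Ring.inverse_one]; rfl
  obtain ⟨l1, l2⟩ := hLin B a M R y₀ u₀ hB hu₀ hη
  have m00 : mk 0 0 = 0 := by ext i; fin_cases i <;> simp [mk]
  have hi : ∀ h, fderiv ℝ F (s₀, y₀, g₀) (0, 0, h) = 0 → h = 0 := fun h e => by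
    have k1 : cT (ι h) = fun _ => 0 := funext fun z => by
      have := hP (u₀ z) (mk 0 0 + cT (ι h) z)
      rw [l1 _ (toLin 0 h e) z, map_zero, m00, zero_add] at this
      exact this.symm
    refine hm.ext _ _ (funext fun z => ?_)
    rw [← (hT3 h).2.1, k1, (del_const _ z).2, hm.zero]
  have hs : ∀ k, ∃ h, fderiv ℝ F (s₀, y₀, g₀) (0, 0, h) = k := fun k => by
    have lu := lip_of_fderiv (hu₀.c1.differentiable (by simp)) hb.b1
    obtain ⟨m, m1, m2⟩ : BH fun z => Ring.inverse (1 - B (u₀ z) * B (u₀ z)) (ι k z) :=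
      (bh_lip (K := C' * C) (fun z => (r1 _).2.2.2.2.2.1) fun z w => (r5 _ _).trans
        (by rw [mul_assoc]; exact mul_le_mul_of_nonneg_left (lu z w) hC'.le)).app
        ⟨_, (hm.hc k).bd, (hm.hc k).hol⟩
    obtain ⟨g', m', k1, k2⟩ := l2 (C + 1) (by positivity) (fun z hz => out z (by linarith only [hz])) _ m
      ⟨fun z hz => by rw [(hm.hc k).supp z hz, map_zero], m1, m2⟩
    obtain ⟨g, rfl, -⟩ := hm.ex _ _ k1
    obtain ⟨t1, t2, t3, t4, t5⟩ := hT3 g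
    obtain ⟨n, n1, n2⟩ := bh_dbar hB hu₀.c1 hb t1 t4 t5
    have x1 : ContDiff ℝ 1 fun w => (1 + B (u₀ w)) (cT (ι g) w) :=
      (contDiff_const.add ((hB.smooth.of_le (by simp)).comp hu₀.c1)).clm_apply t1
    have x2 : ∀ z, C + 1 ≤ ‖z‖ → dbar (fun w => (1 + B (u₀ w)) (cT (ι g) w)) z = 0 := by
      intro z hz
      have : ∀ᶠ w in 𝓝 z, C < ‖w‖ := continuous_norm.continuousAt.eventually_const_lt (by linarith)
      have e : (fun w => (1 + B (u₀ w)) (cT (ι g) w)) =ᶠ[𝓝 z] cT (ι g) :=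
        this.mono fun w hw => by simp only [hB.supp _ (out w hw.le), add_zero]; rfl
      rw [(del_congr e).2, t2, k1.supp z hz]
    have x3 : Tendsto (fun w => (1 + B (u₀ w)) (cT (ι g) w)) (cocompact ℂ) (𝓝 0) :=
      t3.congr' (far.mono fun z hz => by simp only [hz, add_zero]; rfl)
    obtain ⟨h, hh, -⟩ := hm.ex n _ ⟨x2, n1, n2⟩
    refine ⟨h, hm.ext _ _ (funext fun z => ?_)⟩
    rw [lin 0 h _ t1 (fun z => by rw [hh, m00]; exact h3 E _ 0 _ x1 x3 x2 z) z, t2, k2]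
    exact congrArg (fun L : Op => L (ι k z)) (Ring.mul_inverse_cancel _ (r1 (u₀ z)).2.2.2.2.1)
  obtain ⟨G, G', δ, hδ, hG0, hG, hG1, hG2⟩ := absIFT F hF s₀ y₀ g₀ hF00 hi hs (1 / (2 * c))
    (by positivity)
  have bsub : ∀ y y' g g' z, ‖mk z y + cT (ι g) z - (mk z y' + cT (ι g') z)‖ ≤
      ‖y - y'‖ + c * ‖g - g'‖ := fun y y' g g' z => by
    rw [add_sub_add_comm, mk_sub, ← hT0, ← hT0, ← map_sub]
    exact norm_add_le_of_le (by simpa using hmk 0 (y - y')) (hT1 z _)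
  obtain ⟨δ₁, hδ₁, hI⟩ := hInt C (min (δ / 2) ((δ / 2) ^ 2 / (4 * C))) (by positivity)
  refine ⟨min (min δ δ₁) (1 / 2), by positivity, fun s y z => mk z y + cT (ι (G (s, y))) z,
    by simp only [hG0]; exact hu.symm, fun s y e1 e2 => ?_, fun s y e1 e2 ε hε => ?_,
    fun s hs y u e1 e2 hu' e3 => ?_, _, fun v => toLin v _ (hG2 v), fun z₀ => ?_⟩
  · simp only [lt_min_iff] at e1 e2
    obtain ⟨p1, -, p3, -⟩ := hG s y e1.1.1 e2.1.1
    obtain ⟨t1, t2, t3, -⟩ := hT3 (G (s, y))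
    refine ⟨(hmk1 y).add t1, fun z => ?_, by simpa only [add_sub_cancel_left] using t3⟩
    have q1 := hF0 s y (G (s, y)) z
    rw [p1, hm.zero, cut] at q1
    · rw [(del_rep hSw t1 y z).1, (del_rep hSw t1 y z).2, t2]
      exact sub_eq_zero.1 q1.symm
    · intro hz
      have q2 := bsub y y₀ (G (s, y)) g₀ z
      rw [← congrFun hu z] at q2
      have q3 := (hSw.2.2.2.2.2.2.2.2.2.2.2.2.1 _ 0).trans q2
      have q4 := norm_sub_norm_le (u₀ z 0) ((mk z y + cT (ι (G (s, y))) z) 0)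
      rw [norm_sub_rev] at q4
      rw [lt_div_iff₀ (by positivity)] at p3
      have q5 := hb.out z hz
      rw [PiLp.sub_apply] at q3
      linarith only [e2.2, p3, q3, q4, q5]
  · simp only [lt_min_iff] at e1 e2
    obtain ⟨d, hd, hd'⟩ := Metric.continuousAt_iff.1 (hG s y e1.1.1 e2.1.1).2.1 (ε / (2 * c))
      (by positivity)
    refine ⟨min d (ε / 2), by positivity, fun s' y' f1 f2 z => (bsub _ _ _ _ z).trans ?_⟩
    simp only [lt_min_iff] at f1 f2
    have := @hd' (s', y') (by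
      rw [Prod.dist_eq, dist_eq_norm, dist_eq_norm]; exact max_lt f1.1 f2.1)
    rw [dist_eq_norm, lt_div_iff₀ (by positivity)] at this
    linarith only [f2.2, this]
  · simp only [lt_min_iff, le_min_iff] at e1 e2 e3
    obtain ⟨g, hg, r, hz⟩ := hrep s hs y u hu'
    have hb' := hAp _ y u (hsm s hs) hu'
    have q1 := fun z => (le_min_iff.1 (hI u u₀ hu'.c1 hu₀.c1 hb'.lip hb.lip
      (fun z => (e3 z).1.2) z).1)
    have q2 : ∀ z w, ‖(dbar u z - dbar u₀ z) - (dbar u w - dbar u₀ w)‖ ≤ 2 * C * ‖z - w‖ := by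
      intro z w
      rw [sub_sub_sub_comm]
      linarith only [norm_sub_le (dbar u z - dbar u w) (dbar u₀ z - dbar u₀ w), hb'.lip z w, hb.lip z w, norm_dbar_sub_le u u z w, norm_dbar_sub_le u₀ u₀ z w]
    obtain ⟨k, hk, hk'⟩ := hm.ex (δ / 2) (fun z => dbar u z - dbar u₀ z)
      ⟨fun z hz => by rw [← hg, ← hg₀, (hm.hc _).supp z hz, (hm.hc _).supp z hz, sub_self],
        fun z => (norm_dbar_sub_le u u₀ z z).trans (q1 z).1,
        hol_of_lip (fun z => (norm_dbar_sub_le u u₀ z z).trans (q1 z).2) q2 (by positivity)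
          (le_of_eq (by field_simp; norm_num))⟩
    have q3 : k = g - g₀ := hm.ext _ _ (by rw [hk, hm.sub, hg, hg₀])
    rw [(hG s y e1.1.1 e2.1.1).2.2.2 g (by rw [← q3]; linarith only [hδ, hk']) hz] at r
    exact r
  · have d1 : HasStrictFDerivAt (fun p : ℂ × ℂ => (p.1, G (s₀, p.2)))
        ((ContinuousLinearMap.fst ℝ ℂ ℂ).prod (G'.comp (ContinuousLinearMap.snd ℝ ℂ ℂ)))
        (z₀, y₀) := hasStrictFDerivAt_fst.prodMk
          (HasStrictFDerivAt.comp (f := Prod.snd) (z₀, y₀) hG1 hasStrictFDerivAt_snd)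
    have d2 := HasStrictFDerivAt.comp (f := fun p : ℂ × ℂ => (p.1, G (s₀, p.2))) (z₀, y₀)
      (strict0 T c hc hT2 (z₀, G (s₀, y₀))) d1
    have d3 := HasStrictFDerivAt.comp (f := Prod.fst) (z₀, y₀)
      ((hT3 g₀).1.contDiffAt.hasStrictFDerivAt (x := z₀) (by simp)) hasStrictFDerivAt_fst
    have d4 := ((T z₀).hasStrictFDerivAt.comp (z₀, y₀) d1.snd).sub_const (T z₀ g₀)
    have d5 := ((mkL.hasStrictFDerivAt.add d3).add d4).add d2
    refine ⟨_, d5.congr_of_eventuallyEq (Eventually.of_forall fun p => ?_), fun ζ v => ?_⟩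
    · simp only [hG0, ← hT0, Pi.add_apply, Function.comp_apply, sub_apply, map_sub]
      change mk p.1 p.2 + _ + _ + _ = _
      abel
    · have d6 : HasFDerivAt u₀ (mkL.comp (ContinuousLinearMap.inl ℝ ℂ ℂ) +
          fderiv ℝ (cT (ι g₀)) z₀) z₀ := by
        rw [hu]
        exact (HasFDerivAt.comp (f := fun z : ℂ => (z, y₀)) z₀ mkL.hasFDerivAt
          (hasFDerivAt_prodMk_left z₀ y₀)).add ((hT3 g₀).1.differentiable (by simp) z₀).hasFDerivAt
      rw [hP, d6.fderiv, ← hT0]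
      have : mkL (ζ, v) = mkL (ζ, 0) + mk 0 v := by
        change _ = _ + mkL (0, v)
        rw [← map_add, Prod.mk_add_mk, add_zero, zero_add]
      change mkL (ζ, v) + fderiv ℝ (cT (ι g₀)) z₀ ζ + T z₀ (G' v) + 0 =
        mkL (ζ, 0) + fderiv ℝ (cT (ι g₀)) z₀ ζ + _
      rw [this]; abel

end IFT'

theorem thIFT (h1 : StT1) (h2 : StT2) (h3 : StT3) (hSw : StSw) (hRr : StRr) (hAp : StAp)
    (hInt : StInt) (hLin : StLin) (hH : StH1) (hIFa : StIFa) : StIFT := by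
  intro A a M R s₀ y₀ u₀ hA hs₀ hu₀ hη
  obtain ⟨C, hC, hAp⟩ := hAp a M R
  obtain ⟨χ, F, hχ, hF, hF0, hF1⟩ := hIFa A a M R C hA hC
  exact IFT'.core h1 h2 h3 hSw hRr hInt hLin hA hs₀ hu₀ hη hC hAp (IFT'.mod_Ys hH (C + 1))
    hχ hF hF0 hF1

end
end Pool.Agent.MP_be5fd0_gt.T

namespace Pool.Agent.MP_be5fd0_gt.T

open Complex Filter Topology Set Metric MeasureTheory
open scoped ContDiff BoundedContinuousFunction

namespace Str1'

/-- A proper, open, locally injective map with one simple fibre is bijective. -/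
theorem bij_of_proper {X Y : Type} [TopologicalSpace X] [T2Space X] [TopologicalSpace Y]
    [T2Space Y] [PreconnectedSpace Y] {f : X → Y} (hp : IsProperMap f) (ho : IsOpenMap f)
    (hl : ∀ x, ∃ V ∈ 𝓝 x, InjOn f V) {x₀ : X} (h1 : ∀ x, f x = f x₀ → x = x₀) :
    Function.Bijective f := by
  have hc := hp.continuous
  constructor
  · have hT : IsClosed {p : X × X | f p.1 = f p.2 ∧ p.1 ≠ p.2} := by
      rw [← isOpen_compl_iff, isOpen_iff_mem_nhds]
      rintro ⟨x, x'⟩ hx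
      by_cases h : f x = f x'
      · have h2 : x = x' := by
          by_contra h2
          exact hx ⟨h, h2⟩
        subst h2
        obtain ⟨V, hV, hi⟩ := hl x
        exact mem_of_superset (prod_mem_nhds hV hV) fun p hp' hq => hq.2 (hi hp'.1 hp'.2 hq.1)
      · have : IsOpen {p : X × X | f p.1 ≠ f p.2} :=
          isOpen_ne_fun (hc.comp continuous_fst) (hc.comp continuous_snd)
        exact mem_of_superset (this.mem_nhds h) fun p hp' hq => hp' hq.1
    have hN : IsClopen {q : Y | ∃ x x', f x = q ∧ f x' = q ∧ x ≠ x'} := by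
      constructor
      · have h2 := ((hp.prodMap hp).isClosedMap _ hT).preimage
          (continuous_id.prodMk continuous_id : Continuous fun q : Y => (q, q))
        convert h2 using 1
        ext q
        constructor
        · rintro ⟨x, x', h3, h4, h5⟩
          exact ⟨(x, x'), ⟨h3.trans h4.symm, h5⟩, Prod.ext h3 h4⟩
        · rintro ⟨⟨x, x'⟩, ⟨-, h5⟩, h3⟩
          exact ⟨x, x', congrArg Prod.fst h3, congrArg Prod.snd h3, h5⟩
      · rw [isOpen_iff_mem_nhds]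
        rintro q ⟨x, x', h3, h4, h5⟩
        obtain ⟨V, V', hV, hV', hx, hx', hd⟩ := t2_separation h5
        refine mem_of_superset (((ho V hV).inter (ho V' hV')).mem_nhds
          ⟨⟨x, hx, h3⟩, ⟨x', hx', h4⟩⟩) ?_
        rintro q' ⟨⟨w, hw, e⟩, ⟨w', hw', e'⟩⟩
        exact ⟨w, w', e, e', fun h => disjoint_left.1 hd hw (h ▸ hw')⟩
    rcases isClopen_iff.1 hN with h | h
    · intro x x' hx
      by_contra h2
      exact (eq_empty_iff_forall_notMem.1 h (f x')) ⟨x, x', hx, rfl, h2⟩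
    · obtain ⟨x, x', h3, h4, h5⟩ := eq_univ_iff_forall.1 h (f x₀)
      exact absurd ((h1 x h3).trans (h1 x' h4).symm) h5
  · rcases isClopen_iff.1 (⟨hp.isClosedMap.isClosed_range, ho.isOpen_range⟩ :
      IsClopen (range f)) with h | h
    · exact absurd (mem_range_self x₀) (eq_empty_iff_forall_notMem.1 h _)
    · exact range_eq_univ.1 h

/-- Strictly differentiable everywhere implies continuously differentiable. -/
theorem contDiff_of_strict {X Y : Type} [NormedAddCommGroup X] [NormedSpace ℝ X]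
    [NormedAddCommGroup Y] [NormedSpace ℝ Y] {f : X → Y} {D : X → X →L[ℝ] Y}
    (h : ∀ x, HasStrictFDerivAt f (D x) x) : ContDiff ℝ 1 f := by
  have hd : Differentiable ℝ f := fun x => (h x).hasFDerivAt.differentiableAt
  refine contDiff_one_iff_fderiv.2 ⟨hd, continuous_iff_continuousAt.2 fun x => ?_⟩
  rw [ContinuousAt, Metric.tendsto_nhds]
  intro ε hε
  have h1 := (h x).sub (D x).hasStrictFDerivAt
  obtain ⟨s, hs, hl⟩ := h1.exists_lipschitzOnWith_of_nnnorm_lt ⟨ε / 2, by positivity⟩ (by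
    rw [sub_self, nnnorm_zero, ← NNReal.coe_lt_coe]
    exact half_pos hε)
  refine (eventually_mem_nhds_iff.2 hs).mono fun x' hx' => ?_
  have h2 := norm_fderiv_le_of_lipschitzOn ℝ hx' hl
  rw [((hd x').hasFDerivAt.sub (D x).hasFDerivAt).fderiv] at h2
  rw [dist_eq_norm, (h x).hasFDerivAt.fderiv]
  exact h2.trans_lt (half_lt_self hε)

/-- The determinant with a fixed first column. -/
noncomputable def dL (η : E) : E →L[ℝ] ℂ :=
  LinearMap.toContinuousLinearMap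
    { toFun := det2 η
      map_add' := fun x y => by simp [det2]; ring
      map_smul' := fun c x => by simp [det2]; ring }

theorem dL_apply (η x : E) : dL η x = det2 η x := rfl

theorem det2_add (η x : E) (ζ : ℂ) : det2 η (ζ • η + x) = det2 η x := by
  simp [det2]; ring

theorem rank_eq : Module.finrank ℝ (ℂ × ℂ) = Module.finrank ℝ E := by
  rw [← Module.finrank_mul_finrank ℝ ℂ E]
  simp

theorem mk_eta (q : E) : mk (q 0) (q 1) = q := by
  ext i; fin_cases i <;> simp [mk]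

end Str1'

open Str1' in
theorem thStr1 (hSw : StSw) (hRr : StRr) (hAp : StAp) (hTriv : StTriv) (hF : StF)
    (hIFT : StIFT) : StStr1 := by
  intro A a M R U hA2 hsol himm hcont
  have hA := hA2.1
  obtain ⟨C1, -, hR⟩ := hRr a M R
  obtain ⟨hP, -, -, -, -, -, -, -, -, hD, -⟩ := hR A hA
  obtain ⟨C2, -, hB⟩ := hAp a M R
  obtain ⟨C3, hC3, hT⟩ := hTriv.2.2 a M R
  obtain ⟨C4, -, hF⟩ := hF a M R
  have hco : ∀ (q : E) i, ‖q i‖ ≤ ‖q‖ := hSw.2.2.2.2.2.2.2.2.2.2.2.2.1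
  have hcan : ∀ q x, Ph A q ((1 + A q) x) = x := fun q x => by
    rw [← mul_apply_eq_comp, (hP q).2.1, one_apply_eq_self]
  set Φ : ℂ × ℂ → E := fun p => U p.2 p.1 with hΦ
  have key : ∀ y, ∃ ξ : ℂ → ℂ → E, (∀ v, Lin A (U y) v (ξ v)) ∧ ∀ z, ∃ D : ℂ × ℂ →L[ℝ] E,
      HasStrictFDerivAt Φ D (z, y) ∧
        ∀ ζ v, D (ζ, v) = (1 + A (U y z)) (ζ • del (U y) z + ξ v z) := by
    intro y
    obtain ⟨δ, hδ, b, -, -, -, hu, ξ, hξ, hD'⟩ := hIFT A a M R 1 y (U y) hA (by simp only [mem_Icc, zero_le_one, Std.le_refl, and_self])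
      (by rw [one_smul]; exact hsol y) (himm y)
    rw [one_smul] at hξ hD'
    refine ⟨ξ, hξ, fun z => ?_⟩
    obtain ⟨D, h1, h2⟩ := hD' z
    obtain ⟨δ', hδ', h3⟩ := hcont y δ hδ
    refine ⟨D, h1.congr_of_eventuallyEq ?_, fun ζ v => by
      rw [h2, hD (U y) z ((hsol y).eq z), map_add]⟩
    have h4 : ∀ᶠ p : ℂ × ℂ in 𝓝 (z, y), ‖p.2 - y‖ < min δ δ' :=
      (isOpen_lt (by fun_prop) continuous_const).mem_nhds (by simp only [lt_inf_iff, mem_ofPred_eq, sub_self, norm_zero, hδ, hδ', and_self])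
    refine h4.mono fun p hp => ?_
    have h5 := hu 1 (by simp only [mem_Icc, zero_le_one, Std.le_refl, and_self]) p.2 (U p.2) (by simpa using hδ) (hp.trans_le (min_le_left _ _))
      (by rw [one_smul]; exact hsol _) (h3 p.2 (hp.trans_le (min_le_right _ _)))
    simp only [hΦ]
    rw [← h5]
  choose ξ hξ D hD1 hD2 using key
  have hinj : ∀ y z, Function.Injective (D y z) := fun y z => by
    rw [injective_iff_map_eq_zero]
    rintro ⟨ζ, v⟩ h
    have h1 : ∀ ζ v, D y z (ζ, v) = 0 → ζ • del (U y) z + ξ y v z = 0 := fun ζ v h => by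
      rw [← hcan (U y z) (ζ • del (U y) z + ξ y v z), ← hD2, h, map_zero]
    have h2 := h1 ζ v h
    have h3 := ((hF A y (U y) v (ξ y v) hA (hsol y) (hξ y v)).2.1 z).2
    rw [← det2_add _ _ ζ, h2] at h3
    have h4 : v = 0 := by simpa [det2] using h3
    subst h4
    have h5 := h1 0 0 (map_zero _)
    rw [zero_smul, zero_add] at h5
    rw [h5, add_zero] at h2
    rw [(smul_eq_zero.1 h2).resolve_right (himm y z)]
    rfl
  set e : ℂ × ℂ → (ℂ × ℂ) ≃L[ℝ] E := fun p =>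
    (LinearMap.linearEquivOfInjective (D p.2 p.1 : ℂ × ℂ →ₗ[ℝ] E) (hinj p.2 p.1)
      rank_eq).toContinuousLinearEquiv with he
  have he1 : ∀ p, (e p : ℂ × ℂ →L[ℝ] E) = D p.2 p.1 := fun p => by
    refine ContinuousLinearMap.ext fun x => ?_
    rfl
  have hs : ∀ p, HasStrictFDerivAt Φ (e p : ℂ × ℂ →L[ℝ] E) p := fun p => by
    rw [he1]; exact hD1 p.2 p.1
  have hc1 : ContDiff ℝ 1 Φ := contDiff_of_strict hs
  have ho : IsOpenMap Φ := isOpenMap_of_hasStrictFDerivAt_equiv hs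
  have hp : IsProperMap Φ := by
    refine isProperMap_iff_tendsto_cocompact.2 ⟨hc1.continuous, ?_⟩
    rw [← cobounded_eq_cocompact, ← cobounded_eq_cocompact, ← tendsto_norm_atTop_iff_cobounded]
    refine tendsto_atTop_mono (f := fun p : ℂ × ℂ => ‖p‖ + -C2) (fun p => ?_)
      (tendsto_atTop_add_const_right _ _ tendsto_norm_cobounded_atTop)
    have h1 := (hB A p.2 _ hA (hsol p.2)).b0 p.1
    have h2 := norm_sub_norm_le (mk p.1 p.2) (U p.2 p.1)
    rw [norm_sub_rev] at h2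
    have h3 : ‖p‖ ≤ ‖mk p.1 p.2‖ :=
      max_le (by simpa [mk] using hco (mk p.1 p.2) 0) (by simpa [mk] using hco (mk p.1 p.2) 1)
    simp only [hΦ]
    linarith only [h1, h2, h3]
  have hn : ‖(C3 : ℂ)‖ = C3 := by simp [abs_of_pos hC3]
  have hbij : Function.Bijective Φ := by
    refine bij_of_proper hp ho (fun p => ⟨_, (HasStrictFDerivAt.toOpenPartialHomeomorph Φ
      (hs p)).open_source.mem_nhds (hs p).mem_toOpenPartialHomeomorph_source,
      (HasStrictFDerivAt.toOpenPartialHomeomorph Φ (hs p)).injOn⟩) (x₀ := (0, C3)) ?_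
    rintro ⟨z, y⟩ h
    have h1 := hT A _ _ hA2 (hsol C3) (Or.inl hn.ge)
    simp only [hΦ, h1] at h
    have h2 := hT A _ _ hA2 (hsol y) (Or.inr ⟨z, by rw [h]; simpa [mk] using hn.ge⟩)
    rw [h2] at h
    exact Prod.ext (by simpa [mk] using congrArg (fun q : E => q 0) h)
      (by simpa [mk] using congrArg (fun q : E => q 1) h)
  set H : (ℂ × ℂ) ≃ₜ E :=
    (Equiv.ofBijective Φ hbij).toHomeomorphOfContinuousOpen hc1.continuous ho with hH
  have hH1 : ContDiff ℝ 1 H.symm := H.contDiff_symm (f₀' := e) (fun p => (hs p).hasFDerivAt) hc1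
  have hH2 : ∀ y z, H.symm (U y z) = (z, y) := fun y z => H.symm_apply_apply (z, y)
  have hlb : ContDiff ℝ 1 fun q => (H.symm q).2 := contDiff_snd.comp hH1
  have hL : ∀ y z v, ((dL (del (U y) z)).comp ((Ph A (U y z)).comp ((D y z).comp
      (ContinuousLinearMap.inr ℝ ℂ ℂ)))) v = det2 (del (U y) z) (ξ y v z) := fun y z v => by
    simp only [ContinuousLinearMap.comp_apply, ContinuousLinearMap.inr_apply, hD2, hcan, dL_apply,
      det2_add]
  refine ⟨fun q => (H.symm q).2, fun y z => (dL (del (U y) z)).comp ((Ph A (U y z)).comp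
    ((D y z).comp (ContinuousLinearMap.inr ℝ ℂ ℂ))), hsol, himm, fun y z y' z' h => ?_,
    fun q => ?_, fun y z => congrArg Prod.snd (hH2 y z), hlb, ⟨fun q => (H.symm q).1, contDiff_fst.comp hH1,
      fun y z => congrArg Prod.fst (hH2 y z)⟩, fun y v => ⟨ξ y v, hξ y v, fun z => hL y z v⟩, fun y z n => ?_⟩
  · have := hbij.1 (a₁ := (z, y)) (a₂ := (z', y')) h
    exact ⟨congrArg Prod.snd this, congrArg Prod.fst this⟩
  · obtain ⟨p, hp⟩ := hbij.2 q
    exact ⟨p.2, p.1, hp⟩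
  · obtain ⟨⟨ζ, v⟩, h1⟩ := (e (z, y)).surjective ((1 + A (U y z)) n)
    have h2 : D y z (ζ, v) = (1 + A (U y z)) n := h1
    have h3 : ζ • del (U y) z + ξ y v z = n := by
      rw [← hcan (U y z) n, ← h2, hD2, hcan]
    have h4 := ((hlb.differentiable (by norm_num) (Φ (z, y))).hasFDerivAt.comp (z, y)
      (hD1 y z).hasFDerivAt).fderiv
    have h5 : (fun q => (H.symm q).2) ∘ Φ = Prod.snd := funext fun p => by
      simp only [Function.comp, hΦ, hH2]
    rw [h5, fderiv_snd] at h4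
    have h6 : fderiv ℝ (fun q => (H.symm q).2) (U y z) (D y z (ζ, v)) = v :=
      (congrArg (fun T : ℂ × ℂ →L[ℝ] ℂ => T (ζ, v)) h4).symm
    rw [← h2, h6, hL, ← h3, det2_add]

end Pool.Agent.MP_be5fd0_gt.T

/-! Bounds for the transversal linear map and for the label map of a foliation. -/

namespace Pool.Agent.MP_be5fd0_gt.T

open Complex Filter Topology Set Metric MeasureTheory
open scoped ContDiff BoundedContinuousFunction

noncomputable section

namespace L'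

theorem det_eq (L : ℂ →L[ℝ] ℂ) : L.det = (L 1).re * (L I).im - (L 1).im * (L I).re := by
  rw [ContinuousLinearMap.det, ← LinearMap.det_toMatrix Complex.basisOneI, Matrix.det_fin_two]
  simp only [Fin.isValue, LinearMap.toMatrix_apply, coe_basisOneI, Nat.succ_eq_add_one, Nat.reduceAdd, Matrix.cons_val_zero, ContinuousLinearMap.coe_coe, coe_basisOneI_repr, Matrix.cons_val_one, Matrix.cons_val_fin_one, sub_right_inj]
  ring

theorem apply_eq (L : ℂ →L[ℝ] ℂ) (x y : ℝ) : L ⟨x, y⟩ = x • L 1 + y • L I := by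
  have h : (⟨x, y⟩ : ℂ) = x • (1 : ℂ) + y • I := by
    apply Complex.ext <;> simp
  rw [h, map_add, map_smul, map_smul]

theorem det_low (L : ℂ →L[ℝ] ℂ) (C : ℝ) (hC : 0 < C) (h : ∀ v, ‖v‖ ≤ C * ‖L v‖) :
    (C ^ 2)⁻¹ ≤ |L.det| := by
  have key : ∀ v : ℂ, normSq v ≤ C ^ 2 * normSq (L v) := fun v => by
    rw [normSq_eq_norm_sq, normSq_eq_norm_sq, ← mul_pow]
    exact pow_le_pow_left₀ (norm_nonneg _) (h v) 2
  have h1 := key 1
  have h2 := key ⟨-((L 1).re * (L I).re + (L 1).im * (L I).im), normSq (L 1)⟩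
  rw [apply_eq L (-((L 1).re * (L I).re + (L 1).im * (L I).im))] at h2
  rw [det_eq]
  simp only [normSq_apply, add_re, add_im, smul_re, smul_im, smul_eq_mul, one_re, one_im,
    mul_one, mul_zero, add_zero] at h1 h2
  generalize (L 1).re = a at *
  generalize (L 1).im = b at *
  generalize (L I).re = c at *
  generalize (L I).im = d at *
  have hC2 : 0 < C ^ 2 := by positivity
  have hN : 0 < a * a + b * b := by
    by_contra hn
    have : C ^ 2 * (a * a + b * b) ≤ 0 := mul_nonpos_of_nonneg_of_nonpos hC2.le (not_lt.1 hn)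
    linarith
  have h3 : (a * a + b * b) * (a * a + b * b) ≤
      (a * a + b * b) * (C ^ 2 * (a * d - b * c) ^ 2) := by
    linarith only [mul_self_nonneg (a * c + b * d), h2]
  have h4 := le_of_mul_le_mul_left h3 hN
  have h5 : 1 ≤ (C ^ 2 * |a * d - b * c|) ^ 2 := by
    rw [mul_pow, sq_abs]
    linarith only [mul_le_mul_of_nonneg_left h4 hC2.le, h1]
  have h6 : 1 ≤ C ^ 2 * |a * d - b * c| := by
    by_contra hn
    have h7 : 0 ≤ C ^ 2 * |a * d - b * c| := by positivity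
    nlinarith only [h5, hn, h7]
  rw [inv_le_iff_one_le_mul₀' hC2]
  exact h6

theorem det_up (L : ℂ →L[ℝ] ℂ) (C : ℝ) (h : ∀ v, ‖L v‖ ≤ C * ‖v‖) : L.det ≤ C ^ 2 := by
  have h1 := pow_le_pow_left₀ (norm_nonneg _) (h 1) 2
  have h2 := pow_le_pow_left₀ (norm_nonneg _) (h I) 2
  rw [← normSq_eq_norm_sq] at h1 h2
  simp only [normSq_apply, norm_one, norm_I, mul_one] at h1 h2
  rw [det_eq]
  linarith only [mul_self_nonneg ((L 1).re - (L I).im), mul_self_nonneg ((L 1).im + (L I).re), h1, h2]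

theorem det_pos (L : ℂ → ℂ →L[ℝ] ℂ) (hc : Continuous L) (hne : ∀ z, (L z).det ≠ 0)
    (h : ∀ v, Tendsto (fun z => L z v) (cocompact ℂ) (𝓝 v)) (z : ℂ) : 0 < (L z).det := by
  have hcd : Continuous fun z => (L z).det := ContinuousLinearMap.continuous_det.comp hc
  have ht : Tendsto (fun z => (L z).det) (cocompact ℂ) (𝓝 1) := by
    simp only [det_eq]
    have h1 := (continuous_re.tendsto _).comp (h 1)
    have h2 := (continuous_im.tendsto _).comp (h 1)
    have h3 := (continuous_re.tendsto _).comp (h I)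
    have h4 := (continuous_im.tendsto _).comp (h I)
    simpa only [Function.comp_apply, one_re, I_im, mul_one, one_im, I_re, mul_zero, sub_zero] using (h1.mul h4).sub (h2.mul h3)
  obtain ⟨w, hw⟩ := (ht.eventually (lt_mem_nhds one_pos)).exists
  by_contra hn
  obtain ⟨x, hx⟩ := intermediate_value_univ z w hcd ⟨not_lt.1 hn, hw.le⟩
  exact hne x hx

theorem det_comp (L D : ℂ →L[ℝ] ℂ) (l : ℂ) (h : ∀ ζ, L (D ζ) = l * ζ) :
    L.det * D.det = ‖l‖ ^ 2 := by
  have h1 : L.det * D.det = (L.comp D).det := by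
    rw [ContinuousLinearMap.det, ContinuousLinearMap.det, ← LinearMap.det_comp]
    rfl
  rw [h1, det_eq, ← normSq_eq_norm_sq, normSq_apply]
  simp only [ContinuousLinearMap.comp_apply, h, mul_one, mul_im, I_im, I_re, mul_zero, add_zero, mul_re, zero_sub, mul_neg, sub_neg_eq_add]

end L'

open L' in
theorem thL (hSw : StSw) (hRr : StRr) (hAp : StAp) (hF : StF) : StL := by
  intro a M R
  obtain ⟨CR, hCR, hR⟩ := hRr a M R
  obtain ⟨CA, hCA, hA⟩ := hAp a M R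
  obtain ⟨CF, hCF, hF⟩ := hF a M R
  obtain ⟨-, -, -, -, -, -, -, -, -, -, -, -, hco, hdet, -⟩ := hSw
  have p2 : 0 < CF ^ 2 := by positivity
  have p4 : 0 < CF ^ 4 := by positivity
  have p3 : 0 < CF * CA * CR := by positivity
  refine ⟨CF + CF ^ 2 + CF ^ 4 + CF * CA * CR + CA, by positivity, ?_⟩
  generalize hC : CF + CF ^ 2 + CF ^ 4 + CF * CA * CR + CA = C
  have c1 : CF ≤ C := by linarith
  have c2 : CF ^ 2 ≤ C := by linarith
  have c4 : CF ^ 4 ≤ C := by linarith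
  have c3 : CF * CA * CR ≤ C := by linarith
  have c5 : CA ≤ C := by linarith
  intro A U lb L hA' hS
  obtain ⟨hPh, -, -, -, -, -, -, -, -, hfd, -⟩ := hR A hA'
  have i1 : ∀ y z v, ‖L y z v‖ ≤ CF * ‖v‖ ∧ ‖v‖ ≤ CF * ‖L y z v‖ := fun y z v => by
    obtain ⟨ξ, hξ, e⟩ := hS.lin y v
    rw [e]
    exact (hF A y (U y) v ξ hA' (hS.sol y) hξ).2.1 z
  have i3 : ∀ y z w, ‖L y z - L y w‖ ≤ CF * √‖z - w‖ := fun y z w => by
    refine ContinuousLinearMap.opNorm_le_bound _ (by positivity) fun v => ?_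
    obtain ⟨ξ, hξ, e⟩ := hS.lin y v
    rw [sub_apply, e, e]
    exact ((hF A y (U y) v ξ hA' (hS.sol y) hξ).2.2.1 z w).trans (le_of_eq (by ring))
  have i2 : ∀ y z, (CF ^ 2)⁻¹ ≤ (L y z).det := fun y z => by
    have hl : ∀ z, (CF ^ 2)⁻¹ ≤ |(L y z).det| := fun z =>
      det_low _ _ hCF fun v => (i1 y z v).2
    have hp : 0 < (L y z).det := by
      refine det_pos (L y) ?_ (fun z h0 => ?_) (fun v => ?_) z
      · refine continuous_iff_continuousAt.2 fun w => ?_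
        rw [ContinuousAt, tendsto_iff_norm_sub_tendsto_zero]
        refine squeeze_zero (fun _ => norm_nonneg _) (fun x => i3 y x w) ?_
        have : Continuous fun x : ℂ => CF * √‖x - w‖ := by fun_prop
        simpa using this.tendsto w
      · have := hl z
        rw [h0, abs_zero] at this
        exact absurd (inv_pos.2 p2) (not_lt.2 this)
      · obtain ⟨ξ, hξ, e⟩ := hS.lin y v
        simp only [e]
        exact (hF A y (U y) v ξ hA' (hS.sol y) hξ).1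
    have := hl z
    rwa [abs_of_pos hp] at this
  have hd : Differentiable ℝ lb := hS.c1.differentiable one_ne_zero
  refine ⟨fun y z v => ⟨(i1 y z v).1.trans (by gcongr), (i1 y z v).2.trans (by gcongr)⟩,
    fun y z => (inv_anti₀ p2 c2).trans (i2 y z), fun y z w => (i3 y z w).trans (by gcongr),
    fun y y' ε h z => ?_, fun q q' => ?_, fun q => ?_, fun w z hw he y z' hU => ?_⟩
  · have hε : 0 ≤ ε := (norm_nonneg _).trans (h 0).1
    refine ContinuousLinearMap.opNorm_le_bound _ (mul_nonneg (hCF.le.trans c1) hε) fun v => ?_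
    obtain ⟨ξ, hξ, e⟩ := hS.lin y v
    obtain ⟨ξ', hξ', e'⟩ := hS.lin y' v
    rw [sub_apply, e, e']
    exact ((hF A y (U y) v ξ hA' (hS.sol y) hξ).2.2.2 y' (U y') ξ' ε (hS.sol y') hξ' h z).trans
      (by gcongr)
  · refine Convex.norm_image_sub_le_of_norm_fderiv_le (𝕜 := ℝ) (s := univ) (fun x _ => hd x)
      (fun x _ => ?_) convex_univ (mem_univ _) (mem_univ _)
    obtain ⟨y, z, rfl⟩ := hS.surj x
    refine ContinuousLinearMap.opNorm_le_bound _ (p3.le.trans c3) fun m => ?_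
    have e1 : (1 + A (U y z)) (Ph A (U y z) m) = m := by
      rw [← mul_apply_eq_comp, (hPh _).1, one_apply_eq_self]
    have e2 := hS.der y z (Ph A (U y z) m)
    rw [e1] at e2
    have b1 := (hA A y (U y) hA' (hS.sol y)).bη z
    have b2 : ‖Ph A (U y z) m‖ ≤ CR * ‖m‖ :=
      (ContinuousLinearMap.le_opNorm _ _).trans (by gcongr; exact (hPh _).2.2.1)
    calc _ ≤ CF * ‖L y z (fderiv ℝ lb (U y z) m)‖ := (i1 y z _).2
      _ ≤ CF * (‖del (U y) z‖ * ‖Ph A (U y z) m‖) := by rw [e2]; gcongr; exact hdet _ _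
      _ ≤ CF * (CA * (CR * ‖m‖)) := by gcongr
      _ = CF * CA * CR * ‖m‖ := by ring
      _ ≤ C * ‖m‖ := by gcongr
  · obtain ⟨y, z, rfl⟩ := hS.surj q
    rw [hS.lab, norm_sub_rev]
    have b1 := (hco _ 1).trans ((hA A y (U y) hA' (hS.sol y)).b0 z)
    have e : (U y z - mk z y) 1 = U y z 1 - y := by simp [mk]
    rw [e] at b1
    exact b1.trans c5
  · have e0 : ∀ ζ, L y z' (fderiv ℝ (fun t => lb (w t)) z ζ) =
        det2 (del (U y) z') (del w z) * ζ := fun ζ => by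
      have e1 : fderiv ℝ (fun t => lb (w t)) z = (fderiv ℝ lb (w z)).comp (fderiv ℝ w z) :=
        fderiv_comp z (hd _) hw
      rw [e1, ContinuousLinearMap.comp_apply, hfd w z he ζ, ← hU, hS.der]
      simp only [det2, PiLp.smul_apply, smul_eq_mul]
      ring
    have e1 := det_comp _ _ _ e0
    have hp : 0 < (L y z').det := (inv_pos.2 p2).trans_le (i2 y z')
    have hu : (L y z').det ≤ CF ^ 2 := det_up _ _ fun v => (i1 y z' v).1
    have hj : 0 ≤ jac (fun t => lb (w t)) z :=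
      (mul_nonneg_iff_of_pos_left hp).1 (by rw [jac, e1]; positivity)
    refine ⟨e0, hj, ?_, fun hne => ?_⟩
    · have b : ‖fderiv ℝ (fun t => lb (w t)) z‖ ≤ CF * ‖det2 (del (U y) z') (del w z)‖ := by
        refine ContinuousLinearMap.opNorm_le_bound _ (by positivity) fun ζ => ?_
        refine (i1 y z' _).2.trans (le_of_eq ?_)
        rw [e0, norm_mul, mul_assoc]
      calc _ ≤ (CF * ‖det2 (del (U y) z') (del w z)‖) ^ 2 := by gcongr
        _ = CF ^ 2 * ((L y z').det * jac (fun t => lb (w t)) z) := by rw [mul_pow, ← e1, jac]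
        _ ≤ CF ^ 2 * (CF ^ 2 * jac (fun t => lb (w t)) z) := by gcongr
        _ = CF ^ 4 * jac (fun t => lb (w t)) z := by ring
        _ ≤ C * jac (fun t => lb (w t)) z := by gcongr
    · refine (mul_pos_iff_of_pos_left hp).1 ?_
      rw [jac, e1]
      exact pow_pos (norm_pos_iff.2 hne) 2

end

end Pool.Agent.MP_be5fd0_gt.T

namespace Pool.Agent.MP_be5fd0_gt.T

open Complex Filter Topology Set Metric MeasureTheory
open scoped ContDiff BoundedContinuousFunction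

namespace Str2'

theorem tendsto_of_bdd {τ : ℂ → ℂ} {C : ℝ} (h : ∀ z, ‖τ z - z‖ ≤ C) :
    Tendsto τ (cocompact ℂ) (cocompact ℂ) := by
  rw [← cobounded_eq_cocompact, ← tendsto_norm_atTop_iff_cobounded]
  refine tendsto_atTop_mono (f := fun z : ℂ => ‖z‖ + -C) (fun z => ?_)
    (tendsto_atTop_add_const_right _ _ tendsto_norm_cobounded_atTop)
  have h1 := norm_sub_norm_le z (τ z)
  rw [norm_sub_rev] at h1
  linarith [h z]

theorem mk_zero (a b : ℂ) : mk a b 0 = a := by simp [mk]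

end Str2'

open Str2' in
theorem thStr2 (hT3 : StT3) (hQ1 : StQ1) (hSw : StSw) (hRr : StRr) (hAp : StAp) (hL : StL) :
    StStr2 := by
  intro A a M R U lb L hA hS
  refine ⟨hS, fun y u hu => ?_⟩
  obtain ⟨C, hC, hL⟩ := hL a M R
  obtain ⟨-, -, -, -, hlip, -, hw⟩ := hL A U lb L hA hS
  obtain ⟨C', -, hB⟩ := hAp a M R
  obtain ⟨C'', -, hR⟩ := hRr a M R
  obtain ⟨hP, -, -, -, -, -, -, -, -, hD, -⟩ := hR A hA
  have hco : ∀ (q : E) i, ‖q i‖ ≤ ‖q‖ := hSw.2.2.2.2.2.2.2.2.2.2.2.2.1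
  have hU := hS.sol y
  have du : ∀ z, DifferentiableAt ℝ u z := fun z => hu.c1.differentiable (by norm_num) z
  have dU : ∀ z, DifferentiableAt ℝ (U y) z := fun z => hU.c1.differentiable (by norm_num) z
  have h1 : Tendsto (fun z => lb (u z)) (cocompact ℂ) (𝓝 y) := by
    rw [tendsto_iff_norm_sub_tendsto_zero]
    have h2 := ((hu.asy.sub hU.asy).norm.const_mul C)
    simp only [sub_zero, norm_zero, mul_zero, sub_sub_sub_cancel_right] at h2
    refine squeeze_zero (fun _ => norm_nonneg _) (fun z => ?_) h2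
    have := hlip (u z) (U y z)
    rwa [hS.lab] at this
  have h2 : ∀ z, 0 ≤ jac (fun t => lb (u t)) z ∧ QC C (fun t => lb (u t)) z := fun z => by
    obtain ⟨y', z', h⟩ := hS.surj (u z)
    obtain ⟨-, h3, h4, -⟩ := hw u z (du z) (hu.eq z) y' z' h
    exact ⟨h3, h4⟩
  have h3 := hQ1.2.2 (fun t => lb (u t)) y C (hS.c1.comp hu.c1) h1 hC.le (fun z => (h2 z).1)
    fun z => (h2 z).2
  obtain ⟨Z, hZ, hZU⟩ := hS.par
  set τ : ℂ → ℂ := fun z => Z (u z) with hτ
  have hτ1 : ContDiff ℝ 1 τ := hZ.comp hu.c1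
  have dτ : ∀ z, DifferentiableAt ℝ τ z := fun z => hτ1.differentiable (by norm_num) z
  have h4 : ∀ z, u z = U y (τ z) := fun z => by
    obtain ⟨y', z', h⟩ := hS.surj (u z)
    have h5 : y' = y := by rw [← h3 z, ← h, hS.lab]
    have h6 : τ z = z' := by simp only [hτ]; rw [← h, hZU]
    rw [h6, ← h5, h]
  have h5 : ∀ z ζ, ζ • del u z = fderiv ℝ τ z ζ • del (U y) (τ z) := fun z ζ => by
    have e1 : fderiv ℝ u z = (fderiv ℝ (U y) (τ z)).comp (fderiv ℝ τ z) := by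
      rw [← fderiv_comp z (dU _) (dτ z)]
      congr 1
      exact funext h4
    have e2 : (1 + A (u z)) (ζ • del u z) = (1 + A (u z)) (fderiv ℝ τ z ζ • del (U y) (τ z)) := by
      rw [← hD u z (hu.eq z), e1, ContinuousLinearMap.comp_apply, hD (U y) (τ z) (hU.eq _), ← h4]
    have e3 := congrArg (Ph A (u z)) e2
    rwa [← mul_apply_eq_comp, ← mul_apply_eq_comp, (hP _).2.1,
      one_apply_eq_self, one_apply_eq_self] at e3
  have h6 : ∀ z, dbar τ z = 0 := fun z => by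
    have e1 := h5 z 1
    have e2 := h5 z I
    rw [one_smul] at e1
    rw [e1, smul_smul] at e2
    have e3 := smul_left_injective ℂ (hS.imm y (τ z)) e2
    simp only [dbar, ← e3, smul_eq_mul]
    linear_combination (1 / 2 * fderiv ℝ τ z 1) * I_sq
  have h7 : ∀ z, τ z - z = ((u z - mk z y) - (U y (τ z) - mk (τ z) y)) 0 := fun z => by
    rw [← h4]
    simp [mk_zero]
  have h8 : Tendsto τ (cocompact ℂ) (cocompact ℂ) := tendsto_of_bdd (C := C' + C') fun z => by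
    rw [h7]
    exact (hco _ _).trans ((norm_sub_le _ _).trans
      (add_le_add ((hB A y u hA hu).b0 _) ((hB A y _ hA hU).b0 _)))
  have h9 : Tendsto (fun z => τ z - z) (cocompact ℂ) (𝓝 0) := by
    have h := (hu.asy.sub (hU.asy.comp h8)).norm
    simp only [sub_zero, norm_zero] at h
    refine squeeze_zero_norm (fun z => ?_) h
    rw [h7]
    exact hco _ _
  have h10 : dbar (fun z => τ z - z) = fun _ => 0 := funext fun z => by
    rw [(del_sub (v := fun w => w) (dτ z) differentiableAt_id).2, h6, (del_id z).2, sub_zero]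
  have h11 := hT3 ℂ (fun z => τ z - z) 0 0 (hτ1.sub contDiff_id) h9 fun z _ => by rw [h10]
  funext z
  have h12 := h11 z
  rw [h10, cT_zero, add_zero, sub_eq_zero] at h12
  rw [h4, h12]

end Pool.Agent.MP_be5fd0_gt.T
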