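import Pool.Agent.MP_be5fd0_gt.H27.Defs

attribute [-instance] LeftPreLieAlgebra.toModule RightPreLieAlgebra.toModule
  Action.FintypeCat.instMulActionObjFiniteOf TotallySeparatedSpace.t2Space
  NonarchimedeanAddGroup.toIsTopologicalAddGroup IdemSemiring.toCanonicallyOrderedAdd
  RKHS.instFunLike AddQuantale.instAddLeftMono Finite.instDiscreteTopology
  ProperSMul.toContinuousSMul Valued.toUniformSpace NumberField.to_charZero
  IsModuleTopology.toContinuousSMul MulSemiringAction.toDistribMulAction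
  LieRinehartAlgebra.toIsScalarTower littleWedderburn instCoeHTCTOfCoeTailOfCoeHTC
  SemilinearIsometryClass.toSemilinearMapClass CommRing.toCommSemiring
  ESeminormedAddCommMonoid.toAddCommMonoid IsOrderedMonoid.toMulLeftMono
  NonUnitalAlgSemiHomClass.toDistribMulActionSemiHomClass CoalgHomClass.toSemilinearMapClass
  IsIsometricSMul.to_continuousConstSMul IsTopologicalTorsor.toContinuousSMul
  MulZeroOneClass.toMulZeroClass Quantale.instMulLeftMono IdemSemiring.toMulLeftMono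
  RingHomClass.toLinearMapClassRat LinearOrderedCommMonoidWithZero.toPosMulStrictMono
  NonUnitalNormedRing.toNormedAddCommGroup NonAssocSemiring.toNonUnitalNonAssocSemiring
  ContinuousMonoidHom.instCoeOutOfMonoidHomClassOfContinuousMapClass
  NonUnitalNormedRing.toNonUnitalRing continuousSub_of_discreteTopology
  IsValuativeTopology.instIsTopologicalAddGroup BoundedContinuousMapClass.toContinuousMapClass
  AddCommGroupWithOne.toAddGroupWithOne NonUnitalSemiring.toNonUnitalNonAssocSemiring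
  AddQuantale.instAddRightMono AlexandrovDiscrete.toFirstCountable
  IsTopologicalSemiring.toContinuousAdd NonUnitalNormedCommRing.toNonUnitalCommRing
  IdemSemiring.toSemiring LieAdmissibleRing.toNonUnitalNonAssocRing Fintype.decidableExistsFintype
  instCoeHTCOfCoeHeadOfCoeOTC FiniteDimensional.rclike_to_real
  NonUnitalNonAssocCommSemiring.toNonUnitalNonAssocSemiring continuousSub_of_indiscreteTopology
  NormedCommRing.toCommRing Quantale.instMulRightMono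
  MulSemiringActionSemiHomClass.toDistribMulActionSemiHomClass
  NonUnitalSeminormedCommRing.toNonUnitalCommRing MonTypeEquivalenceMon.monMonoid Bialgebra.toAlgebra
  CStarAlgebra.instOrderClosedTopology CStarAlgebra.toNormedAlgebra
  NonarchimedeanRing.toIsTopologicalRing AddCommMonoidWithOne.toAddCommMonoid Action.instMulAction
  GrpTypeEquivalenceGrp.grpGroup NonAssocCommRing.toNonUnitalNonAssocCommRing BooleanRing.toRing

/-! Continuity method for pairs of foliations. -/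

namespace Pool.Agent.MP_be5fd0_gt.T

open Complex Filter Topology Set Metric MeasureTheory
open scoped ContDiff BoundedContinuousFunction

noncomputable section

namespace M1'

theorem swap (hSw : StSw) {A U lb L W lb' L'} (h : Two A U lb L W lb' L') :
    Two (swF A) W lb' L' U lb L := by
  obtain ⟨-, hss, -, -, -, hFF, -⟩ := hSw
  refine ⟨h.snd, by rw [hFF]; exact h.fst, fun x z' y z e => ?_⟩
  have h1 := h.trans y z x z' (by rw [e, hss])
  have h2 : det2 (del (W x) z') (sw (del (U y) z)) = det2 (del (U y) z) (sw (del (W x) z')) := by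
    simp only [det2, sw, mk, PiLp.toLp_apply, Matrix.cons_val_zero, Matrix.cons_val_one]
    ring
  rwa [h2]

theorem sw_one (q : E) : sw q 1 = q 0 := by simp [sw, mk]

theorem sw_sub (q q' : E) : sw q - sw q' = sw (q - q') := by
  ext i; fin_cases i <;> simp [sw, mk]

theorem lip_of_bd {R C : ℝ} {y : ℂ} {u : ℂ → E} (hu : ContDiff ℝ 1 u) (h : Bd R C y u) (z w : ℂ) :
    ‖u z - u w‖ ≤ C * ‖z - w‖ :=
  convex_univ.norm_image_sub_le_of_norm_fderiv_le
    (fun x _ => hu.differentiable one_ne_zero x) (fun x _ => h.b1 x) (mem_univ w) (mem_univ z)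

end M1'

open M1'

theorem thM1 (hQ1 : StQ1) (hQ2 : StQ2) (hSw : StSw) (hAp : StAp) (hTriv : StTriv) (hL : StL) :
    StM1 := by
  refine ⟨fun A U lb L W lb' L' h => swap hSw h, fun a M R => ?_⟩
  obtain ⟨CA, hCA, HA⟩ := hAp a M R
  obtain ⟨CT, hCT, HT⟩ := hTriv.2.2 a M R
  obtain ⟨CL, hCL, HL⟩ := hL a M R
  have hp : 0 < CL * CA := mul_pos hCL hCA
  have main : ∀ A U lb L W lb' L', Fld2 A a M R → Two A U lb L W lb' L' → ∀ y,
      ContDiff ℝ 1 (fun z => lb' (sw (U y z))) ∧ Function.Bijective (fun z => lb' (sw (U y z))) ∧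
      (∀ z, ‖lb' (sw (U y z)) - z‖ ≤ CL + CA + CT + CL * CA) ∧
      (∀ z, 0 < jac (fun z => lb' (sw (U y z))) z) ∧
      (∀ z, QC (CL + CA + CT + CL * CA) (fun z => lb' (sw (U y z))) z) ∧
      (∀ z z', ‖lb' (sw (U y z)) - lb' (sw (U y z'))‖ ≤ (CL + CA + CT + CL * CA) * ‖z - z'‖) ∧
      ∀ z, CL + CA + CT + CL * CA ≤ ‖z‖ → lb' (sw (U y z)) = U y z 0 := by
    intro A U lb L W lb' L' hF h y
    have hs := swap hSw h
    obtain ⟨hL1, hss, hn, -, -, hFF, -, -, -, hd, hsol, -, hco, -, -⟩ := hSw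
    have hU := h.fst.sol y
    have hB := HA A y (U y) hF.1 hU
    obtain ⟨-, -, -, -, hlip, hcl, hj⟩ := HL (swF A) W lb' L' hF.2 h.snd.toStr0
    have hw : ContDiff ℝ 1 fun t => sw (U y t) := by
      simp only [← hL1]
      exact swL.contDiff.comp hU.c1
    have hg : ContDiff ℝ 1 fun z => lb' (sw (U y z)) := h.snd.c1.comp hw
    have hjz : ∀ z, 0 < jac (fun z => lb' (sw (U y z))) z ∧
        QC CL (fun z => lb' (sw (U y z))) z := by
      intro z
      obtain ⟨x, z', e⟩ := h.snd.surj (sw (U y z))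
      obtain ⟨-, -, h3, h4⟩ := hj (fun t => sw (U y t)) z (hw.differentiable one_ne_zero z)
        (hsol (swF A) y (U y) (by rw [hFF]; exact hU) z) x z' e
      refine ⟨h4 ?_, h3⟩
      rw [(hd (U y) z).1]
      exact hs.trans x z' y z e
    have h0 : ∀ z, ‖U y z 0 - z‖ ≤ CA := by
      intro z
      have h1 := (hco (U y z - mk z y) 0).trans (hB.b0 z)
      simpa only [Fin.isValue, ge_iff_le, mk, PiLp.sub_apply, Matrix.cons_val_zero] using h1
    have hb : ∀ z, ‖lb' (sw (U y z)) - z‖ ≤ CL + CA + CT + CL * CA := by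
      intro z
      have h1 := hcl (sw (U y z))
      rw [sw_one] at h1
      have h2 := norm_sub_le_norm_sub_add_norm_sub (lb' (sw (U y z))) (U y z 0) z
      linarith [h0 z]
    refine ⟨hg, hQ1.1 _ _ hg hb fun z => (hjz z).1, hb, fun z => (hjz z).1, fun z => ?_,
      fun z z' => ?_, fun z hz => ?_⟩
    · refine le_trans (hjz z).2 (mul_le_mul_of_nonneg_right (by linarith) (hjz z).1.le)
    · have h1 := hlip (sw (U y z)) (sw (U y z'))
      rw [sw_sub, hn] at h1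
      have h2 := mul_le_mul_of_nonneg_left (lip_of_bd hU.c1 hB z z') hCL.le
      have h3 : CL * CA * ‖z - z'‖ ≤ (CL + CA + CT + CL * CA) * ‖z - z'‖ :=
        mul_le_mul_of_nonneg_right (by linarith) (norm_nonneg _)
      linarith
    · obtain ⟨x, z', e⟩ := h.snd.surj (sw (U y z))
      have h1 : W x z' 1 = U y z 0 := by rw [e, sw_one]
      have h2 : CT ≤ ‖W x z' 1‖ := by
        have h3 := norm_sub_norm_le z (U y z 0)
        rw [norm_sub_rev] at h3
        rw [h1]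
        linarith [h0 z]
      have h4 := HT (swF A) x (W x) ⟨hF.2, by rw [hFF]; exact hF.1⟩ (h.snd.sol x) (Or.inr ⟨z', h2⟩)
      rw [← e, h.snd.lab, ← h1, h4]
      simp [mk]
  refine ⟨CL + CA + CT + CL * CA, by linarith, main, fun r hr => ?_⟩
  obtain ⟨m, hm, H⟩ := hQ2 (CL + CA + CT + CL * CA) (CL + CA + CT + CL * CA) r (by linarith) hr
  refine ⟨m, hm, fun A U lb L W lb' L' hF h y => ?_⟩
  obtain ⟨h1, h2, h3, -, h5, -⟩ := main A U lb L W lb' L' hF h y
  exact H _ h1 h2 h3 h5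

theorem thM3 (hInt : StInt) (hSw : StSw) (hAp : StAp) (hL : StL) (hM1 : StM1) (hM2 : StM2) :
    StM3 := by
  intro a M R ε hε
  obtain ⟨CA, hCA, HA⟩ := hAp a M R
  obtain ⟨C, hC, HL⟩ := hL a M R
  obtain ⟨-, -, -, H1⟩ := hM1.2 a M R
  have he : 0 < ε / (2 * C) := by positivity
  obtain ⟨m, hm, Hm⟩ := H1 ((ε / (2 * C)) ^ 2) (by positivity)
  obtain ⟨d1, hd1, Hd1⟩ := hInt CA (ε / (2 * C)) he
  have hq : 0 < m / (4 * C) := by positivity
  obtain ⟨d2, hd2, Hd2⟩ := hM2 a M R (min (min d1 (ε / (2 * C))) (m / (4 * C)))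
    (lt_min (lt_min hd1 he) hq)
  refine ⟨min (d2 / C) (m / (4 * C)), lt_min (by positivity) hq,
    fun A U lb L W lb' L' hF h y z y' z' hδ => ?_⟩
  obtain ⟨-, -, hn, -⟩ := hSw
  obtain ⟨-, -, h3, h4, h5, -⟩ := HL A U lb L hF.1 h.fst.toStr0
  obtain ⟨-, -, -, -, h5', -⟩ := HL (swF A) W lb' L' hF.2 h.snd.toStr0
  have hy : ‖y - y'‖ ≤ d2 := by
    have h6 := h5 (U y z) (U y' z')
    rw [h.fst.lab, h.fst.lab] at h6
    have h7 := mul_le_mul_of_nonneg_left (hδ.trans (min_le_left _ _)) hC.le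
    rw [mul_div_cancel₀ _ hC.ne'] at h7
    linarith only [h6, h7]
  have hU := Hd2 A U lb L W lb' L' hF h y y' hy
  have hB := HA A y (U y) hF.1 (h.fst.sol y)
  have hB' := HA A y' (U y') hF.1 (h.fst.sol y')
  have hI := Hd1 (U y) (U y') (h.fst.sol y).c1 (h.fst.sol y').c1 hB.lip hB'.lip
    fun t => (hU t).trans ((min_le_left _ _).trans (min_le_left _ _))
  have e1 := h4 y y' (ε / (2 * C))
    (fun t => ⟨(hU t).trans ((min_le_left _ _).trans (min_le_right _ _)), (hI t).2⟩) z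
  have hz : ‖z - z'‖ ≤ (ε / (2 * C)) ^ 2 := by
    by_contra hc
    have h6 := Hm A U lb L W lb' L' hF h y' z z' (not_le.1 hc).le
    have h7 := h5' (sw (U y' z)) (sw (U y' z'))
    rw [sw_sub, hn] at h7
    have h8 := norm_sub_le_norm_sub_add_norm_sub (U y' z) (U y z) (U y' z')
    rw [norm_sub_rev (U y' z) (U y z)] at h8
    have h9 := (hU z).trans (min_le_right _ _)
    have h10 := hδ.trans (min_le_right _ _)
    have h11 : C * ‖U y' z - U y' z'‖ ≤ C * (2 * (m / (4 * C))) :=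
      mul_le_mul_of_nonneg_left (by linarith only [h8, h9, h10]) hC.le
    have h12 : C * (2 * (m / (4 * C))) = m / 2 := by field_simp; ring
    linarith only [hm, h6, h7, h11, h12]
  have e2 := h3 y' z z'
  have e3 : √‖z - z'‖ ≤ ε / (2 * C) := Real.sqrt_le_iff.2 ⟨he.le, hz⟩
  have e4 := mul_le_mul_of_nonneg_left e3 hC.le
  have e5 : C * (ε / (2 * C)) = ε / 2 := by field_simp
  have e6 := norm_sub_le_norm_sub_add_norm_sub (L y z) (L y' z) (L y' z')
  linarith only [e1, e2, e4, e5, e6]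

end

end Pool.Agent.MP_be5fd0_gt.T

namespace Pool.Agent.MP_be5fd0_gt.T

open Complex Filter Topology Set Metric MeasureTheory
open scoped ContDiff BoundedContinuousFunction

noncomputable section

namespace M2'

theorem inv_c1 {g : ℂ → ℂ} (hg : ContDiff ℝ 1 g) (hb : Function.Bijective g)
    (hj : ∀ z, 0 < jac g z) : ∃ k : ℂ → ℂ, ContDiff ℝ 1 k ∧ ∀ w, g (k w) = w := by
  let D : ℂ → ℂ ≃L[ℝ] ℂ := fun z =>
    (fderiv ℝ g z).toContinuousLinearEquivOfDetNeZero (hj z).ne'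
  have hD : ∀ z, HasStrictFDerivAt g (D z : ℂ →L[ℝ] ℂ) z := fun z => by
    rw [ContinuousLinearMap.coe_toContinuousLinearEquivOfDetNeZero]
    exact hg.contDiffAt.hasStrictFDerivAt one_ne_zero
  let e : ℂ ≃ₜ ℂ := (Equiv.ofBijective g hb).toHomeomorphOfContinuousOpen hg.continuous
    (isOpenMap_of_hasStrictFDerivAt_equiv hD)
  exact ⟨e.symm, e.contDiff_symm (f₀' := D) (fun z => (hD z).hasFDerivAt) hg,
    fun w => e.apply_symm_apply w⟩

theorem alg {τ : ℂ → ℂ} {z l l' : ℂ} {κ : ℝ} (hl : l' ≠ 0) (hκ0 : 0 ≤ κ) (hκ : κ ≤ 1 / 2)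
    (h : ∀ v, ‖l' * fderiv ℝ τ z v - l * v‖ ≤ κ * ‖l‖ * ‖v‖) :
    ‖dbar τ z‖ ≤ 2 * κ * ‖del τ z‖ := by
  have h1 := h 1
  have h2 := h I
  rw [norm_one, mul_one] at h1
  rw [Complex.norm_I, mul_one] at h2
  obtain ⟨a, ha⟩ : ∃ a, a = l' * fderiv ℝ τ z 1 - l * 1 := ⟨_, rfl⟩
  obtain ⟨b, hb⟩ : ∃ b, b = l' * fderiv ℝ τ z I - l * I := ⟨_, rfl⟩
  rw [mul_one] at ha
  rw [← ha] at h1
  rw [← hb] at h2
  have e1 : 2 * (l' * dbar τ z) = a + I * b := by
    rw [ha, hb, dbar, smul_eq_mul, smul_eq_mul]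
    linear_combination l * I_sq
  have e2 : 2 * l = 2 * (l' * del τ z) - (a - I * b) := by
    rw [ha, hb, del, smul_eq_mul, smul_eq_mul]
    linear_combination l * I_sq
  have n1 : 2 * (‖l'‖ * ‖dbar τ z‖) ≤ ‖a‖ + ‖b‖ := by
    have := norm_add_le a (I * b)
    rw [← e1, norm_mul, norm_mul, norm_mul, Complex.norm_I, one_mul, Complex.norm_ofNat] at this
    exact this
  have n2 : 2 * ‖l‖ ≤ 2 * (‖l'‖ * ‖del τ z‖) + (‖a‖ + ‖b‖) := by
    have t1 := norm_sub_le (2 * (l' * del τ z)) (a - I * b)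
    have t2 := norm_sub_le a (I * b)
    rw [← e2, norm_mul, norm_mul, norm_mul, Complex.norm_ofNat] at t1
    rw [norm_mul, Complex.norm_I, one_mul] at t2
    linarith only [t1, t2]
  have hl' : 0 < ‖l'‖ := norm_pos_iff.2 hl
  have n3 : κ * ‖l‖ ≤ 1 / 2 * ‖l‖ := mul_le_mul_of_nonneg_right hκ (norm_nonneg _)
  have n4 : ‖l‖ ≤ 2 * (‖l'‖ * ‖del τ z‖) := by linarith only [h1, h2, n2, n3]
  have n5 : κ * ‖l‖ ≤ κ * (2 * (‖l'‖ * ‖del τ z‖)) := mul_le_mul_of_nonneg_left n4 hκ0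
  refine le_of_mul_le_mul_left ?_ hl'
  calc ‖l'‖ * ‖dbar τ z‖ ≤ κ * ‖l‖ := by linarith only [h1, h2, n1]
    _ ≤ _ := n5
    _ = _ := by ring

theorem lip {u : ℂ → E} {C : ℝ} (hu : ContDiff ℝ 1 u) (h : ∀ z, ‖fderiv ℝ u z‖ ≤ C) (z w : ℂ) :
    ‖u z - u w‖ ≤ C * ‖z - w‖ :=
  convex_univ.norm_image_sub_le_of_norm_fderiv_le
    (fun x _ => (hu.differentiable one_ne_zero) x) (fun x _ => h x) (mem_univ w) (mem_univ z)

theorem hol {g : ℂ → ℂ} {u : ℂ → E} {C : ℝ} {z : ℂ} (hu : ContDiff ℝ 1 u)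
    (hg : ∀ t, C ≤ ‖t‖ → g t = u t 0) (hz : C < ‖z‖) (h0 : dbar u z = 0) :
    dbar g z = 0 ∧ ∀ v, fderiv ℝ g z v = del g z * v := by
  have e : g =ᶠ[𝓝 z] fun t => (EuclideanSpace.proj (0 : Fin 2) : E →L[ℂ] ℂ) (u t) := by
    filter_upwards [(isOpen_lt continuous_const continuous_norm).mem_nhds hz] with t ht
    exact hg t (le_of_lt ht)
  have h1 : dbar g z = 0 := by
    rw [(del_congr e).2, (del_clm _ (hu.differentiable one_ne_zero z)).2, h0, map_zero]
  refine ⟨h1, fun v => ?_⟩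
  rw [fderiv_eq_del, h1, smul_zero, add_zero, smul_eq_mul, mul_comm]

theorem asy0 {u : ℂ → E} {y : ℂ} (h : Tendsto (fun z => u z - mk z y) (cocompact ℂ) (𝓝 0)) :
    Tendsto (fun z => u z 0 - z) (cocompact ℂ) (𝓝 0) := by
  have := ((EuclideanSpace.proj (0 : Fin 2) : E →L[ℂ] ℂ).continuous.tendsto 0).comp h
  rw [map_zero] at this
  refine this.congr fun z => ?_
  simp [mk]

end M2'

open M2' in
theorem thM2 (hN2 : StN2) (hQ4 : StQ4) (hSw : StSw) (hAp : StAp) (hL : StL) (hM1 : StM1) :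
    StM2 := by
  intro a M R ε hε
  obtain ⟨C₁, hC₁, hA⟩ := hAp a M R
  obtain ⟨C₂, hC₂, hL2⟩ := hL a M R
  obtain ⟨C₃, hC₃, hg, hm⟩ := hM1.2 a M R
  obtain ⟨hswL, hss, hns, -, -, hFF, -, -, -, hdsw, hsol, -⟩ := hSw
  have hε' : 0 < ε / (6 * C₁) := by positivity
  obtain ⟨m₁, hm₁, hmm₁⟩ := hm _ hε'
  obtain ⟨δ₄, hδ₄, hq⟩ := hQ4 (C₁ + 3 * C₃ + 1) (ε / (6 * C₁)) (m₁ / (2 * C₃)) (by positivity) hε'
    (by positivity)
  obtain ⟨κ, hκ0, hκ1, hκ2⟩ : ∃ κ : ℝ, 0 < κ ∧ κ ≤ 1 / 2 ∧ 2 * κ ≤ δ₄ :=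
    ⟨min (1 / 2) (δ₄ / 2), by positivity, min_le_left _ _, by
      have := min_le_right (1 / 2) (δ₄ / 2); linarith⟩
  obtain ⟨r, hr0, hr1, hr2⟩ : ∃ r : ℝ, 0 < r ∧ r ≤ (κ / C₂ ^ 2) ^ 2 ∧ r ≤ ε / (2 * C₁) :=
    ⟨min _ _, by positivity, min_le_left _ _, min_le_right _ _⟩
  obtain ⟨m₂, hm₂, hmm₂⟩ := hm r hr0
  refine ⟨m₂ / 2, by positivity, fun A U lb L W lb' L' hF hT y y' hy => ?_⟩
  have hF' : Fld2 (swF A) a M R := ⟨hF.2, by rw [hFF]; exact hF.1⟩
  have hT' := hM1.1 _ _ _ _ _ _ _ hT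
  obtain ⟨g1, gb, gC, gj, -, gl, go⟩ := hg A U lb L W lb' L' hF hT y
  obtain ⟨g1', gb', gC', gj', -, -, go'⟩ := hg A U lb L W lb' L' hF hT y'
  obtain ⟨k, hk1, hk⟩ := inv_c1 g1' gb' gj'
  obtain ⟨τ, hτ⟩ : ∃ τ : ℂ → ℂ, τ = fun z => k (lb' (sw (U y z))) := ⟨_, rfl⟩
  have hτ1 : ContDiff ℝ 1 τ := hτ ▸ hk1.comp g1
  have hτe : ∀ z, lb' (sw (U y' (τ z))) = lb' (sw (U y z)) := fun z => by rw [hτ]; exact hk _
  have hch : ∀ z v, fderiv ℝ (fun z => lb' (sw (U y' z))) (τ z) (fderiv ℝ τ z v) =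
      fderiv ℝ (fun z => lb' (sw (U y z))) z v := fun z v => by
    have e : (fun z => lb' (sw (U y z))) = (fun z => lb' (sw (U y' z))) ∘ τ :=
      funext fun z => (hτe z).symm
    rw [e, fderiv_comp z (g1'.differentiable one_ne_zero _) (hτ1.differentiable one_ne_zero _)]
    rfl
  have bU := fun y => hA A y (U y) hF.1 (hT.fst.sol y)
  have bW := fun x => hA (swF A) x (W x) hF.2 (hT.snd.sol x)
  have hd : ∀ z, ‖τ z - z‖ ≤ 2 * C₃ := fun z => by
    have t1 := gC z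
    have t2 := gC' (τ z)
    rw [hτe, norm_sub_rev] at t2
    have := norm_add_le (τ z - lb' (sw (U y z))) (lb' (sw (U y z)) - z)
    rw [sub_add_sub_cancel] at this
    linarith only [t1, t2, this]
  have hlow : ∀ z, ‖z‖ - 2 * C₃ ≤ ‖τ z‖ := fun z => by
    have := norm_sub_norm_le z (τ z)
    rw [norm_sub_rev] at this
    linarith only [hd z, this]
  -- the common leaf
  have leaf : ∀ z, ∃ x ζ ζ', W x ζ = sw (U y z) ∧ W x ζ' = sw (U y' (τ z)) ∧ ‖ζ - ζ'‖ ≤ r := by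
    intro z
    obtain ⟨x, ζ, h1⟩ := hT.snd.surj (sw (U y z))
    obtain ⟨x', ζ', h2⟩ := hT.snd.surj (sw (U y' (τ z)))
    have hx : x' = x := by
      rw [← hT.snd.lab x' ζ', ← hT.snd.lab x ζ, h1, h2, hτe]
    subst hx
    refine ⟨x', ζ, ζ', h1, h2, ?_⟩
    by_contra hc
    have := hmm₂ _ _ _ _ _ _ _ hF' hT' x' ζ ζ' (le_of_lt (not_le.1 hc))
    rw [h1, h2, hss, hss, hT.fst.lab, hT.fst.lab] at this
    linarith only [hm₂, hy, this]
  obtain ⟨l1, -, l3, -, -, -, l7⟩ := hL2 (swF A) W lb' L' hF.2 hT.snd.toStr0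
  have dsw : ∀ y z, DifferentiableAt ℝ (fun t => sw (U y t)) z := fun y z => by
    have := swL.differentiableAt.comp z ((hT.fst.sol y).c1.differentiable one_ne_zero z)
    refine this.congr_of_eventuallyEq (Eventually.of_forall fun t => ?_)
    exact (hswL _).symm
  have esw : ∀ y z, dbar (fun t => sw (U y t)) z =
      swF A (sw (U y z)) (del (fun t => sw (U y t)) z) := fun y z =>
    hsol (swF A) y (U y) (by rw [hFF]; exact hT.fst.sol y) z
  have hqc : ∀ z, ‖dbar τ z‖ ≤ δ₄ * ‖del τ z‖ := by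
    intro z
    obtain ⟨x, ζ, ζ', h1, h2, h3⟩ := leaf z
    have d1 := (l7 _ z (dsw y z) (esw y z) x ζ h1).1
    have d2 := (l7 _ (τ z) (dsw y' (τ z)) (esw y' (τ z)) x ζ' h2).1
    have hne := hT'.trans x ζ' y' (τ z) h2
    rw [← (hdsw (U y') (τ z)).1] at hne
    refine (alg (l := det2 (del (W x) ζ) (del (fun t => sw (U y t)) z)) hne hκ0.le hκ1
      fun v => ?_).trans (mul_le_mul_of_nonneg_right hκ2 (norm_nonneg _))
    rw [← d2, hch, ← d1, ← sub_apply]
    have t1 := (l1 x ζ (fderiv ℝ (fun z => lb' (sw (U y z))) z v)).2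
    rw [d1, norm_mul] at t1
    have t2 : ‖L' x ζ' - L' x ζ‖ ≤ C₂ * (κ / C₂ ^ 2) := by
      refine (l3 x ζ' ζ).trans (mul_le_mul_of_nonneg_left ?_ hC₂.le)
      rw [norm_sub_rev]
      exact Real.sqrt_le_iff.2 ⟨by positivity, h3.trans hr1⟩
    refine (ContinuousLinearMap.le_opNorm _ _).trans ?_
    refine (mul_le_mul t2 t1 (norm_nonneg _) (by positivity)).trans (le_of_eq ?_)
    field_simp
  have d0 : ∀ y z, C₁ ≤ ‖z‖ → dbar (U y) z = 0 := fun y z hz => by
    rw [(hT.fst.sol y).eq, hF.1.supp _ (by linarith only [(bU y).out z hz, hκ0, hκ1])]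
    rfl
  have hhol : ∀ z, C₁ + 3 * C₃ + 1 ≤ ‖z‖ → dbar τ z = 0 := by
    intro z hz
    have hz' := hlow z
    obtain ⟨-, a2⟩ := hol (hT.fst.sol y).c1 go (z := z) (by linarith only [hC₁, hC₃, hκ0, hκ1, hz]) (d0 y z (by linarith only [hC₃, hκ0, hκ1, hz]))
    obtain ⟨b1, b2⟩ := hol (hT.fst.sol y').c1 go' (z := τ z) (by linarith only [hC₁, hκ0, hκ1, hz, hz'])
      (d0 y' (τ z) (by linarith only [hC₃, hκ0, hκ1, hz, hz']))
    have hne : del (fun z => lb' (sw (U y' z))) (τ z) ≠ 0 := by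
      intro h
      have := gj' (τ z)
      rw [(hN2.1 _ _).1, h, b1] at this
      simp at this
    have := alg (τ := τ) (z := z) (l := del (fun z => lb' (sw (U y z))) z) (κ := 0) hne le_rfl
      (by norm_num) fun v => by rw [← b2, hch, a2]; simp
    simpa using this
  have hcc : Tendsto τ (cocompact ℂ) (cocompact ℂ) := by
    refine tendsto_cocompact_of_tendsto_dist_comp_atTop 0 ?_
    refine tendsto_atTop_mono (f := fun z : ℂ => dist z 0 + -(2 * C₃)) (fun z => ?_)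
      (tendsto_atTop_add_const_right _ _ (tendsto_dist_right_cocompact_atTop 0))
    rw [dist_zero_right, dist_zero_right]
    linarith only [hlow z]
  have hasy : Tendsto (fun z => τ z - z) (cocompact ℂ) (𝓝 0) := by
    have t := (asy0 (hT.fst.sol y).asy).sub ((asy0 (hT.fst.sol y').asy).comp hcc)
    rw [sub_zero] at t
    refine t.congr' ?_
    filter_upwards [(tendsto_dist_right_cocompact_atTop (0 : ℂ)).eventually_ge_atTop (3 * C₃)]
      with z hz
    rw [dist_zero_right] at hz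
    have e := hτe z
    rw [go z (by linarith only [hC₃, hz]), go' (τ z) (by linarith only [hlow z, hz])] at e
    simp only [Function.comp_apply, e]
    ring
  have heq : ∀ z z', ‖z - z'‖ ≤ m₁ / (2 * C₃) → ‖τ z - τ z'‖ ≤ ε / (6 * C₁) := by
    intro z z' hz
    by_contra hc
    have t1 := hmm₁ _ _ _ _ _ _ _ hF hT y' (τ z) (τ z') (le_of_lt (not_le.1 hc))
    rw [hτe, hτe] at t1
    have t2 := (gl z z').trans (mul_le_mul_of_nonneg_left hz hC₃.le)
    have t3 : C₃ * (m₁ / (2 * C₃)) = m₁ / 2 := by field_simp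
    linarith only [hm₁, t1, t2, t3]
  have hcl := hq τ hτ1 hasy hhol hqc heq
  intro z
  obtain ⟨x, ζ, ζ', h1, h2, h3⟩ := leaf z
  have t1 : ‖U y z - U y' (τ z)‖ ≤ ε / 2 := by
    have e : U y z - U y' (τ z) = sw (W x ζ - W x ζ') := by
      rw [← hswL, map_sub, hswL, hswL, h1, h2, hss, hss]
    rw [e, hns]
    refine (lip (hT.snd.sol x).c1 (bW x).b1 ζ ζ').trans ?_
    refine (mul_le_mul_of_nonneg_left (h3.trans hr2) hC₁.le).trans (le_of_eq ?_)
    field_simp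
  have t2 : ‖U y' (τ z) - U y' z‖ ≤ ε / 2 := by
    refine (lip (hT.fst.sol y').c1 (bU y').b1 _ _).trans ?_
    refine (mul_le_mul_of_nonneg_left (hcl z) hC₁.le).trans (le_of_eq ?_)
    field_simp
    ring
  have := norm_add_le (U y z - U y' (τ z)) (U y' (τ z) - U y' z)
  rw [sub_add_sub_cancel] at this
  linarith only [t1, t2, this]

end

end Pool.Agent.MP_be5fd0_gt.T

namespace Pool.Agent.MP_be5fd0_gt.T

open Complex Filter Topology Set Metric MeasureTheory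
open scoped ContDiff BoundedContinuousFunction

noncomputable section

namespace M4'

theorem det_eq (T : ℂ →L[ℝ] ℂ) : T.det = ((starRingEnd ℂ) (T 1) * T I).im := by
  rw [ContinuousLinearMap.det, ← LinearMap.det_toMatrix Complex.basisOneI, Matrix.det_fin_two]
  simp only [Fin.isValue, LinearMap.toMatrix_apply, coe_basisOneI, Nat.succ_eq_add_one, Nat.reduceAdd, Matrix.cons_val_zero, ContinuousLinearMap.coe_coe, coe_basisOneI_repr, Matrix.cons_val_one, Matrix.cons_val_fin_one, mul_im, conj_re, conj_im, neg_mul]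
  ring

theorem qc_of_near (T : ℂ →L[ℝ] ℂ) (μ : ℂ) (h : ∀ ζ, ‖T ζ - μ * ζ‖ ≤ ‖μ‖ / 20 * ‖ζ‖) :
    ‖T‖ ^ 2 ≤ 3 / 2 * T.det := by
  have hn := norm_nonneg μ
  have h1 : ‖T‖ ≤ 21 / 20 * ‖μ‖ := by
    refine ContinuousLinearMap.opNorm_le_bound _ (by positivity) fun ζ => ?_
    have h2 := h ζ
    have h3 := norm_add_le (T ζ - μ * ζ) (μ * ζ)
    rw [sub_add_cancel, norm_mul] at h3
    linarith
  obtain ⟨e1, he1⟩ : ∃ e, e = T 1 - μ * 1 := ⟨_, rfl⟩
  obtain ⟨e2, he2⟩ : ∃ e, e = T I - μ * I := ⟨_, rfl⟩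
  have b1 : ‖e1‖ ≤ ‖μ‖ / 20 := by simpa only [he1, mul_one, norm_one] using h 1
  have b2 : ‖e2‖ ≤ ‖μ‖ / 20 := by simpa only [he2, norm_I, mul_one] using h I
  have f1 : T 1 = μ + e1 := by rw [he1]; ring
  have f2 : T I = μ * I + e2 := by rw [he2]; ring
  have hd : T.det = ‖μ‖ ^ 2 + ((starRingEnd ℂ) μ * e2).im + ((starRingEnd ℂ) e1 * (μ * I)).im +
      ((starRingEnd ℂ) e1 * e2).im := by
    rw [det_eq, f1, f2, ← Complex.normSq_eq_norm_sq, Complex.normSq_apply]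
    simp only [map_add, mul_im, add_re, conj_re, add_im, I_im, mul_one, I_re, mul_zero, add_zero, conj_im, mul_re, zero_sub, neg_mul, mul_neg, neg_neg]
    ring
  have g1 : |((starRingEnd ℂ) μ * e2).im| ≤ ‖μ‖ * (‖μ‖ / 20) := by
    refine (abs_im_le_norm _).trans ?_
    rw [norm_mul, Complex.norm_conj]; gcongr
  have g2 : |((starRingEnd ℂ) e1 * (μ * I)).im| ≤ ‖μ‖ / 20 * ‖μ‖ := by
    refine (abs_im_le_norm _).trans ?_
    rw [norm_mul, norm_mul, Complex.norm_conj, norm_I, mul_one]; gcongr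
  have g3 : |((starRingEnd ℂ) e1 * e2).im| ≤ ‖μ‖ / 20 * (‖μ‖ / 20) := by
    refine (abs_im_le_norm _).trans ?_
    rw [norm_mul, Complex.norm_conj]; gcongr
  have g4 : ‖T‖ ^ 2 ≤ (21 / 20 * ‖μ‖) ^ 2 := by gcongr
  rw [hd]
  have := (abs_le.1 g1).1
  have := (abs_le.1 g2).1
  have := (abs_le.1 g3).1
  nlinarith [sq_nonneg ‖μ‖]

theorem split (p σ : E) (hp : p ≠ 0) (h : ‖σ‖ ≤ ‖p‖) (hd : ‖det2 p σ‖ ≤ ‖p‖ * ‖σ‖) :
    ∃ k : ℂ, ‖k‖ ≤ 1 ∧ ‖σ - k • p‖ ^ 2 ≤ ‖det2 p σ‖ := by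
  have hp0 : 0 < ‖p‖ := norm_pos_iff.2 hp
  have hN : ‖p‖ ^ 2 = ‖p 0‖ ^ 2 + ‖p 1‖ ^ 2 := by
    rw [EuclideanSpace.norm_sq_eq, Fin.sum_univ_two]
  have hN' : ((‖p‖ : ℂ)) ^ 2 = (starRingEnd ℂ) (p 0) * p 0 + (starRingEnd ℂ) (p 1) * p 1 := by
    rw [Complex.conj_mul', Complex.conj_mul']
    exact_mod_cast hN
  have hc : ((‖p‖ : ℂ)) ^ 2 ≠ 0 := by
    have : (‖p‖ : ℂ) ≠ 0 := by exact_mod_cast hp0.ne'
    positivity
  have hi : inner ℂ p σ = (starRingEnd ℂ) (p 0) * σ 0 + (starRingEnd ℂ) (p 1) * σ 1 := by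
    simp only [PiLp.inner_apply, RCLike.inner_apply, Fin.sum_univ_two, Fin.isValue, mul_comm]
  refine ⟨inner ℂ p σ / (‖p‖ : ℂ) ^ 2, ?_, ?_⟩
  · rw [norm_div, norm_pow, Complex.norm_real, norm_norm, div_le_one (by positivity)]
    refine (norm_inner_le_norm p σ).trans ?_
    rw [sq]; gcongr
  · have e0 : (σ - (inner ℂ p σ / (‖p‖ : ℂ) ^ 2) • p) 0 =
        -((starRingEnd ℂ) (p 1) * det2 p σ) / (‖p‖ : ℂ) ^ 2 := by
      simp only [PiLp.sub_apply, PiLp.smul_apply, smul_eq_mul, hi, det2]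
      rw [eq_div_iff hc, sub_mul, div_mul_eq_mul_div, div_mul_cancel₀ _ hc, hN']; ring
    have e1 : (σ - (inner ℂ p σ / (‖p‖ : ℂ) ^ 2) • p) 1 =
        ((starRingEnd ℂ) (p 0) * det2 p σ) / (‖p‖ : ℂ) ^ 2 := by
      simp only [PiLp.sub_apply, PiLp.smul_apply, smul_eq_mul, hi, det2]
      rw [eq_div_iff hc, sub_mul, div_mul_eq_mul_div, div_mul_cancel₀ _ hc, hN']; ring
    rw [EuclideanSpace.norm_sq_eq, Fin.sum_univ_two, e0, e1]
    simp only [norm_div, norm_neg, norm_mul, Complex.norm_conj, norm_pow, Complex.norm_real,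
      norm_norm]
    have hD : ‖det2 p σ‖ ≤ ‖p‖ ^ 2 := hd.trans (by rw [sq]; gcongr)
    have hD0 := norm_nonneg (det2 p σ)
    have e : (‖p 1‖ * ‖det2 p σ‖ / ‖p‖ ^ 2) ^ 2 + (‖p 0‖ * ‖det2 p σ‖ / ‖p‖ ^ 2) ^ 2 =
        ‖det2 p σ‖ * (‖det2 p σ‖ / ‖p‖ ^ 2) := by
      field_simp
      rw [hN]; ring
    rw [e]
    have : ‖det2 p σ‖ / ‖p‖ ^ 2 ≤ 1 := (div_le_one (by positivity)).2 hD
    exact mul_le_of_le_one_right hD0 this

theorem taylor (u : ℂ → E) (C : ℝ) (hC : 0 ≤ C) (hu : Differentiable ℝ u)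
    (hl : ∀ z w, ‖fderiv ℝ u z - fderiv ℝ u w‖ ≤ C * ‖z - w‖) (z h : ℂ) :
    ‖u (z + h) - u z - fderiv ℝ u z h‖ ≤ C * ‖h‖ * ‖h‖ := by
  have := (convex_closedBall z ‖h‖).norm_image_sub_le_of_norm_fderiv_le' (𝕜 := ℝ) (f := u)
    (C := C * ‖h‖) (φ := fderiv ℝ u z) (x := z) (y := z + h) (fun w _ => hu w)
    (fun w hw => (hl w z).trans (by
      have : ‖w - z‖ ≤ ‖h‖ := by simpa only [mem_closedBall, dist_eq_norm] using hw
      gcongr))
    (mem_closedBall_self (norm_nonneg h)) (by simp [dist_eq_norm])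
  simpa only [ge_iff_le, add_sub_cancel_left] using this

theorem lip (u : ℂ → E) (C : ℝ) (hu : Differentiable ℝ u) (hl : ∀ z, ‖fderiv ℝ u z‖ ≤ C)
    (z w : ℂ) : ‖u z - u w‖ ≤ C * ‖z - w‖ :=
  convex_univ.norm_image_sub_le_of_norm_fderiv_le (𝕜 := ℝ) (fun w _ => hu w) (fun w _ => hl w)
    (mem_univ _) (mem_univ _)

theorem numer {m B r s τ : ℝ} (P : ℝ) (hm : 0 < m) (hP : 0 < P) (hr : 0 < r) (hs : 0 ≤ s)
    (hB : 0 < B) (hτ : 0 < τ) (hτ1 : 4 * P * B * r ^ 2 * τ ≤ m)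
    (h : Real.log (m / (P * (2 * (r * τ ^ 2) * s + 2 * B * (r * τ ^ 2) ^ 2))) ≤
      3 / 2 * Real.log (r / (r * τ ^ 2))) : m * τ / (4 * P * r) ≤ s := by
  have hM : 0 < P * (2 * (r * τ ^ 2) * s + 2 * B * (r * τ ^ 2) ^ 2) := by positivity
  have e : 3 / 2 * Real.log (r / (r * τ ^ 2)) = Real.log (τ⁻¹ ^ 3) := by
    have : r / (r * τ ^ 2) = τ⁻¹ ^ 2 := by field_simp
    rw [this, Real.log_pow, Real.log_pow]; push_cast; ring
  rw [e, Real.log_le_log_iff (by positivity) (by positivity), div_le_iff₀ hM] at h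
  have e2 : τ⁻¹ ^ 3 * (P * (2 * (r * τ ^ 2) * s + 2 * B * (r * τ ^ 2) ^ 2)) =
      2 * P * r * s / τ + 2 * P * B * r ^ 2 * τ := by field_simp
  rw [e2] at h
  have h2 : m / 2 ≤ 2 * P * r * s / τ := by linarith only [hτ1, h]
  rw [le_div_iff₀ hτ] at h2
  rw [div_le_iff₀ (by positivity)]
  linarith only [h2]

end M4'

open M4' in
theorem thM4 (hQ3 : StQ3) (hSw : StSw) (hRr : StRr) (hAp : StAp) (hL : StL) (hM1 : StM1)
    (hM3 : StM3) : StM4 := by
  intro a M R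
  obtain ⟨hswL, hss, hsn, -, -, hFF, -, -, -, hsd, hseq, -, -, hdet, -⟩ := hSw
  obtain ⟨CR, -, hR⟩ := hRr a M R
  obtain ⟨B, hB, hA⟩ := hAp a M R
  obtain ⟨C, hC, hLL⟩ := hL a M R
  obtain ⟨hswap, hM⟩ := hM1
  obtain ⟨C1, -, hg, hm⟩ := hM a M R
  obtain ⟨δ, hδ, h3⟩ := hM3 a M R (1 / (20 * C)) (by positivity)
  obtain ⟨r, hr⟩ : ∃ r, r = δ / B := ⟨_, rfl⟩
  have hr0 : 0 < r := by rw [hr]; positivity
  obtain ⟨m, hm0, hm⟩ := hm r hr0
  obtain ⟨τ, hτ⟩ : ∃ τ, τ = min (1 / 2) (m / C / (4 * C ^ 2 * B * r ^ 2)) := ⟨_, rfl⟩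
  have hτ0 : 0 < τ := by rw [hτ]; positivity
  have hτ1 : τ ≤ 1 / 2 := hτ ▸ min_le_left _ _
  have hτ2 : 4 * C ^ 2 * B * r ^ 2 * τ ≤ m / C := by
    have : τ ≤ m / C / (4 * C ^ 2 * B * r ^ 2) := hτ ▸ min_le_right _ _
    rw [le_div_iff₀ (by positivity)] at this
    linarith only [this]
  have hsub : ∀ p q : E, sw p - sw q = sw (p - q) := fun p q => by
    rw [← hswL, ← hswL, ← hswL, map_sub]
  have main : ∀ A U lb L W lb' L', Fld2 A a M R → Two A U lb L W lb' L' → ∀ y z x z',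
      U y z = sw (W x z') → ‖del (U y) z‖ ≤ ‖del (W x) z'‖ →
      (m / C * τ / (4 * C ^ 2 * r)) ^ 2 ≤ ‖det2 (del (W x) z') (sw (del (U y) z))‖ := by
    intro A U lb L W lb' L' hF hT y z₀ x z₀' h0 hle
    have hF' : Fld2 (swF A) a M R := ⟨hF.2, by rw [hFF]; exact hF.1⟩
    have hT' := hswap _ _ _ _ _ _ _ hT
    have sU := hT.fst.sol y
    have sW := hT.snd.sol x
    have bU := hA A y _ hF.1 sU
    have bW := hA _ x _ hF.2 sW
    have dU : Differentiable ℝ (U y) := sU.c1.differentiable (by simp)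
    have dW : Differentiable ℝ (W x) := sW.c1.differentiable (by simp)
    have hw : (fun t => sw (U y t)) = fun t => swL (U y t) := funext fun t => (hswL _).symm
    have fw : ∀ z, HasFDerivAt (fun t => sw (U y t)) (swL.comp (fderiv ℝ (U y) z)) z := fun z => by
      rw [hw]; exact swL.hasFDerivAt.comp z (dU z).hasFDerivAt
    have ew := hseq (swF A) y (U y) (by rw [hFF]; exact sU)
    have h0' : W x z₀' = sw (U y z₀) := by rw [h0, hss]
    obtain ⟨l1, -, -, -, l5, -, l7⟩ := hLL _ W lb' L' hF.2 hT.snd.toStr0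
    obtain ⟨g1, g2, -⟩ := hg A U lb L W lb' L' hF hT y
    obtain ⟨k, hk, he⟩ := split (del (W x) z₀') (sw (del (U y) z₀)) (hT.snd.imm x z₀')
      (by rwa [hsn]) (hdet _ _)
    refine le_trans ?_ he
    obtain ⟨s, hs⟩ : ∃ s, s = ‖sw (del (U y) z₀) - k • del (W x) z₀'‖ := ⟨_, rfl⟩
    rw [← hs]
    have hs0 : 0 ≤ s := hs ▸ norm_nonneg _
    refine pow_le_pow_left₀ (by positivity) ?_ 2
    refine numer (C ^ 2) (by positivity) (by positivity) hr0 hs0 hB hτ0 hτ2 ?_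
    refine hQ3 (fun z => L' x z₀' (lb' (sw (U y z)))) z₀ (3 / 2) r (r * τ ^ 2) _ _
      ((L' x z₀').contDiff.comp g1) ?_ (by norm_num) (by positivity) ?_ (by positivity)
      (by positivity) ?_ ?_ ?_
    · intro z z' hz
      apply g2.1
      have h1 := (l1 x z₀' (lb' (sw (U y z)) - lb' (sw (U y z')))).2
      simp only at hz
      rw [map_sub, hz, sub_self, norm_zero, mul_zero] at h1
      exact sub_eq_zero.1 (norm_le_zero_iff.1 h1)
    · have : τ ^ 2 < 1 := by nlinarith only [hτ0, hτ1]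
      exact mul_lt_of_lt_one_right hr0 this
    · intro z hz
      obtain ⟨x1, z1, h1⟩ := hT.snd.surj (sw (U y z))
      have k1 := (l7 (fun t => sw (U y t)) z (fw z).differentiableAt (ew z) x1 z1 h1).1
      have k2 : ‖L' x z₀' - L' x1 z1‖ ≤ 1 / (20 * C) := by
        refine h3 _ _ _ _ _ _ _ hF' hT' x z₀' x1 z1 ?_
        rw [h0', h1, hsub, hsn]
        refine (lip _ B dU bU.b1 z₀ z).trans ?_
        rw [norm_sub_rev]
        calc B * ‖z - z₀‖ ≤ B * r := by gcongr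
          _ = δ := by rw [hr]; field_simp
      have dg : DifferentiableAt ℝ (fun z => lb' (sw (U y z))) z := g1.differentiable (by simp) z
      have fG : fderiv ℝ (fun z => L' x z₀' (lb' (sw (U y z)))) z =
          (L' x z₀').comp (fderiv ℝ (fun z => lb' (sw (U y z))) z) :=
        ((L' x z₀').hasFDerivAt.comp z dg.hasFDerivAt).fderiv
      unfold QC jac
      rw [fG]
      refine qc_of_near _ (det2 (del (W x1) z1) (del (fun t => sw (U y t)) z)) fun ζ => ?_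
      have k3 := (l1 x1 z1 (fderiv ℝ (fun z => lb' (sw (U y z))) z ζ)).2
      rw [k1 ζ, norm_mul] at k3
      rw [← k1 ζ, ContinuousLinearMap.comp_apply, ← sub_apply]
      refine ((L' x z₀' - L' x1 z1).le_opNorm _).trans ?_
      refine (mul_le_mul k2 k3 (norm_nonneg _) (by positivity)).trans (le_of_eq ?_)
      field_simp
    · intro z hz
      have h1 := hm A U lb L W lb' L' hF hT y z z₀ hz.ge
      have h2 := (l1 x z₀' (lb' (sw (U y z)) - lb' (sw (U y z₀)))).2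
      rw [map_sub] at h2
      rw [div_le_iff₀ hC]
      linarith only [h1, h2]
    · intro z hz
      obtain ⟨h, rfl⟩ : ∃ h, z = z₀ + h := ⟨z - z₀, by ring⟩
      rw [add_sub_cancel_left] at hz
      have h1 := (l1 x z₀' (lb' (sw (U y (z₀ + h))) - lb' (sw (U y z₀)))).1
      rw [map_sub] at h1
      refine h1.trans ?_
      have h2 : lb' (sw (U y z₀)) = lb' (W x (z₀' + k * h)) := by
        rw [← h0', hT.snd.lab, hT.snd.lab]
      rw [h2, ← hz, sq C, mul_assoc]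
      gcongr
      refine (l5 _ _).trans ?_
      gcongr
      have t1 := taylor _ B hB.le dU bU.lip z₀ h
      have t2 := taylor _ B hB.le dW bW.lip z₀' (k * h)
      have r1 := (hR _ hF.2).2.2.2.2.2.2.2.2.2.1 (fun t => sw (U y t)) z₀ (ew z₀) h
      have r2 := (hR _ hF.2).2.2.2.2.2.2.2.2.2.1 (W x) z₀' (sW.eq z₀') (k * h)
      rw [(fw z₀).fderiv, ContinuousLinearMap.comp_apply, hswL, (hsd _ _).1, ← h0'] at r1
      have e : sw (U y (z₀ + h)) - W x (z₀' + k * h) =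
          sw (U y (z₀ + h) - U y z₀ - fderiv ℝ (U y) z₀ h) -
            (W x (z₀' + k * h) - W x z₀' - fderiv ℝ (W x) z₀' (k * h)) +
            (1 + swF A (W x z₀')) (h • (sw (del (U y) z₀) - k • del (W x) z₀')) := by
        rw [← hsub, ← hsub, ← h0', r1, r2, smul_sub, map_sub, smul_smul, mul_comm h k]
        abel
      have n1 : ‖(1 + swF A (W x z₀') : Op)‖ ≤ 2 := by
        refine (norm_add_le _ _).trans ?_
        have := hF.2.le (W x z₀')
        have := hF.2.a1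
        have : ‖(1 : Op)‖ ≤ 1 := ContinuousLinearMap.norm_id_le
        linarith
      have n2 : ‖(1 + swF A (W x z₀')) (h • (sw (del (U y) z₀) - k • del (W x) z₀'))‖ ≤
          2 * (‖h‖ * s) := by
        refine (ContinuousLinearMap.le_opNorm _ _).trans ?_
        rw [norm_smul, ← hs]
        gcongr
      have n3 : ‖k * h‖ ≤ ‖h‖ := by
        rw [norm_mul]; exact mul_le_of_le_one_left (norm_nonneg _) hk
      have n4 : B * ‖k * h‖ * ‖k * h‖ ≤ B * ‖h‖ * ‖h‖ := by gcongr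
      rw [e]
      refine (norm_add_le _ _).trans ?_
      have n5 := norm_sub_le (sw (U y (z₀ + h) - U y z₀ - fderiv ℝ (U y) z₀ h))
        (W x (z₀' + k * h) - W x z₀' - fderiv ℝ (W x) z₀' (k * h))
      rw [hsn] at n5
      linarith only [t1, t2, n2, n4, n5]
  refine ⟨(m / C * τ / (4 * C ^ 2 * r)) ^ 2, by positivity, ?_⟩
  intro A U lb L W lb' L' hF hT y z x z' h0
  rcases le_total ‖del (U y) z‖ ‖del (W x) z'‖ with hle | hle
  · have := main A U lb L W lb' L' hF hT y z x z' h0 hle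
    have e : det2 (del (W x) z') (sw (del (U y) z)) = det2 (del (U y) z) (sw (del (W x) z')) := by
      simp [det2, sw, mk]; ring
    rwa [e] at this
  · exact main (swF A) W lb' L' U lb L ⟨hF.2, by rw [hFF]; exact hF.1⟩ (hswap _ _ _ _ _ _ _ hT)
      x z' y z (by rw [h0, hss]) hle

end

end Pool.Agent.MP_be5fd0_gt.T

/-! Openness in the parameter of the existence of one foliation by planes. -/

namespace Pool.Agent.MP_be5fd0_gt.T

open Complex Filter Topology Set Metric MeasureTheory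
open scoped ContDiff BoundedContinuousFunction

namespace Op1'

theorem close (hc : StConv) {A : E → Op} {a M R s₁ : ℝ} {y₁ : ℂ} {w : ℂ → E}
    (hF : ∀ s ∈ Icc (0 : ℝ) 1, Fld (s • A) a M R) (hs : s₁ ∈ Icc (0 : ℝ) 1)
    (hw : ∀ w', Sol (s₁ • A) y₁ w' → w' = w) {ε : ℝ} (hε : 0 < ε) :
    ∃ δ : ℝ, 0 < δ ∧ ∀ s ∈ Icc (0 : ℝ) 1, ∀ y u, |s - s₁| < δ → ‖y - y₁‖ < δ →
      Sol (s • A) y u → ∀ z, ‖u z - w z‖ ≤ ε ∧ ‖del u z - del w z‖ ≤ ε := by
  by_contra hn
  have h : ∀ n : ℕ, ∃ s ∈ Icc (0 : ℝ) 1, ∃ y u, |s - s₁| < 1 / ((n : ℝ) + 1) ∧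
      ‖y - y₁‖ < 1 / ((n : ℝ) + 1) ∧ Sol (s • A) y u ∧
      ¬ ∀ z, ‖u z - w z‖ ≤ ε ∧ ‖del u z - del w z‖ ≤ ε := fun n => by
    by_contra h
    refine hn ⟨1 / ((n : ℝ) + 1), Nat.one_div_pos_of_nat, fun s hs y u h1 h2 h3 => ?_⟩
    by_contra h4
    exact h ⟨s, hs, y, u, h1, h2, h3, h4⟩
  choose s hs' y u h1 h2 h3 h4 using h
  have t0 := tendsto_one_div_add_atTop_nhds_zero_nat (𝕜 := ℝ)
  have t1 : Tendsto s atTop (𝓝 s₁) :=
    tendsto_iff_norm_sub_tendsto_zero.2 (squeeze_zero (fun _ => norm_nonneg _) (fun n => (h1 n).le) t0)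
  have t2 : Tendsto y atTop (𝓝 y₁) :=
    tendsto_iff_norm_sub_tendsto_zero.2 (squeeze_zero (fun _ => norm_nonneg _) (fun n => (h2 n).le) t0)
  obtain ⟨c1, c2⟩ := hc a M R (fun n => s n • A) (s₁ • A) y y₁ u w (fun n => hF _ (hs' n)) (hF _ hs)
    (fun q => t1.smul_const (A q)) t2 h3 hw
  obtain ⟨n, e1, e2⟩ := ((Metric.tendstoUniformly_iff.1 c1 ε hε).and
    (Metric.tendstoUniformly_iff.1 c2 ε hε)).exists
  refine h4 n fun z => ⟨?_, ?_⟩
  · rw [← dist_eq_norm, dist_comm]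
    exact (e1 z).le
  · rw [← dist_eq_norm, dist_comm]
    exact (e2 z).le

theorem low {u : ℂ → E} {C : ℝ} (hC : 0 < C) (hu : ContDiff ℝ 1 u) (h0 : ∀ z, del u z ≠ 0)
    (he : 1 ≤ ‖mk 1 0‖) (hd : ∀ z, ‖z‖ * ‖del u z - mk 1 0‖ ≤ C) :
    ∃ c : ℝ, 0 < c ∧ ∀ z, c ≤ ‖del u z‖ := by
  obtain ⟨z₀, -, hz⟩ := (isCompact_closedBall (0 : ℂ) (2 * C)).exists_isMinOn
    ⟨0, mem_closedBall_self (by positivity)⟩ (continuous_del hu).1.norm.continuousOn
  refine ⟨min ‖del u z₀‖ (1 / 2), lt_min (norm_pos_iff.2 (h0 _)) one_half_pos, fun z => ?_⟩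
  rcases le_total ‖z‖ (2 * C) with h | h
  · exact (min_le_left _ _).trans (hz (mem_closedBall_zero_iff.2 h))
  · refine (min_le_right _ _).trans ?_
    have h1 : C * (2 * ‖del u z - mk 1 0‖) ≤ C * 1 := by
      linarith [hd z, mul_le_mul_of_nonneg_right h (norm_nonneg (del u z - mk 1 0))]
    have h2 := le_of_mul_le_mul_left h1 hC
    have h3 := norm_sub_norm_le (mk 1 0) (del u z)
    rw [norm_sub_rev] at h3
    linarith

/-- there is exactly one plane and it is immersed -/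
def One (B : E → Op) (y : ℂ) : Prop :=
  ∃ u, Sol B y u ∧ (∀ z, del u z ≠ 0) ∧ ∀ u', Sol B y u' → u' = u

end Op1'

open Op1' in
theorem thOp1 (hSw : StSw) (hAp : StAp) (hc : StConv) (hT : StTriv) (hI : StIFT) (h1 : StStr1) :
    StOp1 := by
  intro A a M R hA s₀ hs₀ U lb L hS
  obtain ⟨-, -, -, -, -, -, hsm, hfs, hsup, -, -, -, hco, -, hmk⟩ := hSw
  have hF : ∀ s ∈ Icc (0 : ℝ) 1, Fld (s • A) a M R := fun s hs => hfs A a M R s hs hA.1
  have hF2 : ∀ s ∈ Icc (0 : ℝ) 1, Fld2 (s • A) a M R := fun s hs =>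
    ⟨hF s hs, hsm s A ▸ hfs _ a M R s hs hA.2⟩
  have he : 1 ≤ ‖mk 1 0‖ := by simpa only [mk, Fin.isValue, Matrix.cons_val_zero, norm_one] using hco (mk 1 0) 0
  obtain ⟨C, hC, hB⟩ := hAp a M R
  obtain ⟨C', hC', hT3⟩ := hT.2.2 a M R
  have loc : ∀ y₀ : ℂ, ∀ᶠ p : ℝ × ℂ in 𝓝 (s₀, y₀), p.1 ∈ Icc (0 : ℝ) 1 → One (p.1 • A) p.2 :=
    fun y₀ => by
    obtain ⟨δ, hδ, b, -, b1, -, b3, -⟩ := hI A a M R s₀ y₀ (U y₀) hA.1 hs₀ (hS.sol y₀) (hS.imm y₀)
    obtain ⟨c, hc0, hc1⟩ := low hC (hS.sol y₀).c1 (hS.imm y₀) he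
      (hB _ _ _ (hF _ hs₀) (hS.sol y₀)).decη
    obtain ⟨δ', hδ', h'⟩ := close hc hF hs₀ (hS.uniq y₀) (lt_min hδ (half_pos hc0))
    have t1 : Tendsto (fun p : ℝ × ℂ => |p.1 - s₀|) (𝓝 (s₀, y₀)) (𝓝 0) :=
      (tendsto_norm_sub_self s₀).comp (continuous_fst.tendsto (s₀, y₀))
    have t2 : Tendsto (fun p : ℝ × ℂ => ‖p.2 - y₀‖) (𝓝 (s₀, y₀)) (𝓝 0) :=
      (tendsto_norm_sub_self y₀).comp (continuous_snd.tendsto (s₀, y₀))
    filter_upwards [t1.eventually (gt_mem_nhds hδ), t2.eventually (gt_mem_nhds hδ),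
      t1.eventually (gt_mem_nhds hδ'), t2.eventually (gt_mem_nhds hδ')] with p p1 p2 p3 p4 hp
    refine ⟨b p.1 p.2, b1 _ _ p1 p2, fun z h0 => ?_, fun u hu => b3 _ hp _ _ p1 p2 hu fun z =>
      (h' _ hp _ _ p3 p4 hu z).1.trans (min_le_left _ _)⟩
    have q := (h' _ hp _ _ p3 p4 (b1 _ _ p1 p2) z).2.trans (min_le_right _ _)
    rw [h0, zero_sub, norm_neg] at q
    linarith only [hc1 z, hc0, q]
  have all := (isCompact_closedBall (0 : ℂ) (C' + |R|)).eventually_forall_of_forall_eventually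
    (P := fun s y => s ∈ Icc (0 : ℝ) 1 → One (s • A) y) fun y _ => loc y
  obtain ⟨δ, hδ, hall⟩ := Metric.eventually_nhds_iff.1 all
  refine ⟨δ, hδ, fun s hs hd => ?_⟩
  have one : ∀ y, One (s • A) y := fun y => by
    rcases le_total ‖y‖ (C' + |R|) with h | h
    · exact hall hd y (mem_closedBall_zero_iff.2 h) hs
    · refine ⟨fun z => mk z y, hT.2.1 _ y fun z => hsup _ a M R (hF2 s hs) _ ?_, fun z => ?_,
        fun u hu => hT3 _ y u (hF2 s hs) hu (Or.inl (by linarith [abs_nonneg R]))⟩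
      · change R ≤ ‖y‖
        linarith [le_abs_self R]
      · rw [(hmk y).2.1]
        exact norm_pos_iff.1 (one_pos.trans_le he)
  choose U' u1 u2 u3 using one
  obtain ⟨lb', L', h0⟩ := h1 (s • A) a M R U' (hF2 s hs) u1 u2 fun y ε hε => by
    obtain ⟨δ', hδ', h'⟩ := close hc hF hs (u3 y) hε
    exact ⟨δ', hδ', fun y' hy z => (h' s hs y' _ (by rwa [sub_self, abs_zero]) hy (u1 y') z).1⟩
  exact ⟨U', lb', L', h0, u3⟩

end Pool.Agent.MP_be5fd0_gt.T

namespace Pool.Agent.MP_be5fd0_gt.T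

open Complex Filter Topology Set Metric MeasureTheory
open scoped ContDiff BoundedContinuousFunction

namespace Open'

theorem fld2_smul (hSw : StSw) {A : E → Op} {a M R s : ℝ} (h : Fld2 A a M R)
    (hs : s ∈ Icc (0 : ℝ) 1) : Fld2 (s • A) a M R := by
  obtain ⟨-, -, -, -, -, -, h7, h8, -⟩ := hSw
  exact ⟨h8 A a M R s hs h.1, by rw [h7]; exact h8 _ a M R s hs h.2⟩

theorem fld2_sw (hSw : StSw) {A : E → Op} {a M R : ℝ} (h : Fld2 A a M R) :
    Fld2 (swF A) a M R := by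
  obtain ⟨-, -, -, -, -, h6, -⟩ := hSw
  exact ⟨h.2, by rw [h6]; exact h.1⟩

theorem mk0 (a b : ℂ) : mk a b 0 = a := by simp [mk]
theorem mk1 (a b : ℂ) : mk a b 1 = b := by simp [mk]
theorem sw0 (q : E) : sw q 0 = q 1 := by simp [sw, mk]
theorem sw1 (q : E) : sw q 1 = q 0 := by simp [sw, mk]

theorem coord (hSw : StSw) {R C : ℝ} {y : ℂ} {u : ℂ → E} (h : Bd R C y u) (z : ℂ) :
    ‖z‖ ≤ ‖u z 0‖ + C ∧ ‖y‖ ≤ ‖u z 1‖ + C ∧ ‖u z 0‖ ≤ ‖z‖ + C := by
  obtain ⟨-, -, -, -, -, -, -, -, -, -, -, -, h13, -⟩ := hSw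
  have h0 := (h13 (u z - mk z y) 0).trans (h.b0 z)
  have h1 := (h13 (u z - mk z y) 1).trans (h.b0 z)
  rw [PiLp.sub_apply, mk0] at h0
  rw [PiLp.sub_apply, mk1] at h1
  have e0 := norm_sub_norm_le z (u z 0)
  have e1 := norm_sub_norm_le y (u z 1)
  have e2 := norm_sub_norm_le (u z 0) z
  rw [norm_sub_rev] at e0 e1
  exact ⟨by linarith, by linarith, by linarith⟩

theorem del0_ne (hSw : StSw) {R C : ℝ} {y : ℂ} {u : ℂ → E} (h : Bd R C y u) (z : ℂ)
    (hz : 2 * C < ‖u z 0‖) : del u z 0 ≠ 0 := by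
  intro h0
  have h1 := (coord hSw h z).2.2
  obtain ⟨-, -, -, -, -, -, -, -, -, -, -, -, h13, -⟩ := hSw
  have h2 := h13 (del u z - mk 1 0) 0
  rw [PiLp.sub_apply, mk0, h0] at h2
  simp only [zero_sub, norm_neg, norm_one] at h2
  have h3 := h.decη z
  have h4 : ‖z‖ * 1 ≤ ‖z‖ * ‖del u z - mk 1 0‖ := mul_le_mul_of_nonneg_left h2 (norm_nonneg _)
  linarith

theorem cont_sw (hSw : StSw) : Continuous sw := by
  have : sw = swL := funext fun q => (hSw.1 q).symm
  rw [this]; exact swL.continuous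

theorem cont_det : Continuous (fun p : E × E => det2 p.1 p.2) := by
  unfold det2; fun_prop

end Open'

open Open'

theorem thOpen (hSw : StSw) (hAp : StAp) (hConv : StConv) (hTriv : StTriv) (hOp1 : StOp1) :
    StOpen := by
  intro A a M R hA s₀ hs₀ ⟨U, lb, L, W, lb', L', hT⟩
  have h7 : ∀ (s : ℝ) (A : E → Op), swF (s • A) = s • swF A := hSw.2.2.2.2.2.2.1
  have hmk := hSw.2.2.2.2.2.2.2.2.2.2.2.2.2.2
  obtain ⟨δ₁, hδ₁, H₁⟩ := hOp1 A a M R hA s₀ hs₀ U lb L hT.fst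
  obtain ⟨δ₂, hδ₂, H₂⟩ := hOp1 (swF A) a M R (fld2_sw hSw hA) s₀ hs₀ W lb' L'
    (by rw [← h7]; exact hT.snd)
  obtain ⟨CA, hCA, hB⟩ := hAp a M R
  obtain ⟨CT, hCT, hTr⟩ := hTriv.2.2 a M R
  by_contra hcon
  push Not at hcon
  have key : ∀ n : ℕ, ∃ (s : ℝ) (u w : ℂ → E) (p : ℂ × ℂ × ℂ × ℂ), s ∈ Icc (0 : ℝ) 1 ∧
      |s - s₀| < 1 / ((n : ℝ) + 1) ∧ Sol (s • A) p.1 u ∧ Sol (s • swF A) p.2.1 w ∧
      u p.2.2.1 = sw (w p.2.2.2) ∧ det2 (del u p.2.2.1) (sw (del w p.2.2.2)) = 0 ∧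
      p ∈ closedBall (0 : ℂ × ℂ × ℂ × ℂ) (CT + 3 * CA) := by
    intro n
    obtain ⟨s, hs, hlt, hng⟩ := hcon (min (min δ₁ δ₂) (1 / ((n : ℝ) + 1))) (by positivity)
    obtain ⟨U', l1, L1, hU⟩ := H₁ s hs (hlt.trans_le ((min_le_left _ _).trans (min_le_left _ _)))
    obtain ⟨W', l2, L2, hW⟩ := H₂ s hs (hlt.trans_le ((min_le_left _ _).trans (min_le_right _ _)))
    have hex : ∃ y z x z', U' y z = sw (W' x z') ∧
        det2 (del (U' y) z) (sw (del (W' x) z')) = 0 := by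
      by_contra hne
      push Not at hne
      exact hng ⟨U', l1, L1, W', l2, L2, hU, by rw [h7]; exact hW, hne⟩
    obtain ⟨y, z, x, z', he, hd⟩ := hex
    have hF := fld2_smul hSw hA hs
    have hF' := fld2_smul hSw (fld2_sw hSw hA) hs
    have bU := hB _ _ _ hF.1 (hU.sol y)
    have bW := hB _ _ _ hF'.1 (hW.sol x)
    have e0 : U' y z 0 = W' x z' 1 := by rw [he, sw0]
    have e1 : U' y z 1 = W' x z' 0 := by rw [he, sw1]
    have k1 : ‖U' y z 1‖ ≤ CT + 2 * CA := by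
      by_contra hk
      push Not at hk
      have hfl := hTr _ y _ hF (hU.sol y) (Or.inr ⟨z, by linarith only [hCA, hk]⟩)
      have hη : del (U' y) z = mk 1 0 := by rw [hfl]; exact (hmk y).2.1 z
      rw [hη, det2, mk0, mk1, sw1, one_mul, zero_mul, sub_zero] at hd
      exact del0_ne hSw bW z' (by rw [← e1]; linarith only [hCT, hk]) hd
    have k0 : ‖U' y z 0‖ ≤ CT + 2 * CA := by
      by_contra hk
      push Not at hk
      have hfl := hTr _ x _ hF' (hW.sol x) (Or.inr ⟨z', by rw [← e0]; linarith only [hCA, hk]⟩)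
      have hη : del (W' x) z' = mk 1 0 := by rw [hfl]; exact (hmk x).2.1 z'
      rw [hη, det2, sw0, sw1, mk0, mk1, mul_one, mul_zero, sub_zero] at hd
      exact del0_ne hSw bU z (by linarith) hd
    have cU := coord hSw bU z
    have cW := coord hSw bW z'
    refine ⟨s, U' y, W' x, (y, x, z, z'), hs, hlt.trans_le (min_le_right _ _), hU.sol y,
      hW.sol x, he, hd, ?_⟩
    rw [mem_closedBall_zero_iff]
    simp only [Prod.norm_mk, max_le_iff]
    rw [← e0, ← e1] at cW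
    exact ⟨by linarith only [cU.2.1, k1], by linarith only [cW.2.1, k0], by linarith only [cU.1, k0], by linarith only [cW.1, k1]⟩
  choose s u w p hs hlt hu hw he hd hp using key
  obtain ⟨p₀, -, φ, hφ, hlim⟩ := (isCompact_closedBall (0 : ℂ × ℂ × ℂ × ℂ) _).tendsto_subseq hp
  have hst : Tendsto (fun n => s (φ n)) atTop (𝓝 s₀) := by
    refine Tendsto.comp (g := s) ?_ hφ.tendsto_atTop
    rw [tendsto_iff_norm_sub_tendsto_zero]
    exact squeeze_zero (fun n => norm_nonneg _) (fun n => (hlt n).le)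
      tendsto_one_div_add_atTop_nhds_zero_nat
  have hy : Tendsto (fun n => (p (φ n)).1) atTop (𝓝 p₀.1) := (continuous_fst.tendsto _).comp hlim
  have hx : Tendsto (fun n => (p (φ n)).2.1) atTop (𝓝 p₀.2.1) :=
    ((continuous_fst.comp continuous_snd).tendsto _).comp hlim
  have hz : Tendsto (fun n => (p (φ n)).2.2.1) atTop (𝓝 p₀.2.2.1) :=
    ((continuous_fst.comp (continuous_snd.comp continuous_snd)).tendsto _).comp hlim
  have hz' : Tendsto (fun n => (p (φ n)).2.2.2) atTop (𝓝 p₀.2.2.2) :=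
    ((continuous_snd.comp (continuous_snd.comp continuous_snd)).tendsto _).comp hlim
  obtain ⟨cu, cu'⟩ := hConv a M R (fun n => s (φ n) • A) (s₀ • A) _ _ (fun n => u (φ n)) (U p₀.1)
    (fun n => (fld2_smul hSw hA (hs _)).1) (fld2_smul hSw hA hs₀).1
    (fun q => hst.smul_const (A q)) hy (fun n => hu _) (fun w' h => hT.fst.uniq _ _ h)
  obtain ⟨cw, cw'⟩ := hConv a M R (fun n => s (φ n) • swF A) (s₀ • swF A) _ _
    (fun n => w (φ n)) (W p₀.2.1)
    (fun n => (fld2_smul hSw (fld2_sw hSw hA) (hs _)).1) (fld2_smul hSw (fld2_sw hSw hA) hs₀).1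
    (fun q => hst.smul_const (swF A q)) hx (fun n => hw _)
    (fun w' h => hT.snd.uniq _ _ (by rw [h7]; exact h))
  have c1 := (hT.fst.sol p₀.1).c1
  have c2 := (hT.snd.sol p₀.2.1).c1
  have t1 := cu.tendsto_comp c1.continuous.continuousAt hz
  have t2 := cw.tendsto_comp c2.continuous.continuousAt hz'
  have t3 := cu'.tendsto_comp (continuous_del c1).1.continuousAt hz
  have t4 := cw'.tendsto_comp (continuous_del c2).1.continuousAt hz'
  have t5 := ((cont_sw hSw).tendsto _).comp t2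
  have t6 := ((cont_sw hSw).tendsto _).comp t4
  have t7 := (cont_det.tendsto (_, _)).comp (t3.prodMk_nhds t6)
  refine hT.trans p₀.1 p₀.2.2.1 p₀.2.1 p₀.2.2.2 ?_ ?_
  · exact tendsto_nhds_unique t1 (t5.congr fun n => (he (φ n)).symm)
  · exact tendsto_nhds_unique t7 (tendsto_const_nhds.congr fun n => (hd (φ n)).symm)

namespace Open'

theorem str_zero (hSw : StSw) (hTriv : StTriv) (h1 : StStr1) (h2 : StStr2) {A : E → Op}
    {a M R : ℝ} (hA : Fld2 A a M R) :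
    ∃ lb L, Str ((0 : ℝ) • A) (fun y z => mk z y) lb L := by
  have hF := fld2_smul hSw hA (s := 0) ⟨le_rfl, zero_le_one⟩
  have hmk := hSw.2.2.2.2.2.2.2.2.2.2.2.2.2.2
  have hn := hSw.2.2.2.2.2.2.2.2.2.2.2.1
  obtain ⟨lb, L, h⟩ := h1 _ a M R (fun y z => mk z y) hF
    (fun y => hTriv.2.1 _ y fun z => zero_smul ℝ (A (mk z y)))
    (fun y z h => by
      rw [(hmk y).2.1 z] at h
      have := congrArg (fun q : E => q 0) h
      simp [mk] at this)
    (fun y ε hε => ⟨ε, hε, fun y' hy z => by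
      have e : mk z y' - mk z y = mk 0 (y' - y) := by
        ext i; fin_cases i <;> simp [mk]
      rw [e]
      have := hn 0 (y' - y)
      rw [norm_zero] at this
      linarith⟩)
  exact ⟨lb, L, h2 _ a M R _ lb L hF.1 h⟩

end Open'

theorem thFol (hSw : StSw) (hTriv : StTriv) (hStr1 : StStr1) (hStr2 : StStr2) (hOpen : StOpen)
    (hClosed : StClosed) : StFol := by
  intro A a M R hA
  have h7 : ∀ (s : ℝ) (A : E → Op), swF (s • A) = s • swF A := hSw.2.2.2.2.2.2.1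
  have hmk := hSw.2.2.2.2.2.2.2.2.2.2.2.2.2.2
  have h0 : Good ((0 : ℝ) • A) := by
    obtain ⟨lb, L, h⟩ := str_zero hSw hTriv hStr1 hStr2 hA
    obtain ⟨lb', L', h'⟩ := str_zero hSw hTriv hStr1 hStr2 (fld2_sw hSw hA)
    refine ⟨_, lb, L, _, lb', L', h, by rw [h7]; exact h', fun y z x z' _ => ?_⟩
    rw [(hmk y).2.1 z, (hmk x).2.1 z', det2, sw0, sw1, mk0, mk1]
    simp
  have hcl : IsClosed ({s : ℝ | Good (s • A)} ∩ Icc 0 1) := by
    refine IsSeqClosed.isClosed fun s s₀ hs hl => ⟨?_, ?_⟩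
    · exact hClosed A a M R hA s s₀ (fun n => (hs n).2) hl fun n => (hs n).1
    · exact isClosed_Icc.mem_of_tendsto hl (Eventually.of_forall fun n => (hs n).2)
  have hall := hcl.Icc_subset_of_forall_exists_gt (a := 0) (b := 1) h0 (by
    rintro x ⟨hx, hx0, hx1⟩ y hy
    obtain ⟨δ, hδ, H⟩ := hOpen A a M R hA x ⟨hx0, hx1.le⟩ hx
    have hy' : x < y := hy
    refine ⟨min (min y 1) (x + δ / 2), H _ ⟨?_, ?_⟩ ?_, ?_, ?_⟩
    · exact le_min (le_min (by linarith) zero_le_one) (by linarith only [hx0, hδ])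
    · exact (min_le_left _ _).trans (min_le_right _ _)
    · have h1 : x < min (min y 1) (x + δ / 2) := lt_min (lt_min hy' hx1) (by linarith)
      have h2 := min_le_right (min y 1) (x + δ / 2)
      rw [abs_lt]; constructor <;> linarith
    · exact lt_min (lt_min hy' hx1) (by linarith)
    · exact (min_le_left _ _).trans (min_le_left _ _))
  have h1 : Good ((1 : ℝ) • A) := hall ⟨zero_le_one, le_rfl⟩
  rwa [one_smul] at h1

end Pool.Agent.MP_be5fd0_gt.T

/-! Closedness of the set of good parameters. -/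

namespace Pool.Agent.MP_be5fd0_gt.T

open Complex Filter Topology Set Metric MeasureTheory
open scoped ContDiff BoundedContinuousFunction

namespace Closed'

theorem fld2_smul (hSw : StSw) {A : E → Op} {a M R s : ℝ} (hA : Fld2 A a M R)
    (hs : s ∈ Icc (0 : ℝ) 1) : Fld2 (s • A) a M R := by
  obtain ⟨-, -, -, -, -, -, h7, h8, -⟩ := hSw
  exact ⟨h8 A a M R s hs hA.1, by rw [h7]; exact h8 _ a M R s hs hA.2⟩

theorem fld2_sw (hSw : StSw) {A : E → Op} {a M R : ℝ} (hA : Fld2 A a M R) :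
    Fld2 (swF A) a M R := by
  obtain ⟨-, -, -, -, -, h6, -⟩ := hSw
  exact ⟨hA.2, by rw [h6]; exact hA.1⟩

theorem tendsto_fld (A : E → Op) {s : ℕ → ℝ} {s₀ : ℝ} (hs : Tendsto s atTop (𝓝 s₀)) (q : E) :
    Tendsto (fun n => (s n • A) q) atTop (𝓝 ((s₀ • A) q)) :=
  hs.smul_const (A q)

theorem mem_lim {s : ℕ → ℝ} {s₀ : ℝ} (h : ∀ n, s n ∈ Icc (0 : ℝ) 1)
    (hs : Tendsto s atTop (𝓝 s₀)) : s₀ ∈ Icc (0 : ℝ) 1 :=
  isClosed_Icc.mem_of_tendsto hs (Eventually.of_forall h)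

theorem continuous_det2 : Continuous fun p : E × E => det2 p.1 p.2 := by
  unfold det2
  fun_prop

end Closed'

open Closed'

theorem thCl1 (hSw : StSw) (hCpt : StCpt) (hIFT : StIFT) (hStr1 : StStr1) (hStr2 : StStr2) :
    StCl1 := by
  intro A a M R hA s s₀ c U hc hs hlim hU hcU
  have hs₀ := mem_lim hs hlim
  choose lb L hU using hU
  have hB := fld2_smul hSw hA hs₀
  have key : ∀ y, ∃ (w : ℂ → E) (φ : ℕ → ℕ), StrictMono φ ∧ Sol (s₀ • A) y w ∧
      TendstoUniformly (fun n => U (φ n) y) w atTop ∧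
      TendstoUniformly (fun n => del (U (φ n) y)) (del w) atTop := fun y =>
    hCpt a M R (fun n => s n • A) (s₀ • A) (fun _ => y) y (fun n => U n y)
      (fun n => (fld2_smul hSw hA (hs n)).1) hB.1 (tendsto_fld A hlim) tendsto_const_nhds
      (fun n => (hU n).sol y)
  choose w φ hφ hw hc0 hc1 using key
  have himm : ∀ y z, del (w y) z ≠ 0 := by
    intro y z h0
    have h1 : c ≤ ‖del (w y) z‖ :=
      ge_of_tendsto' ((hc1 y).tendsto_at z).norm fun n => hcU _ y z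
    rw [h0, norm_zero] at h1
    exact absurd hc (not_lt.2 h1)
  have hcont : ∀ y (ε : ℝ), 0 < ε → ∃ δ : ℝ, 0 < δ ∧ ∀ y', ‖y' - y‖ < δ →
      ∀ z, ‖w y' z - w y z‖ ≤ ε := by
    intro y ε hε
    obtain ⟨δ, hδ, b, hb0, hb1, hb2, -⟩ := hIFT A a M R s₀ y (w y) hA.1 hs₀ (hw y) (himm y)
    have h00 : |s₀ - s₀| < δ := by simpa using hδ
    have hev : ∀ d : ℝ, 0 < d → ∀ᶠ n in atTop, |s n - s₀| < d := fun d hd => by
      simpa only [Real.dist_eq] using Metric.tendsto_nhds.1 hlim d hd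
    have hid : ∀ y', ‖y' - y‖ < δ → w y' = b s₀ y' := by
      intro y' hy'
      funext z
      refine tendsto_nhds_unique ((hc0 y').tendsto_at z) ?_
      have h1 : Tendsto (fun n => U n y' z) atTop (𝓝 (b s₀ y' z)) := by
        refine Metric.tendsto_nhds.2 fun e he => ?_
        obtain ⟨d, hd, hd'⟩ := hb2 s₀ y' h00 hy' (e / 2) (half_pos he)
        filter_upwards [hev d hd, hev δ hδ] with n h1 h2
        rw [← (hU n).uniq y' _ (hb1 _ _ h2 hy'), dist_eq_norm]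
        exact (hd' _ _ h1 (by simpa using hd) z).trans_lt (half_lt_self he)
      exact h1.comp (hφ y').tendsto_atTop
    obtain ⟨d, hd, hd'⟩ := hb2 s₀ y h00 (by simpa using hδ) ε hε
    refine ⟨min d δ, lt_min hd hδ, fun y' hy' z => ?_⟩
    rw [hid y' (hy'.trans_le (min_le_right _ _)), ← hb0]
    exact hd' _ _ (by simpa using hd) (hy'.trans_le (min_le_left _ _)) z
  obtain ⟨lb', L', h⟩ := hStr1 _ a M R w hB hw himm hcont
  exact ⟨w, lb', L', hStr2 _ a M R _ _ _ hB.1 h⟩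

theorem thClosed (hSw : StSw) (hAp : StAp) (hConv : StConv) (hM4 : StM4) (hCl1 : StCl1) :
    StClosed := by
  intro A a M R hA s s₀ hs hlim hG
  have hs₀ := mem_lim hs hlim
  choose U lb L W lb' L' hT using hG
  obtain ⟨c, hc, hM⟩ := hM4 a M R
  obtain ⟨C, hC, hBd⟩ := hAp a M R
  have hAn := fun n => fld2_smul hSw hA (hs n)
  have hB := fld2_smul hSw hA hs₀
  have hA' := fld2_sw hSw hA
  have hAn' := fun n => fld2_smul hSw hA' (hs n)
  have hB' := fld2_smul hSw hA' hs₀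
  obtain ⟨h1, h2, h3, -, -, -, h7, -, -, -, -, -, h13, h14, -⟩ := hSw
  have hW : ∀ n, Str (s n • swF A) (W n) (lb' n) (L' n) := fun n => by
    rw [← h7]; exact (hT n).snd
  have bU := fun n y => hBd _ y _ (hAn n).1 ((hT n).fst.sol y)
  have bW := fun n x => hBd _ x _ (hAn' n).1 ((hW n).sol x)
  have hpr : ∀ n y z x z', U n y z = sw (W n x z') →
      c ≤ ‖del (U n y) z‖ * ‖del (W n x) z'‖ := fun n y z x z' h =>
    (hM _ _ _ _ _ _ _ (hAn n) (hT n) y z x z' h).trans (by rw [← h3 (del (W n x) z')]; exact h14 _ _)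
  have hleaf : ∀ n y z, ∃ x z', U n y z = sw (W n x z') := fun n y z => by
    obtain ⟨x, z', h⟩ := (hW n).surj (sw (U n y z))
    exact ⟨x, z', by rw [h, h2]⟩
  obtain ⟨U', lb₀, L₀, hU'⟩ := hCl1 A a M R hA s s₀ (c / C) U (div_pos hc hC) hs hlim
    (fun n => ⟨_, _, (hT n).fst⟩) fun n y z => by
      obtain ⟨x, z', h⟩ := hleaf n y z
      rw [div_le_iff₀ hC]
      exact (hpr n y z x z' h).trans
        (mul_le_mul_of_nonneg_left ((bW n x).bη z') (norm_nonneg _))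
  obtain ⟨W', lb₁, L₁, hW'⟩ := hCl1 (swF A) a M R hA' s s₀ (c / C) W (div_pos hc hC) hs hlim
    (fun n => ⟨_, _, hW n⟩) fun n x z' => by
      obtain ⟨y, z, h⟩ := (hT n).fst.surj (sw (W n x z'))
      rw [div_le_iff₀' hC]
      exact (hpr n y z x z' h).trans
        (mul_le_mul_of_nonneg_right ((bU n y).bη z) (norm_nonneg _))
  refine ⟨U', lb₀, L₀, W', lb₁, L₁, hU', by rw [h7]; exact hW', fun y z x z' hq h0 => ?_⟩
  obtain ⟨cU0, cU1⟩ := hConv a M R (fun n => s n • A) (s₀ • A) (fun _ => y) y (fun n => U n y)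
    (U' y) (fun n => (hAn n).1) hB.1 (tendsto_fld A hlim) tendsto_const_nhds
    (fun n => (hT n).fst.sol y) (hU'.uniq y)
  choose xs zs hxz using fun n => hleaf n y z
  have hbd : ∀ n, ‖mk (zs n) (xs n)‖ ≤ C + (C + ‖mk z y‖) := fun n => by
    have e1 := (bW n (xs n)).b0 (zs n)
    have e2 := (bU n y).b0 z
    have e3 : ‖W n (xs n) (zs n)‖ = ‖U n y z‖ := by rw [hxz n, h3]
    have e4 := norm_sub_norm_le (U n y z) (mk z y)
    have e5 := norm_sub_norm_le (mk (zs n) (xs n)) (W n (xs n) (zs n))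
    rw [norm_sub_rev] at e5
    linarith
  obtain ⟨p, -, φ, hφ, hp⟩ := tendsto_subseq_of_bounded
    (isBounded_closedBall (x := (0 : ℂ × ℂ)) (r := C + (C + ‖mk z y‖)))
    (x := fun n => (xs n, zs n)) fun n => by
      rw [mem_closedBall_zero_iff, Prod.norm_mk]
      exact max_le ((h13 (mk (zs n) (xs n)) 1).trans (hbd n))
        ((h13 (mk (zs n) (xs n)) 0).trans (hbd n))
  have hx : Tendsto (fun n => xs (φ n)) atTop (𝓝 p.1) := (continuous_fst.tendsto p).comp hp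
  have hz : Tendsto (fun n => zs (φ n)) atTop (𝓝 p.2) := (continuous_snd.tendsto p).comp hp
  have hφ' := hφ.tendsto_atTop
  obtain ⟨cW0, cW1⟩ := hConv a M R (fun n => s (φ n) • swF A) (s₀ • swF A) (fun n => xs (φ n)) p.1
    (fun n => W (φ n) (xs (φ n))) (W' p.1) (fun n => (hAn' _).1) hB'.1
    (tendsto_fld _ (hlim.comp hφ')) hx (fun n => (hW _).sol _) (hW'.uniq _)
  have hsw : Continuous sw := by
    have : sw = swL := funext fun q => (h1 q).symm
    rw [this]; exact swL.continuous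
  have t0 := cW0.tendsto_comp (hW'.sol p.1).c1.continuous.continuousAt hz
  have t1 := cW1.tendsto_comp (continuous_del (hW'.sol p.1).c1).1.continuousAt hz
  have t2 := (cU0.tendsto_at z).comp hφ'
  have t3 := (cU1.tendsto_at z).comp hφ'
  have e : sw (W' p.1 p.2) = sw (W' x z') := by
    rw [← hq]
    refine tendsto_nhds_unique ((hsw.tendsto _).comp t0) (t2.congr fun n => hxz _)
  have e' : W' p.1 p.2 = W' x z' := by rw [← h2 (W' p.1 p.2), e, h2]
  obtain ⟨e1, e2⟩ := hW'.inj _ _ _ _ e'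
  have t4 := (continuous_det2.tendsto _).comp (t3.prodMk_nhds ((hsw.tendsto _).comp t1))
  have h5 := ge_of_tendsto' t4.norm fun n =>
    hM _ _ _ _ _ _ _ (hAn (φ n)) (hT (φ n)) y z _ _ (hxz (φ n))
  rw [e1, e2, h0, norm_zero] at h5
  exact absurd hc (not_lt.2 h5)

end Pool.Agent.MP_be5fd0_gt.T

/-! Removal of the cut-off in the second coordinate. -/

namespace Pool.Agent.MP_be5fd0_gt.T

open Complex Filter Topology Set Metric MeasureTheory
open scoped ContDiff BoundedContinuousFunction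

noncomputable section

namespace Cut'

def chi : ContDiffBump (0 : ℂ) := ⟨1, 2, one_pos, one_lt_two⟩

theorem chi_bd : ∃ B : ℝ, 0 ≤ B ∧ ∀ k ≤ 3, ∀ w, ‖iteratedFDeriv ℝ k (chi : ℂ → ℝ) w‖ ≤ B := by
  have h : ∀ k : ℕ, ∃ B : ℝ, ∀ w, ‖iteratedFDeriv ℝ k (chi : ℂ → ℝ) w‖ ≤ B := fun k =>
    ((chi.contDiff (n := ⊤)).continuous_iteratedFDeriv (m := k)
      (by exact_mod_cast le_top)).bounded_above_of_compact_support
      (chi.hasCompactSupport.iteratedFDeriv k)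
  choose B hB using h
  have h0 : ∀ k, 0 ≤ B k := fun k => (norm_nonneg _).trans (hB k 0)
  refine ⟨∑ k ∈ Finset.range 4, B k, Finset.sum_nonneg fun k _ => h0 k, fun k hk w => ?_⟩
  exact (hB k w).trans (Finset.single_le_sum (fun i _ => h0 i) (Finset.mem_range.2 (by omega)))

def pr (r : ℝ) : E →L[ℝ] ℂ :=
  r⁻¹ • (EuclideanSpace.proj (1 : Fin 2) : E →L[ℂ] ℂ).restrictScalars ℝ

theorem pr_apply (r : ℝ) (q : E) : pr r q = r⁻¹ • q 1 := rfl

theorem norm_pr_apply {r : ℝ} (hr : 0 < r) (q : E) : ‖pr r q‖ = r⁻¹ * ‖q 1‖ := by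
  rw [pr_apply, norm_smul, Real.norm_eq_abs, abs_of_pos (inv_pos.2 hr)]

theorem norm_pr {r : ℝ} (hr : 1 ≤ r) : ‖pr r‖ ≤ 1 := by
  refine ContinuousLinearMap.opNorm_le_bound _ zero_le_one fun q => ?_
  rw [norm_pr_apply (by linarith)]
  exact mul_le_mul (inv_le_one_of_one_le₀ hr) (PiLp.norm_apply_le q 1) (norm_nonneg _) zero_le_one

theorem comp_bd {X Y Z : Type} [NormedAddCommGroup X] [NormedSpace ℝ X] [NormedAddCommGroup Y]
    [NormedSpace ℝ Y] [NormedAddCommGroup Z] [NormedSpace ℝ Z] (L : X →L[ℝ] Y) (hL : ‖L‖ ≤ 1)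
    {f : Y → Z} (hf : ContDiff ℝ ∞ f) (k : ℕ) (x : X) :
    ‖iteratedFDeriv ℝ k (f ∘ L) x‖ ≤ ‖iteratedFDeriv ℝ k f (L x)‖ := by
  rw [L.iteratedFDeriv_comp_right hf x (by exact_mod_cast le_top)]
  refine (ContinuousMultilinearMap.norm_compContinuousLinearMap_le _ _).trans ?_
  refine mul_le_of_le_one_right (norm_nonneg _) ?_
  exact Finset.prod_le_one (fun _ _ => norm_nonneg _) fun _ _ => hL

theorem conj_bd {X : Type} [NormedAddCommGroup X] [NormedSpace ℝ X] (L : X →L[ℝ] X)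
    (hL : ‖L‖ ≤ 1) {A : X → X →L[ℝ] X} (hA : ContDiff ℝ ∞ A) :
    ContDiff ℝ ∞ (fun q => L * A (L q) * L) ∧ (∀ q, ‖L * A (L q) * L‖ ≤ ‖A (L q)‖) ∧
      ∀ (k : ℕ) q, ‖iteratedFDeriv ℝ k (fun q => L * A (L q) * L) q‖ ≤
        ‖iteratedFDeriv ℝ k A (L q)‖ := by
  have hΦ : ‖ContinuousLinearMap.mulLeftRight ℝ (X →L[ℝ] X) L L‖ ≤ 1 :=
    (ContinuousLinearMap.opNorm_mulLeftRight_apply_apply_le ℝ (X →L[ℝ] X) L L).trans
      (mul_le_one₀ hL (norm_nonneg _) hL)
  have hs : ContDiff ℝ ∞ (A ∘ L) := hA.comp L.contDiff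
  have e : (fun q => L * A (L q) * L) =
      ContinuousLinearMap.mulLeftRight ℝ (X →L[ℝ] X) L L ∘ (A ∘ L) := rfl
  refine ⟨e ▸ (ContinuousLinearMap.contDiff _).comp hs, fun q => ?_, fun k q => ?_⟩
  · exact ((ContinuousLinearMap.mulLeftRight ℝ (X →L[ℝ] X) L L).le_opNorm _).trans
      (mul_le_of_le_one_left (norm_nonneg _) hΦ)
  · rw [e]
    refine (ContinuousLinearMap.norm_iteratedFDeriv_comp_left _ hs.contDiffAt
      (by exact_mod_cast le_top)).trans ?_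
    exact (mul_le_of_le_one_left (norm_nonneg _) hΦ).trans (comp_bd _ hL hA k q)

theorem zs {X : Type} [NormedAddCommGroup X] [NormedSpace ℝ X] (T : X →L[ℝ] X) (c : ℝ) :
    (0 : ℝ) • T = 0 ∧ c • (0 : X →L[ℝ] X) = 0 := ⟨zero_smul _ _, smul_zero _⟩

def cut (A : E → Op) (r : ℝ) (q : E) : Op := chi (pr r q) • A q

theorem cut_eq {A : E → Op} {r : ℝ} (hr : 0 < r) {q : E} (h : ‖q 1‖ ≤ r) : cut A r q = A q := by
  have : chi (pr r q) = 1 := by
    apply chi.one_of_mem_closedBall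
    rw [mem_closedBall_zero_iff, norm_pr_apply hr]
    exact (inv_mul_le_iff₀ hr).2 (by simpa [chi] using h)
  rw [cut, this, one_smul]

theorem cut_zero {A : E → Op} {r : ℝ} (hr : 0 < r) {q : E} (h : 2 * r ≤ ‖q 1‖) :
    cut A r q = 0 := by
  have : chi (pr r q) = 0 := by
    apply chi.zero_of_le_dist
    rw [dist_zero_right, norm_pr_apply hr]
    exact (le_inv_mul_iff₀ hr).2 (by simpa only [chi, Fin.isValue, mul_comm] using h)
  rw [cut, this]; exact (zs _ 0).1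

theorem fld_cut {A : E → Op} {a M R : ℝ} (hA : Fld A a M R) :
    ∃ M' : ℝ, ∀ r, 1 ≤ r → Fld (cut A r) a M' R := by
  obtain ⟨B, hB0, hB⟩ := chi_bd
  have hM : 0 ≤ M := (norm_nonneg _).trans (hA.bd 0 (by norm_num) 0)
  refine ⟨8 * (B * M), fun r hr => ?_⟩
  have hc : ContDiff ℝ ∞ ((chi : ℂ → ℝ) ∘ pr r) := chi.contDiff.comp (pr r).contDiff
  refine ⟨hc.smul hA.smooth, fun q w => ?_, hA.a0, hA.a1, hA.R0, fun q => ?_, fun k hk q => ?_,
    fun q hq => by rw [cut, hA.supp q hq]; exact (zs 0 _).2⟩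
  · simp only [cut, smul_apply, hA.anti, smul_neg, smul_comm (chi (pr r q)) I]
  · rw [cut, norm_smul, Real.norm_eq_abs, abs_of_nonneg chi.nonneg]
    exact (mul_le_of_le_one_left (norm_nonneg _) chi.le_one).trans (hA.le q)
  · refine (norm_iteratedFDeriv_smul_le hc hA.smooth q (by exact_mod_cast le_top)).trans ?_
    have h1 : ∀ i ∈ Finset.range (k + 1), (k.choose i : ℝ) *
        ‖iteratedFDeriv ℝ i ((chi : ℂ → ℝ) ∘ pr r) q‖ * ‖iteratedFDeriv ℝ (k - i) A q‖ ≤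
        (k.choose i : ℝ) * (B * M) := fun i hi => by
      have hi' : i ≤ 3 := by have := Finset.mem_range.1 hi; omega
      rw [mul_assoc]
      refine mul_le_mul_of_nonneg_left ?_ (Nat.cast_nonneg _)
      exact mul_le_mul ((comp_bd _ (norm_pr hr) chi.contDiff i q).trans (hB i hi' _))
        (hA.bd _ (by omega) q) (norm_nonneg _) hB0
    refine (Finset.sum_le_sum h1).trans ?_
    rw [← Finset.sum_mul, ← Nat.cast_sum, Nat.sum_range_choose]
    refine mul_le_mul_of_nonneg_right ?_ (mul_nonneg hB0 hM)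
    exact_mod_cast (Nat.pow_le_pow_right two_pos hk).trans (by norm_num)

theorem fld2 (hSw : StSw) {A : E → Op} {a M R R' : ℝ} (hA : Fld A a M R) (hR : R ≤ R')
    (h1 : ∀ q, R' ≤ ‖q 1‖ → A q = 0) : Fld2 A a M R' := by
  obtain ⟨s1, -, s3, s4, -⟩ := hSw
  have hn : ‖swL‖ ≤ 1 :=
    ContinuousLinearMap.opNorm_le_bound _ zero_le_one fun q => by rw [s1, s3, one_mul]
  have e : swF A = fun q => swL * A (swL q) * swL := by
    funext q; rw [swF, s1]
  obtain ⟨c1, c2, c3⟩ := conj_bd swL hn hA.smooth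
  have hR' : 0 < R' := hA.R0.trans_le hR
  refine ⟨⟨hA.smooth, hA.anti, hA.a0, hA.a1, hR', hA.le, hA.bd,
    fun q hq => hA.supp q (hR.trans hq)⟩, e ▸ c1, fun q w => ?_, hA.a0, hA.a1, hR', fun q => ?_,
    fun k hk q => ?_, fun q hq => ?_⟩
  · change swL (A (sw q) (swL (I • w))) = -(I • swL (A (sw q) (swL w)))
    rw [s1 (I • w), s4, hA.anti, map_neg, s1 (I • _), s4, s1, s1]
  · rw [e]; exact (c2 q).trans (hA.le _)
  · rw [e]; exact (c3 k q).trans (hA.bd k hk _)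
  · rw [swF, h1 (sw q) hq, mul_zero, zero_mul]

theorem coord {q : E} {z y : ℂ} {C : ℝ} (h : ‖q - mk z y‖ ≤ C) : ‖q 1 - y‖ ≤ C := by
  have := PiLp.norm_apply_le (q - mk z y) 1
  simp only [PiLp.sub_apply, mk, Matrix.cons_val_one, Matrix.cons_val_fin_one] at this
  exact this.trans h

theorem sol_iff {A A' : E → Op} {y : ℂ} {u : ℂ → E} (h : Sol A y u)
    (e : ∀ z, A' (u z) = A (u z)) : Sol A' y u :=
  ⟨h.c1, fun z => by rw [e, h.eq], h.asy⟩

end Cut'

open Cut' in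
theorem thFolW (hSw : StSw) (hAp : StAp) (hFol : StFol) : StFolW := by
  intro A a M R hA
  obtain ⟨M', hM'⟩ := fld_cut hA
  obtain ⟨C₁, hC₁, h₁⟩ := hAp a M R
  obtain ⟨C₂, hC₂, h₂⟩ := hAp a M' R
  have hR := hA.R0
  have key : ∀ (r : ℝ) (q : E) (z y : ℂ) (C : ℝ), ‖q - mk z y‖ ≤ C → ‖y‖ + C ≤ r → 0 < r →
      cut A r q = A q := fun r q z y C h hr h0 => by
    have := coord h
    have := norm_le_insert' (q 1) y
    exact cut_eq h0 (by linarith)
  have fam : ∀ t : ℝ, 0 ≤ t → ∃ U lb L, Str (cut A (1 + R + C₁ + C₂ + t)) U lb L ∧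
      (∀ y u, ‖y‖ ≤ t → (Sol A y u ↔ Sol (cut A (1 + R + C₁ + C₂ + t)) y u)) ∧
      ∀ y z, ‖U y z - mk z y‖ ≤ C₂ := fun t ht => by
    have hr : 1 ≤ 1 + R + C₁ + C₂ + t := by linarith
    obtain ⟨U, lb, L, W, lb', L', hT⟩ := hFol _ a M' (2 * (1 + R + C₁ + C₂ + t))
      (fld2 hSw (hM' _ hr) (by linarith) fun q hq => cut_zero (by linarith) hq)
    refine ⟨U, lb, L, hT.fst, fun y u hy => ⟨fun h => sol_iff h fun z => ?_,
      fun h => sol_iff h fun z => ?_⟩, fun y => (h₂ _ y _ (hM' _ hr) (hT.fst.sol y)).b0⟩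
    · exact key _ _ z y C₁ ((h₁ A y u hA h).b0 z) (by linarith) (by linarith)
    · exact (key _ _ z y C₂ ((h₂ _ y u (hM' _ hr) h).b0 z) (by linarith) (by linarith)).symm
  have ex : ∀ y, ∃ u, Sol A y u := fun y => by
    obtain ⟨U, lb, L, hS, hI, -⟩ := fam ‖y‖ (norm_nonneg y)
    exact ⟨U y, (hI y _ le_rfl).2 (hS.sol y)⟩
  choose V hV using ex
  refine ⟨V, hV, fun y u hu => ?_, fun y z y' z' h => ?_, fun q => ?_⟩
  · obtain ⟨U, lb, L, hS, hI, -⟩ := fam ‖y‖ (norm_nonneg y)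
    rw [hS.uniq y u ((hI y _ le_rfl).1 hu), hS.uniq y _ ((hI y _ le_rfl).1 (hV y))]
  · obtain ⟨U, lb, L, hS, hI, -⟩ := fam (‖y‖ + ‖y'‖) (by positivity)
    rw [hS.uniq y _ ((hI y _ (le_add_of_nonneg_right (norm_nonneg _))).1 (hV y)),
      hS.uniq y' _ ((hI y' _ (le_add_of_nonneg_left (norm_nonneg _))).1 (hV y'))] at h
    exact hS.inj y z y' z' h
  · obtain ⟨U, lb, L, hS, hI, hb⟩ := fam (‖q‖ + C₂) (by positivity)
    obtain ⟨y, z, hq⟩ := hS.surj q
    have h1 := coord (hb y z)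
    rw [hq] at h1
    have h2 := PiLp.norm_apply_le q 1
    have h3 := norm_le_insert (q 1) y
    refine ⟨y, z, ?_⟩
    rw [hS.uniq y _ ((hI y _ (by linarith)).1 (hV y)), hq]

end

end Pool.Agent.MP_be5fd0_gt.T

namespace Pool.Agent.MP_be5fd0_gt.T

open Complex Filter Topology Set Metric MeasureTheory
open scoped ContDiff BoundedContinuousFunction

namespace Per'

theorem mk_add (a b c d : ℂ) : mk (a + c) (b + d) = mk a b + mk c d := by
  ext i; fin_cases i <;> simp [mk]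

theorem isG_zero : IsG 0 := ⟨0, 0, by simp⟩

theorem cont_mk : Continuous fun p : ℂ => mk p 0 := by
  unfold mk; fun_prop

theorem near (z : ℂ) : ∃ n, IsG n ∧ ‖z - n‖ ≤ 1 := by
  refine ⟨round z.re + round z.im * I, ⟨_, _, rfl⟩, (norm_le_abs_re_add_abs_im _).trans ?_⟩
  have a := abs_sub_round z.re
  have b := abs_sub_round z.im
  simp only [sub_re, add_re, intCast_re, mul_re, I_re, intCast_im, I_im, sub_im, add_im, mul_im]
  norm_num
  linarith

theorem bdd (hS : StSw) {X : Type} [NormedAddCommGroup X] {f : E → X} (hf : Continuous f)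
    (hp : ∀ x n, Lat n → f (x + n) = f x) : ∃ C : ℝ, ∀ x, ‖f x‖ ≤ C := by
  obtain ⟨C, hC⟩ := (isCompact_closedBall (0 : E) 2).exists_bound_of_continuousOn hf.continuousOn
  refine ⟨C, fun x => ?_⟩
  obtain ⟨n, a, b⟩ := near (x 0)
  obtain ⟨m, c, d⟩ := near (x 1)
  have e : x = mk (x 0 - n) (x 1 - m) + mk n m := by
    ext i; fin_cases i <;> simp [mk]
  rw [e, hp _ _ ⟨a, c⟩]
  refine hC _ (mem_closedBall_zero_iff.2 ?_)
  linarith [hS.2.2.2.2.2.2.2.2.2.2.2.1 (x 0 - n) (x 1 - m)]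

/-- the first coordinate -/
noncomputable def p0 : E →L[ℝ] ℂ := (EuclideanSpace.proj (𝕜 := ℂ) (0 : Fin 2)).restrictScalars ℝ

theorem fld (hS : StSw) {B : E → Op} {a : ℝ} (R : ℝ) (hB : ContDiff ℝ ∞ B)
    (h1 : ∀ q w, B q (I • w) = -(I • B q w)) (a0 : 0 ≤ a) (a1 : a < 1) (h2 : ∀ q, ‖B q‖ ≤ a)
    (h3 : ∀ q n, Lat n → B (q + n) = B q) : ∃ (χ : ℂ → ℝ) (M R' : ℝ), (∀ z, ‖z‖ ≤ R → χ z = 1) ∧
      ∀ c : E, Fld (fun q => χ (q 0) • B (q + c)) a M R' := by
  let χ : ContDiffBump (0 : ℂ) := ⟨max R 1, max R 1 + 1, by positivity, by linarith⟩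
  have s0 : ContDiff ℝ ∞ fun q : E => χ (p0 q) := χ.contDiff.comp p0.contDiff
  have b1 : ∀ i : ℕ, ∃ C, ∀ q, ‖iteratedFDeriv ℝ i (fun q : E => χ (p0 q)) q‖ ≤ C := fun i => by
    obtain ⟨C, hC⟩ := ((χ.contDiff (n := ⊤)).continuous_iteratedFDeriv (m := i)
      (mod_cast le_top)).bounded_above_of_compact_support (χ.hasCompactSupport.iteratedFDeriv i)
    refine ⟨C * ‖p0‖ ^ i, fun q => ?_⟩
    have := p0.iteratedFDeriv_comp_right (χ.contDiff (n := ⊤)) q (i := i) (mod_cast le_top)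
    rw [show (fun q : E => χ (p0 q)) = χ ∘ p0 from rfl, this]
    refine (ContinuousMultilinearMap.norm_compContinuousLinearMap_le _ _).trans ?_
    rw [Finset.prod_const, Finset.card_univ, Fintype.card_fin]
    exact mul_le_mul_of_nonneg_right (hC _) (by positivity)
  have b2 : ∀ i : ℕ, ∃ C, ∀ q, ‖iteratedFDeriv ℝ i B q‖ ≤ C := fun i =>
    bdd hS (hB.continuous_iteratedFDeriv (mod_cast le_top)) fun x n hn => by
      rw [← iteratedFDeriv_comp_add_right, funext fun q => h3 q n hn]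
  choose C hC using b1
  choose D hD using b2
  refine ⟨χ, ∑ k ∈ Finset.range 4, ∑ i ∈ Finset.range (k + 1), (k.choose i : ℝ) * C i * D (k - i),
    max R 1 + 1, fun z hz => χ.one_of_mem_closedBall
      (mem_closedBall_zero_iff.2 (hz.trans (le_max_left _ _))), fun c => ?_⟩
  have s1 : ContDiff ℝ ∞ fun q => B (q + c) := hB.comp (contDiff_id.add contDiff_const)
  refine ⟨s0.smul s1, fun q w => ?_, a0, a1, by positivity, fun q => ?_, fun k hk q => ?_,
    fun q hq => ?_⟩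
  · simp only [smul_apply, h1, smul_neg, smul_comm (χ (q 0)) I]
  · rw [norm_smul, Real.norm_of_nonneg χ.nonneg]
    exact (mul_le_of_le_one_left (norm_nonneg _) χ.le_one).trans (h2 _)
  · refine (norm_iteratedFDeriv_smul_le s0 s1 q (n := k) (mod_cast le_top)).trans
      (le_trans ?_ (Finset.single_le_sum (f := fun k => ∑ i ∈ Finset.range (k + 1),
        (k.choose i : ℝ) * C i * D (k - i)) (fun k _ => Finset.sum_nonneg fun i _ => ?_)
        (Finset.mem_range.2 (Nat.lt_succ_of_le hk))))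
    · refine Finset.sum_le_sum fun i _ => ?_
      rw [iteratedFDeriv_comp_add_right]
      have := (norm_nonneg _).trans (hC i q)
      gcongr
      exacts [hC i q, hD _ _]
    · have := (norm_nonneg _).trans (hC i q)
      have := (norm_nonneg _).trans (hD (k - i) q)
      positivity
  · rw [χ.zero_of_le_dist (by rwa [dist_zero_right])]
    ext1 w; simp only [smul_apply, zero_smul, zero_apply]

end Per'

open Per' in
theorem thPer (hS : StSw) (hA : StAp) (hC : StConv) (hT : StTriv) (hF : StFolW) : StPer := by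
  intro B a R hB h1 a0 a1 h2 h3
  obtain ⟨χ, M, R', c1, hf⟩ := fld hS R hB h1 a0 a1 h2 h3
  obtain ⟨F, hF0⟩ : ∃ F : ℂ → ℝ → E → Op, F = fun p s =>
    max 0 (min 1 s) • fun q : E => χ (q 0) • B (q + mk p 0) := ⟨_, rfl⟩
  have f1 : ∀ p s, Fld (F p s) a M R' := fun p s => by
    rw [hF0]
    exact hS.2.2.2.2.2.2.2.1 _ _ _ _ _ ⟨le_max_left _ _, max_le zero_le_one (min_le_left _ _)⟩ (hf _)
  choose U u1 u2 u3 u4 using fun p s => hF _ _ _ _ (f1 p s)
  obtain ⟨C, -, hb⟩ := hA a M R'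
  refine ⟨C, U, continuous_iff_seqContinuous.2 fun t t₀ ht => ?_,
    fun p s y => (hb _ _ _ (f1 p s) (u1 p s y)).b0, u3, u4, fun p n hn => ?_,
    fun p s y z n hn => ?_, fun p y z => ?_, fun p y => ⟨(u1 p 1 y).c1, fun z hz => ?_⟩⟩
  · refine (hC a M R' (fun n => F (t n).1 (t n).2.1) (F t₀.1 t₀.2.1) (fun n => (t n).2.2.1)
      t₀.2.2.1 (fun n => U (t n).1 (t n).2.1 (t n).2.2.1) (U t₀.1 t₀.2.1 t₀.2.2.1)
      (fun n => f1 _ _) (f1 _ _) (fun q => ?_) ((continuous_snd.snd.fst.tendsto _).comp ht)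
      (fun n => u1 _ _ _) (u2 _ _ _)).1.tendsto_comp (u1 _ _ _).c1.continuous.continuousAt
      ((continuous_snd.snd.snd.tendsto _).comp ht)
    refine (Continuous.tendsto (f := fun t : ℂ × ℝ × ℂ × ℂ => F t.1 t.2.1 q) ?_ _).comp ht
    rw [hF0]
    have k1 := hB.continuous
    have k2 := cont_mk
    simp only [Pi.smul_apply]
    fun_prop
  · funext s y
    refine u2 p s y _ ?_
    have e : F (p + n) s = F p s := by
      rw [hF0]
      simp only
      congr 1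
      funext q
      rw [← add_zero (0 : ℂ), mk_add, ← add_assoc, h3 _ (mk n 0) ⟨hn, isG_zero⟩, add_zero]
    exact e ▸ u1 (p + n) s y
  · refine (congrFun (u2 p s (y + n) (fun z => U p s y z + mk 0 n)
      ⟨(u1 p s y).c1.add contDiff_const, fun z => ?_, (u1 p s y).asy.congr fun z => ?_⟩) z).symm
    · have e : F p s (U p s y z + mk 0 n) = F p s (U p s y z) := by
        rw [hF0]
        simp only [Pi.smul_apply]
        rw [add_right_comm, h3 _ (mk 0 n) ⟨isG_zero, hn⟩]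
        simp only [mk, Fin.isValue, PiLp.add_apply, Matrix.cons_val_zero, add_zero]
      rw [e, dbar, del, fderiv_add_const]
      exact (u1 p s y).eq z
    · rw [← add_zero z, mk_add, add_zero, add_sub_add_right_eq_sub]
  · exact congrFun (hT.1 _ _ _ (u1 p 0 y) fun z => by ext1 w; simp only [hF0, Fin.isValue, Pi.smul_apply, zero_le_one, inf_of_le_right, max_self, smul_apply, zero_smul, zero_apply]) z
  · rw [(u1 p 1 y).eq z, hF0]
    simp only [min_self, zero_le_one, sup_of_le_right, Fin.isValue, Pi.smul_apply, c1 _ hz, one_smul]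

end Pool.Agent.MP_be5fd0_gt.T

namespace Pool.Agent.MP_be5fd0_gt.T

open Complex Filter Topology Set Metric MeasureTheory
open scoped ContDiff BoundedContinuousFunction

noncomputable section

namespace Htp'

theorem isG_zero : IsG 0 := ⟨0, 0, by simp⟩

theorem lat_va : Lat va := ⟨by simpa [va, mk] using isG_zero, ⟨1, 0, by simp [va, mk]⟩⟩
theorem lat_vb : Lat vb := ⟨by simpa [vb, mk] using isG_zero, ⟨1, 1, by simp [vb, mk]⟩⟩
theorem lat_vc : Lat vc := ⟨by simpa [vc, mk] using isG_zero, ⟨0, 1, by simp [vc, mk]⟩⟩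

theorem ne_va (s : ℝ) : s • vc ≠ va := by
  intro h
  have h1 := congrArg (fun q : E => (q 1).re) h
  simp [va, vc, mk] at h1

theorem ne_vb (s : ℝ) : s • vc ≠ vb := by
  intro h
  have h1 := congrArg (fun q : E => (q 1).re) h
  simp [vb, vc, mk] at h1

/-- the segment map of an injective equivariant map is admissible -/
theorem adm_dseg {f : E → E} (he : Eqv f) (hi : Function.Injective f) : Adm (Dseg f) where
  per := fun x s n hn => by
    simp only [Dseg]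
    rw [add_right_comm, he _ n hn, he _ n hn]; abel
  zero := fun x => by simp [Dseg]
  one := fun x => by
    simp only [Dseg, one_smul]
    rw [he _ _ lat_vc]; abel
  ne := fun x s _ => by
    have key : ∀ v, Lat v → Dseg f (x, s) = v → s • vc = v := by
      intro v hv h
      simp only [Dseg] at h
      have h2 : f (x + s • vc) = f (x + v) := by rw [he _ _ hv, ← h]; abel
      exact add_left_cancel (hi h2)
    exact ⟨fun h => ne_va s (key _ lat_va h), fun h => ne_vb s (key _ lat_vb h)⟩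

theorem eqv_comp {f g : E → E} (hf : Eqv f) (hg : Eqv g) : Eqv (fun x => f (g x)) :=
  fun x n hn => by
    show f (g (x + n)) = f (g x) + n
    rw [hg x n hn, hf _ n hn]

theorem symm (D D' : E × ℝ → E) (h : Htp D D') : Htp D' D := by
  obtain ⟨G, hc, h0, h1, ha⟩ := h
  refine ⟨fun p => G (1 - p.1, p.2), by fun_prop, fun p => by simpa using h1 p,
    fun p => by simpa using h0 p, fun t ht => ?_⟩
  exact ha (1 - t) ⟨by linarith [ht.2], by linarith [ht.1]⟩

theorem trans (D D' D'' : E × ℝ → E) (h : Htp D D') (h' : Htp D' D'') : Htp D D'' := by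
  obtain ⟨G, hc, h0, h1, ha⟩ := h
  obtain ⟨G', hc', h0', h1', ha'⟩ := h'
  refine ⟨fun p => if p.1 ≤ 1 / 2 then G (2 * p.1, p.2) else G' (2 * p.1 - 1, p.2), ?_,
    fun p => ?_, fun p => ?_, fun t ht => ?_⟩
  · refine Continuous.if_le (by fun_prop) (by fun_prop) continuous_fst continuous_const ?_
    intro p hp
    rw [hp]
    norm_num [h1, h0']
  · simp [h0]
  · norm_num [h1']
  · by_cases h : t ≤ 1 / 2
    · simp only [h, if_true]
      exact ha (2 * t) ⟨by linarith only [ht.1], by linarith only [h]⟩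
    · simp only [h, if_false]
      exact ha' (2 * t - 1) ⟨by linarith [not_le.1 h], by linarith only [ht.2]⟩

theorem seg (φ μ : E → E) (hφ : Dif φ) (hμ : IsoId μ) :
    Htp (Dseg φ) (Dseg (fun x => φ (μ x))) := by
  obtain ⟨g, hc, h0, h1, ha⟩ := hμ
  have hφc := hφ.smooth.continuous
  refine ⟨fun p => Dseg (fun x => φ (g (p.1, x))) p.2, ?_, fun p => ?_, fun p => ?_,
    fun t ht => ?_⟩
  · simp only [Dseg]
    fun_prop
  · simp only [Dseg, h0]
  · simp only [Dseg, h1]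
  · exact adm_dseg (eqv_comp hφ.eqv (ha t ht).1) (hφ.inj.comp (ha t ht).2)

theorem dif_comp (f g : E → E) (hf : Dif f) (hg : Dif g) : Dif (fun x => f (g x)) where
  smooth := hf.smooth.comp hg.smooth
  eqv := eqv_comp hf.eqv hg.eqv
  inj := hf.inj.comp hg.inj
  dinj := fun x => by
    have h1 : DifferentiableAt ℝ f (g x) := (hf.smooth.differentiable (by simp)) _
    have h2 : DifferentiableAt ℝ g x := (hg.smooth.differentiable (by simp)) _
    rw [fderiv_fun_comp x h1 h2]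
    exact (hf.dinj (g x)).comp (hg.dinj x)

theorem iso_comp (f g : E → E) (hf : IsoId f) (hg : IsoId g) : IsoId (fun x => f (g x)) := by
  obtain ⟨a, hc, h0, h1, ha⟩ := hf
  obtain ⟨b, hc', h0', h1', hb⟩ := hg
  refine ⟨fun p => a (p.1, b p), by fun_prop, fun x => by simp only [h0, h0'],
    fun x => by simp only [h1, h1'], fun t ht => ?_⟩
  exact ⟨eqv_comp (ha t ht).1 (hb t ht).1, (ha t ht).2.comp (hb t ht).2⟩

theorem dif_id : Dif id where
  smooth := contDiff_id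
  eqv := fun _ _ _ => rfl
  inj := Function.injective_id
  dinj := fun x => by rw [fderiv_id]; exact Function.injective_id

theorem iso_id : IsoId id :=
  ⟨fun p => p.2, continuous_snd, fun _ => rfl, fun _ => rfl,
    fun _ _ => ⟨fun _ _ _ => rfl, Function.injective_id⟩⟩

theorem near_g (z : ℂ) : ∃ n, IsG n ∧ ‖z - n‖ ^ 2 ≤ 1 / 2 := by
  refine ⟨(round z.re : ℤ) + (round z.im : ℤ) * I, ⟨_, _, rfl⟩, ?_⟩
  have h1 := abs_le.1 (abs_sub_round z.re)
  have h2 := abs_le.1 (abs_sub_round z.im)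
  rw [Complex.sq_norm, Complex.normSq_apply]
  simp only [sub_re, add_re, intCast_re, mul_re, I_re, mul_zero, intCast_im, I_im, mul_one,
    sub_self, add_zero, sub_im, add_im, mul_im, zero_add]
  nlinarith only [h1.1, h1.2, h2.1, h2.2]

theorem near (x : E) : ∃ n, Lat n ∧ ‖x - n‖ ≤ 1 := by
  obtain ⟨a, ha, ha'⟩ := near_g (x 0)
  obtain ⟨b, hb, hb'⟩ := near_g (x 1)
  refine ⟨mk a b, ⟨by simpa [mk] using ha, by simpa [mk] using hb⟩, ?_⟩
  have h : ‖x - mk a b‖ ^ 2 = ‖x 0 - a‖ ^ 2 + ‖x 1 - b‖ ^ 2 := by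
    rw [EuclideanSpace.norm_sq_eq]
    simp [mk, Fin.sum_univ_two]
  nlinarith only [ha', hb', h]

theorem bdd (X : Type) [NormedAddCommGroup X] (f : E → X) (hf : Continuous f)
    (hp : ∀ x n, Lat n → f (x + n) = f x) : ∃ C : ℝ, ∀ x, ‖f x‖ ≤ C := by
  obtain ⟨C, hC⟩ := (isCompact_closedBall (0 : E) 1).exists_bound_of_continuousOn hf.continuousOn
  refine ⟨C, fun x => ?_⟩
  obtain ⟨n, hn, hx⟩ := near x
  have h := hp (x - n) n hn
  rw [sub_add_cancel] at h
  rw [h]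
  exact hC _ (by simpa only [mem_closedBall, dist_zero_right] using hx)

end Htp'

theorem thHtp : StHtp :=
  ⟨Htp'.symm, Htp'.trans, Htp'.seg, Htp'.dif_comp, Htp'.iso_comp, Htp'.dif_id, Htp'.iso_id,
    Htp'.bdd, Htp'.near⟩

end

end Pool.Agent.MP_be5fd0_gt.T
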