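import Pool.Agent.MP_be5fd0_gt.H27.Defs

attribute [-instance] continuousAdd_of_discreteTopology TotallySeparatedSpace.t2Space
  RightPreLieAlgebra.toModule LeftPreLieAlgebra.toModule ContinuousLinearMap.toSeminormedRing
  RKHS.instFunLike Action.FintypeCat.instMulActionObjFiniteOf
  NonarchimedeanAddGroup.toIsTopologicalAddGroup IsTopologicalSemiring.toContinuousAdd
  LieAdmissibleAlgebra.toSMulCommClass LieAdmissibleAlgebra.toIsScalarTower
  NonUnitalNonAssocSemiring.toDistrib NonUnitalNonAssocSemiring.toAddCommMonoid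
  ProperSMul.toContinuousSMul LeftPreLieAlgebra.toSMulCommClass RightPreLieAlgebra.toIsScalarTower
  RightPreLieAlgebra.toSMulCommClass Valued.toUniformSpace LeftPreLieAlgebra.toIsScalarTower
  ESeminormedAddMonoid.toAddMonoid IsTopologicalTorsor.toContinuousSMul
  NonUnitalNonAssocRing.toAddCommGroup littleWedderburn ESeminormedAddCommMonoid.toAddCommMonoid
  Finite.instDiscreteTopology CoalgHomClass.toSemilinearMapClass NonAssocRing.toNonUnitalNonAssocRing
  SemilinearIsometryClass.toSemilinearMapClass IdemSemiring.toCanonicallyOrderedAdd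
  NonUnitalNonAssocSemiring.toMulZeroClass AddQuantale.instAddLeftMono
  LieRinehartAlgebra.toIsScalarTower NonUnitalAlgSemiHomClass.toDistribMulActionSemiHomClass
  Group.IsPerfect.subsingleton_of_isMulCommutative NormedCommRing.toCommRing
  MulSemiringAction.toDistribMulAction IdemSemiring.toSemiring RingHomClass.toLinearMapClassNNRat
  NonUnitalSeminormedRing.toPseudoMetricSpace MonoidWithZeroHomClass.toZeroHomClass
  RingHomClass.toLinearMapClassRat EuclideanDomain.toCommRing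
  PositiveLinearMap.instContinuousLinearMapClassComplexOfLinearMapClassOfOrderHomClass
  AddCommMonoidWithOne.toAddCommMonoid NumberField.to_charZero
  IsValuativeTopology.instIsTopologicalAddGroup SeminormedCommRing.toCommRing
  AlgHom.instContinuousLinearMapClassOfAlgHomClass AddCommGroupWithOne.toAddGroupWithOne
  NormedDivisionRing.toNormedRing LinearOrderedAddCommMonoidWithTop.toAddCommMonoid
  BooleanRing.toCommRing Algebra.toModule Unique.instSubsingleton continuousSub_of_discreteTopology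
  NonAssocSemiring.toNonUnitalNonAssocSemiring NonUnitalCStarAlgebra.toNonUnitalNormedRing
  covariant_swap_mul_of_covariant_mul AddCommGroupWithOne.toAddCommGroup instIsModuleTopology
  BooleanRing.toRing GrpTypeEquivalenceGrp.grpGroup
  SemilinearIsometryClass.toContinuousSemilinearMapClass GroupWithZero.toMonoidWithZero
  NonUnitalNormedCommRing.toNonUnitalSeminormedCommRing LieAdmissibleRing.instLieRing
  TestFunctionClass.toDFunLike MonTypeEquivalenceMon.monMonoid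
  instUCompactlyGeneratedSpaceOfDiscreteTopology AddQuantale.instAddRightMono
  LieAdmissibleRing.toNonUnitalNonAssocRing ContDiffMapSupportedInClass.toDFunLike
  SeminormedRing.toNonUnitalSeminormedRing LinearOrderedCommMonoidWithZero.toIsBotZeroClass
  NormedDivisionRing.toDivisionRing NonUnitalRing.toNonUnitalNonAssocRing
  IsIsometricSMul.to_continuousConstSMul instIndiscreteTopology CommMonoidWithZero.toMonoidWithZero
  MulSemiringActionSemiHomClass.toDistribMulActionSemiHomClass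
  LinearOrderedAddCommGroupWithTop.toAddCommMonoid LinearOrderedCommMonoidWithZero.toPosMulStrictMono
  IdemCommSemiring.toCommSemiring Bialgebra.toAlgebra instSMulZeroClass

/-! Back to the torus: homotopies and the approximate Moser argument. -/

namespace Pool.Agent.MP_be5fd0_gt.T

open Complex Filter Topology Set Metric MeasureTheory
open scoped ContDiff BoundedContinuousFunction

noncomputable section

namespace J'

/-- multiplication by `I` as a real linear map -/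
def Jm : Op := (I • ContinuousLinearMap.id ℂ E).restrictScalars ℝ

theorem Jm_apply (v : E) : Jm v = I • v := by simp [Jm]

def Pp (D : Op) : Op := (1 / 2 : ℝ) • (D - Jm * D * Jm)
def Qj (D : Op) : Op := (1 / 2 : ℝ) • (D + Jm * D * Jm)

theorem Pp_apply (D : Op) (v : E) : Pp D v = (1 / 2 : ℂ) • (D v - I • D (I • v)) := by
  have h : (1 / 2 : ℂ) = ((1 / 2 : ℝ) : ℂ) := by norm_num
  rw [h, ofReal_smul']
  simp only [Pp, one_div, smul_apply, sub_apply, mul_apply_eq_comp, Jm_apply]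

theorem Qj_apply (D : Op) (v : E) : Qj D v = (1 / 2 : ℂ) • (D v + I • D (I • v)) := by
  have h : (1 / 2 : ℂ) = ((1 / 2 : ℝ) : ℂ) := by norm_num
  rw [h, ofReal_smul']
  simp only [Qj, one_div, smul_add, add_apply, smul_apply, mul_apply_eq_comp, Jm_apply]

theorem II (v : E) : I • I • v = -v := by rw [smul_smul, I_mul_I]; simp

theorem Pp_I (D : Op) (v : E) : Pp D (I • v) = I • Pp D v := by
  rw [Pp_apply, Pp_apply, II, map_neg]
  match_scalars
  · linear_combination (1 / 2 : ℂ) * I_sq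
  · ring

theorem Qj_I (D : Op) (v : E) : Qj D (I • v) = -(I • Qj D v) := by
  rw [Qj_apply, Qj_apply, II, map_neg]
  match_scalars
  · linear_combination (1 / 2 : ℂ) * I_sq
  · ring

theorem PQ (D : Op) (v : E) : D v = Pp D v + Qj D v := by
  rw [Pp_apply, Qj_apply]; module

theorem om0_eq (a b : E) : om0 (a + b) (I • a + -(I • b)) = ‖a‖ ^ 2 - ‖b‖ ^ 2 := by
  rw [EuclideanSpace.norm_sq_eq, EuclideanSpace.norm_sq_eq]
  simp only [om0, Fin.sum_univ_two, Complex.sq_norm, normSq_apply, PiLp.add_apply,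
    PiLp.neg_apply, PiLp.smul_apply, smul_eq_mul, add_re, add_im, neg_re, neg_im, mul_re, mul_im,
    I_re, I_im]
  ring

theorem lt_of_tame {D : Op} (h : ∀ v, v ≠ 0 → 0 < om0 (D v) (D (I • v))) {v : E} (hv : v ≠ 0) :
    ‖Qj D v‖ < ‖Pp D v‖ := by
  have h1 := h v hv
  rw [PQ D v, PQ D (I • v), Pp_I, Qj_I, om0_eq] at h1
  exact lt_of_pow_lt_pow_left₀ 2 (norm_nonneg _) (by linarith)

theorem unit_of_inj {D : Op} (h : Function.Injective D) : IsUnit D := by
  rw [ContinuousLinearMap.isUnit_iff_bijective]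
  exact ⟨h, (LinearMap.injective_iff_surjective (f := (D : E →ₗ[ℝ] E))).1 h⟩

theorem unit_P {D : Op} (h : ∀ v, v ≠ 0 → 0 < om0 (D v) (D (I • v))) : IsUnit (Pp D) := by
  refine unit_of_inj ((injective_iff_map_eq_zero _).2 fun v hv => ?_)
  by_contra h0
  have := lt_of_tame h h0
  rw [hv, norm_zero] at this
  exact absurd this (not_lt.2 (norm_nonneg _))

def Bb (D : Op) : Op := Qj D * Ring.inverse (Pp D)

theorem Bb_P {D : Op} (h : IsUnit (Pp D)) (v : E) : Bb D (Pp D v) = Qj D v := by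
  have : Bb D * Pp D = Qj D := by
    rw [Bb, mul_assoc, Ring.inverse_mul_cancel _ h, mul_one]
  rw [← this]; rfl

theorem surj_P {D : Op} (h : IsUnit (Pp D)) (w : E) : ∃ v, Pp D v = w :=
  (ContinuousLinearMap.isUnit_iff_bijective.1 h).2 w

theorem Bb_I {D : Op} (h : IsUnit (Pp D)) (w : E) : Bb D (I • w) = -(I • Bb D w) := by
  obtain ⟨v, rfl⟩ := surj_P h w
  rw [← Pp_I, Bb_P h, Bb_P h, Qj_I]

theorem Bb_lt {D : Op} (h : ∀ v, v ≠ 0 → 0 < om0 (D v) (D (I • v))) {w : E} (hw : ‖w‖ = 1) :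
    ‖Bb D w‖ < 1 := by
  obtain ⟨v, rfl⟩ := surj_P (unit_P h) w
  rw [Bb_P (unit_P h), ← hw]
  refine lt_of_tame h fun h0 => ?_
  rw [h0, map_zero, norm_zero] at hw
  exact zero_ne_one hw

theorem contDiff_P : ContDiff ℝ ∞ Pp :=
  (contDiff_id.sub ((contDiff_const.mul contDiff_id).mul contDiff_const)).const_smul _

theorem contDiff_Q : ContDiff ℝ ∞ Qj :=
  (contDiff_id.add ((contDiff_const.mul contDiff_id).mul contDiff_const)).const_smul _

theorem contDiffAt_B {D : Op} (h : IsUnit (Pp D)) : ContDiffAt ℝ ∞ Bb D := by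
  obtain ⟨U, hU⟩ := h
  have h1 : ContDiffAt ℝ ∞ (Ring.inverse : Op → Op) (Pp D) := by
    rw [← hU]; exact contDiffAt_ringInverse ℝ U
  exact contDiff_Q.contDiffAt.mul (h1.comp D contDiff_P.contDiffAt)

theorem fderiv_per {ψ : E → E} (h : Eqv ψ) (x n : E) (hn : Lat n) :
    fderiv ℝ ψ (x + n) = fderiv ℝ ψ x := by
  rw [← fderiv_comp_add_right]
  have : (fun y => ψ (y + n)) = fun y => ψ y + n := funext fun y => h y n hn
  rw [this, fderiv_add_const]

theorem exists_inv {ψ : E → E} (h : Dif ψ) {C : ℝ} (hC : ∀ x, ‖ψ x - x‖ ≤ C) :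
    ∃ ψ' : E → E, ContDiff ℝ ∞ ψ' ∧ (∀ x, ψ' (ψ x) = x) ∧ ∀ q, ψ (ψ' q) = q := by
  have hu : ∀ x, ∃ L : E ≃L[ℝ] E, (L : E →L[ℝ] E) = fderiv ℝ ψ x := fun x => by
    obtain ⟨U, hU⟩ := unit_of_inj (h.dinj x)
    exact ⟨ContinuousLinearEquiv.ofUnit U, hU⟩
  choose L hL using hu
  have hs : ∀ x, HasStrictFDerivAt ψ (L x : E →L[ℝ] E) x := fun x => by
    rw [hL]; exact h.smooth.contDiffAt.hasStrictFDerivAt (by simp)
  have ho : IsOpenMap ψ := isOpenMap_of_hasStrictFDerivAt_equiv hs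
  have hc := h.smooth.continuous
  have hp : IsProperMap ψ := by
    rw [isProperMap_iff_tendsto_cocompact]
    refine ⟨hc, ?_⟩
    rw [← Metric.cobounded_eq_cocompact, ← tendsto_norm_atTop_iff_cobounded]
    refine tendsto_atTop_mono (f := fun x : E => ‖x‖ + -C) (fun x => ?_)
      (tendsto_atTop_add_const_right _ _ tendsto_norm_cobounded_atTop)
    have h1 := norm_sub_le (ψ x) (ψ x - x)
    rw [sub_sub_cancel] at h1
    linarith [hC x]
  have hr : range ψ = univ :=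
    IsClopen.eq_univ ⟨hp.isClosedMap.isClosed_range, ho.isOpen_range⟩ (range_nonempty _)
  let e : E ≃ₜ E :=
    (Equiv.ofBijective ψ ⟨h.inj, range_eq_univ.1 hr⟩).toHomeomorphOfContinuousOpen hc ho
  have he : (e : E → E) = ψ := rfl
  refine ⟨e.symm, ?_, fun x => e.symm_apply_apply x, fun q => e.apply_symm_apply q⟩
  exact e.contDiff_symm (f₀' := L) (fun x => (hs x).hasFDerivAt) h.smooth

theorem del_comp {D : Op} {u v : ℂ → E} {z : ℂ} (h : fderiv ℝ u z = D.comp (fderiv ℝ v z)) :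
    del u z = Pp D (del v z) + Qj D (dbar v z) ∧ dbar u z = Qj D (del v z) + Pp D (dbar v z) := by
  have h1 : fderiv ℝ v z 1 = del v z + dbar v z := by rw [fderiv_eq_del]; simp
  have h2 : fderiv ℝ v z I = I • del v z + -(I • dbar v z) := by rw [fderiv_eq_del]; simp
  have h3 : fderiv ℝ u z 1 = Pp D (del v z) + Qj D (del v z) +
      (Pp D (dbar v z) + Qj D (dbar v z)) := by
    rw [h, ContinuousLinearMap.comp_apply, h1, map_add, ← PQ, ← PQ]
  have h4 : fderiv ℝ u z I = I • Pp D (del v z) + -(I • Qj D (del v z)) +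
      -(I • Pp D (dbar v z) + -(I • Qj D (dbar v z))) := by
    rw [h, ContinuousLinearMap.comp_apply, h2, map_add, map_neg, ← Pp_I, ← Pp_I, ← Qj_I, ← Qj_I,
      ← PQ, ← PQ]
  generalize del v z = a at *
  generalize dbar v z = b at *
  rw [del, dbar, h3, h4]
  simp only [smul_add, smul_neg, II]
  constructor <;> module

end J'

open J' in
theorem thJ (hH : StHtp) : StJ := by
  intro ψ hD hT
  obtain ⟨-, -, -, -, -, -, -, hbd, hcell⟩ := hH
  obtain ⟨C, hC⟩ := hbd E (fun x => ψ x - x) (hD.smooth.continuous.sub continuous_id)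
    (fun x n hn => by rw [hD.eqv x n hn]; abel)
  obtain ⟨ψ', hs, hl, hr⟩ := exists_inv hD hC
  have he : Eqv ψ' := fun q n hn => by
    have := hl (ψ' q + n)
    rwa [hD.eqv _ n hn, hr] at this
  have hU : ∀ x, IsUnit (Pp (fderiv ℝ ψ x)) := fun x => unit_P (hT x)
  have hd : ContDiff ℝ ∞ (fderiv ℝ ψ) := hD.smooth.fderiv_right (by simp)
  have hB : ContDiff ℝ ∞ fun x => Bb (fderiv ℝ ψ x) :=
    contDiff_iff_contDiffAt.2 fun x => (contDiffAt_B (hU x)).comp x hd.contDiffAt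
  have hK : IsCompact (closedBall (0 : E) 1 ×ˢ sphere (0 : E) 1) :=
    (isCompact_closedBall _ _).prod (isCompact_sphere _ _)
  have hne : (closedBall (0 : E) 1 ×ˢ sphere (0 : E) 1).Nonempty :=
    Nonempty.prod ⟨0, by simp only [mem_closedBall, dist_self, zero_le_one]⟩ (NormedSpace.sphere_nonempty (E := E).2 zero_le_one)
  have hcont : Continuous fun p : E × E => ‖Bb (fderiv ℝ ψ p.1) p.2‖ :=
    ((hB.continuous.comp continuous_fst).clm_apply continuous_snd).norm
  obtain ⟨p, hp, hmax⟩ := hK.exists_isMaxOn hne hcont.continuousOn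
  have ha : ‖Bb (fderiv ℝ ψ p.1) p.2‖ < 1 := Bb_lt (hT p.1) (by simpa using hp.2)
  have hle : ∀ x, ‖Bb (fderiv ℝ ψ x)‖ ≤ ‖Bb (fderiv ℝ ψ p.1) p.2‖ := fun x => by
    obtain ⟨n, hn, hx⟩ := hcell x
    have : fderiv ℝ ψ x = fderiv ℝ ψ (x - n) := by
      rw [← fderiv_per hD.eqv (x - n) n hn, sub_add_cancel]
    rw [this]
    refine ContinuousLinearMap.opNorm_le_of_unit_norm (norm_nonneg _) fun w hw => ?_
    exact hmax (a := (x - n, w)) ⟨by simpa only [mem_closedBall, dist_zero_right] using hx, by simpa using hw⟩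
  refine ⟨ψ', fun q => Bb (fderiv ℝ ψ (ψ' q)), _, C, hs, hl, hr, he, hC, hB.comp hs,
    fun q w => Bb_I (hU _) w, norm_nonneg _, ha, fun q => hle _, fun q n hn => ?_,
    fun u z hu hz => ?_⟩
  · simp only [he q n hn, fderiv_per hD.eqv _ n hn]
  · have hv : DifferentiableAt ℝ (fun w => ψ' (u w)) z :=
      (hs.differentiable (by simp) _).comp z hu
    have h1 : fderiv ℝ u z =
        (fderiv ℝ ψ (ψ' (u z))).comp (fderiv ℝ (fun w => ψ' (u w)) z) := by
      have h2 : u = fun w => ψ (ψ' (u w)) := funext fun w => (hr _).symm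
      conv_lhs => rw [h2]
      exact fderiv_comp z (hD.smooth.differentiable (by simp) _) hv
    obtain ⟨h3, h4⟩ := del_comp h1
    rw [h3, h4, map_add, Bb_P (hU _), add_right_inj] at hz
    refine (differentiableAt_of_dbar hv ?_).differentiableAt
    by_contra h0
    have h5 := lt_of_tame (hT (ψ' (u z))) h0
    rw [hz] at h5
    have h6 := (Bb (fderiv ℝ ψ (ψ' (u z)))).le_opNorm
      (Qj (fderiv ℝ ψ (ψ' (u z))) (dbar (fun w => ψ' (u w)) z))
    have h7 := mul_le_mul_of_nonneg_right ((hle (ψ' (u z))).trans ha.le)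
      (norm_nonneg (Qj (fderiv ℝ ψ (ψ' (u z))) (dbar (fun w => ψ' (u w)) z)))
    linarith only [h5, h6, h7]

end

end Pool.Agent.MP_be5fd0_gt.T

namespace Pool.Agent.MP_be5fd0_gt.T

open Complex Filter Topology Set Metric MeasureTheory
open scoped ContDiff BoundedContinuousFunction

noncomputable section

namespace GH'

theorem mk0 (a b : ℂ) : mk a b 0 = a := rfl
theorem mk1 (a b : ℂ) : mk a b 1 = b := rfl

theorem ext2 {x y : E} (h0 : x 0 = y 0) (h1 : x 1 = y 1) : x = y := by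
  ext i; fin_cases i
  · exact h0
  · exact h1

theorem cont_mk {X : Type} [TopologicalSpace X] {f g : X → ℂ} (hf : Continuous f)
    (hg : Continuous g) : Continuous fun x => mk (f x) (g x) := by
  have : (fun x => mk (f x) (g x)) = fun x => f x • mk 1 0 + g x • mk 0 1 := by
    funext x
    apply ext2 <;> simp [mk0, mk1]
  rw [this]
  exact (hf.smul continuous_const).add (hg.smul continuous_const)

theorem cont0 : Continuous fun x : E => x 0 := by fun_prop

theorem co_le (q : E) (i : Fin 2) : ‖q i‖ ≤ ‖q‖ := PiLp.norm_apply_le q i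

theorem lat_va : Lat va := ⟨⟨0, 0, by simp [va, mk0]⟩, ⟨1, 0, by simp [va, mk1]⟩⟩
theorem lat_vb : Lat vb := ⟨⟨0, 0, by simp [vb, mk0]⟩, ⟨1, 1, by simp [vb, mk1]⟩⟩
theorem lat_vc : Lat vc := ⟨⟨0, 0, by simp [vc, mk0]⟩, ⟨0, 1, by simp [vc, mk1]⟩⟩

theorem seg0 (x : E) (s : ℝ) : (x + s • vc) 0 = x 0 := by simp [vc, mk0]

theorem seg_ne (x : E) (s : ℝ) : x + s • vc ≠ x + va ∧ x + s • vc ≠ x + vb := by
  constructor <;> intro h
  · have := congrArg (fun q : E => (q 1).re) (add_left_cancel h)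
    simp [vc, va, mk1] at this
  · have := congrArg (fun q : E => (q 1).re) (add_left_cancel h)
    simp [vc, vb, mk1] at this

/-- the inverse of a continuous family of bijections at bounded distance from the identity -/
theorem inv_cont (V : ℂ → ℂ → ℂ → E) (C : ℝ)
    (hc : Continuous fun t : ℂ × ℂ × ℂ => V t.1 t.2.1 t.2.2)
    (hb : ∀ p y z, ‖V p y z - mk z y‖ ≤ C)
    (hi : ∀ p y z y' z', V p y z = V p y' z' → y = y' ∧ z = z')
    (hs : ∀ p q, ∃ y z, V p y z = q) :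
    ∃ Y Z : ℂ × E → ℂ, Continuous Y ∧ Continuous Z ∧ ∀ t, V t.1 (Y t) (Z t) = t.2 := by
  let F : ℂ × ℂ × ℂ → ℂ × E := fun t => (t.1, V t.1 t.2.1 t.2.2)
  have hF : Continuous F := continuous_fst.prodMk hc
  have hbij : Function.Bijective F := by
    constructor
    · rintro ⟨p, y, z⟩ ⟨p', y', z'⟩ h
      obtain ⟨h1, h2⟩ := Prod.ext_iff.mp h
      change p = p' at h1
      subst h1
      obtain ⟨rfl, rfl⟩ := hi p y z y' z' h2
      rfl
    · rintro ⟨p, q⟩
      obtain ⟨y, z, h⟩ := hs p q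
      exact ⟨(p, y, z), Prod.ext rfl h⟩
  have hp : IsProperMap F := by
    refine isProperMap_iff_isCompact_preimage.mpr ⟨hF, fun K hK => ?_⟩
    refine Metric.isCompact_of_isClosed_isBounded (hK.isClosed.preimage hF) ?_
    obtain ⟨r, hr⟩ := hK.isBounded.exists_norm_le
    refine isBounded_iff_forall_norm_le.mpr ⟨r + |C|, fun t ht => ?_⟩
    have h1 := hr _ ht
    have h2 : ‖t.1‖ ≤ r := (norm_fst_le (F t)).trans h1
    have h3 : ‖V t.1 t.2.1 t.2.2‖ ≤ r := (norm_snd_le (F t)).trans h1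
    have h4 : ‖mk t.2.2 t.2.1‖ ≤ r + |C| := by
      have := norm_sub_norm_le (mk t.2.2 t.2.1) (V t.1 t.2.1 t.2.2)
      rw [norm_sub_rev] at this
      linarith [hb t.1 t.2.1 t.2.2, le_abs_self C]
    have h5 : ‖t.2.2‖ ≤ r + |C| := (co_le (mk t.2.2 t.2.1) 0).trans h4
    have h6 : ‖t.2.1‖ ≤ r + |C| := (co_le (mk t.2.2 t.2.1) 1).trans h4
    rw [Prod.norm_def, Prod.norm_def]
    exact max_le (by linarith [abs_nonneg C]) (max_le h6 h5)
  let e := Equiv.ofBijective F hbij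
  have he : Continuous e.symm := by
    refine continuous_iff_isClosed.mpr fun s hs => ?_
    rw [← e.image_eq_preimage_symm]
    exact hp.isClosedMap s hs
  refine ⟨fun t => (e.symm t).2.1, fun t => (e.symm t).2.2, he.snd.fst, he.snd.snd, fun t => ?_⟩
  have h := e.apply_symm_apply t
  have h1 : (e.symm t).1 = t.1 := congrArg Prod.fst h
  have h2 : V (e.symm t).1 (e.symm t).2.1 (e.symm t).2.2 = t.2 := congrArg Prod.snd h
  rwa [h1] at h2

/-- a family of fibrewise embeddings gives an admissible homotopy -/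
theorem htp_of_family (e : ℝ → E → E) (hc : Continuous fun t : ℝ × E => e t.1 t.2)
    (he : ∀ τ x n, Lat n → e τ (x + n) = e τ x + mk 0 (n 1))
    (hi : ∀ τ x x', x 0 = x' 0 → e τ x = e τ x' → x = x') :
    Htp (Dseg (e 0)) (Dseg (e 1)) := by
  refine ⟨fun t => e t.1 (t.2.1 + t.2.2 • vc) - e t.1 t.2.1, ?_, fun p => rfl, fun p => rfl,
    fun τ _ => ⟨fun x s n hn => ?_, fun x => ?_, fun x => ?_, fun x s _ => ⟨fun h => ?_, fun h => ?_⟩⟩⟩
  · exact (hc.comp (continuous_fst.prodMk (continuous_snd.fst.add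
      (continuous_snd.snd.smul continuous_const)))).sub
      (hc.comp (continuous_fst.prodMk continuous_snd.fst))
  · simp only
    rw [add_right_comm x n, he τ _ n hn, he τ _ n hn]
    abel
  · simp
  · simp only [one_smul]
    rw [he τ x vc lat_vc, add_sub_cancel_left]
    rfl
  · refine (seg_ne x s).1 (hi τ _ _ (by simp [vc, va, mk0]) ?_)
    rw [he τ x va lat_va]
    exact (sub_eq_iff_eq_add'.mp h)
  · refine (seg_ne x s).2 (hi τ _ _ (by simp [vc, vb, mk0]) ?_)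
    rw [he τ x vb lat_vb]
    exact (sub_eq_iff_eq_add'.mp h)

/-- the two final linear homotopies -/
theorem htp_graph (hH : StHtp) (z h : E → ℂ) (hz : Continuous z) (hh : Continuous h)
    (ez : ∀ x n, Lat n → z (x + n) = z x) (eh : ∀ x n, Lat n → h (x + n) = h x + n 1)
    (hi : ∀ x x', x 0 = x' 0 → h x = h x' → x = x') :
    Htp (Dseg fun x => mk (z x) (h x)) D0 := by
  have c1 : Continuous fun t : ℝ × E × ℝ => t.2.1 + t.2.2 • vc :=
    continuous_snd.fst.add (continuous_snd.snd.smul continuous_const)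
  have ck : Continuous fun t : ℝ × E × ℝ => (t.1 : ℂ) := continuous_ofReal.comp continuous_fst
  have cs : Continuous fun t : ℝ × E × ℝ => (t.2.2 : ℂ) := continuous_ofReal.comp continuous_snd.snd
  have cw : Continuous fun t : ℝ × E × ℝ => ((t.2.2 * (1 - t.2.2) : ℝ) : ℂ) * I :=
    (continuous_ofReal.comp (continuous_snd.snd.mul
      (continuous_const.sub continuous_snd.snd))).mul continuous_const
  have cdz : Continuous fun t : ℝ × E × ℝ => z (t.2.1 + t.2.2 • vc) - z t.2.1 :=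
    (hz.comp c1).sub (hz.comp continuous_snd.fst)
  have cdh : Continuous fun t : ℝ × E × ℝ => h (t.2.1 + t.2.2 • vc) - h t.2.1 :=
    (hh.comp c1).sub (hh.comp continuous_snd.fst)
  have pz : ∀ x (s : ℝ) n, Lat n → z (x + n + s • vc) - z (x + n) = z (x + s • vc) - z x := by
    intro x s n hn
    rw [add_right_comm x n, ez _ n hn, ez _ n hn]
  have ph : ∀ x (s : ℝ) n, Lat n → h (x + n + s • vc) - h (x + n) = h (x + s • vc) - h x := by
    intro x s n hn
    rw [add_right_comm x n, eh _ n hn, eh _ n hn]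
    ring
  have oz : ∀ x, z (x + vc) - z x = 0 := fun x => by rw [ez x vc lat_vc, sub_self]
  have oh : ∀ x, h (x + vc) - h x = I := fun x => by
    rw [eh x vc lat_vc, add_sub_cancel_left]; rfl
  refine hH.2.1 _ (fun p => mk (((p.2 * (1 - p.2) : ℝ) : ℂ) * I) (h (p.1 + p.2 • vc) - h p.1)) _
    ⟨fun t => mk ((1 - (t.1 : ℂ)) * (z (t.2.1 + t.2.2 • vc) - z t.2.1) +
        (t.1 : ℂ) * (((t.2.2 * (1 - t.2.2) : ℝ) : ℂ) * I)) (h (t.2.1 + t.2.2 • vc) - h t.2.1),
      cont_mk (((continuous_const.sub ck).mul cdz).add (ck.mul cw)) cdh, fun p => ?_, fun p => ?_,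
      fun k _ => ⟨fun x s n hn => ?_, fun x => ?_, fun x => ?_,
        fun x s _ => ⟨fun e => ?_, fun e => ?_⟩⟩⟩
    ⟨fun t => mk (((t.2.2 * (1 - t.2.2) : ℝ) : ℂ) * I)
        ((1 - (t.1 : ℂ)) * (h (t.2.1 + t.2.2 • vc) - h t.2.1) + (t.1 : ℂ) * ((t.2.2 : ℂ) * I)),
      cont_mk cw (((continuous_const.sub ck).mul cdh).add (ck.mul (cs.mul continuous_const))),
      fun p => ?_, fun p => ?_,
      fun k _ => ⟨fun x s n hn => ?_, fun x => ?_, fun x => ?_, fun x s _ => ?_⟩⟩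
  · apply ext2 <;> simp only [Fin.isValue, ofReal_zero, sub_zero, one_mul, ofReal_mul, ofReal_sub, ofReal_one, zero_mul, add_zero, mk0, Dseg, PiLp.sub_apply, mk1]
  · simp
  · simp only [pz x s n hn, ph x s n hn]
  · apply ext2 <;> simp [mk0, mk1]
  · simp only [one_smul, oz, oh]
    simp [vc]
  · refine (seg_ne x s).1 (hi _ _ (by simp [vc, va, mk0]) ?_)
    rw [eh x va lat_va]
    exact sub_eq_iff_eq_add'.mp (congrArg (fun q : E => q 1) e)
  · refine (seg_ne x s).2 (hi _ _ (by simp [vc, vb, mk0]) ?_)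
    rw [eh x vb lat_vb]
    exact sub_eq_iff_eq_add'.mp (congrArg (fun q : E => q 1) e)
  · simp only [ofReal_mul, ofReal_sub, ofReal_one, ofReal_zero, sub_zero, one_mul, zero_mul, add_zero]
  · simp only [ofReal_mul, ofReal_sub, ofReal_one, sub_self, zero_mul, one_mul, zero_add, D0]
  · simp only [ph x s n hn]
  · apply ext2 <;> simp [mk0, mk1]
  · simp only [one_smul, oh]
    apply ext2
    · simp [mk0, vc]
    · simp only [mk1, vc, ofReal_one]
      ring
  · have key : ∀ w : E, w 0 = 0 → (w 1).re = 1 →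
        mk (((s * (1 - s) : ℝ) : ℂ) * I)
          ((1 - (k : ℂ)) * (h (x + s • vc) - h x) + (k : ℂ) * ((s : ℂ) * I)) ≠ w := by
      intro w w0 w1 e
      rw [← e] at w0 w1
      simp only [mk0, mk1] at w0 w1
      have : s * (1 - s) = 0 := by
        rcases mul_eq_zero.mp w0 with a | a
        · exact_mod_cast a
        · exact absurd a I_ne_zero
      rcases mul_eq_zero.mp this with a | a
      · subst a; simp at w1
      · have : s = 1 := by linarith only [a]
        subst this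
        rw [one_smul, oh] at w1
        simp at w1
    exact ⟨key va rfl (by simp [va, mk1]), key vb rfl (by simp [vb, mk1])⟩

end GH'

open GH' in
theorem thGH (hQ : StQ1) (hH : StHtp) (hJ : StJ) (hP : StPer) : StGH := by
  intro ψ hD hT
  obtain ⟨ψ', B, a, C, sψ', li, ri, -, bψ, sB, aB, a0, a1, nB, pB, hol⟩ := hJ ψ hD hT
  obtain ⟨C', U, cU, bU, iU, sU, pU, eU, zU, rU⟩ := hP B a (C + 1) sB aB a0 a1 nB pB
  obtain ⟨Y, Z, cY, cZ, hYZ⟩ := inv_cont (fun p => U p 1) C'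
    (cU.comp (continuous_fst.prodMk (continuous_const.prodMk continuous_snd)))
    (fun p => bU p 1) (fun p => iU p 1) (fun p => sU p 1)
  have cq : Continuous fun x : E => (x 0, ψ x - mk (x 0) 0) :=
    cont0.prodMk (hD.smooth.continuous.sub (cont_mk cont0 continuous_const))
  let h : E → ℂ := fun x => Y (x 0, ψ x - mk (x 0) 0)
  let z : E → ℂ := fun x => Z (x 0, ψ x - mk (x 0) 0)
  have ch : Continuous h := cY.comp cq
  have cz : Continuous z := cZ.comp cq
  have hU : ∀ x, U (x 0) 1 (h x) (z x) = ψ x - mk (x 0) 0 := fun x =>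
    hYZ (x 0, ψ x - mk (x 0) 0)
  have ehz : ∀ x n, Lat n → h (x + n) = h x + n 1 ∧ z (x + n) = z x := by
    intro x n hn
    refine iU (x 0) 1 _ _ _ _ ?_
    have e1 := hU (x + n)
    rw [PiLp.add_apply, pU _ _ hn.1, hD.eqv x n hn] at e1
    rw [e1, eU _ _ _ _ _ hn.2, hU]
    apply ext2 <;> simp only [Fin.isValue, PiLp.sub_apply, PiLp.add_apply, mk0, add_sub_add_right_eq_sub, add_zero, mk1, sub_zero]
  have back : ∀ x x', x 0 = x' 0 → h x = h x' → z x = z x' → x = x' := by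
    intro x x' e0 e1 e2
    have a1 := hU x
    rw [e0, e1, e2, hU x'] at a1
    exact hD.inj (sub_left_injective a1).symm
  have hinj : ∀ x x', x 0 = x' 0 → h x = h x' → x = x' := by
    intro x x' e0 e1
    refine back x x' e0 e1 ?_
    obtain ⟨c1, eq1⟩ := rU (x 0) (h x)
    have c2 : ContDiff ℝ 1 fun w => U (x 0) 1 (h x) w + mk (x 0) 0 := c1.add contDiff_const
    have bψ' : ∀ q, ‖ψ' q - q‖ ≤ C := fun q => by
      have := bψ (ψ' q)
      rwa [ri, norm_sub_rev] at this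
    refine hQ.2.1 (fun w => ψ' (U (x 0) 1 (h x) w + mk (x 0) 0) 0 - x 0) (C + C') ?_ ?_ ?_ _ _ ?_ ?_
    · exact ((EuclideanSpace.proj (𝕜 := ℂ) (0 : Fin 2)).restrictScalars ℝ).contDiff.comp
        ((sψ'.of_le (by exact_mod_cast le_top)).comp c2) |>.sub contDiff_const
    · intro w
      have b1 := (co_le _ 0).trans (bψ' (U (x 0) 1 (h x) w + mk (x 0) 0))
      have b2 := (co_le _ 0).trans (bU (x 0) 1 (h x) w)
      refine le_trans (le_of_eq ?_) ((norm_add_le _ _).trans (add_le_add b1 b2))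
      congr 1
      simp only [PiLp.sub_apply, PiLp.add_apply, mk0]
      ring
    · intro w hw
      have b1 := (co_le _ 0).trans (bψ' (U (x 0) 1 (h x) w + mk (x 0) 0))
      have b2 : ‖U (x 0) 1 (h x) w 0‖ ≤ C + 1 := by
        have : U (x 0) 1 (h x) w 0 = (ψ' (U (x 0) 1 (h x) w + mk (x 0) 0) 0 - x 0) -
            (ψ' (U (x 0) 1 (h x) w + mk (x 0) 0) - (U (x 0) 1 (h x) w + mk (x 0) 0)) 0 := by
          simp only [PiLp.sub_apply, PiLp.add_apply, mk0]
          ring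
        rw [this]
        linarith [norm_sub_le (ψ' (U (x 0) 1 (h x) w + mk (x 0) 0) 0 - x 0)
          ((ψ' (U (x 0) 1 (h x) w + mk (x 0) 0) - (U (x 0) 1 (h x) w + mk (x 0) 0)) 0)]
      have d1 : DifferentiableAt ℝ (U (x 0) 1 (h x)) w := c1.differentiable one_ne_zero w
      have d2 := del_add d1 (differentiableAt_const (mk (x 0) 0))
      have d3 := hol (fun t => U (x 0) 1 (h x) t + mk (x 0) 0) w
        (c2.differentiable one_ne_zero w) (by
          rw [d2.1, d2.2, (del_const _ _).1, (del_const _ _).2, add_zero, add_zero]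
          exact eq1 w b2)
      exact ((EuclideanSpace.proj (𝕜 := ℂ) (0 : Fin 2)).differentiableAt.comp w d3).sub_const _
    · simp only [hU x, sub_add_cancel, li, sub_self]
    · rw [e0, e1]
      simp only [hU x', sub_add_cancel, li, sub_self]
  have cτ : Continuous fun t : ℝ × E => ((t.2 0, 1 - t.1, h t.2, z t.2) : ℂ × ℝ × ℂ × ℂ) :=
    (cont0.comp continuous_snd).prodMk ((continuous_const.sub continuous_fst).prodMk
      ((ch.comp continuous_snd).prodMk (cz.comp continuous_snd)))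
  have H1 := htp_of_family (fun τ x => U (x 0) (1 - τ) (h x) (z x)) (cU.comp cτ)
    (fun τ x n hn => by
      simp only
      rw [(ehz x n hn).1, (ehz x n hn).2, PiLp.add_apply, pU _ _ hn.1, eU _ _ _ _ _ hn.2])
    (fun τ x x' e0 e => by
      simp only at e
      rw [e0] at e
      obtain ⟨e1, e2⟩ := iU _ _ _ _ _ _ e
      exact back x x' e0 e1 e2)
  have E0 : Dseg (fun x => U (x 0) (1 - 0) (h x) (z x)) = Dseg ψ := by
    funext p
    simp only [Dseg, sub_zero, hU]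
    rw [seg0]
    abel
  have E1 : (fun x : E => U (x 0) (1 - 1) (h x) (z x)) = fun x => mk (z x) (h x) := by
    funext x
    rw [sub_self, zU]
  rw [E0, E1] at H1
  exact hH.2.1 _ _ _ H1 (htp_graph hH z h cz ch (fun x n hn => (ehz x n hn).2)
    (fun x n hn => (ehz x n hn).1) hinj)

end

end Pool.Agent.MP_be5fd0_gt.T

/-!
An approximate form of Moser's argument, without differential equations.
-/

namespace Pool.Agent.MP_be5fd0_gt.T

namespace Br'

open scoped ContDiff Topology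
open Set Function

section Core

variable {V : Type} [NormedAddCommGroup V] [NormedSpace ℝ V]

/-- Smooth equivariant diffeomorphisms which are isotopic to the identity through injective
equivariant maps; `Γ` is the set of periods. -/
structure Iso0 (Γ : Set V) (μ : V → V) : Prop where
  smooth : ContDiff ℝ ∞ μ
  bij : Bijective μ
  inv : ∀ x, Injective (fderiv ℝ μ x)
  eqv : ∀ n ∈ Γ, ∀ x, μ (x + n) = μ x + n
  iso : ∃ H : ℝ × V → V, Continuous H ∧ (∀ x, H (0, x) = x) ∧ (∀ x, H (1, x) = μ x) ∧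
    (∀ s ∈ Icc (0 : ℝ) 1, Injective fun x => H (s, x)) ∧
    ∀ s, ∀ n ∈ Γ, ∀ x, H (s, x + n) = H (s, x) + n

variable {Γ K : Set V}

theorem Iso0.id : Iso0 Γ (fun x => x) :=
  ⟨contDiff_id, bijective_id, fun x => by simpa using injective_id, fun _ _ _ => rfl,
    ⟨fun p => p.2, continuous_snd, fun _ => rfl, fun _ => rfl, fun _ _ => injective_id,
      fun _ _ _ _ => rfl⟩⟩

theorem Iso0.diff {μ : V → V} (h : Iso0 Γ μ) (x : V) : DifferentiableAt ℝ μ x :=
  h.smooth.differentiable (by simp) x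

theorem Iso0.fderiv_comp {μ ν : V → V} (hν : Iso0 Γ ν) (hμ : Iso0 Γ μ) (x u : V) :
    fderiv ℝ (fun y => ν (μ y)) x u = fderiv ℝ ν (μ x) (fderiv ℝ μ x u) := by
  rw [fderiv_fun_comp x (hν.diff _) (hμ.diff _)]
  rfl

theorem Iso0.comp {μ ν : V → V} (hν : Iso0 Γ ν) (hμ : Iso0 Γ μ) : Iso0 Γ fun x => ν (μ x) := by
  obtain ⟨H, a1, a2, a3, a4, a5⟩ := hν.iso
  obtain ⟨G, b1, b2, b3, b4, b5⟩ := hμ.iso
  refine ⟨hν.smooth.comp hμ.smooth, hν.bij.comp hμ.bij, fun x u v h => ?_,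
    fun n hn x => by rw [hμ.eqv n hn, hν.eqv n hn],
    fun p => H (p.1, G p), by fun_prop, fun x => by simp only [a2, b2],
    fun x => by simp only [a3, b3], fun s hs => (a4 s hs).comp (b4 s hs),
    fun s n hn x => by simp only [b5 s n hn, a5 s n hn]⟩
  rw [hν.fderiv_comp hμ, hν.fderiv_comp hμ] at h
  exact hμ.inv x (hν.inv _ h)

theorem fderiv_per {W : Type} [NormedAddCommGroup W] [NormedSpace ℝ W] {f : V → W} {n : V}
    (h : ∀ x, f (x + n) = f x) (x : V) : fderiv ℝ f (x + n) = fderiv ℝ f x := by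
  rw [← fderiv_comp_add_right]
  simp only [h]

theorem Iso0.fderiv_per {μ : V → V} (h : Iso0 Γ μ) {n : V} (hn : n ∈ Γ) (x : V) :
    fderiv ℝ μ (x + n) = fderiv ℝ μ x := by
  rw [← fderiv_comp_add_right]
  simp only [h.eqv n hn, fderiv_add_const]

theorem Iso0.bound {μ : V → V} (h : Iso0 Γ μ) (hK : IsCompact K)
    (hc : ∀ x, ∃ n ∈ Γ, x + n ∈ K) : ∃ B, 0 < B ∧ ∀ x u, ‖fderiv ℝ μ x u‖ ≤ B * ‖u‖ := by
  obtain ⟨B, hB⟩ := hK.exists_bound_of_continuousOn
    (h.smooth.continuous_fderiv (by simp)).continuousOn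
  refine ⟨max B 1, by positivity, fun x u => ?_⟩
  obtain ⟨n, hn, hx⟩ := hc x
  rw [← h.fderiv_per hn]
  exact (fderiv ℝ μ (x + n)).le_of_opNorm_le ((hB _ hx).trans (le_max_left _ _)) u

theorem iso0_add [CompleteSpace V] {Y : V → V} (hY : ContDiff ℝ ∞ Y)
    (hp : ∀ n ∈ Γ, ∀ x, Y (x + n) = Y x) (hb : ∀ x, ‖fderiv ℝ Y x‖ ≤ 1 / 2) :
    Iso0 Γ fun x => x + Y x := by
  have hd := hY.differentiable (by simp)
  have hl : ∀ x y, ‖Y x - Y y‖ ≤ 1 / 2 * ‖x - y‖ := fun x y =>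
    convex_univ.norm_image_sub_le_of_norm_fderiv_le (fun z _ => hd z) (fun z _ => hb z)
      (mem_univ y) (mem_univ x)
  have hi : ∀ s ∈ Icc (0 : ℝ) 1, Injective fun x => x + s • Y x := by
    intro s hs x y h
    have h1 : x - y = s • (Y y - Y x) := by
      rw [smul_sub, sub_eq_sub_iff_add_eq_add, add_comm (s • Y y)]; exact h
    have h2 := congrArg norm h1
    rw [norm_smul, Real.norm_of_nonneg hs.1] at h2
    have h3 := hl y x
    rw [norm_sub_rev y x] at h3
    have h4 : ‖x - y‖ ≤ 0 := by nlinarith only [hs.2, norm_nonneg (Y y - Y x), h2, h3]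
    exact sub_eq_zero.1 (norm_le_zero_iff.1 h4)
  refine ⟨contDiff_id.add hY, ⟨by simpa using hi 1 (by simp only [mem_Icc, zero_le_one, Std.le_refl, and_self]), fun y => ?_⟩, fun x u v h => ?_,
    fun n hn x => by rw [hp n hn]; abel, fun p => p.2 + p.1 • Y p.2,
    by have := hY.continuous; fun_prop, fun x => by simp, fun x => by simp, hi,
    fun s n hn x => by simp only [hp n hn]; abel⟩
  · have hc : ContractingWith (1 / 2) fun x => y - Y x := by
      refine ⟨by norm_num, LipschitzWith.of_dist_le_mul fun a b => ?_⟩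
      rw [dist_eq_norm, dist_eq_norm, show y - Y a - (y - Y b) = Y b - Y a by abel,
        norm_sub_rev a b]
      simpa only [one_div, NNReal.coe_inv, NNReal.coe_ofNat] using hl b a
    refine ⟨hc.fixedPoint _, ?_⟩
    exact (eq_sub_iff_add_eq.1 hc.fixedPoint_isFixedPt.eq.symm)
  · rw [show fderiv ℝ (fun x => x + Y x) x = _ from
      ((hasFDerivAt_id x).add (hd x).hasFDerivAt).fderiv] at h
    simp only [add_apply, ContinuousLinearMap.id_apply] at h
    have h1 : u - v = fderiv ℝ Y x (v - u) := by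
      rw [map_sub, sub_eq_sub_iff_add_eq_add, add_comm _ v]; exact h
    have h2 := (fderiv ℝ Y x).le_of_opNorm_le (hb x) (v - u)
    rw [← h1, norm_sub_rev v u] at h2
    have h4 : ‖u - v‖ ≤ 0 := by linarith only [h2]
    exact sub_eq_zero.1 (norm_le_zero_iff.1 h4)

/-- The pull-back of `w'` under `μ` is `ε`-close to `w`. -/
def Close (ε : ℝ) (μ : V → V) (w w' : V → V →L[ℝ] V →L[ℝ] ℝ) : Prop :=
  ∀ x u v, |w' (μ x) (fderiv ℝ μ x u) (fderiv ℝ μ x v) - w x u v| ≤ ε * ‖u‖ * ‖v‖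

/-- `w` is a uniform limit of pull-backs of `w'`. -/
def Nr (Γ : Set V) (w w' : V → V →L[ℝ] V →L[ℝ] ℝ) : Prop :=
  ∀ ε, 0 < ε → ∃ μ, Iso0 Γ μ ∧ Close ε μ w w'

theorem Close.comp {ε ε' B : ℝ} {μ ν : V → V} {w w' w'' : V → V →L[ℝ] V →L[ℝ] ℝ}
    (hν : Iso0 Γ ν) (hμ : Iso0 Γ μ) (h1 : Close ε μ w w') (h2 : Close ε' ν w' w'') (h0 : 0 ≤ ε')
    (hB : ∀ x u, ‖fderiv ℝ μ x u‖ ≤ B * ‖u‖) :
    Close (ε + ε' * B ^ 2) (fun x => ν (μ x)) w w'' := by
  intro x u v
  rw [hν.fderiv_comp hμ, hν.fderiv_comp hμ]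
  have a1 := h1 x u v
  have a2 := h2 (μ x) (fderiv ℝ μ x u) (fderiv ℝ μ x v)
  have a3 : ‖fderiv ℝ μ x u‖ * ‖fderiv ℝ μ x v‖ ≤ B * ‖u‖ * (B * ‖v‖) :=
    mul_le_mul (hB x u) (hB x v) (norm_nonneg _) ((norm_nonneg _).trans (hB x u))
  have a4 := mul_le_mul_of_nonneg_left a3 h0
  rw [abs_le] at *
  constructor <;> linarith only [a1.1, a1.2, a2.1, a2.2, a4]

theorem Close.mono {ε ε' : ℝ} {μ : V → V} {w w' : V → V →L[ℝ] V →L[ℝ] ℝ} (h : Close ε μ w w')
    (h1 : ε ≤ ε') : Close ε' μ w w' := fun x u v => (h x u v).trans (by gcongr)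

theorem Nr.refl (w : V → V →L[ℝ] V →L[ℝ] ℝ) : Nr Γ w w :=
  fun ε h => ⟨fun x => x, Iso0.id, fun x u v => by simp only [fderiv_fun_id, ContinuousLinearMap.id_apply, sub_self, abs_zero]; positivity⟩

theorem Nr.trans {w w' w'' : V → V →L[ℝ] V →L[ℝ] ℝ} (hK : IsCompact K)
    (hc : ∀ x, ∃ n ∈ Γ, x + n ∈ K) (h1 : Nr Γ w w') (h2 : Nr Γ w' w'') : Nr Γ w w'' := by
  intro ε hε
  obtain ⟨μ, m1, m2⟩ := h1 (ε / 2) (by positivity)
  obtain ⟨B, B0, hB⟩ := m1.bound hK hc
  obtain ⟨ν, n1, n2⟩ := h2 (ε / 2 / B ^ 2) (by positivity)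
  exact ⟨_, n1.comp m1, (Close.comp n1 m1 m2 n2 (by positivity) hB).mono
    (le_of_eq (by field_simp; ring))⟩

theorem unif {P W : Type} [NormedAddCommGroup P] [NormedSpace ℝ P] [NormedAddCommGroup W]
    [NormedSpace ℝ W] {F : P × ℝ → W} (hF : ContDiff ℝ 1 F) {S : Set P} (hS : IsCompact S) {ε : ℝ}
    (hε : 0 < ε) : ∃ δ, 0 < δ ∧ ∀ p ∈ S, (∀ D, HasDerivAt (fun h => F (p, h)) D 0 → D = 0) →
      ∀ h ∈ Icc (0 : ℝ) δ, ‖F (p, h) - F (p, 0)‖ ≤ ε * h := by
  have h1 : Continuous fun z => fderiv ℝ F z (0, 1) :=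
    (hF.continuous_fderiv one_ne_zero).clm_apply continuous_const
  have h2 : ∀ p h, HasDerivAt (fun h => F (p, h)) (fderiv ℝ F (p, h) (0, 1)) h := fun p h =>
    (hF.differentiable one_ne_zero (p, h)).hasFDerivAt.comp_hasDerivAt h
      ((hasDerivAt_const h p).prodMk (hasDerivAt_id h))
  obtain ⟨δ, d0, hδ⟩ := Metric.uniformContinuousOn_iff.1
    ((hS.prod (isCompact_Icc (a := (0 : ℝ)) (b := 1))).uniformContinuousOn_of_continuous
      h1.continuousOn) ε hε
  refine ⟨min (δ / 2) 1, by positivity, fun p hp h0 h hh => ?_⟩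
  have := norm_image_sub_le_of_norm_deriv_le_segment' (f := fun h => F (p, h))
    (f' := fun h => fderiv ℝ F (p, h) (0, 1)) (C := ε) (a := 0) (b := min (δ / 2) 1)
    (fun t _ => (h2 p t).hasDerivWithinAt) (fun t ht => ?_) h hh
  · simpa only [ge_iff_le, sub_zero] using this
  · have a1 := hδ (p, t) ⟨hp, ht.1, ht.2.le.trans (min_le_right _ _)⟩ (p, 0) ⟨hp, by simp only [mem_Icc, Std.le_refl, zero_le_one, and_self]⟩ (by
      have := ht.2.trans_le (min_le_left _ _)
      simp only [Prod.dist_eq, dist_self, dist_zero_right, Real.norm_of_nonneg ht.1]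
      exact max_lt d0 (by linarith))
    rw [h0 _ (h2 p 0), dist_zero_right] at a1
    exact a1.le

/-- Closed, skew, periodic smooth fields of bilinear forms. -/
structure Cl (Γ : Set V) (w : V → V →L[ℝ] V →L[ℝ] ℝ) : Prop where
  smooth : ContDiff ℝ ∞ w
  per : ∀ n ∈ Γ, ∀ x, w (x + n) = w x
  skew : ∀ x u v, w x u v = -w x v u
  closed : ∀ x p q r, fderiv ℝ w x p q r - fderiv ℝ w x q p r + fderiv ℝ w x r p q = 0

theorem Cl.comb {w β : V → V →L[ℝ] V →L[ℝ] ℝ} (h : Cl Γ w) (h' : Cl Γ β) (t : ℝ) :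
    Cl Γ fun x => w x + t • β x := by
  refine ⟨h.smooth.add (h'.smooth.const_smul t), fun n hn x => by rw [h.per n hn, h'.per n hn],
    fun x u v => ?_, fun x p q r => ?_⟩
  · simp only [add_apply, smul_apply, smul_eq_mul]
    rw [h.skew x u v, h'.skew x u v]; ring
  · rw [show fderiv ℝ (fun x => w x + t • β x) x = _ from
      ((h.smooth.differentiable (by simp) x).hasFDerivAt.add
        ((h'.smooth.differentiable (by simp) x).hasFDerivAt.const_smul t)).fderiv]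
    simp only [add_apply, smul_apply, smul_eq_mul]
    linear_combination h.closed x p q r + t * h'.closed x p q r

theorem cartan {w : V → V →L[ℝ] V →L[ℝ] ℝ} (h : Cl Γ w) {l : V → V →L[ℝ] ℝ} {X : V → V}
    (hX : Differentiable ℝ X) (e : ∀ x, w x (X x) = -l x) (x u v : V) :
    fderiv ℝ w x (X x) u v + (fderiv ℝ l x u v - fderiv ℝ l x v u) +
      w x (fderiv ℝ X x u) v + w x u (fderiv ℝ X x v) = 0 := by
  have h1 : ∀ a b, fderiv ℝ w x a (X x) b + w x (fderiv ℝ X x a) b = -fderiv ℝ l x a b := by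
    intro a b
    have a1 := ((h.smooth.differentiable (by simp) x).hasFDerivAt.clm_apply
      (hX x).hasFDerivAt).fderiv
    simp only [e] at a1
    rw [fderiv_fun_neg] at a1
    have := congrArg (fun L : V →L[ℝ] V →L[ℝ] ℝ => L a b) a1
    simp only [add_apply, neg_apply,
      ContinuousLinearMap.comp_apply, ContinuousLinearMap.flip_apply] at this
    linarith only [this]
  linear_combination h.closed x (X x) u v + h1 u v - h1 v u + h.skew x u (fderiv ℝ X x v)

theorem cd_comb {W : Type} [NormedAddCommGroup W] [NormedSpace ℝ W] {w β : V → W}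
    (s1 : ContDiff ℝ ∞ w) (s2 : ContDiff ℝ ∞ β) :
    ContDiff ℝ ∞ fun p : ℝ × V => w p.2 + p.1 • β p.2 :=
  (s1.comp contDiff_snd).add (contDiff_fst.smul (s2.comp contDiff_snd))

theorem hd_smul {W : Type} [NormedAddCommGroup W] [NormedSpace ℝ W] {f g : ℝ → W} {f' g' : W}
    (t : ℝ) (hf : HasDerivAt f f' 0) (hg : HasDerivAt g g' 0) :
    HasDerivAt (fun h : ℝ => f h + (t + h) • g h) (f' + (t • g' + g 0)) 0 := by
  simpa using hf.fun_add (((hasDerivAt_id (0 : ℝ)).const_add t).fun_smul hg)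

theorem deriv0 {w β : V → V →L[ℝ] V →L[ℝ] ℝ} (s1 : ContDiff ℝ ∞ w) (s2 : ContDiff ℝ ∞ β)
    (t : ℝ) (y ξ a b a' b' : V) :
    HasDerivAt (fun h : ℝ => (w (y + h • ξ) + (t + h) • β (y + h • ξ)) (a + h • a') (b + h • b'))
      ((fderiv ℝ w y + t • fderiv ℝ β y) ξ a b + β y a b + (w y + t • β y) a' b +
        (w y + t • β y) a b') 0 := by
  have b2 : ∀ p q : V, HasDerivAt (fun h : ℝ => p + h • q) q 0 := fun p q => by
    simpa using ((hasDerivAt_id (0 : ℝ)).smul_const q).const_add p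
  have b3 : ∀ {f : V → V →L[ℝ] V →L[ℝ] ℝ}, ContDiff ℝ ∞ f →
      HasDerivAt (fun h : ℝ => f (y + h • ξ)) (fderiv ℝ f y ξ) 0 := fun hf =>
    HasFDerivAt.comp_hasDerivAt_of_eq (0 : ℝ) (hf.differentiable (by simp) y).hasFDerivAt
      (b2 _ _) (by simp)
  have b5 := hd_smul (W := V →L[ℝ] V →L[ℝ] ℝ) t (b3 s1) (b3 s2)
  have b6 := (b5.clm_apply (b2 a a')).clm_apply (b2 b b')
  refine b6.congr_deriv ?_
  simp only [add_apply, smul_apply, smul_eq_mul, zero_smul, add_zero]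
  ring

variable [FiniteDimensional ℝ V]

theorem inv_of_nd {b : V →L[ℝ] V →L[ℝ] ℝ} (h : ∀ u, b u = 0 → u = 0) :
    ∃ e : V ≃L[ℝ] (V →L[ℝ] ℝ), (e : V →L[ℝ] V →L[ℝ] ℝ) = b := by
  have h1 : Module.finrank ℝ V = Module.finrank ℝ (V →L[ℝ] ℝ) := by
    rw [← (LinearMap.toContinuousLinearMap (𝕜 := ℝ) (E := V) (F' := ℝ)).finrank_eq]
    exact Subspace.dual_finrank_eq.symm
  have h2 : Injective (b : V →ₗ[ℝ] V →L[ℝ] ℝ) := (injective_iff_map_eq_zero _).2 h
  exact ⟨((b : V →ₗ[ℝ] V →L[ℝ] ℝ).linearEquivOfInjective h2 h1).toContinuousLinearEquiv,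
    by ext; rfl⟩

theorem near_seg (hK : IsCompact K) (hc : ∀ x, ∃ n ∈ Γ, x + n ∈ K)
    {w β : V → V →L[ℝ] V →L[ℝ] ℝ} (hw : Cl Γ w) (hβ : Cl Γ β) {l : V → V →L[ℝ] ℝ}
    (hl : ContDiff ℝ ∞ l) (lp : ∀ n ∈ Γ, ∀ x, l (x + n) = l x)
    (e : ∀ x u v, β x u v = fderiv ℝ l x u v - fderiv ℝ l x v u)
    (nd : ∀ t ∈ Icc (0 : ℝ) 1, ∀ x u, (w x + t • β x) u = 0 → u = 0) :
    Nr Γ w fun x => w x + β x := by
  have := FiniteDimensional.complete ℝ V
  have := FiniteDimensional.proper ℝ V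
  obtain ⟨X, hX⟩ : ∃ X : ℝ → V → V, ∀ t x, X t x = -(w x + t • β x).inverse (l x) :=
    ⟨_, fun _ _ => rfl⟩
  have s1 := hw.smooth
  have s2 := hβ.smooth
  have X1 : ∀ t ∈ Icc (0 : ℝ) 1, ∀ x, ContDiffAt ℝ ∞ (fun p : ℝ × V => X p.1 p.2) (t, x) := by
    intro t ht x
    obtain ⟨E, hE⟩ := inv_of_nd (nd t ht x)
    simp only [hX]
    have a1 : ContDiff ℝ ∞ fun p : ℝ × V => w p.2 + p.1 • β p.2 := cd_comb s1 s2
    refine (ContDiffAt.clm_apply (ContDiffAt.comp (t, x) (g := ContinuousLinearMap.inverse) ?_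
      a1.contDiffAt) (hl.comp contDiff_snd).contDiffAt).neg
    rw [← hE]
    exact contDiffAt_map_inverse E
  have X2 : ∀ t ∈ Icc (0 : ℝ) 1, ContDiff ℝ ∞ (X t) := fun t ht => contDiff_iff_contDiffAt.2
    fun x => (X1 t ht x).comp x (contDiffAt_const.prodMk contDiffAt_id)
  have X3 : ∀ t, ∀ n ∈ Γ, ∀ x, X t (x + n) = X t x := fun t n hn x => by
    rw [hX, hX, hw.per n hn, hβ.per n hn, lp n hn]
  have X4 : ∀ t ∈ Icc (0 : ℝ) 1, ∀ x, (w x + t • β x) (X t x) = -l x := by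
    intro t ht x
    obtain ⟨E, hE⟩ := inv_of_nd (nd t ht x)
    rw [hX, ← hE]
    simp
  obtain ⟨C1, hC1⟩ := (isCompact_Icc.prod hK).exists_bound_of_continuousOn
    (f := fun p : ℝ × V => X p.1 p.2) fun p hp => (X1 p.1 hp.1 p.2).continuousAt.continuousWithinAt
  obtain ⟨C2, hC2⟩ := (isCompact_Icc.prod hK).exists_bound_of_continuousOn
    (f := fun p : ℝ × V => fderiv ℝ (X p.1) p.2) fun p hp =>
      (ContDiffAt.fderiv (f := fun (p : ℝ × V) y => X p.1 y) (g := Prod.snd) (m := 0) (n := ∞)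
        ((X1 p.1 hp.1 p.2).comp (p, p.2) (f := fun z : (ℝ × V) × V => (z.1.1, z.2)) (by fun_prop))
        contDiffAt_snd (by simp)).continuousAt.continuousWithinAt
  obtain ⟨C, C0, hC⟩ : ∃ C, 0 < C ∧ ∀ t ∈ Icc (0 : ℝ) 1, ∀ x, ‖fderiv ℝ (X t) x‖ ≤ C := by
    refine ⟨max C2 1, by positivity, fun t ht x => ?_⟩
    obtain ⟨n, hn, hx⟩ := hc x
    rw [← fderiv_per (X3 t n hn)]
    exact (hC2 (t, x + n) ⟨ht, hx⟩).trans (le_max_left _ _)
  intro ε hε
  obtain ⟨F, hF⟩ : ∃ F : (ℝ × V × V × (V →L[ℝ] V)) × ℝ → V →L[ℝ] V →L[ℝ] ℝ, ∀ z, F z =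
      (w (z.1.2.1 + z.2 • z.1.2.2.1) + (z.1.1 + z.2) • β (z.1.2.1 + z.2 • z.1.2.2.1)).bilinearComp
        (1 + z.2 • z.1.2.2.2) (1 + z.2 • z.1.2.2.2) := ⟨_, fun _ => rfl⟩
  have F0 : ∀ t x ξ A h u v, F ((t, x, ξ, A), h) u v =
      (w (x + h • ξ) + (t + h) • β (x + h • ξ)) (u + h • A u) (v + h • A v) := fun _ _ _ _ _ _ _ =>
    by rw [hF]; rfl
  have F1 : ContDiff ℝ 1 F := by
    refine contDiff_clm_apply_iff.2 fun u => contDiff_clm_apply_iff.2 fun v => ?_
    have a1 := s1.of_le (m := 1) (by simp)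
    have a2 := s2.of_le (m := 1) (by simp)
    rw [show (fun z => F z u v) = _ from funext fun z => F0 z.1.1 z.1.2.1 z.1.2.2.1 z.1.2.2.2 z.2 u v]
    fun_prop
  obtain ⟨δ, d0, hδ⟩ := unif F1 ((isCompact_Icc (a := (0 : ℝ)) (b := 1)).prod (hK.prod
    ((isCompact_closedBall (0 : V) C1).prod (isCompact_closedBall (0 : V →L[ℝ] V) C))))
    (ε := ε / Real.exp C ^ 2) (by positivity)
  obtain ⟨N, hN⟩ := exists_nat_gt (max (max δ⁻¹ (2 * C)) 1)
  have N0 : (0 : ℝ) < N := by linarith [le_max_right (max δ⁻¹ (2 * C)) 1]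
  obtain ⟨h, hh⟩ : ∃ h : ℝ, h * N = 1 := ⟨(N : ℝ)⁻¹, inv_mul_cancel₀ N0.ne'⟩
  have h0 : 0 < h := by by_contra h1; nlinarith only [hh, h1]
  have h1 : h ≤ δ := by
    have a1 : δ⁻¹ < N := ((le_max_left _ _).trans (le_max_left _ _)).trans_lt hN
    rw [inv_lt_iff_one_lt_mul₀ d0] at a1
    nlinarith only [hh, a1]
  have h2 : h * C ≤ 1 / 2 := by
    have a1 : 2 * C < N := ((le_max_right _ _).trans (le_max_left _ _)).trans_lt hN
    nlinarith only [hh, a1]
  have step : ∀ t ∈ Icc (0 : ℝ) 1, Iso0 Γ (fun x => x + h • X t x) ∧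
      (∀ x u, ‖fderiv ℝ (fun x => x + h • X t x) x u‖ ≤ Real.exp (h * C) * ‖u‖) ∧
      Close (ε / Real.exp C ^ 2 * h) (fun x => x + h • X t x) (fun x => w x + t • β x)
        fun x => w x + (t + h) • β x := by
    intro t ht
    have d1 := (X2 t ht).differentiable (by simp)
    have d2 : ∀ x, fderiv ℝ (fun x => h • X t x) x = h • fderiv ℝ (X t) x := fun x =>
      ((d1 x).hasFDerivAt.const_smul h).fderiv
    have d3 : ∀ x u, fderiv ℝ (fun x => x + h • X t x) x u = u + h • fderiv ℝ (X t) x u := by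
      intro x u
      rw [show fderiv ℝ (fun x => x + h • X t x) x = _ from
        ((hasFDerivAt_id x).add ((d1 x).hasFDerivAt.const_smul h)).fderiv]
      rfl
    refine ⟨iso0_add ((X2 t ht).const_smul h) (fun n hn x => by rw [X3 t n hn]) fun x => ?_,
      fun x u => ?_, fun x u v => ?_⟩
    · rw [d2, norm_smul, Real.norm_of_nonneg h0.le]
      nlinarith only [hC t ht x, N0, hh, h2]
    · rw [d3]
      refine (norm_add_le _ _).trans ?_
      rw [norm_smul, Real.norm_of_nonneg h0.le]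
      have a1 := (fderiv ℝ (X t) x).le_of_opNorm_le (hC t ht x) u
      nlinarith only [Real.add_one_le_exp (h * C), norm_nonneg u, h0, a1]
    · obtain ⟨n, hn, hx⟩ := hc x
      have a1 := hδ (t, x + n, X t (x + n), fderiv ℝ (X t) (x + n))
        ⟨ht, hx, by simpa only [Metric.mem_closedBall, dist_zero_right] using hC1 (t, x + n) ⟨ht, hx⟩, by simpa only [Metric.mem_closedBall, dist_zero_right] using hC t ht (x + n)⟩
        (fun D hD => ?_) h ⟨h0.le, h1⟩
      · have a2 := ContinuousLinearMap.le_of_opNorm₂_le_of_le _ a1 (le_refl ‖u‖) (le_refl ‖v‖)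
        simp only [sub_apply, F0, zero_smul, add_zero] at a2
        rw [X3 t n hn, fderiv_per (X3 t n hn), add_right_comm, hw.per n hn, hβ.per n hn,
          hw.per n hn, hβ.per n hn] at a2
        rw [d3, d3]
        exact a2
      · generalize x + n = y at *
        ext a b
        have b1 : HasDerivAt (fun h => F ((t, y, X t y, fderiv ℝ (X t) y), h) a b) (D a b) 0 := by
          simpa only [map_zero, add_zero] using (hD.clm_apply (hasDerivAt_const _ a)).clm_apply (hasDerivAt_const _ b)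
        simp only [F0] at b1
        rw [b1.unique (deriv0 s1 s2 t y _ a b _ _)]
        have b5 := cartan (hw.comb hβ t) d1 (X4 t ht) y a b
        rw [show fderiv ℝ (fun x => w x + t • β x) y = _ from
          ((s1.differentiable (by simp) y).hasFDerivAt.add
            ((s2.differentiable (by simp) y).hasFDerivAt.const_smul t)).fderiv, ← e] at b5
        exact b5
  have main : ∀ j ≤ N, ∃ μ, Iso0 Γ μ ∧ (∀ x u, ‖fderiv ℝ μ x u‖ ≤ Real.exp (j * h * C) * ‖u‖) ∧
      Close (ε * (j * h)) μ w fun x => w x + (j * h) • β x := by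
    intro j hj
    induction j with
    | zero => exact ⟨fun x => x, Iso0.id, fun x u => by simp, fun x u v => by simp⟩
    | succ j ih =>
      obtain ⟨μ, m1, m2, m3⟩ := ih (by omega)
      have j1 : (j : ℝ) * h ≤ 1 := by
        have : (j : ℝ) ≤ N := by exact_mod_cast (by omega : j ≤ N)
        nlinarith only [N0, hh, this]
      obtain ⟨n1, n2, n3⟩ := step (j * h) ⟨by positivity, j1⟩
      refine ⟨_, n1.comp m1, fun x u => ?_, ?_⟩
      · rw [n1.fderiv_comp m1]
        refine (n2 _ _).trans ((mul_le_mul_of_nonneg_left (m2 x u) (by positivity)).trans ?_)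
        rw [← mul_assoc, ← Real.exp_add]
        push_cast
        exact le_of_eq (by ring_nf)
      · have a1 := Close.comp n1 m1 m3 n3 (by positivity) m2
        push_cast
        rw [add_mul, one_mul]
        refine a1.mono ?_
        have a2 : Real.exp (j * h * C) ≤ Real.exp C := Real.exp_le_exp.2 (by nlinarith only [C0, j1])
        have a3 : ε / Real.exp C ^ 2 * h * Real.exp (j * h * C) ^ 2 ≤
            ε / Real.exp C ^ 2 * h * Real.exp C ^ 2 := by gcongr
        rw [show ε / Real.exp C ^ 2 * h * Real.exp C ^ 2 = ε * h by field_simp] at a3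
        linarith only [a3]
  obtain ⟨μ, m1, -, m3⟩ := main N le_rfl
  rw [mul_comm (N : ℝ), hh] at m3
  exact ⟨μ, m1, by simpa using m3⟩

end Core

section Bridge

abbrev R4 : Type := Fin 4 → ℝ

/-- The identification of real four-space with the complex plane squared. -/
noncomputable def J : R4 ≃L[ℝ] E :=
  LinearEquiv.toContinuousLinearEquiv
    { toFun := fun x => mk ⟨x 0, x 1⟩ ⟨x 2, x 3⟩
      map_add' := fun x y => by ext i; fin_cases i <;> simp [mk, Complex.ext_iff]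
      map_smul' := fun c x => by ext i; fin_cases i <;> simp [mk, Complex.ext_iff]
      invFun := fun q => ![(q 0).re, (q 0).im, (q 1).re, (q 1).im]
      left_inv := fun x => by ext i; fin_cases i <;> simp [mk]
      right_inv := fun q => by ext i; fin_cases i <;> simp [mk] }

theorem J_symm (q : E) : J.symm q = ![(q 0).re, (q 0).im, (q 1).re, (q 1).im] := rfl

theorem J_apply (x : R4) : J x = mk ⟨x 0, x 1⟩ ⟨x 2, x 3⟩ := rfl

theorem lat_symm {n : E} (h : Lat n) : ∃ m : Fin 4 → ℤ, J.symm n = fun i => (m i : ℝ) := by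
  obtain ⟨⟨a, b, h0⟩, ⟨c, d, h1⟩⟩ := h
  refine ⟨![a, b, c, d], ?_⟩
  rw [J_symm, h0, h1]
  ext i; fin_cases i <;> simp

theorem lat_J (m : Fin 4 → ℤ) : Lat (J fun i => (m i : ℝ)) :=
  ⟨⟨m 0, m 1, by simp [J_apply, mk, Complex.ext_iff]⟩,
    ⟨m 2, m 3, by simp [J_apply, mk, Complex.ext_iff]⟩⟩

theorem lat_neg {n : E} (h : Lat n) : Lat (-n) := by
  obtain ⟨⟨a, b, h0⟩, ⟨c, d, h1⟩⟩ := h
  exact ⟨⟨-a, -b, by simp only [Fin.isValue, PiLp.neg_apply, h0, neg_add_rev, Int.cast_neg, neg_mul]; ring⟩, ⟨-c, -d, by simp only [Fin.isValue, PiLp.neg_apply, h1, neg_add_rev, Int.cast_neg, neg_mul]; ring⟩⟩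

/-- One-covectors on real four-space as functionals on `E`. -/
noncomputable def T1 : (R4 [⋀^Fin 1]→L[ℝ] ℝ) →L[ℝ] E →L[ℝ] ℝ :=
  ((ContinuousLinearMap.compL ℝ E R4 ℝ).flip (J.symm : E →L[ℝ] R4)).comp
    ((ContinuousAlternatingMap.ofSubsingletonLIE (𝕜 := ℝ) (E := R4) (F := ℝ)
      (0 : Fin 1)).symm.toContinuousLinearEquiv : (R4 [⋀^Fin 1]→L[ℝ] ℝ) →L[ℝ] R4 →L[ℝ] ℝ)

theorem T1_apply (θ : R4 [⋀^Fin 1]→L[ℝ] ℝ) (u : E) : T1 θ u = θ ![J.symm u] := by
  change θ (fun _ => J.symm u) = _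
  congr 1
  ext1 i; fin_cases i; rfl

/-- Functionals on `E` as one-covectors on real four-space. -/
noncomputable def S1 : (E →L[ℝ] ℝ) →L[ℝ] (R4 [⋀^Fin 1]→L[ℝ] ℝ) :=
  ((ContinuousAlternatingMap.ofSubsingletonLIE (𝕜 := ℝ) (E := R4) (F := ℝ)
      (0 : Fin 1)).toContinuousLinearEquiv : (R4 →L[ℝ] ℝ) →L[ℝ] (R4 [⋀^Fin 1]→L[ℝ] ℝ)).comp
    ((ContinuousLinearMap.compL ℝ R4 E ℝ).flip (J : R4 →L[ℝ] E))

theorem S1_apply (l : E →L[ℝ] ℝ) (v : Fin 1 → R4) : S1 l v = l (J (v 0)) := rfl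

/-- Two-covectors on real four-space as bilinear forms on `E`. -/
noncomputable def T2 (θ : R4 [⋀^Fin 2]→L[ℝ] ℝ) : Bil :=
  T1.comp (θ.curryLeft.comp (J.symm : E →L[ℝ] R4))

theorem T2_apply (θ : R4 [⋀^Fin 2]→L[ℝ] ℝ) (u v : E) : T2 θ u v = θ ![J.symm u, J.symm v] :=
  T1_apply _ _

theorem fd_alt {k : ℕ} {σ : R4 → R4 [⋀^Fin k]→L[ℝ] ℝ} (h : IsForm σ) (m : Fin k → R4) (x : E) :
    HasFDerivAt (fun q => σ (J.symm q) m) (((ContinuousAlternatingMap.apply ℝ R4 ℝ m).comp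
      (fderiv ℝ σ (J.symm x))).comp (J.symm : E →L[ℝ] R4)) x :=
  ((ContinuousAlternatingMap.apply ℝ R4 ℝ m).hasFDerivAt.comp _
    (h.1.differentiable (by simp) _).hasFDerivAt).comp x J.symm.hasFDerivAt

theorem fd_ev {W : Type} [NormedAddCommGroup W] [NormedSpace ℝ W] {f : E → E →L[ℝ] W} {x : E}
    (h : DifferentiableAt ℝ f x) (p q : E) : fderiv ℝ f x p q = fderiv ℝ (fun y => f y q) x p := by
  rw [fderiv_clm_apply h (differentiableAt_const q)]
  simp

theorem sm_alt {k : ℕ} {σ : R4 → R4 [⋀^Fin k]→L[ℝ] ℝ} (h : IsForm σ) (m : Fin k → R4) :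
    ContDiff ℝ ∞ fun q : E => σ (J.symm q) m :=
  (ContinuousAlternatingMap.apply ℝ R4 ℝ m).contDiff.comp (h.1.comp J.symm.contDiff)

theorem per_alt {k : ℕ} {σ : R4 → R4 [⋀^Fin k]→L[ℝ] ℝ} (h : IsForm σ) {n : E} (hn : Lat n)
    (x : E) : σ (J.symm (x + n)) = σ (J.symm x) := by
  obtain ⟨m, hm⟩ := lat_symm hn
  rw [map_add, hm, h.2]

theorem alt_swap (θ : R4 [⋀^Fin 2]→L[ℝ] ℝ) (p q : R4) : θ ![p, q] = -θ ![q, p] := by
  have : θ (![q, p] ∘ Equiv.swap 0 1) = -θ ![q, p] :=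
    θ.map_swap (v := ![q, p]) (i := 0) (j := 1) (by decide)
  rw [← this]
  congr 1
  ext1 i; fin_cases i <;> simp

theorem d1 (σ : R4 → R4 [⋀^Fin 1]→L[ℝ] ℝ) (x p q : R4) :
    extDeriv σ x ![p, q] = fderiv ℝ σ x p ![q] - fderiv ℝ σ x q ![p] := by
  rw [extDeriv, ContinuousAlternatingMap.alternatizeUncurryFin_apply, Fin.sum_univ_two]
  have h0 : Fin.removeNth (0 : Fin 2) ![p, q] = ![q] := by funext i; fin_cases i; rfl
  have h1 : Fin.removeNth (1 : Fin 2) ![p, q] = ![p] := by funext i; fin_cases i; rfl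
  rw [h0, h1]
  simp [sub_eq_add_neg]

theorem d2 (σ : R4 → R4 [⋀^Fin 2]→L[ℝ] ℝ) (x p q r : R4) : extDeriv σ x ![p, q, r] =
    fderiv ℝ σ x p ![q, r] - fderiv ℝ σ x q ![p, r] + fderiv ℝ σ x r ![p, q] := by
  rw [extDeriv, ContinuousAlternatingMap.alternatizeUncurryFin_apply, Fin.sum_univ_three]
  have h0 : Fin.removeNth (0 : Fin 3) ![p, q, r] = ![q, r] := by funext i; fin_cases i <;> rfl
  have h1 : Fin.removeNth (1 : Fin 3) ![p, q, r] = ![p, r] := by funext i; fin_cases i <;> rfl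
  have h2 : Fin.removeNth (2 : Fin 3) ![p, q, r] = ![p, q] := by funext i; fin_cases i <;> rfl
  rw [h0, h1, h2]
  simp only [Int.reduceNeg, Nat.reduceAdd, Fin.isValue, Fin.coe_ofNat_eq_mod, Nat.zero_mod, pow_zero, Matrix.cons_val_zero, Nat.succ_eq_add_one, one_smul, Nat.one_mod, pow_one, Matrix.cons_val_one, neg_smul, Nat.mod_succ, even_two, Even.neg_pow, one_pow, Matrix.cons_val, sub_eq_add_neg]

/-- The field of bilinear forms on `E` of a two-form. -/
noncomputable def tr (σ : R4 → R4 [⋀^Fin 2]→L[ℝ] ℝ) (q : E) : Bil := T2 (σ (J.symm q))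

theorem cl_tr {σ : R4 → R4 [⋀^Fin 2]→L[ℝ] ℝ} (h : IsSymp σ) : Cl {n | Lat n} (tr σ) := by
  have h1 : ContDiff ℝ ∞ (tr σ) :=
    contDiff_clm_apply_iff.2 fun u => contDiff_clm_apply_iff.2 fun v => by
      simp only [tr, T2_apply]
      exact sm_alt h.1 _
  have h2 : ∀ x p q r, fderiv ℝ (tr σ) x p q r =
      fderiv ℝ σ (J.symm x) (J.symm p) ![J.symm q, J.symm r] := by
    intro x p q r
    have a1 := h1.differentiable (by simp) x
    rw [fd_ev a1, fd_ev (a1.clm_apply (differentiableAt_const q))]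
    simp only [tr, T2_apply]
    rw [(fd_alt h.1 _ x).fderiv]
    rfl
  refine ⟨h1, fun n hn x => by rw [tr, per_alt h.1 hn, tr], fun x u v => ?_, fun x p q r => ?_⟩
  · rw [tr, T2_apply, T2_apply, alt_swap]
  · rw [h2, h2, h2, ← d2, h.2.1]
    rfl

theorem nd_tr {σ : R4 → R4 [⋀^Fin 2]→L[ℝ] ℝ} (h : IsSymp σ) (x u : E) (h0 : tr σ x u = 0) :
    u = 0 := by
  by_contra hu
  obtain ⟨u', h1⟩ := h.2.2 (J.symm x) (J.symm u) (by simpa using hu)
  apply h1
  have := T2_apply (σ (J.symm x)) u (J u')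
  rw [J.symm_apply_apply] at this
  rw [← this]
  change tr σ x u _ = 0
  rw [h0]
  rfl

theorem coh_tr {σ σ' : R4 → R4 [⋀^Fin 2]→L[ℝ] ℝ} (h : Cohom σ σ') : Coh (tr σ) (tr σ') := by
  obtain ⟨l, l1, l2⟩ := h
  have h1 : ContDiff ℝ ∞ fun q : E => T1 (l (J.symm q)) :=
    T1.contDiff.comp (l1.1.comp J.symm.contDiff)
  have h2 : ∀ x p q, fderiv ℝ (fun q : E => T1 (l (J.symm q))) x p q =
      fderiv ℝ l (J.symm x) (J.symm p) ![J.symm q] := by
    intro x p q
    rw [fd_ev (h1.differentiable (by simp) x)]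
    simp only [T1_apply]
    rw [(fd_alt l1 _ x).fderiv]
    rfl
  refine ⟨_, h1, fun x n hn => by rw [per_alt l1 hn], fun x v w => ?_⟩
  rw [h2, h2, tr, tr, T2_apply, T2_apply, l2, ← d1]
  rfl

theorem nr_of_close (hc : ∀ x : E, ∃ n ∈ {n | Lat n}, x + n ∈ Metric.closedBall (0 : E) 1)
    {w0 w w' : E → Bil} (h : Cl {n | Lat n} w) (h' : Cl {n | Lat n} w') (c : Coh w0 w)
    (c' : Coh w0 w') (nd : ∀ t ∈ Icc (0 : ℝ) 1, ∀ x u, (∀ v, w x u v + t * (w' x u v - w x u v) = 0)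
      → u = 0) : Nr {n | Lat n} w w' := by
  obtain ⟨l, l1, l2, l3⟩ := c
  obtain ⟨m, m1, m2, m3⟩ := c'
  have := near_seg (isCompact_closedBall _ _) hc h (h'.comb h (-1)) (m1.sub l1)
    (fun n hn x => by rw [l2 x n hn, m2 x n hn]) (fun x u v => by
      rw [fderiv_fun_sub (m1.differentiable (by simp) x) (l1.differentiable (by simp) x)]
      simp only [add_apply, smul_apply, sub_apply, smul_eq_mul, l3 x u v, m3 x u v]
      ring) (fun t ht x u e => nd t ht x u fun v => by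
      have := congrArg (fun L : E →L[ℝ] ℝ => L v) e
      simp only [add_apply, smul_apply, smul_eq_mul, zero_apply] at this
      linarith)
  intro ε hε
  obtain ⟨μ, a1, a2⟩ := this ε hε
  refine ⟨μ, a1, fun x u v => ?_⟩
  have a3 := a2 x u v
  simp only [add_apply, smul_apply, smul_eq_mul] at a3
  convert a3 using 2
  ring

theorem lower (hc : ∀ x : E, ∃ n ∈ {n | Lat n}, x + n ∈ Metric.closedBall (0 : E) 1)
    {w : E → Bil} (h : Cl {n | Lat n} w) (nd : ∀ x u, w x u = 0 → u = 0) :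
    ∃ c, 0 < c ∧ ∀ x u, c * ‖u‖ ≤ ‖w x u‖ := by
  have h1 : Continuous fun p : E × E => ‖w p.1 p.2‖ :=
    ((h.smooth.continuous.comp continuous_fst).clm_apply continuous_snd).norm
  obtain ⟨c, c0, hc'⟩ := ((isCompact_closedBall (0 : E) 1).prod
    (isCompact_sphere (0 : E) 1)).exists_forall_le' h1.continuousOn (a := 0) (fun p hp =>
      norm_pos_iff.2 fun e => by simpa [nd _ _ e] using hp.2)
  refine ⟨c, c0, fun x u => ?_⟩
  rcases eq_or_ne u 0 with rfl | hu
  · simp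
  obtain ⟨n, hn, hx⟩ := hc x
  have h2 : 0 < ‖u‖ := norm_pos_iff.2 hu
  have := hc' (x + n, ‖u‖⁻¹ • u) ⟨hx, by simp [norm_smul, h2.ne']⟩
  simp only [h.per n hn, map_smul, norm_smul, norm_inv, norm_norm] at this
  rwa [le_inv_mul_iff₀ h2, mul_comm] at this

theorem nr_of_conn (hc : ∀ x : E, ∃ n ∈ {n | Lat n}, x + n ∈ Metric.closedBall (0 : E) 1)
    {σ₀ σ₁ : R4 → R4 [⋀^Fin 2]→L[ℝ] ℝ}
    (hS : IsPreconnected {σ : UniformFun R4 (R4 [⋀^Fin 2]→L[ℝ] ℝ) |
      IsSymp (UniformFun.toFun σ) ∧ Cohom σ₀ (UniformFun.toFun σ)})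
    (h0 : IsSymp σ₀) (c0 : Cohom σ₀ σ₀) (h1 : IsSymp σ₁) (c1 : Cohom σ₀ σ₁) :
    Nr {n | Lat n} (tr σ₀) (tr σ₁) := by
  refine hS.induction₂' (fun σ σ' => Nr {n | Lat n} (tr (UniformFun.toFun σ))
    (tr (UniformFun.toFun σ'))) (fun σ hσ => ?_)
    (fun _ _ _ _ _ _ a b => a.trans (isCompact_closedBall _ _) hc b)
    (x := UniformFun.ofFun σ₀) (y := UniformFun.ofFun σ₁) ⟨h0, c0⟩ ⟨h1, c1⟩
  obtain ⟨c, c0, hl⟩ := lower hc (cl_tr hσ.1) (nd_tr hσ.1)
  have hJ : ∀ u : E, ‖J.symm u‖ ≤ ‖u‖ := fun u => by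
    rw [pi_norm_le_iff_of_nonneg (norm_nonneg u), J_symm]
    intro i
    fin_cases i
    · exact (Complex.abs_re_le_norm _).trans (PiLp.norm_apply_le u 0)
    · exact (Complex.abs_im_le_norm _).trans (PiLp.norm_apply_le u 0)
    · exact (Complex.abs_re_le_norm _).trans (PiLp.norm_apply_le u 1)
    · exact (Complex.abs_im_le_norm _).trans (PiLp.norm_apply_le u 1)
  filter_upwards [self_mem_nhdsWithin, mem_nhdsWithin_of_mem_nhds
    ((UniformFun.hasBasis_nhds_of_basis _ _ σ Metric.uniformity_basis_dist).mem_of_mem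
      (half_pos c0))] with σ' hσ' hd
  have key : ∀ t ∈ Icc (0 : ℝ) 1, ∀ x u, (∀ v, tr (UniformFun.toFun σ) x u v +
      t * (tr (UniformFun.toFun σ') x u v - tr (UniformFun.toFun σ) x u v) = 0) → u = 0 := by
    intro t ht x u e
    have a1 : ‖tr (UniformFun.toFun σ) x u‖ ≤ c / 2 * ‖u‖ := by
      refine ContinuousLinearMap.opNorm_le_bound _ (by positivity) fun v => ?_
      have a2 : ‖UniformFun.toFun σ (J.symm x) - UniformFun.toFun σ' (J.symm x)‖ ≤ c / 2 := by
        rw [← dist_eq_norm]; exact (hd (J.symm x)).le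
      have a3 := ContinuousAlternatingMap.le_of_opNorm_le a2 ![J.symm u, J.symm v]
      rw [Fin.prod_univ_two] at a3
      have a4 : ‖J.symm u‖ * ‖J.symm v‖ ≤ ‖u‖ * ‖v‖ :=
        mul_le_mul (hJ u) (hJ v) (norm_nonneg _) (norm_nonneg _)
      have a5 : tr (UniformFun.toFun σ) x u v = t * (UniformFun.toFun σ (J.symm x) -
          UniformFun.toFun σ' (J.symm x)) ![J.symm u, J.symm v] := by
        have := e v
        simp only [tr, T2_apply, ContinuousAlternatingMap.sub_apply] at this ⊢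
        linarith only [this]
      rw [a5, norm_mul, Real.norm_of_nonneg ht.1]
      simp only [Matrix.cons_val_zero, Matrix.cons_val_one] at a3
      refine (mul_le_of_le_one_left (norm_nonneg _) ht.2).trans (a3.trans ?_)
      nlinarith only [c0, a4]
    have a6 : ‖u‖ ≤ 0 := by nlinarith [hl x u, norm_nonneg u]
    exact norm_le_zero_iff.1 a6
  exact ⟨nr_of_close hc (cl_tr hσ.1) (cl_tr hσ'.1) (coh_tr hσ.2) (coh_tr hσ'.2) key,
    nr_of_close hc (cl_tr hσ'.1) (cl_tr hσ.1) (coh_tr hσ'.2) (coh_tr hσ.2) fun t ht x u e =>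
      key (1 - t) ⟨by linarith [ht.2], by linarith [ht.1]⟩ x u fun v => by linarith [e v]⟩

/-- The standard symplectic form. -/
noncomputable def std : R4 [⋀^Fin 2]→L[ℝ] ℝ :=
  ContinuousAlternatingMap.alternatizeUncurryFin
    (((ContinuousAlternatingMap.ofSubsingletonLIE (𝕜 := ℝ) (E := R4) (F := ℝ)
      (0 : Fin 1)).toContinuousLinearEquiv : (R4 →L[ℝ] ℝ) →L[ℝ] (R4 [⋀^Fin 1]→L[ℝ] ℝ)).comp
    ((ContinuousLinearMap.proj 0 : R4 →L[ℝ] ℝ).smulRight
        (ContinuousLinearMap.proj 1 : R4 →L[ℝ] ℝ) +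
      (ContinuousLinearMap.proj 2 : R4 →L[ℝ] ℝ).smulRight
        (ContinuousLinearMap.proj 3 : R4 →L[ℝ] ℝ)))

theorem std_apply (u v : R4) : std ![u, v] = u 0 * v 1 - u 1 * v 0 + u 2 * v 3 - u 3 * v 2 := by
  rw [std, ContinuousAlternatingMap.alternatizeUncurryFin_apply, Fin.sum_univ_two]
  change (-1 : ℤ) ^ 0 • (u 0 * v 1 + u 2 * v 3) + (-1 : ℤ) ^ 1 • (v 0 * u 1 + v 2 * u 3) = _
  simp only [Int.reduceNeg, pow_zero, Fin.isValue, smul_add, one_smul, pow_one, neg_smul]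
  ring

theorem T2_std (u v : E) : T2 std u v = om0 u v := by
  rw [T2_apply, std_apply, J_symm, J_symm, om0]
  simp only [Nat.succ_eq_add_one, Nat.reduceAdd, Fin.isValue, Matrix.cons_val_zero, Matrix.cons_val_one, Matrix.cons_val]

theorem om0_I (a : E) : om0 a (Complex.I • a) = ‖a‖ ^ 2 := by
  rw [EuclideanSpace.norm_sq_eq, Fin.sum_univ_two, Complex.sq_norm, Complex.sq_norm,
    Complex.normSq_apply, Complex.normSq_apply, om0]
  simp only [Fin.isValue, PiLp.smul_apply, smul_eq_mul, Complex.mul_im, Complex.I_re, zero_mul, Complex.I_im, one_mul, zero_add, Complex.mul_re, zero_sub, mul_neg, sub_neg_eq_add]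
  ring

theorem ext_const {k : ℕ} (a : R4 [⋀^Fin k]→L[ℝ] ℝ) (x : R4) : extDeriv (fun _ => a) x = 0 := by
  ext m
  rw [extDeriv_apply (differentiableAt_const a)]
  simp only [Int.reduceNeg, fderiv_fun_const, Pi.zero_apply, zero_apply, smul_zero, Finset.sum_const_zero, ContinuousAlternatingMap.coe_zero]

theorem form_d {lam : R4 → R4 [⋀^Fin 1]→L[ℝ] ℝ} (h : IsForm lam) (a : R4 [⋀^Fin 2]→L[ℝ] ℝ) :
    IsForm (fun x => a + extDeriv lam x) ∧ extDeriv (fun x => a + extDeriv lam x) = 0 := by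
  have h1 : ContDiff ℝ ∞ (extDeriv lam) := by
    exact (ContinuousAlternatingMap.alternatizeUncurryFinCLM ℝ R4 ℝ).contDiff.comp
      (h.1.fderiv_right (m := ∞) le_rfl)
  refine ⟨⟨contDiff_const.add h1, fun n x => ?_⟩, funext fun x => ?_⟩
  · simp only [extDeriv, fderiv_per (h.2 n)]
  · rw [extDeriv_fun_add (differentiableAt_const a) (h1.differentiable (by simp) x), ext_const,
      extDeriv_extDeriv h.1 (by simp; norm_cast)]
    simp

theorem pull {φ : E → E} (h : Dif φ) : ∃ σ, IsSymp σ ∧ Cohom (fun _ => std) σ ∧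
    ∀ x u v, tr σ x u v = om0 (fderiv ℝ φ x u) (fderiv ℝ φ x v) := by
  obtain ⟨w, hw⟩ : ∃ w : E → E, ∀ x, w x = φ x - x := ⟨_, fun _ => rfl⟩
  have w1 : ContDiff ℝ ∞ w := by rw [funext hw]; exact h.smooth.sub contDiff_id
  have w2 : ∀ n, Lat n → ∀ x, w (x + n) = w x := fun n hn x => by
    rw [hw, hw, h.eqv x n hn]; abel
  have w3 : ∀ x u, fderiv ℝ φ x u = u + fderiv ℝ w x u := fun x u => by
    rw [funext hw, fderiv_fun_sub (h.smooth.differentiable (by simp) x) differentiableAt_fun_id]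
    simp
  have w4 : ContDiff ℝ ∞ (fderiv ℝ w) := w1.fderiv_right (m := ∞) le_rfl
  obtain ⟨l, hl⟩ : ∃ l : E → E →L[ℝ] ℝ, ∀ x v,
      l x v = T2 std (w x) v + 1 / 2 * T2 std (w x) (fderiv ℝ w x v) :=
    ⟨fun x => T2 std (w x) + (1 / 2 : ℝ) • (T2 std (w x)).comp (fderiv ℝ w x), fun _ _ => rfl⟩
  have l1 : ContDiff ℝ ∞ l := contDiff_clm_apply_iff.2 fun v => by
    simp only [hl]
    have := (T2 std).contDiff.comp w1
    exact (this.clm_apply contDiff_const).add
      (contDiff_const.mul (this.clm_apply (w4.clm_apply contDiff_const)))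
  have l2 : ∀ x u v, fderiv ℝ l x u v = T2 std (fderiv ℝ w x u) v + 1 / 2 *
      (T2 std (fderiv ℝ w x u) (fderiv ℝ w x v) +
        T2 std (w x) (fderiv ℝ (fderiv ℝ w) x u v)) := by
    intro x u v
    rw [fd_ev (l1.differentiable (by simp) x)]
    simp only [hl]
    have a1 := (T2 std).hasFDerivAt.comp x (w1.differentiable (by simp) x).hasFDerivAt
    have a2 := (w4.differentiable (by simp) x).hasFDerivAt.clm_apply (hasFDerivAt_const v x)
    rw [show fderiv ℝ (fun y => T2 std (w y) v + 1 / 2 * T2 std (w y) (fderiv ℝ w y v)) x = _ from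
      ((a1.clm_apply (hasFDerivAt_const v x)).add ((a1.clm_apply a2).const_mul (1 / 2))).fderiv]
    simp
    ring
  obtain ⟨lam, hlam⟩ : ∃ lam : R4 → R4 [⋀^Fin 1]→L[ℝ] ℝ, lam = fun x => S1 (l (J x)) := ⟨_, rfl⟩
  have f1 : IsForm lam := by
    rw [hlam]
    refine ⟨S1.contDiff.comp (l1.comp J.contDiff), fun n x => congrArg S1 ?_⟩
    ext v
    rw [map_add, hl, hl, w2 _ (lat_J n), fderiv_per (w2 _ (lat_J n))]
  have f2 : ∀ x p q, fderiv ℝ lam x p ![q] = fderiv ℝ l (J x) (J p) (J q) := fun x p q => by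
    rw [hlam, show fderiv ℝ (fun x : R4 => S1 (l (J x))) x = _ from (S1.hasFDerivAt.comp x
      ((l1.differentiable (by simp) _).hasFDerivAt.comp x J.hasFDerivAt)).fderiv]
    rfl
  have f3 : ∀ x u v, tr (fun x => std + extDeriv lam x) x u v =
      om0 (fderiv ℝ φ x u) (fderiv ℝ φ x v) := by
    intro x u v
    rw [tr, T2_apply, ContinuousAlternatingMap.add_apply, d1, f2, f2, ← T2_apply]
    simp only [ContinuousLinearEquiv.apply_symm_apply]
    rw [l2, l2, w3, w3, (w1.contDiffAt.isSymmSndFDerivAt (by simp; norm_cast)).eq v u]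
    simp only [T2_std, om0, PiLp.add_apply, Complex.add_re, Complex.add_im]
    ring
  refine ⟨fun x => std + extDeriv lam x, ⟨(form_d f1 std).1, (form_d f1 std).2, fun x u hu => ?_⟩,
    ⟨lam, f1, fun _ => rfl⟩, f3⟩
  · obtain ⟨v, hv⟩ := LinearMap.injective_iff_surjective.1
      (show Injective (fderiv ℝ φ (J x) : E →ₗ[ℝ] E) from h.dinj _)
      (Complex.I • fderiv ℝ φ (J x) (J u))
    refine ⟨J.symm v, ?_⟩
    have a1 := f3 (J x) (J u) v
    rw [tr, T2_apply, J.symm_apply_apply, J.symm_apply_apply,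
      show fderiv ℝ φ (J x) v = _ from hv, om0_I] at a1
    rw [a1]
    refine pow_ne_zero _ (norm_ne_zero_iff.2 fun e => hu ?_)
    simpa using h.dinj _ (e.trans (map_zero _).symm)

end Bridge

end Br'

open Br' in
theorem thFinal (h1 : StHtp) (h2 : StGH) (h3 : StNoH) :
    ∃ σ₀ : (Fin 4 → ℝ) → (Fin 4 → ℝ) [⋀^Fin 2]→L[ℝ] ℝ,
      (∀ x u v, σ₀ x ![u, v] = u 0 * v 1 - u 1 * v 0 + u 2 * v 3 - u 3 * v 2) ∧ IsSymp σ₀ ∧
      ¬ IsPreconnected {σ : UniformFun (Fin 4 → ℝ) ((Fin 4 → ℝ) [⋀^Fin 2]→L[ℝ] ℝ) |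
        IsSymp (UniformFun.toFun σ) ∧ Cohom σ₀ (UniformFun.toFun σ)} := by
  obtain ⟨hs, ht, hi, hd, -, -, -, -, hc⟩ := h1
  obtain ⟨φ, p1, p2⟩ := h3
  have s0 : IsSymp fun _ => std := by
    refine ⟨⟨contDiff_const, fun _ _ => rfl⟩, funext (ext_const _), fun _ u hu => ?_⟩
    refine ⟨J.symm (Complex.I • J u), ?_⟩
    have := T2_apply std (J u) (Complex.I • J u)
    rw [J.symm_apply_apply, T2_std, om0_I] at this
    rw [← this]
    simpa using hu
  refine ⟨fun _ => std, fun _ => std_apply, s0, fun hS => p2 ?_⟩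
  obtain ⟨σ, a1, a2, a3⟩ := pull p1
  obtain ⟨μ, m1, m2⟩ := nr_of_conn (fun x => by
      obtain ⟨n, n1, n2⟩ := hc x
      exact ⟨-n, lat_neg n1, by simpa only [← sub_eq_add_neg, Metric.mem_closedBall, dist_zero_right] using n2⟩) hS s0
    ⟨fun _ => 0, ⟨contDiff_const, fun _ _ => rfl⟩, fun x => by rw [ext_const, add_zero]⟩ a1 a2 (1 / 2)
    (by norm_num)
  have d1 : Dif μ := ⟨m1.smooth, fun x n hn => m1.eqv n hn x, m1.bij.1, m1.inv⟩
  have d2 : IsoId μ := by
    obtain ⟨H, b1, b2, b3, b4, b5⟩ := m1.iso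
    exact ⟨H, b1, b2, b3, fun t ht => ⟨fun x n hn => b5 t n hn x, b4 t ht⟩⟩
  refine ht _ _ _ (hi φ μ p1 d2) (h2 _ (hd φ μ p1 d1) fun x v hv => ?_)
  have b1 := (abs_le.1 (m2 x v (Complex.I • v))).1
  rw [a3, tr, T2_std, om0_I, norm_smul, Complex.norm_I] at b1
  rw [fderiv_fun_comp x (p1.smooth.differentiable (by simp) _) (m1.diff x)]
  have b2 : 0 < ‖v‖ ^ 2 := pow_pos (norm_pos_iff.2 hv) 2
  simp only [ContinuousLinearMap.comp_apply]
  linarith only [b1, b2]

end Pool.Agent.MP_be5fd0_gt.T
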