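import Pool.Agent.MP_be5fd0_gt.H27.Defs

attribute [-instance] LeftPreLieAlgebra.toModule LieAdmissibleAlgebra.toModule
  RightPreLieAlgebra.toModule AddQuantale.instAddLeftMono NumberField.to_charZero
  TotallySeparatedSpace.t2Space RKHS.instFunLike AddQuantale.instAddRightMono
  IdemSemiring.toCanonicallyOrderedAdd continuousSub_of_discreteTopology DivisionRing.toRing
  Quantale.instMulRightMono ProperSMul.toContinuousSMul CommRing.toRing
  FiniteDimensional.rclike_to_real NonUnitalRing.toNonUnitalNonAssocRing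
  NonarchimedeanAddGroup.toIsTopologicalAddGroup CommSemiring.toSemiring
  continuousSub_of_indiscreteTopology IsModuleTopology.toContinuousSMul Valued.toUniformSpace
  NormedRing.toRing NeZero.of_gt' instCoeOTCOfCoeOut littleWedderburn instCoeTOfCoeDep
  instCoeHTCOfCoeHeadOfCoeOTC LinearOrderedCommMonoidWithZero.toPosMulStrictMono
  NonUnitalNonAssocSemiring.toAddCommMonoid IsTopologicalTorsor.toContinuousSMul
  AddCommGroupWithOne.toAddGroupWithOne IdemSemiring.toMulLeftMono Invertible.toNeZero instCoeTCOfCoe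

/-! The diffeomorphism. -/

namespace Pool.Agent.MP_be5fd0_gt.T

open Complex Filter Topology Set Metric MeasureTheory
open scoped ContDiff BoundedContinuousFunction

noncomputable section

namespace P0'

theorem q_unit (o ψ : ℝ) : qw o ψ ^ 2 + qx o ψ ^ 2 + qy o ψ ^ 2 = 1 := by
  unfold qw qx qy
  linear_combination (Real.sin ψ ^ 2 * (1 - Real.cos o) ^ 2) * Real.sin_sq_add_cos_sq ψ +
    Real.sin ψ ^ 2 * Real.sin_sq_add_cos_sq o

theorem nq_rot {w x y : ℝ} (h : w ^ 2 + x ^ 2 + y ^ 2 = 1) (z : ℝ × ℂ) :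
    nq (rot w x y z) = nq z := by
  simp only [nq, rot, normSq_apply]
  linear_combination
    (4 * (x ^ 2 + y ^ 2) * z.2.im ^ 2 + 4 * (y * z.1 - x * z.2.re) ^ 2) * h

theorem rot_neg {w x y : ℝ} (h : w ^ 2 + x ^ 2 + y ^ 2 = 1) (z : ℝ × ℂ) :
    rot w (-x) (-y) (rot w x y z) = z := by
  refine Prod.ext ?_ (Complex.ext ?_ ?_)
  · simp only [rot]
    linear_combination (4 * y ^ 2 * z.1 - 4 * x * y * z.2.re) * h
  · simp only [rot]
    linear_combination (4 * x ^ 2 * z.2.re - 4 * x * y * z.1) * h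
  · simp only [rot]
    linear_combination (4 * (x ^ 2 + y ^ 2) * z.2.im) * h

theorem rot_one (z : ℝ × ℂ) : rot 1 0 0 z = z := by
  refine Prod.ext ?_ (Complex.ext ?_ ?_) <;> simp only [rot] <;> ring

theorem st_half : Real.smoothTransition (1 / 2) = 1 / 2 := by
  have h : 0 < expNegInvGlue (1 / 2) := expNegInvGlue.pos_of_pos (by norm_num)
  unfold Real.smoothTransition
  rw [show (1 : ℝ) - 1 / 2 = 1 / 2 by norm_num]
  field_simp
  norm_num

theorem om_smooth : ContDiff ℝ ∞ om := by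
  unfold om
  exact contDiff_const.mul (Real.smoothTransition.contDiff.comp
    ((contDiff_const.mul contDiff_id).add contDiff_const))

theorem ps_smooth : ContDiff ℝ ∞ ps := by
  unfold ps
  exact contDiff_const.mul (Real.smoothTransition.contDiff.comp
    ((contDiff_const.sub (contDiff_const.mul contDiff_id)).div_const _))

theorem om_lo {u : ℝ} (h : u ≤ -(1 / 100)) : om u = 0 := by
  unfold om
  rw [Real.smoothTransition.zero_of_nonpos (by linarith), mul_zero]

theorem om_hi {u : ℝ} (h : 1 / 100 ≤ u) : om u = 2 * Real.pi := by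
  unfold om
  rw [Real.smoothTransition.one_of_one_le (by linarith), mul_one]

theorem ps_lo {r : ℝ} (h : r ≤ 64 / 100) : ps r = Real.pi / 2 := by
  unfold ps
  rw [Real.smoothTransition.one_of_one_le (by linarith), mul_one]

theorem ps_hi {r : ℝ} (h : 81 / 100 ≤ r) : ps r = 0 := by
  unfold ps
  rw [Real.smoothTransition.zero_of_nonpos (by linarith), mul_zero]

theorem q_triv {u : ℝ} {z : ℝ × ℂ} (h : 1 / 100 ≤ |u| ∨ 81 / 100 ≤ nq z) :
    qw (om u) (ps (nq z)) = 1 ∧ qx (om u) (ps (nq z)) = 0 ∧ qy (om u) (ps (nq z)) = 0 := by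
  unfold qw qx qy
  rcases h with h | h
  · rcases le_abs.1 h with h | h
    · rw [om_hi h, Real.cos_two_pi, Real.sin_two_pi]
      refine ⟨by ring, by ring, by ring⟩
    · rw [om_lo (by linarith), Real.cos_zero, Real.sin_zero]
      refine ⟨by ring, by ring, by ring⟩
  · rw [ps_hi h, Real.sin_zero]
    refine ⟨by ring, by ring, by ring⟩

theorem q_in {u : ℝ} {z : ℝ × ℂ} (h : nq z ≤ 64 / 100) :
    qw (om u) (ps (nq z)) = Real.cos (om u) ∧ qx (om u) (ps (nq z)) = Real.sin (om u) ∧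
      qy (om u) (ps (nq z)) = 0 := by
  unfold qw qx qy
  rw [ps_lo h, Real.sin_pi_div_two, Real.cos_pi_div_two]
  refine ⟨by ring, by ring, by ring⟩

variable {X : Type} [NormedAddCommGroup X] [NormedSpace ℝ X]

theorem cd_mk {f g : X → ℝ} (hf : ContDiff ℝ ∞ f) (hg : ContDiff ℝ ∞ g) :
    ContDiff ℝ ∞ fun p => (⟨f p, g p⟩ : ℂ) :=
  equivRealProdCLM.symm.contDiff.comp (hf.prodMk hg)

theorem cd_rot {w x y : X → ℝ} {z : X → ℝ × ℂ} (hw : ContDiff ℝ ∞ w) (hx : ContDiff ℝ ∞ x)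
    (hy : ContDiff ℝ ∞ y) (hz : ContDiff ℝ ∞ z) :
    ContDiff ℝ ∞ fun p => rot (w p) (x p) (y p) (z p) := by
  have ha : ContDiff ℝ ∞ fun p => (z p).1 := hz.fst
  have hb : ContDiff ℝ ∞ fun p => (z p).2.re := reCLM.contDiff.comp hz.snd
  have hc : ContDiff ℝ ∞ fun p => (z p).2.im := imCLM.contDiff.comp hz.snd
  have h2 : ContDiff ℝ ∞ fun _ : X => (2 : ℝ) := contDiff_const
  have h1 : ContDiff ℝ ∞ fun _ : X => (1 : ℝ) := contDiff_const
  unfold rot
  exact (((((h1.sub (h2.mul (hy.pow 2))).mul ha).add (((h2.mul hx).mul hy).mul hb))).add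
    (((h2.mul hy).mul hw).mul hc)).prodMk (cd_mk
      (((((h2.mul hx).mul hy).mul ha).add ((h1.sub (h2.mul (hx.pow 2))).mul hb)).sub
        (((h2.mul hx).mul hw).mul hc))
      ((((((h2.mul hy).mul hw).mul ha).neg).add (((h2.mul hx).mul hw).mul hb)).add
        (((h1.sub (h2.mul (hx.pow 2))).sub (h2.mul (hy.pow 2))).mul hc)))

theorem cd_nq : ContDiff ℝ ∞ nq := by
  have hb : ContDiff ℝ ∞ fun z : ℝ × ℂ => z.2.re := reCLM.contDiff.comp contDiff_snd
  have hc : ContDiff ℝ ∞ fun z : ℝ × ℂ => z.2.im := imCLM.contDiff.comp contDiff_snd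
  exact (contDiff_fst.pow 2).add ((hb.mul hb).add (hc.mul hc))

theorem cd_q :
    ContDiff ℝ ∞ (fun p : ℝ × ℝ × ℂ => qw (om p.1) (ps (nq p.2))) ∧
    ContDiff ℝ ∞ (fun p : ℝ × ℝ × ℂ => qx (om p.1) (ps (nq p.2))) ∧
    ContDiff ℝ ∞ (fun p : ℝ × ℝ × ℂ => qy (om p.1) (ps (nq p.2))) := by
  have ho : ContDiff ℝ ∞ fun p : ℝ × ℝ × ℂ => om p.1 := om_smooth.comp contDiff_fst
  have hp : ContDiff ℝ ∞ fun p : ℝ × ℝ × ℂ => ps (nq p.2) :=
    ps_smooth.comp (cd_nq.comp contDiff_snd)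
  unfold qw qx qy
  exact ⟨contDiff_const.sub ((hp.sin.pow 2).mul (contDiff_const.sub ho.cos)), hp.sin.mul ho.sin,
    (hp.sin.mul hp.cos).mul (contDiff_const.sub ho.cos)⟩

theorem neg_unit {w x y : ℝ} (h : w ^ 2 + x ^ 2 + y ^ 2 = 1) :
    w ^ 2 + (-x) ^ 2 + (-y) ^ 2 = 1 := by linear_combination h

end P0'

open P0' in
theorem thP0 : StP0 := by
  have hpi := Real.pi_pos
  refine ⟨cd_rot cd_q.1 cd_q.2.1 cd_q.2.2 contDiff_snd,
    cd_rot cd_q.1 cd_q.2.1.neg cd_q.2.2.neg contDiff_snd, fun u z => ?_, fun u z h => ?_,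
    fun u z h => ?_, fun u => ?_, ?_, q_unit, fun w x y z h => ⟨nq_rot h z, rot_neg h z⟩,
    ⟨om_smooth.continuous, ?_, fun u => ?_, fun u hu => ?_, fun u hu => ?_, fun u => om_lo,
      fun u => om_hi⟩,
    ⟨ps_smooth.continuous, fun r => ?_, fun r => ps_lo, fun r => ps_hi⟩, fun t => ?_, ?_⟩
  · have h1 : nq (mv u z) = nq z := nq_rot (q_unit _ _) z
    have h2 : nq (mvi u z) = nq z := nq_rot (neg_unit (q_unit _ _)) z
    refine ⟨h1, h2, ?_, ?_⟩
    · unfold mvi
      rw [h1]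
      exact rot_neg (q_unit _ _) z
    · unfold mv
      rw [h2]
      have h := rot_neg (neg_unit (q_unit (om u) (ps (nq z)))) z
      rw [neg_neg, neg_neg] at h
      exact h
  · obtain ⟨h1, h2, h3⟩ := q_triv h
    unfold mv mvi
    rw [h1, h2, h3, neg_zero]
    exact ⟨rot_one z, rot_one z⟩
  · obtain ⟨h1, h2, h3⟩ := q_in (u := u) h
    have hs := Real.sin_sq_add_cos_sq (om u)
    unfold mv mvi
    rw [h1, h2, h3]
    refine ⟨Prod.ext ?_ (Complex.ext ?_ ?_), ?_⟩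
    · simp only [rot]; ring
    · simp only [rot, th, pow_two, mul_re, mul_im]
      linear_combination (-z.2.re) * hs
    · simp only [rot, th, pow_two, mul_re, mul_im]
      linear_combination (-z.2.im) * hs
    · simp only [rot]; ring
  · have h : ‖(⟨Real.cos (om u), Real.sin (om u)⟩ : ℂ)‖ ^ 2 = 1 := by
      rw [Complex.sq_norm, normSq_apply]
      linear_combination Real.sin_sq_add_cos_sq (om u)
    unfold th
    rw [norm_pow, h]
  · exact ((cd_mk om_smooth.cos om_smooth.sin).continuous).pow 2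
  · unfold om
    rw [mul_zero, zero_add, st_half]
    ring
  · have h0 := Real.smoothTransition.nonneg (50 * u + 1 / 2)
    have h1 := Real.smoothTransition.le_one (50 * u + 1 / 2)
    unfold om
    exact ⟨by positivity, mul_le_of_le_one_right (by positivity) h1⟩
  · have h := Real.smoothTransition.monotone (show 50 * u + 1 / 2 ≤ 1 / 2 by linarith only [hu])
    rw [st_half] at h
    unfold om
    nlinarith only [hpi, h]
  · have h := Real.smoothTransition.monotone (show 1 / 2 ≤ 50 * u + 1 / 2 by linarith)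
    rw [st_half] at h
    unfold om
    nlinarith only [hpi, h]
  · have h0 := Real.smoothTransition.nonneg ((81 - 100 * r) / 17)
    have h1 := Real.smoothTransition.le_one ((81 - 100 * r) / 17)
    unfold ps
    exact ⟨by positivity, mul_le_of_le_one_right (by positivity) h1⟩
  · have h : 0 ≤ (t - 3 / 4) ^ 4 := by positivity
    unfold rho
    linarith
  · unfold rho
    exact (contDiff_const.add (contDiff_const.mul
      ((contDiff_id.sub contDiff_const).pow 4))).div_const _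

end

end Pool.Agent.MP_be5fd0_gt.T

namespace Pool.Agent.MP_be5fd0_gt.T

open Complex Filter Topology Set Metric MeasureTheory
open scoped ContDiff BoundedContinuousFunction

noncomputable section

namespace P1'

def uu (x : E) : ℝ := (x 1).im - Kf (x 1).re
def zz (x : E) : ℝ × ℂ := ((x 1).re - 3 / 4, x 0 / rho (x 1).re)
def bld (u : ℝ) (m : ℝ × ℂ) : E :=
  mk (rho (m.1 + 3 / 4) * m.2) ⟨m.1 + 3 / 4, u + Kf (m.1 + 3 / 4)⟩
def tg (f : ℝ → ℝ × ℂ → ℝ × ℂ) (x : E) : E := bld (uu x) (f (uu x) (zz x))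
def per (F : E → E) (x : E) : E := F (x - cell x) + cell x

structure Ok (f : ℝ → ℝ × ℂ → ℝ × ℂ) : Prop where
  sm : ContDiff ℝ ∞ (fun p : ℝ × ℝ × ℂ => f p.1 p.2)
  nq : ∀ u z, nq (f u z) = nq z
  out : ∀ u z, (1 / 100 ≤ |u| ∨ 81 / 100 ≤ T.nq z) → f u z = z

theorem mk0 (a b : ℂ) : mk a b 0 = a := by simp [mk]
theorem mk1 (a b : ℂ) : mk a b 1 = b := by simp [mk]
theorem ext2 {x y : E} (h0 : x 0 = y 0) (h1 : x 1 = y 1) : x = y := by
  ext i; fin_cases i
  · exact h0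
  · exact h1

theorem rho_pos (t : ℝ) : 0 < rho t := by unfold rho; positivity
theorem rho_ne (t : ℝ) : (rho t : ℂ) ≠ 0 := by exact_mod_cast (rho_pos t).ne'

theorem bld_self (x : E) : bld (uu x) (zz x) = x := by
  refine ext2 ?_ ?_
  · simp only [bld, zz, mk0, sub_add_cancel]
    rw [mul_div_cancel₀ _ (rho_ne _)]
  · simp only [bld, zz, uu, mk1, sub_add_cancel]

theorem uu_bld (u : ℝ) (m : ℝ × ℂ) : uu (bld u m) = u := by
  simp only [uu, bld, mk1, add_sub_cancel_right]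

theorem zz_bld (u : ℝ) (m : ℝ × ℂ) : zz (bld u m) = m := by
  simp only [zz, bld, mk0, mk1, add_sub_cancel_right]
  rw [mul_div_cancel_left₀ _ (rho_ne _)]

theorem norm_lt {x : E} (h : nq (zz x) < 81 / 100) : ‖x 0‖ < 2 / 5 := by
  simp only [nq, zz, normSq_eq_norm_sq, norm_div, norm_real, Real.norm_eq_abs,
    abs_of_pos (rho_pos _)] at h
  have h1 : ((x 1).re - 3 / 4) ^ 2 ≤ 81 / 100 := by nlinarith only [h]
  have h2 : rho (x 1).re ≤ 169 / 400 := by
    have h3 := pow_le_pow_left₀ (sq_nonneg _) h1 2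
    rw [← pow_mul] at h3
    unfold rho
    norm_num only [ge_iff_le] at h3 ⊢
    linarith only [h3]
  have h3 : ‖x 0‖ / rho (x 1).re < 9 / 10 := by
    refine lt_of_pow_lt_pow_left₀ 2 (by norm_num) ?_
    nlinarith only [h]
  rw [div_lt_iff₀ (rho_pos _)] at h3
  linarith only [h2, h3]

theorem tg_out {f} (hf : Ok f) {x : E} (h : 1 / 100 ≤ |uu x| ∨ 81 / 100 ≤ nq (zz x)) :
    tg f x = x := by
  rw [tg, hf.out _ _ h, bld_self]

theorem c0 : ContDiff ℝ ∞ fun x : E => x 0 := (contDiff_piLp 2).1 contDiff_id 0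
theorem c1 : ContDiff ℝ ∞ fun x : E => x 1 := (contDiff_piLp 2).1 contDiff_id 1
theorem cre : ContDiff ℝ ∞ fun x : ℂ => x.re := reCLM.contDiff
theorem cim : ContDiff ℝ ∞ fun x : ℂ => x.im := imCLM.contDiff
theorem cof : ContDiff ℝ ∞ fun x : ℝ => (x : ℂ) := ofRealCLM.contDiff
theorem cK : ContDiff ℝ ∞ Kf := by unfold Kf; fun_prop
theorem crho : ContDiff ℝ ∞ rho := by unfold rho; fun_prop

theorem cuu : ContDiff ℝ ∞ uu := (cim.comp c1).sub (cK.comp (cre.comp c1))

theorem czz : ContDiff ℝ ∞ zz := by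
  refine ((cre.comp c1).sub contDiff_const).prodMk ?_
  have h : ContDiff ℝ ∞ fun x : E => (rho (x 1).re)⁻¹ :=
    (crho.comp (cre.comp c1)).inv fun x => (rho_pos _).ne'
  simp only [div_eq_mul_inv, ← ofReal_inv]
  exact c0.mul (cof.comp h)

theorem cbld : ContDiff ℝ ∞ fun p : ℝ × ℝ × ℂ => bld p.1 p.2 := by
  have h : ContDiff ℝ ∞ fun p : ℝ × ℝ × ℂ => p.2.1 + 3 / 4 := contDiff_snd.fst.add contDiff_const
  rw [contDiff_piLp]
  intro i
  fin_cases i
  · simp only [bld, Fin.zero_eta, mk0]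
    exact (cof.comp (crho.comp h)).mul contDiff_snd.snd
  · simp only [bld, Fin.mk_one, mk1, mk_eq_add_mul_I]
    exact (cof.comp h).add ((cof.comp (contDiff_fst.add (cK.comp h))).mul contDiff_const)

theorem ctg {f} (hf : Ok f) : ContDiff ℝ ∞ (tg f) := by
  have h1 : ContDiff ℝ ∞ fun x : E => f (uu x) (zz x) :=
    ContDiff.comp (g := fun p : ℝ × ℝ × ℂ => f p.1 p.2) (f := fun x : E => (uu x, zz x))
      hf.sm (cuu.prodMk czz)
  exact ContDiff.comp (g := fun p : ℝ × ℝ × ℂ => bld p.1 p.2)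
    (f := fun x : E => (uu x, f (uu x) (zz x))) cbld (cuu.prodMk h1)

theorem rnd {a : ℝ} {n : ℤ} (h : |a - n| < 1 / 2) : round a = n := by
  rw [round_eq, Int.floor_eq_iff]
  rw [abs_lt] at h
  constructor <;> linarith only [h.1, h.2]

theorem red (x : E) : ((x - cell x) 0).re = (x 0).re - round (x 0).re ∧
    ((x - cell x) 0).im = (x 0).im - round (x 0).im ∧ ((x - cell x) 1).re = (x 1).re ∧
    uu (x - cell x) = uu x - round (uu x) := by
  simp only [uu, cell, PiLp.sub_apply, mk0, mk1, sub_re, sub_im, sub_zero, true_and]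
  ring

theorem cell_per {f} (hf : Ok f) (x : E) : cell (per (tg f) x) = cell x := by
  by_cases h : 1 / 100 ≤ |uu (x - cell x)| ∨ 81 / 100 ≤ nq (zz (x - cell x))
  · rw [per, tg_out hf h, sub_add_cancel]
  · rw [not_or, not_le, not_le] at h
    have h1 : ‖tg f (x - cell x) 0‖ < 2 / 5 := norm_lt (by rw [tg, zz_bld, hf.nq]; exact h.2)
    have h2 : uu (tg f (x - cell x)) = uu (x - cell x) := uu_bld _ _
    have h3 := abs_re_le_norm (tg f (x - cell x) 0)
    have h4 := abs_im_le_norm (tg f (x - cell x) 0)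
    have h5 := h.1
    rw [← h2] at h5
    unfold per
    generalize tg f (x - cell x) = w at h1 h3 h4 h5 ⊢
    have e0 : round ((w + cell x) 0).re = round (x 0).re := by
      refine rnd ?_
      simp only [cell, PiLp.add_apply, mk0, add_re, add_sub_cancel_right]
      linarith only [h1, h3]
    have e1 : round ((w + cell x) 0).im = round (x 0).im := by
      refine rnd ?_
      simp only [cell, PiLp.add_apply, mk0, add_im, add_sub_cancel_right]
      linarith only [h1, h4]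
    have e2 : round (((w + cell x) 1).im - Kf ((w + cell x) 1).re) =
        round ((x 1).im - Kf (x 1).re) := by
      refine rnd ?_
      simp only [cell, PiLp.add_apply, mk1, add_re, add_im, add_zero]
      rw [add_sub_right_comm, add_sub_cancel_right]
      unfold uu at h5
      linarith only [h5]
    conv_lhs => rw [cell, e0, e1, e2]
    rfl

theorem per_inv {f f'} (hf : Ok f) (h : ∀ u z, f' u (f u z) = z) (x : E) :
    per (tg f') (per (tg f) x) = x := by
  rw [per, cell_per hf, per, add_sub_cancel_right, tg, tg, uu_bld, zz_bld, h, bld_self,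
    sub_add_cancel]

theorem cell_add {x n : E} (hn : Lat n) (h : (n 1).re = 0) : cell (x + n) = cell x + n := by
  obtain ⟨⟨j, k, h0⟩, ⟨j', k', h1⟩⟩ := hn
  have e0 : (n 0).re = j := by simp [h0]
  have e1 : (n 0).im = k := by simp [h0]
  have e2 : (n 1).im = k' := by simp [h1]
  refine ext2 (Complex.ext ?_ ?_) (Complex.ext ?_ ?_) <;>
    simp only [cell, PiLp.add_apply, mk0, mk1, add_re, add_im, e0, e1, e2, h, add_zero,
      round_add_intCast, Int.cast_add]
  rw [add_sub_right_comm, round_add_intCast, Int.cast_add]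

theorem far {g : E → ℝ} (hg : Continuous g) {x : E} (h : 2 / 5 < |g x - round (g x)|) :
    ∀ᶠ y in 𝓝 x, 2 / 5 < |g y - round (g y)| := by
  have h1 : ∀ᶠ y in 𝓝 x, |g x - g y| < |g x - round (g x)| - 2 / 5 :=
    ((continuous_const.sub hg).abs.tendsto x).eventually_lt_const (by simpa using h)
  filter_upwards [h1] with y hy
  have h2 := round_le (g x) (round (g y))
  have h3 := abs_sub_le (g x) (g y) (round (g y))
  linarith only [hy, h2, h3]

theorem near {g : E → ℝ} (hg : Continuous g) {x : E} (h : |g x - round (g x)| ≤ 2 / 5) :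
    ∀ᶠ y in 𝓝 x, round (g y) = round (g x) := by
  have h1 : ∀ᶠ y in 𝓝 x, |g y - round (g x)| < 1 / 2 :=
    ((hg.sub continuous_const).abs.tendsto x).eventually_lt_const (h.trans_lt (by norm_num))
  exact h1.mono fun y hy => rnd hy

theorem cper {f} (hf : Ok f) : ContDiff ℝ ∞ (per (tg f)) := by
  rw [contDiff_iff_contDiffAt]
  intro x
  have g0 : Continuous fun x : E => (x 0).re := (cre.comp c0).continuous
  have g1 : Continuous fun x : E => (x 0).im := (cim.comp c0).continuous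
  have hid : (∀ᶠ y in 𝓝 x, 1 / 100 ≤ |uu (y - cell y)| ∨ 2 / 5 ≤ ‖(y - cell y) 0‖) →
      ContDiffAt ℝ ∞ (per (tg f)) x := fun h => by
    refine contDiffAt_id.congr_of_eventuallyEq (h.mono fun y hy => ?_)
    rw [per, tg_out hf (hy.imp_right fun h1 => not_lt.1 fun h2 => (norm_lt h2).not_ge h1),
      sub_add_cancel]
    rfl
  rcases lt_or_ge (2 / 5) |(x 0).re - round (x 0).re| with h0 | h0
  · refine hid ((far g0 h0).mono fun y hy => Or.inr ?_)
    rw [← (red y).1] at hy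
    exact hy.le.trans (abs_re_le_norm _)
  rcases lt_or_ge (2 / 5) |(x 0).im - round (x 0).im| with h1 | h1
  · refine hid ((far g1 h1).mono fun y hy => Or.inr ?_)
    rw [← (red y).2.1] at hy
    exact hy.le.trans (abs_im_le_norm _)
  rcases lt_or_ge (2 / 5) |uu x - round (uu x)| with h2 | h2
  · refine hid ((far cuu.continuous h2).mono fun y hy => Or.inl ?_)
    rw [← (red y).2.2.2] at hy
    linarith only [hy]
  have hc : ContDiff ℝ ∞ fun y => tg f (y - cell x) + cell x :=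
    ((ctg hf).comp (contDiff_id.sub contDiff_const)).add contDiff_const
  refine hc.contDiffAt.congr_of_eventuallyEq ?_
  filter_upwards [near g0 h0, near g1 h1, near cuu.continuous h2] with y e0 e1 e2
  have e : cell y = cell x := by
    unfold uu at e2
    rw [cell, e0, e1, e2]
    rfl
  rw [per, e]

end P1'

open P1'

theorem thP1 (h0 : StP0) : StP1 := by
  obtain ⟨s1, s2, h3, h4, -⟩ := h0
  have o1 : Ok mv := ⟨s1, fun u z => (h3 u z).1, fun u z h => (h4 u z h).1⟩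
  have o2 : Ok mvi := ⟨s2, fun u z => (h3 u z).2.1, fun u z h => (h4 u z h).2⟩
  have e : ∀ (i : ℤ) x, tauh i x = per (tg mv) (x - mk 0 i) + mk 0 i := fun i x => rfl
  intro i
  have sm : ∀ {f}, Ok f → ContDiff ℝ ∞ fun x => per (tg f) (x - mk 0 i) + mk 0 i := fun hf =>
    ((cper hf).comp (contDiff_id.sub contDiff_const)).add contDiff_const
  refine ⟨sm o1, ⟨_, sm o2, fun x => ?_, fun x => ?_⟩, fun x n hn h => ?_, fun k x => ?_,
    fun x h => ?_⟩
  · rw [e, add_sub_cancel_right, per_inv o1 fun u z => (h3 u z).2.2.1, sub_add_cancel]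
  · rw [e, add_sub_cancel_right, per_inv o2 fun u z => (h3 u z).2.2.2, sub_add_cancel]
  · rw [e, e, add_sub_right_comm, per, per, cell_add hn h, add_sub_add_right_eq_sub]
    abel
  · have h : mk 0 ((i + k : ℤ) : ℂ) = mk 0 i + mk 0 k :=
      ext2 (by simp [mk]) (by simp [mk])
    rw [e, e, h, add_sub_add_right_eq_sub, add_assoc]
  · rw [e, per, tg_out o1 (Or.inr ?_), sub_add_cancel, sub_add_cancel]
    have h1 : ((x - mk 0 i) 1).re = (x 1).re - i := by simp [mk]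
    simp only [nq, zz, (red _).2.2.1, h1]
    have h2 := normSq_nonneg ((x - mk 0 i - cell (x - mk 0 i)) 0 / rho ((x 1).re - i))
    rcases h with h | h <;> nlinarith only [h2, h]

end

end Pool.Agent.MP_be5fd0_gt.T

/-! One lift of the belt trick either rotates or moves inside its shell. -/

namespace Pool.Agent.MP_be5fd0_gt.T

open Complex Filter Topology Set Metric MeasureTheory
open scoped ContDiff BoundedContinuousFunction

namespace P2'

theorem rho_pos (t : ℝ) : 0 < rho t := by unfold rho; positivity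

theorem rho_thin {t : ℝ} (h : (t - 3 / 4) ^ 2 ≤ (13 / 50) ^ 2) : rho t ≤ 1 / 180 := by
  have h2 : ((t - 3 / 4) ^ 2) ^ 2 ≤ ((13 / 50) ^ 2) ^ 2 := pow_le_pow_left₀ (by positivity) h 2
  unfold rho; linarith

theorem rho_fat {t : ℝ} (h : (37 / 50) ^ 2 ≤ (t - 3 / 4) ^ 2) : 19 / 100 ≤ rho t := by
  have h2 : ((37 / 50 : ℝ) ^ 2) ^ 2 ≤ ((t - 3 / 4) ^ 2) ^ 2 := pow_le_pow_left₀ (by positivity) h 2
  unfold rho; linarith

theorem rho_le {t : ℝ} (h : (t - 3 / 4) ^ 2 ≤ 81 / 100) : rho t ≤ 1 / 2 := by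
  have h2 : ((t - 3 / 4) ^ 2) ^ 2 ≤ (81 / 100) ^ 2 := pow_le_pow_left₀ (by positivity) h 2
  unfold rho; linarith

theorem norm_le {t : ℝ} {w : ℂ} (h : (t - 3 / 4) ^ 2 + normSq w / rho t ^ 2 ≤ 81 / 100) :
    ‖w‖ ≤ 9 / 20 := by
  have hp := rho_pos t
  have h0 : 0 ≤ normSq w / rho t ^ 2 := div_nonneg (normSq_nonneg w) (by positivity)
  have h1 := rho_le (t := t) (by linarith)
  have h2 : normSq w / rho t ^ 2 ≤ 81 / 100 := by linarith only [sq_nonneg (t - 3 / 4), h]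
  rw [div_le_iff₀ (by positivity), normSq_eq_norm_sq] at h2
  exact le_of_sq_le_sq (by linarith only [pow_le_pow_left₀ hp.le h1 2, h2]) (by norm_num)

theorem nq_eq (a t : ℝ) (w : ℂ) : nq (a, w / rho t) = a ^ 2 + normSq w / rho t ^ 2 := by
  simp [nq, sq]

theorem isG_round (w : ℂ) : IsG ⟨round w.re, round w.im⟩ :=
  ⟨round w.re, round w.im, by apply Complex.ext <;> simp⟩

theorem round_eq_of {w n : ℂ} (hn : IsG n) (h : ‖w - n‖ ≤ 9 / 20) :
    (⟨round w.re, round w.im⟩ : ℂ) = n := by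
  obtain ⟨j, k, rfl⟩ := hn
  have h1 := abs_le.1 ((abs_re_le_norm _).trans h)
  have h2 := abs_le.1 ((abs_im_le_norm _).trans h)
  simp only [sub_re, add_re, intCast_re, mul_re, I_re, mul_zero, intCast_im, I_im, mul_one, sub_self, add_zero, neg_le_sub_iff_le_add, tsub_le_iff_right, sub_im, add_im, mul_im, zero_add] at h1 h2
  have e1 : round w.re = j := by rw [round_eq_iff]; constructor <;> linarith only [h1.1, h1.2]
  have e2 : round w.im = k := by rw [round_eq_iff]; constructor <;> linarith only [h2.1, h2.2]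
  apply Complex.ext <;> simp [e1, e2]

theorem form (i : ℤ) (y : E) : ∃ (n : ℂ) (j : ℤ) (t u : ℝ) (m : ℝ × ℂ),
    n = ⟨round (y 0).re, round (y 0).im⟩ ∧ (y 1).re = i + t ∧ (y 1).im = j + u + Kf t ∧
    m = mv u (t - 3 / 4, (y 0 - n) / rho t) ∧ tauh i y 0 - n = rho (m.1 + 3 / 4) * m.2 ∧
    (tauh i y 1).re = i + (m.1 + 3 / 4) ∧ (tauh i y 1).im = j + u + Kf (m.1 + 3 / 4) := by
  refine ⟨_, round ((y 1).im - Kf ((y 1).re - i)), (y 1).re - i,
    (y 1).im - round ((y 1).im - Kf ((y 1).re - i)) - Kf ((y 1).re - i), _, rfl, by ring, by ring,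
    rfl, ?_, ?_, ?_⟩
  · simp only [Fin.isValue, tauh, tau0, mk, cell, PiLp.sub_apply, Matrix.cons_val_zero, sub_zero, Matrix.cons_val_one, Matrix.cons_val_fin_one, sub_im, intCast_im, sub_re, intCast_re, PiLp.add_apply, add_zero, add_sub_cancel_right]
  · simp only [tauh, tau0, mk, cell, Fin.isValue, PiLp.sub_apply, Matrix.cons_val_zero, sub_zero, Matrix.cons_val_one, Matrix.cons_val_fin_one, sub_im, intCast_im, sub_re, intCast_re, PiLp.add_apply, add_re, add_zero]; ring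
  · simp only [tauh, tau0, mk, cell, Fin.isValue, PiLp.sub_apply, Matrix.cons_val_zero, sub_zero, Matrix.cons_val_one, Matrix.cons_val_fin_one, sub_im, intCast_im, sub_re, intCast_re, PiLp.add_apply, add_im, add_zero]; ring

theorem sq_le_of {a b : ℝ} (h1 : -b ≤ a) (h2 : a ≤ b) : a ^ 2 ≤ b ^ 2 := sq_le_sq' h1 h2

theorem geo {t N : ℝ} (k : ℤ) (w : ℝ) (hN : 0 ≤ N) (w1 : -(1 / 50) < w) (w2 : w < 1 / 50)
    (e : (k : ℝ) = w + 1 - 2 * t) (l1 : 64 / 100 < (t + 1 - 3 / 4) ^ 2 + N / rho (t + 1) ^ 2)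
    (l2 : (t + 1 - 3 / 4) ^ 2 + N / rho (t + 1) ^ 2 < 81 / 100)
    (c : (t - 3 / 4) ^ 2 + N / rho t ^ 2 < 81 / 100) :
    (t - 3 / 4) ^ 2 + N / rho t ^ 2 ≤ 64 / 100 := by
  have p1 := rho_pos t
  have p2 := rho_pos (t + 1)
  have q1 : 0 ≤ N / rho t ^ 2 := by positivity
  have q2 : 0 ≤ N / rho (t + 1) ^ 2 := by positivity
  have b1 := (abs_lt.1 (abs_lt_of_sq_lt_sq (a := t - 3 / 4) (b := 9 / 10) (by linarith only [c, q1])
    (by norm_num))).1
  have b2 := (abs_lt.1 (abs_lt_of_sq_lt_sq (a := t + 1 - 3 / 4) (b := 9 / 10) (by linarith only [l2, q2])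
    (by norm_num))).2
  have k1 : (-1 : ℤ) < k := by
    have : ((-1 : ℤ) : ℝ) < k := by push_cast; linarith only [w1, e, b2]
    exact_mod_cast this
  have k2 : k < 2 := by
    have : (k : ℝ) < (2 : ℤ) := by push_cast; linarith only [w2, e, b1]
    exact_mod_cast this
  have s2 : N < rho (t + 1) ^ 2 :=
    (div_lt_one (by positivity)).1 (by linarith only [sq_nonneg (t + 1 - 3 / 4), l2])
  have s3 : N < rho t ^ 2 := (div_lt_one (by positivity)).1 (by linarith only [sq_nonneg (t - 3 / 4), c])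
  obtain rfl | rfl : k = 0 ∨ k = 1 := by omega
  · exfalso
    push_cast at e
    have r1 := pow_le_pow_left₀ p1.le (rho_thin (t := t) (sq_le_of (by linarith only [w1, e]) (by linarith only [b2]))) 2
    have r2 := pow_le_pow_left₀ (by norm_num) (rho_fat (t := t + 1)
      (pow_le_pow_left₀ (by norm_num) (by linarith only [w1, e]) 2)) 2
    have r3 := sq_le_of (a := t + 1 - 3 / 4) (b := 19 / 25) (by linarith only [w1, e]) (by linarith only [w2, e])
    have s1 : 6 / 100 < N / rho (t + 1) ^ 2 := by linarith only [l1, r3]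
    rw [lt_div_iff₀ (by positivity)] at s1
    linarith only [s3, r1, r2, s1]
  · push_cast at e
    have r1 := pow_le_pow_left₀ p2.le
      (rho_thin (t := t + 1) (sq_le_of (by linarith only [b1]) (by linarith only [w2, e]))) 2
    have r0 : (37 / 50 : ℝ) ^ 2 ≤ (3 / 4 - t) ^ 2 := pow_le_pow_left₀ (by norm_num) (by linarith only [w2, e]) 2
    have r2 := pow_le_pow_left₀ (by norm_num) (rho_fat (t := t) (by linarith only [r0])) 2
    have r3 := sq_le_of (a := t - 3 / 4) (b := 19 / 25) (by linarith only [w1, e]) (by linarith only [w2, e])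
    have s1 : N / rho t ^ 2 ≤ 1 / 100 := by rw [div_le_iff₀ (by positivity)]; linarith only [s2, r1, r2]
    linarith only [r3, s1]

end P2'

open P2' in
theorem thP2 (h0 : StP0) : StP2 := by
  obtain ⟨-, -, a1, a2, a3, a4, -⟩ := h0
  intro i y
  have triv : ∀ (i : ℤ) (y : E) (n : ℂ) (j : ℤ) (t u : ℝ) (m : ℝ × ℂ) (c : ℂ), ‖c‖ = 1 →
      (y 1).re = i + t → (y 1).im = j + u + Kf t → m = (t - 3 / 4, c * ((y 0 - n) / rho t)) →
      tauh i y 0 - n = rho (m.1 + 3 / 4) * m.2 → (tauh i y 1).re = i + (m.1 + 3 / 4) →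
      (tauh i y 1).im = j + u + Kf (m.1 + 3 / 4) →
      tauh i y 1 = y 1 ∧ tauh i y 0 - n = c * (y 0 - n) := by
    intro i y n j t u m c hc e1 e2 hm f0 f1 f2
    have hp : (rho t : ℂ) ≠ 0 := by exact_mod_cast (rho_pos t).ne'
    subst hm
    simp only [sub_add_cancel] at f0 f1 f2
    refine ⟨Complex.ext (by rw [f1, e1]) (by rw [f2, e2]), ?_⟩
    rw [f0]; field_simp
  constructor
  · obtain ⟨n, j, t, u, m, hn, e1, e2, hm, f0, f1, f2⟩ := form i y
    have hG : IsG n := hn ▸ isG_round _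
    by_cases c1 : 1 / 100 ≤ |u| ∨ 81 / 100 ≤ nq (t - 3 / 4, (y 0 - n) / rho t)
    · obtain ⟨g1, g2⟩ := triv i y n j t u m 1 (by simp) e1 e2 (by rw [hm, (a2 _ _ c1).1, one_mul])
        f0 f1 f2
      exact .inl ⟨g1, .inl (by linear_combination g2)⟩
    by_cases c2 : nq (t - 3 / 4, (y 0 - n) / rho t) ≤ 64 / 100
    · obtain ⟨g1, g2⟩ := triv i y n j t u m _ (a4 u) e1 e2 (by rw [hm, (a3 _ _ c2).1]) f0 f1 f2
      refine .inl ⟨g1, .inr ⟨n, hG, by rw [g2, norm_mul, a4, one_mul], norm_le (t := t) ?_⟩⟩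
      rw [nq_eq] at c2; linarith only [c2]
    push Not at c1 c2
    refine .inr ⟨j, n, hG, t, u, m.1 + 3 / 4, e1, e2, c1.1, f1, f2, ?_, ?_, ?_⟩
    · rwa [nq_eq] at c2
    · have := c1.2; rwa [nq_eq] at this
    · have := (a1 u (t - 3 / 4, (y 0 - n) / rho t)).1
      rw [← hm, nq_eq] at this
      have hp := rho_pos (m.1 + 3 / 4)
      rw [← this, f0, nq, add_sub_cancel_right, map_mul, normSq_ofReal, ← sq,
        mul_div_cancel_left₀ _ (by positivity)]
  · rintro y' j n hG ⟨t0, u, T, -, -, hu, e1, e2, l1, l2, l3⟩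
    rw [← l3] at l1 l2
    obtain ⟨n', j', t, u', m, hn, d1, d2, hm, f0, f1, f2⟩ := form (i + 1) y
    obtain rfl : n' = n := hn.trans (round_eq_of hG (norm_le l2.le))
    by_cases c1 : 1 / 100 ≤ |u'| ∨ 81 / 100 ≤ nq (t - 3 / 4, (y 0 - n') / rho t)
    · obtain ⟨g1, g2⟩ := triv _ y n' j' t u' m 1 (by simp) d1 d2
        (by rw [hm, (a2 _ _ c1).1, one_mul]) f0 f1 f2
      exact ⟨g1, by rw [g2, one_mul]⟩
    have c2 : nq (t - 3 / 4, (y 0 - n') / rho t) ≤ 64 / 100 := by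
      push Not at c1
      obtain ⟨c1, c3⟩ := c1
      rw [nq_eq] at c3 ⊢
      obtain rfl : T = t + 1 := by push_cast at d1; linarith only [e1, d1]
      have hu1 := abs_lt.1 hu
      have hu2 := abs_lt.1 c1
      refine geo (j' - j) (u - u') (normSq_nonneg _) (by linarith only [hu1, hu2]) (by linarith only [hu1, hu2]) ?_ l1 l2 c3
      push_cast; simp only [Kf] at e2 d2; linarith only [d2, e2]
    obtain ⟨g1, g2⟩ := triv _ y n' j' t u' m _ (a4 u') d1 d2 (by rw [hm, (a3 _ _ c2).1]) f0 f1 f2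
    exact ⟨g1, by rw [g2, norm_mul, a4, one_mul]⟩

end Pool.Agent.MP_be5fd0_gt.T

/-! The infinite product of the lifts is an equivariant diffeomorphism. -/

namespace Pool.Agent.MP_be5fd0_gt.T

open Complex Filter Topology Set Metric MeasureTheory
open scoped ContDiff BoundedContinuousFunction

namespace P3'

open P2'

noncomputable def P (m : ℤ) : ℕ → E → E
  | 0, x => x
  | N + 1, x => tauh (m + N) (P m N x)

theorem P_left (m : ℤ) (N : ℕ) (x : E) : P m (N + 1) x = P (m + 1) N (tauh m x) := by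
  induction N with
  | zero => simp [P]
  | succ N ih => rw [P, ih, P]; congr 1; push_cast; ring

theorem lab_bd {y y' : E} {i j : ℤ} {n : ℂ} (h : Lab y y' i j n) :
    (‖y 0 - n‖ ≤ 9 / 20 ∧ ‖y' 0 - n‖ ≤ 9 / 20) ∧ (i : ℝ) - 3 / 20 < (y 1).re ∧
      (y' 1).re < i + 33 / 20 := by
  obtain ⟨t, u, T, e1, -, -, e2, -, -, l2, l3⟩ := h
  have q1 : 0 ≤ normSq (y 0 - n) / rho t ^ 2 := div_nonneg (normSq_nonneg _) (sq_nonneg _)
  have q2 : 0 ≤ normSq (y' 0 - n) / rho T ^ 2 := div_nonneg (normSq_nonneg _) (sq_nonneg _)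
  have a1 := abs_lt.1 (abs_lt_of_sq_lt_sq (a := t - 3 / 4) (b := 9 / 10) (by linarith only [l2, q1]) (by norm_num))
  have a2 := abs_lt.1 (abs_lt_of_sq_lt_sq (a := T - 3 / 4) (b := 9 / 10) (by linarith only [l2, l3, q2]) (by norm_num))
  exact ⟨⟨norm_le l2.le, norm_le (t := T) (by linarith only [l2, l3])⟩, by linarith only [a1.1, e1], by linarith only [a2.2, e2]⟩

theorem lab_congr {y y' x x' : E} {i j : ℤ} {n : ℂ} (h : Lab y y' i j n) (a : x 1 = y 1)
    (b : ‖x 0 - n‖ = ‖y 0 - n‖) (a' : x' 1 = y' 1) (b' : ‖x' 0 - n‖ = ‖y' 0 - n‖) :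
    Lab x x' i j n := by
  unfold Lab at h ⊢
  simp only [normSq_eq_norm_sq] at h ⊢
  rwa [a, b, a', b']

theorem inv (h1 : StP1) (h2 : StP2) (m : ℤ) (y : E) (N : ℕ) :
    (P m N y 1 = y 1 ∧ (P m N y 0 = y 0 ∨ ∃ n, IsG n ∧ ‖P m N y 0 - n‖ = ‖y 0 - n‖ ∧
      ‖y 0 - n‖ ≤ 9 / 20)) ∨ ∃ i j n, i < m + N ∧ IsG n ∧ Lab y (P m N y) i j n := by
  induction N with
  | zero => exact .inl ⟨rfl, .inl rfl⟩
  | succ N ih =>
    rw [P]
    generalize P m N y = x at ih
    rcases ih with ⟨a, b⟩ | ⟨i, j, n, hi, hn, hl⟩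
    · have key : ∀ n, IsG n → ‖x 0 - n‖ ≤ 9 / 20 → ‖y 0 - n‖ = ‖x 0 - n‖ := by
        intro n hn hx
        rcases b with b | ⟨n', hn', b1, b2⟩
        · rw [b]
        · obtain rfl : n = n' := (round_eq_of hn hx).symm.trans (round_eq_of hn' (b1 ▸ b2))
          exact b1.symm
      rcases (h2 (m + N) x).1 with ⟨c, d | ⟨n, hn, d1, d2⟩⟩ | ⟨j, n, hn, hl⟩
      · exact .inl ⟨c.trans a, d ▸ b⟩
      · exact .inl ⟨c.trans a, .inr ⟨n, hn, d1.trans (key n hn d2).symm, (key n hn d2) ▸ d2⟩⟩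
      · exact .inr ⟨_, j, n, by push_cast; omega, hn,
          lab_congr hl a.symm (key n hn (lab_bd hl).1.1) rfl rfl⟩
    · refine .inr ⟨i, j, n, by push_cast; omega, hn, ?_⟩
      by_cases e : m + N = i + 1
      · obtain ⟨c, d⟩ := (h2 i x).2 y j n hn hl
        rw [e]; exact lab_congr hl rfl rfl c d
      · have : ((i + 2 : ℤ) : ℝ) ≤ ((m + N : ℤ) : ℝ) := by exact_mod_cast (by omega)
        rw [(h1 _).2.2.2.2 x (.inl (by push_cast at this ⊢; linarith [(lab_bd hl).2.2]))]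
        exact hl

theorem P_right (h1 : StP1) (h2 : StP2) (m : ℤ) (y : E) (N : ℕ)
    (h : (y 1).re + 39 / 20 ≤ m + N) (d : ℕ) : P m (N + d) y = P m N y := by
  induction d with
  | zero => rfl
  | succ d ih =>
    rw [← add_assoc, P, ih]
    refine (h1 _).2.2.2.2 _ (.inl ?_)
    have hd : (0 : ℝ) ≤ d := Nat.cast_nonneg d
    push_cast
    rcases inv h1 h2 m y N with ⟨a, -⟩ | ⟨i, j, n, -, -, hl⟩
    · rw [a]; linarith
    · linarith [(lab_bd hl).2.1, (lab_bd hl).2.2]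

theorem P_drop (h1 : StP1) (m : ℤ) (y : E) (N : ℕ) (h : (m : ℝ) + 13 / 20 ≤ (y 1).re) (d : ℕ) :
    P (m - d) (N + d) y = P m N y := by
  induction d with
  | zero => simp
  | succ d ih =>
    have hd : (0 : ℝ) ≤ d := Nat.cast_nonneg d
    rw [← add_assoc, P_left, (h1 _).2.2.2.2 y (.inr (by push_cast; linarith)), ← ih]
    congr 1; push_cast; ring

theorem phi_eq (y : E) : phi y = P (⌊(y 1).re⌋ - 1) 4 y := by
  have e : ∀ k : ℤ, P (k - 1) 4 y = tauh (k + 2) (tauh (k + 1) (tauh k (tauh (k - 1) y))) := by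
    intro k
    rw [P, P, P, P, P, show k - 1 + (3 : ℕ) = k + 2 by omega, show k - 1 + (2 : ℕ) = k + 1 by omega,
      show k - 1 + (1 : ℕ) = k by omega, show k - 1 + (0 : ℕ) = k - 1 by omega]
  exact (e _).symm

theorem key (h1 : StP1) (h2 : StP2) (y : E) (m : ℤ) (N : ℕ) (a : m ≤ ⌊(y 1).re⌋ - 1)
    (b : ⌊(y 1).re⌋ + 3 ≤ m + N) : P m N y = phi y := by
  obtain ⟨d, hd⟩ := Int.le.dest a
  obtain ⟨e, he⟩ := Int.le.dest b
  obtain rfl : N = 4 + d + e := by omega
  obtain rfl : m = ⌊(y 1).re⌋ - 1 - d := by omega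
  have f1 := Int.floor_le (y 1).re
  have f2 := Int.lt_floor_add_one (y 1).re
  rw [P_right h1 h2 _ y _ (by push_cast; linarith), P_drop h1 _ y _ (by push_cast; linarith only [f1]),
    phi_eq]

theorem P_diff (h1 : StP1) (m : ℤ) (N : ℕ) : ContDiff ℝ ∞ (P m N) ∧
    ∃ g : E → E, ContDiff ℝ ∞ g ∧ ∀ x, g (P m N x) = x := by
  induction N with
  | zero => exact ⟨contDiff_id, id, contDiff_id, fun _ => rfl⟩
  | succ N ih =>
    obtain ⟨a, g, b, c⟩ := ih
    obtain ⟨a', ⟨g', b', c', -⟩, -⟩ := h1 (m + N)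
    exact ⟨a'.comp a, fun x => g (g' x), b.comp b', fun x => (congrArg g (c' _)).trans (c x)⟩

theorem loc (h1 : StP1) (h2 : StP2) (y : E) : phi =ᶠ[𝓝 y] P (⌊(y 1).re⌋ - 2) 6 := by
  have hc : Continuous fun x : E => (x 1).re := by fun_prop
  filter_upwards [hc.continuousAt.eventually (Ioo_mem_nhds (a := ((⌊(y 1).re⌋ - 1 : ℤ) : ℝ))
    (b := ((⌊(y 1).re⌋ + 2 : ℤ) : ℝ)) (by push_cast; linarith [Int.floor_le (y 1).re])
    (by push_cast; linarith [Int.lt_floor_add_one (y 1).re]))] with x hx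
  have a := Int.le_floor.2 hx.1.le
  have b := Int.floor_lt.2 hx.2
  exact (key h1 h2 x _ _ (by omega) (by omega)).symm

theorem eqv (h1 : StP1) : Eqv phi := by
  rintro x n ⟨hn, j, k, hk⟩
  have e : n = mk (n 0) (k * I) + mk 0 j := by
    ext i; fin_cases i <;> simp [mk, hk, add_comm]
  have hL : Lat (mk (n 0) (k * I)) := ⟨by simpa [mk] using hn, 0, k, by simp [mk]⟩
  have h0 : (mk (n 0) (k * I) 1).re = 0 := by simp [mk]
  generalize mk (n 0) (k * I) = n' at e hL h0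
  have s1 : ∀ i x, tauh (i + j) (x + n) = tauh i x + n := fun i x => by
    rw [e, ← add_assoc, (h1 i).2.2.2.1, (h1 i).2.2.1 x n' hL h0, add_assoc]
  have f : ⌊((x + n) 1).re⌋ = ⌊(x 1).re⌋ + j := by simp [hk]
  simp only [phi, f]
  rw [add_right_comm _ j 2, add_right_comm _ j 1, add_sub_right_comm, s1, s1, s1, s1]

end P3'

open P2' P3' in
theorem thP3 (h1 : StP1) (h2 : StP2) : StP3 := by
  refine ⟨⟨contDiff_iff_contDiffAt.2 fun y =>
    (P_diff h1 _ _).1.contDiffAt.congr_of_eventuallyEq (loc h1 h2 y), eqv h1, fun x y h => ?_,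
    fun y => ?_⟩, fun y => ?_, fun y => ?_, fun y i j n y' h => (lab_bd h).1⟩
  · obtain ⟨-, g, -, c⟩ := P_diff h1 (min ⌊(x 1).re⌋ ⌊(y 1).re⌋ - 1)
      ((⌊(x 1).re⌋ - ⌊(y 1).re⌋).natAbs + 4)
    rw [← c x, ← c y, key h1 h2 x _ _ (by omega) (by omega), key h1 h2 y _ _ (by omega) (by omega),
      h]
  · obtain ⟨a, g, b, c⟩ := P_diff h1 (⌊(y 1).re⌋ - 2) 6
    rw [(loc h1 h2 y).fderiv_eq]
    have e := fderiv_comp y (b.differentiable (by simp) _) (a.differentiable (by simp) y)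
    rw [show g ∘ P (⌊(y 1).re⌋ - 2) 6 = id from funext c, fderiv_id] at e
    refine Function.LeftInverse.injective (g := fderiv ℝ g (P (⌊(y 1).re⌋ - 2) 6 y)) fun v => ?_
    exact (congrArg (fun L : E →L[ℝ] E => L v) e).symm
  · have tri : ∀ n : ℂ, ‖phi y 0 - n‖ ≤ 9 / 20 → ‖y 0 - n‖ ≤ 9 / 20 → ‖phi y 0 - y 0‖ ≤ 9 / 10 :=
      fun n a b => by linarith [norm_sub_le_norm_sub_add_norm_sub (phi y 0) n (y 0), norm_sub_rev n (y 0)]
    have := inv h1 h2 (⌊(y 1).re⌋ - 1) y 4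
    rw [← phi_eq] at this
    rcases this with ⟨-, b | ⟨n, -, b1, b2⟩⟩ | ⟨i, j, n, -, -, hl⟩
    · rw [b]; norm_num
    · exact tri n (b1 ▸ b2) b2
    · exact tri n (lab_bd hl).1.2 (lab_bd hl).1.1
  · have := inv h1 h2 (⌊(y 1).re⌋ - 1) y 4
    rw [← phi_eq] at this
    rcases this with ⟨a, -⟩ | ⟨i, j, n, -, hn, hl⟩
    · exact .inl a
    · exact .inr ⟨i, j, n, hn, hl⟩

end Pool.Agent.MP_be5fd0_gt.T

/-! Formulas for the diffeomorphism near the window `t = 1 / 2`. -/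

namespace Pool.Agent.MP_be5fd0_gt.T

open Complex Filter Topology Set Metric MeasureTheory
open scoped ContDiff BoundedContinuousFunction

namespace P4'

open P2'

theorem isG0 : IsG 0 := ⟨0, 0, by simp⟩

theorem form2 (i : ℤ) (y : E) {t u : ℝ} {m : ℝ × ℂ} (h0 : ‖y 0‖ ≤ 9 / 20) (h1 : (y 1).re = i + t)
    (h2 : (y 1).im = u + Kf t) (hu : |u| ≤ 1 / 4) (hm : m = mv u (t - 3 / 4, y 0 / rho t)) :
    tauh i y 0 = rho (m.1 + 3 / 4) * m.2 ∧ (tauh i y 1).re = i + (m.1 + 3 / 4) ∧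
      (tauh i y 1).im = u + Kf (m.1 + 3 / 4) := by
  have a := round_eq_of (w := y 0) isG0 (by rwa [sub_zero])
  have b : round u = 0 := by
    rw [round_eq_iff]; constructor <;> push_cast <;> linarith only [(abs_le.1 hu).1, (abs_le.1 hu).2]
  have c : cell (y - mk 0 i) = 0 := by
    ext k; fin_cases k
    · simpa [cell, mk] using a
    · simp [cell, mk, h1, h2, b, Complex.ext_iff]
  subst hm
  rw [tauh, c]
  refine ⟨?_, ?_, ?_⟩ <;> simp only [Fin.isValue, tau0, mk, sub_zero, PiLp.sub_apply, Matrix.cons_val_one, Matrix.cons_val_fin_one, sub_im, h2, intCast_im, sub_re, h1, intCast_re, add_sub_cancel_left, add_sub_cancel_right, Matrix.cons_val_zero, add_zero, PiLp.add_apply, add_re, add_im]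
  ring

theorem tri (h0 : StP0) (u : ℝ) (z : ℝ × ℂ) : (∃ c : ℂ, ‖c‖ = 1 ∧ mv u z = (z.1, c * z.2)) ∨
    |u| < 1 / 100 ∧ 64 / 100 < nq z ∧ nq z < 81 / 100 ∧ (mv u z).1 ≤ 9 / 10 := by
  obtain ⟨-, -, a1, a2, a3, a4, -⟩ := h0
  by_cases c1 : 1 / 100 ≤ |u| ∨ 81 / 100 ≤ nq z
  · exact .inl ⟨1, by simp, by rw [(a2 _ _ c1).1, one_mul]⟩
  by_cases c2 : nq z ≤ 64 / 100
  · exact .inl ⟨_, a4 u, (a3 _ _ c2).1⟩
  push Not at c1 c2
  refine .inr ⟨c1.1, c2, c1.2, le_of_sq_le_sq ?_ (by norm_num)⟩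
  have := (a1 u z).1
  rw [nq] at this
  linarith only [normSq_nonneg (mv u z).2, c1.2, this]

theorem fix {i : ℤ} {y : E} {t u : ℝ} {c : ℂ} (h0 : ‖y 0‖ ≤ 9 / 20) (h1 : (y 1).re = i + t)
    (h2 : (y 1).im = u + Kf t) (hu : |u| ≤ 1 / 4)
    (hm : mv u (t - 3 / 4, y 0 / rho t) = (t - 3 / 4, c * (y 0 / rho t))) :
    tauh i y 1 = y 1 ∧ tauh i y 0 = c * y 0 := by
  obtain ⟨f0, f1, f2⟩ := form2 i y h0 h1 h2 hu hm.symm
  have hp : (rho t : ℂ) ≠ 0 := by exact_mod_cast (rho_pos t).ne'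
  simp only [sub_add_cancel] at f0 f1 f2
  refine ⟨Complex.ext (by rw [f1, h1]) (by rw [f2, h2]), ?_⟩
  rw [f0]; field_simp

theorem shell (h0 : StP0) (hP : StP2) {i : ℤ} {y : E} {t u : ℝ} (h : ‖y 0‖ ≤ 9 / 20)
    (h1 : (y 1).re = i + t) (h2 : (y 1).im = u + Kf t) (hu : |u| < 1 / 100)
    (l1 : 64 / 100 < nq (t - 3 / 4, y 0 / rho t)) (l2 : nq (t - 3 / 4, y 0 / rho t) < 81 / 100) :
    tauh (i + 1) (tauh i y) 1 = tauh i y 1 ∧ ‖tauh (i + 1) (tauh i y) 0‖ = ‖tauh i y 0‖ := by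
  obtain ⟨f0, f1, f2⟩ := form2 i y h h1 h2 (by linarith only [hu]) rfl
  have a := (h0.2.2.1 u (t - 3 / 4, y 0 / rho t)).1
  generalize mv u (t - 3 / 4, y 0 / rho t) = m at *
  rw [nq_eq] at l1 l2 a
  have hp := rho_pos (m.1 + 3 / 4)
  simpa using (hP i (tauh i y)).2 y 0 0 isG0 ⟨t, u, m.1 + 3 / 4, h1, by simpa using h2, hu, f1,
    by simpa using f2, by rwa [sub_zero], by rwa [sub_zero], by
      rw [sub_zero, sub_zero, ← a, f0, nq, add_sub_cancel_right, map_mul, normSq_ofReal, ← sq,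
        mul_div_cancel_left₀ _ (by positivity)]⟩

end P4'

open P2' P4' in
theorem thP4 (h0 : StP0) (h1 : StP1) (h2 : StP2) : StP4 := by
  intro y t u e1 e2 ht hu
  obtain ⟨t1, t2⟩ := abs_le.1 ht
  obtain ⟨u1, u2⟩ := abs_le.1 hu
  have sup : ∀ (i : ℤ) (x : E), (x 1).re ≤ (i : ℝ) - 3 / 20 → tauh i x = x := fun i x h =>
    (h1 i).2.2.2.2 x (.inl h)
  have ph : phi y = tauh 2 (tauh 1 (tauh 0 (tauh (-1) y))) := by
    rw [phi, show ⌊(y 1).re⌋ = 0 by rw [Int.floor_eq_iff, e1]; constructor <;> push_cast <;> linarith only [t1, t2]]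
    rfl
  have e3 : (y 1).re = ((-1 : ℤ) : ℝ) + (t + 1) := by rw [e1]; push_cast; ring
  have e4 : t + 1 / 4 = t + 1 - 3 / 4 := by ring
  have e5 : (y 1).im = u + 1 - 2 * t + Kf t := by rw [e2, Kf, Kf]; ring
  have e6 : (y 1).re = ((0 : ℤ) : ℝ) + t := by rw [e1]; simp
  have hu' : |u + 1 - 2 * t| ≤ 1 / 4 := abs_le.2 ⟨by linarith only [t2, u1], by linarith only [t1, u2]⟩
  have p1 := rho_pos t
  have p2 := rho_pos (t + 1)
  rw [ph]
  refine ⟨fun m hm n1 n2 => ?_, fun m hm n1 => ?_⟩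
  · rw [e4] at hm
    obtain ⟨f0, f1, f2⟩ := form2 (-1) y (by linarith only [n2]) e3 e2 (by linarith only [hu]) hm
    have k : m.1 ≤ 9 / 10 ∧ tauh 0 (tauh (-1) y) 1 = tauh (-1) y 1 ∧
        ‖tauh 0 (tauh (-1) y) 0‖ = ‖tauh (-1) y 0‖ := by
      rcases tri h0 u (t + 1 - 3 / 4, y 0 / rho (t + 1)) with ⟨c, c1, c2⟩ | ⟨c1, c2, c3, c4⟩
      · obtain ⟨g1, g2⟩ := fix (by linarith only [n2]) e3 e2 (by linarith only [hu]) c2
        have g3 : ‖tauh (-1) y 0‖ = ‖y 0‖ := by rw [g2, norm_mul, c1, one_mul]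
        obtain ⟨g4, g5⟩ := fix (i := 0) (y := tauh (-1) y) (c := 1) (by linarith only [n2, g3]) (g1 ▸ e6) (g1 ▸ e5)
          hu' (by
            rw [one_mul]
            refine (h0.2.2.2.1 _ _ (.inr ?_)).1
            have r1 := rho_thin (t := t) (by nlinarith only [t1, t2])
            have r2 : 1 ≤ normSq (tauh (-1) y 0) / rho t ^ 2 := by
              rw [le_div_iff₀ (by positivity), normSq_eq_norm_sq, g3, one_mul]
              gcongr; linarith only [n1, r1]
            rw [nq_eq]; linarith only [sq_nonneg (t - 3 / 4), r2])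
        exact ⟨by rw [hm, c2]; linarith only [t2], g4, by rw [g5, one_mul]⟩
      · exact ⟨hm ▸ c4, shell h0 h2 (by linarith only [n2]) e3 e2 c1 c2 c3⟩
    push_cast at f1
    rw [sup 1 _ (by rw [k.2.1, f1]; push_cast; linarith only [k.1]),
      sup 2 _ (by rw [k.2.1, f1]; push_cast; linarith only [k.1]), k.2.1, k.2.2, f0, norm_mul,
      norm_real, Real.norm_of_nonneg (rho_pos _).le]
    refine ⟨by linarith only [f1], f2, rfl, fun h => ?_⟩
    rw [sup 0 _ (by rw [f1, h]; norm_num), f0, h, neg_add_cancel]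
  · obtain ⟨g1, g2⟩ := fix (c := th u) (by linarith only [n1]) e3 e2 (by linarith only [hu])
      (h0.2.2.2.2.1 _ _ (by
        have r1 := rho_fat (t := t + 1) (by nlinarith only [t1])
        have r2 : normSq (y 0) / rho (t + 1) ^ 2 ≤ (1 / 9) ^ 2 := by
          rw [div_le_iff₀ (by positivity), normSq_eq_norm_sq, ← mul_pow]
          gcongr; linarith only [n1, r1]
        rw [nq_eq]; nlinarith only [t1, t2, r2])).1
    have g3 : ‖tauh (-1) y 0‖ ≤ 9 / 20 := by
      rw [g2, norm_mul, h0.2.2.2.2.2.1, one_mul]; linarith only [n1]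
    rw [← g2] at hm
    obtain ⟨f0, f1, f2⟩ := form2 0 (tauh (-1) y) g3 (g1 ▸ e6) (g1 ▸ e5) hu' hm
    have k : m.1 ≤ 9 / 10 ∧ tauh 1 (tauh 0 (tauh (-1) y)) 1 = tauh 0 (tauh (-1) y) 1 := by
      rcases tri h0 (u + 1 - 2 * t) (t - 3 / 4, tauh (-1) y 0 / rho t) with
        ⟨c, -, c2⟩ | ⟨c1, c2, c3, c4⟩
      · have : m.1 = t - 3 / 4 := by rw [hm, c2]
        exact ⟨by linarith only [t2, this], by rw [sup 1 _ (by rw [f1, this]; push_cast; linarith only [t2])]⟩
      · exact ⟨hm ▸ c4, (shell h0 h2 g3 (g1 ▸ e6) (g1 ▸ e5) c1 c2 c3).1⟩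
    push_cast at f1
    rw [sup 2 _ (by rw [k.2, f1]; push_cast; linarith only [k.1]), k.2]
    refine ⟨by linarith only [f1], f2, fun h => ?_⟩
    rw [sup 1 _ (by rw [f1, h]; norm_num), f0, h, neg_add_cancel]

end Pool.Agent.MP_be5fd0_gt.T

/-! All zeros of the counting map lie in one small box. -/

namespace Pool.Agent.MP_be5fd0_gt.T

open Complex Filter Topology Set Metric MeasureTheory
open scoped ContDiff BoundedContinuousFunction

namespace B2'

open P2'

def Sh (t : ℝ) (w : ℂ) : Prop :=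
  64 / 100 < (t - 3 / 4) ^ 2 + normSq w / rho t ^ 2 ∧
    (t - 3 / 4) ^ 2 + normSq w / rho t ^ 2 < 81 / 100

theorem Sh.bd {t : ℝ} {w : ℂ} (h : Sh t w) : -(3 / 20) < t ∧ t < 33 / 20 := by
  have q1 : 0 ≤ normSq w / rho t ^ 2 := div_nonneg (normSq_nonneg _) (sq_nonneg _)
  have a := abs_lt.1 (abs_lt_of_sq_lt_sq (a := t - 3 / 4) (b := 9 / 10) (by linarith [h.2])
    (by norm_num))
  exact ⟨by linarith only [a.1], by linarith only [a.2]⟩

theorem Sh.box {t : ℝ} {w : ℂ} (h : Sh t w) : |w.re| ≤ 9 / 20 ∧ |w.im| ≤ 9 / 20 :=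
  ⟨(abs_re_le_norm _).trans (norm_le h.2.le), (abs_im_le_norm _).trans (norm_le h.2.le)⟩

theorem Sh.thin {t : ℝ} {w : ℂ} (h : Sh t w) (ht : t = 1 / 2 ∨ t = 1) :
    |w.re| ≤ 1 / 200 ∧ |w.im| ≤ 1 / 200 := by
  have e : rho t = 1 / 200 := by rcases ht with rfl | rfl <;> norm_num [rho]
  have h2 := h.2
  rw [e, normSq_apply, div_eq_mul_inv _ (_ ^ 2)] at h2
  have := sq_nonneg (t - 3 / 4)
  have := mul_self_nonneg w.re
  have := mul_self_nonneg w.im
  constructor <;> refine abs_le_of_sq_le_sq ?_ (by norm_num) <;> norm_num only [] at h2 ⊢ <;> linarith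

theorem Sh.fat {t : ℝ} {w : ℂ} (h : Sh t w) (ht : t = 0 ∨ t = 3 / 2) :
    1 / 400 < w.re * w.re + w.im * w.im ∧ |w.im| < 1 / 8 := by
  have e : rho t = 41 / 200 := by rcases ht with rfl | rfl <;> norm_num [rho]
  have e' : (t - 3 / 4) ^ 2 = 9 / 16 := by rcases ht with rfl | rfl <;> norm_num
  obtain ⟨h1, h2⟩ := h
  rw [e, e', normSq_apply, div_eq_mul_inv _ (_ ^ 2)] at h1 h2
  have := mul_self_nonneg w.re
  norm_num at h1 h2
  exact ⟨by linarith only [h1], abs_lt_of_sq_lt_sq (by linarith only [this, h2]) (by norm_num)⟩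

theorem lab_sh {y y' : E} {i j : ℤ} {n : ℂ} (h : Lab y y' i j n) : ∃ t u T : ℝ,
    (y 1).re = i + t ∧ (y 1).im = j + u + Kf t ∧ |u| < 1 / 100 ∧ (y' 1).re = i + T ∧
      (y' 1).im = j + u + Kf T ∧ Sh t (y 0 - n) ∧ Sh T (y' 0 - n) := by
  obtain ⟨t, u, T, a, b, c, d, e, l1, l2, l3⟩ := h
  exact ⟨t, u, T, a, b, c, d, e, ⟨l1, l2⟩, by rw [Sh, l3]; exact ⟨l1, l2⟩⟩

theorem int_eq {k l : ℤ} (a : (l : ℝ) - 1 < k) (b : (k : ℝ) < l + 1) : k = l := by
  have a' : l - 1 < k := by exact_mod_cast a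
  have b' : k < l + 1 := by exact_mod_cast b
  omega

theorem int_two {k l : ℤ} (a : (l : ℝ) - 1 < k) (b : (k : ℝ) < l + 2) : k = l ∨ k = l + 1 := by
  have a' : l - 1 < k := by exact_mod_cast a
  have b' : k < l + 2 := by exact_mod_cast b
  omega

theorem cls (i j i' j' m : ℤ) (t u T t' u' T' : ℝ) (hu : |u| < 1 / 100) (hu' : |u'| < 1 / 100)
    (b1 : -(3 / 20) < t ∧ t < 33 / 20) (b2 : -(3 / 20) < T ∧ T < 33 / 20)
    (b3 : -(3 / 20) < t' ∧ t' < 33 / 20) (b4 : -(3 / 20) < T' ∧ T' < 33 / 20)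
    (h1 : i + t = i' + t') (h2 : j + u + Kf t = j' + u' + Kf t') (h3 : i' + T' = i + T + 1)
    (h4 : j' + u' + Kf T' = j + u + Kf T + m) :
    (t' = t ∧ T' = T + 1 ∧ ((m = 1 ∧ T = 0) ∨ (m = 0 ∧ T = 1 / 2))) ∨
      (t' = t - 1 ∧ T' = T ∧ ((m = 0 ∧ t = 3 / 2) ∨ (m = 1 ∧ t = 1))) := by
  obtain ⟨u1, u2⟩ := abs_lt.1 hu
  obtain ⟨u3, u4⟩ := abs_lt.1 hu'
  rcases int_two (k := i') (l := i) (by linarith only [b2.1, b4.2, h3]) (by linarith only [b1.2, b3.1, h1])
    with rfl | rfl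
  · obtain rfl : t' = t := by linarith only [h1]
    obtain rfl : T' = T + 1 := by linarith only [h3]
    obtain rfl : j' = j := int_eq (by linarith only [u1, u4, h2]) (by linarith only [u2, u3, h2])
    have e : (m : ℝ) = 1 - 2 * T := by simp only [Kf] at h4; linarith only [h2, h4]
    refine .inl ⟨rfl, rfl, ?_⟩
    rcases int_two (k := m) (l := 0) (by push_cast; linarith only [b4.2, e])
      (by push_cast; linarith only [b2.1, e]) with rfl | rfl
    · exact .inr ⟨rfl, by push_cast at e; linarith only [e]⟩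
    · exact .inl ⟨rfl, by push_cast at e; linarith only [e]⟩
  · push_cast at h1 h3
    obtain rfl : t' = t - 1 := by linarith only [h1]
    obtain rfl : T' = T := by linarith only [h3]
    obtain rfl : j' = j + m := int_eq (by push_cast; linarith only [u1, u4, h4]) (by push_cast; linarith only [u2, u3, h4])
    have e : (m : ℝ) = 3 - 2 * t := by simp only [Kf] at h2; push_cast at h2 h4; linarith only [h2, h4]
    refine .inr ⟨rfl, rfl, ?_⟩
    rcases int_two (k := m) (l := 0) (by push_cast; linarith only [b1.2, e])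
      (by push_cast; linarith only [b3.1, e]) with rfl | rfl
    · exact .inl ⟨rfl, by push_cast at e; linarith only [e]⟩
    · exact .inr ⟨rfl, by push_cast at e; linarith only [e]⟩

theorem un (h3 : StP3) (x q : E) (m : ℤ) (a : q 1 = x 1) (hx : phi x 1 = x 1)
    (e1 : (phi q 1).re = (phi x 1).re + 1) (e2 : (phi q 1).im = (phi x 1).im + m) :
    ∃ i : ℤ, (m = 1 ∧ (x 1).re = i) ∨ (m = 0 ∧ (x 1).re = i + 1 / 2) := by
  rw [hx, ← a] at e1 e2
  rcases h3.2.2.1 q with h | ⟨i, j, n, -, hl⟩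
  · rw [h] at e1; linarith
  obtain ⟨t, u, T, a1, a2, hu, a3, a4, s1, s2⟩ := lab_sh hl
  rw [← a, a1]
  rcases cls i j i j m t u t t u T hu hu s1.bd s1.bd s1.bd s2.bd rfl rfl (by linarith only [e1, a1, a3])
    (by linarith only [e2, a2, a4]) with ⟨-, -, ⟨c, d⟩ | ⟨c, d⟩⟩ | ⟨c, -⟩
  · exact ⟨i, .inl ⟨c, by linarith only [d]⟩⟩
  · exact ⟨i, .inr ⟨c, by linarith only [d]⟩⟩
  · linarith only [c]

theorem ev (h3 : StP3) (x q : E) (m : ℤ) (a : q 1 = x 1) {i j : ℤ} {t u T : ℝ}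
    (a1 : (x 1).re = i + t) (a2 : (x 1).im = j + u + Kf t) (hu : |u| < 1 / 100)
    (a3 : (phi x 1).re = i + T) (a4 : (phi x 1).im = j + u + Kf T)
    (b1 : -(3 / 20) < t ∧ t < 33 / 20) (b2 : -(3 / 20) < T ∧ T < 33 / 20)
    (e1 : (phi q 1).re = (phi x 1).re + 1) (e2 : (phi q 1).im = (phi x 1).im + m) :
    (((m = 1 ∧ T = 0) ∨ (m = 0 ∧ T = 1 / 2)) ∧
      (t = T + 1 ∨ ∃ n, IsG n ∧ Sh t (q 0 - n) ∧ Sh (T + 1) (phi q 0 - n))) ∨
    (((m = 0 ∧ t = 3 / 2) ∨ (m = 1 ∧ t = 1)) ∧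
      ∃ n, IsG n ∧ Sh (t - 1) (q 0 - n) ∧ Sh T (phi q 0 - n)) := by
  rcases h3.2.2.1 q with h | ⟨i', j', n, hn, hl⟩
  · rw [h, a] at e1 e2
    rcases cls i j i j m t u T t u t hu hu b1 b2 b1 b1 rfl rfl (by linarith only [a1, a3, e1]) (by linarith only [a2, a4, e2])
      with ⟨-, c, d⟩ | ⟨c, -⟩
    · exact .inl ⟨d, .inl c⟩
    · linarith only [c]
  obtain ⟨t', u', T', c1, c2, hu', c3, c4, s1, s2⟩ := lab_sh hl
  rw [a] at c1 c2
  rcases cls i j i' j' m t u T t' u' T' hu hu' b1 b2 s1.bd s2.bd (by linarith only [a1, c1]) (by linarith only [a2, c2])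
    (by linarith only [a3, e1, c3]) (by linarith only [a4, e2, c4]) with ⟨rfl, rfl, d⟩ | ⟨rfl, rfl, d⟩
  · exact .inl ⟨d, .inr ⟨n, hn, s1, s2⟩⟩
  · exact .inr ⟨d, n, hn, s1, s2⟩

theorem cell_eq {n n' : ℂ} (hn : IsG n) (hn' : IsG n') (a : |n'.re - n.re| < 1)
    (b : |n'.im - n.im| < 1) : n' = n := by
  obtain ⟨j, k, rfl⟩ := hn
  obtain ⟨j', k', rfl⟩ := hn'
  simp only [add_re, intCast_re, mul_re, I_re, mul_zero, intCast_im, I_im, mul_one, sub_self,
    add_zero, add_im, mul_im, zero_add] at a b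
  rw [int_eq (k := j') (l := j) (by linarith [(abs_lt.1 a).1]) (by linarith [(abs_lt.1 a).2]),
    int_eq (k := k') (l := k) (by linarith [(abs_lt.1 b).1]) (by linarith [(abs_lt.1 b).2])]

theorem main (h3 : StP3) (x y2 y1 : E) (r r' : ℝ) (hr : 0 ≤ r) (f2 : y2 1 = x 1) (f1 : y1 1 = x 1)
    (o2 : (y2 0).re = (x 0).re) (o1 : (y1 0).re = (x 0).re) (l02 : (x 0).im ≤ (y2 0).im)
    (l21 : (y2 0).im ≤ (y1 0).im) (a1 : (phi y1 1).re = (phi x 1).re + 1)
    (a2 : (phi y1 1).im = (phi x 1).im) (a3 : (phi y1 0).im = (phi x 0).im - r)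
    (b1 : (phi y2 1).re = (phi x 1).re + 1) (b2 : (phi y2 1).im = (phi x 1).im + 1)
    (b3 : (phi y2 0).im = (phi x 0).im - r') :
    ∃ (n : ℂ) (i j : ℤ), IsG n ∧ (x 1).re = i + 3 / 2 ∧ |(x 1).im - j - Kf (3 / 2)| < 1 / 100 ∧
      |(x 0).re - n.re| < 1 / 80 ∧ -(1 / 8) < (x 0).im - n.im ∧ (y2 0).im - n.im < -(1 / 80) ∧
      |(y1 0).im - n.im| < 1 / 80 ∧ r < 1 ∧ r' < 1 := by
  rcases h3.2.2.1 x with h | ⟨i, j, n, hn, hl⟩
  · obtain ⟨i, ⟨c, -⟩ | ⟨-, c⟩⟩ := un h3 x y1 0 f1 h a1 (by simpa using a2)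
    · omega
    obtain ⟨i', ⟨-, d⟩ | ⟨d, -⟩⟩ := un h3 x y2 1 f2 h b1 (by simpa using b2)
    · have := int_eq (k := i') (l := i) (by linarith only [c, d]) (by linarith only [c, d])
      subst this; linarith only [d, c]
    · omega
  obtain ⟨t, u, T, c1, c2, hu, c3, c4, s1, s2⟩ := lab_sh hl
  have A := ev h3 x y1 0 f1 c1 c2 hu c3 c4 s1.bd s2.bd a1 (by simpa using a2)
  have B := ev h3 x y2 1 f2 c1 c2 hu c3 c4 s1.bd s2.bd b1 (by simpa using b2)
  simp only [zero_ne_one, one_ne_zero, false_and, true_and, false_or, or_false] at A B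
  have x1 := abs_le.1 s1.box.1
  have x2 := abs_le.1 s1.box.2
  have x3 := abs_le.1 s2.box.2
  have same : ∀ {n1 : ℂ} {t1 T1 : ℝ}, IsG n1 → Sh t1 (y1 0 - n1) → Sh T1 (phi y1 0 - n1) →
      n1 = n := fun hn1 p q => by
    have p1 := abs_le.1 p.box.1
    have p2 := abs_le.1 p.box.2
    have p3 := abs_le.1 q.box.2
    simp only [sub_re, sub_im] at *
    exact cell_eq hn hn1 (abs_lt.2 ⟨by linarith only [p1.2, x1.1, o1], by linarith only [p1.1, x1.2, o1]⟩)
      (abs_lt.2 ⟨by linarith only [p2.2, x2.1, l02, l21], by linarith only [p3.1, x3.2, hr, a3]⟩)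
  have mid : ∀ {n2 : ℂ} {t2 : ℝ}, IsG n2 → Sh t2 (y2 0 - n2) → |(y1 0 - n).im| ≤ 1 / 200 →
      n2 = n := fun hn2 p q => by
    have p1 := abs_le.1 p.box.1
    have p2 := abs_le.1 p.box.2
    have p3 := abs_le.1 q
    simp only [sub_re, sub_im] at *
    exact cell_eq hn hn2 (abs_lt.2 ⟨by linarith only [p1.2, x1.1, o2], by linarith only [p1.1, x1.2, o2]⟩)
      (abs_lt.2 ⟨by linarith only [p2.2, x2.1, l02], by linarith only [p2.1, p3.2, l21]⟩)
  rcases A with ⟨a, A⟩ | ⟨a, n1, hn1, p, q⟩ <;> rcases B with ⟨b, B⟩ | ⟨b, n2, hn2, p', q'⟩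
  · linarith only [a, b]
  · exfalso
    obtain A | ⟨n1, hn1, p, q⟩ := A
    · linarith only [a, b, A]
    obtain rfl := same hn1 p q
    have k1 := p.thin (.inr b)
    obtain rfl := mid hn2 p' k1.2
    have k2 := abs_le.1 (s1.thin (.inr b)).2
    have k3 := (p'.fat (.inl (by linarith only [b]))).1
    have k4 := abs_le.1 k1.1
    have k5 := abs_le.1 k1.2
    have k6 := abs_mul_abs_self (y2 0 - n2).re
    have k7 := abs_mul_abs_self (y2 0 - n2).im
    have k8 : |(y2 0 - n2).re| ≤ 1 / 200 := by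
      simp only [sub_re] at *; exact abs_le.2 ⟨by linarith only [k4.1, o2, o1], by linarith only [k4.2, o2, o1]⟩
    have k9 : |(y2 0 - n2).im| ≤ 1 / 200 := by
      simp only [sub_im] at *; exact abs_le.2 ⟨by linarith only [k2.1, l02], by linarith only [k5.2, l21]⟩
    linarith only [mul_self_le_mul_self (abs_nonneg _) k8, mul_self_le_mul_self (abs_nonneg _) k9, k3, k6, k7]
  · obtain B | ⟨n2, hn2, p', q'⟩ := B
    · linarith only [a, b, B]
    obtain rfl := same hn1 p q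
    have k1 := p.thin (.inl (by linarith only [a]))
    obtain rfl := mid hn2 p' k1.2
    have k2 := abs_lt.1 (s1.fat (.inr a)).2
    have k3 := (p'.fat (.inr a)).1
    have k4 := abs_le.1 k1.1
    have k5 := abs_le.1 k1.2
    have k6 := abs_le.1 q.box.2
    have k7 := abs_le.1 q'.box.2
    simp only [sub_re, sub_im] at *
    refine ⟨n2, i, j, hn, by linarith only [c1, a], by rw [c2, a]; convert hu using 2; ring,
      abs_lt.2 ⟨by linarith only [k4.1, o1], by linarith only [k4.2, o1]⟩, k2.1, ?_,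
      abs_lt.2 ⟨by linarith only [k5.1], by linarith only [k5.2]⟩, by linarith only [k6.1, x3.2, a3],
      by linarith only [k7.1, x3.2, b3]⟩
    by_contra k
    have k8 : |(y2 0).re - n2.re| ≤ 1 / 200 := abs_le.2 ⟨by linarith only [k4.1, o2, o1], by linarith only [k4.2, o2, o1]⟩
    have k9 : |(y2 0).im - n2.im| ≤ 1 / 80 := abs_le.2 ⟨by linarith only [k], by linarith only [k5.2, l21]⟩
    linarith only [mul_self_le_mul_self (abs_nonneg _) k8, mul_self_le_mul_self (abs_nonneg _) k9, abs_mul_abs_self ((y2 0).re - n2.re), abs_mul_abs_self ((y2 0).im - n2.im), k3]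
  · linarith only [a, b]

end B2'

open B2' in
theorem thB2 (h3 : StP3) : StB2 := by
  rintro R hR x e ⟨⟨s0, s1⟩, -, ⟨r0, -⟩, ⟨r0', -⟩⟩ ht hF
  have hF1 := congrArg Prod.fst hF
  have hF2 := congrArg Prod.snd hF
  simp only [Fneg, Prod.fst_zero, Prod.snd_zero] at hF1 hF2
  generalize hy2 : x + gam (e 0).re = y2 at hF1 hF2
  generalize hy1 : y2 + mk ⟨0, -2 * (e 0).im⟩ 0 = y1 at hF1
  have co : ∀ {z : E}, z = 0 → (z 0).im = 0 ∧ (z 1).re = 0 ∧ (z 1).im = 0 := by
    rintro _ rfl; simp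
  obtain ⟨a3, a1, a2⟩ := co hF1
  obtain ⟨b3, b1, b2⟩ := co hF2
  simp only [va, mk, Fin.isValue, PiLp.add_apply, PiLp.sub_apply, Matrix.cons_val_one, Matrix.cons_val_fin_one, add_zero, sub_re, one_re, sub_im, one_im, sub_zero, Matrix.cons_val_zero, add_im, vb, add_re, I_re, I_im, zero_add] at a1 a2 a3 b1 b2 b3
  have f1 : y1 1 = y2 1 := by simp [← hy1, mk]
  have o1 : (y1 0).re = (y2 0).re := by simp [← hy1, mk]
  have l1' : (y1 0).im = (y2 0).im - 2 * (e 0).im := by simp [← hy1, mk]; ring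
  have o2 : (y2 0).re = (x 0).re := by simp only [← hy2, gam, mk, Fin.isValue, PiLp.add_apply, Matrix.cons_val_zero, add_re, add_zero]
  have l2' : (y2 0).im = (x 0).im + 2 * min 1 (min (3 * (e 0).re) (3 - 3 * (e 0).re)) := by
    simp only [← hy2, gam, mk, Fin.isValue, PiLp.add_apply, Matrix.cons_val_zero, add_im]
  have f2 : y2 1 = x 1 + ⟨0, max 0 (min 1 (3 * (e 0).re - 1))⟩ := by simp only [Fin.isValue, ← hy2, gam, mk, PiLp.add_apply, Matrix.cons_val_one, Matrix.cons_val_fin_one]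
  have La : Lat va := ⟨⟨0, 0, by simp [va, mk]⟩, 1, 0, by simp [va, mk]⟩
  have Lb : Lat vb := ⟨⟨0, 0, by simp [vb, mk]⟩, 1, 1, by simp [vb, mk]⟩
  have Lc : Lat vc := ⟨⟨0, 0, by simp [vc, mk]⟩, 0, 1, by simp [vc, mk]⟩
  rcases le_total (3 * (e 0).re) 1 with c | c
  · rw [min_eq_left (b := 3 - 3 * (e 0).re) (by linarith only [c]), min_eq_right c] at l2'
    rw [max_eq_left ((min_le_right _ _).trans (by linarith only [c]))] at f2
    replace f2 : y2 1 = x 1 := by rw [f2]; apply Complex.ext <;> simp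
    obtain ⟨n, i, j, hn, k1, k2, k3, k4, k5, k6, k7, k8⟩ := main h3 x y2 y1 (e 1).re (e 1).im r0 f2
      (f1.trans f2) o2 (o1.trans o2) (by linarith only [s0, l2']) (by linarith only [ht, l1']) (by linarith only [a1]) (by linarith only [a2])
      (by linarith only [a3]) (by linarith only [b1]) (by linarith only [b2]) (by linarith only [b3])
    have z0 : mk (⟨0, 0⟩ : ℂ) 0 = 0 := by
      ext i; fin_cases i
      · rfl
      · rfl
    have p1 : (e 0).re ≠ 0 := fun h => by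
      have : y2 = x := by
        ext i; fin_cases i
        · exact Complex.ext o2 (by simpa [h] using l2')
        · exact f2
      rw [this] at b1; linarith only [b1]
    have p2 : (e 1).re ≠ 0 := fun h => by
      rw [h, z0, add_zero, sub_sub, sub_eq_zero, ← h3.1.eqv x va La] at hF1
      have := congrArg (fun z : E => (z 1).re) (h3.1.inj hF1)
      simp [f1, f2, va, mk] at this
    have p3 : (e 1).im ≠ 0 := fun h => by
      rw [h, z0, add_zero, sub_sub, sub_eq_zero, ← h3.1.eqv x vb Lb] at hF2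
      have := congrArg (fun z : E => (z 1).re) (h3.1.inj hF2)
      simp [f2, vb, mk] at this
    refine ⟨mk n ((i + 1 : ℤ) + j * I), ⟨by simpa [mk] using hn, i + 1, j, by simp [mk]⟩, ?_⟩
    have q1 : (x 1).re - (i + 1) = 1 / 2 := by linarith only [k1]
    have q2 := s0.lt_of_ne' p1
    simp only [Uo, mem_ofPred_eq, tt, uu, oo, l0, l2, l1, rr, rp]
    simp only [mk, PiLp.sub_apply, Matrix.cons_val_zero, Matrix.cons_val_one, sub_re, sub_im,
      add_re, add_im, intCast_re, intCast_im, mul_re, mul_im, I_re, I_im, mul_zero, mul_one,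
      sub_self, add_zero, zero_add, Int.cast_add, Int.cast_one, q1, one_re, one_im,
      Matrix.cons_val_fin_one]
    refine ⟨by norm_num, by convert k2 using 3; norm_num, k3, k4, by linarith only [q2], by linarith only [l2', k5],
      by convert k6 using 2; linarith only [l1', l2'], r0.lt_of_ne' p2, by linarith only [hR, k7], r0'.lt_of_ne' p3, by linarith only [hR, k8]⟩
  exfalso
  rcases le_total (3 * (e 0).re) 2 with d | d
  · rw [min_eq_left (le_min c (by linarith only [d]))] at l2'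
    have u1 := abs_le.1 ((abs_im_le_norm _).trans (h3.2.1 x))
    have u2 := abs_le.1 ((abs_im_le_norm _).trans (h3.2.1 y2))
    simp only [sub_im] at u1 u2
    linarith only [u1.2, u2.1, r0', b3, l2']
  · rw [min_eq_left (by linarith only [d]), max_eq_right zero_le_one] at f2
    have g := h3.1.eqv x vc Lc
    have g0 : y1 1 = (x + vc) 1 := by rw [f1, f2]; apply Complex.ext <;> simp [vc, mk]
    have g1 : (phi y1 1).re = (phi (x + vc) 1).re + 1 := by rw [g]; simp [vc, mk]; linarith only [a1]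
    have g2 : (phi y1 1).im = (phi (x + vc) 1).im + (-1 : ℤ) := by rw [g]; simp [vc, mk]; linarith only [a2]
    rcases h3.2.2.1 (x + vc) with h | ⟨i, j, n, -, hl⟩
    · obtain ⟨i, ⟨c, -⟩ | ⟨c, -⟩⟩ := un h3 _ y1 (-1) g0 h g1 g2 <;> omega
    · obtain ⟨t, u, T, c1, c2, hu, c3, c4, s1, s2⟩ := lab_sh hl
      obtain ⟨⟨c, -⟩ | ⟨c, -⟩, -⟩ | ⟨⟨c, -⟩ | ⟨c, -⟩, -⟩ :=
        ev h3 _ y1 (-1) g0 c1 c2 hu c3 c4 s1.bd s2.bd g1 g2 <;> omega

end Pool.Agent.MP_be5fd0_gt.T

namespace Pool.Agent.MP_be5fd0_gt.T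

open Complex Filter Topology Set Metric MeasureTheory
open scoped ContDiff BoundedContinuousFunction

noncomputable section

theorem thHR : StHR := by
  intro X Y _ _ _ Ω U
  refine ⟨?_, fun F F' hF hF' h => ⟨fun q => (1 - q.1) • F q.2 + q.1 • F' q.2, ?_,
    fun p _ => by simp, fun p _ => by simp only [sub_self, zero_smul, one_smul, zero_add], h⟩⟩
  · rintro F F' F'' ⟨H, h1, h2, h3, h4⟩ ⟨G, g1, g2, g3, g4⟩
    refine ⟨fun q => H (min 1 (2 * q.1), q.2) + G (max 0 (2 * q.1 - 1), q.2) - G (0, q.2), ?_,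
      fun p hp => ?_, fun p hp => ?_, fun t ht p hp e => ?_⟩
    · refine ((h1.comp (f := fun q : ℝ × X => (min 1 (2 * q.1), q.2)) (by fun_prop) ?_).add
        (g1.comp (f := fun q : ℝ × X => (max 0 (2 * q.1 - 1), q.2)) (by fun_prop) ?_)).sub
        (g1.comp (f := fun q : ℝ × X => ((0 : ℝ), q.2)) (by fun_prop) ?_)
      · exact fun q hq => ⟨⟨le_min zero_le_one (by linarith [hq.1.1]), min_le_left _ _⟩, hq.2⟩
      · exact fun q hq => ⟨⟨le_max_left _ _, max_le zero_le_one (by linarith [hq.1.2])⟩, hq.2⟩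
      · exact fun q hq => ⟨⟨le_rfl, zero_le_one⟩, hq.2⟩
    · simp only [mul_zero, zero_le_one, inf_of_le_right, h2 p hp, zero_sub, Left.neg_nonpos_iff, sup_of_le_left, add_sub_cancel_right]
    · have e1 : min (1 : ℝ) (2 * 1) = 1 := by norm_num
      have e2 : max (0 : ℝ) (2 * 1 - 1) = 1 := by norm_num
      simp only [e1, e2, h3 p hp, g2 p hp, g3 p hp]
      abel
    · rcases le_total (2 * t) 1 with c | c
      · simp only [min_eq_right c, max_eq_left (sub_nonpos.2 c), add_sub_cancel_right] at e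
        exact h4 _ ⟨by linarith only [ht.1], c⟩ p hp e
      · simp only [min_eq_left c, max_eq_right (sub_nonneg.2 c), h3 p hp, g2 p hp,
          add_sub_cancel_left] at e
        exact g4 _ ⟨by linarith, by linarith [ht.2]⟩ p hp e
  · exact ((continuousOn_const.sub continuousOn_fst).smul
      (hF.comp continuousOn_snd fun q hq => hq.2)).add
      (continuousOn_fst.smul (hF'.comp continuousOn_snd fun q hq => hq.2))

namespace B4'

theorem mk0 (a b : ℂ) : mk a b 0 = a := rfl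
theorem mk1 (a b : ℂ) : mk a b 1 = b := rfl

theorem ext4 {x y : E} (h1 : (x 0).re = (y 0).re) (h2 : (x 0).im = (y 0).im)
    (h3 : (x 1).re = (y 1).re) (h4 : (x 1).im = (y 1).im) : x = y := by
  ext i
  fin_cases i
  · exact Complex.ext h1 h2
  · exact Complex.ext h3 h4

theorem nrm (x : E) :
    ‖x‖ ^ 2 = (x 0).re ^ 2 + (x 0).im ^ 2 + (x 1).re ^ 2 + (x 1).im ^ 2 := by
  rw [EuclideanSpace.norm_sq_eq, Fin.sum_univ_two, Complex.sq_norm, Complex.sq_norm,
    normSq_apply, normSq_apply]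
  ring

theorem cre (i : Fin 2) : Continuous fun x : E => (x i).re := by fun_prop
theorem cim (i : Fin 2) : Continuous fun x : E => (x i).im := by fun_prop

theorem ctt : Continuous tt := (cre 1).comp continuous_fst
theorem cuu : Continuous uu := by
  have h := (cre 1).comp (continuous_fst (X := E) (Y := E))
  exact ((cim 1).comp continuous_fst).sub
    ((continuous_const.mul (h.add continuous_const)).sub ((h.add continuous_const).pow 2))
theorem coo : Continuous oo := (cre 0).comp continuous_fst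
theorem cl0 : Continuous l0 := (cim 0).comp continuous_fst
theorem cl2 : Continuous l2 := cl0.add (continuous_const.mul ((cre 0).comp continuous_snd))
theorem cl1 : Continuous l1 := cl2.sub (continuous_const.mul ((cim 0).comp continuous_snd))
theorem crr : Continuous rr := (cre 1).comp continuous_snd
theorem crp : Continuous rp := (cim 1).comp continuous_snd

theorem closed (R : ℝ) : IsClosed (Om R) :=
  (isClosed_le (ctt.sub continuous_const).abs continuous_const).inter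
  ((isClosed_le cuu.abs continuous_const).inter ((isClosed_le coo.abs continuous_const).inter
  ((isClosed_le continuous_const cl0).inter ((isClosed_le cl0 cl2).inter
  ((isClosed_le cl2 continuous_const).inter ((isClosed_le cl1.abs continuous_const).inter
  ((isClosed_le continuous_const crr).inter ((isClosed_le crr continuous_const).inter
  ((isClosed_le continuous_const crp).inter (isClosed_le crp continuous_const))))))))))

theorem opn (R : ℝ) : IsOpen (Uo R) :=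
  (isOpen_lt (ctt.sub continuous_const).abs continuous_const).inter
  ((isOpen_lt cuu.abs continuous_const).inter ((isOpen_lt coo.abs continuous_const).inter
  ((isOpen_lt continuous_const cl0).inter ((isOpen_lt cl0 cl2).inter
  ((isOpen_lt cl2 continuous_const).inter ((isOpen_lt cl1.abs continuous_const).inter
  ((isOpen_lt continuous_const crr).inter ((isOpen_lt crr continuous_const).inter
  ((isOpen_lt continuous_const crp).inter (isOpen_lt crp continuous_const))))))))))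

theorem sq_le {a b : ℝ} (h1 : -b ≤ a) (h2 : a ≤ b) : a ^ 2 ≤ b ^ 2 := sq_le_sq' h1 h2

theorem box {R : ℝ} {p : E × E} (hp : p ∈ Om R) :
    p.2 ∈ Qb R ∧ (p.2 0).im ≤ 0 ∧ ‖p.1 - mk 0 ⟨1 / 2, 3 / 4⟩‖ < 1 / 2 := by
  obtain ⟨h1, h2, h3, h4, h5, h6, h7, h8, h9, h10, h11⟩ := hp
  rw [abs_le] at h1 h2 h3 h7
  simp only [tt, uu, oo, l0, l1, l2, rr, rp, Kf] at *
  refine ⟨⟨⟨by linarith only [h5], by linarith only [h4, h6]⟩, ⟨by linarith only [h7.2, h4, h5], by linarith only [h7.1, h6]⟩, ⟨h8, h9⟩, h10,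
    h11⟩, by linarith only [h7.1, h6], lt_of_pow_lt_pow_left₀ 2 (by norm_num) ?_⟩
  rw [nrm]
  simp only [PiLp.sub_apply, mk0, mk1, sub_zero, sub_re, sub_im]
  have a1 := sq_le h3.1 h3.2
  have a2 := sq_le (a := (p.1 0).im) (b := 1 / 8) h4 (by linarith only [h5, h6])
  have a3 := sq_le h1.1 h1.2
  have a4 : ((p.1 1).re + 1) ^ 2 = ((p.1 1).re - 1 / 2) ^ 2 + 3 * (p.1 1).re + 3 / 4 := by ring
  have a5 := sq_nonneg ((p.1 1).re - 1 / 2)
  have a6 := sq_le (a := (p.1 1).im - 3 / 4) (b := 1 / 10) (by linarith only [h2.1, h1.2, a3])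
    (by linarith only [h2.2, h1.1, a5])
  linarith only [a1, a2, a3, a6]

theorem bdd (R : ℝ) (hR : 1 ≤ R) : Bornology.IsBounded (Om R) := by
  refine ((isBounded_ball (x := mk 0 ⟨1 / 2, 3 / 4⟩) (r := 1 / 2)).prod
    (isBounded_closedBall (x := (0 : E)) (r := 2 * R))).subset fun p hp => ?_
  obtain ⟨⟨h1, h2, h3, h4⟩, -, h5⟩ := box hp
  refine ⟨mem_ball_iff_norm.2 h5, mem_closedBall_zero_iff.2
    (le_of_pow_le_pow_left₀ two_ne_zero (by linarith only [hR]) ?_)⟩
  have a1 := sq_le (a := (p.2 0).re) (b := R) (by linarith only [h1.1, hR]) (by linarith [h1.2])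
  have a2 := sq_le (a := (p.2 0).im) (b := R) (by linarith only [h2.1, hR]) (by linarith only [h2.2, hR])
  have a3 := sq_le (a := (p.2 1).re) (b := R) (by linarith only [h3.1, hR]) h3.2
  have a4 := sq_le (a := (p.2 1).im) (b := R) (by linarith only [h4.1, hR]) h4.2
  rw [nrm, mul_pow]
  linarith

/-- the linear part of the third system -/
def lin : (E × E) ≃ₗ[ℝ] (E × E) where
  toFun p := (mk ⟨oo p, l1 p⟩ ⟨rr p, -2 * tt p⟩, mk ⟨vv p, rp p⟩ ⟨l2 p, -l0 p⟩)
  invFun q := (mk ⟨(q.1 0).re, -(q.2 1).im⟩ ⟨-(q.1 1).im / 2, (q.2 0).re⟩,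
    mk ⟨((q.2 1).re + (q.2 1).im) / 6, ((q.2 1).re - (q.1 0).im) / 2⟩ ⟨(q.1 1).re, (q.2 0).im⟩)
  map_add' p q := by
    refine Prod.ext (ext4 ?_ ?_ ?_ ?_) (ext4 ?_ ?_ ?_ ?_) <;>
      simp only [tt, vv, oo, l0, l1, l2, rr, rp, Prod.fst_add, Prod.snd_add, PiLp.add_apply, mk0,
        mk1, add_re, add_im] <;> ring
  map_smul' c p := by
    refine Prod.ext (ext4 ?_ ?_ ?_ ?_) (ext4 ?_ ?_ ?_ ?_) <;>
      simp only [tt, vv, oo, l0, l1, l2, rr, rp, Prod.smul_fst, Prod.smul_snd, PiLp.smul_apply, mk0,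
        mk1, smul_re, smul_im, RingHom.id_apply, smul_eq_mul] <;> ring
  left_inv p := by
    refine Prod.ext (ext4 ?_ ?_ ?_ ?_) (ext4 ?_ ?_ ?_ ?_) <;>
      simp only [tt, vv, oo, l0, l1, l2, rr, rp, mk0, mk1] <;> ring
  right_inv q := by
    refine Prod.ext (ext4 ?_ ?_ ?_ ?_) (ext4 ?_ ?_ ?_ ?_) <;>
      simp only [tt, vv, oo, l0, l1, l2, rr, rp, mk0, mk1] <;> ring

end B4'

open B4' in
theorem thB4 : StB4 := by
  intro R hR
  refine ⟨isCompact_of_isClosed_isBounded (closed R) (bdd R hR), opn R, ?_, fun p hp => box hp,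
    ?_, lin.toContinuousLinearEquiv,
    (mk ⟨0, -(1 / 16)⟩ ⟨1 / 2, 3 / 4⟩, mk ⟨1 / 160, -(1 / 80)⟩ ⟨1 / 2, 1 / 2⟩), ?_, fun p => ?_⟩
  · rintro p ⟨h1, h2, h3, h4, h5, h6, h7, h8, h9, h10, h11⟩
    exact ⟨h1.le, h2.le, h3.le, h4.le, h5.le, h6.le, h7.le, h8.le, h9.le, h10.le, h11.le⟩
  · rintro p ⟨-, -, -, h4, h5, h6, h7, h8, h9, h10, h11⟩
    rw [abs_lt] at h7
    simp only [l0, l1, l2, rr, rp] at *
    exact ⟨⟨by linarith only [h5], by linarith only [h4, h6]⟩, ⟨by linarith only [h7.2, h4, h5], by linarith only [h7.1, h6]⟩, ⟨h8, h9⟩, h10, h11⟩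
  · simp only [Uo, mem_ofPred_eq, tt, uu, oo, l0, l1, l2, rr, rp, Kf, mk0, mk1]
    norm_num
    linarith only [hR]
  · change Sys3 p = lin _
    refine Prod.ext (ext4 ?_ ?_ ?_ ?_) (ext4 ?_ ?_ ?_ ?_) <;>
      simp only [Sys3, lin, LinearEquiv.coe_mk, LinearMap.coe_mk, AddHom.coe_mk, tt, vv, oo, l0, l1,
        l2, rr, rp, Prod.fst_sub, Prod.snd_sub, PiLp.sub_apply, mk0, mk1, sub_re, sub_im] <;> ring

end

end Pool.Agent.MP_be5fd0_gt.T
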